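import Pool.Agent.Lib.MP_e7c912_an.H60Chart

/-! Blocks, and the charts of the inverse map. -/

namespace Pool.Agent.Lib.MP_e7c912_an

open MeasureTheory Filter Metric Set Topology

variable {X : Type} [MetricSpace X] [MeasurableSpace X] {A : Atlas X}

namespace Lyap

variable {F : Dif A} {K' χ δ δ0 : ℝ}

theorem exists_blocks [BorelSpace X] (LY : Lyap F.f (A.coc F.f) K' χ δ δ0) (hδ : 0 < δ) {κ : ℝ}
    (hκ : 0 < κ) : ∃ (Λ : ℕ → Set X) (r0 : ℕ → ℝ), (∀ l, LY.Block κ (r0 l) (Λ l)) ∧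
      LY.R ⊆ ⋃ l, Λ l := by
  obtain ⟨e, he⟩ := exists_surjective_nat (ℕ × ℤ × ℕ)
  have hE : 1 < Real.exp δ := Real.one_lt_exp_iff.mpr hδ
  have hE0 := Real.exp_pos δ
  have hd : 0 < |δ0| + 1 := by positivity
  let B : ℕ × ℤ × ℕ → Set X := fun p => LY.R ∩ ({x | (A.idx x : ℕ) = p.1} ∩
    (LY.r ⁻¹' Ico (Real.exp δ ^ p.2.1) (Real.exp δ ^ (p.2.1 + 1)) ∩
      LY.C ⁻¹' ball (TopologicalSpace.denseSeq (V →L[ℝ] V) p.2.2)
        (κ * Real.exp δ ^ p.2.1 / (2 * (|δ0| + 1)))))
  refine ⟨fun l => B (e l), fun l => Real.exp δ ^ (e l).2.1, fun l => ?_, fun x hx => ?_⟩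
  · dsimp only
    generalize e l = p
    have hr : 0 < Real.exp δ ^ p.2.1 := zpow_pos hE0 _
    refine ⟨LY.measR.inter (MeasurableSet.inter ?_ ((LY.measr measurableSet_Ico).inter
      (LY.measC measurableSet_ball))), inter_subset_left, hr,
      fun x hx x' hx' => Fin.ext (hx.2.1.trans hx'.2.1.symm), fun x hx => hx.2.2.1.1,
      fun x hx x' hx' => ?_, fun x hx x' hx' => ?_⟩
    · exact A.meas_idx (Set.to_countable {i : Fin A.m | (i : ℕ) = p.1}).measurableSet
    · refine hx'.2.2.1.2.le.trans ?_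
      rw [zpow_add_one₀ hE0.ne', mul_comm]
      exact mul_le_mul_of_nonneg_left hx.2.2.1.1 hE0.le
    · have e1 : (LY.Ci x).comp (LY.C x') - ContinuousLinearMap.id ℝ V =
          (LY.Ci x).comp (LY.C x' - LY.C x) := by
        refine ContinuousLinearMap.ext fun v => ?_
        simp [LY.Ci_C x hx.1]
      have h1 : ‖LY.C x' - LY.C x‖ ≤ κ * Real.exp δ ^ p.2.1 / (|δ0| + 1) := by
        have h2 := dist_triangle_right (LY.C x') (LY.C x)
          (TopologicalSpace.denseSeq (V →L[ℝ] V) p.2.2)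
        have h3 := mem_ball.mp hx.2.2.2
        have h4 := mem_ball.mp hx'.2.2.2
        have h5 : κ * Real.exp δ ^ p.2.1 / (|δ0| + 1) =
            2 * (κ * Real.exp δ ^ p.2.1 / (2 * (|δ0| + 1))) := by field_simp
        rw [← dist_eq_norm, h5]
        linarith
      have h2 : ‖LY.Ci x‖ ≤ (|δ0| + 1) / Real.exp δ ^ p.2.1 := by
        rw [le_div_iff₀' hr]
        have h3 := mul_le_mul_of_nonneg_right hx.2.2.1.1 (norm_nonneg (LY.Ci x))
        linarith [LY.r_Ci x hx.1, le_abs_self δ0]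
      rw [e1]
      refine ((LY.Ci x).opNorm_comp_le _).trans
        ((mul_le_mul h2 h1 (norm_nonneg _) (by positivity)).trans_eq ?_)
      field_simp
  · obtain ⟨l, hl⟩ := exists_mem_Ico_zpow (LY.r_pos x hx) hE
    have hr : 0 < Real.exp δ ^ l := zpow_pos hE0 _
    obtain ⟨m, hm⟩ := (TopologicalSpace.denseRange_denseSeq (V →L[ℝ] V)).exists_dist_lt (LY.C x)
      (ε := κ * Real.exp δ ^ l / (2 * (|δ0| + 1))) (by positivity)
    obtain ⟨n, hn⟩ := he (A.idx x, l, m)
    refine mem_iUnion.mpr ⟨n, ?_⟩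
    rw [hn]
    exact ⟨hx, rfl, hl, hm⟩

/-- Exchange of the coordinates. -/
noncomputable def swapL_ch2 : V →L[ℝ] V := ContinuousLinearEquiv.prodComm ℝ ℝ ℝ

theorem swapL_apply_ch2 (v : V) : swapL_ch2 v = v.swap := rfl

theorem norm_swapL_ch2 : ‖swapL_ch2‖ ≤ 1 :=
  ContinuousLinearMap.opNorm_le_bound _ zero_le_one fun v => by
    rw [one_mul, swapL_apply_ch2, Prod.norm_def, Prod.norm_def, max_comm]
    exact le_rfl

theorem norm_comp_swapL_ch2 (T : V →L[ℝ] V) : ‖T.comp swapL_ch2‖ ≤ ‖T‖ :=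
  (T.opNorm_comp_le _).trans (mul_le_of_le_one_right (norm_nonneg _) norm_swapL_ch2)

theorem norm_swapL_comp_ch2 (T : V →L[ℝ] V) : ‖swapL_ch2.comp T‖ ≤ ‖T‖ :=
  (swapL_ch2.opNorm_comp_le _).trans (mul_le_of_le_one_left (norm_nonneg _) norm_swapL_ch2)

/-- The charts for the inverse map: same sizes, coordinates exchanged. -/
theorem exists_symm [BorelSpace X] (LY : Lyap F.f (A.coc F.f) K' χ δ δ0) :
    ∃ LY' : Lyap F.symm.f (A.coc F.symm.f) K' χ δ δ0, LY'.R = LY.R ∧ LY'.r = LY.r ∧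
      (∀ x v, LY'.C x v = LY.C x v.swap) ∧ (∀ x v, LY'.Ci x v = (LY.Ci x v).swap) ∧
      ∀ κ r0 Λ, LY.Block κ r0 Λ → LY'.Block κ r0 Λ := by
  obtain ⟨K, hK⟩ := F.cocycle
  have hinv : ∀ x, F.g x ∈ LY.R ↔ x ∈ LY.R := fun x => by rw [← LY.inv (F.g x), F.fg]
  have ha : ∀ x ∈ LY.R, 0 < |LY.a x| := fun x hx => (Real.exp_pos χ).trans_le (LY.a_ge x hx)
  have hb : ∀ x ∈ LY.R, 0 < |LY.b x| := fun x hx => (abs_nonneg _).lt_of_ne fun h => by
    have := LY.b_ge x hx
    rw [← h, mul_zero] at this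
    exact not_lt.mpr this one_pos
  refine ⟨{ R := LY.R
            C := fun x => (LY.C x).comp swapL_ch2
            Ci := fun x => swapL_ch2.comp (LY.Ci x)
            r := LY.r
            a := fun x => (LY.b (F.g x))⁻¹
            b := fun x => (LY.a (F.g x))⁻¹
            measR := LY.measR
            inv := hinv
            measC := (continuous_id.clm_comp continuous_const).measurable.comp LY.measC
            measCi := (continuous_const.clm_comp continuous_id).measurable.comp LY.measCi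
            measr := LY.measr
            C_Ci := fun x hx v => LY.C_Ci x hx v
            Ci_C := fun x hx v => congrArg Prod.swap (LY.Ci_C x hx v.swap)
            C_le := fun x hx => (norm_comp_swapL_ch2 _).trans (LY.C_le x hx)
            r_pos := LY.r_pos
            r_Ci := fun x hx => (mul_le_mul_of_nonneg_left (norm_swapL_comp_ch2 _)
              (LY.r_pos x hx).le).trans (LY.r_Ci x hx)
            r_up := fun x hx => by
              have := LY.r_down (F.g x) ((hinv x).mpr hx)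
              rwa [F.fg] at this
            r_down := fun x hx => by
              have := LY.r_up (F.g x) ((hinv x).mpr hx)
              rwa [F.fg] at this
            conj := fun x hx v => ?_
            a_ge := fun x hx => ?_
            a_le := fun x hx => ?_
            b_le := fun x hx => ?_
            b_ge := fun x hx => ?_ }, rfl, rfl, fun _ _ => rfl, fun _ _ => rfl,
    fun κ r0 Λ h => ⟨h.meas, h.sub, h.r0_pos, h.idx, h.r_ge, h.r_osc, fun x hx x' hx' => ?_⟩⟩
  · have hy := (hinv x).mpr hx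
    have h1 := LY.conj (F.g x) hy (diag (LY.b (F.g x))⁻¹ (LY.a (F.g x))⁻¹ v).swap
    have h2 : diag (LY.a (F.g x)) (LY.b (F.g x))
        (diag (LY.b (F.g x))⁻¹ (LY.a (F.g x))⁻¹ v).swap = v.swap :=
      Prod.ext (mul_inv_cancel_left₀ (abs_pos.mp (ha _ hy)) _)
        (mul_inv_cancel_left₀ (abs_pos.mp (hb _ hy)) _)
    have h3 := congrArg (fun T : V →L[ℝ] V =>
      T (LY.C (F.g x) (diag (LY.b (F.g x))⁻¹ (LY.a (F.g x))⁻¹ v).swap)) (hK.inv 1 (F.g x))
    simp only [ContinuousLinearMap.comp_apply, h1, h2, Function.iterate_one, F.fg,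
      ContinuousLinearMap.id_apply] at h3
    exact h3
  · have hy := (hinv x).mpr hx
    rw [abs_inv, le_inv_comm₀ (Real.exp_pos χ) (hb _ hy), ← Real.exp_neg]
    exact LY.b_le _ hy
  · have hy := (hinv x).mpr hx
    rw [abs_inv, inv_le_iff_one_le_mul₀ (hb _ hy)]
    exact LY.b_ge _ hy
  · have hy := (hinv x).mpr hx
    rw [abs_inv, Real.exp_neg]
    exact inv_anti₀ (Real.exp_pos χ) (LY.a_ge _ hy)
  · have hy := (hinv x).mpr hx
    rw [abs_inv, ← div_eq_mul_inv, one_le_div (ha _ hy)]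
    exact LY.a_le _ hy
  · refine le_trans (le_of_eq (congrArg norm ?_)) (((norm_swapL_comp_ch2 _).trans
      (norm_comp_swapL_ch2 _)).trans (h.osc x hx x' hx'))
    exact ContinuousLinearMap.ext fun v => rfl

end Lyap

end Pool.Agent.Lib.MP_e7c912_an
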