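import Pool.Agent.Lib.MP_e7c912_an.H60Chart

/-! Closing lemma: a stable curve of a periodic pseudo-orbit, for all nearby maps. -/

namespace Pool.Agent.Lib.MP_e7c912_an

open MeasureTheory Filter Metric Set Topology

variable {X : Type} [MetricSpace X] [MeasurableSpace X] {A : Atlas X} {F : Dif A}
  {K' χ δ δ0 η K2 κ r0 : ℝ} {LY : Lyap F.f (A.coc F.f) K' χ δ δ0} {Λ : Set X}

namespace Close

theorem norm_diag_le {a b K : ℝ} (ha : |a| ≤ K) (hb : |b| ≤ K) : ‖diag a b‖ ≤ K := by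
  refine ContinuousLinearMap.opNorm_le_bound _ ((abs_nonneg a).trans ha) fun z => ?_
  rw [diag_apply, Prod.norm_def, Real.norm_eq_abs, Real.norm_eq_abs, abs_mul, abs_mul]
  exact max_le (mul_le_mul ha (norm_fst_le z) (abs_nonneg _) ((abs_nonneg a).trans ha))
    (mul_le_mul hb (norm_snd_le z) (abs_nonneg _) ((abs_nonneg a).trans ha))

theorem It_add {Fs : ℕ → V → V} {N : ℕ} (h : ∀ k, Fs (k + N) = Fs k) (z : V) (k : ℕ) :
    It Fs (k + N) z = It Fs k (It Fs N z) := by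
  induction k with
  | zero => rw [zero_add]; rfl
  | succ k ih =>
    rw [Nat.add_right_comm]
    change Fs (k + N) (It Fs (k + N) z) = Fs k (It Fs k (It Fs N z))
    rw [h, ih]

/-- `G` is close to `f` in the `C^1` sense. -/
structure Near (F : Dif A) (G : X → X) (ε : ℝ) : Prop where
  sm : A.Sm G
  c0 : ∀ y, dist (G y) (F.f y) ≤ ε
  c1 : ∀ i, ∀ w ∈ A.U i, ‖fderiv ℝ (A.rep G i) w - fderiv ℝ (A.rep F.f i) w‖ ≤ ε

theorem eventually_near {gs : ℕ → X → X} (hs : ∀ n, A.Sm (gs n)) (hc : A.Conv1 gs F.f) {ε : ℝ}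
    (hε : 0 < ε) : ∀ᶠ n in atTop, Near F (gs n) ε := by
  filter_upwards [Metric.tendstoUniformly_iff.1 hc.tendstoUniformly ε hε,
    eventually_all.2 fun i => Metric.tendstoUniformlyOn_iff.1 (hc i).2 ε hε] with n h0 h1
  refine ⟨hs n, fun y => ?_, fun i w hw => ?_⟩
  · rw [dist_comm]
    exact (h0 y).le
  · rw [← dist_eq_norm, dist_comm]
    exact (h1 i w hw).le

variable {G : X → X} {ε : ℝ}

theorem deriv_step (h : Adm F K' χ δ δ0 η K2) (hG : Near F G ε) {y : X} (hy : y ∈ LY.R)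
    (hε : 4 * δ0 * ε ≤ η * LY.r (F.f y)) {z : V} (hz : ‖z‖ ≤ LY.r y) :
    ‖LY.DFc G y (F.f y) z - diag (LY.a y) (LY.b y)‖ ≤ η / 2 := by
  have hfy : F.f y ∈ LY.R := (LY.inv y).2 hy
  have hz' : ‖z‖ < A.ρ := hz.trans_lt (Lyap.adm_r_lt h hy).2.2
  have hr := LY.r_pos y hy
  have hr' := LY.r_pos _ hfy
  have hη := h.par.pos
  have h1 : ‖LY.DFc F.f y (F.f y) z - diag (LY.a y) (LY.b y)‖ ≤ η / 4 := by
    have := Lyap.DFc_lip h hy hz' (z' := 0) (by rw [norm_zero]; exact A.ρ_pos)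
    rw [Lyap.DFc_zero hy, sub_zero] at this
    refine this.trans ?_
    rw [div_mul_eq_mul_div, div_le_iff₀ hr]
    exact mul_le_mul_of_nonneg_left hz (by positivity)
  have e : LY.DFc G y (F.f y) z - LY.DFc F.f y (F.f y) z =
      (LY.Ci (F.f y)).comp ((A.pr (A.idx (F.f y))).comp
        ((fderiv ℝ (A.rep G (A.idx y)) (A.φ (A.idx y) y + LY.C y z) -
          fderiv ℝ (A.rep F.f (A.idx y)) (A.φ (A.idx y) y + LY.C y z)).comp (LY.C y))) := by
    rw [ContinuousLinearMap.sub_comp, ContinuousLinearMap.comp_sub, ContinuousLinearMap.comp_sub]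
    rfl
  have h3 := hG.c1 _ _ (Lyap.mem_U hy hz')
  have hε0 : 0 ≤ ε := (norm_nonneg _).trans h3
  have h2 : ‖LY.DFc G y (F.f y) z - LY.DFc F.f y (F.f y) z‖ ≤ ‖LY.Ci (F.f y)‖ * ε := by
    rw [e]
    refine (ContinuousLinearMap.opNorm_comp_le _ _).trans
      (mul_le_mul_of_nonneg_left ?_ (norm_nonneg _))
    refine (ContinuousLinearMap.opNorm_comp_le _ _).trans
      ((mul_le_of_le_one_left (norm_nonneg _) (A.pr_le _)).trans ?_)
    exact (ContinuousLinearMap.opNorm_comp_le _ _).trans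
      ((mul_le_of_le_one_right (norm_nonneg _) (LY.C_le y hy)).trans h3)
  have h4 : ‖LY.Ci (F.f y)‖ * ε ≤ η / 4 := by
    refine le_of_mul_le_mul_left ?_ hr'
    have := mul_le_mul_of_nonneg_right (LY.r_Ci _ hfy) hε0
    linarith
  have := norm_sub_le_norm_sub_add_norm_sub (LY.DFc G y (F.f y) z) (LY.DFc F.f y (F.f y) z)
    (diag (LY.a y) (LY.b y))
  linarith

theorem deriv_jump (h : Adm F K' χ δ δ0 η K2) (hB : LY.Block κ r0 Λ) (hκ : κ ≤ 1 / 100)
    (hκ' : 4 * κ * K' ≤ η) (hG : Near F G ε) {y y' : X} (hy : y ∈ LY.R) (h1 : F.f y ∈ Λ)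
    (h2 : y' ∈ Λ) (hε : 4 * δ0 * ε ≤ η * LY.r (F.f y)) {z : V} (hz : ‖z‖ ≤ LY.r y) :
    ‖LY.DFc G y y' z - diag (LY.a y) (LY.b y)‖ ≤ η := by
  have h3 := deriv_step h hG hy hε hz
  have hT := hB.osc y' h2 _ h1
  have hκ0 : 0 ≤ κ := (norm_nonneg _).trans hT
  have hη := h.par.pos
  have e : LY.DFc G y y' z - LY.DFc G y (F.f y) z =
      ((LY.Ci y').comp (LY.C (F.f y)) - ContinuousLinearMap.id ℝ V).comp
        (LY.DFc G y (F.f y) z) := by
    rw [ContinuousLinearMap.sub_comp, ContinuousLinearMap.id_comp]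
    congr 1
    refine ContinuousLinearMap.ext fun v => ?_
    simp only [Lyap.DFc, ContinuousLinearMap.comp_apply, LY.C_Ci _ (hB.sub h1), hB.idx y' h2 _ h1]
  have hD : ‖diag (LY.a y) (LY.b y)‖ ≤ K' := by
    refine norm_diag_le (LY.a_le y hy) ((LY.b_le y hy).trans (le_trans ?_ h.one_le'))
    rw [Real.exp_neg]
    exact inv_le_one_of_one_le₀ (by linarith [h.par.h1, h.par.one_le])
  have h4 : ‖LY.DFc G y (F.f y) z‖ ≤ η / 2 + K' := by
    have := norm_le_norm_sub_add (LY.DFc G y (F.f y) z) (diag (LY.a y) (LY.b y))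
    linarith
  have h5 : ‖LY.DFc G y y' z - LY.DFc G y (F.f y) z‖ ≤ κ * (η / 2 + K') := by
    rw [e]
    exact (ContinuousLinearMap.opNorm_comp_le _ _).trans (mul_le_mul hT h4 (norm_nonneg _) hκ0)
  have := norm_sub_le_norm_sub_add_norm_sub (LY.DFc G y y' z) (LY.DFc G y (F.f y) z)
    (diag (LY.a y) (LY.b y))
  nlinarith

theorem shadow (h : Adm F K' χ δ δ0 η K2) (hG : Near F G ε) (hε : ε ≤ A.ρ / 4) {y y' : X}
    (hy : y ∈ LY.R) (hy' : y' ∈ LY.R) (hd : dist (F.f y) y' ≤ A.ρ / 4) {z : V}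
    (hz : ‖z‖ ≤ LY.r y) : LY.Ψ y' (LY.Fc G y y' z) = G (LY.Ψ y z) := by
  refine Lyap.Ψ_Φ hy' ?_
  obtain ⟨-, h1, h2⟩ := Lyap.adm_r_lt h hy
  have hρ := A.ρ_pos
  have hK := A.one_le_K
  have hK2 := h.one_le2
  have hr := LY.r_pos y hy
  have h3 : dist (LY.Ψ y z) y ≤ A.K * LY.r y := by
    have := Lyap.dist_Ψ_le hy (hz.trans_lt h2) (z' := 0) (by rw [norm_zero]; exact hρ)
    rw [Lyap.Ψ_zero, sub_zero] at this
    exact this.trans (mul_le_mul_of_nonneg_left hz (by linarith))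
  have h4 : 0 ≤ A.K * LY.r y := by positivity
  have h5 : dist (F.f (LY.Ψ y z)) (F.f y) ≤ K2 * dist (LY.Ψ y z) y :=
    (h.regf.mono one_le_two le_rfl).up.dist_le F.smf (x := y) (by nlinarith)
      (by rw [dist_self]; exact hρ)
  have h6 := mul_le_mul_of_nonneg_left h3 (show 0 ≤ K2 by linarith)
  have h7 := dist_triangle4 (G (LY.Ψ y z)) (F.f (LY.Ψ y z)) (F.f y) y'
  have h8 := hG.c0 (LY.Ψ y z)
  linarith

end Close

open Close

theorem closing (h : Adm F K' χ δ δ0 η K2) (hB : LY.Block κ r0 Λ) (hκ : κ ≤ 1 / 100)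
    (hκ' : 4 * κ * K' ≤ η) {x0 x : X} (hx0 : x0 ∈ Λ) (hx : x ∈ Λ) (hr : Rec F.f Λ x) {ρ : ℝ}
    (hρ : 0 < ρ) (hρ' : 2 * ρ ≤ r0) (ho : ‖LY.Φ x0 x‖ ≤ ρ / 10) {gs : ℕ → X → X}
    (hs : ∀ n, A.Sm (gs n)) (hc : A.Conv1 gs F.f) {γ : ℝ} (hγ : 0 < γ) :
    ∀ᶠ n in atTop, ∃ (aa : ℝ → ℝ) (N : ℕ), 1 ≤ N ∧
      (∀ s ∈ Icc (-ρ) ρ, ∀ s' ∈ Icc (-ρ) ρ, |aa s - aa s'| ≤ |s - s'| / 10) ∧
      |aa (LY.Φ x0 x).2 - (LY.Φ x0 x).1| ≤ γ ∧
      ∀ s ∈ Icc (-ρ) ρ, Tendsto (fun k : ℕ => dist ((gs n)^[k] (LY.Ψ x0 (aa s, s)))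
        ((gs n)^[k + N] (LY.Ψ x0 (aa s, s)))) atTop (𝓝 0) := by
  have hxR := hB.sub hx
  have hrx := LY.r_pos x hxR
  have hr0 := hB.r0_pos
  have hη := h.par.pos
  have hδ := h.δ_pos
  have hδ0 := h.δ0_pos
  have hρA := A.ρ_pos
  obtain ⟨θ, hθ0, hθ1, hθ⟩ : ∃ θ : ℝ, 0 < θ ∧ θ ≤ 1 ∧ θ * LY.r x = 2 * ρ :=
    ⟨2 * ρ / LY.r x, by positivity, (div_le_one hrx).2 (hρ'.trans (hB.r_ge x hx)),
      div_mul_cancel₀ _ hrx.ne'⟩
  obtain ⟨θ₁, ht0, ht1, ht⟩ : ∃ θ₁ : ℝ, 0 < θ₁ ∧ θ₁ ≤ θ ∧ 2 * (θ₁ * LY.r x) ≤ γ := by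
    refine ⟨min θ (γ / (2 * LY.r x)), by positivity, min_le_left _ _, ?_⟩
    have := (le_div_iff₀ (by positivity)).1 (min_le_right θ (γ / (2 * LY.r x)))
    linarith
  obtain ⟨γ', hg0, hg1, hg2⟩ : ∃ γ' : ℝ, 0 < γ' ∧ γ' ≤ A.ρ / 4 ∧
      2 * δ0 * γ' ≤ η * θ₁ * (Real.exp (-δ) * r0 * r0) := by
    refine ⟨min (A.ρ / 4) (η * θ₁ * (Real.exp (-δ) * r0 * r0) / (2 * δ0)), by positivity,
      min_le_left _ _, ?_⟩
    rw [mul_comm, ← le_div_iff₀ (by positivity)]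
    exact min_le_right _ _
  obtain ⟨N, hN, hNΛ, hNd⟩ := hr γ' hg0
  obtain ⟨m, hm0, hm⟩ : ∃ m : ℝ, 0 < m ∧ ∀ k ≤ N, m ≤ LY.r (F.f^[k] x) := by
    refine ⟨LY.r x * Real.exp (-δ * N), by positivity, fun k hk => le_trans ?_
      (Lyap.r_iter_ge hxR k)⟩
    have : (k : ℝ) ≤ N := Nat.cast_le.2 hk
    exact mul_le_mul_of_nonneg_left (Real.exp_le_exp.2 (by nlinarith)) hrx.le
  obtain ⟨ε, he0, he1, he2, he3⟩ : ∃ ε : ℝ, 0 < ε ∧ ε ≤ A.ρ / 4 ∧ 4 * δ0 * ε ≤ η * m ∧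
      2 * δ0 * ε ≤ η * θ₁ * (m * m) := by
    refine ⟨min (A.ρ / 4) (min (η * m / (4 * δ0)) (η * θ₁ * (m * m) / (2 * δ0))), by positivity,
      min_le_left _ _, ?_, ?_⟩
    · rw [mul_comm, ← le_div_iff₀ (by positivity)]
      exact (min_le_right _ _).trans (min_le_left _ _)
    · rw [mul_comm, ← le_div_iff₀ (by positivity)]
      exact (min_le_right _ _).trans (min_le_right _ _)
  obtain ⟨y, hy0, hyN, hyR, hym, hym', hstep⟩ : ∃ y : ℕ → X, y 0 = x ∧ (∀ k, y (k + N) = y k) ∧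
      (∀ k, y k ∈ LY.R) ∧ (∀ k, m ≤ LY.r (y k)) ∧ (∀ k, m ≤ LY.r (F.f (y k))) ∧
      ∀ k, y (k + 1) = F.f (y k) ∨ (F.f (y k) = F.f^[N] x ∧ y (k + 1) = x) := by
    have hlt : ∀ k, k % N < N := fun k => Nat.mod_lt k hN
    refine ⟨fun k => F.f^[k % N] x, by simp, fun k => by simp, fun k => Lyap.iter_mem hxR _,
      fun k => hm _ (hlt k).le, fun k => ?_, fun k => ?_⟩
    · rw [← Function.iterate_succ_apply' F.f]
      exact hm _ (hlt k)
    · simp only [← Function.iterate_succ_apply' F.f]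
      have e : (k + 1) % N = (k % N + 1) % N := (Nat.mod_add_mod k N 1).symm
      rcases (Nat.succ_le_of_lt (hlt k)).lt_or_eq with h1 | h1
      · left
        rw [e, Nat.mod_eq_of_lt h1]
      · right
        rw [e, h1, show k % N + 1 = N from h1, Nat.mod_self]
        exact ⟨rfl, rfl⟩
  have hE : Real.exp (2 * δ) = Real.exp δ * Real.exp δ := by rw [two_mul, Real.exp_add]
  have hE1 : 1 ≤ Real.exp δ := Real.one_le_exp hδ.le
  have hrad : ∀ k, LY.r (y (k + 1)) ≤ Real.exp (2 * δ) * LY.r (y k) ∧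
      LY.r (y k) ≤ Real.exp (2 * δ) * LY.r (y (k + 1)) := by
    intro k
    have h1 := LY.r_up _ (hyR k)
    have h2 := LY.r_down _ (hyR k)
    have h3 : LY.r (y (k + 1)) ≤ Real.exp δ * LY.r (F.f (y k)) ∧
        LY.r (F.f (y k)) ≤ Real.exp δ * LY.r (y (k + 1)) := by
      rcases hstep k with e | ⟨e, e'⟩
      · rw [e]
        have := le_mul_of_one_le_left (hm0.le.trans (hym' k)) hE1
        exact ⟨this, this⟩
      · rw [e, e']
        exact ⟨hB.r_osc _ hNΛ _ hx, hB.r_osc _ hx _ hNΛ⟩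
    rw [hE, mul_assoc, mul_assoc]
    exact ⟨h3.1.trans (mul_le_mul_of_nonneg_left h1 (Real.exp_pos δ).le),
      h2.trans (mul_le_mul_of_nonneg_left h3.2 (Real.exp_pos δ).le)⟩
  have hjump : ∀ k, dist (F.f (y k)) (y (k + 1)) ≤ A.ρ / 4 ∧
      2 * δ0 * dist (F.f (y k)) (y (k + 1)) ≤ η * θ₁ * (LY.r (y k) * LY.r (y (k + 1))) := by
    intro k
    have p1 := LY.r_pos _ (hyR k)
    have p2 := LY.r_pos _ (hyR (k + 1))
    rcases hstep k with e | ⟨e, e'⟩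
    · rw [← e, dist_self, mul_zero]
      exact ⟨by positivity, by positivity⟩
    · have h1 := LY.r_up _ (hyR k)
      rw [e] at h1
      rw [e, e']
      refine ⟨hNd.le.trans hg1, (mul_le_mul_of_nonneg_left hNd.le (by positivity)).trans
        (hg2.trans (mul_le_mul_of_nonneg_left (mul_le_mul ?_ (hB.r_ge x hx) hr0.le p1.le)
          (by positivity)))⟩
      rw [Real.exp_neg, inv_mul_le_iff₀ (Real.exp_pos δ)]
      exact (hB.r_ge _ hNΛ).trans h1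
  filter_upwards [eventually_near hs hc he0] with n hG
  generalize gs n = G at hG ⊢
  have hder : ∀ k z, ‖z‖ ≤ LY.r (y k) →
      ‖LY.DFc G (y k) (y (k + 1)) z - diag (LY.a (y k)) (LY.b (y k))‖ ≤ η := by
    intro k z hz
    have h1 : 4 * δ0 * ε ≤ η * LY.r (F.f (y k)) :=
      he2.trans (mul_le_mul_of_nonneg_left (hym' k) hη.le)
    rcases hstep k with e | ⟨e, e'⟩
    · rw [e]
      exact (deriv_step h hG (hyR k) h1 hz).trans (by linarith)
    · exact deriv_jump h hB hκ hκ' hG (hyR k) (e ▸ hNΛ) (e' ▸ hx) h1 hz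
  have hyp : ∀ t, θ₁ ≤ t → t ≤ 1 → Hyp (fun k => LY.Fc G (y k) (y (k + 1)))
      (fun k => LY.a (y k)) (fun k => LY.b (y k)) (fun k => t * LY.r (y k)) (Real.exp χ) η
      (Real.exp (2 * δ)) := by
    intro t h1 h2
    have t0 : 0 < t := ht0.trans_le h1
    refine ⟨fun k => mul_pos t0 (LY.r_pos _ (hyR k)), fun k => ?_, fun k => ?_,
      fun k => LY.a_ge _ (hyR k), fun k => Real.exp_neg χ ▸ LY.b_le _ (hyR k),
      fun k z z' hz hz' => ?_, fun k => ?_⟩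
    · rw [mul_left_comm]
      exact mul_le_mul_of_nonneg_left (hrad k).1 t0.le
    · rw [mul_left_comm]
      exact mul_le_mul_of_nonneg_left (hrad k).2 t0.le
    · have h3 : t * LY.r (y k) ≤ LY.r (y k) :=
        mul_le_of_le_one_left (LY.r_pos _ (hyR k)).le h2
      exact (convex_closedBall (0 : V) (LY.r (y k))).norm_image_sub_le_of_norm_hasFDerivWithin_le'
        (fun w hw => (Lyap.hasFDerivAt_Fc hG.sm (hyR k) (y (k + 1))
          ((mem_closedBall_zero_iff.1 hw).trans_lt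
            (Lyap.adm_r_lt h (hyR k)).2.2)).hasFDerivWithinAt)
        (fun w hw => hder k w (mem_closedBall_zero_iff.1 hw))
        (mem_closedBall_zero_iff.2 (hz'.trans h3)) (mem_closedBall_zero_iff.2 (hz.trans h3))
    · have p1 := LY.r_pos _ (hyR k)
      have p2 := LY.r_pos _ (hyR (k + 1))
      have h3 := Lyap.norm_Φ_sub_le (hyR (k + 1)) (G (y k)) (y (k + 1))
      rw [Lyap.Φ_self, sub_zero] at h3
      have h4 := mul_le_mul_of_nonneg_left ((dist_triangle (G (y k)) (F.f (y k)) (y (k + 1))).trans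
        (add_le_add_left (hG.c0 (y k)) _)) hδ0.le
      have h5 := he3.trans (mul_le_mul_of_nonneg_left
        (mul_le_mul (hym k) (hym (k + 1)) hm0.le p1.le) (by positivity))
      have h6 := (hjump k).2
      have h7 : η * θ₁ * (LY.r (y k) * LY.r (y (k + 1))) ≤
          η * t * (LY.r (y k) * LY.r (y (k + 1))) := by gcongr
      refine le_of_mul_le_mul_left ?_ p2
      simp only [Lyap.Fc, Lyap.Ψ_zero]
      linarith
  have hT : ‖(LY.Ci x).comp (LY.C x0) - ContinuousLinearMap.id ℝ V‖ ≤ 1 / 100 :=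
    (hB.osc x hx x0 hx0).trans hκ
  have H := hyp θ ht1 hθ1
  obtain ⟨aa, hst, hlip⟩ := graph h.par H hT (by simp only [hy0, hθ]) ho
  obtain ⟨u, hu, hus⟩ := graph_at h.par (hyp θ₁ le_rfl (ht1.trans hθ1)) hT (LY.Φ x0 x)
  refine ⟨aa, N, hN, hlip, ?_, fun s hs => ?_⟩
  · have h1 : |(LY.Φ x0 x).2| ≤ ρ := ((norm_snd_le _).trans ho).trans (by linarith)
    have h2 := cone_ref h.par H hT (hst _ (abs_le.1 h1))
      (hus.mono fun k => mul_le_mul_of_nonneg_right ht1 (LY.r_pos _ (hyR k)).le)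
    simp only [sub_self, abs_zero, zero_div, abs_nonpos_iff, sub_eq_zero] at h2
    rw [h2]
    simp only [hy0] at hu
    exact hu.trans ht
  · have hz := hst s hs
    rw [← Lyap.Ψ_change hxR (hB.sub hx0) (hB.idx x hx x0 hx0)]
    generalize (LY.Ci x).comp (LY.C x0) ((aa s, s) - LY.Φ x0 x) = z at hz ⊢
    set Fs : ℕ → V → V := fun k => LY.Fc G (y k) (y (k + 1)) with hFs
    have hper : ∀ k, Fs (k + N) = Fs k := fun k => by
      simp only [hFs, hyN, Nat.add_right_comm k N 1]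
    have hle : ∀ k, ‖It Fs k z‖ ≤ LY.r (y k) := fun k =>
      (hz k).trans (mul_le_of_le_one_left (LY.r_pos _ (hyR k)).le hθ1)
    have horb : ∀ k, G^[k] (LY.Ψ x z) = LY.Ψ (y k) (It Fs k z) := by
      intro k
      induction k with
      | zero => rw [hy0]; rfl
      | succ k ih =>
        rw [Function.iterate_succ_apply', ih]
        exact (shadow h hG he1 (hyR k) (hyR (k + 1)) (hjump k).1 (hle k)).symm
    have hz' : Stay Fs (fun k => θ * LY.r (y k)) (It Fs N z) := fun k => by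
      have h1 := hz (k + N)
      simp only [It_add hper, hyN] at h1
      exact h1
    have hq0 : 0 ≤ (Real.exp χ)⁻¹ + η := by positivity
    have hq1 : (Real.exp χ)⁻¹ + η < 1 := by
      have h1 := h.par.h2
      have h2 : 1 ≤ Real.exp (2 * δ) ^ 3 := one_le_pow₀ h.par.one_le
      have h3 := le_mul_of_one_le_right (show 0 ≤ (Real.exp χ)⁻¹ + 100 * η by positivity) h2
      linarith
    have lim : Tendsto (fun k : ℕ => A.K * (((Real.exp χ)⁻¹ + η) ^ k * ‖z - It Fs N z‖)) atTop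
        (𝓝 0) := by
      simpa using ((tendsto_pow_atTop_nhds_zero_of_lt_one hq0 hq1).mul_const
        ‖z - It Fs N z‖).const_mul A.K
    refine squeeze_zero (fun _ => dist_nonneg) (fun k => ?_) lim
    have h1 := (Lyap.adm_r_lt h (hyR k)).2.2
    have h2 := hle (k + N)
    rw [hyN, It_add hper] at h2
    rw [horb, horb, hyN, It_add hper]
    exact (Lyap.dist_Ψ_le (hyR k) ((hle k).trans_lt h1) (h2.trans_lt h1)).trans
      (mul_le_mul_of_nonneg_left ((cone h.par H hz hz').2 k) (zero_le_one.trans A.one_le_K))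

end Pool.Agent.Lib.MP_e7c912_an
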