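import Pool.Agent.Lib.MP_e7c912_an.H60Chart

/-! Lipschitz stable holonomy and growth of transverse curves. -/

namespace Pool.Agent.Lib.MP_e7c912_an

open MeasureTheory Filter Metric Set Topology

variable {X : Type} [MetricSpace X] [MeasurableSpace X] {A : Atlas X} {F : Dif A}
  {K' χ δ δ0 η K2 κ r0 : ℝ} {LY : Lyap F.f (A.coc F.f) K' χ δ δ0} {Λ : Set X}

/-- Comparison of two expanded sequences of vectors which stay close to each other. -/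
theorem abs_hol {L η E S : ℝ} (hp : Par L η E) {a b τ ε : ℕ → ℝ} (ha : ∀ k, L ≤ |a k|)
    (hb : ∀ k, |b k| ≤ L⁻¹) (hτ : Tendsto τ atTop (𝓝 0)) {D D' : ℕ → V}
    {M M' : ℕ → V →L[ℝ] V} (hS : ∀ n, ∑ k ∈ Finset.range n, ε k ≤ S)
    (hstep : ∀ n, (∀ k ≤ n, ‖D k‖ ≤ τ k ∧ ‖D' k‖ ≤ τ k) →
      ‖M n - diag (a n) (b n)‖ ≤ η ∧ ‖M' n - diag (a n) (b n)‖ ≤ η ∧ ‖M n - M' n‖ ≤ ε n ∧
        D (n + 1) = M n (D n) ∧ D' (n + 1) = M' n (D' n))
    (hd : ∀ k, ‖D k - D' k‖ ≤ τ k / 2) (c0 : |(D 0).2| ≤ |(D 0).1|)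
    (c0' : |(D' 0).2| ≤ |(D' 0).1|) : ‖D 0‖ ≤ 2 * Real.exp (2 * (1 + S)) * ‖D' 0‖ := by
  classical
  by_cases hall : ∀ k, ‖D k‖ ≤ τ k ∧ ‖D' k‖ ≤ τ k
  · have h1 : ∀ n, ‖D 0‖ ≤ τ n := fun n => by
      have hs := fun k => hstep k fun j _ => hall j
      have h2 := (linear_distortion hp (n := n) (fun k _ => ha k) (fun k _ => hb k)
        (fun k _ => (hs k).1) (fun k _ => (hs k).2.1) (fun k _ => (hs k).2.2.1) (hS n)
        (fun k _ => (hs k).2.2.2.1) (fun k _ => (hs k).2.2.2.2) c0 c0').2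
      have h3 : 1 ≤ (L - η) ^ n := one_le_pow₀ (by linarith [hp.one_le, hp.pos, hp.h1])
      exact (le_mul_of_one_le_left (norm_nonneg _) h3).trans (h2.trans (hall n).1)
    exact (ge_of_tendsto' hτ h1).trans (by positivity)
  · have hex : ∃ k, ¬ (‖D k‖ ≤ τ k ∧ ‖D' k‖ ≤ τ k) := not_forall.1 hall
    have hn := Nat.find_spec hex
    set n := Nat.find hex with hn0
    have hs := fun k (hk : k < n) =>
      hstep k fun j hj => not_not.1 (Nat.find_min hex (lt_of_le_of_lt hj hk))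
    have h2 := (linear_distortion hp (n := n) (M := M') (M' := M) (ε := ε) (fun k _ => ha k)
      (fun k _ => hb k) (fun k hk => (hs k hk).2.1) (fun k hk => (hs k hk).1)
      (fun k hk => by rw [norm_sub_rev]; exact (hs k hk).2.2.1) (hS n)
      (fun k hk => (hs k hk).2.2.2.2) (fun k hk => (hs k hk).2.2.2.1) c0' c0).1
    have h3 : ‖D n‖ ≤ ‖D' n‖ + τ n / 2 := by linarith [norm_sub_norm_le (D n) (D' n), hd n]
    have h4 : τ n / 2 < ‖D' n‖ := by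
      have h0 : 0 ≤ τ n / 2 := (norm_nonneg _).trans (hd n)
      by_contra hc
      exact hn ⟨by linarith, by linarith⟩
    have h5 : 0 < ‖D' n‖ := ((norm_nonneg _).trans (hd n)).trans_lt h4
    refine le_of_mul_le_mul_left (h2.trans ?_) h5
    have h6 : ‖D n‖ * ‖D' 0‖ ≤ 2 * ‖D' n‖ * ‖D' 0‖ :=
      mul_le_mul_of_nonneg_right (by linarith) (norm_nonneg _)
    calc _ ≤ Real.exp (2 * (1 + S)) * (2 * ‖D' n‖ * ‖D' 0‖) :=
          mul_le_mul_of_nonneg_left h6 (Real.exp_pos _).le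
      _ = _ := by ring

theorem cone_hol {T : V →L[ℝ] V} (hT : ‖T - ContinuousLinearMap.id ℝ V‖ ≤ 1 / 100) {w : V}
    (hw : w.2 = 0) : |(T w).2| ≤ |(T w).1| ∧ ‖w‖ ≤ 2 * ‖T w‖ ∧ ‖T w‖ ≤ 2 * ‖w‖ := by
  have h1 : ‖T w - w‖ ≤ 1 / 100 * ‖w‖ :=
    ((T - ContinuousLinearMap.id ℝ V).le_opNorm w).trans
      (mul_le_mul_of_nonneg_right hT (norm_nonneg _))
  have h2 : ‖w‖ = |w.1| := by simp [Prod.norm_def, hw]
  have h3 : |(T w).1 - w.1| ≤ ‖T w - w‖ := norm_fst_le (T w - w)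
  have h4 : |(T w).2 - w.2| ≤ ‖T w - w‖ := norm_snd_le (T w - w)
  rw [hw, sub_zero] at h4
  have h5 := abs_sub_abs_le_abs_sub w.1 (T w).1
  rw [abs_sub_comm] at h5
  have h6 := norm_sub_norm_le (T w) w
  have h7 := norm_sub_norm_le w (T w)
  rw [norm_sub_rev] at h7
  have h8 := norm_nonneg w
  exact ⟨by linarith, by linarith, by linarith⟩

theorem step_hol {x y : X} (hx : x ∈ LY.R) (hy : dist y x < A.ρ) :
    LY.Φ (F.f x) (F.f y) = LY.Fc F.f x (F.f x) (LY.Φ x y) := by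
  rw [Lyap.Fc, Lyap.Ψ_Φ hx hy]

theorem near_hol (h : Adm F K' χ δ δ0 η K2) {x y : X} (hx : x ∈ LY.R) (hy : dist y x < A.ρ)
    (hz : ‖LY.Φ x y‖ ≤ LY.r x) : dist (F.f y) (F.f x) < A.ρ := by
  obtain ⟨-, h2, h3⟩ := Lyap.adm_r_lt h hx
  have hρ := A.ρ_pos
  have h4 : dist (F.f y) (F.f x) ≤ K2 * dist y x :=
    (h.regf.mono (by norm_num : 1 ≤ 2) le_rfl).up.dist_le F.smf hy (by rwa [dist_self])
  have h5 := Lyap.dist_Ψ_le hx (hz.trans_lt h3) (z' := 0) (by rwa [norm_zero])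
  rw [Lyap.Ψ_Φ hx hy, Lyap.Ψ_zero, sub_zero] at h5
  have hK : 0 ≤ A.K := zero_le_one.trans A.one_le_K
  have hK2 : 0 ≤ K2 := zero_le_one.trans h.one_le2
  have h6 : K2 * dist y x ≤ K2 * (A.K * LY.r x) :=
    mul_le_mul_of_nonneg_left (h5.trans (mul_le_mul_of_nonneg_left hz hK)) hK2
  linarith

theorem sec_hol (h : Adm F K' χ δ δ0 η K2) {x : X} (hx : x ∈ LY.R) :
    (∀ p p', ‖p‖ ≤ LY.r x → ‖p'‖ ≤ LY.r x → LY.Fc F.f x (F.f x) p' - LY.Fc F.f x (F.f x) p =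
      sec (LY.DFc F.f x (F.f x)) p p' (p' - p)) ∧
    (∀ p p' q q', ‖p‖ ≤ LY.r x → ‖p'‖ ≤ LY.r x → ‖q‖ ≤ LY.r x → ‖q'‖ ≤ LY.r x →
      ‖sec (LY.DFc F.f x (F.f x)) p p' - sec (LY.DFc F.f x (F.f x)) q q'‖ ≤
        η / 4 / LY.r x * max ‖p - q‖ ‖p' - q'‖) ∧
    ∀ p p', ‖p‖ ≤ LY.r x → ‖p'‖ ≤ LY.r x →
      ‖sec (LY.DFc F.f x (F.f x)) p p' - diag (LY.a x) (LY.b x)‖ ≤ η := by
  have h3 := (Lyap.adm_r_lt h hx).2.2
  have hr := LY.r_pos x hx
  have hη := h.par.pos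
  obtain ⟨h1, h2, h4⟩ := sec_spec (G := LY.Fc F.f x (F.f x)) (ρ := LY.r x) (Λ := η / 4 / LY.r x)
    (fun z hz => Lyap.hasFDerivAt_Fc F.smf hx (F.f x) (hz.trans_lt h3))
    (fun z z' hz hz' => Lyap.DFc_lip h hx (hz.trans_lt h3) (hz'.trans_lt h3)) (by positivity)
  refine ⟨h1, h2, fun p p' hp hp' => ?_⟩
  have h5 := h4 p p' hp hp'
  rw [Lyap.DFc_zero hx, div_mul_cancel₀ _ hr.ne'] at h5
  linarith

theorem exp_hol (hδ : 0 < δ) (k : ℕ) : 0 < Real.exp (-δ * k) ∧ Real.exp (-δ * k) ≤ 1 ∧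
    Real.exp (-(6 * δ) * k) ≤ Real.exp (-δ * k) ^ 3 := by
  have h : 0 ≤ δ * k := by positivity
  refine ⟨Real.exp_pos _, Real.exp_le_one_iff.2 (by linarith), ?_⟩
  rw [← Real.exp_nat_mul]
  exact Real.exp_le_exp.2 (by push_cast; linarith)

theorem sum_hol (hδ : 0 < δ) (hη : 0 < η) (n : ℕ) :
    ∑ k ∈ Finset.range n, η * Real.exp (-δ * k) ≤ η * (1 - Real.exp (-δ))⁻¹ := by
  have h0 := (Real.exp_pos (-δ)).le
  have h1 : Real.exp (-δ) < 1 := Real.exp_lt_one_iff.2 (by linarith)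
  rw [← Finset.mul_sum, ← tsum_geometric_of_lt_one h0 h1]
  refine mul_le_mul_of_nonneg_left ?_ hη.le
  simp only [mul_comm (-δ), Real.exp_nat_mul]
  exact (summable_geometric_of_lt_one h0 h1).sum_le_tsum _ fun k _ => pow_nonneg h0 k

theorem tendsto_hol (hδ : 0 < δ) (c : ℝ) :
    Tendsto (fun k : ℕ => c * Real.exp (-δ * k)) atTop (𝓝 0) := by
  have h0 := (Real.exp_pos (-δ)).le
  have h1 : Real.exp (-δ) < 1 := Real.exp_lt_one_iff.2 (by linarith)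
  simp only [mul_comm (-δ), Real.exp_nat_mul]
  simpa using (tendsto_pow_atTop_nhds_zero_of_lt_one h0 h1).const_mul c

theorem norm_st_hol (h : Adm F K' χ δ δ0 η K2) {x y : X} (hx : x ∈ LY.R) (hy : LY.St 1 x y)
    (k : ℕ) : ‖LY.Φ (F.f^[k] x) (F.f^[k] y)‖ ≤ Real.exp (-δ * k) ^ 3 * ‖LY.Φ x y‖ := by
  obtain ⟨h1, h2⟩ := Lyap.st_self h hx (θ := 1) zero_le_one
  have h3 := Lyap.St.norm_le h hx hy h1 k
  rw [Lyap.Φ_self, h2, sub_zero, sub_zero, ← (Lyap.St.iter h hx hy k).2.1] at h3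
  exact h3.trans (mul_le_mul_of_nonneg_right (exp_hol h.δ_pos k).2.2 (norm_nonneg _))

/-- An orbit that stays in the charts along the orbit of `x` stays close to it. -/
theorem orbit_hol (h : Adm F K' χ δ δ0 η K2) {x y : X} (hx : x ∈ LY.R) (hy : dist y x < A.ρ)
    (n : ℕ) (hn : ∀ k < n, ‖LY.Φ (F.f^[k] x) (F.f^[k] y)‖ ≤ LY.r (F.f^[k] x)) :
    dist (F.f^[n] y) (F.f^[n] x) < A.ρ := by
  induction n with
  | zero => exact hy
  | succ n ih =>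
    rw [Function.iterate_succ_apply', Function.iterate_succ_apply']
    exact near_hol h (Lyap.iter_mem hx n) (ih fun k hk => hn k (hk.trans n.lt_succ_self))
      (hn n n.lt_succ_self)

theorem diff_hol {x x0 : X} (hx0 : x0 ∈ LY.R) (hi : A.idx x = A.idx x0) (y y' : X) :
    LY.Φ x y - LY.Φ x y' = (LY.Ci x).comp (LY.C x0) (LY.Φ x0 y - LY.Φ x0 y') := by
  rw [Lyap.Φ_change hx0 hi y, Lyap.Φ_change hx0 hi y', ← map_sub, sub_sub_sub_cancel_right]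

/-- Horizontal distances between two stable leaves are comparable at all heights. -/
theorem holo (h : Adm F K' χ δ δ0 η K2) (hB : LY.Block κ r0 Λ) (hκ : κ ≤ 1 / 100) :
    ∃ KH ρ1 : ℝ, 1 ≤ KH ∧ 0 < ρ1 ∧ ∀ x0 ∈ Λ, ∀ x ∈ Λ, ∀ x' ∈ Λ, ∀ p q p' q' : X,
      LY.St 1 x p → LY.St 1 x q → LY.St 1 x' p' → LY.St 1 x' q' →
      ‖LY.Φ x p‖ ≤ ρ1 → ‖LY.Φ x q‖ ≤ ρ1 → ‖LY.Φ x' p'‖ ≤ ρ1 → ‖LY.Φ x' q'‖ ≤ ρ1 →
      dist p' x < A.ρ → dist q' x < A.ρ →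
      (LY.Φ x0 p).2 = (LY.Φ x0 p').2 → (LY.Φ x0 q).2 = (LY.Φ x0 q').2 →
      ‖LY.Φ x0 p - LY.Φ x0 p'‖ ≤ KH * ‖LY.Φ x0 q - LY.Φ x0 q'‖ := by
  have hr0 := hB.r0_pos
  have hδ := h.δ_pos
  have hδ0 := h.δ0_pos
  have hη := h.par.pos
  have hK : 0 ≤ A.K := zero_le_one.trans A.one_le_K
  obtain ⟨c, hc0, hc⟩ : ∃ c : ℝ, 0 ≤ c ∧ c * r0 = δ0 * A.K :=
    ⟨δ0 * A.K / r0, by positivity, div_mul_cancel₀ _ hr0.ne'⟩
  obtain ⟨ρ1, hρ1, hρ⟩ : ∃ ρ1 : ℝ, 0 < ρ1 ∧ ρ1 * (1 + c) = r0 / 16 :=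
    ⟨r0 / 16 / (1 + c), by positivity, div_mul_cancel₀ _ (by positivity)⟩
  have hρ4 : ρ1 ≤ r0 / 16 := by nlinarith
  set S := η * (1 - Real.exp (-δ))⁻¹ with hS
  have hS0 : 0 ≤ S := by simpa using sum_hol hδ hη 0
  refine ⟨8 * Real.exp (2 * (1 + S)), ρ1, ?_, hρ1, ?_⟩
  · linarith [Real.one_le_exp (by positivity : 0 ≤ 2 * (1 + S))]
  intro x0 hx0 x hx x' hx' p q p' q' sp sq sp' sq' np nq np' nq' dp' dq' ep eq
  have hxR := hB.sub hx
  have hx'R := hB.sub hx'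
  have hT := (hB.osc x hx x0 hx0).trans hκ
  have hi := hB.idx x hx x0 hx0
  set e : ℕ → ℝ := fun k => Real.exp (-δ * k) with he
  set Z : X → ℕ → V := fun y k => LY.Φ (F.f^[k] x) (F.f^[k] y) with hZ
  have e0 : ∀ k, 0 < e k := fun k => (exp_hol hδ k).1
  have e1 : ∀ k, e k ≤ 1 := fun k => (exp_hol hδ k).2.1
  have hr : ∀ k, r0 * e k ≤ LY.r (F.f^[k] x) := fun k =>
    (mul_le_mul_of_nonneg_right (hB.r_ge x hx) (e0 k).le).trans (Lyap.r_iter_ge hxR k)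
  have e32 : ∀ k, e k ^ 3 ≤ e k ^ 2 := fun k =>
    pow_le_pow_of_le_one (e0 k).le (e1 k) (by norm_num)
  have e21 : ∀ k, e k ^ 2 ≤ e k := fun k => by nlinarith [e0 k, e1 k]
  have b1 : ∀ y, LY.St 1 x y → ‖LY.Φ x y‖ ≤ ρ1 → ∀ k, ‖Z y k‖ ≤ ρ1 * e k ^ 2 :=
    fun y hy ny k => (norm_st_hol h hxR hy k).trans <| by
      rw [mul_comm]
      exact mul_le_mul ny (e32 k) (by positivity) hρ1.le
  have b2 : ∀ k, ‖Z p' k - Z q' k‖ ≤ 2 * ρ1 * c * e k ^ 2 := fun k => by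
    have h1 := Lyap.norm_Φ_sub_le (Lyap.iter_mem hxR k) (F.f^[k] p') (F.f^[k] q')
    have h2 := Lyap.St.contract h hx'R sp' sq' k
    have h3 : ‖LY.Φ x' p' - LY.Φ x' q'‖ ≤ 2 * ρ1 := (norm_sub_le _ _).trans (by linarith)
    have h4 : A.K * Real.exp (-(6 * δ) * k) * ‖LY.Φ x' p' - LY.Φ x' q'‖ ≤
        A.K * e k ^ 3 * (2 * ρ1) :=
      mul_le_mul (mul_le_mul_of_nonneg_left (exp_hol hδ k).2.2 hK) h3 (norm_nonneg _)
        (mul_nonneg hK (pow_nonneg (e0 k).le _))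
    refine le_of_mul_le_mul_left ?_ (mul_pos hr0 (e0 k))
    calc r0 * e k * ‖Z p' k - Z q' k‖ ≤ LY.r (F.f^[k] x) * ‖Z p' k - Z q' k‖ :=
          mul_le_mul_of_nonneg_right (hr k) (norm_nonneg _)
      _ ≤ δ0 * (A.K * e k ^ 3 * (2 * ρ1)) :=
          h1.trans (mul_le_mul_of_nonneg_left (h2.trans h4) hδ0.le)
      _ = δ0 * A.K * (e k ^ 3 * (2 * ρ1)) := by ring
      _ = _ := by rw [← hc]; ring
  have b3 : ∀ k, ‖Z p k - Z q k‖ ≤ 2 * ρ1 * e k ^ 2 := fun k =>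
    (norm_sub_le _ _).trans (by linarith [b1 p sp np k, b1 q sq nq k])
  have b4 : ∀ k, ‖Z p k - Z q k‖ + ‖Z p' k - Z q' k‖ ≤ r0 / 8 * e k ^ 2 := fun k => by
    have : r0 / 8 * e k ^ 2 = 2 * (ρ1 * (1 + c)) * e k ^ 2 := by rw [hρ]; ring
    linarith [b2 k, b3 k]
  have b5 : ∀ y, LY.St 1 x y → ‖LY.Φ x y‖ ≤ ρ1 → ∀ k, ‖Z y k‖ ≤ r0 / 4 * e k := fun y hy ny k =>
    (b1 y hy ny k).trans (mul_le_mul (by linarith) (e21 k) (by positivity) (by positivity))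
  have b6 : ∀ y, LY.St 1 x y → ‖LY.Φ x y‖ ≤ ρ1 → ∀ k, ‖Z y k‖ ≤ LY.r (F.f^[k] x) :=
    fun y hy ny k => by linarith [b5 y hy ny k, hr k, mul_pos hr0 (e0 k)]
  have b7 : ∀ y y', LY.St 1 x y → ‖LY.Φ x y‖ ≤ ρ1 → ∀ k, ‖Z y' k - Z y k‖ ≤ r0 / 4 * e k →
      ‖Z y' k‖ ≤ LY.r (F.f^[k] x) := fun y y' hy ny k hk => by
    linarith [b5 y hy ny k, hr k, mul_pos hr0 (e0 k), norm_sub_norm_le (Z y' k) (Z y k)]
  have b8 : ∀ y n, dist (F.f^[n] y) (F.f^[n] x) < A.ρ →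
      Z y (n + 1) = LY.Fc F.f (F.f^[n] x) (F.f (F.f^[n] x)) (Z y n) := fun y n hn => by
    simp only [hZ, Function.iterate_succ_apply']
    exact step_hol (Lyap.iter_mem hxR n) hn
  have d0 : ∀ y y', Z y' 0 - Z y 0 = (LY.Ci x).comp (LY.C x0) (LY.Φ x0 y' - LY.Φ x0 y) :=
    fun y y' => diff_hol (hB.sub hx0) hi y' y
  obtain ⟨c1, c2, -⟩ := cone_hol hT (w := LY.Φ x0 p' - LY.Φ x0 p) (sub_eq_zero.2 ep.symm)
  obtain ⟨c3, -, c4⟩ := cone_hol hT (w := LY.Φ x0 q' - LY.Φ x0 q) (sub_eq_zero.2 eq.symm)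
  rw [← d0] at c1 c2 c3 c4
  have key := abs_hol h.par (a := fun k => LY.a (F.f^[k] x)) (b := fun k => LY.b (F.f^[k] x))
    (τ := fun k => r0 / 4 * e k) (ε := fun k => η * e k)
    (fun k => LY.a_ge _ (Lyap.iter_mem hxR k))
    (fun k => by rw [← Real.exp_neg]; exact LY.b_le _ (Lyap.iter_mem hxR k))
    (tendsto_hol hδ _) (D := fun k => Z p' k - Z p k) (D' := fun k => Z q' k - Z q k)
    (M := fun k => sec (LY.DFc F.f (F.f^[k] x) (F.f (F.f^[k] x))) (Z p k) (Z p' k))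
    (M' := fun k => sec (LY.DFc F.f (F.f^[k] x) (F.f (F.f^[k] x))) (Z q k) (Z q' k))
    (sum_hol hδ hη) (fun n hn => ?_) (fun k => ?_) c1 c3
  · rw [norm_sub_rev (LY.Φ x0 p), norm_sub_rev (LY.Φ x0 q)]
    have h1 := mul_le_mul_of_nonneg_left c4 (by positivity : 0 ≤ 2 * Real.exp (2 * (1 + S)))
    linarith
  · obtain ⟨s1, s2, s3⟩ := sec_hol h (Lyap.iter_mem hxR n)
    have rp := b6 p sp np n
    have rq := b6 q sq nq n
    have rp' := fun k (hk : k ≤ n) => b7 p p' sp np k (hn k hk).1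
    have rq' := fun k (hk : k ≤ n) => b7 q q' sq nq k (hn k hk).2
    refine ⟨s3 _ _ rp (rp' n le_rfl), s3 _ _ rq (rq' n le_rfl), ?_, ?_, ?_⟩
    · refine (s2 _ _ _ _ rp (rp' n le_rfl) rq (rq' n le_rfl)).trans ?_
      have h1 : max ‖Z p n - Z q n‖ ‖Z p' n - Z q' n‖ ≤ r0 / 8 * e n ^ 2 :=
        max_le (by linarith [b4 n, norm_nonneg (Z p' n - Z q' n)])
          (by linarith [b4 n, norm_nonneg (Z p n - Z q n)])
      have h2 := mul_pos hr0 (e0 n)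
      have h3 : η / 4 / LY.r (F.f^[n] x) ≤ η / 4 / (r0 * e n) :=
        div_le_div_of_nonneg_left (by positivity) h2 (hr n)
      have h4 := e0 n
      calc _ ≤ η / 4 / (r0 * e n) * (r0 / 8 * e n ^ 2) :=
            mul_le_mul h3 h1 (le_max_of_le_left (norm_nonneg _)) (by positivity)
        _ = η * e n / 32 := by field_simp; ring
        _ ≤ _ := by linarith [mul_pos hη h4]
    · rw [b8 p' n (orbit_hol h hxR dp' n fun k hk => rp' k hk.le),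
        b8 p n (Lyap.St.iter h hxR sp n).2.2]
      exact s1 _ _ rp (rp' n le_rfl)
    · rw [b8 q' n (orbit_hol h hxR dq' n fun k hk => rq' k hk.le),
        b8 q n (Lyap.St.iter h hxR sq n).2.2]
      exact s1 _ _ rq (rq' n le_rfl)
  · have h1 : Z p' k - Z p k - (Z q' k - Z q k) = (Z p' k - Z q' k) - (Z p k - Z q k) := by abel
    rw [h1]
    have h2 := mul_le_mul_of_nonneg_left (e21 k) (by positivity : 0 ≤ r0 / 8)
    linarith [norm_sub_le (Z p' k - Z q' k) (Z p k - Z q k), b4 k]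

/-- The velocity of a horizontal segment. -/
theorem base_hol {x0 : X} (hx0 : x0 ∈ LY.R) {t : ℝ} (ht : |t| < A.ρ) :
    ∃ w, HasDerivAt (A.e ∘ fun s : ℝ => LY.Ψ x0 (s, 0)) w t ∧
      A.pr (A.idx x0) w = LY.C x0 (1, 0) := by
  have hU : ∀ s : ℝ, |s| < A.ρ → A.φ (A.idx x0) x0 + LY.C x0 (s, 0) ∈ A.U (A.idx x0) :=
    fun s hs => Lyap.mem_U hx0 (by simpa [Prod.norm_def] using hs)
  have h1 : HasDerivAt (fun s : ℝ => A.φ (A.idx x0) x0 + LY.C x0 (s, 0)) (LY.C x0 (1, 0)) t :=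
    ((LY.C x0).hasFDerivAt.comp_hasDerivAt t
      ((hasDerivAt_id t).prodMk (hasDerivAt_const t (0 : ℝ)))).const_add _
  have h2 := ((A.sm_id).differentiableAt (hU t ht)).hasFDerivAt.comp_hasDerivAt t h1
  refine ⟨_, h2, ?_⟩
  refine ((A.pr (A.idx x0)).hasFDerivAt.comp_hasDerivAt t h2).unique (h1.congr_of_eventuallyEq ?_)
  have h3 : ∀ᶠ s : ℝ in 𝓝 t, |s| < A.ρ := continuous_abs.continuousAt.eventually_lt_const ht
  exact h3.mono fun s hs => A.right_inv _ _ (hU s hs)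

/-- A horizontal segment is expanded at the rate of the top exponent where it meets a leaf. -/
theorem growth (h : Adm F K' χ δ δ0 η K2) (hB : LY.Block κ r0 Λ) (hκ : κ ≤ 1 / 100)
    (hA : LY.Avg) {x0 x : X} (hx0 : x0 ∈ Λ) (hx : x ∈ Λ) {t : ℝ} (ht : |t| < A.ρ)
    (hs : LY.St 1 x (LY.Ψ x0 (t, 0))) {a : ℝ} (ha : a < l1 (A.coc F.f) x - 2 * δ) :
    ∀ᶠ n : ℕ in atTop,
      Real.exp (a * n) ≤ ‖deriv (A.e ∘ F.f^[n] ∘ fun s : ℝ => LY.Ψ x0 (s, 0)) t‖ := by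
  have hδ := h.δ_pos
  have hδ0 := h.δ0_pos
  have hη := h.par.pos
  have hxR := hB.sub hx
  have hR := Lyap.iter_mem hxR
  have hr := LY.r_pos x hxR
  have hT := (hB.osc x hx x0 hx0).trans hκ
  obtain ⟨w0, hw0, hw0'⟩ := base_hol (hB.sub hx0) ht
  set σ : ℝ → X := fun s : ℝ => LY.Ψ x0 (s, 0) with hσ
  set w : ℕ → Fin A.N → ℝ := fun k => deriv (A.e ∘ F.f^[k] ∘ σ) t with hw
  have hstep : ∀ k, HasDerivAt (A.e ∘ F.f^[k] ∘ σ) (w k) t →
      HasDerivAt (A.e ∘ F.f^[k + 1] ∘ σ) (fderiv ℝ (A.rep F.f (A.idx (F.f^[k] x)))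
        (A.φ (A.idx (F.f^[k] x)) (F.f^[k] (σ t))) (A.pr (A.idx (F.f^[k] x)) (w k))) t :=
    fun k hk => by
      rw [Function.iterate_succ']
      exact F.smf.hasDerivAt_comp (c := F.f^[k] ∘ σ) (A.mem_D (F.f^[k] x))
        (Lyap.St.iter h hxR hs k).2.2 hk
  have hd : ∀ k, HasDerivAt (A.e ∘ F.f^[k] ∘ σ) (w k) t := fun k => by
    induction k with
    | zero => exact hw0.differentiableAt.hasDerivAt
    | succ k ih => exact (hstep k ih).differentiableAt.hasDerivAt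
  set v : ℕ → V := fun k => LY.Ci (F.f^[k] x) (A.pr (A.idx (F.f^[k] x)) (w k)) with hv
  set z : ℕ → V := fun k => LY.Φ (F.f^[k] x) (F.f^[k] (σ t)) with hz
  have hv1 : ∀ k, v (k + 1) = LY.DFc F.f (F.f^[k] x) (F.f (F.f^[k] x)) (z k) (v k) := fun k => by
    have h1 : A.φ (A.idx (F.f^[k] x)) (F.f^[k] x) + LY.C (F.f^[k] x) (z k) =
        A.φ (A.idx (F.f^[k] x)) (F.f^[k] (σ t)) := by
      simp only [hz, Lyap.Φ, Atlas.Phi]
      rw [LY.C_Ci _ (hR k), add_sub_cancel]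
    simp only [Lyap.DFc, ContinuousLinearMap.comp_apply, h1]
    simp only [hv]
    rw [LY.C_Ci _ (hR k), (hd (k + 1)).unique (hstep k (hd k)), Function.iterate_succ_apply']
  have hv0 : v 0 = (LY.Ci x).comp (LY.C x0) (1, 0) := by
    have h1 : w 0 = w0 := (hd 0).unique hw0
    simp only [hv, Function.iterate_zero, id, h1, ContinuousLinearMap.comp_apply]
    rw [hB.idx x hx x0 hx0, hw0']
  obtain ⟨c1, c2, -⟩ := cone_hol hT (w := (1, 0)) rfl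
  rw [← hv0] at c1 c2
  have n1 : ‖((1, 0) : V)‖ = 1 := by simp [Prod.norm_def]
  rw [n1] at c2
  have hM : ∀ k, ‖LY.DFc F.f (F.f^[k] x) (F.f (F.f^[k] x)) (z k) -
      diag (LY.a (F.f^[k] x)) (LY.b (F.f^[k] x))‖ ≤ η * Real.exp (-δ * k) := fun k => by
    obtain ⟨e0, e1, -⟩ := exp_hol hδ k
    have h0 : ‖LY.Φ x (σ t)‖ ≤ LY.r x := by simpa [It] using hs.2 0
    have h1 : ‖z k‖ ≤ Real.exp (-δ * k) ^ 3 * LY.r x :=
      (norm_st_hol h hxR hs k).trans (mul_le_mul_of_nonneg_left h0 (by positivity))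
    have h2 := Lyap.r_iter_ge hxR k
    have h3 : ‖z k‖ ≤ Real.exp (-δ * k) * LY.r (F.f^[k] x) := by
      have h4 : Real.exp (-δ * k) ^ 3 ≤ Real.exp (-δ * k) ^ 2 :=
        pow_le_pow_of_le_one e0.le e1 (by norm_num)
      calc _ ≤ Real.exp (-δ * k) ^ 2 * LY.r x := h1.trans (mul_le_mul_of_nonneg_right h4 hr.le)
        _ = Real.exp (-δ * k) * (LY.r x * Real.exp (-δ * k)) := by ring
        _ ≤ _ := mul_le_mul_of_nonneg_left h2 e0.le
    have hrk := LY.r_pos _ (hR k)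
    have h5 := Lyap.DFc_lip h (hR k) (z := z k) (z' := 0)
      ((h3.trans (mul_le_of_le_one_left hrk.le e1)).trans_lt (Lyap.adm_r_lt h (hR k)).2.2)
      (by rw [norm_zero]; exact A.ρ_pos)
    rw [Lyap.DFc_zero (hR k), sub_zero] at h5
    calc _ ≤ η / 4 / LY.r (F.f^[k] x) * (Real.exp (-δ * k) * LY.r (F.f^[k] x)) :=
          h5.trans (mul_le_mul_of_nonneg_left h3 (by positivity))
      _ = η * Real.exp (-δ * k) / 4 := by field_simp
      _ ≤ _ := by linarith [mul_pos hη e0]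
  set E := Real.exp (2 * (1 + η * (1 - Real.exp (-δ))⁻¹)) with hE
  have key : ∀ n : ℕ, Real.exp (∑ k ∈ Finset.range n, Real.log |LY.a (F.f^[k] x)|) *
      (LY.r x * Real.exp (-δ * n)) ≤ 2 * E * δ0 * ‖w n‖ := fun n => by
    have h1 := (linear_distortion h.par (n := n) (a := fun k => LY.a (F.f^[k] x))
      (b := fun k => LY.b (F.f^[k] x))
      (M := fun k => diag (LY.a (F.f^[k] x)) (LY.b (F.f^[k] x)))
      (M' := fun k => LY.DFc F.f (F.f^[k] x) (F.f (F.f^[k] x)) (z k))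
      (ε := fun k => η * Real.exp (-δ * k)) (fun k _ => LY.a_ge _ (hR k))
      (fun k _ => by rw [← Real.exp_neg]; exact LY.b_le _ (hR k))
      (fun k _ => by rw [sub_self, norm_zero]; exact hη.le)
      (fun k _ => (hM k).trans (mul_le_of_le_one_right hη.le (exp_hol hδ k).2.1))
      (fun k _ => by rw [norm_sub_rev]; exact hM k) (sum_hol hδ hη n)
      (v := fun k => (∏ j ∈ Finset.range k, LY.a (F.f^[j] x), 0)) (v' := v)
      (fun k _ => by simp [Finset.prod_range_succ, mul_comm]) (fun k _ => hv1 k) (by simp) c1).1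
    have h2 : ‖((∏ j ∈ Finset.range n, LY.a (F.f^[j] x), 0) : V)‖ =
        Real.exp (∑ k ∈ Finset.range n, Real.log |LY.a (F.f^[k] x)|) := by
      rw [Real.exp_sum, Prod.norm_def, norm_zero, max_eq_left (norm_nonneg _), Real.norm_eq_abs,
        Finset.abs_prod]
      exact Finset.prod_congr rfl fun k _ =>
        (Real.exp_log ((Real.exp_pos χ).trans_le (LY.a_ge _ (hR k)))).symm
    rw [h2, Finset.prod_range_zero, n1, mul_one] at h1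
    have h3 : LY.r (F.f^[n] x) * ‖v n‖ ≤ δ0 * ‖w n‖ := by
      have h4 : ‖A.pr (A.idx (F.f^[n] x)) (w n)‖ ≤ ‖w n‖ :=
        ((A.pr _).le_opNorm _).trans (mul_le_of_le_one_left (norm_nonneg _) (A.pr_le _))
      calc _ ≤ LY.r (F.f^[n] x) * (‖LY.Ci (F.f^[n] x)‖ * ‖A.pr (A.idx (F.f^[n] x)) (w n)‖) :=
            mul_le_mul_of_nonneg_left ((LY.Ci _).le_opNorm _) (LY.r_pos _ (hR n)).le
        _ ≤ _ := by
            rw [← mul_assoc]
            exact mul_le_mul (LY.r_Ci _ (hR n)) h4 (norm_nonneg _) hδ0.le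
    have h5 : Real.exp (∑ k ∈ Finset.range n, Real.log |LY.a (F.f^[k] x)|) ≤ 2 * E * ‖v n‖ := by
      have := mul_le_mul_of_nonneg_left c2
        (Real.exp_pos (∑ k ∈ Finset.range n, Real.log |LY.a (F.f^[k] x)|)).le
      linarith
    calc _ ≤ 2 * E * ‖v n‖ * LY.r (F.f^[n] x) :=
          mul_le_mul h5 (Lyap.r_iter_ge hxR n) (by positivity) (by positivity)
      _ = 2 * E * (LY.r (F.f^[n] x) * ‖v n‖) := by ring
      _ ≤ 2 * E * (δ0 * ‖w n‖) := mul_le_mul_of_nonneg_left h3 (by positivity)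
      _ = _ := by ring
  have ev1 := (hA x hxR).eventually_const_lt (by linarith : a + 2 * δ < l1 (A.coc F.f) x)
  have ev2 := (tendsto_hol hδ (2 * E * δ0)).eventually_lt_const hr
  filter_upwards [ev1, ev2, eventually_gt_atTop 0] with n h1 h2 h3
  have h4 : (0 : ℝ) < n := by exact_mod_cast h3
  rw [lt_div_iff₀ h4] at h1
  have h5 := (mul_le_mul_of_nonneg_right (Real.exp_le_exp.2 h1.le) (by positivity)).trans (key n)
  have h6 : Real.exp ((a + 2 * δ) * n) * Real.exp (-δ * n) * Real.exp (-δ * n) =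
      Real.exp (a * n) := by
    rw [← Real.exp_add, ← Real.exp_add]
    congr 1
    ring
  refine le_of_mul_le_mul_left ?_ (by positivity : 0 < 2 * E * δ0)
  calc 2 * E * δ0 * Real.exp (a * n) = Real.exp ((a + 2 * δ) * n) *
        (2 * E * δ0 * Real.exp (-δ * n) * Real.exp (-δ * n)) := by rw [← h6]; ring
    _ ≤ Real.exp ((a + 2 * δ) * n) * (LY.r x * Real.exp (-δ * n)) :=
        mul_le_mul_of_nonneg_left (mul_le_mul_of_nonneg_right h2.le (Real.exp_pos _).le)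
          (Real.exp_pos _).le
    _ ≤ _ := h5

end Pool.Agent.Lib.MP_e7c912_an
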