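import Pool.Agent.Lib.MP_e7c912_an.H60BoxDef
import Pool.Agent.Lib.MP_e7c912_an.H60Chart2
import Pool.Agent.Lib.MP_e7c912_an.H60Holo
import Pool.Agent.Lib.MP_e7c912_an.H60Close

/-! Pesin theory: almost every hyperbolic point lies in a set with boxes. -/

namespace Pool.Agent.Lib.MP_e7c912_an

open MeasureTheory Filter Metric Set Topology

variable {X : Type} [MetricSpace X] [MeasurableSpace X] [BorelSpace X] {A : Atlas X}

theorem norm_near_id_box {T : V →L[ℝ] V} (hT : ‖T - ContinuousLinearMap.id ℝ V‖ ≤ 1 / 100)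
    (v : V) : ‖T v‖ ≤ 2 * ‖v‖ := by
  have h1 : T v = (T - ContinuousLinearMap.id ℝ V) v + v := by simp
  have h2 := (T - ContinuousLinearMap.id ℝ V).le_opNorm v
  have h3 := norm_add_le ((T - ContinuousLinearMap.id ℝ V) v) v
  have h4 := mul_le_mul_of_nonneg_right hT (norm_nonneg v)
  rw [h1]
  nlinarith [norm_nonneg v]

omit [BorelSpace X] in
/-- The stable leaf of a point of a block, in the chart of a nearby point of the block. -/
theorem leaf_box {F : Dif A} {K' χ δ δ0 η K2 κ r0 : ℝ}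
    {LY : Lyap F.f (A.coc F.f) K' χ δ δ0} {Λ : Set X} (h : Adm F K' χ δ δ0 η K2)
    (hB : LY.Block κ r0 Λ) (hκ : κ ≤ 1 / 100) {x0 x : X} (hx0 : x0 ∈ Λ) (hx : x ∈ Λ) {ρ : ℝ}
    (hρ : 0 < ρ) (hρ' : 2 * ρ ≤ r0) (hρA : 4 * A.K * ρ ≤ A.ρ) (ho : ‖LY.Φ x0 x‖ ≤ ρ / 10) :
    ∃ w : ℝ → ℝ, w (LY.Φ x0 x).2 = (LY.Φ x0 x).1 ∧
      (∀ s ∈ Icc (-ρ) ρ, ∀ s' ∈ Icc (-ρ) ρ, |w s - w s'| ≤ |s - s'| / 10) ∧
      (∀ s ∈ Icc (-ρ) ρ, |w s| ≤ ρ ∧ LY.St 1 x (LY.Ψ x0 (w s, s)) ∧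
        ‖LY.Φ x (LY.Ψ x0 (w s, s))‖ ≤ 2 * ρ) ∧
      (∀ s ∈ Icc (-ρ) ρ, ∀ s' ∈ Icc (-ρ) ρ, ∀ k : ℕ,
        dist (F.f^[k] (LY.Ψ x0 (w s, s))) (F.f^[k] (LY.Ψ x0 (w s', s'))) ≤
          2 * A.K * Real.exp (-(2 * δ) * k) * |s - s'|) ∧
      ∀ y, (∀ k : ℕ, dist (F.f^[k] y) (F.f^[k] x) ≤ r0 ^ 2 * Real.exp (-(2 * δ) * k)) →
        |(LY.Φ x0 y).2| ≤ ρ → (LY.Φ x0 y).1 = w (LY.Φ x0 y).2 := by
  have hxR := hB.sub hx
  have hx0R := hB.sub hx0
  have hrx := LY.r_pos x hxR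
  have hr0x := hB.r_ge x hx
  have hi := hB.idx x hx x0 hx0
  have hK := A.one_le_K
  have hρA' : 2 * ρ < A.ρ := by nlinarith
  set T := (LY.Ci x).comp (LY.C x0) with hTdef
  have hT : ‖T - ContinuousLinearMap.id ℝ V‖ ≤ 1 / 100 := (hB.osc x hx x0 hx0).trans hκ
  set o := LY.Φ x0 x with hodef
  set θ := 2 * ρ / LY.r x with hθ
  have hθ0 : 0 < θ := div_pos (by linarith) hrx
  have hθ1 : θ ≤ 1 := (div_le_one hrx).2 (hρ'.trans hr0x)
  have hθr : θ * LY.r x = 2 * ρ := div_mul_cancel₀ _ hrx.ne'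
  have hyp := Lyap.hyp_orb (LY := LY) h hxR hθ0 hθ1
  have hyp1 := Lyap.hyp_orb (LY := LY) h hxR one_pos le_rfl
  obtain ⟨w, hst, hlip⟩ := graph h.par hyp hT (o := o) (ρ := ρ) (by simpa using hθr) ho
  have ho1 : |o.1| ≤ ρ / 10 := (norm_fst_le o).trans ho
  have ho2 : |o.2| ≤ ρ / 10 := (norm_snd_le o).trans ho
  have ho2' : o.2 ∈ Icc (-ρ) ρ := by
    have := abs_le.1 ho2
    constructor <;> linarith [this.1, this.2]
  have hself : w o.2 = o.1 := by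
    have h0 : Stay (LY.Orb x) (fun k => θ * LY.r (F.f^[k] x)) (T (o - o)) := by
      intro k
      rw [sub_self, map_zero, (Lyap.st_self (LY := LY) h hxR hθ0.le).2 k, norm_zero]
      exact (hyp.pos k).le
    have := cone_ref h.par hyp hT (hst _ ho2') h0
    simp only [sub_self, abs_zero, zero_div] at this
    exact sub_eq_zero.1 (abs_nonpos_iff.1 this)
  have hnorm : ∀ s ∈ Icc (-ρ) ρ, ‖T ((w s, s) - o)‖ ≤ 2 * ρ := by
    intro s hs
    have := hst s hs 0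
    simpa [It, hθr] using this
  have hΨ : ∀ s, LY.Ψ x (T ((w s, s) - o)) = LY.Ψ x0 (w s, s) := fun s =>
    Lyap.Ψ_change hxR hx0R hi _
  have hΦ : ∀ s ∈ Icc (-ρ) ρ, LY.Φ x (LY.Ψ x0 (w s, s)) = T ((w s, s) - o) := by
    intro s hs
    rw [← hΨ, Lyap.Φ_Ψ hxR ((hnorm s hs).trans_lt hρA')]
  have hSt : ∀ s ∈ Icc (-ρ) ρ, LY.St 1 x (LY.Ψ x0 (w s, s)) := by
    intro s hs
    have := Lyap.st_Ψ h hxR hθ1 (hst s hs)
    rw [hΨ] at this
    exact Lyap.St.mono hxR this hθ1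
  refine ⟨w, hself, hlip, fun s hs => ⟨?_, hSt s hs, ?_⟩, ?_, ?_⟩
  · have h1 := hlip s hs _ ho2'
    rw [hself] at h1
    have h2 : |s - o.2| ≤ 2 * ρ := by
      rw [abs_le]
      constructor <;> linarith [hs.1, hs.2, ho2'.1, ho2'.2]
    have h3 := abs_sub_abs_le_abs_sub (w s) o.1
    linarith
  · rw [hΦ s hs]
    exact hnorm s hs
  · intro s hs s' hs' k
    have h1 := Lyap.St.contract h hxR (hSt s hs) (hSt s' hs') k
    rw [hΦ s hs, hΦ s' hs', ← map_sub, sub_sub_sub_cancel_right] at h1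
    have h2 := norm_near_id_box hT ((w s, s) - (w s', s'))
    have h3 : ‖((w s, s) : V) - (w s', s')‖ ≤ |s - s'| := by
      rw [Prod.mk_sub_mk, Prod.norm_mk, Real.norm_eq_abs, Real.norm_eq_abs]
      have := hlip s hs s' hs'
      have := abs_nonneg (s - s')
      exact max_le (by linarith) le_rfl
    have h4 : Real.exp (-(6 * δ) * k) ≤ Real.exp (-(2 * δ) * k) := by
      apply Real.exp_le_exp.2
      have := h.δ_pos
      have : (0 : ℝ) ≤ k := Nat.cast_nonneg k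
      nlinarith
    calc _ ≤ _ := h1
      _ ≤ A.K * Real.exp (-(2 * δ) * k) * (2 * |s - s'|) := by
        apply mul_le_mul (mul_le_mul_of_nonneg_left h4 (by linarith)) (by linarith)
          (norm_nonneg _)
        positivity
      _ = _ := by ring
  · intro y hy hy2
    have hr0 := hB.r0_pos
    have h1 : LY.St 1 x y := by
      refine Lyap.st_of_close h hxR fun k => (hy k).trans ?_
      have h2 := Lyap.r_iter_ge (LY := LY) hxR k
      have h3 : r0 * Real.exp (-δ * k) ≤ LY.r (F.f^[k] x) :=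
        (mul_le_mul_of_nonneg_right hr0x (Real.exp_pos _).le).trans h2
      have h4 : r0 ^ 2 * Real.exp (-(2 * δ) * k) = (r0 * Real.exp (-δ * k)) ^ 2 := by
        rw [mul_pow, ← Real.exp_nat_mul]
        congr 2
        push_cast
        ring
      rw [h4]
      exact pow_le_pow_left₀ (by positivity) h3 2
    have h2 := h1.2
    rw [Lyap.Φ_change hx0R hi y] at h2
    have hs : (LY.Φ x0 y).2 ∈ Icc (-ρ) ρ := abs_le.1 hy2
    have h3 : Stay (LY.Orb x) (fun k => 1 * LY.r (F.f^[k] x))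
        (T ((w (LY.Φ x0 y).2, (LY.Φ x0 y).2) - o)) :=
      (hst _ hs).mono fun k => mul_le_mul_of_nonneg_right hθ1
        (LY.r_pos _ (Lyap.iter_mem hxR k)).le
    have := cone_ref h.par hyp1 hT h2 h3
    simp only [sub_self, abs_zero, zero_div] at this
    exact sub_eq_zero.1 (abs_nonpos_iff.1 this)

theorem hasBoxes_of_block {F : Dif A} {K' χ δ δ0 η K2 κ r0 c0 : ℝ}
    {LY : Lyap F.f (A.coc F.f) K' χ δ δ0} {Λ : Set X} (h : Adm F K' χ δ δ0 η K2)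
    (hB : LY.Block κ r0 Λ) (hκ : κ ≤ 1 / 100) (hκ' : 4 * κ * K' ≤ η) (hA : LY.Avg)
    (hc : 2 * δ ≤ c0) : HasBoxes F Λ c0 := by
  obtain ⟨LY', -, -, hC', hCi', hB'⟩ := LY.exists_symm
  have hB' := hB' κ r0 Λ hB
  have hΦ' : ∀ x y, LY'.Φ x y = (LY.Φ x y).swap := fun x y => hCi' x _
  have hΨ' : ∀ x z, LY'.Ψ x z = LY.Ψ x z.swap := fun x z => by
    simp only [Lyap.Ψ, Atlas.Psi, hC']
  obtain ⟨KH, ρ1, hKH, hρ1, hholo⟩ := holo h hB hκ
  have hr0 := hB.r0_pos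
  have hK := A.one_le_K
  have hAρ := A.ρ_pos
  have hδ := h.δ_pos
  have hδ0 := h.δ0_pos
  obtain ⟨ρ, hρ, hρr, hρ1', hρA⟩ : ∃ ρ : ℝ, 0 < ρ ∧ 2 * ρ ≤ r0 ∧ 2 * ρ ≤ ρ1 ∧
      4 * A.K * ρ ≤ A.ρ := by
    refine ⟨min (r0 / 2) (min (ρ1 / 2) (A.ρ / (4 * A.K))), by positivity, ?_, ?_, ?_⟩
    · linarith [min_le_left (r0 / 2) (min (ρ1 / 2) (A.ρ / (4 * A.K)))]
    · linarith [(min_le_right (r0 / 2) _).trans (min_le_left (ρ1 / 2) (A.ρ / (4 * A.K)))]
    · have := (min_le_right (r0 / 2) _).trans (min_le_right (ρ1 / 2) (A.ρ / (4 * A.K)))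
      rwa [le_div_iff₀' (by positivity)] at this
  obtain ⟨Kb, hKb1, hKb2, hKb3⟩ : ∃ Kb : ℝ, δ0 / r0 ≤ Kb ∧ 2 * A.K ≤ Kb ∧ KH ≤ Kb :=
    ⟨max (δ0 / r0) (max (2 * A.K) KH), le_max_left _ _, (le_max_left _ _).trans (le_max_right _ _),
      (le_max_right _ _).trans (le_max_right _ _)⟩
  have hKb : 1 ≤ Kb := hKH.trans hKb3
  have hρA' : ρ < A.ρ := by nlinarith
  rw [div_le_iff₀ hr0] at hKb1
  refine ⟨ρ, Kb, 2 * δ, r0 ^ 2, hρ, hKb, by positivity, hc, by positivity, fun x0 hx0 => ?_⟩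
  have hx0R := hB.sub hx0
  have hr0x := hB.r_ge x0 hx0
  have ho : ∀ x, In Λ x0 ρ Kb x → ‖LY.Φ x0 x‖ ≤ ρ / 10 := by
    intro x hx
    have h1 := Lyap.norm_Φ_sub_le (LY := LY) hx0R x x0
    rw [Lyap.Φ_self, sub_zero] at h1
    have h2 := hx.2
    rw [le_div_iff₀ (by positivity)] at h2
    have h3 := mul_le_mul_of_nonneg_right hr0x (norm_nonneg (LY.Φ x0 x))
    have h4 := mul_le_mul_of_nonneg_right hKb1 (dist_nonneg (x := x) (y := x0))
    have h5 : r0 * ‖LY.Φ x0 x‖ ≤ r0 * (ρ / 10) := by nlinarith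
    exact le_of_mul_le_mul_left h5 hr0
  have hs := fun x (hx : In Λ x0 ρ Kb x) => leaf_box h hB hκ hx0 hx.1 hρ hρr hρA (ho x hx)
  have hu := fun x (hx : In Λ x0 ρ Kb x) => leaf_box h.symm hB' hκ hx0 hx.1 hρ hρr hρA
    (by rw [hΦ', Prod.norm_def, Prod.fst_swap, Prod.snd_swap, max_comm, ← Prod.norm_def]
        exact ho x hx)
  choose! ws hs1 hs2 hs3 hs4 _ using hs
  choose! wu hu1 hu2 _ hu4 hu5 using hu
  have hcon : ∀ (k : ℕ) (t : ℝ), 2 * A.K * Real.exp (-(2 * δ) * k) * |t| ≤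
      Kb * Real.exp (-(2 * δ) * k) * |t| := fun k t => by gcongr
  have hz : ∀ x, In Λ x0 ρ Kb x → ∀ s ∈ Icc (-ρ) ρ, ‖((ws x s, s) : V)‖ ≤ ρ := by
    intro x hx s hs
    rw [Prod.norm_mk, Real.norm_eq_abs, Real.norm_eq_abs]
    exact max_le (hs3 x hx s hs).1 (abs_le.2 hs)
  have hΦz : ∀ x, In Λ x0 ρ Kb x → ∀ s ∈ Icc (-ρ) ρ,
      LY.Φ x0 (LY.Ψ x0 (ws x s, s)) = (ws x s, s) := fun x hx s hs =>
    Lyap.Φ_Ψ hx0R ((hz x hx s hs).trans_lt hρA')
  have hd : ∀ x, In Λ x0 ρ Kb x → ∀ x', In Λ x0 ρ Kb x' → ∀ s ∈ Icc (-ρ) ρ,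
      dist (LY.Ψ x0 (ws x' s, s)) x < A.ρ := by
    intro x hx x' hx' s hs
    have h1 := Lyap.dist_Ψ_le (LY := LY) hx0R ((hz x' hx' s hs).trans_lt hρA')
      (z' := 0) (by simpa using hAρ)
    rw [Lyap.Ψ_zero, sub_zero] at h1
    have h2 := hx.2
    rw [le_div_iff₀ (by positivity)] at h2
    have h3 := dist_triangle_right (LY.Ψ x0 (ws x' s, s)) x x0
    have h4 := mul_le_mul_of_nonneg_left (hz x' hx' s hs) (by linarith : 0 ≤ A.K)
    have h5 := dist_nonneg (x := x) (y := x0)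
    nlinarith
  refine ⟨{ i := A.idx x0
            C := LY.C x0
            Ci := LY.Ci x0
            ws := ws
            wu := wu
            ρ_pos := hρ
            ρ_le := hρA
            one_le := hKb
            c_pos := by positivity
            ε0_pos := by positivity
            mem := A.mem_D x0
            C_Ci := LY.C_Ci x0 hx0R
            Ci_C := LY.Ci_C x0 hx0R
            C_le := LY.C_le x0 hx0R
            Ci_le := ?_
            ws_self := hs1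
            ws_lip := hs2
            ws_con := fun x hx s hs s' hs' k => (hs4 x hx s hs s' hs' k).trans (hcon k _)
            wu_self := fun x hx => ?_
            wu_lip := hu2
            wu_con := fun x hx u hu u' hu' k => ?_
            wu_char := fun x hx y hy hy' => ?_
            holo := fun x hx x' hx' s hs s' hs' => ?_
            growth := fun x hx a ha => ?_
            closing := fun x hx hr gs hgs hconv γ hγ =>
              closing h hB hκ hκ' hx0 hx.1 hr hρ hρr (ho x hx) hgs hconv hγ }⟩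
  · have h1 := LY.r_Ci x0 hx0R
    have h2 := mul_le_mul_of_nonneg_right hr0x (norm_nonneg (LY.Ci x0))
    have h3 : r0 * ‖LY.Ci x0‖ ≤ r0 * Kb := by nlinarith
    exact le_of_mul_le_mul_left h3 hr0
  · have := hu1 x hx
    rw [hΦ'] at this
    exact this
  · have := (hu4 x hx u hu u' hu' k).trans (hcon k _)
    rw [hΨ', hΨ'] at this
    exact this
  · have := hu5 x hx y hy (by rw [hΦ']; exact hy')
    rw [hΦ'] at this
    exact this
  · have := hholo x0 hx0 x hx.1 x' hx'.1 _ _ _ _ (hs3 x hx s hs).2.1 (hs3 x hx s' hs').2.1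
      (hs3 x' hx' s hs).2.1 (hs3 x' hx' s' hs').2.1 ((hs3 x hx s hs).2.2.trans hρ1')
      ((hs3 x hx s' hs').2.2.trans hρ1') ((hs3 x' hx' s hs).2.2.trans hρ1')
      ((hs3 x' hx' s' hs').2.2.trans hρ1') (hd x hx x' hx' s hs) (hd x hx x' hx' s' hs')
      (by rw [hΦz x hx s hs, hΦz x' hx' s hs]) (by rw [hΦz x hx s' hs', hΦz x' hx' s' hs'])
    rw [hΦz x hx s hs, hΦz x' hx' s hs, hΦz x hx s' hs', hΦz x' hx' s' hs'] at this
    have hm : ∀ t : ℝ, max |t| 0 = |t| := fun t => max_eq_left (abs_nonneg t)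
    simp only [Prod.mk_sub_mk, sub_self, Prod.norm_mk, norm_zero, Real.norm_eq_abs, hm] at this
    exact this.trans (mul_le_mul_of_nonneg_right hKb3 (abs_nonneg _))
  · have h0 : (0 : ℝ) ∈ Icc (-ρ) ρ := ⟨by linarith, hρ.le⟩
    exact growth h hB hκ hA hx0 hx.1 ((hs3 x hx 0 h0).1.trans_lt hρA') (hs3 x hx 0 h0).2.1 ha

theorem pesin_level_box (F : Dif A) (μ : Measure X) [IsFiniteMeasure μ]
    (hμ : MeasurePreserving F.f μ μ) {c0 χ : ℝ} (hc : 0 < c0) (hχ : 0 < χ) :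
    ∃ Λ : ℕ → Set X, (∀ l, MeasurableSet (Λ l) ∧ HasBoxes F (Λ l) c0) ∧
      ∀ᵐ x ∂μ, χ < l1 (A.coc F.f) x → l2 (A.coc F.f) x < -χ → ∃ l, x ∈ Λ l := by
  obtain ⟨δ, η, hδ, hδc, hp⟩ := exists_par hχ hc
  obtain ⟨Kf, hKf⟩ := F.smf.2 2
  obtain ⟨Kg, hKg⟩ := F.smg.2 2
  obtain ⟨K, hK⟩ := F.cocycle
  have hη := hp.pos
  have hAK := A.one_le_K
  have hAρ := A.ρ_pos
  set K2 := max 1 (max Kf Kg) with hK2
  have h1 : 1 ≤ K2 := le_max_left _ _
  set δ0 := min (η / (4 * K2 * Real.exp δ)) (A.ρ / (4 * A.K * K2)) with hδ0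
  have hδ0' : 0 < δ0 := by positivity
  have hK' : 1 ≤ K + Real.exp χ := by linarith [hK.one_le, Real.exp_pos χ]
  have hadm : Adm F (K + Real.exp χ) χ δ δ0 η K2 := by
    refine ⟨hp, hδ, hK', h1, hKf.mono le_rfl ((le_max_left _ _).trans (le_max_right _ _)),
      hKg.mono le_rfl ((le_max_right _ _).trans (le_max_right _ _)), hδ0', ?_, ?_⟩
    · have := min_le_left (η / (4 * K2 * Real.exp δ)) (A.ρ / (4 * A.K * K2))
      rwa [le_div_iff₀' (by positivity)] at this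
    · have := min_le_right (η / (4 * K2 * Real.exp δ)) (A.ρ / (4 * A.K * K2))
      rwa [le_div_iff₀' (by positivity)] at this
  obtain ⟨LY, hA, hae⟩ := exists_lyap hK μ hμ hχ hδ hδ0'
  have hκ : 0 < min (1 / 100) (η / (4 * (K + Real.exp χ))) := by positivity
  obtain ⟨Λ, r0, hB, hcov⟩ := LY.exists_blocks hδ hκ
  refine ⟨Λ, fun l => ⟨(hB l).meas, hasBoxes_of_block hadm (hB l) (min_le_left _ _) ?_ hA hδc⟩, ?_⟩
  · have := min_le_right (1 / 100) (η / (4 * (K + Real.exp χ)))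
    rw [le_div_iff₀ (by positivity)] at this
    linarith
  · filter_upwards [hae] with x hx h1 h2
    exact mem_iUnion.1 (hcov (hx h1 h2))

theorem pesin (F : Dif A) (μ : Measure X) [IsFiniteMeasure μ] (hμ : MeasurePreserving F.f μ μ)
    {c0 : ℝ} (hc : 0 < c0) : ∃ Λ : ℕ → Set X, (∀ l, MeasurableSet (Λ l) ∧ HasBoxes F (Λ l) c0) ∧
      ∀ᵐ x ∂μ, 0 < l1 (A.coc F.f) x → l2 (A.coc F.f) x < 0 → ∃ l, x ∈ Λ l := by
  have H := fun j : ℕ => pesin_level_box F μ hμ hc (Nat.one_div_pos_of_nat (n := j))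
  choose Λ hΛ hae using H
  refine ⟨fun n => Λ n.unpair.1 n.unpair.2, fun n => hΛ _ _, ?_⟩
  filter_upwards [ae_all_iff.2 hae] with x hx h1 h2
  obtain ⟨j, hj⟩ := exists_nat_one_div_lt (lt_min h1 (neg_pos.2 h2))
  obtain ⟨l, hl⟩ := hx j (hj.trans_le (min_le_left _ _))
    (by linarith [hj.trans_le (min_le_right _ _)])
  exact ⟨Nat.pair j l, by simpa using hl⟩

end Pool.Agent.Lib.MP_e7c912_an
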