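import Pool.Agent.Lib.MP_e7c912_an.H60Ent1

/-! An upper bound for the entropy. -/

namespace Pool.Agent.Lib.MP_e7c912_an

open MeasureTheory Filter Metric Set Topology
open scoped ENNReal

variable {X : Type} [MeasurableSpace X] {T S : X → X} {μ : Measure X}

theorem ent_itin_zero_ent {β : Type} [Fintype β] [IsProbabilityMeasure μ] (E : X → β) :
    ent μ (itin T E 0) = 0 := by
  unfold ent
  refine Finset.sum_eq_zero fun b _ => ?_
  have : itin T E 0 ⁻¹' {b} = univ := by
    ext x
    simp only [mem_preimage, mem_singleton_iff, mem_univ, iff_true]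
    exact Subsingleton.elim _ _
  rw [this]
  simp

theorem ent_itin_le_ent {β : Type} [Fintype β] [IsProbabilityMeasure μ]
    (hT : MeasurePreserving T μ μ) {E : X → β} (hE : Fib E) (n : ℕ) :
    ent μ (itin T E n) ≤ n * ent μ E := by
  induction n with
  | zero => simp [ent_itin_zero_ent]
  | succ n ih =>
    have h1 : Fib (itin T E n) := hE.itin hT.measurable n
    have h2 : Fib (E ∘ T^[n]) := hE.comp (hT.measurable.iterate n)
    have h3 : ent μ (itin T E (n + 1)) ≤ ent μ (fun x => (itin T E n x, (E ∘ T^[n]) x)) := by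
      refine ent_le_of_det (h1.prod h2) fun x y hxy => ?_
      simp only [Prod.mk.injEq, Function.comp] at hxy
      funext i
      refine Fin.lastCases ?_ (fun j => ?_) i
      · simpa [itin] using hxy.2
      · simpa [itin] using congrFun hxy.1 j
    have h4 := ent_prod_le (μ := μ) h1 h2
    rw [ent_comp (hT.iterate n) hE] at h4
    push_cast
    linarith

theorem ent_itin_le_chain_ent {β : Type} [Fintype β] [IsProbabilityMeasure μ]
    (hT : MeasurePreserving T μ μ) {P : X → β} (hP : Fib P) {nn : X → ℝ} (hn : Integrable nn μ)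
    (h : ∀ x, Real.log (Set.ncard {b | ∃ y, P y = P x ∧ P (T y) = b}) ≤ nn x) (n : ℕ) :
    ent μ (itin T P (n + 1)) ≤ ent μ P + n * ∫ x, nn x ∂μ := by
  induction n with
  | zero =>
    have : ent μ (itin T P (0 + 1)) ≤ ent μ P := by
      refine ent_le_of_det hP fun x y hxy => ?_
      funext i
      simp [itin, hxy]
    simpa using this
  | succ n ih =>
    have h1 : Fib (itin T P (n + 1)) := hP.itin hT.measurable (n + 1)
    have h2 : Fib (P ∘ T^[n + 1]) := hP.comp (hT.measurable.iterate (n + 1))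
    have h3 : ent μ (itin T P (n + 1 + 1)) ≤
        ent μ (fun x => (itin T P (n + 1) x, (P ∘ T^[n + 1]) x)) := by
      refine ent_le_of_det (h1.prod h2) fun x y hxy => ?_
      simp only [Prod.mk.injEq, Function.comp] at hxy
      funext i
      refine Fin.lastCases ?_ (fun j => ?_) i
      · exact hxy.2
      · exact congrFun hxy.1 j
    have hint : Integrable (nn ∘ T^[n]) μ := (hT.iterate n).integrable_comp_of_integrable hn
    have h4 := ent_chain (μ := μ) h1 h2 hint (fun x => by
      refine le_trans ?_ (h (T^[n] x))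
      have hsub : {b | ∃ y, itin T P (n + 1) y = itin T P (n + 1) x ∧ (P ∘ T^[n + 1]) y = b} ⊆
          {b | ∃ y, P y = P (T^[n] x) ∧ P (T y) = b} := by
        rintro b ⟨y, hy, rfl⟩
        refine ⟨T^[n] y, congrFun hy (Fin.last n), ?_⟩
        simp only [Function.comp, Function.iterate_succ_apply']
      have hpos : 0 < Set.ncard
          {b | ∃ y, itin T P (n + 1) y = itin T P (n + 1) x ∧ (P ∘ T^[n + 1]) y = b} :=
        (Set.ncard_pos (Set.toFinite _)).2 ⟨_, x, rfl, rfl⟩
      refine Real.log_le_log (by exact_mod_cast hpos) ?_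
      exact_mod_cast Set.ncard_le_ncard hsub (Set.toFinite _))
    have h5 : ∫ x, (nn ∘ T^[n]) x ∂μ = ∫ x, nn x ∂μ := by
      have hm := (hT.iterate n).map_eq
      have := integral_map (μ := μ) (hT.iterate n).measurable.aemeasurable (f := nn)
        (by rw [hm]; exact hn.aestronglyMeasurable)
      rw [hm] at this
      exact this.symm
    rw [h5] at h4
    push_cast
    linarith

/-- A finite partition is determined on a small scale up to an error of small entropy. -/
theorem exists_error_ent [MetricSpace X] [CompactSpace X] [BorelSpace X] [IsProbabilityMeasure μ]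
    {k : ℕ} {Q : X → Fin k} (hQ : Measurable Q) {t : ℝ} (ht : 0 < t) :
    ∃ γ : ℝ, 0 < γ ∧ ∃ E : X → Option (Fin k), Fib E ∧ ent μ E ≤ t ∧
      ∀ x y, dist x y ≤ γ → E x = E y → Q x = Q y := by
  classical
  have hk : (0 : ℝ) < 2 * k + 1 := by positivity
  set s : ℝ := t / (2 * k + 1) with hs
  have spos : 0 < s := div_pos ht hk
  obtain ⟨δ, δpos, δle, hδ⟩ : ∃ δ : ℝ, 0 < δ ∧ δ ≤ s ∧
      ∀ u : ℝ, 0 ≤ u → u ≤ δ → Real.negMulLog u ≤ s := by
    have hc := Real.continuous_negMulLog.continuousAt (x := 0)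
    obtain ⟨d, dpos, hd⟩ := Metric.continuousAt_iff.1 hc s spos
    refine ⟨min s (d / 2), by positivity, min_le_left _ _, fun u u0 hu => ?_⟩
    have h1 : dist u 0 < d := by
      rw [Real.dist_eq, sub_zero, abs_of_nonneg u0]
      have := min_le_right s (d / 2)
      linarith
    have h2 := hd h1
    rw [Real.dist_eq, Real.negMulLog_zero, sub_zero] at h2
    exact (le_abs_self _).trans h2.le
  have hQm : ∀ i, MeasurableSet (Q ⁻¹' {i}) := fun i => hQ (measurableSet_singleton i)
  have hK : ∀ i : Fin k, ∃ F, F ⊆ Q ⁻¹' {i} ∧ IsClosed F ∧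
      μ (Q ⁻¹' {i} \ F) < ENNReal.ofReal δ := fun i =>
    (hQm i).exists_isClosed_sdiff_lt (measure_ne_top _ _) (by simpa using δpos)
  choose K Ksub Kcl Kμ using hK
  have hsep : ∀ p : Fin k × Fin k, ∀ᶠ γ : ℝ in 𝓝[>] 0,
      p.1 ≠ p.2 → ∀ x ∈ K p.1, ∀ y ∈ K p.2, γ < dist x y := by
    intro p
    by_cases hp : p.1 = p.2
    · exact Eventually.of_forall fun _ h => absurd hp h
    · have hd : Disjoint (K p.1) (K p.2) := by
        refine Set.disjoint_left.2 fun x h1 h2 => hp ?_
        have e1 : Q x = p.1 := Ksub _ h1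
        have e2 : Q x = p.2 := Ksub _ h2
        rw [← e1, ← e2]
      obtain ⟨r, rpos, hr⟩ := Metric.exists_pos_forall_lt_edist (Kcl p.1).isCompact (Kcl p.2) hd
      have hr' : (0 : ℝ) < r := rpos
      filter_upwards [Ioo_mem_nhdsGT hr'] with γ hγ _ x hx y hy
      have h1 := hr x hx y hy
      rw [edist_nndist, ENNReal.coe_lt_coe] at h1
      have h2 : (r : ℝ) < dist x y := h1
      exact hγ.2.trans h2
  obtain ⟨γ, hγ, γpos⟩ := ((eventually_all.2 hsep).and self_mem_nhdsWithin).exists
  let E : X → Option (Fin k) := fun x => if x ∈ K (Q x) then none else some (Q x)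
  have Esome : ∀ i, E ⁻¹' {some i} = Q ⁻¹' {i} \ K i := by
    intro i
    ext x
    simp only [E, mem_preimage, mem_singleton_iff, Set.mem_sdiff]
    split_ifs with hx
    · simp only [false_iff, not_and, not_not]
      rintro rfl
      exact hx
    · simp only [Option.some.injEq]
      constructor
      · rintro rfl
        exact ⟨rfl, hx⟩
      · exact fun h => h.1
  have Enone : E ⁻¹' {none} = (⋃ i, E ⁻¹' {some i})ᶜ := by
    ext x
    simp only [mem_preimage, mem_singleton_iff, mem_compl_iff, mem_iUnion, not_exists]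
    cases E x <;> simp
  have hms : ∀ i, MeasurableSet (E ⁻¹' {some i}) := fun i => by
    rw [Esome]
    exact (hQm i).diff (Kcl i).measurableSet
  have hsm : ∀ i, μ.real (E ⁻¹' {some i}) ≤ δ := fun i => by
    rw [Esome]
    exact ENNReal.toReal_le_of_le_ofReal δpos.le (Kμ i).le
  refine ⟨γ, γpos, E, ?_, ?_, ?_⟩
  · intro b
    cases b with
    | none =>
      rw [Enone]
      exact (MeasurableSet.iUnion hms).compl
    | some i => exact hms i
  · unfold ent
    rw [Fintype.sum_option]
    have h1 : ∑ i : Fin k, Real.negMulLog (μ.real (E ⁻¹' {some i})) ≤ k * s := by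
      calc ∑ i : Fin k, Real.negMulLog (μ.real (E ⁻¹' {some i})) ≤ ∑ _i : Fin k, s :=
            Finset.sum_le_sum fun i _ => hδ _ measureReal_nonneg (hsm i)
        _ = k * s := by simp
    have h2 : Real.negMulLog (μ.real (E ⁻¹' {none})) ≤ k * s := by
      refine (Real.negMulLog_le_one_sub_self measureReal_nonneg).trans ?_
      rw [Enone, measureReal_compl (MeasurableSet.iUnion hms)]
      have h3 : μ.real (⋃ i, E ⁻¹' {some i}) ≤ ∑ i : Fin k, μ.real (E ⁻¹' {some i}) :=
        measureReal_iUnion_fintype_le _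
      have h4 : ∑ i : Fin k, μ.real (E ⁻¹' {some i}) ≤ k * s := by
        calc ∑ i : Fin k, μ.real (E ⁻¹' {some i}) ≤ ∑ _i : Fin k, s :=
              Finset.sum_le_sum fun i _ => (hsm i).trans δle
          _ = k * s := by simp
      simp only [probReal_univ]
      linarith
    have h5 : (2 * k + 1) * s = t := by
      rw [hs]
      field_simp
    nlinarith
  · intro x y hxy hE
    by_contra hne
    by_cases hx : x ∈ K (Q x) <;> by_cases hy : y ∈ K (Q y)
    · have := hγ (Q x, Q y) hne x hx y hy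
      linarith
    · simp [E, hx, hy] at hE
    · simp [E, hx, hy] at hE
    · simp only [E, hx, hy, if_false, Option.some.injEq] at hE
      exact hne hE

/-- Upper bound through fine partitions and the number of cells met by the image of a cell. -/
theorem ks_le [MetricSpace X] [CompactSpace X] [BorelSpace X] [IsProbabilityMeasure μ]
    (hT : MeasurePreserving T μ μ) {B : ℝ}
    (h : ∀ γ : ℝ, 0 < γ → ∃ (β : Type) (_ : Fintype β) (P : X → β) (nn : X → ℝ),
      (∀ b, MeasurableSet (P ⁻¹' {b})) ∧ (∀ x y, P x = P y → dist x y ≤ γ) ∧ Integrable nn μ ∧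
      (∀ x, Real.log (Set.ncard {b | ∃ y, P y = P x ∧ P (T y) = b}) ≤ nn x) ∧ ∫ x, nn x ∂μ ≤ B) :
    ksEntropy μ T ≤ ENNReal.ofReal B := by
  unfold ksEntropy
  refine iSup_le fun k => iSup_le fun Q => iSup_le fun hQ => ?_
  refine ENNReal.le_of_forall_pos_le_add fun ε εpos _ => ?_
  have tpos : (0 : ℝ) < ε / 2 := by positivity
  obtain ⟨γ, γpos, E, hE, Eent, hdet⟩ := exists_error_ent (μ := μ) hQ tpos
  obtain ⟨β, _, P, nn, hP, Pγ, hn, hcard, hB⟩ := h γ γpos
  have hP' : Fib P := hP
  have hI0 : 0 ≤ ∫ x, nn x ∂μ :=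
    integral_nonneg fun x => (Real.log_natCast_nonneg _).trans (hcard x)
  have B0 : 0 ≤ B := hI0.trans hB
  have key : ∀ n : ℕ, blockEntropy μ T Q (n + 1) ≤ ent μ P + (n + 1) * (B + ε / 2) := by
    intro n
    rw [blockEntropy_eq]
    have h1 : Fib (itin T P (n + 1)) := hP'.itin hT.measurable (n + 1)
    have h2 : Fib (itin T E (n + 1)) := hE.itin hT.measurable (n + 1)
    have h3 : ent μ (itin T Q (n + 1)) ≤
        ent μ (fun x => (itin T P (n + 1) x, itin T E (n + 1) x)) := by
      refine ent_le_of_det (h1.prod h2) fun x y hxy => ?_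
      simp only [Prod.mk.injEq] at hxy
      funext i
      exact hdet _ _ (Pγ _ _ (congrFun hxy.1 i)) (congrFun hxy.2 i)
    have h4 := ent_prod_le (μ := μ) h1 h2
    have h5 := ent_itin_le_chain_ent hT hP' hn hcard n
    have h6 := ent_itin_le_ent hT hE (n + 1)
    have n0 : (0 : ℝ) ≤ n := Nat.cast_nonneg n
    have h7 : (n : ℝ) * ∫ x, nn x ∂μ ≤ n * B := mul_le_mul_of_nonneg_left hB n0
    have h8 : ((n : ℝ) + 1) * ent μ E ≤ (n + 1) * (ε / 2) :=
      mul_le_mul_of_nonneg_left Eent (by positivity)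
    push_cast at h6
    nlinarith
  refine limsup_le_of_le (by isBoundedDefault) ?_
  obtain ⟨N, hN⟩ := exists_nat_ge (ent μ P / (ε / 2))
  filter_upwards [eventually_ge_atTop (N + 1)] with m hm
  obtain ⟨n, rfl⟩ : ∃ n, m = n + 1 := ⟨m - 1, by omega⟩
  have npos : (0 : ℝ) < (n : ℝ) + 1 := by positivity
  have hle : blockEntropy μ T Q (n + 1) / ((n + 1 : ℕ) : ℝ) ≤ B + ε := by
    push_cast
    rw [div_le_iff₀ npos]
    have h1 : ent μ P ≤ N * (ε / 2) := (div_le_iff₀ tpos).1 hN
    have h2 : (N : ℝ) ≤ n + 1 := by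
      have : N ≤ n + 1 := by omega
      exact_mod_cast this
    have h3 : (N : ℝ) * (ε / 2) ≤ (n + 1) * (ε / 2) := mul_le_mul_of_nonneg_right h2 tpos.le
    have := key n
    nlinarith
  calc ENNReal.ofReal (blockEntropy μ T Q (n + 1) / ((n + 1 : ℕ) : ℝ))
      ≤ ENNReal.ofReal (B + ε) := ENNReal.ofReal_le_ofReal hle
    _ = ENNReal.ofReal B + ε := by
      rw [ENNReal.ofReal_add B0 ε.coe_nonneg, ENNReal.ofReal_coe_nnreal]

end Pool.Agent.Lib.MP_e7c912_an
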