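import Pool.Agent.Lib.MP_e7c912_an.H60Ose2

/-! The Oseledets theorem for invertible cocycles of 2 by 2 matrices. -/

namespace Pool.Agent.Lib.MP_e7c912_an

open MeasureTheory Filter Metric Set Topology
open scoped ENNReal

variable {X : Type} [MeasurableSpace X] {T S : X → X} {M M' : ℕ → X → V →L[ℝ] V} {K : ℝ}

/-- Regular points. -/
structure OReg (T : X → X) (M M' : ℕ → X → V →L[ℝ] V) (eu es : X → V) (x : X) : Prop where
  t1 : Tendsto (fun n : ℕ => Real.log ‖M n x‖ / n) atTop (𝓝 (l1 M x))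
  t2 : Tendsto (fun n : ℕ => Real.log (|det2 (M n x)| / ‖M n x‖) / n) atTop (𝓝 (l2 M x))
  t1' : Tendsto (fun n : ℕ => Real.log ‖M' n x‖ / n) atTop (𝓝 (-l2 M x))
  t2' : Tendsto (fun n : ℕ => Real.log (|det2 (M' n x)| / ‖M' n x‖) / n) atTop (𝓝 (-l1 M x))
  le : l2 M x ≤ l1 M x
  l1' : l1 M' x = -l2 M x
  l2' : l2 M' x = -l1 M x
  ne : l2 M x < l1 M x → om (eu x) (es x) ≠ 0
  inv_u : l2 M x < l1 M x → om (M 1 x (eu x)) (eu (T x)) = 0
  inv_s : l2 M x < l1 M x → om (M 1 x (es x)) (es (T x)) = 0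
  fs : l2 M x < l1 M x →
    Tendsto (fun n : ℕ => Real.log ‖M n x (es x)‖ / n) atTop (𝓝 (l2 M x))
  fo : l2 M x < l1 M x → ∀ v, om v (es x) ≠ 0 →
    Tendsto (fun n : ℕ => Real.log ‖M n x v‖ / n) atTop (𝓝 (l1 M x))
  bu : l2 M x < l1 M x →
    Tendsto (fun n : ℕ => Real.log ‖M' n x (eu x)‖ / n) atTop (𝓝 (-l1 M x))
  bo : l2 M x < l1 M x → ∀ v, om v (eu x) ≠ 0 →
    Tendsto (fun n : ℕ => Real.log ‖M' n x v‖ / n) atTop (𝓝 (-l2 M x))

/-! ### Real sequences -/

theorem near_ose {u w : ℕ → ℝ} {a C : ℝ} (hu : Tendsto (fun n : ℕ => u n / n) atTop (𝓝 a))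
    (h : ∀ n, |w n - u n| ≤ C) : Tendsto (fun n : ℕ => w n / n) atTop (𝓝 a) := by
  have h0 : Tendsto (fun n : ℕ => (w n - u n) / n) atTop (𝓝 0) := by
    refine squeeze_zero_norm (a := fun n : ℕ => C / n) (fun n => ?_)
      (tendsto_const_div_atTop_nhds_zero_nat C)
    rw [Real.norm_eq_abs, abs_div, Nat.abs_cast]
    exact div_le_div_of_nonneg_right (h n) (Nat.cast_nonneg n)
  have := hu.add h0
  rw [add_zero] at this
  exact this.congr fun n => by ring

theorem neg_ose {u : ℕ → ℝ} {a : ℝ} (hu : Tendsto (fun n : ℕ => u n / n) atTop (𝓝 a)) :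
    Tendsto (fun n : ℕ => (-u n) / n) atTop (𝓝 (-a)) :=
  hu.neg.congr fun n => by ring

theorem shift_ose {u : ℕ → ℝ} {a : ℝ} (hu : Tendsto (fun n : ℕ => u n / n) atTop (𝓝 a)) :
    Tendsto (fun n : ℕ => u (n + 1) / n) atTop (𝓝 a) := by
  have h1 := (tendsto_add_atTop_iff_nat 1).2 hu
  have h2 : Tendsto (fun n : ℕ => (1 : ℝ) + 1 / n) atTop (𝓝 (1 + 0)) :=
    tendsto_const_nhds.add (tendsto_const_div_atTop_nhds_zero_nat 1)
  have h3 := h1.mul h2
  rw [add_zero, mul_one] at h3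
  refine h3.congr' ?_
  filter_upwards [eventually_gt_atTop 0] with n hn
  have : (n : ℝ) ≠ 0 := by positivity
  push_cast
  field_simp

theorem squeeze_ose {u w z : ℕ → ℝ} {a C : ℝ} (hu : Tendsto (fun n : ℕ => u n / n) atTop (𝓝 a))
    (hz : Tendsto (fun n : ℕ => z n / n) atTop (𝓝 a)) (h1 : ∀ n, u n - C ≤ w n)
    (h2 : ∀ n, w n ≤ z n + C) : Tendsto (fun n : ℕ => w n / n) atTop (𝓝 a) := by
  have hu' := near_ose (w := fun n => u n - C) (C := |C|) hu (fun n => by simp)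
  have hz' := near_ose (w := fun n => z n + C) (C := |C|) hz (fun n => by simp)
  exact tendsto_of_tendsto_of_tendsto_of_le_of_le hu' hz'
    (fun n => div_le_div_of_nonneg_right (h1 n) (Nat.cast_nonneg n))
    (fun n => div_le_div_of_nonneg_right (h2 n) (Nat.cast_nonneg n))

theorem ev_exp_ose {u : ℕ → ℝ} {a b : ℝ} (h0 : ∀ n, 0 < u n)
    (hu : Tendsto (fun n : ℕ => Real.log (u n) / n) atTop (𝓝 b)) (hab : a < b) :
    ∀ᶠ n : ℕ in atTop, Real.exp (a * n) ≤ u n := by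
  filter_upwards [hu.eventually (lt_mem_nhds hab), eventually_gt_atTop 0] with n hn hn0
  have h1 : (0 : ℝ) < n := by positivity
  rw [lt_div_iff₀ h1] at hn
  rw [← Real.exp_log (h0 n)]
  exact Real.exp_le_exp.2 hn.le

theorem rate_le_ose {u : ℕ → ℝ} {b c C : ℝ} (h0 : ∀ n, 0 < u n)
    (hu : Tendsto (fun n : ℕ => Real.log (u n) / n) atTop (𝓝 b))
    (hf : ∃ᶠ n : ℕ in atTop, u n ≤ C * Real.exp (-c * n)) : b ≤ -c := by
  refine le_of_tendsto_of_tendsto_of_frequently hu (near_ose (u := fun n : ℕ => -c * n)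
    (w := fun n : ℕ => -c * n + Real.log C) (a := -c) (C := |Real.log C|) ?_ (fun n => by simp)) ?_
  · refine tendsto_const_nhds.congr' ?_
    filter_upwards [eventually_gt_atTop 0] with n hn
    have : (n : ℝ) ≠ 0 := by positivity
    field_simp
  · refine hf.mono fun n hn => div_le_div_of_nonneg_right ?_ (Nat.cast_nonneg n)
    have hC : 0 < C := (mul_pos_iff_of_pos_right (Real.exp_pos _)).1 ((h0 n).trans_le hn)
    have := Real.log_le_log (h0 n) hn
    rw [Real.log_mul hC.ne' (Real.exp_pos _).ne', Real.log_exp] at this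
    linarith

/-! ### Inverse matrices -/

theorem om_swap_ose (a b : V) : om a b = -om b a := by unfold om; ring

theorem om_smul_ose (s : ℝ) (a b : V) : om (s • a) b = s * om a b := by
  simp only [om, Prod.smul_fst, Prod.smul_snd, smul_eq_mul]; ring

theorem det_id_ose : det2 (ContinuousLinearMap.id ℝ V) = 1 := by simp [det2, om]

theorem ne_zero_ose {L L' : V →L[ℝ] V} (h : L'.comp L = ContinuousLinearMap.id ℝ V) {v : V}
    (hv : v ≠ 0) : L v ≠ 0 := by
  intro h0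
  have := congrArg (fun A : V →L[ℝ] V => A v) h
  simp only [ContinuousLinearMap.comp_apply, h0, map_zero, ContinuousLinearMap.id_apply] at this
  exact hv this.symm

theorem norm_pos_ose {L L' : V →L[ℝ] V} (h : L'.comp L = ContinuousLinearMap.id ℝ V) :
    0 < ‖L‖ := by
  refine norm_pos_iff.2 fun h0 => ne_zero_ose h (v := (1, 0)) (by simp) ?_
  rw [h0]; rfl

theorem inv_le_ose {L L' : V →L[ℝ] V} (h : L'.comp L = ContinuousLinearMap.id ℝ V)
    (h' : L.comp L' = ContinuousLinearMap.id ℝ V) :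
    Real.log ‖L'‖ ≤ Real.log 2 - Real.log (|det2 L| / ‖L‖) := by
  have hd : det2 L' * det2 L = 1 := by rw [← det2_comp, h, det_id_ose]
  have hd0 : 0 < |det2 L| := abs_pos.2 (right_ne_zero_of_mul_eq_one hd)
  have hL := norm_pos_ose h
  have h1 : ‖L'‖ ≤ 2 / (|det2 L| / ‖L‖) := by
    refine ContinuousLinearMap.opNorm_le_bound _ (by positivity) fun w => ?_
    have h2 := det2_mul_le L (L' w)
    have h3 : L (L' w) = w := congrArg (fun A : V →L[ℝ] V => A w) h'
    rw [h3] at h2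
    rw [div_div_eq_mul_div, div_mul_eq_mul_div, le_div_iff₀ hd0]
    linarith
  rw [← Real.log_div (by norm_num) (by positivity)]
  exact Real.log_le_log (norm_pos_ose h') h1

theorem inv_near_ose {L L' : V →L[ℝ] V} (h : L'.comp L = ContinuousLinearMap.id ℝ V)
    (h' : L.comp L' = ContinuousLinearMap.id ℝ V) :
    |Real.log ‖L'‖ - -Real.log (|det2 L| / ‖L‖)| ≤ Real.log 2 := by
  have h1 := inv_le_ose h h'
  have h2 := inv_le_ose h' h
  have hd : det2 L' * det2 L = 1 := by rw [← det2_comp, h, det_id_ose]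
  have hd0 : 0 < |det2 L| := abs_pos.2 (right_ne_zero_of_mul_eq_one hd)
  have hd1 : 0 < |det2 L'| := abs_pos.2 (left_ne_zero_of_mul_eq_one hd)
  have hd2 : Real.log |det2 L'| + Real.log |det2 L| = 0 := by
    rw [← Real.log_mul hd1.ne' hd0.ne', ← abs_mul, hd]; simp
  rw [Real.log_div hd0.ne' (norm_pos_ose h).ne'] at h1 ⊢
  rw [Real.log_div hd1.ne' (norm_pos_ose h').ne'] at h2
  rw [abs_le]
  constructor <;> linarith

theorem Cocycle.inv2_ose (h : Cocycle T S M M' K) (n : ℕ) (x : X) :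
    (M n x).comp (M' n (T^[n] x)) = ContinuousLinearMap.id ℝ V := by
  have := h.inv' n (T^[n] x)
  rwa [Function.LeftInverse.iterate h.ST n x] at this

theorem Cocycle.pos_ose (h : Cocycle T S M M' K) (n : ℕ) (x : X) {v : V} (hv : v ≠ 0) :
    0 < ‖M n x v‖ := norm_pos_iff.2 (ne_zero_ose (h.inv n x) hv)

theorem rate_smul_ose (h : Cocycle T S M M' K) {x : X} {e : V} (he : e ≠ 0) {s a : ℝ}
    (hs : s ≠ 0) (hu : Tendsto (fun n : ℕ => Real.log ‖M n x e‖ / n) atTop (𝓝 a)) :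
    Tendsto (fun n : ℕ => Real.log ‖M n x (s • e)‖ / n) atTop (𝓝 a) := by
  refine near_ose (C := |Real.log ‖s‖|) hu fun n => ?_
  rw [map_smul, norm_smul, Real.log_mul (norm_ne_zero_iff.2 hs) (h.pos_ose n x he).ne']
  simp

theorem rate_all_ose (h : Cocycle T S M M' K) {x : X} {v : V} (hv : v ≠ 0) {a : ℝ}
    (t1 : Tendsto (fun n : ℕ => Real.log ‖M n x‖ / n) atTop (𝓝 a))
    (t2 : Tendsto (fun n : ℕ => Real.log (|det2 (M n x)| / ‖M n x‖) / n) atTop (𝓝 a)) :
    Tendsto (fun n : ℕ => Real.log ‖M n x v‖ / n) atTop (𝓝 a) := by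
  have hv' : 0 < ‖v‖ := norm_pos_iff.2 hv
  refine squeeze_ose (C := |Real.log ‖v‖| + Real.log 2) t2 t1 (fun n => ?_) (fun n => ?_)
  · have h1 := det2_mul_le (M n x) v
    have h2 := norm_pos_ose (h.inv n x)
    have h3 := h.pos_ose n x hv
    have h4 : 0 < |det2 (M n x)| := abs_pos.2 (h.det2_ne n x)
    have h5 := Real.log_le_log (by positivity) h1
    rw [Real.log_mul h4.ne' hv'.ne', Real.log_mul (by positivity) h3.ne',
      Real.log_mul (by norm_num) h2.ne'] at h5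
    rw [Real.log_div h4.ne' h2.ne']
    linarith [neg_abs_le (Real.log ‖v‖)]
  · have h2 := norm_pos_ose (h.inv n x)
    have h5 := Real.log_le_log (h.pos_ose n x hv) ((M n x).le_opNorm v)
    rw [Real.log_mul h2.ne' hv'.ne'] at h5
    linarith [le_abs_self (Real.log ‖v‖), Real.log_nonneg (show (1 : ℝ) ≤ 2 by norm_num)]

/-! ### The exponents of the inverse cocycle -/

theorem key_ose (μ : Measure X) [IsFiniteMeasure μ] (hT : MeasurePreserving T μ μ)
    {f g : X → ℝ} {C : ℝ} (hf : Measurable f) (hg : Measurable g) (bf : ∀ x, |f x| ≤ C)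
    (bg : ∀ x, |g x| ≤ C) (fi : ∀ x, f (T x) = f x) (gi : ∀ x, g (T x) = g x) {a : ℕ → X → ℝ}
    (ha : ∀ n, Measurable (a n)) (ba : ∀ n x, |a n x| ≤ C)
    (h1 : ∀ᵐ x ∂μ, Tendsto (fun n => a n x) atTop (𝓝 (f x)))
    (h2 : ∀ᵐ x ∂μ, Tendsto (fun n => a n (T^[n] x)) atTop (𝓝 (g x))) : f =ᵐ[μ] g := by
  refine ae_eq_of_inv hf hg bf bg fi gi fun B hB hi => ?_
  have hT' := measurePreserving_restrict hT hB hi
  have e1 := tendsto_integral_of_dominated_convergence (μ := μ.restrict B) (F := a) (f := f)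
    (fun _ => C) (fun n => (ha n).aestronglyMeasurable) (integrable_const C)
    (fun n => ae_of_all _ fun x => ba n x) (ae_restrict_of_ae h1)
  have e2 := tendsto_integral_of_dominated_convergence (μ := μ.restrict B)
    (F := fun n x => a n (T^[n] x)) (f := g) (fun _ => C)
    (fun n => ((ha n).comp (hT.measurable.iterate n)).aestronglyMeasurable) (integrable_const C)
    (fun n => ae_of_all _ fun x => ba n _) (ae_restrict_of_ae h2)
  refine tendsto_nhds_unique e1 (e2.congr fun n => ?_)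
  have h3 := hT'.iterate n
  rw [← integral_map h3.measurable.aemeasurable (ha n).aestronglyMeasurable, h3.map_eq]

theorem abs_div_le_ose {u C : ℝ} (hC : 0 ≤ C) {n : ℕ} (h : |u| ≤ C * n) : |u / n| ≤ C := by
  rcases Nat.eq_zero_or_pos n with rfl | hn
  · simpa using hC
  · have h1 : (0 : ℝ) < n := by positivity
    rw [abs_div, Nat.abs_cast, div_le_iff₀ h1]
    exact h

theorem exps_ose (h : Cocycle T S M M' K) (μ : Measure X) [IsFiniteMeasure μ]
    (hT : MeasurePreserving T μ μ) :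
    ∀ᵐ x ∂μ, l1 M' x = -l2 M x ∧ l2 M' x = -l1 M x := by
  have hS := measurePreserving_inv hT h.measS h.ST
  obtain ⟨es, -, -, H⟩ := ose_half h μ hT
  obtain ⟨eu, -, -, H'⟩ := ose_half h.symm μ hS
  have k1 : 0 ≤ Real.log K := Real.log_nonneg h.one_le
  have k2 : 0 ≤ Real.log (2 * K ^ 2) := Real.log_nonneg (by nlinarith [h.one_le])
  have e1 : l1 M' =ᵐ[μ] fun x => -l2 M x := by
    refine key_ose μ hT (C := Real.log K + Real.log (2 * K ^ 2)) h.symm.measurable_l1
      h.measurable_l2.neg (fun x => by linarith [h.symm.abs_l1_le x])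
      (fun x => by rw [abs_neg]; exact h.abs_l2_le x)
      (fun x => by rw [← h.symm.l1_comp (T x), h.ST]) (fun x => by rw [h.l2_comp])
      (a := fun n x => Real.log ‖M' n x‖ / n)
      (fun n => ((h.measM' n).norm.log).div_const _)
      (fun n x => by linarith [abs_div_le_ose k1 (h.symm.abs_log_le n x)])
      (H'.mono fun x hx => hx.1) (H.mono fun x hx => ?_)
    exact near_ose (neg_ose hx.2.1) fun n => inv_near_ose (h.inv n x) (h.inv2_ose n x)
  have e2 : l2 M' =ᵐ[μ] fun x => -l1 M x := by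
    refine key_ose μ hT (C := Real.log K + Real.log (2 * K ^ 2)) h.symm.measurable_l2
      h.measurable_l1.neg (fun x => h.symm.abs_l2_le x)
      (fun x => by rw [abs_neg]; linarith [h.abs_l1_le x])
      (fun x => by rw [← h.symm.l2_comp (T x), h.ST]) (fun x => by rw [h.l1_comp])
      (a := fun n x => Real.log (|det2 (M' n x)| / ‖M' n x‖) / n)
      (fun n => ((((measurable_det2.comp (h.measM' n)).abs).div (h.measM' n).norm).log).div_const _)
      (fun n x => abs_div_le_ose (by linarith) ?_)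
      (H'.mono fun x hx => hx.2.1) (H.mono fun x hx => ?_)
    · rw [Real.log_div (abs_pos.2 (h.symm.det2_ne n x)).ne' (norm_pos_ose (h.inv' n x)).ne']
      have h1 := h.symm.abs_log_le n x
      have h2 := h.symm.abs_log_det_le n x
      have h3 := abs_sub (Real.log |det2 (M' n x)|) (Real.log ‖M' n x‖)
      linarith
    · refine near_ose (C := Real.log 2) (neg_ose hx.1) fun n => ?_
      have := inv_near_ose (h.inv2_ose n x) (h.inv n x)
      rw [abs_le] at this ⊢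
      constructor <;> linarith [this.1, this.2]
  filter_upwards [e1, e2] with x h1 h2 using ⟨h1, h2⟩

/-! ### Invariance of the directions -/

theorem inv_half_ose (h : Cocycle T S M M' K) (μ : Measure X) (hT : MeasurePreserving T μ μ)
    {es : X → V} (H : ∀ᵐ x ∂μ, l2 M x < l1 M x →
        Tendsto (fun n : ℕ => Real.log ‖M n x (es x)‖ / n) atTop (𝓝 (l2 M x)) ∧
        ∀ v, om v (es x) ≠ 0 →
          Tendsto (fun n : ℕ => Real.log ‖M n x v‖ / n) atTop (𝓝 (l1 M x))) :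
    ∀ᵐ x ∂μ, l2 M x < l1 M x → om (M 1 x (es x)) (es (T x)) = 0 := by
  filter_upwards [H, hT.quasiMeasurePreserving.ae H] with x h1 h2 hlt
  by_contra hne
  rw [h.l1_comp, h.l2_comp] at h2
  have h3 := (h2 hlt).2 _ hne
  have h4 := shift_ose (u := fun n => Real.log ‖M n x (es x)‖) (h1 hlt).1
  refine hlt.ne (tendsto_nhds_unique h4 (h3.congr fun n => ?_))
  rw [add_comm, h.add 1 n x]
  rfl

theorem sum_ose (h : Cocycle T S M M' K) {e : X → V} (he : ∀ x, ‖e x‖ = 1) {G : Set X}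
    (hG : ∀ x ∈ G, T x ∈ G) {ψ : X → ℝ}
    (hs : ∀ y ∈ G, ∃ s : ℝ, s ≠ 0 ∧ M 1 y (e y) = s • e (T y) ∧ Real.log |s| = ψ y)
    {x : X} (hx : x ∈ G) (n : ℕ) : Real.log ‖M n x (e x)‖ = birkhoffSum T ψ n x := by
  have H : T^[n] x ∈ G ∧ ∃ s : ℝ, s ≠ 0 ∧ M n x (e x) = s • e (T^[n] x) ∧
      Real.log |s| = birkhoffSum T ψ n x := by
    induction n with
    | zero => exact ⟨hx, 1, one_ne_zero, by simp [h.zero], by simp⟩
    | succ n ih =>
      obtain ⟨h1, s, h2, h3, h4⟩ := ih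
      obtain ⟨t, h5, h6, h7⟩ := hs _ h1
      rw [Function.iterate_succ_apply']
      refine ⟨hG _ h1, s * t, mul_ne_zero h2 h5, ?_, ?_⟩
      · rw [h.add n 1 x, ContinuousLinearMap.comp_apply, h3, map_smul, h6, smul_smul]
      · rw [abs_mul, Real.log_mul (abs_ne_zero.2 h2) (abs_ne_zero.2 h5), h4, h7, birkhoffSum_succ]
  obtain ⟨-, s, -, h3, h4⟩ := H
  rw [h3, norm_smul, he, mul_one, Real.norm_eq_abs, h4]

theorem back_ose (h : Cocycle T S M M' K) (μ : Measure X) [IsFiniteMeasure μ]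
    (hT : MeasurePreserving T μ μ) {es : X → V} (hm : Measurable es) (he : ∀ x, ‖es x‖ = 1)
    (H1 : ∀ᵐ x ∂μ, l2 M x < l1 M x →
        Tendsto (fun n : ℕ => Real.log ‖M n x (es x)‖ / n) atTop (𝓝 (l2 M x)))
    (H2 : ∀ᵐ x ∂μ, l2 M x < l1 M x → om (M 1 x (es x)) (es (T x)) = 0) :
    ∀ᵐ x ∂μ, l2 M x < l1 M x →
      Tendsto (fun n : ℕ => Real.log ‖M' n x (es x)‖ / n) atTop (𝓝 (-l2 M x)) := by
  have hS := measurePreserving_inv hT h.measS h.ST
  have he0 : ∀ x, es x ≠ 0 := fun x h0 => by simpa [h0] using he x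
  set ψ : X → ℝ := fun x => Real.log ‖M 1 x (es x)‖ with hψ
  have hψm : Measurable ψ := by
    have hc : Continuous fun p : (V →L[ℝ] V) × V => p.1 p.2 := by fun_prop
    exact (hc.measurable.comp ((h.measM 1).prodMk hm)).norm.log
  have hK : 0 < K := zero_lt_one.trans_le h.one_le
  have hψb : ∀ x, |ψ x| ≤ Real.log K := by
    intro x
    have h0 := h.pos_ose 1 x (he0 x)
    have h1 : ‖M 1 x (es x)‖ ≤ K := by
      have := (M 1 x).le_opNorm (es x)
      rw [he, mul_one] at this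
      exact this.trans (h.le x)
    have h2 : 1 ≤ K * ‖M 1 x (es x)‖ := by
      have h3 : M' 1 (T^[1] x) (M 1 x (es x)) = es x :=
        congrArg (fun A : V →L[ℝ] V => A (es x)) (h.inv 1 x)
      have h4 := (M' 1 (T^[1] x)).le_opNorm (M 1 x (es x))
      rw [h3, he] at h4
      exact h4.trans (mul_le_mul_of_nonneg_right (h.le' _) h0.le)
    have h5 := Real.log_nonneg h2
    rw [Real.log_mul hK.ne' h0.ne'] at h5
    have h6 := Real.log_le_log h0 h1
    rw [abs_le]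
    constructor <;> simp only [hψ] <;> linarith
  obtain ⟨G, -, hGi, hGa, hGp⟩ := exists_inv_full hT h.measS h.ST h.TS H2
  set G' : Set X := {x | x ∈ G ∧ l2 M x < l1 M x} with hG'
  have hTi : ∀ x, T x ∈ G' ↔ x ∈ G' := fun x => by
    simp only [hG', mem_ofPred_eq, hGi, h.l1_comp, h.l2_comp]
  have hs : ∀ y ∈ G', ∃ s : ℝ, s ≠ 0 ∧ M 1 y (es y) = s • es (T y) ∧ Real.log |s| = ψ y := by
    intro y hy
    obtain ⟨s, h1, h2⟩ := parallel_of_om (he (T y)) (hGp y hy.1 hy.2)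
    exact ⟨s, abs_pos.1 (h1 ▸ h.pos_ose 1 y (he0 y)), h2, by rw [h1]⟩
  have hs' : ∀ y ∈ G', ∃ s : ℝ, s ≠ 0 ∧ M' 1 y (es y) = s • es (S y) ∧
      Real.log |s| = -ψ (S y) := by
    intro y hy
    obtain ⟨s, h1, h2, h3⟩ := hs (S y) ((hTi _).1 (by rwa [h.TS]))
    refine ⟨s⁻¹, inv_ne_zero h1, ?_, by rw [abs_inv, Real.log_inv, h3]⟩
    have h4 : M' 1 (T^[1] (S y)) (M 1 (S y) (es (S y))) = es (S y) :=
      congrArg (fun A : V →L[ℝ] V => A (es (S y))) (h.inv 1 (S y))
    rw [h2, Function.iterate_one, h.TS, map_smul] at h4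
    rw [← h4, smul_smul, inv_mul_cancel₀ h1, one_smul]
  filter_upwards [H1, hGa, ae_tendsto_avg hT hψm hψb,
    hS.quasiMeasurePreserving.ae (ae_tendsto_avg hS hψm hψb),
    avg_ae_eq_symm hT h.measS h.ST h.TS hψm hψb] with x h1 h2 h3 h4 h5 hlt
  have hx : x ∈ G' := ⟨h2, hlt⟩
  have e1 : avg T ψ x = l2 M x := by
    refine tendsto_nhds_unique h3 ((h1 hlt).congr fun n => ?_)
    rw [sum_ose h he (fun y hy => (hTi y).2 hy) hs hx n, birkhoffAverage, smul_eq_mul,
      div_eq_inv_mul]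
  rw [avg_comp hψb, ← h5, e1] at h4
  refine h4.neg.congr fun n => ?_
  rw [sum_ose h.symm he (fun y hy => (hTi _).1 (by rwa [h.TS])) hs' hx n, birkhoffAverage,
    smul_eq_mul, div_eq_inv_mul, ← mul_neg]
  congr 1
  simp only [birkhoffSum, Finset.sum_neg_distrib]
  congr 1
  refine Finset.sum_congr rfl fun k _ => ?_
  rw [← Function.iterate_succ_apply, Function.iterate_succ_apply']

theorem oseledets (h : Cocycle T S M M' K) (μ : Measure X) [IsFiniteMeasure μ]
    (hT : MeasurePreserving T μ μ) : ∃ eu es : X → V, Measurable eu ∧ Measurable es ∧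
      (∀ x, ‖eu x‖ = 1 ∧ ‖es x‖ = 1) ∧ ∀ᵐ x ∂μ, OReg T M M' eu es x := by
  have hS := measurePreserving_inv hT h.measS h.ST
  obtain ⟨es, ms, ns, H⟩ := ose_half h μ hT
  obtain ⟨eu, mu, nu, H'⟩ := ose_half h.symm μ hS
  refine ⟨eu, es, mu, ms, fun x => ⟨nu x, ns x⟩, ?_⟩
  have E := exps_ose h μ hT
  have Is := inv_half_ose h μ hT (H.mono fun x hx => hx.2.2.2)
  have Iu := hT.quasiMeasurePreserving.ae
    (inv_half_ose h.symm μ hS (H'.mono fun x hx => hx.2.2.2))
  have B := back_ose h μ hT ms ns (H.mono fun x hx hlt => (hx.2.2.2 hlt).1) Is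
  filter_upwards [H, H', E, hT.quasiMeasurePreserving.ae E, Is, Iu, B]
    with x h1 h2 h3 h3' h4 h5 h6
  rw [h3.1, h3.2] at h2
  rw [h3'.1, h3'.2, h.l1_comp, h.l2_comp, h.ST] at h5
  refine ⟨h1.1, h1.2.1, h2.1, h2.2.1, h1.2.2.1, h3.1, h3.2, fun hlt h0 => ?_, fun hlt => ?_, h4,
    fun hlt => (h1.2.2.2 hlt).1, fun hlt => (h1.2.2.2 hlt).2,
    fun hlt => (h2.2.2.2 (by linarith)).1, fun hlt => (h2.2.2.2 (by linarith)).2⟩
  · obtain ⟨s, h7, h8⟩ := parallel_of_om (ns x) h0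
    have h9 := (h2.2.2.2 (by linarith)).1
    have h10 := rate_smul_ose h.symm (s := s) (fun h0 => by simpa [h0] using ns x)
      (abs_pos.1 (by rw [h7, nu]; exact one_pos)) (h6 hlt)
    rw [← h8] at h10
    have := tendsto_nhds_unique h9 h10
    linarith
  · have h7 := om_map (M 1 x) (M' 1 (T x) (eu (T x))) (eu x)
    have h8 : M 1 x (M' 1 (T x) (eu (T x))) = eu (T x) :=
      congrArg (fun A : V →L[ℝ] V => A (eu (T x))) (h.inv2_ose 1 x)
    rw [h5 (by linarith), mul_zero, h8] at h7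
    rw [om_swap_ose, h7, neg_zero]

/-- A vector contracted in the past is expanded in the future. -/
theorem ostar (h : Cocycle T S M M' K) (μ : Measure X) [IsFiniteMeasure μ]
    (hT : MeasurePreserving T μ μ) : ∀ᵐ x ∂μ, ∀ (v : V) (c C : ℝ), v ≠ 0 →
      (∃ᶠ n : ℕ in atTop, ‖M' n x v‖ ≤ C * Real.exp (-c * n)) →
      c ≤ l1 M x ∧ (∀ a < c, ∀ᶠ n : ℕ in atTop, Real.exp (a * n) ≤ ‖M n x v‖) ∧
        (l2 M x < c → ∀ a < l1 M x, ∀ᶠ n : ℕ in atTop, Real.exp (a * n) ≤ ‖M n x v‖) := by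
  obtain ⟨eu, es, -, -, hn, H⟩ := oseledets h μ hT
  filter_upwards [H] with x R v c C hv hf
  have p1 : ∀ n, 0 < ‖M n x v‖ := fun n => h.pos_ose n x hv
  have p2 : ∀ n, 0 < ‖M' n x v‖ := fun n => h.symm.pos_ose n x hv
  have hv' : 0 < ‖v‖ := norm_pos_iff.2 hv
  have fin : Tendsto (fun n : ℕ => Real.log ‖M n x v‖ / n) atTop (𝓝 (l1 M x)) → c ≤ l1 M x →
      c ≤ l1 M x ∧ (∀ a < c, ∀ᶠ n : ℕ in atTop, Real.exp (a * n) ≤ ‖M n x v‖) ∧
        (l2 M x < c → ∀ a < l1 M x, ∀ᶠ n : ℕ in atTop, Real.exp (a * n) ≤ ‖M n x v‖) :=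
    fun h1 h2 => ⟨h2, fun a ha => ev_exp_ose p1 h1 (ha.trans_le h2),
      fun _ a ha => ev_exp_ose p1 h1 ha⟩
  rcases R.le.eq_or_lt with heq | hlt
  · have h1 := rate_all_ose h hv R.t1 (heq ▸ R.t2)
    have h2 := rate_all_ose h.symm hv (heq ▸ R.t1') R.t2'
    have h3 := rate_le_ose p2 h2 hf
    exact fin h1 (by linarith)
  by_cases hu : om v (eu x) = 0
  · obtain ⟨s, h1, h2⟩ := parallel_of_om (hn x).1 hu
    have hs : s ≠ 0 := abs_pos.1 (h1 ▸ hv')
    have h3 := rate_smul_ose h.symm (fun h0 => by simpa [h0] using (hn x).1) hs (R.bu hlt)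
    rw [← h2] at h3
    have h4 := rate_le_ose p2 h3 hf
    refine fin (R.fo hlt v ?_) (by linarith)
    rw [h2, om_smul_ose]
    exact mul_ne_zero hs (R.ne hlt)
  · have h4 := rate_le_ose p2 (R.bo hlt v hu) hf
    by_cases hs : om v (es x) = 0
    · obtain ⟨s, h1, h2⟩ := parallel_of_om (hn x).2 hs
      have h3 := rate_smul_ose h (fun h0 => by simpa [h0] using (hn x).2)
        (abs_pos.1 (h1 ▸ hv')) (R.fs hlt)
      rw [← h2] at h3
      exact ⟨by linarith, fun a ha => ev_exp_ose p1 h3 (by linarith),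
        fun h5 => absurd h5 (by linarith)⟩
    · exact fin (R.fo hlt v hs) (by linarith)

end Pool.Agent.Lib.MP_e7c912_an
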