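import Pool.Agent.Lib.MP_e7c912_an.H60Calc
import Pool.Agent.Lib.MP_e7c912_an.H60Ent
import Pool.Agent.Lib.MP_e7c912_an.H60Ose

/-! The Ruelle inequality. -/

namespace Pool.Agent.Lib.MP_e7c912_an

open MeasureTheory Filter Metric Set Topology
open scoped ENNReal

theorem round_rue {a dl s : ℝ} (ha : 1 ≤ a) (hdl : 0 < dl) (hs : |s| ≤ 2 * dl) :
    ∃ i ∈ Finset.Icc (-(⌈2 * a⌉₊ : ℤ)) (⌈2 * a⌉₊ : ℤ), |s - i * (dl / a)| * a ≤ dl := by
  have ha0 : 0 < a := by linarith
  have h1 := Int.floor_le (s * a / dl)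
  have h2 := Int.lt_floor_add_one (s * a / dl)
  have h3 : (2 * a : ℝ) ≤ (⌈2 * a⌉₊ : ℝ) := Nat.le_ceil _
  obtain ⟨hs1, hs2⟩ := abs_le.1 hs
  have h4 : s * a / dl ≤ 2 * a := by
    rw [div_le_iff₀ hdl]; nlinarith
  have h5 : -(2 * a) ≤ s * a / dl := by
    rw [le_div_iff₀ hdl]; nlinarith
  refine ⟨⌊s * a / dl⌋, ?_, ?_⟩
  · rw [Finset.mem_Icc]
    constructor
    · rw [Int.le_floor]; push_cast; linarith
    · have : ((⌊s * a / dl⌋ : ℤ) : ℝ) ≤ ((⌈2 * a⌉₊ : ℤ) : ℝ) := by push_cast; linarith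
      exact_mod_cast this
  · have e1 : |s - ⌊s * a / dl⌋ * (dl / a)| * a = |s * a / dl - ⌊s * a / dl⌋| * dl := by
      rw [← abs_of_pos ha0, ← abs_of_pos hdl, ← abs_mul, ← abs_mul, abs_of_pos ha0, abs_of_pos hdl]
      congr 1
      field_simp
    rw [e1]
    have : |s * a / dl - ⌊s * a / dl⌋| ≤ 1 := by
      rw [abs_le]; constructor <;> linarith
    nlinarith

theorem floor_near_rue {dl c w : ℝ} {m : ℕ} (hdl : 0 < dl) (hw : |w| ≤ m * dl) :
    ⌊(c + w) / dl⌋ ∈ Finset.Icc (⌊c / dl⌋ - m) (⌊c / dl⌋ + m) := by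
  obtain ⟨h1, h2⟩ := abs_le.1 hw
  have h3 : w / dl ≤ m := by rw [div_le_iff₀ hdl]; exact h2
  have h4 : -(m : ℝ) ≤ w / dl := by rw [le_div_iff₀ hdl]; linarith
  rw [Finset.mem_Icc, add_div]
  constructor
  · rw [← Int.floor_sub_natCast]
    exact Int.floor_le_floor (by linarith)
  · rw [← Int.floor_add_natCast]
    exact Int.floor_le_floor (by linarith)

/-- The labels met by a thin neighbourhood of a parallelogram. -/
theorem count_rue {N : ℕ} {K a a' dl : ℝ} (hK : 0 ≤ K) (ha : 1 ≤ a) (ha' : 1 ≤ a') (hdl : 0 < dl)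
    (c p q : Fin N → ℝ) (hp : ‖p‖ ≤ K * a) (hq : ‖q‖ ≤ K * a') :
    ∃ Z : Finset (Fin N → ℤ), (Z.card : ℝ) ≤ 49 * (2 * ⌈2 * K + 1⌉₊ + 1) ^ N * a * a' ∧
      ∀ (s t : ℝ) (err : Fin N → ℝ), |s| ≤ 2 * dl → |t| ≤ 2 * dl → ‖err‖ ≤ dl →
        (fun k => ⌊(c + s • p + t • q + err) k / dl⌋) ∈ Z := by
  classical
  set m : ℕ := ⌈2 * K + 1⌉₊ with hm
  set I : Finset ℤ := Finset.Icc (-(⌈2 * a⌉₊ : ℤ)) (⌈2 * a⌉₊ : ℤ) with hI
  set J : Finset ℤ := Finset.Icc (-(⌈2 * a'⌉₊ : ℤ)) (⌈2 * a'⌉₊ : ℤ) with hJ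
  let c' : ℤ × ℤ → Fin N → ℝ := fun ij =>
    c + ((ij.1 : ℝ) * (dl / a)) • p + ((ij.2 : ℝ) * (dl / a')) • q
  let W : ℤ × ℤ → Finset (Fin N → ℤ) := fun ij =>
    Fintype.piFinset fun k => Finset.Icc (⌊c' ij k / dl⌋ - m) (⌊c' ij k / dl⌋ + m)
  have hcard : ∀ b : ℝ, 1 ≤ b →
      ((Finset.Icc (-(⌈2 * b⌉₊ : ℤ)) (⌈2 * b⌉₊ : ℤ)).card : ℝ) ≤ 7 * b := by
    intro b hb
    have h1 : (Finset.Icc (-(⌈2 * b⌉₊ : ℤ)) (⌈2 * b⌉₊ : ℤ)).card = 2 * ⌈2 * b⌉₊ + 1 := by
      rw [Int.card_Icc]; omega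
    have h2 : (⌈2 * b⌉₊ : ℝ) < 2 * b + 1 := Nat.ceil_lt_add_one (by linarith)
    rw [h1]; push_cast; linarith
  have hW : ∀ ij, (W ij).card = (2 * m + 1) ^ N := by
    intro ij
    have : ∀ k, (Finset.Icc (⌊c' ij k / dl⌋ - m) (⌊c' ij k / dl⌋ + m)).card = 2 * m + 1 := by
      intro k; rw [Int.card_Icc]; omega
    simp only [W, Fintype.card_piFinset, this, Finset.prod_const, Finset.card_univ,
      Fintype.card_fin]
  refine ⟨(I ×ˢ J).biUnion W, ?_, ?_⟩
  · have h1 : ((I ×ˢ J).biUnion W).card ≤ (I ×ˢ J).card * (2 * m + 1) ^ N :=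
      Finset.card_biUnion_le_card_mul _ _ _ fun ij _ => (hW ij).le
    have h2 : ((((I ×ˢ J).biUnion W).card : ℕ) : ℝ) ≤ (I.card * J.card) * (2 * m + 1) ^ N := by
      rw [Finset.card_product] at h1
      exact_mod_cast h1
    have h3 := hcard a ha
    have h4 := hcard a' ha'
    have h5 : (I.card * J.card : ℝ) ≤ (7 * a) * (7 * a') :=
      mul_le_mul h3 h4 (by positivity) (by linarith)
    have h6 : (0 : ℝ) ≤ (2 * m + 1) ^ N := by positivity
    calc _ ≤ _ := h2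
      _ ≤ (7 * a) * (7 * a') * (2 * m + 1) ^ N := mul_le_mul_of_nonneg_right h5 h6
      _ = _ := by ring
  · intro s t err hs ht he
    obtain ⟨i, hi, hi'⟩ := round_rue ha hdl hs
    obtain ⟨j, hj, hj'⟩ := round_rue ha' hdl ht
    refine Finset.mem_biUnion.2 ⟨(i, j), Finset.mem_product.2 ⟨hi, hj⟩, ?_⟩
    refine Fintype.mem_piFinset.2 fun k => ?_
    have e1 : (c + s • p + t • q + err) k = c' (i, j) k +
        ((s - i * (dl / a)) * p k + (t - j * (dl / a')) * q k + err k) := by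
      simp only [c', Pi.add_apply, Pi.smul_apply, smul_eq_mul]; ring
    rw [e1]
    refine floor_near_rue hdl ?_
    have b1 : |p k| ≤ K * a := (norm_le_pi_norm p k).trans hp
    have b2 : |q k| ≤ K * a' := (norm_le_pi_norm q k).trans hq
    have b3 : |err k| ≤ dl := (norm_le_pi_norm err k).trans he
    have b4 : |(s - i * (dl / a)) * p k| ≤ K * dl := by
      rw [abs_mul]
      calc _ ≤ |s - i * (dl / a)| * (K * a) := mul_le_mul_of_nonneg_left b1 (abs_nonneg _)
        _ = K * (|s - i * (dl / a)| * a) := by ring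
        _ ≤ K * dl := mul_le_mul_of_nonneg_left hi' hK
    have b5 : |(t - j * (dl / a')) * q k| ≤ K * dl := by
      rw [abs_mul]
      calc _ ≤ |t - j * (dl / a')| * (K * a') := mul_le_mul_of_nonneg_left b2 (abs_nonneg _)
        _ = K * (|t - j * (dl / a')| * a') := by ring
        _ ≤ K * dl := mul_le_mul_of_nonneg_left hj' hK
    have b6 : (2 * K + 1 : ℝ) ≤ m := Nat.le_ceil _
    calc _ ≤ |(s - i * (dl / a)) * p k| + |(t - j * (dl / a')) * q k| + |err k| :=
          (abs_add_le _ _).trans (add_le_add (abs_add_le _ _) le_rfl)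
      _ ≤ (2 * K + 1) * dl := by linarith
      _ ≤ m * dl := mul_le_mul_of_nonneg_right b6 hdl.le

theorem log_max_rue {u : ℝ} (hu : 0 ≤ u) : Real.log (max 1 u) = max (Real.log u) 0 := by
  rcases le_total u 1 with h | h
  · rw [max_eq_left h, Real.log_one, max_eq_right (Real.log_nonpos hu h)]
  · rw [max_eq_right h, max_eq_left (Real.log_nonneg h)]

variable {X : Type} [MetricSpace X] [CompactSpace X] [MeasurableSpace X] [BorelSpace X]
  {A : Atlas X}

omit [CompactSpace X] [BorelSpace X] in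
/-- First order expansion in the chart selected at `x`. -/
theorem taylor_rue {g : X → X} (hg : A.Sm g) {K2 dl : ℝ} (hK2 : 0 ≤ K2) (hR : A.Reg 2 K2 g)
    (hdl : dl < A.ρ) (hd1 : K2 * dl ≤ 1) {x y : X} (hxy : dist y x ≤ dl) :
    ‖A.e (g y) - A.e (g x) - fderiv ℝ (A.rep g (A.idx x)) (A.φ (A.idx x) x)
      (A.φ (A.idx x) y - A.φ (A.idx x) x)‖ ≤ dl := by
  set i := A.idx x
  have hx : x ∈ A.D i := A.mem_D x
  have hxx : dist x x < A.ρ := by rw [dist_self]; exact A.ρ_pos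
  have hyx : dist y x < A.ρ := hxy.trans_lt hdl
  have hdl0 : 0 ≤ dl := dist_nonneg.trans hxy
  have hw : A.φ i x ∈ A.U i := Atlas.φ_mem hx hxx
  have hw' : A.φ i y ∈ A.U i := Atlas.φ_mem hx hyx
  have hv : ‖A.φ i y - A.φ i x‖ ≤ dl := (A.norm_φ_sub_le i y x).trans hxy
  have hc : Convex ℝ (A.U i ∩ closedBall (A.φ i x) dl) :=
    (A.U_convex i).inter (convex_closedBall _ _)
  have h := hc.norm_image_sub_le_of_norm_fderiv_le' (𝕜 := ℝ) (f := A.rep g i)
    (φ := fderiv ℝ (A.rep g i) (A.φ i x)) (C := 1) (x := A.φ i x) (y := A.φ i y)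
    (fun w hw => hg.differentiableAt hw.1)
    (fun w hw1 => (hR.fderiv_lip hw1.1 hw).trans
      ((mul_le_mul_of_nonneg_left (mem_closedBall_iff_norm.1 hw1.2) hK2).trans hd1))
    ⟨hw, mem_closedBall_self hdl0⟩ ⟨hw', mem_closedBall_iff_norm.2 hv⟩
  have e1 : A.rep g i (A.φ i y) = A.e (g y) := by
    simp only [Atlas.rep, Function.comp_apply, Atlas.ψ_φ hx hyx]
  have e2 : A.rep g i (A.φ i x) = A.e (g x) := by
    simp only [Atlas.rep, Function.comp_apply, Atlas.ψ_φ hx hxx]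
  rw [e1, e2, one_mul] at h
  exact h.trans hv

omit [CompactSpace X] [BorelSpace X] in
/-- The labels of the images of the points of a small ball. -/
theorem labels_rue {g : X → X} (hg : A.Sm g) {K2 dl : ℝ} (hK2 : 0 ≤ K2) (hR : A.Reg 2 K2 g)
    (hdl0 : 0 < dl) (hdl : dl < A.ρ) (hd1 : K2 * dl ≤ 1) (x : X) :
    ∃ Z : Finset (Fin A.N → ℤ),
      (Z.card : ℝ) ≤ 98 * (2 * ⌈2 * A.K + 1⌉₊ + 1) ^ A.N * max 1 ‖A.Dm g x‖ *
        max 1 (|det2 (A.Dm g x)| / ‖A.Dm g x‖) ∧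
      ∀ y, dist y x ≤ dl → (fun k => ⌊A.e (g y) k / dl⌋) ∈ Z := by
  set D := A.Dm g x with hD
  set B := fderiv ℝ (A.rep g (A.idx x)) (A.φ (A.idx x) x) with hB
  obtain ⟨e, he, he1, -⟩ := exists_small D
  set f : V := (-e.2, e.1) with hf
  have hK : 0 ≤ A.K := zero_le_one.trans A.one_le_K
  have hfn : ‖f‖ = 1 := by
    rw [← he, hf, Prod.norm_def, Prod.norm_def, norm_neg, max_comm]
  have hp : ‖B e‖ ≤ A.K * max 1 ‖D e‖ :=
    (hg.norm_fderiv_apply_le x e).trans (mul_le_mul_of_nonneg_left (le_max_right _ _) hK)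
  have hq : ‖B f‖ ≤ A.K * max 1 ‖D‖ := by
    refine (hg.norm_fderiv_apply_le x f).trans (mul_le_mul_of_nonneg_left ?_ hK)
    calc ‖D f‖ ≤ ‖D‖ * ‖f‖ := D.le_opNorm f
      _ = ‖D‖ := by rw [hfn, mul_one]
      _ ≤ _ := le_max_right _ _
  obtain ⟨Z, hZ, hZ'⟩ := count_rue hK (le_max_left 1 ‖D e‖) (le_max_left 1 ‖D‖) hdl0
    (A.e (g x)) (B e) (B f) hp hq
  have ha : max 1 ‖D e‖ ≤ 2 * max 1 (|det2 D| / ‖D‖) := by
    have h1 : (1 : ℝ) ≤ max 1 (|det2 D| / ‖D‖) := le_max_left _ _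
    refine max_le (by linarith) ?_
    rcases (norm_nonneg D).eq_or_lt with h0 | h0
    · have : ‖D e‖ ≤ ‖D‖ * ‖e‖ := D.le_opNorm e
      rw [← h0, zero_mul] at this
      linarith
    · have h2 : ‖D e‖ ≤ 2 * (|det2 D| / ‖D‖) := by
        rw [← mul_div_assoc, le_div_iff₀ h0]; exact he1
      have h3 : |det2 D| / ‖D‖ ≤ max 1 (|det2 D| / ‖D‖) := le_max_right _ _
      linarith
  refine ⟨Z, hZ.trans ?_, fun y hy => ?_⟩
  · have h6 : (0 : ℝ) ≤ 49 * (2 * ⌈2 * A.K + 1⌉₊ + 1) ^ A.N := by positivity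
    have h7 : (0 : ℝ) ≤ max 1 ‖D‖ := zero_le_one.trans (le_max_left _ _)
    calc _ ≤ 49 * (2 * (⌈2 * A.K + 1⌉₊ : ℝ) + 1) ^ A.N * (2 * max 1 (|det2 D| / ‖D‖)) *
          max 1 ‖D‖ :=
          mul_le_mul_of_nonneg_right (mul_le_mul_of_nonneg_left ha h6) h7
      _ = _ := by ring
  · have hv : ‖A.φ (A.idx x) y - A.φ (A.idx x) x‖ ≤ dl := (A.norm_φ_sub_le _ y x).trans hy
    have ht := taylor_rue hg hK2 hR hdl hd1 hy
    rw [← hB] at ht
    set v := A.φ (A.idx x) y - A.φ (A.idx x) x with hvdef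
    obtain ⟨s, t, hs, ht', hst⟩ := exists_decomp he v
    have ht2 : |t| ≤ 2 * dl := by
      have := abs_om_le e v
      rw [he] at this
      linarith
    have := hZ' s t (A.e (g y) - A.e (g x) - B v) (by linarith) ht2 ht
    have e1 : A.e (g x) + s • B e + t • B f + (A.e (g y) - A.e (g x) - B v) = A.e (g y) := by
      have : B v = s • B e + t • B f := by
        conv_lhs => rw [hst]
        rw [map_add, map_smul, map_smul]
      rw [this]; abel
    rw [e1] at this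
    exact this

/-- The one step bound. -/
theorem step_rue (A : Atlas X) : ∃ C : ℝ, ∀ g : X → X, A.Sm g → ∀ (μ : Measure X)
    [IsProbabilityMeasure μ], MeasurePreserving g μ μ →
    Integrable (fun x => C + max (Real.log ‖A.Dm g x‖) 0 +
      max (Real.log (|det2 (A.Dm g x)| / ‖A.Dm g x‖)) 0) μ →
    ksEntropy μ g ≤ ENNReal.ofReal (∫ x, (C + max (Real.log ‖A.Dm g x‖) 0 +
      max (Real.log (|det2 (A.Dm g x)| / ‖A.Dm g x‖)) 0) ∂μ) := by
  classical
  set C0 : ℝ := 98 * (2 * ⌈2 * A.K + 1⌉₊ + 1) ^ A.N with hC0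
  have hC0pos : 0 < C0 := by positivity
  refine ⟨Real.log C0, fun g hg μ _ hμ hint => ks_le hμ fun γ hγ => ?_⟩
  obtain ⟨K1, hK1⟩ := hg.2 2
  have hR : A.Reg 2 (max K1 1) g := hK1.mono le_rfl (le_max_left _ _)
  set K2 := max K1 1 with hK2
  have hK2pos : 0 < K2 := zero_lt_one.trans_le (le_max_right _ _)
  set dl : ℝ := min γ (min (A.ρ / 2) (1 / K2)) with hdl
  have hρ := A.ρ_pos
  have hdl0 : 0 < dl := lt_min hγ (lt_min (by linarith) (by positivity))
  have hdlγ : dl ≤ γ := min_le_left _ _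
  have hdlρ : dl < A.ρ := by
    have : dl ≤ A.ρ / 2 := (min_le_right _ _).trans (min_le_left _ _)
    linarith
  have hd1 : K2 * dl ≤ 1 := by
    have : dl ≤ 1 / K2 := (min_le_right _ _).trans (min_le_right _ _)
    rw [le_div_iff₀ hK2pos] at this
    linarith
  let lab : X → Fin A.N → ℤ := fun x k => ⌊A.e x k / dl⌋
  have hlab : Measurable lab := measurable_pi_lambda _ fun k =>
    ((((continuous_apply k).comp A.iso.continuous).div_const dl).measurable).floor
  have hclose : ∀ x y, lab x = lab y → dist x y ≤ dl := by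
    intro x y h
    rw [A.dist_eq, pi_norm_le_iff_of_nonneg hdl0.le]
    intro k
    have h1 : |A.e x k / dl - A.e y k / dl| < 1 :=
      Int.abs_sub_lt_one_of_floor_eq_floor (congrFun h k)
    rw [← sub_div, abs_div, abs_of_pos hdl0, div_lt_one hdl0] at h1
    exact h1.le
  obtain ⟨R, hRb⟩ := (isCompact_range A.iso.continuous).isBounded.exists_norm_le
  let S : Finset (Fin A.N → ℤ) :=
    Fintype.piFinset fun _ => Finset.Icc ⌊-R / dl⌋ ⌊R / dl⌋
  have hS : ∀ x, lab x ∈ S := by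
    intro x
    refine Fintype.mem_piFinset.2 fun k => ?_
    have h1 : |A.e x k| ≤ R := (norm_le_pi_norm (A.e x) k).trans (hRb _ (mem_range_self x))
    obtain ⟨h2, h3⟩ := abs_le.1 h1
    exact Finset.mem_Icc.2 ⟨Int.floor_le_floor (div_le_div_of_nonneg_right h2 hdl0.le),
      Int.floor_le_floor (div_le_div_of_nonneg_right h3 hdl0.le)⟩
  refine ⟨S, inferInstance, fun x => ⟨lab x, hS x⟩, _, fun b => ?_, fun x y h => ?_, hint,
    fun x => ?_, le_rfl⟩
  · have : (fun x => (⟨lab x, hS x⟩ : S)) ⁻¹' {b} = lab ⁻¹' {b.1} := by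
      ext x; simp [Subtype.ext_iff]
    rw [this]
    exact hlab (measurableSet_singleton _)
  · exact (hclose x y (congrArg Subtype.val h)).trans hdlγ
  · obtain ⟨Z, hZ, hZ'⟩ := labels_rue hg hK2pos.le hR hdl0 hdlρ hd1 x
    have h1 : Set.ncard {b : S | ∃ y, (⟨lab y, hS y⟩ : S) = ⟨lab x, hS x⟩ ∧
        (⟨lab (g y), hS (g y)⟩ : S) = b} ≤ Z.card := by
      rw [← Set.ncard_coe_finset]
      refine Set.ncard_le_ncard_of_injOn Subtype.val ?_ Subtype.val_injective.injOn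
        Z.finite_toSet
      rintro b ⟨y, hy, rfl⟩
      exact hZ' y (hclose y x (congrArg Subtype.val hy))
    have h2 : 0 < Set.ncard {b : S | ∃ y, (⟨lab y, hS y⟩ : S) = ⟨lab x, hS x⟩ ∧
        (⟨lab (g y), hS (g y)⟩ : S) = b} :=
      (Set.ncard_pos (Set.toFinite _)).2 ⟨_, x, rfl, rfl⟩
    have p1 : (0 : ℝ) < max 1 ‖A.Dm g x‖ := zero_lt_one.trans_le (le_max_left _ _)
    have p2 : (0 : ℝ) < max 1 (|det2 (A.Dm g x)| / ‖A.Dm g x‖) :=
      zero_lt_one.trans_le (le_max_left _ _)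
    refine (Real.log_le_log (by exact_mod_cast h2)
      ((Nat.cast_le.2 h1).trans hZ)).trans (le_of_eq ?_)
    rw [Real.log_mul (mul_pos hC0pos p1).ne' p2.ne', Real.log_mul hC0pos.ne' p1.ne',
      log_max_rue (norm_nonneg _), log_max_rue (by positivity)]

theorem ruelle (F : Dif A) {μ : Measure X} [IsProbabilityMeasure μ]
    (hμ : MeasurePreserving F.f μ μ) :
    ksEntropy μ F.f ≤
      ENNReal.ofReal (∫ x, (max (l1 (A.coc F.f) x) 0 + max (l2 (A.coc F.f) x) 0) ∂μ) := by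
  obtain ⟨C, hC⟩ := step_rue A
  obtain ⟨K, hK⟩ := F.cocycle
  obtain ⟨eu, es, -, -, -, hreg⟩ := oseledets hK μ hμ
  set M := A.coc F.f with hM
  let nn : ℕ → X → ℝ := fun n x => C + max (Real.log ‖M n x‖) 0 +
    max (Real.log (|det2 (M n x)| / ‖M n x‖)) 0
  have hmeas : ∀ n, Measurable (nn n) := fun n =>
    (measurable_const.add ((hK.measM n).norm.log.max measurable_const)).add
      ((((measurable_det2.comp (hK.measM n)).abs.div (hK.measM n).norm).log).max measurable_const)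
  set L1 := Real.log K with hL1
  set L2 := Real.log (2 * K ^ 2) with hL2
  have hbd : ∀ n x, |nn n x| ≤ |C| + (2 * L1 + L2) * n := by
    intro n x
    have h1 := hK.abs_log_le n x
    have h2 := hK.abs_log_det_le n x
    have h3 := hK.det2_ne n x
    have h4 : ‖M n x‖ ≠ 0 := by
      intro h
      apply h3
      rw [norm_eq_zero.1 h]
      simp [det2, om]
    have h5 : Real.log (|det2 (M n x)| / ‖M n x‖) =
        Real.log |det2 (M n x)| - Real.log ‖M n x‖ := Real.log_div (abs_ne_zero.2 h3) h4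
    have h6 : ∀ u : ℝ, |max u 0| ≤ |u| := fun u => by
      rw [abs_of_nonneg (le_max_right _ _)]
      exact max_le (le_abs_self u) (abs_nonneg u)
    have h7 := h6 (Real.log ‖M n x‖)
    have h8 := h6 (Real.log (|det2 (M n x)| / ‖M n x‖))
    have h9 : |Real.log (|det2 (M n x)| / ‖M n x‖)| ≤
        |Real.log (abs (det2 (M n x)))| + |Real.log ‖M n x‖| := by
      rw [h5]; exact abs_sub _ _
    calc |nn n x| ≤ |C| + |max (Real.log ‖M n x‖) 0| +
          |max (Real.log (|det2 (M n x)| / ‖M n x‖)) 0| :=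
          (abs_add_le _ _).trans (add_le_add (abs_add_le _ _) le_rfl)
      _ ≤ _ := by linarith
  have hint : ∀ n, Integrable (nn n) μ := fun n =>
    Integrable.of_bound (hmeas n).aestronglyMeasurable _ (Eventually.of_forall (hbd n))
  have hle : ∀ n : ℕ, 1 ≤ n → ksEntropy μ F.f ≤ ENNReal.ofReal (∫ x, nn n x / n ∂μ) := by
    intro n hn
    have hn0 : (0 : ℝ) < n := by exact_mod_cast hn
    have h1 := (ks_iter hμ n).trans (hC F.f^[n] (F.smf.iter n) μ (hμ.iterate n) (hint n))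
    rw [integral_div, ENNReal.ofReal_div_of_pos hn0, ENNReal.ofReal_natCast,
      ENNReal.le_div_iff_mul_le (Or.inl (by exact_mod_cast (by omega : n ≠ 0)))
        (Or.inl (ENNReal.natCast_ne_top n)), mul_comm]
    exact h1
  have hlim : Tendsto (fun n : ℕ => ∫ x, nn n x / n ∂μ) atTop
      (𝓝 (∫ x, (max (l1 M x) 0 + max (l2 M x) 0) ∂μ)) := by
    refine tendsto_integral_of_dominated_convergence (fun _ => |C| + |2 * L1 + L2|)
      (fun n => ((hmeas n).div_const _).aestronglyMeasurable) (integrable_const _)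
      (fun n => Eventually.of_forall fun x => ?_) ?_
    · rcases Nat.eq_zero_or_pos n with rfl | hn
      · simp only [Nat.cast_zero, div_zero, norm_zero]; positivity
      · have hn1 : (1 : ℝ) ≤ n := by exact_mod_cast hn
        have hn0 : (0 : ℝ) < n := by linarith
        rw [Real.norm_eq_abs, abs_div, abs_of_pos hn0, div_le_iff₀ hn0]
        have h1 := hbd n x
        have h2 : (2 * L1 + L2) * n ≤ |2 * L1 + L2| * n :=
          mul_le_mul_of_nonneg_right (le_abs_self _) hn0.le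
        have h3 : |C| ≤ |C| * n := le_mul_of_one_le_right (abs_nonneg _) hn1
        linarith
    · filter_upwards [hreg] with x hx
      have h1 := (((tendsto_const_div_atTop_nhds_zero_nat C).add
        (hx.t1.max (tendsto_const_nhds (x := (0 : ℝ))))).add
        (hx.t2.max (tendsto_const_nhds (x := (0 : ℝ)))))
      rw [zero_add] at h1
      refine h1.congr fun n => ?_
      have h2 : ∀ u : ℝ, max (u / n) 0 = max u 0 / n := fun u => by
        rw [← max_div_div_right (Nat.cast_nonneg n), zero_div]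
      simp only [nn, h2, add_div]
  refine ge_of_tendsto (ENNReal.tendsto_ofReal hlim) ?_
  filter_upwards [eventually_ge_atTop 1] with n hn using hle n hn

omit [CompactSpace X] in
theorem measurable_g_rue (F : Dif A) : Measurable F.g := F.smg.1.measurable

theorem ruelle_symm_rue (F : Dif A) {μ : Measure X} [IsProbabilityMeasure μ]
    (hμ : MeasurePreserving F.f μ μ) :
    ksEntropy μ F.f ≤
      ENNReal.ofReal (∫ x, (max (-l2 (A.coc F.f) x) 0 + max (-l1 (A.coc F.f) x) 0) ∂μ) := by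
  obtain ⟨K, hK⟩ := F.cocycle
  obtain ⟨eu, es, -, -, -, hreg⟩ := oseledets hK μ hμ
  have h1 := ruelle F.symm (μ := μ) (F.measurePreserving_symm hμ)
  rw [← ks_symm hμ (measurable_g_rue F) F.gf F.fg]
  refine h1.trans (le_of_eq ?_)
  congr 1
  refine integral_congr_ae ?_
  filter_upwards [hreg] with x hx
  change max (l1 (A.coc F.g) x) 0 + max (l2 (A.coc F.g) x) 0 = _
  rw [hx.l1', hx.l2']

theorem hyp_of_entropy (F : Dif A) {μ : Measure X} [IsProbabilityMeasure μ] (hμ : Ergodic F.f μ)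
    {b : ℝ} (hb : 0 < b) (h : ENNReal.ofReal b ≤ ksEntropy μ F.f) :
    ∀ᵐ x ∂μ, b ≤ l1 (A.coc F.f) x ∧ l2 (A.coc F.f) x ≤ -b := by
  obtain ⟨K, hK⟩ := F.cocycle
  obtain ⟨eu, es, -, -, -, hreg⟩ := oseledets hK μ hμ.toMeasurePreserving
  obtain ⟨a1, ha1⟩ := hμ.toPreErgodic.ae_eq_const_of_ae_eq_comp hK.measurable_l1
    (funext hK.l1_comp)
  obtain ⟨a2, ha2⟩ := hμ.toPreErgodic.ae_eq_const_of_ae_eq_comp hK.measurable_l2
    (funext hK.l2_comp)
  have hle : a2 ≤ a1 := by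
    obtain ⟨x, hx, h1, h2⟩ := (hreg.and (ha1.and ha2)).exists
    have := hx.le
    rw [h1, h2] at this
    exact this
  have e1 : ∫ x, (max (l1 (A.coc F.f) x) 0 + max (l2 (A.coc F.f) x) 0) ∂μ =
      max a1 0 + max a2 0 := by
    rw [integral_congr_ae (g := fun _ => max a1 0 + max a2 0)]
    · simp
    · filter_upwards [ha1, ha2] with x h1 h2
      rw [h1, h2]; rfl
  have e2 : ∫ x, (max (-l2 (A.coc F.f) x) 0 + max (-l1 (A.coc F.f) x) 0) ∂μ =
      max (-a2) 0 + max (-a1) 0 := by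
    rw [integral_congr_ae (g := fun _ => max (-a2) 0 + max (-a1) 0)]
    · simp
    · filter_upwards [ha1, ha2] with x h1 h2
      rw [h1, h2]; rfl
  have h1 := h.trans (ruelle F hμ.toMeasurePreserving)
  have h2 := h.trans (ruelle_symm_rue F hμ.toMeasurePreserving)
  rw [e1, ENNReal.ofReal_le_ofReal_iff (by positivity)] at h1
  rw [e2, ENNReal.ofReal_le_ofReal_iff (by positivity)] at h2
  have p1 : 0 < a1 := by
    by_contra hn
    rw [max_eq_right (not_lt.1 hn), max_eq_right (hle.trans (not_lt.1 hn))] at h1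
    linarith
  have p2 : a2 < 0 := by
    by_contra hn
    have hn' := not_lt.1 hn
    rw [max_eq_right (by linarith), max_eq_right (by linarith)] at h2
    linarith
  rw [max_eq_left p1.le, max_eq_right p2.le] at h1
  rw [max_eq_left (by linarith), max_eq_right (by linarith)] at h2
  filter_upwards [ha1, ha2] with x hx1 hx2
  rw [hx1, hx2]
  constructor
  · change b ≤ a1
    linarith
  · change a2 ≤ -b
    linarith

theorem ks_zero (F : Dif A) {μ : Measure X} [IsProbabilityMeasure μ]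
    (hμ : MeasurePreserving F.f μ μ) (h : ∀ᵐ x ∂μ, 0 ≤ l2 (A.coc F.f) x) :
    ksEntropy μ F.f = 0 := by
  obtain ⟨K, hK⟩ := F.cocycle
  obtain ⟨eu, es, -, -, -, hreg⟩ := oseledets hK μ hμ
  have h1 := ruelle_symm_rue F hμ
  have e2 : ∫ x, (max (-l2 (A.coc F.f) x) 0 + max (-l1 (A.coc F.f) x) 0) ∂μ = 0 := by
    rw [integral_congr_ae (g := fun _ => (0 : ℝ))]
    · simp
    · filter_upwards [hreg, h] with x hx h0
      have := hx.le
      rw [max_eq_right (by linarith), max_eq_right (by linarith), add_zero]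
  rw [e2, ENNReal.ofReal_zero] at h1
  exact le_antisymm h1 zero_le

end Pool.Agent.Lib.MP_e7c912_an
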