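import Pool.Agent.Lib.MP_e7c912_an.H60EL
import Pool.Agent.Lib.MP_e7c912_an.H60Ruelle

/-! Exponents, entropy and absolute continuity of the measures generated by unstable curves. -/

namespace Pool.Agent.Lib.MP_e7c912_an

open MeasureTheory Filter Metric Set Topology
open scoped ENNReal

variable {X : Type} [MetricSpace X] [CompactSpace X] [MeasurableSpace X] [BorelSpace X]
  {A : Atlas X} {F : Dif A} {q : Prm} {κ : Measure (Cv A q.ε)} {m : Measure X}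

theorem Gibbs.ac (h : Gibbs F q κ m) : eta κ ≪ m := Measure.absolutelyContinuous_of_le_smul h.le

theorem ae_Ioo_hp1 : ∀ᵐ t ∂volume.restrict (Icc (0 : ℝ) 1), t ∈ Ioo (0 : ℝ) 1 := by
  rw [← Measure.restrict_congr_set Ioo_ae_eq_Icc]
  exact ae_restrict_mem measurableSet_Ioo

theorem eta_null_hp1 [SFinite κ] {B : Set X} (hB : MeasurableSet B)
    (h : ∀ᵐ w ∂κ, ∀ᵐ t ∂volume.restrict (Icc (0 : ℝ) 1), w.pt t ∉ B) : eta κ B = 0 := by
  refine (etaOn_eq_zero_iff hB).2 (h.mono fun w hw => ?_)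
  rw [ae_restrict_iff' measurableSet_Icc] at hw
  exact measure_eq_zero_iff_ae_notMem.2 (hw.mono fun t ht h' => ht h'.2 h'.1)

theorem Gibbs.ae_pt_hp1 (h : Gibbs F q κ m) {p : X → Prop} (hp : ∀ᵐ x ∂m, p x) :
    ∀ᵐ w ∂κ, ∀ᵐ t ∂volume.restrict (Icc (0 : ℝ) 1), p (w.pt t) := by
  have := h.finκ
  exact ae_of_etaOn (h.ac.ae_le hp)

/-- Growth of the tangent vectors of the curves. -/
theorem Gibbs.grow (h : Gibbs F q κ m) (hp : 1 ≤ q.p) (hε : 0 < q.ε) :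
    ∀ᵐ w ∂κ, ∀ᵐ t ∂volume.restrict (Icc (0 : ℝ) 1), 2 * q.α ≤ l1 (A.coc F.f) (w.pt t) ∧
      (∀ a < 2 * q.α, ∀ᶠ n : ℕ in atTop, Real.exp (a * n) ≤ ‖w.DN F.f^[n] t‖) ∧
      (l2 (A.coc F.f) (w.pt t) < 2 * q.α → ∀ a < l1 (A.coc F.f) (w.pt t),
        ∀ᶠ n : ℕ in atTop, Real.exp (a * n) ≤ ‖w.DN F.f^[n] t‖) := by
  obtain ⟨K, hK⟩ := F.cocycle
  have := h.finm
  filter_upwards [h.ae, h.ae_pt_hp1 (ostar hK m h.mp)] with w hw h1
  filter_upwards [ae_Ioo_hp1, h1] with t ht h2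
  obtain ⟨h3, h4, h5⟩ := h2 _ (2 * q.α) q.ε (hw.1.1.pr_ne hε ht) (frequently_atTop.2 fun N =>
    ⟨q.p * N, Nat.le_mul_of_pos_left N hp, (hw.1.2 N).norm_coc_le ht⟩)
  exact ⟨h3, fun a ha => (h4 a ha).mono fun n hn => hn.trans (Cv.norm_Dm_le_DN _ w t),
    fun hl a ha => (h5 hl a ha).mono fun n hn => hn.trans (Cv.norm_Dm_le_DN _ w t)⟩

theorem Gibbs.prob_hp1 (h : Gibbs F q κ m) {Z : Set X} (h0 : m Z ≠ 0) :
    IsProbabilityMeasure ((m Z)⁻¹ • m.restrict Z) := by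
  have := h.finm
  exact ProbabilityTheory.cond_isProbabilityMeasure h0

theorem Gibbs.mp_hp1 (h : Gibbs F q κ m) {Z : Set X} (hZ : MeasurableSet Z)
    (hi : F.f ⁻¹' Z = Z) :
    MeasurePreserving F.f ((m Z)⁻¹ • m.restrict Z) ((m Z)⁻¹ • m.restrict Z) :=
  (measurePreserving_restrict h.mp hZ hi).smul_measure _

theorem Gibbs.res_ac_hp1 (h : Gibbs F q κ m) (Z : Set X) :
    m.restrict Z ≪ (m Z)⁻¹ • m.restrict Z := by
  have := h.finm
  exact Measure.absolutelyContinuous_smul (ENNReal.inv_ne_zero.2 (measure_ne_top m Z))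

theorem Gibbs.thin_hp1 (h : Gibbs F q κ m) (hp : 1 ≤ q.p) {Z : Set X} (hZ : MeasurableSet Z)
    (hi : F.f ⁻¹' Z = Z) (h0 : m Z ≠ 0) {a : ℝ}
    (hg : ∀ᵐ w ∂κ, ∀ᵐ t ∂volume.restrict (Icc (0 : ℝ) 1), w.pt t ∈ Z →
      ∀ᶠ n : ℕ in atTop, Real.exp (a * n) ≤ ‖w.DN F.f^[n] t‖) :
    ∃ ν : Measure X, IsFiniteMeasure ν ∧ ν ≠ 0 ∧ ν ≪ (m Z)⁻¹ • m.restrict Z ∧
      Thin F.f q.ε (a - q.α) ν := by
  have := h.finκ
  obtain ⟨ν, h1, h2, h3, h4⟩ := exists_thin hp (h.ae.mono fun w hw => hw.2) hZ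
    (fun h' => h0 (h.nul Z hZ hi h')) hg
  exact ⟨ν, h1, h2, (Measure.absolutelyContinuous_of_le h3).trans
    ((h.ac.restrict Z).trans (h.res_ac_hp1 Z)), h4⟩

theorem Gibbs.hyp (h : Gibbs F q κ m) (hp : 1 ≤ q.p) (hε : 0 < q.ε) (hα : 0 < q.α) :
    ∀ᵐ x ∂m, 0 < l1 (A.coc F.f) x ∧ l2 (A.coc F.f) x < 0 := by
  obtain ⟨K, hK⟩ := F.cocycle
  have := h.finκ
  have h1 : m {x | l1 (A.coc F.f) x < 2 * q.α} = 0 := by
    have hm : MeasurableSet {x | l1 (A.coc F.f) x < 2 * q.α} :=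
      measurableSet_lt hK.measurable_l1 measurable_const
    refine h.nul _ hm (Set.ext fun x => ?_) (eta_null_hp1 hm ?_)
    · simp only [mem_preimage, mem_ofPred_eq, hK.l1_comp]
    · exact (h.grow hp hε).mono fun w hw => hw.mono fun t ht => not_lt.2 ht.1
  have h2 : m {x | 0 ≤ l2 (A.coc F.f) x} = 0 := by
    by_contra h0
    have hm : MeasurableSet {x | 0 ≤ l2 (A.coc F.f) x} :=
      measurableSet_le measurable_const hK.measurable_l2
    have hi : F.f ⁻¹' {x | 0 ≤ l2 (A.coc F.f) x} = {x | 0 ≤ l2 (A.coc F.f) x} :=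
      Set.ext fun x => by simp only [mem_preimage, mem_ofPred_eq, hK.l2_comp]
    have := h.prob_hp1 h0
    obtain ⟨ν, h3, h4, h5, h6⟩ := h.thin_hp1 hp hm hi h0 (a := 3 / 2 * q.α)
      ((h.grow hp hε).mono fun w hw => hw.mono fun t ht _ => ht.2.1 _ (by linarith))
    exact h6.ks_ne (h.mp_hp1 hm hi) hε (by linarith) h4 h5
      (ks_zero F (h.mp_hp1 hm hi) (Measure.ae_smul_measure (ae_restrict_mem hm) _))
  filter_upwards [measure_eq_zero_iff_ae_notMem.1 h1, measure_eq_zero_iff_ae_notMem.1 h2]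
    with x hx hx'
  exact ⟨by linarith [not_lt.1 hx], not_le.1 hx'⟩

omit [CompactSpace X] [MeasurableSpace X] [BorelSpace X] in
theorem wu_of_le_hp1 {S : X → X} {x y : X} {K c : ℝ} (hc : 0 < c)
    (h : ∀ᶠ n : ℕ in atTop, dist (S^[n] x) (S^[n] y) ≤ K * Real.exp (-c * n)) : y ∈ Wu S x := by
  refine ⟨c / 2, half_pos hc, ?_⟩
  have h1 : Tendsto (fun n : ℕ => K * Real.exp (-(c / 2 * n))) atTop (𝓝 (K * 0)) :=
    (Real.tendsto_exp_neg_atTop_nhds_zero.comp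
      (tendsto_natCast_atTop_atTop.const_mul_atTop (half_pos hc))).const_mul K
  filter_upwards [h, h1.eventually (gt_mem_nhds (show K * 0 < 1 by simp))] with n hn hn'
  rw [edist_le_ofReal (Real.exp_pos _).le]
  refine hn.trans ?_
  rw [show -c * (n : ℝ) = -(c / 2 * n) + -(c / 2) * n by ring, Real.exp_add, ← mul_assoc]
  exact mul_le_of_le_one_left (Real.exp_pos _).le hn'.le

omit [CompactSpace X] [MeasurableSpace X] [BorelSpace X] in
theorem wu_map_hp1 {S G : X → X} {L : NNReal} (hG : LipschitzWith L G)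
    (hc : Function.Commute G S) {x y : X} (h : y ∈ Wu S x) : G y ∈ Wu S (G x) := by
  obtain ⟨c, hc0, h⟩ := h
  refine wu_of_le_hp1 (K := L) hc0 (h.mono fun n hn => ?_)
  rw [edist_le_ofReal (Real.exp_pos _).le] at hn
  rw [← (hc.iterate_right n).eq, ← (hc.iterate_right n).eq]
  exact (hG.dist_le_mul _ _).trans (mul_le_mul_of_nonneg_left hn L.2)

omit [CompactSpace X] in
theorem null_leaf_hp1 {S G G' : X → X} {L L' : NNReal} (hG : LipschitzWith L G)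
    (hG' : LipschitzWith L' G') (hi : ∀ x, G' (G x) = x) (hc : Function.Commute G S)
    {σ : ℝ → X} {K c : ℝ} (hK : 0 < K) (hc0 : 0 < c) (hσ : UCur S K c σ) {t0 : ℝ}
    (ht0 : t0 ∈ Icc (0 : ℝ) 1) {B : Set X}
    (h0 : Measure.hausdorffMeasure 1 (B ∩ Wu S (G (σ t0))) = 0) :
    ∀ᵐ t ∂volume.restrict (Icc (0 : ℝ) 1), G (σ t) ∉ B := by
  have h1 : volume {t | t ∈ Icc (0 : ℝ) 1 ∧ G (σ t) ∈ B} = 0 := by
    refine null_of_hausdorff_image (σ := G ∘ σ) (D := Icc 0 1) (K := K * L') (fun t ht => ht.1)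
      (fun s hs t ht => ((hσ s hs t ht).1).trans ?_) (measure_mono_null ?_ h0)
    · rw [mul_assoc]
      refine mul_le_mul_of_nonneg_left ?_ hK.le
      have := hG'.dist_le_mul (G (σ s)) (G (σ t))
      rwa [hi, hi] at this
    · rintro _ ⟨t, ht, rfl⟩
      refine ⟨ht.2, wu_map_hp1 hG hc (wu_of_le_hp1 (K := K) hc0 (Eventually.of_forall fun n => ?_))⟩
      refine ((hσ t0 ht0 t ht.1).2 n).trans (mul_le_of_le_one_right (by positivity) ?_)
      rw [abs_le]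
      constructor <;> linarith [ht0.1, ht0.2, ht.1.1, ht.1.2]
  rw [ae_restrict_iff' measurableSet_Icc]
  exact (measure_eq_zero_iff_ae_notMem.1 h1).mono fun t ht h2 h3 => ht ⟨h2, h3⟩

theorem Gibbs.leafAC (h : Gibbs F q κ m) (hp : 1 ≤ q.p) (hε : 0 < q.ε) (hα : 0 < q.α) {Z : Set X}
    (hZ : MeasurableSet Z) (hi : F.f ⁻¹' Z = Z) (h0 : m Z ≠ 0) :
    LeafAC F.g ((m Z)⁻¹ • m.restrict Z) := by
  intro B hB hae
  have := h.finκ
  have mf : Measurable F.f := F.smf.1.measurable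
  have mg : Measurable F.g := F.smg.1.measurable
  obtain ⟨G, hG, iG, fG, pG⟩ := exists_inv_full (h.mp_hp1 hZ hi) mg F.gf F.fg hae
  have iG1 : ∀ (j : ℕ) x, F.f^[j] x ∈ G ↔ x ∈ G := fun j => by
    induction j with
    | zero => exact fun _ => Iff.rfl
    | succ j ih => exact fun x => by rw [Function.iterate_succ_apply, ih, iG]
  have iG2 : ∀ (j : ℕ) x, F.g^[j] x ∈ G ↔ x ∈ G := fun j x => by
    rw [← iG1 j, F.fg_iter]
  set B' : Set X := ⋃ j : ℕ, (F.f^[j] ⁻¹' B ∪ F.g^[j] ⁻¹' B) with hB'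
  have mB' : MeasurableSet B' := MeasurableSet.iUnion fun j =>
    ((mf.iterate j) hB).union ((mg.iterate j) hB)
  have iB' : F.f ⁻¹' B' = B' := by
    ext x
    simp only [hB', mem_preimage, mem_iUnion, mem_union]
    constructor
    · rintro ⟨j, hj | hj⟩
      · exact ⟨j + 1, Or.inl hj⟩
      · cases j with
        | zero => exact ⟨1, Or.inl hj⟩
        | succ j => exact ⟨j, Or.inr (by rwa [Function.iterate_succ_apply, F.gf] at hj)⟩
    · rintro ⟨j, hj | hj⟩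
      · cases j with
        | zero => exact ⟨1, Or.inr (by rwa [Function.iterate_one, F.gf])⟩
        | succ j => exact ⟨j, Or.inl hj⟩
      · exact ⟨j + 1, Or.inr (by rwa [Function.iterate_succ_apply, F.gf])⟩
  obtain ⟨K, hK, hU⟩ := UAll.ucur F hp hε hα.le
  have hZG : ∀ᵐ x ∂m, x ∈ Z → x ∈ G :=
    (ae_restrict_iff' hZ).1 ((h.res_ac_hp1 Z).ae_le fG)
  have cf : Function.Commute F.f F.g := fun x => by rw [F.fg, F.gf]
  have key : eta κ (Z ∩ B') = 0 := by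
    refine eta_null_hp1 (hZ.inter mB') ?_
    filter_upwards [h.ae, h.ae_pt_hp1 hZG] with w hw h1
    by_cases hex : ∃ t0 ∈ Icc (0 : ℝ) 1, w.pt t0 ∈ G
    · obtain ⟨t0, ht0, hG0⟩ := hex
      have h2 : ∀ j : ℕ, ∀ᵐ t ∂volume.restrict (Icc (0 : ℝ) 1),
          F.f^[j] (w.pt t) ∉ B ∧ F.g^[j] (w.pt t) ∉ B := fun j => by
        obtain ⟨L, -, hL⟩ := (F.smf.iter j).lip
        obtain ⟨L', -, hL'⟩ := (F.smg.iter j).lip
        exact (null_leaf_hp1 hL hL' (F.gf_iter j) (cf.iterate_left j) hK (by linarith)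
          (hU w hw.1) ht0 (pG _ ((iG1 j _).2 hG0))).and
          (null_leaf_hp1 hL' hL (F.fg_iter j) ((Function.Commute.refl F.g).iterate_left j) hK
            (by linarith) (hU w hw.1) ht0 (pG _ ((iG2 j _).2 hG0)))
      filter_upwards [ae_all_iff.2 h2] with t ht ht'
      obtain ⟨j, hj⟩ := mem_iUnion.1 ht'.2
      exact hj.elim (ht j).1 (ht j).2
    · filter_upwards [h1, ae_restrict_mem measurableSet_Icc] with t ht ht' h2
      exact hex ⟨t, ht', ht h2.1⟩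
  have h3 := h.nul _ (hZ.inter mB') (by rw [preimage_inter, hi, iB']) key
  have h4 : m (B ∩ Z) = 0 :=
    measure_mono_null (fun x hx => mem_inter hx.2 (mem_iUnion.2 ⟨0, Or.inl hx.1⟩)) h3
  rw [Measure.smul_apply, Measure.restrict_apply hB, h4, smul_zero]

theorem Gibbs.ks_ge (h : Gibbs F q κ m) (hp : 1 ≤ q.p) (hε : 0 < q.ε) (hα : 0 < q.α) {Z : Set X}
    (hZ : MeasurableSet Z) (hi : F.f ⁻¹' Z = Z) (h0 : m Z ≠ 0)
    (he : Ergodic F.f ((m Z)⁻¹ • m.restrict Z)) {b : ℝ}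
    (hb : m (Z ∩ {x | b ≤ l1 (A.coc F.f) x}) ≠ 0) :
    ENNReal.ofReal (b - q.α) ≤ ksEntropy ((m Z)⁻¹ • m.restrict Z) F.f := by
  obtain ⟨K, hK⟩ := F.cocycle
  have := h.prob_hp1 h0
  have hm : MeasurableSet {x | b ≤ l1 (A.coc F.f) x} :=
    measurableSet_le measurable_const hK.measurable_l1
  have h1 : ∀ᵐ x ∂m, x ∈ Z → b ≤ l1 (A.coc F.f) x := by
    rcases he.toPreErgodic.ae_mem_or_ae_notMem hm
      (Set.ext fun x => by simp only [mem_preimage, mem_ofPred_eq, hK.l1_comp]) with h2 | h2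
    · exact (ae_restrict_iff' hZ).1 ((h.res_ac_hp1 Z).ae_le h2)
    · refine absurd (measure_eq_zero_iff_ae_notMem.2 ?_) hb
      exact ((ae_restrict_iff' hZ).1 ((h.res_ac_hp1 Z).ae_le h2)).mono
        fun x hx hx' => hx hx'.1 hx'.2
  refine le_of_forall_lt_imp_le_of_dense fun c hc => ?_
  have hc' : c.toReal < b - q.α := (ENNReal.lt_ofReal_iff_toReal_lt hc.ne_top).1 hc
  obtain ⟨ν, h3, h4, h5, h6⟩ := h.thin_hp1 hp hZ hi h0 (a := c.toReal + q.α) (by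
    filter_upwards [h.grow hp hε, h.ae_pt_hp1 h1, h.ae_pt_hp1 (h.hyp hp hε hα)] with w g1 g2 g3
    filter_upwards [g1, g2, g3] with t k1 k2 k3 k4
    exact k1.2.2 (by linarith [k3.2]) _ (by linarith [k2 k4]))
  have h7 := h6.ks_ge he hε h4 h5
  rwa [add_sub_cancel_right, ENNReal.ofReal_toReal hc.ne_top] at h7

end Pool.Agent.Lib.MP_e7c912_an
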