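import Pool.Agent.Lib.MP_e7c912_an.H60Gen1

/-! Measure theoretic tools on compact metric spaces. -/

namespace Pool.Agent.Lib.MP_e7c912_an

open MeasureTheory Filter Metric Set Topology
open scoped ENNReal NNReal

variable {X : Type} [MetricSpace X] [CompactSpace X] [MeasurableSpace X] [BorelSpace X]
  {T S : X → X} {μ ν : Measure X}

theorem le_of_integral_le [IsFiniteMeasure μ] [IsFiniteMeasure ν]
    (h : ∀ φ : C(X, ℝ), 0 ≤ φ → ∫ x, φ x ∂μ ≤ ∫ x, φ x ∂ν) : μ ≤ ν := by
  have hc : ∀ F : Set X, IsClosed F → μ F ≤ ν F := fun F hF => by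
    refine le_of_tendsto_of_tendsto' (HasOuterApproxClosed.tendsto_lintegral_apprSeq hF μ)
      (HasOuterApproxClosed.tendsto_lintegral_apprSeq hF ν) fun n => ?_
    rw [← ENNReal.toReal_le_toReal (BoundedContinuousFunction.lintegral_lt_top_of_nnreal μ _).ne
      (BoundedContinuousFunction.lintegral_lt_top_of_nnreal ν _).ne,
      BoundedContinuousFunction.toReal_lintegral_coe_eq_integral,
      BoundedContinuousFunction.toReal_lintegral_coe_eq_integral]
    exact h ⟨fun x => (hF.apprSeq n x : ℝ),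
      NNReal.continuous_coe.comp (hF.apprSeq n).continuous⟩ fun x => NNReal.coe_nonneg _
  refine Measure.le_iff.2 fun A hA => ?_
  rw [hA.measure_eq_iSup_isClosed_of_ne_top (measure_ne_top μ A)]
  exact iSup_le fun F => iSup_le fun hFA => iSup_le fun hF =>
    (hc F hF).trans (measure_mono hFA)

theorem exists_ball_pos_gen {Y : Type} [PseudoMetricSpace Y] [SecondCountableTopology Y]
    [MeasurableSpace Y] {m : Measure Y} {B : Set Y} (h0 : m B ≠ 0) {γ : ℝ} (hγ : 0 < γ) :
    ∃ x ∈ B, m (B ∩ closedBall x γ) ≠ 0 := by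
  by_contra h
  push Not at h
  exact h0 (measure_null_of_locally_null B fun x hx =>
    ⟨_, inter_mem_nhdsWithin B (closedBall_mem_nhds x hγ), h x hx⟩)

/-- A set of positive measure has positive measure in a ball of any given radius centred in it. -/
theorem exists_ball_pos {B : Set X} (h0 : μ B ≠ 0) {γ : ℝ} (hγ : 0 < γ) :
    ∃ x ∈ B, μ (B ∩ closedBall x γ) ≠ 0 := exists_ball_pos_gen h0 hγ

/-- Almost every point of a set is in the support of the restricted measure; these points form a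
measurable set. -/
theorem exists_supp (μ : Measure X) {B : Set X} (hB : MeasurableSet B) :
    ∃ B' : Set X, MeasurableSet B' ∧ B' ⊆ B ∧ μ (B \ B') = 0 ∧
      ∀ x ∈ B', ∀ γ : ℝ, 0 < γ → μ (B ∩ closedBall x γ) ≠ 0 := by
  refine ⟨B ∩ (μ.restrict B).support, hB.inter Measure.isClosed_support.measurableSet,
    inter_subset_left, ?_, fun x hx γ hγ => ?_⟩
  · have h := (μ.restrict B).measure_compl_support
    rw [Measure.restrict_apply' hB] at h
    refine measure_mono_null (fun x hx => ?_) h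
    exact ⟨fun h' => hx.2 ⟨hx.1, h'⟩, hx.1⟩
  · have h := (Measure.mem_support_iff_forall x).1 hx.2 _ (closedBall_mem_nhds x hγ)
    rw [Measure.restrict_apply' hB, inter_comm] at h
    exact h.ne'

/-- A set of reals of positive measure has positive measure near one of its points. -/
theorem exists_real_pos {B : Set ℝ} (h0 : volume B ≠ 0) {γ : ℝ} (hγ : 0 < γ) :
    ∃ t ∈ B, volume (B ∩ Icc (t - γ) (t + γ)) ≠ 0 := by
  simpa only [Real.closedBall_eq_Icc] using exists_ball_pos_gen h0 hγ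

/-- A set shrunk by an invariant map is null for a measure without atoms. -/
theorem null_of_shrink [IsFiniteMeasure μ] (hS : MeasurePreserving S μ μ) (ha : ∀ x, μ {x} = 0)
    {W : Set X} (hW : ∀ γ : ℝ, 0 < γ → ∃ k : ℕ, ∃ z : X, ∀ y ∈ W, dist (S^[k] y) z ≤ γ) :
    μ W = 0 := by
  refine le_antisymm (le_of_forall_gt_imp_ge_of_dense fun ε hε => ?_) bot_le
  choose U hU hUo hUε using fun x : X => Set.exists_isOpen_lt_of_lt (μ := μ) {x} ε (ha x ▸ hε)
  obtain ⟨δ, hδ, h⟩ := lebesgue_number_lemma_of_metric (isCompact_univ (X := X)) hUo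
    fun x _ => mem_iUnion.2 ⟨x, hU x rfl⟩
  obtain ⟨k, z, hz⟩ := hW (δ / 2) (half_pos hδ)
  obtain ⟨i, hi⟩ := h z trivial
  calc μ W ≤ μ (S^[k] ⁻¹' U i) :=
        measure_mono fun y hy => hi ((hz y hy).trans_lt (half_lt_self hδ))
    _ = μ (U i) := (hS.iterate k).measure_preimage (hUo i).measurableSet.nullMeasurableSet
    _ ≤ ε := (hUε i).le

omit [CompactSpace X] in
theorem hausdorff_image_null {σ : ℝ → X} {D B : Set ℝ} {K : ℝ} (hB : B ⊆ D)
    (hl : ∀ s ∈ D, ∀ t ∈ D, dist (σ s) (σ t) ≤ K * |s - t|) (h0 : volume B = 0) :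
    Measure.hausdorffMeasure 1 (σ '' B) = 0 := by
  have hL : LipschitzOnWith K.toNNReal σ B := LipschitzOnWith.of_dist_le_mul fun s hs t ht =>
    (hl s (hB hs) t (hB ht)).trans
      (mul_le_mul_of_nonneg_right (Real.le_coe_toNNReal K) (abs_nonneg _))
  have h := hL.hausdorffMeasure_image_le zero_le_one
  rw [hausdorffMeasure_real, h0, mul_zero] at h
  exact le_antisymm h bot_le

omit [CompactSpace X] in
theorem null_of_hausdorff_image {σ : ℝ → X} {D B : Set ℝ} {K : ℝ} (hB : B ⊆ D)
    (hl : ∀ s ∈ D, ∀ t ∈ D, |s - t| ≤ K * dist (σ s) (σ t))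
    (h0 : Measure.hausdorffMeasure 1 (σ '' B) = 0) : volume B = 0 := by
  have h1 : ∀ y ∈ σ '' B, Function.invFunOn σ B y ∈ B ∧ σ (Function.invFunOn σ B y) = y :=
    fun y hy => Function.invFunOn_pos hy
  have hL : LipschitzOnWith K.toNNReal (Function.invFunOn σ B) (σ '' B) :=
    LipschitzOnWith.of_dist_le_mul fun y hy z hz => by
      have := hl _ (hB (h1 y hy).1) _ (hB (h1 z hz).1)
      rw [(h1 y hy).2, (h1 z hz).2] at this
      exact this.trans (mul_le_mul_of_nonneg_right (Real.le_coe_toNNReal K) dist_nonneg)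
  have h := hL.hausdorffMeasure_image_le zero_le_one
  rw [hausdorffMeasure_real, h0, mul_zero] at h
  refine measure_mono_null (fun s hs => ?_) (le_antisymm h bot_le)
  refine ⟨σ s, mem_image_of_mem _ hs, ?_⟩
  have h2 := h1 _ (mem_image_of_mem _ hs)
  have := hl _ (hB h2.1) _ (hB hs)
  rw [h2.2, dist_self, mul_zero] at this
  exact sub_eq_zero.1 (abs_nonpos_iff.1 this)

omit [CompactSpace X] in
theorem hausdorff_lip_null {g : X → X} {K : ℝ≥0} (hg : LipschitzWith K g) {B : Set X}
    (h0 : Measure.hausdorffMeasure 1 B = 0) : Measure.hausdorffMeasure 1 (g '' B) = 0 := by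
  have h := hg.hausdorffMeasure_image_le zero_le_one B
  rw [h0, mul_zero] at h
  exact le_antisymm h bot_le

/-- Weak limits: a property stable under limits of almost full sets holds almost everywhere. -/
theorem ae_of_limit {Y : Type} [TopologicalSpace Y] [CompactSpace Y]
    [TopologicalSpace.MetrizableSpace Y] [MeasurableSpace Y] [BorelSpace Y]
    {Ps : ℕ → ProbabilityMeasure Y} {P : ProbabilityMeasure Y} (hP : Tendsto Ps atTop (𝓝 P))
    {W : ℕ → Set Y} (hW : Tendsto (fun n => (Ps n : Measure Y) (W n)ᶜ) atTop (𝓝 0)) {p : Y → Prop}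
    (hp : ∀ (s : ℕ → ℕ) (y : ℕ → Y) (z : Y), StrictMono s → (∀ k, y k ∈ W (s k)) →
      Tendsto y atTop (𝓝 z) → p z) : ∀ᵐ z ∂(P : Measure Y), p z := by
  let _ := TopologicalSpace.metrizableSpaceMetric Y
  have h1 : ∀ m : ℕ, ∀ᵐ z ∂(P : Measure Y), z ∈ closure (⋃ n ≥ m, W n) := fun m => by
    have h := ProbabilityMeasure.le_liminf_measure_open_of_tendsto hP
      (isClosed_closure (s := ⋃ n ≥ m, W n)).isOpen_compl
    refine le_antisymm (h.trans ?_) bot_le
    rw [← hW.liminf_eq]
    refine liminf_le_liminf ((eventually_ge_atTop m).mono fun n hn => measure_mono ?_)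
    exact compl_subset_compl.2 fun y hy => subset_closure (mem_iUnion₂.2 ⟨n, hn, hy⟩)
  filter_upwards [ae_all_iff.2 h1] with z hz
  have h2 : ∀ k : ℕ, ∃ᶠ n in atTop, ∃ y ∈ W n, dist z y < 1 / ((k : ℝ) + 1) := fun k =>
    frequently_atTop.2 fun m => by
      obtain ⟨y, hy, hd⟩ := Metric.mem_closure_iff.1 (hz m) _ (Nat.one_div_pos_of_nat (n := k))
      obtain ⟨n, hn, hy⟩ := mem_iUnion₂.1 hy
      exact ⟨n, hn, y, hy, hd⟩
  obtain ⟨s, hs, h3⟩ := extraction_forall_of_frequently h2
  choose y hy hd using h3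
  refine hp s y z hs hy (tendsto_iff_dist_tendsto_zero.2 ?_)
  exact squeeze_zero (fun _ => dist_nonneg) (fun k => by rw [dist_comm]; exact (hd k).le)
    tendsto_one_div_add_atTop_nhds_zero_nat

end Pool.Agent.Lib.MP_e7c912_an
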