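import Pool.Agent.Lib.MP_e7c912_an.H60BoxDef
import Pool.Agent.Lib.MP_e7c912_an.H60Gen

/-! Geometry in a box: intersections of leaves, transfer of null sets, unstable curves. -/

namespace Pool.Agent.Lib.MP_e7c912_an

open MeasureTheory Filter Metric Set Topology

variable {X : Type} [MetricSpace X] [MeasurableSpace X] {A : Atlas X}

theorem decay_tr1 {K c : ℝ} (hc : 0 < c) (d : ℝ) :
    Tendsto (fun k : ℕ => K * Real.exp (-c * k) * d) atTop (𝓝 0) := by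
  have h1 : Tendsto (fun k : ℕ => -c * (k : ℝ)) atTop atBot :=
    tendsto_natCast_atTop_atTop.const_mul_atTop_of_neg (by linarith)
  have h2 := ((Real.tendsto_exp_atBot.comp h1).const_mul K).mul_const d
  simpa using h2

theorem contOn_tr1 {h : ℝ → ℝ} {S : Set ℝ} (hl : ∀ s ∈ S, ∀ s' ∈ S, |h s - h s'| ≤ |s - s'| / 10) :
    ContinuousOn h S := by
  refine (LipschitzOnWith.of_dist_le_mul (K := 1) fun s hs s' hs' => ?_).continuousOn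
  have := hl s hs s' hs'
  have h0 := abs_nonneg (s - s')
  rw [Real.dist_eq, Real.dist_eq, NNReal.coe_one]
  linarith

namespace Box

variable {F : Dif A} {Λ : Set X} {x0 : X} {ρ K c ε0 : ℝ} (B : Box F Λ x0 ρ K c ε0)

theorem Φ_def_tr1 (y : X) : B.Φ y = B.Ci (A.φ B.i y - A.φ B.i x0) := rfl

theorem Ψ_def_tr1 (z : V) : B.Ψ z = A.ψ B.i (A.φ B.i x0 + B.C z) := rfl

include B in
theorem two_ρ_tr1 : 2 * ρ ≤ A.ρ / 2 := by
  have h1 := B.ρ_le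
  have h2 := A.one_le_K
  have h3 := B.ρ_pos
  nlinarith

theorem norm_C_tr1 (z : V) : ‖B.C z‖ ≤ ‖z‖ := by
  have := B.C.le_opNorm z
  have h := B.C_le
  have h0 := norm_nonneg z
  nlinarith

theorem mem_U_tr1 {z : V} (hz : ‖z‖ ≤ 2 * ρ) : A.φ B.i x0 + B.C z ∈ A.U B.i := by
  apply A.ball_sub B.i x0 B.mem
  have h1 := B.norm_C_tr1 z
  have h2 := B.two_ρ_tr1
  have h3 := A.ρ_pos
  rw [mem_ball, dist_eq_norm]
  change ‖A.φ B.i x0 + B.C z - A.φ B.i x0‖ < A.ρ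
  rw [add_sub_cancel_left]
  linarith

theorem Φ_self : B.Φ x0 = 0 := by
  rw [Φ_def_tr1, sub_self, map_zero]

theorem Ψ_zero : B.Ψ 0 = x0 := by
  rw [Ψ_def_tr1, map_zero, add_zero]
  exact Atlas.ψ_φ B.mem (by simpa using A.ρ_pos)

theorem continuous_Φ : Continuous B.Φ :=
  B.Ci.continuous.comp ((A.continuous_φ B.i).sub continuous_const)

theorem norm_Φ_sub_le (y y' : X) : ‖B.Φ y - B.Φ y'‖ ≤ K * dist y y' := by
  rw [Φ_def_tr1, Φ_def_tr1, ← map_sub, sub_sub_sub_cancel_right]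
  refine (B.Ci.le_opNorm _).trans ?_
  exact mul_le_mul B.Ci_le (A.norm_φ_sub_le B.i y y') (norm_nonneg _) (by linarith [B.one_le])

theorem Φ_Ψ {z : V} (hz : ‖z‖ ≤ 2 * ρ) : B.Φ (B.Ψ z) = z := by
  rw [Φ_def_tr1, Ψ_def_tr1, Atlas.φ_ψ (B.mem_U_tr1 hz), add_sub_cancel_left, B.Ci_C]

theorem Ψ_Φ {y : X} (hy : dist y x0 < A.ρ) : B.Ψ (B.Φ y) = y := by
  rw [Ψ_def_tr1, Φ_def_tr1, B.C_Ci, add_sub_cancel]
  exact Atlas.ψ_φ B.mem hy

theorem dist_Ψ_le {z z' : V} (hz : ‖z‖ ≤ 2 * ρ) (hz' : ‖z'‖ ≤ 2 * ρ) :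
    dist (B.Ψ z) (B.Ψ z') ≤ A.K * ‖z - z'‖ := by
  rw [Ψ_def_tr1, Ψ_def_tr1]
  refine (Atlas.dist_ψ_le (B.mem_U_tr1 hz) (B.mem_U_tr1 hz')).trans ?_
  rw [add_sub_add_left_eq_sub, ← map_sub]
  exact mul_le_mul_of_nonneg_left (B.norm_C_tr1 _) (by linarith [A.one_le_K])

theorem dist_Ψ_lt {z : V} (hz : ‖z‖ ≤ 2 * ρ) : dist (B.Ψ z) x0 ≤ A.ρ / 2 := by
  have h0 : ‖(0 : V)‖ ≤ 2 * ρ := by
    rw [norm_zero]
    linarith [B.ρ_pos]
  have h := B.dist_Ψ_le hz h0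
  rw [B.Ψ_zero, sub_zero] at h
  have h1 := B.ρ_le
  have h2 : A.K * ‖z‖ ≤ A.K * (2 * ρ) := mul_le_mul_of_nonneg_left hz (by linarith [A.one_le_K])
  linarith

theorem continuousOn_Ψ : ContinuousOn B.Ψ (closedBall 0 (2 * ρ)) := by
  refine (A.continuousOn_ψ B.i).comp (f := fun z => A.φ B.i x0 + B.C z)
    (continuous_const.add B.C.continuous).continuousOn fun z hz => ?_
  exact B.mem_U_tr1 (by simpa using hz)

theorem in_norm {x : X} (hx : In Λ x0 ρ K x) : ‖B.Φ x‖ ≤ ρ / 10 ∧ dist x x0 < A.ρ := by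
  have hK := B.one_le
  have hρ := B.ρ_pos
  have h1 := B.norm_Φ_sub_le x x0
  rw [B.Φ_self, sub_zero] at h1
  have h2 : K * dist x x0 ≤ ρ / 10 := by
    have := mul_le_mul_of_nonneg_left hx.2 (by linarith : (0 : ℝ) ≤ K)
    have h3 : K * (ρ / (10 * K)) = ρ / 10 := by field_simp
    linarith
  have h4 : dist x x0 ≤ K * dist x x0 := le_mul_of_one_le_left dist_nonneg hK
  have h5 := B.two_ρ_tr1
  exact ⟨by linarith, by linarith⟩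

theorem coord_tr1 {x : X} (hx : In Λ x0 ρ K x) :
    |(B.Φ x).1| ≤ ρ / 10 ∧ |(B.Φ x).2| ≤ ρ / 10 :=
  ⟨(norm_fst_le (B.Φ x)).trans (B.in_norm hx).1, (norm_snd_le (B.Φ x)).trans (B.in_norm hx).1⟩

theorem mem1_tr1 {x : X} (hx : In Λ x0 ρ K x) : (B.Φ x).1 ∈ Icc (-ρ) ρ := by
  have h := abs_le.1 (B.coord_tr1 hx).1
  have := B.ρ_pos
  exact ⟨by linarith [h.1], by linarith [h.2]⟩

theorem mem2_tr1 {x : X} (hx : In Λ x0 ρ K x) : (B.Φ x).2 ∈ Icc (-ρ) ρ := by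
  have h := abs_le.1 (B.coord_tr1 hx).2
  have := B.ρ_pos
  exact ⟨by linarith [h.1], by linarith [h.2]⟩

theorem ws_sub_tr1 {x : X} (hx : In Λ x0 ρ K x) {s : ℝ} (hs : s ∈ Icc (-ρ) ρ) :
    |B.ws x s - (B.Φ x).1| ≤ |s - (B.Φ x).2| / 10 := by
  have h := B.ws_lip x hx s hs _ (B.mem2_tr1 hx)
  have h2 : B.ws x (B.Φ x).2 = (B.Φ x).1 := B.ws_self x hx
  rwa [h2] at h

theorem wu_sub_tr1 {x : X} (hx : In Λ x0 ρ K x) {u : ℝ} (hu : u ∈ Icc (-ρ) ρ) :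
    |B.wu x u - (B.Φ x).2| ≤ |u - (B.Φ x).1| / 10 := by
  have h := B.wu_lip x hx u hu _ (B.mem1_tr1 hx)
  have h2 : B.wu x (B.Φ x).1 = (B.Φ x).2 := B.wu_self x hx
  rwa [h2] at h

theorem abs_ws_le {x : X} (hx : In Λ x0 ρ K x) {s : ℝ} (hs : s ∈ Icc (-ρ) ρ) :
    |B.ws x s| ≤ ρ / 4 := by
  have h := B.ws_sub_tr1 hx hs
  obtain ⟨h1, h2⟩ := B.coord_tr1 hx
  have h3 : |s| ≤ ρ := abs_le.2 hs
  have h4 := abs_sub s (B.Φ x).2
  have h5 := abs_sub_abs_le_abs_sub (B.ws x s) (B.Φ x).1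
  have := B.ρ_pos
  linarith

theorem abs_wu_le {x : X} (hx : In Λ x0 ρ K x) {u : ℝ} (hu : u ∈ Icc (-ρ) ρ) :
    |B.wu x u| ≤ ρ / 4 := by
  have h := B.wu_sub_tr1 hx hu
  obtain ⟨h1, h2⟩ := B.coord_tr1 hx
  have h3 : |u| ≤ ρ := abs_le.2 hu
  have h4 := abs_sub u (B.Φ x).1
  have h5 := abs_sub_abs_le_abs_sub (B.wu x u) (B.Φ x).2
  have := B.ρ_pos
  linarith

/-- Points of the stable leaf of `x` are forward asymptotic to `x`. -/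
theorem tendsto_ws {x : X} (hx : In Λ x0 ρ K x) {s : ℝ} (hs : s ∈ Icc (-ρ) ρ) :
    Tendsto (fun k : ℕ => dist (F.f^[k] x) (F.f^[k] (B.Ψ (B.ws x s, s)))) atTop (𝓝 0) := by
  refine squeeze_zero (fun _ => dist_nonneg) (fun k => ?_)
    (decay_tr1 (K := K) B.c_pos |(B.Φ x).2 - s|)
  have h : dist (F.f^[k] (B.Ψ (B.ws x (B.Φ x).2, (B.Φ x).2))) (F.f^[k] (B.Ψ (B.ws x s, s))) ≤ _ :=
    B.ws_con x hx _ (B.mem2_tr1 hx) s hs k
  have h2 : B.ws x (B.Φ x).2 = (B.Φ x).1 := B.ws_self x hx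
  rwa [h2, Prod.mk.eta, B.Ψ_Φ (B.in_norm hx).2] at h

/-- Points of the unstable leaf of `x` are backward asymptotic to `x`. -/
theorem dist_wu_le {x : X} (hx : In Λ x0 ρ K x) {u : ℝ} (hu : u ∈ Icc (-ρ) ρ) (k : ℕ) :
    dist (F.g^[k] (B.Ψ (u, B.wu x u))) (F.g^[k] x) ≤
      K * Real.exp (-c * k) * |u - (B.Φ x).1| := by
  have h : dist (F.g^[k] (B.Ψ (u, B.wu x u)))
      (F.g^[k] (B.Ψ ((B.Φ x).1, B.wu x (B.Φ x).1))) ≤ _ :=
    B.wu_con x hx u hu _ (B.mem1_tr1 hx) k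
  have h2 : B.wu x (B.Φ x).1 = (B.Φ x).2 := B.wu_self x hx
  rwa [h2, Prod.mk.eta, B.Ψ_Φ (B.in_norm hx).2] at h

/-- The stable leaf of `y` meets the unstable leaf of `x`. -/
theorem inter {x y : X} (hx : In Λ x0 ρ K x) (hy : In Λ x0 ρ K y) {τ : ℝ} (hτ : τ ≤ ρ / 10)
    (h1 : ‖B.Φ x‖ ≤ τ) (h2 : ‖B.Φ y‖ ≤ τ) :
    ∃ u s : ℝ, |u| ≤ 2 * τ ∧ |s| ≤ 2 * τ ∧ u = B.ws y s ∧ s = B.wu x u := by
  have hτ0 : 0 ≤ τ := (norm_nonneg _).trans h1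
  have hρ := B.ρ_pos
  have hx1 : |(B.Φ x).1| ≤ τ := (norm_fst_le (B.Φ x)).trans h1
  have hx2 : |(B.Φ x).2| ≤ τ := (norm_snd_le (B.Φ x)).trans h1
  have hy1 : |(B.Φ y).1| ≤ τ := (norm_fst_le (B.Φ y)).trans h2
  have hy2 : |(B.Φ y).2| ≤ τ := (norm_snd_le (B.Φ y)).trans h2
  have hsub : Icc (-(2 * τ)) (2 * τ) ⊆ Icc (-ρ) ρ := Icc_subset_Icc (by linarith) (by linarith)
  have hws : ∀ s ∈ Icc (-(2 * τ)) (2 * τ), B.ws y s ∈ Icc (-(2 * τ)) (2 * τ) := by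
    intro s hs
    have h := B.ws_sub_tr1 hy (hsub hs)
    have h3 : |s| ≤ 2 * τ := abs_le.2 hs
    have h4 := abs_sub s (B.Φ y).2
    have h5 := abs_sub_abs_le_abs_sub (B.ws y s) (B.Φ y).1
    exact abs_le.1 (by linarith)
  have hwu : ∀ u ∈ Icc (-(2 * τ)) (2 * τ), B.wu x u ∈ Icc (-(2 * τ)) (2 * τ) := by
    intro u hu
    have h := B.wu_sub_tr1 hx (hsub hu)
    have h3 : |u| ≤ 2 * τ := abs_le.2 hu
    have h4 := abs_sub u (B.Φ x).1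
    have h5 := abs_sub_abs_le_abs_sub (B.wu x u) (B.Φ x).2
    exact abs_le.1 (by linarith)
  have c1 : ContinuousOn (B.ws y) (Icc (-(2 * τ)) (2 * τ)) :=
    (contOn_tr1 (B.ws_lip y hy)).mono hsub
  have c2 : ContinuousOn (B.wu x) (Icc (-(2 * τ)) (2 * τ)) :=
    (contOn_tr1 (B.wu_lip x hx)).mono hsub
  have c3 : ContinuousOn (fun s => B.wu x (B.ws y s) - s) (Icc (-(2 * τ)) (2 * τ)) :=
    (c2.comp c1 hws).sub continuousOn_id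
  have hle : -(2 * τ) ≤ 2 * τ := by linarith
  have e1 := hwu _ (hws _ (left_mem_Icc.2 hle))
  have e2 := hwu _ (hws _ (right_mem_Icc.2 hle))
  obtain ⟨s, hs, h0⟩ := intermediate_value_Icc' hle c3
    (show (0 : ℝ) ∈ Icc _ _ from ⟨by linarith [e2.2], by linarith [e1.1]⟩)
  refine ⟨B.ws y s, s, abs_le.2 (hws s hs), abs_le.2 hs, rfl, ?_⟩
  have h0' : B.wu x (B.ws y s) - s = 0 := h0
  linarith

theorem norm_wu_tr1 {x : X} (hx : In Λ x0 ρ K x) {u : ℝ} (hu : u ∈ Icc (-ρ) ρ) :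
    ‖((u, B.wu x u) : V)‖ ≤ 2 * ρ := by
  have h1 := B.abs_wu_le hx hu
  have h2 : |u| ≤ ρ := abs_le.2 hu
  have := B.ρ_pos
  rw [Prod.norm_def, max_le_iff, Real.norm_eq_abs, Real.norm_eq_abs]
  exact ⟨by linarith, by linarith⟩

/-- Two unstable leaves that meet near the centre are equal near the centre. -/
theorem wu_eq {x x' : X} (hx : In Λ x0 ρ K x) (hx' : In Λ x0 ρ K x') {τ : ℝ} (hτ : τ ≤ ρ)
    (hτ' : 4 * K * τ ≤ ε0) (h1 : |(B.Φ x).1| ≤ τ) (h2 : |(B.Φ x').1| ≤ τ) {u : ℝ} (hu : |u| ≤ τ)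
    (h : B.wu x u = B.wu x' u) : ∀ u', |u'| ≤ τ → B.wu x u' = B.wu x' u' := by
  intro u' hu'
  have _ := h1
  have m1 : u ∈ Icc (-ρ) ρ := abs_le.1 (hu.trans hτ)
  have m2 : u' ∈ Icc (-ρ) ρ := abs_le.1 (hu'.trans hτ)
  have hΦ : B.Φ (B.Ψ (u', B.wu x u')) = (u', B.wu x u') := B.Φ_Ψ (B.norm_wu_tr1 hx m2)
  have key : (B.Φ (B.Ψ (u', B.wu x u'))).2 = B.wu x' (B.Φ (B.Ψ (u', B.wu x u'))).1 := by
    refine B.wu_char x' hx' (B.Ψ (u', B.wu x u')) (fun k => ?_) ?_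
    · have a1 : dist (F.g^[k] (B.Ψ (u', B.wu x u'))) (F.g^[k] (B.Ψ (u, B.wu x u))) ≤ _ :=
        B.wu_con x hx u' m2 u m1 k
      have a2 := B.dist_wu_le hx' m1 k
      rw [← h] at a2
      have a3 := dist_triangle (F.g^[k] (B.Ψ (u', B.wu x u'))) (F.g^[k] (B.Ψ (u, B.wu x u)))
        (F.g^[k] x')
      have b1 : |u' - u| ≤ 2 * τ := by linarith [abs_sub u' u]
      have b2 : |u - (B.Φ x').1| ≤ 2 * τ := by linarith [abs_sub u (B.Φ x').1]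
      have hK := B.one_le
      have hE := Real.exp_pos (-c * k)
      have hKE : 0 ≤ K * Real.exp (-c * k) := by positivity
      have b3 := mul_le_mul_of_nonneg_left b1 hKE
      have b4 := mul_le_mul_of_nonneg_left b2 hKE
      have b5 := mul_le_mul_of_nonneg_right hτ' hE.le
      linarith
    · change |(B.Φ (B.Ψ (u', B.wu x u'))).1| ≤ ρ
      rw [hΦ]
      exact hu'.trans hτ
  rwa [hΦ] at key

/-- Unstable leaves are null for invariant measures without atoms. -/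
theorem leaf_null [CompactSpace X] [BorelSpace X] {μ : Measure X} [IsFiniteMeasure μ]
    (hμ : MeasurePreserving F.f μ μ) (ha : ∀ x, μ {x} = 0) {x : X} (hx : In Λ x0 ρ K x) :
    μ {y | dist y x0 < A.ρ ∧ |(B.Φ y).1| ≤ ρ ∧ (B.Φ y).2 = B.wu x (B.Φ y).1} = 0 := by
  refine null_of_shrink (F.measurePreserving_symm hμ) ha fun γ hγ => ?_
  obtain ⟨k, hk⟩ := ((decay_tr1 (K := K) B.c_pos (2 * ρ)).eventually (ge_mem_nhds hγ)).exists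
  refine ⟨k, F.g^[k] x, ?_⟩
  rintro y ⟨h1, h2, h3⟩
  have h := B.dist_wu_le hx (abs_le.1 h2) k
  rw [← h3, Prod.mk.eta, B.Ψ_Φ h1] at h
  have b1 : |(B.Φ y).1 - (B.Φ x).1| ≤ 2 * ρ := by
    linarith [abs_sub (B.Φ y).1 (B.Φ x).1, (B.coord_tr1 hx).1, B.ρ_pos]
  have hK := B.one_le
  have hKE : 0 ≤ K * Real.exp (-c * k) := by positivity
  have b3 := mul_le_mul_of_nonneg_left b1 hKE
  linarith

end Box

end Pool.Agent.Lib.MP_e7c912_an
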