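import Pool.Agent.Lib.MP_e7c912_an.H51Cond
import Pool.Agent.Lib.MP_e7c912_an.H60Box
import Pool.Agent.Lib.MP_e7c912_an.H60Tr1
import Pool.Agent.Lib.MP_e7c912_an.H60Hopf1

/-! Laminated pieces from Pesin boxes. -/

namespace Pool.Agent.Lib.MP_e7c912_an

open MeasureTheory Filter Metric Set Topology

/-- The image of a piece by a homeomorphism that respects leaves and sets of length zero. -/
noncomputable def Piece.map {Z Z' : Type} [EMetricSpace Z] [MeasurableSpace Z] [BorelSpace Z]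
    [EMetricSpace Z'] [MeasurableSpace Z'] [BorelSpace Z'] {S : Z → Z} {S' : Z' → Z'}
    (Q : Piece S) (e : Z ≃ₜ Z') (hW : ∀ x y, y ∈ Wu S x → e y ∈ Wu S' (e x))
    (hH : ∀ B, Measure.hausdorffMeasure 1 (e '' B) = 0 ↔ Measure.hausdorffMeasure 1 B = 0) :
    Piece S' where
  Y := e.symm ⁻¹' Q.Y
  p := Q.p ∘ e.symm
  u := Q.u ∘ e.symm
  σ y t := e (Q.σ (e.symm y) t)
  τ := Q.τ
  τ_pos := Q.τ_pos
  closed := Q.closed.preimage e.symm.continuous
  mp := Q.mp.comp e.symm.measurable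
  cu := Q.cu.comp e.symm.continuous
  u_mem y hy := Q.u_mem _ hy
  σ_self y hy := by rw [Function.comp_apply, Q.σ_self _ hy, e.apply_symm_apply]
  σ_mem y hy t ht := by
    obtain ⟨h1, h2, h3, h4⟩ := Q.σ_mem _ hy t ht
    refine ⟨by simpa using h1, by simpa using h2, by simpa using h3, ?_⟩
    simpa using hW _ _ h4
  inj y hy y' hy' h1 h2 := e.symm.injective (Q.inj _ hy _ hy' h1 h2)
  σ_cont y hy := e.continuous.comp_continuousOn (Q.σ_cont _ hy)
  null y hy N hN := by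
    rw [← Q.null _ hy N hN, ← hH, image_image]

variable {X : Type} [MetricSpace X] [CompactSpace X] [MeasurableSpace X] [BorelSpace X]
  {A : Atlas X}

namespace Box

variable {F : Dif A} {Λ : Set X} {x0 : X} {ρ K c ε0 : ℝ} (B : Box F Λ x0 ρ K c ε0)

/-- The point `y` is on the short local leaf of `x`. -/
def Rl (τ : ℝ) (x y : X) : Prop :=
  dist y x0 ≤ A.ρ / 2 ∧ |(B.Φ y).1| ≤ τ ∧
    ∀ k : ℕ, dist (F.g^[k] y) (F.g^[k] x) ≤ ε0 * Real.exp (-c * k)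

omit [CompactSpace X] [BorelSpace X] in
theorem isClosed_rl (τ : ℝ) : IsClosed {w : X × X | B.Rl τ w.1 w.2} := by
  have h1 := B.continuous_Φ
  have h2 : ∀ k : ℕ, Continuous F.g^[k] := fun k => F.smg.1.iterate k
  simp only [Rl, ofPred_and, ofPred_forall]
  exact (isClosed_le (by fun_prop) continuous_const).inter
    ((isClosed_le (by fun_prop) continuous_const).inter (isClosed_iInter fun k =>
      isClosed_le (((h2 k).comp continuous_snd).dist ((h2 k).comp continuous_fst))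
        continuous_const))

omit [CompactSpace X] [BorelSpace X] in
theorem Rl.eq {τ : ℝ} (hτ : τ ≤ ρ) {x y : X} (hx : In Λ x0 ρ K x) (h : B.Rl τ x y) :
    (B.Φ y).2 = B.wu x (B.Φ y).1 ∧ B.Ψ ((B.Φ y).1, B.wu x (B.Φ y).1) = y := by
  have h1 : (B.Φ y).2 = B.wu x (B.Φ y).1 := B.wu_char x hx y h.2.2 (h.2.1.trans hτ)
  refine ⟨h1, ?_⟩
  rw [← h1]
  exact B.Ψ_Φ (by linarith [h.1, A.ρ_pos])

omit [CompactSpace X] [BorelSpace X] in
theorem rl_Ψ {τ : ℝ} (hτ : τ ≤ ρ) (hτ' : 4 * K * τ ≤ ε0) {x : X} (hx : In Λ x0 ρ K x)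
    (hx' : |(B.Φ x).1| ≤ τ) {t : ℝ} (ht : |t| ≤ τ) :
    B.Rl τ x (B.Ψ (t, B.wu x t)) ∧ B.Φ (B.Ψ (t, B.wu x t)) = (t, B.wu x t) := by
  have m : t ∈ Icc (-ρ) ρ := abs_le.1 (ht.trans hτ)
  have h1 := B.Φ_Ψ (B.norm_wu_tr1 hx m)
  refine ⟨⟨B.dist_Ψ_lt (B.norm_wu_tr1 hx m), by rwa [h1], fun k => ?_⟩, h1⟩
  refine (B.dist_wu_le hx m k).trans ?_
  have h2 : |t - (B.Φ x).1| ≤ 2 * τ := by linarith [abs_sub t (B.Φ x).1]
  have hK := B.one_le
  have hE := Real.exp_pos (-c * k)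
  have h3 : 0 ≤ K * τ := mul_nonneg (by linarith) ((abs_nonneg _).trans ht)
  calc _ ≤ K * Real.exp (-c * k) * (2 * τ) := by gcongr
    _ = 2 * (K * τ) * Real.exp (-c * k) := by ring
    _ ≤ ε0 * Real.exp (-c * k) := by gcongr; linarith

/-- The piece filled by the short local leaves of the points of a compact set. -/
theorem exists_piece {τ : ℝ} (h0 : 0 < τ) (hτ : τ ≤ ρ) (hτ' : 4 * K * τ ≤ ε0) {C : Set X}
    (hC : IsCompact C) (hin : ∀ x ∈ C, In Λ x0 ρ K x ∧ |(B.Φ x).1| ≤ τ) :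
    ∃ Q : Piece F.g, Q.τ = τ ∧ (Q.u = fun y => (B.Φ y).1) ∧
      ∀ x ∈ C, ∀ y, B.Rl τ x y → y ∈ Q.Y ∧ Q.p y = B.wu x 0 := by
  classical
  set Y : Set X := {y | ∃ x ∈ C, B.Rl τ x y} with hY
  have hb : ∀ y, ∃ x, y ∈ Y → x ∈ C ∧ B.Rl τ x y := fun y => by
    by_cases h : y ∈ Y
    · obtain ⟨x, h1, h2⟩ := h
      exact ⟨x, fun _ => ⟨h1, h2⟩⟩
    · exact ⟨x0, fun h' => absurd h' h⟩
  choose b hb using hb
  have agree : ∀ x ∈ C, ∀ x' ∈ C, ∀ u, |u| ≤ τ → B.wu x u = B.wu x' u → ∀ t, |t| ≤ τ →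
      B.wu x t = B.wu x' t := fun x hx x' hx' u hu h =>
    B.wu_eq (hin x hx).1 (hin x' hx').1 hτ hτ' (hin x hx).2 (hin x' hx').2 hu h
  have h00 : |(0 : ℝ)| ≤ τ := by simpa using h0.le
  set p : X → ℝ := fun y => if y ∈ Y then B.wu (b y) 0 else 0 with hp
  have hpx : ∀ x ∈ C, ∀ y, B.Rl τ x y → p y = B.wu x 0 := by
    intro x hx y h
    have hy : y ∈ Y := ⟨x, hx, h⟩
    simp only [hp, if_pos hy]
    refine agree _ (hb y hy).1 x hx _ h.2.1 ?_ 0 h00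
    exact (Rl.eq B hτ (hin _ (hb y hy).1).1 (hb y hy).2).1.symm.trans
      (Rl.eq B hτ (hin x hx).1 h).1
  have hYc : IsClosed Y := by
    have h1 : Y = Prod.snd '' (C ×ˢ univ ∩ {w : X × X | B.Rl τ w.1 w.2}) := by
      ext y
      constructor
      · rintro ⟨x, h1, h2⟩
        exact ⟨(x, y), ⟨⟨h1, trivial⟩, h2⟩, rfl⟩
      · rintro ⟨w, ⟨h1, h2⟩, rfl⟩
        exact ⟨w.1, h1.1, h2⟩
    rw [h1]
    exact (((hC.prod isCompact_univ).inter_right (B.isClosed_rl τ)).image continuous_snd).isClosed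
  have hΨ : ∀ y ∈ Y, ∀ t ∈ Icc (-τ) τ, B.Rl τ (b y) (B.Ψ (t, B.wu (b y) t)) ∧
      B.Φ (B.Ψ (t, B.wu (b y) t)) = (t, B.wu (b y) t) := fun y hy t ht =>
    B.rl_Ψ hτ hτ' (hin _ (hb y hy).1).1 (hin _ (hb y hy).1).2 (abs_le.2 ht)
  have hsub : Icc (-τ) τ ⊆ Icc (-ρ) ρ := Icc_subset_Icc (by linarith) hτ
  have hlip : ∀ y ∈ Y, ∀ s ∈ Icc (-τ) τ, ∀ t ∈ Icc (-τ) τ,
      dist (B.Ψ (s, B.wu (b y) s)) (B.Ψ (t, B.wu (b y) t)) ≤ A.K * |s - t| := by
    intro y hy s hs t ht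
    have h1 := (hin _ (hb y hy).1).1
    refine (B.dist_Ψ_le (B.norm_wu_tr1 h1 (hsub hs)) (B.norm_wu_tr1 h1 (hsub ht))).trans ?_
    refine mul_le_mul_of_nonneg_left ?_ (by linarith [A.one_le_K])
    have h2 := B.wu_lip _ h1 s (hsub hs) t (hsub ht)
    rw [Prod.mk_sub_mk, Prod.norm_mk, Real.norm_eq_abs, Real.norm_eq_abs]
    exact max_le le_rfl (by linarith [abs_nonneg (s - t)])
  refine ⟨⟨Y, p, fun y => (B.Φ y).1, fun y t => B.Ψ (t, B.wu (b y) t), τ, h0, hYc, ?_,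
    B.continuous_Φ.fst, fun y hy => abs_le.1 (hb y hy).2.2.1,
    fun y hy => (Rl.eq B hτ (hin _ (hb y hy).1).1 (hb y hy).2).2, fun y hy t ht => ?_,
    fun y hy y' hy' h1 h2 => ?_, fun y hy => ?_, fun y hy N hN => ⟨fun h => ?_, fun h => ?_⟩⟩,
    rfl, rfl, fun x hx y h => ⟨⟨x, hx, h⟩, hpx x hx y h⟩⟩
  · refine measurable_of_isClosed fun D hD => ?_
    have hc := B.continuous_Φ
    have h1 : p ⁻¹' D = (fun w : X × X × X => w.2.1) '' (C ×ˢ univ ∩
        ({w : X × X × X | B.Rl τ w.1 w.2.1} ∩ ({w : X × X × X | B.Rl τ w.1 w.2.2} ∩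
          ({w : X × X × X | (B.Φ w.2.2).1 = 0} ∩ {w : X × X × X | (B.Φ w.2.2).2 ∈ D})))) ∪
        Yᶜ ∩ {_y | (0 : ℝ) ∈ D} := by
      ext y
      constructor
      · intro hy
        by_cases h : y ∈ Y
        · obtain ⟨h2, h3⟩ := hΨ y h 0 (abs_le.1 h00)
          refine Or.inl ⟨(b y, y, B.Ψ (0, B.wu (b y) 0)),
            ⟨⟨(hb y h).1, trivial⟩, (hb y h).2, h2, congrArg Prod.fst h3, ?_⟩, rfl⟩
          have h4 : p y ∈ D := hy
          rw [hpx _ (hb y h).1 y (hb y h).2] at h4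
          change (B.Φ (B.Ψ (0, B.wu (b y) 0))).2 ∈ D
          rwa [h3]
        · refine Or.inr ⟨h, ?_⟩
          have h4 : p y ∈ D := hy
          simp only [hp, if_neg h] at h4
          exact h4
      · rintro (⟨w, ⟨h2, h3, h4, h5, h6⟩, rfl⟩ | ⟨h2, h3⟩)
        · change p w.2.1 ∈ D
          have h7 := (Rl.eq B hτ (hin _ h2.1).1 h4).1
          have h8 : (B.Φ w.2.2).1 = 0 := h5
          rw [h8] at h7
          rw [hpx _ h2.1 _ h3, ← h7]
          exact h6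
        · change p y ∈ D
          have h4 : y ∉ Y := h2
          simp only [hp, if_neg h4]
          exact h3
    rw [h1]
    refine MeasurableSet.union (IsClosed.measurableSet (IsCompact.isClosed (IsCompact.image
      ((hC.prod isCompact_univ).inter_right ?_) (by fun_prop))))
      (hYc.measurableSet.compl.inter (MeasurableSet.const _))
    exact ((B.isClosed_rl τ).preimage (f := fun w : X × X × X => (w.1, w.2.1)) (by fun_prop)).inter
      (((B.isClosed_rl τ).preimage (f := fun w : X × X × X => (w.1, w.2.2)) (by fun_prop)).inter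
        ((isClosed_eq (by fun_prop) continuous_const).inter
          (hD.preimage (f := fun w : X × X × X => (B.Φ w.2.2).2) (by fun_prop))))
  · obtain ⟨h1, h2⟩ := hΨ y hy t ht
    refine ⟨⟨_, (hb y hy).1, h1⟩, ?_, congrArg Prod.fst h2, ?_⟩
    · rw [hpx _ (hb y hy).1 _ h1, hpx _ (hb y hy).1 _ (hb y hy).2]
    · refine wu_of_le_hp1 (K := 2 * ε0) B.c_pos (Eventually.of_forall fun k => ?_)
      have h3 := dist_triangle_right (F.g^[k] y) (F.g^[k] (B.Ψ (t, B.wu (b y) t))) (F.g^[k] (b y))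
      linarith [h1.2.2 k, (hb y hy).2.2.2 k]
  · rw [hpx _ (hb y hy).1 _ (hb y hy).2, hpx _ (hb y' hy').1 _ (hb y' hy').2] at h1
    have h3 := agree _ (hb y hy).1 _ (hb y' hy').1 0 h00 h1 _ (hb y hy).2.2.1
    have h4 : (B.Φ y).1 = (B.Φ y').1 := h2
    rw [← (Rl.eq B hτ (hin _ (hb y hy).1).1 (hb y hy).2).2, h3, h4]
    exact (Rl.eq B hτ (hin _ (hb y' hy').1).1 (hb y' hy').2).2
  · refine (LipschitzOnWith.of_dist_le_mul (K := A.K.toNNReal) fun s hs t ht => ?_).continuousOn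
    exact (hlip y hy s hs t ht).trans
      (mul_le_mul_of_nonneg_right (Real.le_coe_toNNReal _) (abs_nonneg _))
  · refine null_of_hausdorff_image (K := K) hN (fun s hs t ht => ?_) h
    have h1 := B.norm_Φ_sub_le (B.Ψ (s, B.wu (b y) s)) (B.Ψ (t, B.wu (b y) t))
    rw [(hΨ y hy s hs).2, (hΨ y hy t ht).2] at h1
    exact (norm_fst_le ((s, B.wu (b y) s) - (t, B.wu (b y) t) : V)).trans h1
  · exact hausdorff_image_null hN (hlip y hy) h

omit [CompactSpace X] [BorelSpace X] in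
/-- A point of the global leaf is pulled back to a short local leaf. -/
theorem pull_rl {τ : ℝ} (h0 : 0 < τ) {C : Set X}
    (hin : ∀ x ∈ C, In Λ x0 ρ K x ∧ |(B.Φ x).1| ≤ τ / 2) {x y : X}
    (hx : ∃ᶠ n : ℕ in atTop, F.g^[n] x ∈ C) {c1 : ℝ} (hc1 : c ≤ c1)
    (hy : ∀ᶠ n : ℕ in atTop,
      edist (F.g^[n] x) (F.g^[n] y) ≤ ENNReal.ofReal (Real.exp (-c1 * n))) :
    ∃ n : ℕ, F.g^[n] x ∈ C ∧ B.Rl τ (F.g^[n] x) (F.g^[n] x) ∧ B.Rl τ (F.g^[n] x) (F.g^[n] y) := by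
  have hc := B.c_pos
  have hK := B.one_le
  have hε := B.ε0_pos
  have hA := A.ρ_pos
  set m : ℝ := min ε0 (min (τ / (2 * K)) (A.ρ / 4)) with hm
  have hm0 : 0 < m := by positivity
  obtain ⟨N0, hN0⟩ := eventually_atTop.1 hy
  obtain ⟨n, hn, hn1, hn2⟩ := (hx.and_eventually
    (((tendsto_exp_br4 (hc.trans_le hc1)).eventually (ge_mem_nhds hm0)).and
      (eventually_ge_atTop N0))).exists
  have hd : ∀ k : ℕ, dist (F.g^[k] (F.g^[n] y)) (F.g^[k] (F.g^[n] x)) ≤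
      m * Real.exp (-c * k) := by
    intro k
    have h2 := hN0 (k + n) (by omega)
    rw [edist_dist, ENNReal.ofReal_le_ofReal_iff (Real.exp_pos _).le,
      Function.iterate_add_apply, Function.iterate_add_apply, dist_comm] at h2
    refine h2.trans ?_
    have h3 : Real.exp (-c1 * ((k + n : ℕ) : ℝ)) = Real.exp (-c1 * n) * Real.exp (-c1 * k) := by
      rw [← Real.exp_add]; push_cast; ring_nf
    rw [h3]
    have h4 : Real.exp (-c1 * k) ≤ Real.exp (-c * k) := by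
      refine Real.exp_le_exp.2 ?_
      have : (0 : ℝ) ≤ k := Nat.cast_nonneg k
      nlinarith
    exact mul_le_mul hn1 h4 (Real.exp_pos _).le hm0.le
  have hd0 : dist (F.g^[n] y) (F.g^[n] x) ≤ m := by simpa using hd 0
  have hm1 : m ≤ ε0 := min_le_left _ _
  have hm2 : m ≤ τ / (2 * K) := (min_le_right _ _).trans (min_le_left _ _)
  have hm3 : m ≤ A.ρ / 4 := (min_le_right _ _).trans (min_le_right _ _)
  obtain ⟨h1, h2⟩ := hin _ hn
  have h3 : dist (F.g^[n] x) x0 ≤ A.ρ / 4 := by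
    have h5 : ρ / (10 * K) ≤ ρ / 10 := by
      apply div_le_div_of_nonneg_left B.ρ_pos.le (by norm_num); linarith
    linarith [h1.2, B.two_ρ_tr1, B.ρ_pos]
  refine ⟨n, hn, ⟨by linarith, by linarith, fun k => by rw [dist_self]; positivity⟩,
    by linarith [dist_triangle (F.g^[n] y) (F.g^[n] x) x0], ?_, fun k => (hd k).trans (by gcongr)⟩
  have h5 := (norm_fst_le _).trans (B.norm_Φ_sub_le (F.g^[n] y) (F.g^[n] x))
  have h7 : K * dist (F.g^[n] y) (F.g^[n] x) ≤ τ / 2 := by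
    calc _ ≤ K * (τ / (2 * K)) := by gcongr; exact hd0.trans hm2
      _ = τ / 2 := by field_simp
  rw [Prod.fst_sub, Real.norm_eq_abs] at h5
  linarith [abs_sub_abs_le_abs_sub (B.Φ (F.g^[n] y)).1 (B.Φ (F.g^[n] x)).1]

end Box

theorem exists_piece_level (F : Dif A) {μ : Measure X} [IsProbabilityMeasure μ]
    (he : Ergodic F.f μ) (hl : ∀ᵐ x ∂μ, 0 < l1 (A.coc F.f) x ∧ l2 (A.coc F.f) x < 0) {c0 : ℝ}
    (hc0 : 0 < c0) : ∃ Q : Piece F.g, μ {y | |Q.u y| = Q.τ} = 0 ∧ ∀ᵐ x ∂μ, ∀ y c1, c0 ≤ c1 →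
      (∀ᶠ n : ℕ in atTop, edist (F.g^[n] x) (F.g^[n] y) ≤ ENNReal.ofReal (Real.exp (-c1 * n))) →
      ∃ n : ℕ, F.g^[n] x ∈ Q.Y ∧ F.g^[n] y ∈ Q.L (F.g^[n] x) := by
  obtain ⟨Λ, hΛ, h2⟩ := pesin F μ he.toMeasurePreserving hc0
  obtain ⟨l, hl0⟩ : ∃ l, μ (Λ l) ≠ 0 := by
    by_contra hc
    push Not at hc
    have h3 : ∀ᵐ x ∂μ, False := by
      filter_upwards [h2, hl, measure_eq_zero_iff_ae_notMem.1 (measure_iUnion_null hc)]
        with x hx hx' h4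
      exact h4 (mem_iUnion.2 (hx hx'.1 hx'.2))
    exact h3.exists.choose_spec
  obtain ⟨hm, ρ, K, c, ε0, hρ, hK, hc, hcc, hε, hB⟩ := hΛ l
  set τ0 : ℝ := min ρ (ε0 / (4 * K)) with hτ0
  have hτ : 0 < τ0 := by positivity
  obtain ⟨x0, hx0, hpos⟩ := exists_ball_pos hl0 (γ := min (ρ / (10 * K)) (τ0 / (4 * K)))
    (by positivity)
  obtain ⟨B⟩ := hB x0 hx0
  obtain ⟨τ, h3, h4⟩ := ((Measure.countable_meas_level_set_pos (μ := μ)
    B.continuous_Φ.fst.abs.measurable).dense_compl ℝ).exists_mem_open isOpen_Ioo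
      (nonempty_Ioo.2 (half_lt_self hτ))
  obtain ⟨C, hCs, hC, hC0⟩ := (hm.inter measurableSet_closedBall).exists_lt_isCompact
    (pos_iff_ne_zero.2 hpos)
  have hin : ∀ x ∈ C, In (Λ l) x0 ρ K x ∧ |(B.Φ x).1| ≤ τ / 2 := by
    intro x hx
    have h5 := mem_closedBall.1 (hCs hx).2
    refine ⟨⟨(hCs hx).1, h5.trans (min_le_left _ _)⟩, ?_⟩
    have h6 := (norm_fst_le _).trans (B.norm_Φ_sub_le x x0)
    rw [B.Φ_self, sub_zero, Real.norm_eq_abs] at h6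
    have h7 : K * dist x x0 ≤ τ0 / 4 := by
      calc _ ≤ K * (τ0 / (4 * K)) := by gcongr; exact h5.trans (min_le_right _ _)
        _ = τ0 / 4 := by field_simp
    linarith [h4.1]
  have h0 : 0 < τ := (half_pos hτ).trans h4.1
  obtain ⟨Q, h5, h6, h7⟩ := B.exists_piece h0 (h4.2.le.trans (min_le_left _ _))
    ((le_div_iff₀' (by positivity)).1 (h4.2.le.trans (min_le_right _ _))) hC
    fun x hx => ⟨(hin x hx).1, by linarith [(hin x hx).2]⟩
  refine ⟨Q, ?_, ?_⟩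
  · rw [h5, h6]
    exact nonpos_iff_eq_zero.1 (not_lt.1 h3)
  · filter_upwards [ergodic_freq (ergodic_inv he F.smg.1.measurable F.gf F.fg) hC.measurableSet
      hC0.ne'] with x hx y c1 h8 h9
    obtain ⟨n, h10, h11, h12⟩ := B.pull_rl h0 hin hx (hcc.trans h8) h9
    exact ⟨n, (h7 _ h10 _ h11).1, (h7 _ h10 _ h12).1,
      (h7 _ h10 _ h12).2.trans (h7 _ h10 _ h11).2.symm⟩

/-- The iterate as a homeomorphism. -/
def Dif.homeo (F : Dif A) (n : ℕ) : X ≃ₜ X where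
  toFun := F.f^[n]
  invFun := F.g^[n]
  left_inv := F.gf_iter n
  right_inv := F.fg_iter n
  continuous_toFun := F.smf.1.iterate n
  continuous_invFun := F.smg.1.iterate n

theorem exists_lam (F : Dif A) {μ : Measure X} [IsProbabilityMeasure μ] (he : Ergodic F.f μ)
    (hl : ∀ᵐ x ∂μ, 0 < l1 (A.coc F.f) x ∧ l2 (A.coc F.f) x < 0) :
    ∃ P : ℕ → Piece F.g, Lam F.g μ P := by
  choose Q hQ hQ' using fun j : ℕ => exists_piece_level F he hl (Nat.one_div_pos_of_nat (n := j))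
  have hW : ∀ n x y, y ∈ Wu F.g x → F.homeo n y ∈ Wu F.g (F.homeo n x) := by
    intro n x y h
    obtain ⟨L, -, hL⟩ := (F.smf.iter n).lip
    exact wu_map_hp1 hL (Function.Commute.iterate_left
      (fun z => (F.fg z).trans (F.gf z).symm) n) h
  have hH : ∀ n B, Measure.hausdorffMeasure 1 (F.homeo n '' B) = 0 ↔
      Measure.hausdorffMeasure 1 B = 0 := by
    intro n B
    obtain ⟨L, -, hL⟩ := (F.smf.iter n).lip
    obtain ⟨L', -, hL'⟩ := (F.smg.iter n).lip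
    refine ⟨fun h => ?_, hausdorff_lip_null hL⟩
    refine measure_mono_null (fun y hy => ?_) (hausdorff_lip_null hL' h)
    exact ⟨_, mem_image_of_mem _ hy, F.gf_iter n y⟩
  refine ⟨fun m => (Q m.unpair.1).map (F.homeo m.unpair.2) (hW _) (hH _), ?_, fun m => ?_⟩
  · filter_upwards [ae_all_iff.2 hQ'] with x hx y ⟨c1, hc1, hy⟩
    obtain ⟨j, hj⟩ := exists_nat_one_div_lt hc1
    obtain ⟨n, h1, h2⟩ := hx j y c1 hj.le hy
    refine ⟨Nat.pair j n, ?_⟩
    rw [Nat.unpair_pair]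
    exact ⟨h1, h2⟩
  · exact ((F.measurePreserving_symm he.toMeasurePreserving).iterate
      m.unpair.2).quasiMeasurePreserving.preimage_null (hQ m.unpair.1)

end Pool.Agent.Lib.MP_e7c912_an
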