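import Pool.Agent.Lib.MP_e7c912_an.H51Lam

/-! Leafwise absolute continuity is absolute continuity of the conditional measures. -/

namespace Pool.Agent.Lib.MP_e7c912_an

open MeasureTheory ProbabilityTheory Filter Set Topology
open scoped ENNReal NNReal

theorem cond_apply {Z : Type} [MeasurableSpace Z] {μ : Measure Z} [IsFiniteMeasure μ] {ξ : Z → ℝ}
    (hξ : Measurable ξ) (κ : Kernel ℝ Z) [IsMarkovKernel κ]
    [(μ.map fun x => (ξ x, x)).IsCondKernel κ] {D : Set (ℝ × Z)} (hD : MeasurableSet D) :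
    μ {x | (ξ x, x) ∈ D} = ∫⁻ r, κ r (Prod.mk r ⁻¹' D) ∂(μ.map ξ) := by
  have h := (μ.map fun x => (ξ x, x)).disintegrate κ
  rw [Measure.fst_map_prodMk measurable_id'] at h
  rw [← Measure.compProd_apply hD, h, Measure.map_apply (hξ.prodMk measurable_id') hD]
  rfl

theorem cond_null {Z : Type} [MeasurableSpace Z] {μ : Measure Z} [IsFiniteMeasure μ] {ξ : Z → ℝ}
    (hξ : Measurable ξ) (κ : Kernel ℝ Z) [IsMarkovKernel κ]
    [(μ.map fun x => (ξ x, x)).IsCondKernel κ] {D : Set (ℝ × Z)} (hD : MeasurableSet D) :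
    μ {x | (ξ x, x) ∈ D} = 0 ↔ ∀ᵐ x ∂μ, κ (ξ x) (Prod.mk (ξ x) ⁻¹' D) = 0 := by
  have hm : Measurable fun r => κ r (Prod.mk r ⁻¹' D) := Kernel.measurable_kernel_prodMk_left hD
  rw [cond_apply hξ κ hD, lintegral_eq_zero_iff hm]
  exact ae_map_iff hξ.aemeasurable (hm (measurableSet_singleton 0))

/-- Conditioning a product with Lebesgue measure on a function of the first coordinate. -/
theorem prod_ac {ν lam : Measure ℝ} [IsFiniteMeasure ν] [IsFiniteMeasure lam] {g : ℝ → ℝ}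
    (hg : Measurable g) : ∃ η : Kernel ℝ ℝ, IsMarkovKernel η ∧
      (ν.prod lam).map (fun z => (g z.1, z)) ≪ ν.map g ⊗ₘ (η ×ₖ Kernel.const ℝ lam) := by
  set η := (ν.map fun s => (g s, s)).condKernel with hη
  refine ⟨η, inferInstance, Measure.AbsolutelyContinuous.mk fun D hD h0 => ?_⟩
  have hm : Measurable fun z : ℝ × ℝ => (g z.1, z) := by fun_prop
  have hF : Measurable fun w : ℝ × ℝ => lam {t | (w.1, (w.2, t)) ∈ D} :=
    measurable_measure_prodMk_left (ν := lam)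
      (s := (fun v : (ℝ × ℝ) × ℝ => (v.1.1, (v.1.2, v.2))) ⁻¹' D) (by measurability)
  have h1 := (ν.map fun s => (g s, s)).disintegrate η
  rw [Measure.fst_map_prodMk measurable_id'] at h1
  rw [Measure.map_apply hm hD, Measure.prod_apply (hm hD)]
  have h2 : ∫⁻ s, lam (Prod.mk s ⁻¹' ((fun z : ℝ × ℝ => (g z.1, z)) ⁻¹' D)) ∂ν =
      ∫⁻ w, lam {t | (w.1, (w.2, t)) ∈ D} ∂(ν.map fun s => (g s, s)) := by
    rw [lintegral_map hF (hg.prodMk measurable_id')]
    rfl
  rw [h2, ← h1, Measure.lintegral_compProd hF, ← h0, Measure.compProd_apply hD]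
  refine lintegral_congr fun r => ?_
  rw [Kernel.prod_apply, Kernel.const_apply, Measure.prod_apply (measurable_prodMk_left hD)]
  rfl

variable {Z : Type} [EMetricSpace Z] [MeasurableSpace Z] [BorelSpace Z] [StandardBorelSpace Z]
  {S : Z → Z} {μ : Measure Z}

omit [StandardBorelSpace Z] in
theorem Piece.injOn (Q : Piece S) : InjOn (fun y => (Q.p y, Q.u y)) Q.Y := fun y hy y' hy' h =>
  Q.inj y hy y' hy' (congrArg Prod.fst h) (congrArg Prod.snd h)

/-- Where the atoms are unions of arcs, the conditional measures do not see sets of length zero. -/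
theorem Piece.kernel_null [IsFiniteMeasure μ] (Q : Piece S)
    (hQ : (μ.restrict Q.Y).map (fun y => (Q.p y, Q.u y)) ≪
      ((μ.restrict Q.Y).map Q.p).prod (volume.restrict (Icc (-Q.τ) Q.τ)))
    {ξ : Z → ℝ} (hξ : Measurable ξ) (κ : Kernel ℝ Z) [IsMarkovKernel κ]
    [(μ.map fun x => (ξ x, x)).IsCondKernel κ] {g : ℝ → ℝ} (hg : Measurable g) :
    ∀ᵐ x ∂μ, ∀ N, MeasurableSet N → Measure.hausdorffMeasure 1 N = 0 →
      κ (ξ x) (N ∩ {y | y ∈ Q.Y ∧ ξ y = g (Q.p y)}) = 0 := by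
  set E : Set Z := {y | y ∈ Q.Y ∧ ξ y = g (Q.p y)} with hE
  have hEm : MeasurableSet E := Q.measurableSet_Y.inter (measurableSet_eq_fun hξ (hg.comp Q.mp))
  set φ : Z → ℝ × ℝ := fun y => (Q.p y, Q.u y) with hφ
  have hm : Measurable φ := Q.mp.prodMk Q.cu.measurable
  obtain ⟨η, hη, h1⟩ := prod_ac (ν := (μ.restrict Q.Y).map Q.p)
    (lam := volume.restrict (Icc (-Q.τ) Q.τ)) hg
  have hψ : Measurable fun z : ℝ × ℝ => (g z.1, z) := by fun_prop
  have h2 : μ.map ξ ⊗ₘ ((κ.restrict hEm).map φ) ≪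
      ((μ.restrict Q.Y).map φ).map fun z => (g z.1, z) := by
    refine Measure.AbsolutelyContinuous.mk fun D hD h0 => ?_
    rw [Measure.map_apply hψ hD, Measure.map_apply hm (hψ hD),
      Measure.restrict_apply (hm (hψ hD))] at h0
    have hD' : MeasurableSet {w : ℝ × Z | (w.1, φ w.2) ∈ D ∧ w.2 ∈ E} :=
      ((measurable_fst.prodMk (hm.comp measurable_snd)) hD).inter (measurable_snd hEm)
    have h3 : μ {x | (ξ x, x) ∈ {w : ℝ × Z | (w.1, φ w.2) ∈ D ∧ w.2 ∈ E}} = 0 := by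
      refine measure_mono_null ?_ h0
      rintro y ⟨h4, h5⟩
      refine ⟨?_, h5.1⟩
      have h6 : (ξ y, φ y) ∈ D := h4
      rw [h5.2] at h6
      exact h6
    rw [Measure.compProd_apply hD, ← h3, cond_apply hξ κ hD']
    refine lintegral_congr fun r => ?_
    rw [Kernel.map_apply' _ hm _ (measurable_prodMk_left hD),
      Kernel.restrict_apply' _ _ _ (hm (measurable_prodMk_left hD))]
    rfl
  have h4 := ((h2.trans (hQ.map hψ)).trans h1).kernel_of_compProd
  filter_upwards [ae_of_ae_map hξ.aemeasurable h4] with x hx N hN h0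
  have hI : MeasurableSet (φ '' (N ∩ Q.Y)) :=
    (hN.inter Q.measurableSet_Y).image_of_measurable_injOn hm (Q.injOn.mono inter_subset_right)
  have h5 : (η ×ₖ Kernel.const ℝ (volume.restrict (Icc (-Q.τ) Q.τ))) (ξ x) (φ '' (N ∩ Q.Y)) = 0 := by
    rw [Kernel.prod_apply, Kernel.const_apply, Measure.prod_apply hI]
    refine lintegral_eq_zero_of_ae_eq_zero (Eventually.of_forall fun s => ?_)
    change volume.restrict (Icc (-Q.τ) Q.τ) (Prod.mk s ⁻¹' (φ '' (N ∩ Q.Y))) = 0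
    rw [Measure.restrict_apply (measurable_prodMk_left hI)]
    rcases (Prod.mk s ⁻¹' (φ '' (N ∩ Q.Y))).eq_empty_or_nonempty with h | ⟨t0, y, hy, h⟩
    · rw [h, empty_inter, measure_empty]
    · refine (Q.null y hy.2 _ inter_subset_right).1 (measure_mono_null ?_ h0)
      rintro _ ⟨t, ⟨⟨z, hz, h6⟩, -⟩, rfl⟩
      have h7 : Q.p z = Q.p y := (congrArg Prod.fst h6).trans (congrArg Prod.fst h).symm
      have h8 : Q.u z = t := congrArg Prod.snd h6
      rw [← h8, Q.eq_σ hy.2 ⟨hz.2, h7⟩]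
      exact hz.1
  have h6 := hx h5
  rw [Kernel.map_apply' _ hm _ hI, Kernel.restrict_apply' _ _ _ (hm hI)] at h6
  refine measure_mono_null ?_ h6
  rintro y ⟨h7, h8⟩
  exact ⟨⟨y, ⟨h7, h8.1⟩, rfl⟩, h8⟩

/-- The value of `ξ` at the point of coordinate `q` is a measurable function of the label. -/
theorem Piece.exists_label (Q : Piece S) {ξ : Z → ℝ} (hξ : Measurable ξ) (q : ℝ) :
    ∃ g : ℝ → ℝ, Measurable g ∧ ∀ y ∈ Q.Y, q ∈ Icc (-Q.τ) Q.τ → g (Q.p y) = ξ (Q.σ y q) := by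
  set W : Set Z := {z | z ∈ Q.Y ∧ Q.u z = q} with hW
  have hWm : MeasurableSet W :=
    Q.measurableSet_Y.inter (Q.cu.measurable (measurableSet_singleton q))
  have := hWm.standardBorel
  have he : MeasurableEmbedding fun z : W => Q.p z :=
    (Q.mp.comp measurable_subtype_coe).measurableEmbedding fun z z' h =>
      Subtype.ext (Q.inj _ z.2.1 _ z'.2.1 h (z.2.2.trans z'.2.2.symm))
  obtain ⟨g, hg, h⟩ := he.exists_measurable_extend (hξ.comp measurable_subtype_coe)
    fun _ => inferInstance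
  refine ⟨g, hg, fun y hy hq => ?_⟩
  obtain ⟨h1, h2, h3, -⟩ := Q.σ_mem y hy q hq
  rw [← h2]
  exact congrFun h ⟨_, h1, h3⟩

omit [StandardBorelSpace Z] in
/-- An arc inside the leaf of `x` contains a point of rational coordinate of an arc through `x`. -/
theorem exists_rat_mem {P : ℕ → Piece S} {x : Z}
    (hx : ∀ y ∈ Wu S x, ∃ i, x ∈ (P i).Y ∧ y ∈ (P i).L x) {γ : ℝ → Z} (hc : Continuous γ)
    (hi : Function.Injective γ) (hγ : ∀ t, γ t ∈ Wu S x) :
    ∃ (i : ℕ) (q : ℚ) (t : ℝ), x ∈ (P i).Y ∧ (q : ℝ) ∈ Icc (-(P i).τ) (P i).τ ∧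
      (P i).σ x q = γ t := by
  obtain ⟨i, a, ha⟩ := nonempty_interior_of_iUnion_of_closed
    (f := fun i => {t | x ∈ (P i).Y ∧ γ t ∈ (P i).L x}) (fun i => by
      by_cases h : x ∈ (P i).Y
      · simp only [h, true_and]
        exact ((P i).isClosed_L h).preimage hc
      · simp [h]) (eq_univ_of_forall fun t => mem_iUnion.2 (hx _ (hγ t)))
  obtain ⟨ε, hε, hb⟩ := Metric.mem_nhds_iff.1 (mem_interior_iff_mem_nhds.1 ha)
  have hs : ∀ t ∈ uIcc a (a + ε / 2), x ∈ (P i).Y ∧ γ t ∈ (P i).L x := by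
    intro t ht
    rw [uIcc_of_le (by linarith)] at ht
    refine hb ?_
    rw [Metric.mem_ball, Real.dist_eq, abs_lt]
    constructor <;> linarith [ht.1, ht.2]
  obtain ⟨hxi, h1⟩ := hs a left_mem_uIcc
  obtain ⟨-, h2⟩ := hs _ right_mem_uIcc
  have hne : (P i).u (γ a) ≠ (P i).u (γ (a + ε / 2)) := by
    intro h
    have := hi ((P i).inj _ h1.1 _ h2.1 (h1.2.trans h2.2.symm) h)
    linarith
  obtain ⟨q, hq1, hq2⟩ := exists_rat_btwn (inf_lt_sup.2 hne)
  obtain ⟨t, ht, h3⟩ := intermediate_value_uIcc ((P i).cu.comp hc).continuousOn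
    (show (q : ℝ) ∈ uIcc ((P i).u (γ a)) ((P i).u (γ (a + ε / 2))) from ⟨hq1.le, hq2.le⟩)
  have h4 := (hs t ht).2
  have h5 : (P i).u (γ t) = q := h3
  exact ⟨i, q, t, hxi, h5 ▸ (P i).u_mem _ h4.1, h5 ▸ (P i).eq_σ hxi h4⟩

theorem Lam.condAC [IsFiniteMeasure μ] {P : ℕ → Piece S} (hL : Lam S μ P) (hac : LeafAC S μ) :
    LY.CondAC S μ := by
  rintro ξ κ ⟨hξ, hs⟩ hκ hκ'
  choose g hg hg' using fun (i : ℕ) (q : ℚ) => (P i).exists_label hξ q
  set E : ℕ → ℚ → Set Z := fun i q => {y | y ∈ (P i).Y ∧ ξ y = g i q ((P i).p y)} with hE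
  have hEm : ∀ i q, MeasurableSet (E i q) := fun i q =>
    (P i).measurableSet_Y.inter (measurableSet_eq_fun hξ ((hg i q).comp (P i).mp))
  have hU : MeasurableSet (⋃ i, ⋃ q, E i q) :=
    MeasurableSet.iUnion fun i => MeasurableSet.iUnion fun q => hEm i q
  have h1 : μ {x | (ξ x, x) ∈ Prod.snd ⁻¹' (⋃ i, ⋃ q, E i q)ᶜ} = 0 := by
    refine measure_eq_zero_iff_ae_notMem.2 ?_
    filter_upwards [hL.cov, hs] with x hx ⟨h2, γ, h3, h4, _, h5⟩
    obtain ⟨i, q, t, h6, h7, h8⟩ := exists_rat_mem hx h3 h4 fun t => h2 (h5 t)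
    refine fun h => h (mem_iUnion.2 ⟨i, mem_iUnion.2 ⟨q, h6, ?_⟩⟩)
    rw [hg' i q x h6 h7, h8, h5]
  have hD : MeasurableSet {w : ℝ × Z | ξ w.2 = w.1}ᶜ :=
    (measurableSet_eq_fun (hξ.comp measurable_snd) measurable_fst).compl
  have h2 : μ {x | (ξ x, x) ∈ {w : ℝ × Z | ξ w.2 = w.1}ᶜ} = 0 := by simp
  have h3 := fun (i : ℕ) (q : ℚ) => (P i).kernel_null (hL.ac hac (P i)) hξ κ (hg i q)
  filter_upwards [(cond_null hξ κ (measurable_snd hU.compl)).1 h1, (cond_null hξ κ hD).1 h2, hs,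
    ae_all_iff.2 fun i => ae_all_iff.2 (h3 i)] with x h4 h5 h6 h7
  refine Measure.AbsolutelyContinuous.mk fun N hN h0 => ?_
  rw [Measure.restrict_apply hN] at h0
  have hN' : MeasurableSet (N ∩ {y | ξ y = ξ x}) := hN.inter (hξ (measurableSet_singleton _))
  have h8 : Measure.hausdorffMeasure 1 (N ∩ {y | ξ y = ξ x}) = 0 :=
    measure_mono_null (inter_subset_inter_right _ h6.1) h0
  refine measure_mono_null ?_ (measure_union_null (measure_union_null h4 h5)
    (measure_iUnion_null fun i => measure_iUnion_null fun q => h7 i q _ hN' h8))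
  intro y hy
  by_cases h9 : y ∈ ⋃ i, ⋃ q, E i q
  · by_cases h10 : ξ y = ξ x
    · obtain ⟨i, h11⟩ := mem_iUnion.1 h9
      obtain ⟨q, h12⟩ := mem_iUnion.1 h11
      exact Or.inr (mem_iUnion.2 ⟨i, mem_iUnion.2 ⟨q, ⟨hy, h10⟩, h12⟩⟩)
    · exact Or.inl (Or.inr h10)
  · exact Or.inl (Or.inl h9)

omit [StandardBorelSpace Z] in
/-- A subordinate measurable partition: the arcs of the first piece containing the point. -/
theorem Lam.exists_subordinate {P : ℕ → Piece S} (hL : Lam S μ P) :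
    ∃ ξ : Z → ℝ, LY.Subordinate S μ ξ := by
  classical
  obtain ⟨e, he⟩ := exists_measurableEmbedding_real (ℕ × ℝ)
  set R : ℕ → Set Z := fun n => Nat.casesOn n (⋃ i, (P i).Y)ᶜ fun i => (P i).Y with hR
  set p : ℕ → Z → ℝ := fun n => Nat.casesOn n (fun _ => 0) fun i => (P i).p with hp
  have hRm : ∀ n, MeasurableSet {x | x ∈ R n} := by
    rintro (_ | i)
    · exact (MeasurableSet.iUnion fun i => (P i).measurableSet_Y).compl
    · exact (P i).measurableSet_Y
  have hpm : ∀ n, Measurable fun x => e (n, p n x) := by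
    rintro (_ | i)
    · exact measurable_const (a := e (0, 0))
    · exact he.measurable.comp (measurable_const.prodMk (P i).mp)
  have hex : ∀ x, ∃ n, x ∈ R n := by
    intro x
    by_cases h : x ∈ ⋃ i, (P i).Y
    · obtain ⟨i, hi⟩ := mem_iUnion.1 h
      exact ⟨i + 1, hi⟩
    · exact ⟨0, h⟩
  refine ⟨fun x => e (Nat.find (hex x), p (Nat.find (hex x)) x), Measurable.find hpm hRm hex, ?_⟩
  filter_upwards [hL.cov, ae_all_iff.2 fun i => measure_eq_zero_iff_ae_notMem.1 (hL.bd i)]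
    with x hx hb
  obtain ⟨i0, hi0, -⟩ := hx x (wu_self S x)
  obtain ⟨i, hi⟩ : ∃ i, Nat.find (hex x) = i + 1 := by
    refine Nat.exists_eq_succ_of_ne_zero fun h => ?_
    have h1 := Nat.find_spec (hex x)
    rw [h] at h1
    exact h1 (mem_iUnion.2 ⟨i0, hi0⟩)
  have hxi : x ∈ (P i).Y := by
    have h1 := Nat.find_spec (hex x)
    rwa [hi] at h1
  constructor
  · intro y hy
    have h1 := he.injective hy
    rw [hi] at h1
    have h2 : Nat.find (hex y) = i + 1 := congrArg Prod.fst h1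
    have h3 := Nat.find_spec (hex y)
    rw [h2] at h1 h3
    exact (P i).L_sub hxi ⟨h3, congrArg Prod.snd h1⟩
  · have hu : (P i).u x ∈ Ioo (-(P i).τ) (P i).τ :=
      abs_lt.1 (lt_of_le_of_ne (abs_le.2 ((P i).u_mem x hxi)) (hb i))
    have hct : ContinuousAt ((P i).σ x) ((P i).u x) :=
      ((P i).σ_cont x hxi).continuousAt (Icc_mem_nhds hu.1 hu.2)
    have h1 : ∀ᶠ t in 𝓝 ((P i).u x), ∀ k ∈ Finset.range i, (P i).σ x t ∉ (P k).Y := by
      refine (eventually_all_finset _).2 fun k hk =>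
        hct.eventually (p := fun z => z ∉ (P k).Y) ?_
      rw [(P i).σ_self x hxi]
      refine (P k).closed.isOpen_compl.mem_nhds ?_
      exact Nat.find_min (hex x) (m := k + 1) (by rw [hi]; simpa using hk)
    obtain ⟨δ, hδ, h2⟩ := Metric.eventually_nhds_iff.1 (h1.and (Icc_mem_nhds hu.1 hu.2))
    have h3 : ∀ t, dist ((P i).u x + δ / 2 * Real.arctan t) ((P i).u x) < δ := by
      intro t
      have h4 : |Real.arctan t| < 2 := abs_lt.2
        ⟨by linarith [Real.neg_pi_div_two_lt_arctan t, Real.pi_lt_four],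
          by linarith [Real.arctan_lt_pi_div_two t, Real.pi_lt_four]⟩
      rw [Real.dist_eq, add_sub_cancel_left, abs_mul, abs_of_pos (half_pos hδ)]
      nlinarith
    refine ⟨fun t => (P i).σ x ((P i).u x + δ / 2 * Real.arctan t), ?_, fun s t hst => ?_, ?_,
      fun t => ?_⟩
    · exact ((P i).σ_cont x hxi).comp_continuous
        (continuous_const.add (continuous_const.mul Real.continuous_arctan)) fun t => (h2 (h3 t)).2
    · have h4 := congrArg (P i).u hst
      rw [((P i).σ_mem x hxi _ (h2 (h3 s)).2).2.2.1, ((P i).σ_mem x hxi _ (h2 (h3 t)).2).2.2.1,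
        add_right_inj, mul_right_inj' (half_pos hδ).ne'] at h4
      exact Real.arctan_injective h4
    · simp [(P i).σ_self x hxi]
    · obtain ⟨h4, h5, -⟩ := (P i).σ_mem x hxi _ (h2 (h3 t)).2
      have h6 : Nat.find (hex ((P i).σ x ((P i).u x + δ / 2 * Real.arctan t))) = i + 1 := by
        rw [Nat.find_eq_iff]
        refine ⟨h4, ?_⟩
        rintro (_ | k) hk
        · exact fun h => h (mem_iUnion.2 ⟨i, h4⟩)
        · exact (h2 (h3 t)).1 k (by simpa using hk)
      simp only [h6, hi]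
      exact congrArg (fun s => e (i + 1, s)) h5

theorem Lam.leafAC [IsProbabilityMeasure μ] {P : ℕ → Piece S} (hL : Lam S μ P)
    (h : LY.CondAC S μ) : LeafAC S μ := by
  have := μ.nonempty_of_neZero
  obtain ⟨ξ, hξ⟩ := hL.exists_subordinate
  intro B hB h0
  have h1 := h ξ (μ.map fun x => (ξ x, x)).condKernel hξ inferInstance inferInstance
  refine (cond_null hξ.1 (μ.map fun x => (ξ x, x)).condKernel (measurable_snd hB)).2 ?_
  filter_upwards [h0, h1] with x h2 h3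
  exact h3 ((Measure.restrict_apply hB).trans h2)

end Pool.Agent.Lib.MP_e7c912_an
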