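import Mathlib

/-! Definitions used by the statement on the number of SRB measures with large entropy
(SRB measures in the sense of Ledrappier and Young). -/

namespace Pool.Agent.Lib.MP_e7c912_an.LY

open MeasureTheory ProbabilityTheory Filter Bundle
open scoped ENNReal Manifold ContDiff

/-- Shannon entropy of the partition given by the first `n` symbols of the `P`-itinerary. -/
noncomputable def blockEntropy {X β : Type*} [MeasurableSpace X] [Fintype β] (μ : Measure X)
    (T : X → X) (P : X → β) (n : ℕ) : ℝ :=
  ∑ w : Fin n → β, Real.negMulLog (μ.real {x | ∀ i : Fin n, P (T^[i] x) = w i})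

/-- Kolmogorov-Sinai entropy: supremum over finite measurable partitions of the entropy rate. -/
noncomputable def ksEntropy {X : Type*} [MeasurableSpace X] (μ : Measure X) (T : X → X) : ℝ≥0∞ :=
  ⨆ (k : ℕ) (P : X → Fin k) (_ : Measurable P),
    limsup (fun n : ℕ => ENNReal.ofReal (blockEntropy μ T P n / n)) atTop

/-- The points whose `S`-orbit approaches that of `x` exponentially fast. For `S` the inverse of
`f` this is the global unstable manifold of `x`. -/
def Wu {X : Type*} [EMetricSpace X] (S : X → X) (x : X) : Set X :=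
  {y | ∃ c : ℝ, 0 < c ∧
    ∀ᶠ n : ℕ in atTop, edist (S^[n] x) (S^[n] y) ≤ ENNReal.ofReal (Real.exp (-c * n))}

/-- The measurable partition into the fibres of `ξ` is subordinate to the leaves `Wu S x`: for
almost every `x` its atom lies in the leaf of `x` and contains an open arc through `x`. -/
def Subordinate {X : Type*} [EMetricSpace X] [MeasurableSpace X] (S : X → X) (μ : Measure X)
    (ξ : X → ℝ) : Prop :=
  Measurable ξ ∧ ∀ᵐ x ∂μ, {y | ξ y = ξ x} ⊆ Wu S x ∧
    ∃ γ : ℝ → X, Continuous γ ∧ Function.Injective γ ∧ γ 0 = x ∧ ∀ t, ξ (γ t) = ξ x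

/-- Absolutely continuous conditional measures along the leaves `Wu S x`: for every subordinate
measurable partition, the conditional probability `κ (ξ x)` of `μ` on the atom of almost every `x`
is absolutely continuous with respect to length on the leaf of `x`. -/
def CondAC {X : Type*} [EMetricSpace X] [MeasurableSpace X] [BorelSpace X] (S : X → X)
    (μ : Measure X) : Prop :=
  ∀ (ξ : X → ℝ) (κ : Kernel ℝ X), Subordinate S μ ξ → IsMarkovKernel κ →
    (μ.map fun x => (ξ x, x)).IsCondKernel κ →
    ∀ᵐ x ∂μ, (κ (ξ x)).AbsolutelyContinuous ((Measure.hausdorffMeasure 1).restrict (Wu S x))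

/-- Smooth diffeomorphisms of a manifold `M` modelled on `E`. -/
abbrev Diffeo (E : Type) [NormedAddCommGroup E] [NormedSpace ℝ E] (M : Type) [TopologicalSpace M]
    [ChartedSpace E M] : Type :=
  Diffeomorph (modelWithCornersSelf ℝ E) (modelWithCornersSelf ℝ E) M M ∞

variable {E : Type} [NormedAddCommGroup E] [NormedSpace ℝ E] {M : Type}

/-- The Riemannian length of a tangent vector. -/
noncomputable def len [TopologicalSpace M] [ChartedSpace E M]
    [RiemannianBundle fun x : M => TangentSpace (modelWithCornersSelf ℝ E) x] (x : M)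
    (v : TangentSpace (modelWithCornersSelf ℝ E) x) : ℝ := ‖v‖

/-- Some tangent vector at `x` has a positive upper Lyapunov exponent. -/
def PosExp [TopologicalSpace M] [ChartedSpace E M]
    [RiemannianBundle fun x : M => TangentSpace (modelWithCornersSelf ℝ E) x] (f : Diffeo E M)
    (x : M) : Prop :=
  ∃ (v : TangentSpace (modelWithCornersSelf ℝ E) x) (c : ℝ), 0 < c ∧
    ∃ᶠ n : ℕ in atTop, Real.exp (c * n) * len x v <
      len (f^[n] x) (mfderiv (modelWithCornersSelf ℝ E) (modelWithCornersSelf ℝ E) f^[n] x v)

/-- SRB measure: ergodic invariant probability with a positive Lyapunov exponent whose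
conditional measures along unstable manifolds are absolutely continuous. -/
def IsSRB [EMetricSpace M] [ChartedSpace E M]
    [RiemannianBundle fun x : M => TangentSpace (modelWithCornersSelf ℝ E) x]
    [MeasurableSpace M] [BorelSpace M] (f : Diffeo E M) (μ : Measure M) : Prop :=
  IsProbabilityMeasure μ ∧ Ergodic f μ ∧ (∀ᵐ x ∂μ, PosExp f x) ∧ CondAC f.symm μ

/-- The number of SRB measures of entropy larger than `b`. -/
noncomputable def NSRB [EMetricSpace M] [ChartedSpace E M]
    [RiemannianBundle fun x : M => TangentSpace (modelWithCornersSelf ℝ E) x]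
    [MeasurableSpace M] [BorelSpace M] (f : Diffeo E M) (b : ℝ) : ℕ∞ :=
  {μ : Measure M | IsSRB f μ ∧ ENNReal.ofReal b < ksEntropy μ f}.encard

/-- The number of SRB measures of entropy at least `b`. -/
noncomputable def NbarSRB [EMetricSpace M] [ChartedSpace E M]
    [RiemannianBundle fun x : M => TangentSpace (modelWithCornersSelf ℝ E) x]
    [MeasurableSpace M] [BorelSpace M] (f : Diffeo E M) (b : ℝ) : ℕ∞ :=
  {μ : Measure M | IsSRB f μ ∧ ENNReal.ofReal b ≤ ksEntropy μ f}.encard

/-- `U` is a neighbourhood of `f` in the smooth topology: it contains every `g` such that finitely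
many smooth functions of `g`, read in charts on compact sets, are close to those of `f` together
with finitely many derivatives. -/
def IsSmoothNhd [TopologicalSpace M] [ChartedSpace E M] (f : Diffeo E M)
    (U : Set (Diffeo E M)) : Prop :=
  ∃ (r m : ℕ) (δ : ℝ) (φ : Fin m → M → ℝ) (x : Fin m → M) (K : Fin m → Set E), 0 < δ ∧
    (∀ j, ContMDiff (modelWithCornersSelf ℝ E) (modelWithCornersSelf ℝ ℝ) ∞ (φ j) ∧
      IsCompact (K j) ∧ K j ⊆ (chartAt E (x j)).target) ∧
    ∀ g : Diffeo E M, (∀ j, ∀ s ≤ r, ∀ w ∈ K j,
      ‖iteratedFDeriv ℝ s (φ j ∘ g ∘ (chartAt E (x j)).symm) w -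
        iteratedFDeriv ℝ s (φ j ∘ f ∘ (chartAt E (x j)).symm) w‖ < δ) → g ∈ U

end Pool.Agent.Lib.MP_e7c912_an.LY
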