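import Pool.Agent.Lib.MP_e7c912_an.H60Br2

/-! Construction of an atlas on a compact surface. -/

namespace Pool.Agent.Lib.MP_e7c912_an

open MeasureTheory Filter Metric Set Topology
open scoped ContDiff

variable {E : Type} [NormedAddCommGroup E] [NormedSpace ℝ E]

theorem idx_br1 {X : Type} [MeasurableSpace X] {m : ℕ} {D : Fin m → Set X}
    (hD : ∀ i, MeasurableSet (D i)) (hc : ∀ x, ∃ i, x ∈ D i) :
    ∃ idx : X → Fin m, Measurable idx ∧ ∀ x, x ∈ D (idx x) := by
  classical
  rcases isEmpty_or_nonempty X with h | ⟨⟨x0⟩⟩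
  · exact ⟨isEmptyElim, measurable_of_empty _, isEmptyElim⟩
  have : Nonempty (Fin m) := ⟨(hc x0).choose⟩
  obtain ⟨s, hs⟩ := exists_surjective_nat (Fin m)
  have hp : ∀ x, ∃ n, x ∈ D (s n) := fun x => by
    obtain ⟨i, hi⟩ := hc x
    obtain ⟨n, rfl⟩ := hs i
    exact ⟨n, hi⟩
  exact ⟨fun x => s (Nat.find (hp x)),
    (measurable_from_top (f := s)).comp (measurable_find hp fun k => hD (s k)),
    fun x => Nat.find_spec (hp x)⟩

/-- A smooth injective map to a sup-normed space which contains finitely many charts. -/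
theorem emb_br1 [FiniteDimensional ℝ E] (M : Type) [TopologicalSpace M] [T2Space M] [CompactSpace M]
    [ChartedSpace E M] [IsManifold (II E) ∞ M] (L : E ≃L[ℝ] V) :
    ∃ (m N : ℕ) (c : Fin m → M) (R : Fin m → ℝ) (e0 : M → Fin N → ℝ)
      (pr : Fin m → (Fin N → ℝ) →L[ℝ] V), (∀ i, 0 < R i) ∧
      (∀ i, closedBall (chartAt E (c i) (c i)) (R i) ⊆ (chartAt E (c i)).target) ∧
      ContMDiff (II E) (modelWithCornersSelf ℝ (Fin N → ℝ)) ∞ e0 ∧ Function.Injective e0 ∧
      (∀ i, ‖pr i‖ ≤ 1) ∧
      (∀ y, ∃ i, y ∈ (chartAt E (c i)).source ∧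
        dist (chartAt E (c i) y) (chartAt E (c i) (c i)) ≤ R i / 2) ∧
      ∀ i, ∀ y ∈ (chartAt E (c i)).source,
        dist (chartAt E (c i) y) (chartAt E (c i) (c i)) ≤ R i →
          pr i (e0 y) = L (chartAt E (c i) y) := by
  have b : ∀ x : M, SmoothBumpFunction (II E) x := fun x => Classical.choice inferInstance
  obtain ⟨t, ht⟩ := isCompact_univ.elim_finite_subcover
    (fun x : M => (chartAt E x).source ∩ chartAt E x ⁻¹' ball (chartAt E x x) ((b x).rIn / 2))
    (fun x => (chartAt E x).isOpen_inter_preimage isOpen_ball)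
    (fun x _ => mem_iUnion.2 ⟨x, mem_chart_source _ _, mem_ball_self (half_pos (b x).rIn_pos)⟩)
  set c : Fin t.card → M := fun i => (t.equivFin.symm i : M) with hc
  have cov : ∀ y, ∃ i, y ∈ (chartAt E (c i)).source ∧
      dist (chartAt E (c i) y) (chartAt E (c i) (c i)) ≤ (b (c i)).rIn / 2 := fun y => by
    obtain ⟨x, hx, h1, h2⟩ := mem_iUnion₂.1 (ht (mem_univ y))
    obtain ⟨i, rfl⟩ : ∃ i, c i = x :=
      ⟨t.equivFin ⟨x, hx⟩, congrArg Subtype.val (t.equivFin.symm_apply_apply _)⟩
    exact ⟨i, h1, le_of_lt h2⟩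
  have one : ∀ i, ∀ y ∈ (chartAt E (c i)).source,
      dist (chartAt E (c i) y) (chartAt E (c i) (c i)) ≤ (b (c i)).rIn → b (c i) y = 1 :=
    fun i y hy hd => (b (c i)).one_of_dist_le hy hd
  set T : E → Fin 3 → ℝ := fun u => ![(L u).1, (L u).2, 1] with hT
  have hTs : ContDiff ℝ ∞ T := by
    refine contDiff_pi.2 fun k => ?_
    fin_cases k
    · exact L.contDiff.fst
    · exact L.contDiff.snd
    · exact contDiff_const
  set g : Fin t.card → M → Fin 3 → ℝ := fun i y => b (c i) y • T (chartAt E (c i) y) with hg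
  have hgs : ∀ i, ContMDiff (II E) (modelWithCornersSelf ℝ (Fin 3 → ℝ)) ∞ (g i) := fun i =>
    (b (c i)).contMDiff_smul (hTs.contMDiff.comp_contMDiffOn contMDiffOn_chart)
  set e0 : M → Fin (t.card * 3) → ℝ :=
    fun y n => g (finProdFinEquiv.symm n).1 y (finProdFinEquiv.symm n).2 with he0
  have he : ∀ y i k, e0 y (finProdFinEquiv (i, k)) = g i y k := fun y i k => by
    simp only [he0, Equiv.symm_apply_apply]
  have g0 : ∀ i y, g i y 0 = b (c i) y * (L (chartAt E (c i) y)).1 := fun i y => rfl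
  have g1 : ∀ i y, g i y 1 = b (c i) y * (L (chartAt E (c i) y)).2 := fun i y => rfl
  have g2 : ∀ i y, g i y 2 = b (c i) y := fun i y => mul_one _
  refine ⟨t.card, t.card * 3, c, fun i => (b (c i)).rIn, e0, fun i =>
    (ContinuousLinearMap.proj (finProdFinEquiv (i, (0 : Fin 3)))).prod
      (ContinuousLinearMap.proj (finProdFinEquiv (i, (1 : Fin 3)))), fun i => (b (c i)).rIn_pos,
    fun i u hu => ?_, ?_, fun y y' h => ?_, fun i => ?_, cov, fun i y hy hd => ?_⟩
  · simpa using (b (c i)).closedBall_subset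
      ⟨closedBall_subset_closedBall (b (c i)).rIn_lt_rOut.le hu, u, rfl⟩
  · exact contMDiff_pi_space.2 fun n => contMDiff_pi_space.1 (hgs _) _
  · obtain ⟨i, h1, h2⟩ := cov y
    have h3 := one i y h1 (h2.trans (half_le_self (b (c i)).rIn_pos.le))
    have h4 : ∀ k, g i y k = g i y' k := fun k => by rw [← he, ← he, h]
    have h5 : b (c i) y' = 1 := by rw [← g2, ← h4, g2, h3]
    have h6 : y' ∈ (chartAt E (c i)).source :=
      (b (c i)).support_subset_source (by rw [Function.mem_support, h5]; exact one_ne_zero)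
    refine (chartAt E (c i)).injOn h1 h6 (L.injective (Prod.ext ?_ ?_))
    · simpa only [g0, h3, h5, one_mul] using h4 0
    · simpa only [g1, h3, h5, one_mul] using h4 1
  · refine ContinuousLinearMap.opNorm_le_bound _ zero_le_one fun v => ?_
    rw [one_mul]
    exact max_le (norm_le_pi_norm v _) (norm_le_pi_norm v _)
  · change (e0 y _, e0 y _) = _
    rw [he, he, g0, g1, one i y hy hd, one_mul, one_mul]

theorem exists_atlas (hE : Module.finrank ℝ E = 2) (M : Type) [TopologicalSpace M] [T2Space M] [CompactSpace M]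
    [ChartedSpace E M] [IsManifold (II E) ∞ M] :
    ∃ (X : Type) (_ : MetricSpace X) (_ : CompactSpace X) (_ : MeasurableSpace X)
      (_ : BorelSpace X) (A : Atlas X) (j : M ≃ₜ X), Nonempty (Compat E A j) := by
  have : FiniteDimensional ℝ E := Module.finite_of_finrank_pos (by omega)
  have L : E ≃L[ℝ] V := ContinuousLinearEquiv.ofFinrankEq (by simp [hE])
  obtain ⟨m, N, c, R, e0, pr, hR, hW, hs, hi, hpr, cov, hL⟩ := emb_br1 M L
  set j : M ≃ₜ range e0 := (hs.continuous.isClosedEmbedding hi).isEmbedding.toHomeomorph with hj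
  have hje : ∀ y, (j y : Fin N → ℝ) = e0 y := fun y => rfl
  have hX : CompactSpace (range e0) := j.compactSpace
  set B : Fin m → Set E := fun i => closedBall (chartAt E (c i) (c i)) (R i / 2) with hB
  set U : Fin m → Set V := fun i => L.symm ⁻¹' ball (chartAt E (c i) (c i)) (R i) with hU
  set D : Fin m → Set (range e0) := fun i => j '' ((chartAt E (c i)).symm '' B i) with hD
  set G : Fin m → Set (range e0) := fun i => j '' ((chartAt E (c i)).source ∩
    chartAt E (c i) ⁻¹' ball (chartAt E (c i) (c i)) (R i)) with hG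
  have hBb : ∀ i, B i ⊆ ball (chartAt E (c i) (c i)) (R i) := fun i =>
    closedBall_subset_ball (half_lt_self (hR i))
  have hbt : ∀ i, ball (chartAt E (c i) (c i)) (R i) ⊆ (chartAt E (c i)).target := fun i =>
    ball_subset_closedBall.trans (hW i)
  have hDc : ∀ i, IsCompact (D i) := fun i =>
    ((isCompact_closedBall _ _).image_of_continuousOn
      ((chartAt E (c i)).continuousOn_symm.mono ((hBb i).trans (hbt i)))).image j.continuous
  have hUo : ∀ i, IsOpen (U i) := fun i => isOpen_ball.preimage L.symm.continuous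
  have hsym : ∀ i, ∀ u ∈ ball (chartAt E (c i) (c i)) (R i),
      pr i (e0 ((chartAt E (c i)).symm u)) = L u := fun i u hu => by
    have h1 := (chartAt E (c i)).right_inv (hbt i hu)
    rw [hL i _ ((chartAt E (c i)).map_target (hbt i hu)) (by rw [h1]; exact le_of_lt hu), h1]
  have h1 : ∀ i, ∃ δ, 0 < δ ∧ thickening δ (D i) ⊆ G i := fun i =>
    (hDc i).exists_thickening_subset_open
      (j.isOpenMap _ ((chartAt E (c i)).isOpen_inter_preimage isOpen_ball))
      (image_mono (by
        rintro _ ⟨u, hu, rfl⟩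
        refine ⟨(chartAt E (c i)).map_target (hbt i (hBb i hu)), ?_⟩
        rw [mem_preimage, (chartAt E (c i)).right_inv (hbt i (hBb i hu))]
        exact hBb i hu))
  have h2 : ∀ i, ∃ δ, 0 < δ ∧ thickening δ (L '' B i) ⊆ U i := fun i =>
    ((isCompact_closedBall _ _).image L.continuous).exists_thickening_subset_open (hUo i) (by
      rintro _ ⟨u, hu, rfl⟩
      rw [hU, mem_preimage, L.symm_apply_apply]
      exact hBb i hu)
  choose δ1 p1 q1 using h1
  choose δ2 p2 q2 using h2
  have ev : ∀ a : ℝ, 0 < a → ∀ᶠ ρ in 𝓝[>] (0 : ℝ), ρ ∈ Ioc 0 a := fun a ha => Ioc_mem_nhdsGT ha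
  obtain ⟨ρ, ⟨hρ0, hρ1⟩, hρ2, hρ3⟩ := ((ev 1 one_pos).and
    ((eventually_all.2 fun i => ev _ (p1 i)).and (eventually_all.2 fun i => ev _ (p2 i)))).exists
  obtain ⟨idx, hm, hidx⟩ := idx_br1 (D := D) (fun i => (hDc i).isClosed.measurableSet) fun x => by
    obtain ⟨y, rfl⟩ := j.surjective x
    obtain ⟨i, h1, h2⟩ := cov y
    exact ⟨i, y, ⟨_, h2, (chartAt E (c i)).left_inv h1⟩, rfl⟩
  have reg : ∀ r : ℕ, ∃ K : ℝ, ∀ i, ContDiffOn ℝ r ((e0 ∘ (chartAt E (c i)).symm) ∘ L.symm) (U i) ∧
      ∀ s ≤ r, ∀ w ∈ U i,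
        ‖iteratedFDeriv ℝ s ((e0 ∘ (chartAt E (c i)).symm) ∘ L.symm) w‖ ≤ K := fun r => by
    choose K hK using fun i => reg_of_compact (chartAt E (c i)).open_target
      (isCompact_closedBall _ _) (hW i) (hs.comp_contMDiffOn contMDiffOn_chart_symm).contDiffOn L
      (U := U i) (fun w hw => ball_subset_closedBall hw) r
    obtain ⟨K', hK'⟩ := Finite.exists_le K
    exact ⟨K', fun i => ⟨(hK i).1, fun s hs w hw => ((hK i).2 s hs w hw).trans (hK' i)⟩⟩
  obtain ⟨K, hK⟩ := reg 1
  refine ⟨range e0, inferInstance, hX, inferInstance, inferInstance,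
    { N := N
      m := m
      e := Subtype.val
      pr := pr
      ψ := fun i w => j ((chartAt E (c i)).symm (L.symm w))
      U := U
      D := D
      idx := idx
      ρ := ρ
      K := max K 1
      iso := isometry_subtype_coe
      pr_le := hpr
      U_open := hUo
      U_convex := fun i => (convex_ball _ _).linear_preimage L.symm.toLinearEquiv.toLinearMap
      D_closed := fun i => (hDc i).isClosed
      mem_D := hidx
      meas_idx := hm
      ρ_pos := hρ0
      ρ_le := hρ1
      one_le_K := le_max_right _ _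
      ball_sub := ?_
      right_inv := fun i w hw => by rw [hje, hsym i _ hw, L.apply_symm_apply]
      left_inv := fun i x hx y hy => ?_
      smooth := reg
      deriv_le := fun i w hw => ?_ }, j,
    ⟨{ c := c
       L := L
       W := fun i => closedBall (chartAt E (c i) (c i)) (R i)
       smooth := hs
       W_compact := fun i => isCompact_closedBall _ _
       W_sub := hW
       U_sub := fun i w hw => ball_subset_closedBall hw
       ψ_eq := fun i w => rfl }⟩⟩
  · rintro i _ ⟨_, ⟨u, hu, rfl⟩, rfl⟩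
    rw [hje, hsym i u (hBb i hu)]
    exact ((ball_subset_thickening (mem_image_of_mem L hu) ρ).trans
      (thickening_mono (hρ3 i).2 _)).trans (q2 i)
  · obtain ⟨y0, ⟨h1, h2⟩, rfl⟩ := q1 i (thickening_mono (hρ2 i).2 _ (ball_subset_thickening hx ρ hy))
    rw [hje, hL i y0 h1 (le_of_lt h2), L.symm_apply_apply, (chartAt E (c i)).left_inv h1]
  · refine le_trans ?_ (((hK i).2 1 le_rfl w hw).trans (le_max_left _ _))
    rw [norm_iteratedFDeriv_one]
    exact le_rfl

end Pool.Agent.Lib.MP_e7c912_an
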