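import Pool.Agent.Lib.MP_e7c912_an.H60BrDef

/-! Invariance of leafwise absolute continuity under locally bi-Lipschitz homeomorphisms. -/

namespace Pool.Agent.Lib.MP_e7c912_an

open MeasureTheory Filter Metric Set Topology
open scoped ENNReal NNReal

theorem conj_iter_br4 {M X : Type} [TopologicalSpace M] [TopologicalSpace X] (j : M ≃ₜ X)
    (S : M → M) (n : ℕ) (x : M) : (conj j S)^[n] (j x) = j (S^[n] x) := by
  induction n generalizing x with
  | zero => rfl
  | succ n ih =>
    rw [Function.iterate_succ_apply, Function.iterate_succ_apply, ← ih]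
    congr 1
    simp [conj]

theorem tendsto_exp_br4 {c : ℝ} (hc : 0 < c) :
    Tendsto (fun n : ℕ => Real.exp (-c * n)) atTop (𝓝 0) := by
  refine Real.tendsto_exp_atBot.comp ?_
  exact Tendsto.const_mul_atTop_of_neg (by linarith) tendsto_natCast_atTop_atTop

theorem rate_br4 (C : ℝ≥0) {c : ℝ} (hc : 0 < c) : ∀ᶠ n : ℕ in atTop,
    (C : ℝ≥0∞) * ENNReal.ofReal (Real.exp (-c * n)) ≤
      ENNReal.ofReal (Real.exp (-(c / 2) * n)) := by
  have h0 : Tendsto (fun n : ℕ => (C : ℝ) * Real.exp (-(c / 2) * n)) atTop (𝓝 ((C : ℝ) * 0)) :=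
    (tendsto_exp_br4 (half_pos hc)).const_mul _
  rw [mul_zero] at h0
  filter_upwards [h0.eventually (gt_mem_nhds one_pos)] with n hn
  have h1 : Real.exp (-c * n) = Real.exp (-(c / 2) * n) * Real.exp (-(c / 2) * n) := by
    rw [← Real.exp_add]; congr 1; ring
  rw [← ENNReal.ofReal_coe_nnreal, ← ENNReal.ofReal_mul C.coe_nonneg]
  refine ENNReal.ofReal_le_ofReal ?_
  rw [h1, ← mul_assoc]
  exact mul_le_of_le_one_left (Real.exp_pos _).le hn.le

theorem wu_iff_br4 {M X : Type} [EMetricSpace M] [MetricSpace X] {j : M ≃ₜ X} {C C' : ℝ≥0}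
    {ρ : ℝ} (hρ : 0 < ρ) (h1 : LipschitzWith C j)
    (h2 : ∀ x y : X, dist y x < ρ → edist (j.symm x) (j.symm y) ≤ C' * edist x y) (S : M → M)
    (x y : M) : j y ∈ Wu (conj j S) (j x) ↔ y ∈ Wu S x := by
  constructor
  · rintro ⟨c, hc, h⟩
    refine ⟨c / 2, half_pos hc, ?_⟩
    filter_upwards [h, rate_br4 C' hc, (tendsto_exp_br4 hc).eventually (gt_mem_nhds hρ)]
      with n hn hr hs
    rw [conj_iter_br4, conj_iter_br4] at hn
    have hd : dist (j (S^[n] y)) (j (S^[n] x)) < ρ := by
      rw [dist_comm]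
      refine lt_of_le_of_lt ?_ hs
      rw [edist_dist] at hn
      exact (ENNReal.ofReal_le_ofReal_iff (Real.exp_pos _).le).1 hn
    have h3 := h2 _ _ hd
    rw [j.symm_apply_apply, j.symm_apply_apply] at h3
    exact h3.trans ((mul_le_mul_right hn _).trans hr)
  · rintro ⟨c, hc, h⟩
    refine ⟨c / 2, half_pos hc, ?_⟩
    filter_upwards [h, rate_br4 C hc] with n hn hr
    rw [conj_iter_br4, conj_iter_br4]
    exact (h1 _ _).trans ((mul_le_mul_right hn _).trans hr)

theorem haus_iff_br4 {M X : Type} [EMetricSpace M] [MeasurableSpace M] [BorelSpace M]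
    [MetricSpace X] [CompactSpace X] [MeasurableSpace X] [BorelSpace X] {j : M ≃ₜ X}
    {C C' : ℝ≥0} {ρ : ℝ} (hρ : 0 < ρ) (h1 : LipschitzWith C j)
    (h2 : ∀ x y : X, dist y x < ρ → edist (j.symm x) (j.symm y) ≤ C' * edist x y) (B : Set M) :
    Measure.hausdorffMeasure 1 (j '' B) = 0 ↔ Measure.hausdorffMeasure 1 B = 0 := by
  constructor
  · intro h
    obtain ⟨t, -, ht, hcov⟩ := finite_cover_balls_of_compact (isCompact_univ (X := X))
      (half_pos hρ)
    have hsub : B ⊆ ⋃ x ∈ t, j.symm '' (j '' B ∩ ball x (ρ / 2)) := by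
      intro b hb
      obtain ⟨x, hx, hbx⟩ := mem_iUnion₂.1 (hcov (mem_univ (j b)))
      exact mem_iUnion₂.2 ⟨x, hx, j b, ⟨mem_image_of_mem _ hb, hbx⟩, j.symm_apply_apply b⟩
    refine measure_mono_null hsub ((measure_biUnion_null_iff ht.countable).2 fun x _ => ?_)
    have hl : LipschitzOnWith C' j.symm (j '' B ∩ ball x (ρ / 2)) := by
      intro a ha b hb
      refine h2 a b ?_
      have h3 := dist_triangle_right b a x
      have h4 := mem_ball.1 ha.2
      have h5 := mem_ball.1 hb.2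
      linarith
    have h6 := hl.hausdorffMeasure_image_le zero_le_one
    rw [measure_mono_null inter_subset_left h, mul_zero] at h6
    exact le_antisymm h6 bot_le
  · intro h
    have h6 := h1.hausdorffMeasure_image_le zero_le_one B
    rw [h, mul_zero] at h6
    exact le_antisymm h6 bot_le

theorem leafAC_map {M X : Type} [EMetricSpace M] [MeasurableSpace M] [BorelSpace M] [MetricSpace X]
    [CompactSpace X] [MeasurableSpace X] [BorelSpace X] {j : M ≃ₜ X} {C C' : ℝ≥0} {ρ : ℝ}
    (hρ : 0 < ρ) (h1 : LipschitzWith C j)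
    (h2 : ∀ x y : X, dist y x < ρ → edist (j.symm x) (j.symm y) ≤ C' * edist x y) (S : M → M)
    (μ : Measure M) : LeafAC (conj j S) (μ.map j) ↔ LeafAC S μ := by
  have hemb : MeasurableEmbedding j := j.measurableEmbedding
  have key : ∀ (A : Set X) (x : M), Measure.hausdorffMeasure 1 (A ∩ Wu (conj j S) (j x)) = 0 ↔
      Measure.hausdorffMeasure 1 (j ⁻¹' A ∩ Wu S x) = 0 := by
    intro A x
    rw [← haus_iff_br4 hρ h1 h2 (j ⁻¹' A ∩ Wu S x)]
    have h3 : A ∩ Wu (conj j S) (j x) = j '' (j ⁻¹' A ∩ Wu S x) := by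
      ext z
      obtain ⟨y, rfl⟩ := j.surjective z
      rw [j.injective.mem_set_image, mem_inter_iff, mem_inter_iff, mem_preimage,
        wu_iff_br4 hρ h1 h2]
    rw [h3]
  constructor
  · intro h A hA hx
    have hA' : MeasurableSet (j '' A) := hemb.measurableSet_image.2 hA
    have h3 := h (j '' A) hA' (hemb.ae_map_iff.2 (by
      filter_upwards [hx] with x hx
      rw [key, j.injective.preimage_image]
      exact hx))
    rwa [hemb.map_apply, j.injective.preimage_image] at h3
  · intro h A hA hx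
    rw [hemb.map_apply]
    refine h _ (hemb.measurable hA) ?_
    filter_upwards [hemb.ae_map_iff.1 hx] with x hx
    exact (key A x).1 hx

end Pool.Agent.Lib.MP_e7c912_an
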