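import Pool.Agent.Lib.MP_e7c912_an.H60Br3

/-! Comparison of the Riemannian distance with the distance of the embedding. -/

namespace Pool.Agent.Lib.MP_e7c912_an

open MeasureTheory Filter Metric Set Topology Bundle
open scoped ContDiff ENNReal NNReal

variable {E : Type} [NormedAddCommGroup E] [NormedSpace ℝ E]

variable {M : Type} [EMetricSpace M] [ChartedSpace E M] [IsManifold (II E) ∞ M] [CompactSpace M]
  [RiemannianBundle fun x : M => TangentSpace (II E) x]
  [IsContMDiffRiemannianBundle (II E) ∞ E fun x : M => TangentSpace (II E) x]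
  {X : Type} [MetricSpace X] [MeasurableSpace X] {A : Atlas X} {j : M ≃ₜ X}

omit [IsManifold (II E) ∞ M] [CompactSpace M] [RiemannianBundle fun x : M => TangentSpace (II E) x]
  [IsContMDiffRiemannianBundle (II E) ∞ E fun x : M => TangentSpace (II E) x] in
/-- Chain rule for the embedding along a path. -/
theorem Compat.derivWithin_br5 (H : Compat E A j) {γ : ℝ → M}
    (hγ : ContMDiffOn (modelWithCornersSelf ℝ ℝ) (II E) 1 γ (Icc 0 1)) {t : ℝ} (ht : t ∈ Icc (0 : ℝ) 1) :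
    derivWithin ((A.e ∘ j) ∘ γ) (Icc 0 1) t =
      demb A j (γ t) (mfderivWithin (modelWithCornersSelf ℝ ℝ) (II E) γ (Icc 0 1) t (1 : ℝ)) := by
  have h1 : mfderivWithin (modelWithCornersSelf ℝ ℝ) (modelWithCornersSelf ℝ (Fin A.N → ℝ))
      ((A.e ∘ j) ∘ γ) (Icc 0 1) t =
      (mfderiv (II E) (modelWithCornersSelf ℝ (Fin A.N → ℝ)) (A.e ∘ j) (γ t)).comp
        (mfderivWithin (modelWithCornersSelf ℝ ℝ) (II E) γ (Icc 0 1) t) := by
    apply mfderiv_comp_mfderivWithin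
    · exact H.smooth.mdifferentiable (by simp) _
    · exact hγ.mdifferentiableOn one_ne_zero t ht
    · rw [uniqueMDiffWithinAt_iff_uniqueDiffWithinAt]
      exact uniqueDiffOn_Icc zero_lt_one t ht
  rw [← fderivWithin_derivWithin, ← mfderivWithin_eq_fderivWithin, h1]
  rfl

theorem enorm_le_br5 {E F : Type} [SeminormedAddCommGroup E] [SeminormedAddCommGroup F] {a : E}
    {b : F} {C : ℝ≥0} (h : ‖a‖ ≤ C * ‖b‖) : ‖a‖ₑ ≤ C * ‖b‖ₑ := by
  rw [← ofReal_norm, ← ofReal_norm, ← ENNReal.ofReal_coe_nnreal,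
    ← ENNReal.ofReal_mul C.coe_nonneg]
  exact ENNReal.ofReal_le_ofReal h

theorem Compat.lip [IsRiemannianManifold (II E) M] (H : Compat E A j) :
    ∃ C : ℝ≥0, LipschitzWith C j := by
  obtain ⟨C, hC1, hC⟩ := H.tangent
  lift C to ℝ≥0 using zero_le_one.trans hC1
  have hC0 : (C : ℝ≥0∞) ≠ 0 := by
    have : (0 : ℝ) < C := zero_lt_one.trans_le hC1
    exact_mod_cast this.ne'
  refine ⟨C, fun x y => ?_⟩
  rw [IsRiemannianManifold.out (I := (II E)) x y, mul_comm,
    ← ENNReal.div_le_iff hC0 ENNReal.coe_ne_top]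
  refine le_of_forall_gt_imp_ge_of_dense fun r hr => ?_
  rw [ENNReal.div_le_iff hC0 ENNReal.coe_ne_top, mul_comm]
  obtain ⟨γ, h0, h1, hγ, hl⟩ := Manifold.exists_lt_of_riemannianEDist_lt hr
  have hD : ContDiffOn ℝ 1 ((A.e ∘ j) ∘ γ) (Icc 0 1) :=
    contMDiffOn_iff_contDiffOn.1 ((H.smooth.of_le (by simp)).comp_contMDiffOn hγ)
  calc edist (j x) (j y) = ‖((A.e ∘ j) ∘ γ) 1 - ((A.e ∘ j) ∘ γ) 0‖ₑ := by
        rw [← A.iso.edist_eq, edist_comm, edist_eq_enorm_sub]
        simp only [Function.comp_apply, h0, h1]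
    _ ≤ ∫⁻ t in Icc (0 : ℝ) 1, ‖derivWithin ((A.e ∘ j) ∘ γ) (Icc 0 1) t‖ₑ :=
        enorm_sub_le_lintegral_derivWithin_Icc_of_contDiffOn_Icc hD zero_le_one
    _ ≤ ∫⁻ t in Icc (0 : ℝ) 1,
          C * ‖mfderivWithin (modelWithCornersSelf ℝ ℝ) (II E) γ (Icc 0 1) t (1 : ℝ)‖ₑ := by
        refine setLIntegral_mono' measurableSet_Icc fun t ht => ?_
        rw [H.derivWithin_br5 hγ ht]
        exact enorm_le_br5 (hC _ _).2
    _ = C * Manifold.pathELength (II E) γ 0 1 := by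
        rw [lintegral_const_mul' _ _ ENNReal.coe_ne_top,
          Manifold.pathELength_eq_lintegral_mfderivWithin_Icc]
        rfl
    _ ≤ C * r := by gcongr

theorem Compat.lip_symm [IsRiemannianManifold (II E) M] (H : Compat E A j) :
    ∃ C : ℝ≥0, ∀ x y : X, dist y x < A.ρ → edist (j.symm x) (j.symm y) ≤ C * edist x y := by
  obtain ⟨C, hC1, hC⟩ := H.tangent
  have hK : 0 ≤ A.K := zero_le_one.trans A.one_le_K
  have hC0 : 0 ≤ C := zero_le_one.trans hC1
  refine ⟨⟨C * A.K, mul_nonneg hC0 hK⟩, fun x y hxy => ?_⟩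
  have hx : x ∈ A.D (A.idx x) := A.mem_D x
  generalize A.idx x = i at hx
  have hxx : dist x x < A.ρ := by rw [dist_self]; exact A.ρ_pos
  have hw : A.φ i x ∈ A.U i := Atlas.φ_mem hx hxx
  have hw' : A.φ i y ∈ A.U i := Atlas.φ_mem hx hxy
  let η : ℝ → V := AffineMap.lineMap (A.φ i x) (A.φ i y)
  have hηU : ∀ t ∈ Icc (0 : ℝ) 1, η t ∈ A.U i := fun t ht =>
    (A.U_convex i).lineMap_mem hw hw' ht
  have hηd : ∀ t, HasDerivAt η (A.φ i y - A.φ i x) t := fun t => AffineMap.hasDerivAt_lineMap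
  have hηs : ContDiff ℝ 1 η := by
    have : η = fun t : ℝ => t • (A.φ i y - A.φ i x) + A.φ i x := by
      funext t
      simp only [η, AffineMap.lineMap_apply, vsub_eq_sub, vadd_eq_add]
    rw [this]
    fun_prop
  let γ : ℝ → M := (chartAt E (H.c i)).symm ∘ (H.L.symm ∘ η)
  have hγ : ContMDiffOn (modelWithCornersSelf ℝ ℝ) (II E) 1 γ (Icc 0 1) := by
    refine (contMDiffOn_chart_symm (I := (II E)) (n := 1) (x := H.c i)).comp ?_ ?_
    · exact (contMDiff_iff_contDiff.2 (H.L.symm.contDiff.comp hηs)).contMDiffOn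
    · intro t ht
      exact H.W_sub i (H.U_sub i _ (hηU t ht))
  have hjγ : ∀ t, j (γ t) = A.ψ i (η t) := fun t => (H.ψ_eq i _).symm
  have h0 : γ 0 = j.symm x := by
    apply j.injective
    rw [hjγ, j.apply_symm_apply]
    simp only [η, AffineMap.lineMap_apply_zero]
    exact Atlas.ψ_φ hx hxx
  have h1 : γ 1 = j.symm y := by
    apply j.injective
    rw [hjγ, j.apply_symm_apply]
    simp only [η, AffineMap.lineMap_apply_one]
    exact Atlas.ψ_φ hx hxy
  have hfun : (A.e ∘ j) ∘ γ = (A.e ∘ A.ψ i) ∘ η := by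
    funext t
    simp only [Function.comp_apply, hjγ]
  obtain ⟨K', hK'⟩ := A.smooth 1
  have hspeed : ∀ t ∈ Icc (0 : ℝ) 1,
      ‖mfderivWithin (modelWithCornersSelf ℝ ℝ) (II E) γ (Icc 0 1) t (1 : ℝ)‖ ≤ C * A.K * dist x y := by
    intro t ht
    refine (hC _ _).1.trans ?_
    rw [← H.derivWithin_br5 hγ ht, hfun, mul_assoc]
    refine mul_le_mul_of_nonneg_left ?_ hC0
    have hd : DifferentiableAt ℝ (A.e ∘ A.ψ i) (η t) :=
      ((hK' i).1.contDiffAt ((A.U_open i).mem_nhds (hηU t ht))).differentiableAt (by simp)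
    have h2 : HasDerivAt ((A.e ∘ A.ψ i) ∘ η)
        (fderiv ℝ (A.e ∘ A.ψ i) (η t) (A.φ i y - A.φ i x)) t :=
      hd.hasFDerivAt.comp_hasDerivAt t (hηd t)
    rw [h2.hasDerivWithinAt.derivWithin (uniqueDiffOn_Icc zero_lt_one t ht)]
    refine (ContinuousLinearMap.le_opNorm _ _).trans ?_
    refine mul_le_mul (A.deriv_le i _ (hηU t ht)) ?_ (norm_nonneg _) hK
    rw [dist_comm]
    exact A.norm_φ_sub_le i y x
  rw [IsRiemannianManifold.out (I := (II E))]
  refine (Manifold.riemannianEDist_le_pathELength hγ h0 h1 zero_le_one).trans ?_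
  rw [Manifold.pathELength_eq_lintegral_mfderivWithin_Icc]
  calc _ ≤ ∫⁻ _ in Icc (0 : ℝ) 1, ENNReal.ofReal (C * A.K * dist x y) := by
        refine setLIntegral_mono' measurableSet_Icc fun t ht => ?_
        rw [← ofReal_norm]
        exact ENNReal.ofReal_le_ofReal (hspeed t ht)
    _ = _ := by
        rw [setLIntegral_const, Real.volume_Icc, sub_zero, ENNReal.ofReal_one, mul_one,
          ENNReal.ofReal_mul (mul_nonneg hC0 hK), edist_dist,
          ENNReal.ofReal_eq_coe_nnreal (mul_nonneg hC0 hK)]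
        rfl

end Pool.Agent.Lib.MP_e7c912_an
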