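import Pool.Agent.Lib.MP_e7c912_an.H60Main
import Pool.Agent.Lib.MP_e7c912_an.H60Br1
import Pool.Agent.Lib.MP_e7c912_an.H60Br5
import Pool.Agent.Lib.MP_e7c912_an.H60Br4

/-! Transfer of the abstract result to Riemannian surfaces. -/

namespace Pool.Agent.Lib.MP_e7c912_an

open MeasureTheory Filter Metric Set Topology Bundle
open scoped ContDiff ENNReal

variable {E : Type} [NormedAddCommGroup E] [NormedSpace ℝ E]

section

variable {M : Type} [TopologicalSpace M] [ChartedSpace E M] [IsManifold (II E) ∞ M] {X : Type}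
  [MetricSpace X] [MeasurableSpace X] {A : Atlas X} {j : M ≃ₜ X}

/-- A diffeomorphism of the surface, read in the atlas. -/
noncomputable def Compat.dif (H : Compat E A j) (g : Diffeo E M) : Dif A where
  f := conj j g
  g := conj j g.symm
  gf x := by simp [conj]
  fg x := by simp [conj]
  smf := H.sm g.contMDiff
  smg := H.sm g.symm.contMDiff

end

theorem ergodic_conj {M X : Type} [TopologicalSpace M] [MeasurableSpace M] [BorelSpace M]
    [TopologicalSpace X] [MeasurableSpace X] [BorelSpace X] (j : M ≃ₜ X) {g : M → M}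
    {μ : Measure M} : Ergodic (conj j g) (μ.map j) ↔ Ergodic g μ := by
  have h : MeasurePreserving j.toMeasurableEquiv μ (μ.map j) := ⟨j.measurable, rfl⟩
  exact h.ergodic_conjugate_iff

theorem exists_freq {X : Type} [MeasurableSpace X] {T S : X → X} {M M' : ℕ → X → V →L[ℝ] V} {K : ℝ}
    (h : Cocycle T S M M' K) {x : X} (hx : 0 < l1 M x) :
    ∃ c : ℝ, 0 < c ∧ ∃ᶠ n : ℕ in atTop, Real.exp (c * n) ≤ ‖M n x‖ := by
  refine ⟨l1 M x / 2, half_pos hx, ?_⟩
  have hb : IsCoboundedUnder (· ≤ ·) atTop fun n : ℕ => Real.log ‖M n x‖ / n := by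
    refine isCoboundedUnder_le_of_le atTop (x := -Real.log K) fun n => ?_
    rcases Nat.eq_zero_or_pos n with rfl | hn
    · simpa using Real.log_nonneg h.one_le
    · rw [le_div_iff₀ (by exact_mod_cast hn)]
      linarith [(abs_le.1 (h.abs_log_le n x)).1]
  have h1 := frequently_lt_of_lt_limsup hb (half_lt_self hx)
  refine (h1.and_eventually (eventually_gt_atTop 0)).mono fun n ⟨h2, hn⟩ => ?_
  have hn' : (0 : ℝ) < n := by exact_mod_cast hn
  rw [lt_div_iff₀ hn'] at h2
  have hpos : 0 < ‖M n x‖ := by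
    rcases (norm_nonneg (M n x)).eq_or_lt with h0 | h0
    · rw [← h0, Real.log_zero] at h2
      exact absurd h2 (not_lt.2 (mul_pos (half_pos hx) hn').le)
    · exact h0
  exact ((Real.lt_log_iff_exp_lt hpos).1 h2).le

theorem final (hE : Module.finrank ℝ E = 2) {M : Type} [EMetricSpace M] [ChartedSpace E M] [IsManifold (II E) ∞ M] [CompactSpace M]
    [RiemannianBundle fun x : M => TangentSpace (II E) x]
    [IsContMDiffRiemannianBundle (II E) ∞ E fun x : M => TangentSpace (II E) x]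
    [IsRiemannianManifold (II E) M] [MeasurableSpace M] [BorelSpace M] (f : Diffeo E M) (b : ℝ)
    (hb : 0 < b) : ∃ U : Set (Diffeo E M), IsSmoothNhd f U ∧ ∀ g ∈ U,
      {μ : Measure M | IsSRB g μ ∧ ENNReal.ofReal b < ksEntropy μ g}.encard ≤
        {μ : Measure M | IsSRB f μ ∧ ENNReal.ofReal b ≤ ksEntropy μ f}.encard ∧
      {μ : Measure M | IsSRB f μ ∧ ENNReal.ofReal b ≤ ksEntropy μ f}.encard < ⊤ := by
  obtain ⟨X, _, _, _, _, A, j, ⟨H⟩⟩ := exists_atlas hE M
  obtain ⟨C, hC⟩ := H.lip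
  obtain ⟨C', hC'⟩ := H.lip_symm
  have hks : ∀ (g : Diffeo E M) (μ : Measure M), ksEntropy (μ.map j) (H.dif g).f = ksEntropy μ g :=
    fun g μ => ks_map j.toMeasurableEquiv fun x => by simp [Compat.dif, conj]
  have hinj : Function.Injective fun μ : Measure M => μ.map j :=
    j.toMeasurableEquiv.map_measurableEquiv_injective
  have h1 : ∀ (g : Diffeo E M) (μ : Measure M), IsSRB g μ → SRB (H.dif g) (μ.map j) := by
    rintro g μ ⟨hp, he, -, hl⟩
    exact ⟨Measure.isProbabilityMeasure_map j.measurable.aemeasurable, (ergodic_conj j).2 he,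
      (leafAC_map A.ρ_pos hC hC' _ μ).2 hl⟩
  have h2 : {ν : Measure X | SRB (H.dif f) ν ∧ ENNReal.ofReal b ≤ ksEntropy ν (H.dif f).f} =
      (fun μ : Measure M => μ.map j) ''
        {μ : Measure M | IsSRB f μ ∧ ENNReal.ofReal b ≤ ksEntropy μ f} := by
    ext ν
    constructor
    · rintro ⟨hν, hk⟩
      obtain ⟨μ, rfl⟩ : ∃ μ : Measure M, μ.map j = ν :=
        ⟨ν.map j.symm, j.toMeasurableEquiv.map_map_symm⟩
      have hp : IsProbabilityMeasure μ := by
        have := hν.1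
        exact Measure.isProbabilityMeasure_of_map (μ := μ) j
      refine ⟨μ, ⟨⟨hp, (ergodic_conj j).1 hν.2.1, ?_, (leafAC_map A.ρ_pos hC hC' _ μ).1 hν.2.2⟩,
        hks f μ ▸ hk⟩, rfl⟩
      obtain ⟨K, hK⟩ := (H.dif f).cocycle
      filter_upwards [ae_of_ae_map j.measurable.aemeasurable (hν.hyp hb hk)] with x hx
      exact H.exponent f (exists_freq hK hx.1)
    · rintro ⟨μ, ⟨hμ, hk⟩, rfl⟩
      exact ⟨h1 f μ hμ, (hks f μ).symm ▸ hk⟩
  have h3 : {μ : Measure M | IsSRB f μ ∧ ENNReal.ofReal b ≤ ksEntropy μ f}.encard =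
      {ν : Measure X | SRB (H.dif f) ν ∧ ENNReal.ofReal b ≤ ksEntropy ν (H.dif f).f}.encard := by
    rw [h2, hinj.encard_image]
  refine ⟨_, H.nhd f (p := fun g =>
    {μ : Measure M | IsSRB g μ ∧ ENNReal.ofReal b < ksEntropy μ g}.encard ≤
      {μ : Measure M | IsSRB f μ ∧ ENNReal.ofReal b ≤ ksEntropy μ f}.encard) fun gs hc => ?_,
    fun g hg => ⟨hg, ?_⟩⟩
  · filter_upwards [main_usc (Fs := fun n => H.dif (gs n)) (F := H.dif f) hc hb] with n hn
    rw [h3]
    refine le_trans ?_ hn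
    rw [← hinj.encard_image]
    refine encard_le_encard ?_
    rintro _ ⟨μ, ⟨hμ, hk⟩, rfl⟩
    exact ⟨h1 _ μ hμ, (hks (gs n) μ).symm ▸ hk⟩
  · rw [h3]
    exact (main_fin _ hb).encard_lt_top

end Pool.Agent.Lib.MP_e7c912_an
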