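import Pool.Agent.Lib.MP_e7c912_an.H51Box
import Pool.Agent.Lib.MP_e7c912_an.H60Final

/-! The semicontinuity theorem for SRB measures defined through conditional measures. -/

namespace Pool.Agent.Lib.MP_e7c912_an

open MeasureTheory Filter Metric Set Topology Bundle
open scoped ContDiff ENNReal

variable {E : Type} [NormedAddCommGroup E] [NormedSpace ℝ E]

/-- For ergodic measures of positive entropy the two notions of absolute continuity agree. -/
theorem condAC_iff (hE : Module.finrank ℝ E = 2) {M : Type} [EMetricSpace M] [ChartedSpace E M]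
    [IsManifold (II E) ∞ M] [CompactSpace M]
    [RiemannianBundle fun x : M => TangentSpace (II E) x]
    [IsContMDiffRiemannianBundle (II E) ∞ E fun x : M => TangentSpace (II E) x]
    [IsRiemannianManifold (II E) M] [MeasurableSpace M] [BorelSpace M] (g : Diffeo E M)
    {μ : Measure M} [IsProbabilityMeasure μ] (he : Ergodic g μ) {b : ℝ} (hb : 0 < b)
    (hk : ENNReal.ofReal b ≤ ksEntropy μ g) : LY.CondAC g.symm μ ↔ LeafAC g.symm μ := by
  obtain ⟨X, _, _, _, _, A, j, ⟨H⟩⟩ := exists_atlas hE M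
  obtain ⟨C, hC⟩ := H.lip
  obtain ⟨C', hC'⟩ := H.lip_symm
  have : PolishSpace M := j.isClosedEmbedding.polishSpace
  have hks : ksEntropy (μ.map j) (H.dif g).f = ksEntropy μ g :=
    ks_map j.toMeasurableEquiv fun x => by simp [Compat.dif, conj]
  have := Measure.isProbabilityMeasure_map (μ := μ) j.measurable.aemeasurable
  have he' : Ergodic (H.dif g).f (μ.map j) := (ergodic_conj j).2 he
  obtain ⟨P, hP⟩ := exists_lam (H.dif g) he' (by
    filter_upwards [hyp_of_entropy (H.dif g) he' hb (hks.symm ▸ hk)] with x hx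
    exact ⟨hb.trans_le hx.1, by linarith [hx.2]⟩)
  have hW : ∀ x y, y ∈ Wu (H.dif g).g x → j.symm y ∈ Wu g.symm (j.symm x) := by
    intro x y h
    rw [← wu_iff_br4 A.ρ_pos hC hC', j.apply_symm_apply, j.apply_symm_apply]
    exact h
  have hH : ∀ B, Measure.hausdorffMeasure 1 (j.symm '' B) = 0 ↔
      Measure.hausdorffMeasure 1 B = 0 := by
    intro B
    rw [← haus_iff_br4 A.ρ_pos hC hC', image_image]
    simp
  have hL : Lam g.symm μ fun i => (P i).map j.symm hW hH := by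
    refine ⟨?_, fun i => ?_⟩
    · filter_upwards [ae_of_ae_map j.measurable.aemeasurable hP.cov] with x hx y hy
      exact hx (j y) ((wu_iff_br4 A.ρ_pos hC hC' _ x y).2 hy)
    · exact (⟨j.measurable, rfl⟩ :
        MeasurePreserving j μ (μ.map j)).quasiMeasurePreserving.preimage_null (hP.bd i)
  exact ⟨hL.leafAC, hL.condAC⟩

theorem final_ly (hE : Module.finrank ℝ E = 2) {M : Type} [EMetricSpace M] [ChartedSpace E M]
    [IsManifold (II E) ∞ M] [CompactSpace M]
    [RiemannianBundle fun x : M => TangentSpace (II E) x]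
    [IsContMDiffRiemannianBundle (II E) ∞ E fun x : M => TangentSpace (II E) x]
    [IsRiemannianManifold (II E) M] [MeasurableSpace M] [BorelSpace M] (f : Diffeo E M) (b : ℝ)
    (hb : 0 < b) : ∃ U : Set (Diffeo E M), LY.IsSmoothNhd f U ∧ ∀ g ∈ U,
      LY.NSRB g b ≤ LY.NbarSRB f b ∧ LY.NbarSRB f b < ⊤ := by
  have key : ∀ (g : Diffeo E M) (μ : Measure M), ENNReal.ofReal b ≤ ksEntropy μ g →
      (LY.IsSRB g μ ↔ IsSRB g μ) := fun g μ hk =>
    ⟨fun ⟨h1, h2, h3, h4⟩ => ⟨h1, h2, h3, (condAC_iff hE g h2 hb hk).1 h4⟩,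
      fun ⟨h1, h2, h3, h4⟩ => ⟨h1, h2, h3, (condAC_iff hE g h2 hb hk).2 h4⟩⟩
  have h1 : ∀ g : Diffeo E M, LY.NSRB g b =
      {μ : Measure M | IsSRB g μ ∧ ENNReal.ofReal b < ksEntropy μ g}.encard := fun g =>
    congrArg Set.encard (Set.ext fun μ =>
      ⟨fun h => ⟨(key g μ h.2.le).1 h.1, h.2⟩, fun h => ⟨(key g μ h.2.le).2 h.1, h.2⟩⟩)
  have h2 : LY.NbarSRB f b =
      {μ : Measure M | IsSRB f μ ∧ ENNReal.ofReal b ≤ ksEntropy μ f}.encard :=
    congrArg Set.encard (Set.ext fun μ =>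
      ⟨fun h => ⟨(key f μ h.2).1 h.1, h.2⟩, fun h => ⟨(key f μ h.2).2 h.1, h.2⟩⟩)
  obtain ⟨U, hU, h⟩ := final hE f b hb
  refine ⟨U, hU, fun g hg => ?_⟩
  rw [h1, h2]
  exact h g hg

end Pool.Agent.Lib.MP_e7c912_an
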