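import Pool.Agent.Lib.MP_e7c912_an.H60Br4
import Pool.Agent.Lib.MP_e7c912_an.H51Defs

/-! Compact laminated pieces covering the leaves. -/

namespace Pool.Agent.Lib.MP_e7c912_an

open MeasureTheory ProbabilityTheory Filter Set Topology
open scoped ENNReal NNReal

variable {Z : Type} [EMetricSpace Z] {S : Z → Z}

theorem wu_self (S : Z → Z) (x : Z) : x ∈ Wu S x :=
  ⟨1, one_pos, Eventually.of_forall fun n => by simp⟩

theorem wu_symm {x y : Z} (h : y ∈ Wu S x) : x ∈ Wu S y := by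
  obtain ⟨c, hc, h⟩ := h
  exact ⟨c, hc, h.mono fun n hn => by rwa [edist_comm]⟩

theorem wu_trans {x y z : Z} (h : y ∈ Wu S x) (h' : z ∈ Wu S y) : z ∈ Wu S x := by
  obtain ⟨c, hc, h⟩ := h
  obtain ⟨c', hc', h'⟩ := h'
  have hm : 0 < min c c' := lt_min hc hc'
  refine ⟨min c c' / 2, half_pos hm, ?_⟩
  filter_upwards [h, h', rate_br4 2 hm] with n h1 h2 h3
  have hn : (0 : ℝ) ≤ n := Nat.cast_nonneg n
  have e1 : ENNReal.ofReal (Real.exp (-c * n)) ≤ ENNReal.ofReal (Real.exp (-min c c' * n)) :=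
    ENNReal.ofReal_le_ofReal (Real.exp_le_exp.2 (by nlinarith [min_le_left c c']))
  have e2 : ENNReal.ofReal (Real.exp (-c' * n)) ≤ ENNReal.ofReal (Real.exp (-min c c' * n)) :=
    ENNReal.ofReal_le_ofReal (Real.exp_le_exp.2 (by nlinarith [min_le_right c c']))
  refine (edist_triangle _ (S^[n] y) _).trans (le_trans ?_ h3)
  rw [show ((2 : ℝ≥0) : ℝ≥0∞) = 2 from rfl, two_mul]
  exact add_le_add (h1.trans e1) (h2.trans e2)

variable [MeasurableSpace Z] [BorelSpace Z]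

/-- A closed set `Y` filled by arcs `σ y` inside the leaves, with label `p` and coordinate `u`. -/
structure Piece (S : Z → Z) where
  Y : Set Z
  p : Z → ℝ
  u : Z → ℝ
  σ : Z → ℝ → Z
  τ : ℝ
  τ_pos : 0 < τ
  closed : IsClosed Y
  mp : Measurable p
  cu : Continuous u
  u_mem : ∀ y ∈ Y, u y ∈ Icc (-τ) τ
  σ_self : ∀ y ∈ Y, σ y (u y) = y
  σ_mem : ∀ y ∈ Y, ∀ t ∈ Icc (-τ) τ, σ y t ∈ Y ∧ p (σ y t) = p y ∧ u (σ y t) = t ∧ σ y t ∈ Wu S y
  inj : ∀ y ∈ Y, ∀ y' ∈ Y, p y = p y' → u y = u y' → y = y'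
  σ_cont : ∀ y ∈ Y, ContinuousOn (σ y) (Icc (-τ) τ)
  null : ∀ y ∈ Y, ∀ N ⊆ Icc (-τ) τ, Measure.hausdorffMeasure 1 (σ y '' N) = 0 ↔ volume N = 0

namespace Piece

variable (Q : Piece S)

/-- The arc through `y`. -/
def L (y : Z) : Set Z := {z | z ∈ Q.Y ∧ Q.p z = Q.p y}

theorem eq_σ {y z : Z} (hy : y ∈ Q.Y) (hz : z ∈ Q.L y) : Q.σ y (Q.u z) = z := by
  obtain ⟨h1, h2, h3, -⟩ := Q.σ_mem y hy _ (Q.u_mem z hz.1)
  exact Q.inj _ h1 _ hz.1 (h2.trans hz.2.symm) h3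

theorem L_eq {y : Z} (hy : y ∈ Q.Y) : Q.L y = Q.σ y '' Icc (-Q.τ) Q.τ := by
  ext z
  constructor
  · intro hz
    exact ⟨Q.u z, Q.u_mem z hz.1, Q.eq_σ hy hz⟩
  · rintro ⟨t, ht, rfl⟩
    exact ⟨(Q.σ_mem y hy t ht).1, (Q.σ_mem y hy t ht).2.1⟩

theorem L_sub {y : Z} (hy : y ∈ Q.Y) : Q.L y ⊆ Wu S y := by
  rw [Q.L_eq hy]
  rintro _ ⟨t, ht, rfl⟩
  exact (Q.σ_mem y hy t ht).2.2.2

theorem isClosed_L {y : Z} (hy : y ∈ Q.Y) : IsClosed (Q.L y) := by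
  rw [Q.L_eq hy]
  exact (isCompact_Icc.image_of_continuousOn (Q.σ_cont y hy)).isClosed

theorem L_ne {y : Z} (hy : y ∈ Q.Y) : Measure.hausdorffMeasure 1 (Q.L y) ≠ 0 := by
  rw [Q.L_eq hy, Ne, Q.null y hy _ Subset.rfl, Real.volume_Icc, ENNReal.ofReal_eq_zero, not_le]
  linarith [Q.τ_pos]

theorem null_L {y : Z} (hy : y ∈ Q.Y) {B : Set Z}
    (h : volume {t | t ∈ Icc (-Q.τ) Q.τ ∧ Q.σ y t ∈ B} = 0) :
    Measure.hausdorffMeasure 1 (B ∩ Q.L y) = 0 := by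
  refine measure_mono_null ?_ ((Q.null y hy _ fun t ht => ht.1).2 h)
  rintro z ⟨h1, h2⟩
  exact ⟨Q.u z, ⟨Q.u_mem z h2.1, by rwa [Q.eq_σ hy h2]⟩, Q.eq_σ hy h2⟩

theorem measurableSet_Y : MeasurableSet Q.Y := Q.closed.measurableSet

/-- Only countably many arcs of `Q` meet a given arc of `R` in positive length. -/
theorem countable_labels (R : Piece S) {x : Z} (hx : x ∈ R.Y) :
    {s : ℝ | volume {t | t ∈ Icc (-R.τ) R.τ ∧ R.σ x t ∈ {z | z ∈ Q.Y ∧ Q.p z = s}} ≠ 0}.Countable := by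
  have hτ : -R.τ ≤ R.τ := by linarith [R.τ_pos]
  set c : ℝ → Z := fun t => R.σ x (projIcc _ _ hτ t) with hc
  have hcc : Continuous c :=
    (continuousOn_iff_continuous_domRestrict.1 (R.σ_cont x hx)).comp continuous_projIcc
  have h1 := Measure.countable_meas_level_set_pos
    (μ := volume.restrict (Icc (-R.τ) R.τ ∩ c ⁻¹' Q.Y)) (Q.mp.comp hcc.measurable)
  refine h1.mono fun s hs => ?_
  have hm : MeasurableSet {t | (Q.p ∘ c) t = s} :=
    (Q.mp.comp hcc.measurable) (measurableSet_singleton s)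
  rw [mem_ofPred_eq, Measure.restrict_apply hm, pos_iff_ne_zero]
  refine fun h0 => hs (measure_mono_null ?_ h0)
  rintro t ⟨ht, h2, h3⟩
  have e : c t = R.σ x t := by simp only [hc, projIcc_of_mem hτ ht]
  exact ⟨by simpa [e] using h3, ht, by simpa [e] using h2⟩

end Piece

/-- The arcs through almost every point cover its leaf, and the ends of the arcs are null. -/
structure Lam (S : Z → Z) (μ : Measure Z) (P : ℕ → Piece S) : Prop where
  cov : ∀ᵐ x ∂μ, ∀ y ∈ Wu S x, ∃ i, x ∈ (P i).Y ∧ y ∈ (P i).L x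
  bd : ∀ i, μ {y | |(P i).u y| = (P i).τ} = 0

theorem null_inter_wu {P : ℕ → Piece S} {x : Z}
    (hx : ∀ y ∈ Wu S x, ∃ i, x ∈ (P i).Y ∧ y ∈ (P i).L x) (Q : Piece S) {B : Set Z}
    (hB : B ⊆ Q.Y) (h0 : ∀ y ∈ B, Measure.hausdorffMeasure 1 (B ∩ Q.L y) = 0) :
    Measure.hausdorffMeasure 1 (B ∩ Wu S x) = 0 := by
  set C : Set ℝ := ⋃ i, ⋃ _ : x ∈ (P i).Y, {s : ℝ | volume {t | t ∈ Icc (-(P i).τ) (P i).τ ∧
    (P i).σ x t ∈ {z | z ∈ Q.Y ∧ Q.p z = s}} ≠ 0} with hC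
  have hCc : C.Countable :=
    countable_iUnion fun i => countable_iUnion fun hi => Q.countable_labels (P i) hi
  have hsub : B ∩ Wu S x ⊆ ⋃ s ∈ C, B ∩ {z | Q.p z = s} := by
    rintro y ⟨hy, hyx⟩
    refine mem_iUnion₂.2 ⟨Q.p y, ?_, hy, rfl⟩
    by_contra hn
    refine Q.L_ne (hB hy) (measure_mono_null
      (t := ⋃ i, ⋃ _ : x ∈ (P i).Y, Q.L y ∩ (P i).L x) ?_ ?_)
    · intro z hz
      obtain ⟨i, h1, h2⟩ := hx z (wu_trans hyx (Q.L_sub (hB hy) hz))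
      exact mem_iUnion₂.2 ⟨i, h1, hz, h2⟩
    · refine measure_iUnion_null fun i => measure_iUnion_null fun hi => (P i).null_L hi ?_
      by_contra h1
      exact hn (mem_iUnion₂.2 ⟨i, hi, h1⟩)
  refine measure_mono_null hsub ((measure_biUnion_null_iff hCc).2 fun s _ => ?_)
  rcases (B ∩ {z | Q.p z = s}).eq_empty_or_nonempty with h | ⟨y, hy, hs⟩
  · rw [h, measure_empty]
  · refine measure_mono_null ?_ (h0 y hy)
    rintro z ⟨h1, h2⟩
    exact ⟨h1, hB h1, h2.trans hs.symm⟩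

/-- In the coordinates of a piece the measure is absolutely continuous along the arcs. -/
theorem Lam.ac {μ : Measure Z} [IsFiniteMeasure μ] {P : ℕ → Piece S} (hL : Lam S μ P)
    (hac : LeafAC S μ) (Q : Piece S) :
    (μ.restrict Q.Y).map (fun y => (Q.p y, Q.u y)) ≪
      ((μ.restrict Q.Y).map Q.p).prod (volume.restrict (Icc (-Q.τ) Q.τ)) := by
  have hm : Measurable fun y => (Q.p y, Q.u y) := Q.mp.prodMk Q.cu.measurable
  refine Measure.AbsolutelyContinuous.mk fun D hD h0 => ?_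
  have h1 := Measure.measure_ae_null_of_prod_null h0
  set T : Set ℝ := {s | volume.restrict (Icc (-Q.τ) Q.τ) (Prod.mk s ⁻¹' D) = 0} with hT
  have hTm : MeasurableSet T := (measurable_measure_prodMk_left hD) (measurableSet_singleton 0)
  have h2 : μ (Q.p ⁻¹' Tᶜ ∩ Q.Y) = 0 := by
    rw [← Measure.restrict_apply (Q.mp hTm.compl), ← Measure.map_apply Q.mp hTm.compl]
    exact h1
  set B : Set Z := ((fun y => (Q.p y, Q.u y)) ⁻¹' D ∩ Q.Y) ∩ Q.p ⁻¹' T with hB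
  have h3 : μ B = 0 := by
    refine hac B (((hm hD).inter Q.measurableSet_Y).inter (Q.mp hTm)) ?_
    filter_upwards [hL.cov] with x hx
    refine null_inter_wu hx Q (fun y hy => hy.1.2) fun y hy => Q.null_L hy.1.2 ?_
    have h4 : volume.restrict (Icc (-Q.τ) Q.τ) (Prod.mk (Q.p y) ⁻¹' D) = 0 := hy.2
    rw [Measure.restrict_apply (measurable_prodMk_left hD)] at h4
    refine measure_mono_null ?_ h4
    rintro t ⟨ht, h5⟩
    obtain ⟨-, h6, h7, -⟩ := Q.σ_mem y hy.1.2 t ht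
    refine ⟨?_, ht⟩
    have h8 : (Q.p (Q.σ y t), Q.u (Q.σ y t)) ∈ D := h5.1.1
    rwa [h6, h7] at h8
  rw [Measure.map_apply hm hD, Measure.restrict_apply (hm hD)]
  refine measure_mono_null (fun y hy => ?_) (measure_union_null h2 h3)
  by_cases h : Q.p y ∈ T
  · exact Or.inr ⟨hy, h⟩
  · exact Or.inl ⟨h, hy.2⟩

end Pool.Agent.Lib.MP_e7c912_an
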