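import Pool.Agent.Lib.MP_e7c912_an.H60Defs

/-! A compact surface as a metric space isometrically embedded in a sup-normed space, with finitely
many charts that are linear projections. Definitions only. -/

namespace Pool.Agent.Lib.MP_e7c912_an

open MeasureTheory Filter Metric Set Topology
open scoped ENNReal

/-- The plane with the sup norm. -/
abbrev V : Type := ℝ × ℝ

/-- The area form. -/
def om (a b : V) : ℝ := a.1 * b.2 - a.2 * b.1

/-- The determinant. -/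
def det2 (L : V →L[ℝ] V) : ℝ := om (L (1, 0)) (L (0, 1))

/-- The diagonal map. -/
noncomputable def diag (a b : ℝ) : V →L[ℝ] V :=
  (a • ContinuousLinearMap.fst ℝ ℝ ℝ).prod (b • ContinuousLinearMap.snd ℝ ℝ ℝ)

@[simp] theorem diag_apply (a b : ℝ) (z : V) : diag a b z = (a * z.1, b * z.2) := rfl

/-- Embedding `e`, projections `pr i`, parametrisations `ψ i` on the convex open sets `U i`,
closed sets `D i` covering the space well inside the charts. -/
structure Atlas (X : Type) [MetricSpace X] [MeasurableSpace X] where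
  N : ℕ
  m : ℕ
  e : X → Fin N → ℝ
  pr : Fin m → (Fin N → ℝ) →L[ℝ] V
  ψ : Fin m → V → X
  U : Fin m → Set V
  D : Fin m → Set X
  idx : X → Fin m
  ρ : ℝ
  K : ℝ
  iso : Isometry e
  pr_le : ∀ i, ‖pr i‖ ≤ 1
  U_open : ∀ i, IsOpen (U i)
  U_convex : ∀ i, Convex ℝ (U i)
  D_closed : ∀ i, IsClosed (D i)
  mem_D : ∀ x, x ∈ D (idx x)
  meas_idx : Measurable idx
  ρ_pos : 0 < ρ
  ρ_le : ρ ≤ 1
  one_le_K : 1 ≤ K
  ball_sub : ∀ i, ∀ x ∈ D i, ball (pr i (e x)) ρ ⊆ U i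
  right_inv : ∀ i, ∀ w ∈ U i, pr i (e (ψ i w)) = w
  left_inv : ∀ i, ∀ x ∈ D i, ∀ y, dist y x < ρ → ψ i (pr i (e y)) = y
  smooth : ∀ r : ℕ, ∃ K' : ℝ, ∀ i, ContDiffOn ℝ r (e ∘ ψ i) (U i) ∧
    ∀ s ≤ r, ∀ w ∈ U i, ‖iteratedFDeriv ℝ s (e ∘ ψ i) w‖ ≤ K'
  deriv_le : ∀ i, ∀ w ∈ U i, ‖fderiv ℝ (e ∘ ψ i) w‖ ≤ K

namespace Atlas

variable {X : Type} [MetricSpace X] [MeasurableSpace X] (A : Atlas X)

/-- The coordinate map of chart `i`. -/
noncomputable def φ (i : Fin A.m) (x : X) : V := A.pr i (A.e x)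

/-- The map `g` read from chart `i` to the ambient space. -/
def rep (g : X → X) (i : Fin A.m) : V → Fin A.N → ℝ := A.e ∘ g ∘ A.ψ i

/-- `g` is `C^r` with derivatives bounded by `K`. -/
def Reg (r : ℕ) (K : ℝ) (g : X → X) : Prop :=
  ∀ i, ContDiffOn ℝ r (A.rep g i) (A.U i) ∧
    ∀ s ≤ r, ∀ w ∈ A.U i, ‖iteratedFDeriv ℝ s (A.rep g i) w‖ ≤ K

/-- `g` is smooth. -/
def Sm (g : X → X) : Prop := Continuous g ∧ ∀ r : ℕ, ∃ K : ℝ, A.Reg r K g

/-- Upper bound for the first derivative. -/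
def Up (K : ℝ) (g : X → X) : Prop := ∀ i, ∀ w ∈ A.U i, ‖fderiv ℝ (A.rep g i) w‖ ≤ K

/-- Lower bound for the first derivative. -/
def Low (K : ℝ) (g : X → X) : Prop :=
  ∀ i, ∀ w ∈ A.U i, ∀ v : V, ‖v‖ ≤ K * ‖fderiv ℝ (A.rep g i) w v‖

/-- The derivative of `g` at `x` in the charts selected at `x` and `g x`. -/
noncomputable def Dm (g : X → X) (x : X) : V →L[ℝ] V :=
  (A.pr (A.idx (g x))).comp (fderiv ℝ (A.rep g (A.idx x)) (A.φ (A.idx x) x))

/-- Convergence in the smooth topology. -/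
def Conv (gs : ℕ → X → X) (g : X → X) : Prop :=
  ∀ (r : ℕ) (i : Fin A.m), TendstoUniformlyOn (fun n => iteratedFDeriv ℝ r (A.rep (gs n) i))
    (iteratedFDeriv ℝ r (A.rep g i)) atTop (A.U i)

/-- Convergence in the `C^1` topology. -/
def Conv1 (gs : ℕ → X → X) (g : X → X) : Prop :=
  ∀ i : Fin A.m, TendstoUniformlyOn (fun n => A.rep (gs n) i) (A.rep g i) atTop (A.U i) ∧
    TendstoUniformlyOn (fun n => fderiv ℝ (A.rep (gs n) i)) (fderiv ℝ (A.rep g i)) atTop (A.U i)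

end Atlas

/-- Smooth diffeomorphisms. -/
structure Dif {X : Type} [MetricSpace X] [MeasurableSpace X] (A : Atlas X) where
  f : X → X
  g : X → X
  gf : ∀ x, g (f x) = x
  fg : ∀ x, f (g x) = x
  smf : A.Sm f
  smg : A.Sm g

/-- The inverse. -/
def Dif.symm {X : Type} [MetricSpace X] [MeasurableSpace X] {A : Atlas X} (F : Dif A) : Dif A :=
  ⟨F.g, F.f, F.fg, F.gf, F.smg, F.smf⟩

/-- Top exponent of a sequence of matrices. -/
noncomputable def l1 {X : Type} (M : ℕ → X → V →L[ℝ] V) (x : X) : ℝ :=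
  limsup (fun n : ℕ => Real.log ‖M n x‖ / n) atTop

/-- Second exponent of a sequence of matrices. -/
noncomputable def l2 {X : Type} (M : ℕ → X → V →L[ℝ] V) (x : X) : ℝ :=
  limsup (fun n : ℕ => Real.log |det2 (M n x)| / n) atTop - l1 M x

/-- The derivative cocycle. -/
noncomputable def Atlas.coc {X : Type} [MetricSpace X] [MeasurableSpace X] (A : Atlas X)
    (g : X → X) (n : ℕ) (x : X) : V →L[ℝ] V := A.Dm g^[n] x

/-- A bounded invertible measurable cocycle `M` over `T`, with inverse cocycle `M'` over `S`. -/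
structure Cocycle {X : Type} [MeasurableSpace X] (T S : X → X) (M M' : ℕ → X → V →L[ℝ] V)
    (K : ℝ) : Prop where
  measT : Measurable T
  measS : Measurable S
  ST : ∀ x, S (T x) = x
  TS : ∀ x, T (S x) = x
  measM : ∀ n, Measurable (M n)
  measM' : ∀ n, Measurable (M' n)
  zero : ∀ x, M 0 x = ContinuousLinearMap.id ℝ V
  zero' : ∀ x, M' 0 x = ContinuousLinearMap.id ℝ V
  add : ∀ n k x, M (n + k) x = (M k (T^[n] x)).comp (M n x)
  add' : ∀ n k x, M' (n + k) x = (M' k (S^[n] x)).comp (M' n x)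
  inv : ∀ n x, (M' n (T^[n] x)).comp (M n x) = ContinuousLinearMap.id ℝ V
  inv' : ∀ n x, (M n (S^[n] x)).comp (M' n x) = ContinuousLinearMap.id ℝ V
  one_le : 1 ≤ K
  le : ∀ x, ‖M 1 x‖ ≤ K
  le' : ∀ x, ‖M' 1 x‖ ≤ K

theorem Cocycle.symm {X : Type} [MeasurableSpace X] {T S : X → X} {M M' : ℕ → X → V →L[ℝ] V}
    {K : ℝ} (h : Cocycle T S M M' K) : Cocycle S T M' M K :=
  ⟨h.measS, h.measT, h.TS, h.ST, h.measM', h.measM, h.zero', h.zero, h.add', h.add, h.inv', h.inv,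
    h.one_le, h.le', h.le⟩

/-- SRB measures of the abstract setting (the exponent comes from positive entropy). -/
def SRB {X : Type} [MetricSpace X] [MeasurableSpace X] [BorelSpace X] {A : Atlas X} (F : Dif A)
    (μ : Measure X) : Prop :=
  IsProbabilityMeasure μ ∧ Ergodic F.f μ ∧ LeafAC F.g μ

/-- Upper time average. -/
noncomputable def avg {X : Type} (T : X → X) (φ : X → ℝ) (x : X) : ℝ :=
  limsup (fun n : ℕ => birkhoffAverage ℝ T φ n x) atTop

/-- `x` is generic for `μ`. -/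
def Gen {X : Type} [TopologicalSpace X] [MeasurableSpace X] (T : X → X) (μ : Measure X) (x : X) :
    Prop :=
  ∀ φ : C(X, ℝ), Tendsto (fun n : ℕ => birkhoffAverage ℝ T φ n x) atTop (𝓝 (∫ y, φ y ∂μ))

/-- `x` returns to `Λ` arbitrarily close to itself. -/
def Rec {X : Type} [MetricSpace X] (T : X → X) (Λ : Set X) (x : X) : Prop :=
  ∀ γ : ℝ, 0 < γ → ∃ N : ℕ, 1 ≤ N ∧ T^[N] x ∈ Λ ∧ dist (T^[N] x) x < γ

/-- A curve on `[0,1]`, bi-Lipschitz and uniformly contracted by `S`. -/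
def UCur {X : Type} [MetricSpace X] (S : X → X) (K c : ℝ) (σ : ℝ → X) : Prop :=
  ∀ s ∈ Icc (0 : ℝ) 1, ∀ t ∈ Icc (0 : ℝ) 1, |s - t| ≤ K * dist (σ s) (σ t) ∧
    ∀ j : ℕ, dist (S^[j] (σ s)) (S^[j] (σ t)) ≤ K * Real.exp (-c * j) * |s - t|

end Pool.Agent.Lib.MP_e7c912_an
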