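import Pool.Agent.Lib.MP_e7c912_an.H60SLem1

/-! Closed conditions, measures carried by curves, the state space. -/

namespace Pool.Agent.Lib.MP_e7c912_an

open MeasureTheory Filter Metric Set Topology
open scoped ENNReal unitInterval

variable {X : Type} [MetricSpace X] [MeasurableSpace X] {A : Atlas X} {ε : ℝ}

theorem tendsto_pt_sl {ws : ℕ → Cv A ε} {w : Cv A ε} (hw : Tendsto ws atTop (𝓝 w)) (t : ℝ) :
    Tendsto (fun n => (ws n).pt t) atTop (𝓝 (w.pt t)) :=
  (Cv.continuous_pt.tendsto (w, t)).comp (hw.prodMk_nhds tendsto_const_nhds)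

theorem conv1_iter_sl {Fs : ℕ → Dif A} {F : Dif A} (h : A.Conv1 (fun n => (Fs n).f) F.f)
    (p k : ℕ) : A.Conv1 (fun n => ((Fs n).f^[p])^[k]) (F.f^[p])^[k] :=
  (h.iter (fun n => (Fs n).smf) F.smf p).iter (fun n => (Fs n).smf.iter p) (F.smf.iter p) k

theorem UC.limit {Fs : ℕ → Dif A} {F : Dif A} (h : A.Conv1 (fun n => (Fs n).f) F.f) {q : Prm}
    {j : ℕ} {ws : ℕ → Cv A q.ε} {w : Cv A q.ε} (hw : Tendsto ws atTop (𝓝 w))
    (H : ∀ n, UC (Fs n) q j (ws n)) : UC F q j w := by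
  intro s t
  have h1 : ∀ t, Tendsto (fun n => ((Fs n).g^[q.p])^[j] ((ws n).pt t)) atTop
      (𝓝 ((F.g^[q.p])^[j] (w.pt t))) := fun t => by
    simp only [← Function.iterate_mul]
    exact (tendstoUniformly_symm_iter h _).tendsto_comp (F.smg.iter _).1.continuousAt
      (tendsto_pt_sl hw t)
  exact le_of_tendsto' ((h1 s).dist (h1 t)) fun n => H n s t

theorem LV.limit {Fs : ℕ → Dif A} {F : Dif A} (h : A.Conv1 (fun n => (Fs n).f) F.f) {q : Prm}
    {ws : ℕ → Cv A q.ε} {w : Cv A q.ε} (hw : Tendsto ws atTop (𝓝 w))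
    (H : ∀ n, LV (Fs n) q (ws n)) : LV F q w := by
  intro N x θ hθ
  let S : ℕ → Set ℝ := fun n => {t | t ∈ Ioo (0 : ℝ) 1 ∧ (∀ k ≤ N,
    dist (((Fs n).f^[q.p])^[k] ((ws n).pt t)) (((Fs n).f^[q.p])^[k] x) < q.ε) ∧
      θ < ‖(ws n).DN ((Fs n).f^[q.p])^[N] t‖}
  have hm : Monotone fun m => ⋂ n ≥ m, S n := fun m m' e =>
    biInter_subset_biInter_left fun n hn => e.trans hn
  refine (measure_mono (t := ⋃ m, ⋂ n ≥ m, S n) ?_).trans ?_
  · rintro t ⟨ht, h1, h2⟩
    simp only [mem_iUnion, mem_iInter]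
    refine eventually_atTop.1 (Eventually.and (.of_forall fun _ => ht) (Eventually.and ?_ ?_))
    · refine (eventually_all_finite (finite_le_nat N)).2 fun k hk => ?_
      have h3 := (conv1_iter_sl h q.p k).tendstoUniformly
      exact ((h3.tendsto_comp ((F.smf.iter _).iter _).1.continuousAt (tendsto_pt_sl hw t)).dist
        (h3.tendsto_at x)).eventually_lt_const (h1 k hk)
    · obtain ⟨δ, hδ, h3⟩ := Cv.close (conv1_iter_sl h q.p N) (fun n => ((Fs n).smf.iter _).iter _)
        ((F.smf.iter _).iter _) w (half_pos (sub_pos.2 h2))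
      filter_upwards [h3, Metric.tendsto_nhds.1 hw δ hδ] with n h4 h5
      have h6 := (h4 _ h5).2 t ht
      rw [norm_sub_rev] at h6
      linarith [norm_sub_norm_le (w.DN (F.f^[q.p])^[N] t) ((ws n).DN ((Fs n).f^[q.p])^[N] t)]
  · rw [hm.measure_iUnion]
    exact iSup_le fun m => (measure_mono (biInter_subset_of_mem (le_refl m))).trans (H m N x θ hθ)

theorem isClosed_uc (F : Dif A) (q : Prm) (j : ℕ) : IsClosed {w : Cv A q.ε | UC F q j w} :=
  IsSeqClosed.isClosed fun _ _ H hw => UC.limit (Fs := fun _ => F) (A.conv_const _).conv1 hw H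

theorem isClosed_uall (F : Dif A) (q : Prm) : IsClosed {w : Cv A q.ε | UAll F q w} := by
  simp only [UAll, ofPred_and, ofPred_forall]
  exact Cv.isClosed_big.inter (isClosed_iInter (isClosed_uc F q))

theorem isClosed_lv (F : Dif A) (q : Prm) : IsClosed {w : Cv A q.ε | LV F q w} :=
  IsSeqClosed.isClosed fun _ _ H hw => LV.limit (Fs := fun _ => F) (A.conv_const _).conv1 hw H

section Eta

variable [CompactSpace X] [BorelSpace X] {κ κ' : Measure (Cv A ε)} {T T' : Set ℝ}

theorem etaOn_apply [SFinite κ] {B : Set X} (hB : MeasurableSet B) :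
    etaOn κ T B = ∫⁻ w, volume (w.pt ⁻¹' B ∩ T) ∂κ := by
  have hm := (Cv.continuous_pt (A := A) (ε := ε)).measurable
  rw [etaOn, Measure.map_apply hm hB, Measure.prod_apply (hm hB)]
  exact lintegral_congr fun w => Measure.restrict_apply (measurable_prodMk_left (hm hB))

theorem etaOn_eq_zero_iff [SFinite κ] {B : Set X} (hB : MeasurableSet B) :
    etaOn κ T B = 0 ↔ ∀ᵐ w ∂κ, volume (w.pt ⁻¹' B ∩ T) = 0 := by
  have hm := (Cv.continuous_pt (A := A) (ε := ε)).measurable hB
  rw [etaOn_apply hB, lintegral_eq_zero_iff]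
  · rfl
  · convert measurable_measure_prodMk_left (ν := volume.restrict T) hm using 2 with w
    exact (Measure.restrict_apply (measurable_prodMk_left hm)).symm

theorem ae_of_etaOn [SFinite κ] {p : X → Prop} (h : ∀ᵐ x ∂etaOn κ T, p x) :
    ∀ᵐ w ∂κ, ∀ᵐ t ∂volume.restrict T, p (w.pt t) :=
  Measure.ae_ae_of_ae_prod (ae_of_ae_map Cv.continuous_pt.measurable.aemeasurable h)

theorem etaOn_mono [SFinite κ] [SFinite κ'] (h : κ ≤ κ') (hT : T ⊆ T') :
    etaOn κ T ≤ etaOn κ' T' := by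
  refine Measure.le_iff.2 fun B hB => ?_
  rw [etaOn_apply hB, etaOn_apply hB]
  exact lintegral_mono' h fun w => measure_mono (inter_subset_inter_right _ hT)

theorem etaOn_univ [SFinite κ] : etaOn κ T univ = κ univ * volume T := by
  simp [etaOn_apply MeasurableSet.univ, mul_comm]

theorem isFiniteMeasure_eta [IsFiniteMeasure κ] : IsFiniteMeasure (eta κ) :=
  ⟨by simp [eta, etaOn_univ]⟩

theorem integral_eta [IsFiniteMeasure κ] (φ : C(X, ℝ)) :
    ∫ x, φ x ∂eta κ = ∫ w, (∫ t in Icc (0 : ℝ) 1, φ (w.pt t)) ∂κ := by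
  have hc := φ.continuous.comp (Cv.continuous_pt (A := A) (ε := ε))
  rw [eta, etaOn, integral_map Cv.continuous_pt.measurable.aemeasurable
    φ.continuous.aestronglyMeasurable]
  exact integral_prod _ (Integrable.of_bound hc.aestronglyMeasurable ‖φ‖
    (.of_forall fun z => φ.norm_coe_le_norm _))

theorem continuous_integral_pt (φ : C(X, ℝ)) :
    Continuous fun w : Cv A ε => ∫ t in Icc (0 : ℝ) 1, φ (w.pt t) :=
  continuous_parametric_integral_of_continuous (f := fun (w : Cv A ε) t => φ (w.pt t))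
    (φ.continuous.comp Cv.continuous_pt) isCompact_Icc

/-- A measure that dominates a family of contracted curves is not carried by periodic points. -/
theorem not_ae_fix [SFinite κ] {F : Dif A} {K c : ℝ} (hc : 0 < c) (h0 : κ ≠ 0)
    (hκ : ∀ᵐ w ∂κ, UCur F.g K c w.pt) {μ : Measure X} (hac : eta κ ≪ μ) {N : ℕ} (hN : 1 ≤ N) :
    ¬ ∀ᵐ x ∂μ, F.f^[N] x = x := by
  intro h
  have := ae_neBot.2 h0
  obtain ⟨w, hw, h1⟩ := (hκ.and (ae_of_etaOn (hac.ae_le h))).exists
  have : IsProbabilityMeasure (volume.restrict (Icc (0 : ℝ) 1)) := ⟨by simp⟩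
  have h2 := (ae_restrict_mem measurableSet_Icc).and h1
  obtain ⟨s, hs, hs'⟩ := h2.exists
  obtain ⟨t, ⟨ht, ht'⟩, hst⟩ := (h2.and (Measure.ae_ne _ s)).exists
  have h3 : ∀ x k, F.f^[N] x = x → F.g^[N * k] x = x := fun x k hx => by
    rw [Function.iterate_mul]
    exact Function.iterate_fixed (by simpa only [hx] using F.gf_iter N x) k
  have h4 : Tendsto (fun k : ℕ => K * Real.exp (-c * (N * k : ℕ)) * |s - t|) atTop
      (𝓝 (K * 0 * |s - t|)) :=
    ((Real.tendsto_exp_atBot.comp ((tendsto_natCast_atTop_atTop.comp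
      (tendsto_id.const_mul_atTop' hN)).const_mul_atTop_of_neg (neg_lt_zero.2 hc))).const_mul
        K).mul_const _
  have h5 := ge_of_tendsto' h4 fun k => by
    simpa only [h3 _ k hs', h3 _ k ht'] using (hw s hs t ht).2 (N * k)
  have h6 := (hw s hs t ht).1
  rw [mul_zero, zero_mul] at h5
  rw [le_antisymm h5 dist_nonneg, mul_zero, abs_nonpos_iff, sub_eq_zero] at h6
  exact hst h6.symm

end Eta

namespace Om

theorem continuous_shift : Continuous (shift : Om A ε → Om A ε) :=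
  continuous_pi fun _ => continuous_apply _

theorem continuous_xx : Continuous (xx : Om A ε → X) :=
  (continuous_apply _).fst

theorem continuous_cv : Continuous (cv : Om A ε → Cv A ε) :=
  (continuous_apply _).snd.snd.snd

theorem continuous_uu (Λ : ℝ) (j : ℤ) : Continuous fun ω : Om A ε => ω.uu Λ j := by
  unfold uu
  fun_prop

theorem abs_uu_le (Λ : ℝ) (ω : Om A ε) (j : ℤ) : |ω.uu Λ j| ≤ |Λ| := by
  rw [uu, abs_mul]
  refine mul_le_of_le_one_right (abs_nonneg _) (abs_le.2 ⟨?_, ?_⟩) <;>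
    linarith [(ω j).2.2.1.2.1, (ω j).2.2.1.2.2]

theorem shift_iter (ω : Om A ε) (k : ℕ) (j : ℤ) : (shift^[k] ω) j = ω (j + k) := by
  induction k generalizing j with
  | zero => simp
  | succ k ih => rw [Function.iterate_succ_apply', shift, ih, Nat.cast_succ, add_assoc, add_comm 1]

theorem isClopen_fl_sl (j : ℤ) : IsClopen {ω : Om A ε | ω.fl j = true} :=
  (isClopen_discrete {true}).preimage (continuous_apply j).snd.fst

end Om

theorem Con.limit {Fs : ℕ → Dif A} {F : Dif A} (h : A.Conv1 (fun n => (Fs n).f) F.f) {q : Prm}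
    {ωs : ℕ → Om A q.ε} {ω : Om A q.ε} (hω : Tendsto ωs atTop (𝓝 ω))
    (H : ∀ n, Con (Fs n) q (ωs n)) : Con F q ω := by
  have hx := (Om.continuous_xx.tendsto ω).comp hω
  have hc := (Om.continuous_cv.tendsto ω).comp hω
  refine ⟨?_, ?_, fun h0 => ?_, LV.limit h hc fun n => (H n).2.2.2⟩
  · refine tendsto_nhds_unique (((continuous_apply 1).fst.tendsto ω).comp hω) ?_
    exact ((h.iter (fun n => (Fs n).smf) F.smf q.p).tendstoUniformly.tendsto_comp
      (F.smf.iter _).1.continuousAt hx).congr fun n => (H n).1.symm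
  · obtain ⟨i, hi⟩ := frequently_exists.1 (Frequently.of_forall (f := atTop)
      fun n => (H n).2.1)
    have hD := (A.D_closed i).mem_of_frequently_of_tendsto (hi.mono fun n hn => hn.1) hx
    refine ⟨i, hD, fun n => ?_⟩
    have h1 : Tendsto (fun k => A.φ i (ωs k).xx) atTop (𝓝[A.U i] A.φ i ω.xx) :=
      tendsto_nhdsWithin_iff.2 ⟨((A.continuous_φ i).tendsto _).comp hx,
        (Metric.tendsto_nhds.1 hx _ A.ρ_pos).mono fun k hk => Atlas.φ_mem hD hk⟩
    have h2 := ((conv1_iter_sl h q.p n i).2.tendsto_comp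
      (((F.smf.iter _).iter _).continuousOn_fderiv i _
        (Atlas.φ_mem hD (by simpa using A.ρ_pos))) h1).norm
    have h3 := (tendsto_finsetSum (Finset.range n) fun j _ =>
      ((Om.continuous_uu q.Λ j).tendsto ω).comp hω).rexp
    exact isClosed_le_prod.mem_of_frequently_of_tendsto (hi.mono fun k hk => hk.2 n)
      (h3.prodMk_nhds h2)
  · exact Cv.isClosed_big.mem_of_tendsto hc
      ((hω.eventually ((Om.isClopen_fl_sl 0).isOpen.mem_nhds h0)).mono fun n => (H n).2.2.1)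

theorem isClosed_con (F : Dif A) (q : Prm) : IsClosed {ω : Om A q.ε | Con F q ω} :=
  IsSeqClosed.isClosed fun _ _ H hω => Con.limit (Fs := fun _ => F) (A.conv_const _).conv1 hω H

theorem isClopen_fl0 : IsClopen (Fl0 A ε) := Om.isClopen_fl_sl 0

theorem isClopen_om (M : ℕ) : IsClopen (OM A ε M) := by
  have : OM A ε M = ⋃ z ∈ {z : ℤ × ℤ | z.1 ≤ 0 ∧ 0 < z.2 ∧ z.2 - z.1 ≤ M},
      {ω | ω.fl z.1 = true} ∩ {ω | ω.fl z.2 = true} := by
    ext ω
    simp only [OM, mem_iUnion, mem_inter_iff, mem_ofPred_eq, exists_prop, Prod.exists, and_assoc]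
  rw [this]
  refine Finite.isClopen_biUnion (((finite_Icc (-M : ℤ) M).prod (finite_Icc (-M : ℤ) M)).subset ?_)
    fun z _ => (Om.isClopen_fl_sl _).inter (Om.isClopen_fl_sl _)
  rintro z ⟨h1, h2, h3⟩
  simp only [mem_prod, mem_Icc]
  omega

end Pool.Agent.Lib.MP_e7c912_an
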