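import Pool.Agent.Lib.MP_e7c912_an.H60TDef
import Pool.Agent.Lib.MP_e7c912_an.H60SLem

/-! Time averages of the states along the tree. -/

namespace Pool.Agent.Lib.MP_e7c912_an

open MeasureTheory Filter Metric Set Topology

open scoped ENNReal

namespace Avg

section abstract

variable {Ω Y : Type} [MeasurableSpace Ω] [MeasurableSpace Y] {ν : Measure ℝ} {V : ℕ → ℝ → Ω}

/-- Average of the image measures. -/
noncomputable def av (ν : Measure ℝ) (V : ℕ → ℝ → Ω) (T : ℕ) : Measure Ω :=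
  ((T + 1 : ℕ) : ℝ≥0∞)⁻¹ • ∑ k ∈ Finset.range (T + 1), ν.map (V k)

/-- Time average of an observable. -/
noncomputable def tav (V : ℕ → ℝ → Ω) (ψ : Ω → ℝ) (T : ℕ) (t : ℝ) : ℝ :=
  ((T + 1 : ℕ) : ℝ)⁻¹ * ∑ k ∈ Finset.range (T + 1), ψ (V k t)

theorem av_apply (hV : ∀ k, Measurable (V k)) (T : ℕ) {B : Set Ω} (hB : MeasurableSet B) :
    av ν V T B = ((T + 1 : ℕ) : ℝ≥0∞)⁻¹ * ∑ k ∈ Finset.range (T + 1), ν (V k ⁻¹' B) := by
  simp only [av, Measure.smul_apply, Measure.finsetSum_apply, smul_eq_mul,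
    Measure.map_apply (hV _) hB]

theorem isProb [IsProbabilityMeasure ν] (hV : ∀ k, Measurable (V k)) (T : ℕ) :
    IsProbabilityMeasure (av ν V T) := by
  refine ⟨?_⟩
  rw [av_apply hV T MeasurableSet.univ]
  simp only [preimage_univ, measure_univ, Finset.sum_const, Finset.card_range, nsmul_eq_mul,
    mul_one]
  exact ENNReal.inv_mul_cancel (by simp) (ENNReal.natCast_ne_top _)

theorem int_bdd {μ : Measure Ω} [IsFiniteMeasure μ] {ψ : Ω → ℝ} (hψ : Measurable ψ) {C : ℝ}
    (hb : ∀ x, |ψ x| ≤ C) : Integrable ψ μ :=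
  Integrable.of_bound hψ.aestronglyMeasurable C (ae_of_all _ hb)

theorem measurable_tav (hV : ∀ k, Measurable (V k)) {ψ : Ω → ℝ} (hψ : Measurable ψ) (T : ℕ) :
    Measurable (tav V ψ T) :=
  (Finset.measurable_sum _ fun k _ => hψ.comp (hV k)).const_mul _

omit [MeasurableSpace Ω] in
theorem abs_tav_le {ψ : Ω → ℝ} {C : ℝ} (hb : ∀ x, |ψ x| ≤ C) (T : ℕ) (t : ℝ) :
    |tav V ψ T t| ≤ C := by
  have h0 : (0 : ℝ) < ((T + 1 : ℕ) : ℝ) := by positivity
  rw [tav, abs_mul, abs_of_pos (inv_pos.2 h0), inv_mul_le_iff₀ h0]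
  refine (Finset.abs_sum_le_sum_abs _ _).trans ((Finset.sum_le_card_nsmul _ _ C
    fun k _ => hb _).trans ?_)
  rw [Finset.card_range, nsmul_eq_mul]

theorem integral_av [IsFiniteMeasure ν] (hV : ∀ k, Measurable (V k)) {ψ : Ω → ℝ}
    (hψ : Measurable ψ) {C : ℝ} (hb : ∀ x, |ψ x| ≤ C) (T : ℕ) :
    ∫ ω, ψ ω ∂av ν V T = ∫ t, tav V ψ T t ∂ν := by
  rw [av, integral_smul_measure, integral_finsetSum_measure fun k _ => int_bdd hψ hb]
  simp only [tav]
  rw [integral_const_mul, integral_finsetSum _ fun k _ =>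
    int_bdd (ψ := fun t => ψ (V k t)) (hψ.comp (hV k)) fun t => hb _, ENNReal.toReal_inv,
    ENNReal.toReal_natCast, smul_eq_mul]
  congr 1
  exact Finset.sum_congr rfl fun k _ =>
    integral_map (hV k).aemeasurable hψ.aestronglyMeasurable

theorem ae_av (hV : ∀ k, Measurable (V k)) {p : Ω → Prop} (hp : MeasurableSet {ω | p ω})
    (h : ∀ k, ∀ᵐ t ∂ν, p (V k t)) (T : ℕ) : ∀ᵐ ω ∂av ν V T, p ω := by
  refine Measure.ae_smul_measure ?_ _
  rw [ae_finsetSum_measure_iff]
  exact fun k _ => (ae_map_iff (hV k).aemeasurable hp).2 (h k)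

theorem map_restrict_av {f : Ω → Y} (hf : Measurable f) (s : Set Ω) (T : ℕ) :
    ((av ν V T).restrict s).map f = ((T + 1 : ℕ) : ℝ≥0∞)⁻¹ •
      ∑ k ∈ Finset.range (T + 1), ((ν.map (V k)).restrict s).map f := by
  ext B hB
  simp only [av, Measure.smul_apply, Measure.finsetSum_apply, Measure.map_apply hf hB,
    Measure.restrict_apply (hf hB)]

theorem tendsto_inv : Tendsto (fun T : ℕ => ((T + 1 : ℕ) : ℝ)⁻¹) atTop (𝓝 0) :=
  tendsto_inv_atTop_nhds_zero_nat.comp (tendsto_add_atTop_nat 1)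

theorem ev_small (L : ℝ) {δ : ℝ} (hδ : 0 < δ) : ∀ᶠ T : ℕ in atTop, ((T + 1 : ℕ) : ℝ)⁻¹ * L ≤ δ :=
  ((tendsto_inv.mul_const L).eventually (ge_mem_nhds (by simpa using hδ)))

/-- An upper bound for integrals from an asymptotic bound on a large set. -/
theorem ev_le [IsProbabilityMeasure ν] {S : Set ℝ} (hS : MeasurableSet S) {a : ℕ → ℝ → ℝ}
    (ha : ∀ n, Measurable (a n)) {D c : ℝ} (hb : ∀ n t, |a n t| ≤ D)
    (h : ∀ t ∈ S, ∀ δ : ℝ, 0 < δ → ∀ᶠ n in atTop, a n t ≤ c + δ) {γ : ℝ} (hγ : 0 < γ) :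
    ∀ᶠ n in atTop, ∫ t, a n t ∂ν ≤ c * ν.real S + D * (1 - ν.real S) + γ := by
  let g : ℕ → ℝ → ℝ := fun n => S.indicator fun t => max (a n t - c) 0
  have hg : ∀ n, Measurable (g n) := fun n =>
    (((ha n).sub_const c).max measurable_const).indicator hS
  have hgb : ∀ n t, |g n t| ≤ D + |c| := fun n t => by
    have h1 := abs_le.1 (hb n t)
    have h2 := neg_abs_le c
    have h3 := abs_nonneg c
    simp only [g, indicator]
    split_ifs
    · rw [abs_of_nonneg (le_max_right _ _)]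
      exact max_le (by linarith) (by linarith)
    · rw [abs_zero]
      linarith
  have h1 : Tendsto (fun n => ∫ t, g n t ∂ν) atTop (𝓝 (∫ _, (0 : ℝ) ∂ν)) := by
    refine tendsto_integral_of_dominated_convergence (fun _ => D + |c|)
      (fun n => (hg n).aestronglyMeasurable) (integrable_const _)
      (fun n => ae_of_all _ (hgb n)) (ae_of_all _ fun t => ?_)
    by_cases ht : t ∈ S
    · simp only [g, indicator_of_mem ht]
      refine tendsto_order.2 ⟨fun x hx => .of_forall fun n => hx.trans_le (le_max_right _ _),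
        fun x hx => ?_⟩
      filter_upwards [h t ht (x / 2) (half_pos hx)] with n hn
      exact max_lt (by linarith) hx
    · simp only [g, indicator_of_notMem ht]
      exact tendsto_const_nhds
  rw [integral_zero] at h1
  filter_upwards [h1.eventually (ge_mem_nhds hγ)] with n hn
  have i1 : Integrable (S.indicator fun _ => c) ν := (integrable_const c).indicator hS
  have i2 : Integrable (Sᶜ.indicator fun _ => D) ν := (integrable_const D).indicator hS.compl
  have i3 : Integrable (fun t => S.indicator (fun _ => c) t + Sᶜ.indicator (fun _ => D) t) ν :=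
    i1.add i2
  calc ∫ t, a n t ∂ν ≤ ∫ t, (S.indicator (fun _ => c) t + Sᶜ.indicator (fun _ => D) t) +
        g n t ∂ν := by
        refine integral_mono (int_bdd (ha n) (hb n)) (i3.add (int_bdd (hg n) (hgb n)))
          fun t => ?_
        by_cases ht : t ∈ S
        · simp only [g, indicator_of_mem ht, indicator_of_notMem (notMem_compl_iff.2 ht)]
          linarith [le_max_left (a n t - c) 0]
        · simp only [g, indicator_of_notMem ht, indicator_of_mem (mem_compl ht)]
          linarith [le_abs_self (a n t), hb n t]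
    _ ≤ _ := by
        rw [integral_add i3 (int_bdd (hg n) (hgb n)), integral_add i1 i2,
          integral_indicator_const _ hS, integral_indicator_const _ hS.compl,
          probReal_compl_eq_one_sub hS, smul_eq_mul, smul_eq_mul, mul_comm _ c, mul_comm _ D]
        linarith

end abstract

theorem sum_le_birkhoff {X : Type} (f : X → X) {φ : X → ℝ} (hφ : ∀ x, 0 ≤ φ x) {p : ℕ}
    (hp : 1 ≤ p) (T : ℕ) (x : X) :
    ((T + 1 : ℕ) : ℝ)⁻¹ * ∑ k ∈ Finset.range (T + 1), φ ((f^[p])^[k] x) ≤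
      p * birkhoffAverage ℝ f φ (p * (T + 1)) x := by
  have h0 : (p : ℝ) ≠ 0 := by positivity
  rw [birkhoffAverage, birkhoffSum, smul_eq_mul, Nat.cast_mul, mul_inv, ← mul_assoc, ← mul_assoc,
    mul_inv_cancel₀ h0, one_mul]
  refine mul_le_mul_of_nonneg_left ?_ (by positivity)
  simp only [← Function.iterate_mul]
  rw [← Finset.sum_image (g := fun k => p * k) (f := fun n => φ (f^[n] x))
    fun a _ b _ e => Nat.eq_of_mul_eq_mul_left hp e]
  refine Finset.sum_le_sum_of_subset_of_nonneg (fun n hn => ?_) fun n _ _ => hφ _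
  obtain ⟨k, hk, rfl⟩ := Finset.mem_image.1 hn
  exact Finset.mem_range.2 (Nat.mul_lt_mul_of_pos_left (Finset.mem_range.1 hk) hp)

end Avg

variable {X : Type} [MetricSpace X] [CompactSpace X] [MeasurableSpace X] [BorelSpace X]
  {A : Atlas X}

theorem astate_of_tree {F : Dif A} {q : Prm} (hp : 1 ≤ q.p) (hΛ : 0 ≤ q.Λ) {μ : Measure X}
    [IsProbabilityMeasure μ] {b γ : ℝ} (hb : 0 ≤ b) (hγ : 0 ≤ γ) {r : ℕ} {τ : ℝ → X} {S : Set ℝ}
    (hS : Seed F μ b r q.ε γ τ S) {W : ℝ → Om A q.ε} {z : ℕ → ℝ → ℝ} {C0 : ℝ}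
    (hT : Tree F q τ W z C0) : ∃ Ps : ℕ → ProbabilityMeasure (Om A q.ε),
      AState (fun _ => F) q ((1 - γ) * b - γ * q.Λ) Ps ∧
      ∀ φ : C(X, ℝ), 0 ≤ φ → ∀ γ' : ℝ, 0 < γ' → ∀ᶠ n in atTop,
        ∫ ω, φ ω.xx ∂(Ps n : Measure (Om A q.ε)) ≤ q.p * ∫ x, φ x ∂μ + γ * ‖φ‖ + γ' := by
  set ν : Measure ℝ := volume.restrict (Ico (0 : ℝ) 1) with hν
  have : IsProbabilityMeasure ν := ⟨by simp [hν]⟩
  let V : ℕ → ℝ → Om A q.ε := fun k t => Om.shift^[k] (W t)
  have hV : ∀ k, Measurable (V k) := fun k =>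
    (Om.continuous_shift.measurable.iterate k).comp hT.meas
  have hae : ∀ᵐ t ∂ν, t ∈ Ico (0 : ℝ) 1 := ae_restrict_mem measurableSet_Ico
  have hνS : 1 - γ ≤ ν.real S := by
    rw [hν, Measure.real, Measure.restrict_eq_self _ hS.sub]
    exact hS.big
  have hνS' : ν.real S ≤ 1 := measureReal_le_one
  have hp' : (1 : ℝ) ≤ q.p := by exact_mod_cast hp
  have hN : Tendsto (fun T : ℕ => q.p * (T + 1)) atTop atTop :=
    tendsto_atTop_mono (fun T => (Nat.le_succ T).trans (Nat.le_mul_of_pos_left _ hp)) tendsto_id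
  have hu : ∀ ω : Om A q.ε, |ω.uu q.Λ 0| ≤ q.Λ := fun ω =>
    (Om.abs_uu_le _ ω 0).trans (abs_of_nonneg hΛ).le
  have hum : Measurable fun ω : Om A q.ε => ω.uu q.Λ 0 := (Om.continuous_uu _ _).measurable
  refine ⟨fun T => ⟨Avg.av ν V T, Avg.isProb hV T⟩,
    ⟨fun φ => ?_, fun T => ?_, fun j => ?_, fun T => ?_, fun δ hδ => ?_, fun M _ δ hδ => ?_⟩,
    fun φ hφ δ hδ => ?_⟩
  all_goals simp only [ProbabilityMeasure.coe_mk]
  · have hb1 : ∀ ω, |φ ω| ≤ ‖φ‖ := fun ω => φ.norm_coe_le_norm ω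
    have hm1 : Measurable fun ω : Om A q.ε => φ ω.shift :=
      (φ.continuous.comp Om.continuous_shift).measurable
    refine squeeze_zero_norm (a := fun T : ℕ => ((T + 1 : ℕ) : ℝ)⁻¹ * (2 * ‖φ‖)) (fun T => ?_)
      (by simpa only [zero_mul] using Avg.tendsto_inv.mul_const (2 * ‖φ‖))
    rw [Avg.integral_av hV hm1 fun ω => hb1 _, Avg.integral_av hV φ.continuous.measurable hb1,
      ← integral_sub (Avg.int_bdd (Avg.measurable_tav hV hm1 T) (Avg.abs_tav_le (fun ω => hb1 _) T))
        (Avg.int_bdd (Avg.measurable_tav hV φ.continuous.measurable T) (Avg.abs_tav_le hb1 T))]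
    refine (norm_integral_le_of_norm_le_const (ae_of_all _ fun t => ?_)).trans
      (by rw [probReal_univ, mul_one])
    have e : ∀ k, φ (V k t).shift = φ (V (k + 1) t) := fun k => by
      simp only [V, Function.iterate_succ_apply']
    simp only [Avg.tav, e]
    rw [← mul_sub, ← Finset.sum_sub_distrib, Finset.sum_range_sub fun k => φ (V k t), norm_mul,
      Real.norm_of_nonneg (by positivity)]
    refine mul_le_mul_of_nonneg_left ((norm_sub_le _ _).trans ?_) (by positivity)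
    linarith [φ.norm_coe_le_norm (V (T + 1) t), φ.norm_coe_le_norm (V 0 t)]
  · exact Avg.ae_av hV (isClosed_con F q).measurableSet
      (fun k => hae.mono fun t ht => hT.con t ht k) T
  · have hB : MeasurableSet {ω : Om A q.ε | UC F q j ω.cv}ᶜ :=
      ((isClosed_uc F q j).preimage Om.continuous_cv).measurableSet.compl
    have h1 : Tendsto (fun T : ℕ => ((T + 1 : ℕ) : ℝ≥0∞)⁻¹ * j) atTop (𝓝 0) := by
      simpa only [zero_mul, Function.comp_def] using ENNReal.Tendsto.mul_const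
        (ENNReal.tendsto_inv_nat_nhds_zero.comp (tendsto_add_atTop_nat 1))
        (Or.inr (ENNReal.natCast_ne_top j))
    refine tendsto_of_tendsto_of_tendsto_of_le_of_le tendsto_const_nhds h1 (fun _ => zero_le)
      fun T => ?_
    rw [Avg.av_apply hV T hB]
    refine mul_le_mul_right ?_ _
    rw [← Finset.sum_filter_of_ne (p := fun k => k < j) fun k _ h => ?_]
    · refine (Finset.sum_le_card_nsmul _ _ 1 fun k _ => prob_le_one).trans ?_
      rw [nsmul_eq_mul, mul_one, Nat.cast_le]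
      refine (Finset.card_le_card fun k hk => ?_).trans (Finset.card_range j).le
      exact Finset.mem_range.2 (Finset.mem_filter.1 hk).2
    · by_contra hk
      exact h (hae.mono fun t ht => hT.uc t ht j k (not_lt.1 hk))
  · have := Avg.isProb (ν := ν) hV T
    have hs : ∀ (P : Measure (Om A q.ε)) [IsFiniteMeasure P], SFinite (kap P) := fun P _ => by
      unfold kap
      infer_instance
    rw [Avg.map_restrict_av Om.continuous_xx.measurable]
    ext B hB
    have := hs (Avg.av ν V T)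
    rw [eta, etaOn_apply hB, kap, Avg.map_restrict_av Om.continuous_cv.measurable,
      lintegral_smul_measure, lintegral_finsetSum_measure, Measure.smul_apply,
      Measure.finsetSum_apply]
    congr 1
    refine Finset.sum_congr rfl fun k _ => ?_
    have := hs (ν.map (V k))
    exact (congrArg (fun m : Measure X => m B) (hT.link k)).trans (etaOn_apply hB)
  · have h1 := Avg.ev_le (ν := ν) hS.meas
      (a := fun T t => -Avg.tav V (fun ω => ω.uu q.Λ 0) T t) (c := -(q.p * b))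
      (fun T => (Avg.measurable_tav hV hum T).neg)
      (fun T t => (abs_neg _).trans_le (Avg.abs_tav_le hu T t)) (fun t ht η hη => ?_) hδ
    · filter_upwards [h1] with T h
      rw [integral_neg, ← Avg.integral_av hV hum hu] at h
      have h2 : q.p * b * (1 - γ) ≤ q.p * b * ν.real S :=
        mul_le_mul_of_nonneg_left hνS (by positivity)
      have h3 : q.Λ * (1 - ν.real S) ≤ q.Λ * γ := mul_le_mul_of_nonneg_left (by linarith) hΛ
      have h4 : 1 * (γ * q.Λ) ≤ q.p * (γ * q.Λ) := mul_le_mul_of_nonneg_right hp' (by positivity)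
      linarith
    · filter_upwards [hN.eventually (hS.grow t ht),
        Avg.ev_small (Real.log ‖deriv (A.e ∘ τ) t‖) hη] with T h1 h2
      have h0 : (0 : ℝ) < ((T + 1 : ℕ) : ℝ) := by positivity
      have h3 := (Real.le_log_iff_exp_le ((Real.exp_pos _).trans_le h1)).2 h1
      simp only [Avg.tav, V]
      rw [hT.sum t (hS.sub ht), ← Function.iterate_mul, mul_sub]
      have h4 : q.p * b ≤ ((T + 1 : ℕ) : ℝ)⁻¹ *
          Real.log ‖deriv (A.e ∘ F.f^[q.p * (T + 1)] ∘ τ) t‖ := by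
        rw [le_inv_mul_iff₀ h0]
        refine le_trans (le_of_eq ?_) h3
        push_cast
        ring
      linarith
  · filter_upwards [Avg.ev_small C0 hδ] with T h
    have := Avg.isProb (ν := ν) hV T
    have h0 : (0 : ℝ) < ((T + 1 : ℕ) : ℝ) := by positivity
    have hO : MeasurableSet (OM A q.ε M)ᶜ := (isClopen_om M).isClosed.measurableSet.compl
    have hO' : MeasurableSet (Fl0 A q.ε ∩ (OM A q.ε M)ᶜ) :=
      isClopen_fl0.isClosed.measurableSet.inter hO
    have m1 := hum.indicator hO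
    have b1 : ∀ ω, |(OM A q.ε M)ᶜ.indicator (fun ω : Om A q.ε => ω.uu q.Λ 0) ω| ≤ q.Λ :=
      fun ω => by
        simp only [indicator]
        split_ifs
        exacts [hu ω, abs_zero.trans_le hΛ]
    have m2 : Measurable ((Fl0 A q.ε ∩ (OM A q.ε M)ᶜ).indicator fun _ => (1 : ℝ)) :=
      measurable_const.indicator hO'
    have b2 : ∀ ω, |(Fl0 A q.ε ∩ (OM A q.ε M)ᶜ).indicator (fun _ => (1 : ℝ)) ω| ≤ 1 :=
      fun ω => by
        simp only [indicator]
        split_ifs
        exacts [abs_one.le, abs_zero.trans_le zero_le_one]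
    have i2 := Avg.int_bdd (μ := ν) (Avg.measurable_tav hV m2 T) (Avg.abs_tav_le b2 T)
    have i3 : Integrable (fun t => ∑ k ∈ Finset.range (T + 1), z k t) ν :=
      integrable_finsetSum _ fun k _ => hT.z_int k
    have e2 : (Avg.av ν V T).real (Fl0 A q.ε ∩ (OM A q.ε M)ᶜ) = ∫ t, Avg.tav V
        ((Fl0 A q.ε ∩ (OM A q.ε M)ᶜ).indicator fun _ => (1 : ℝ)) T t ∂ν := by
      rw [← Avg.integral_av hV m2 b2, integral_indicator_const _ hO', smul_eq_mul, mul_one]
    have e3 : ((T + 1 : ℕ) : ℝ)⁻¹ * ∫ t, ∑ k ∈ Finset.range (T + 1), z k t ∂ν ≤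
        4 * (q.α * q.p) := by
      rw [integral_finsetSum _ fun k _ => hT.z_int k, inv_mul_le_iff₀ h0]
      refine (Finset.sum_le_card_nsmul _ _ _ fun k _ => hT.z_mean k).trans ?_
      rw [Finset.card_range, nsmul_eq_mul]
    have i4 : Integrable (fun t => ((T + 1 : ℕ) : ℝ)⁻¹ * C0 + (Real.log 4 + q.Λ) *
        Avg.tav V ((Fl0 A q.ε ∩ (OM A q.ε M)ᶜ).indicator fun _ => (1 : ℝ)) T t) ν :=
      (integrable_const _).add (i2.const_mul _)
    rw [← integral_indicator hO, Avg.integral_av hV m1 b1, e2]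
    refine (integral_mono_ae (g := fun t => ((T + 1 : ℕ) : ℝ)⁻¹ * C0 + (Real.log 4 + q.Λ) *
      Avg.tav V ((Fl0 A q.ε ∩ (OM A q.ε M)ᶜ).indicator fun _ => (1 : ℝ)) T t +
      ((T + 1 : ℕ) : ℝ)⁻¹ * ∑ k ∈ Finset.range (T + 1), z k t)
      (Avg.int_bdd (Avg.measurable_tav hV m1 T) (Avg.abs_tav_le b1 T))
      (i4.add (i3.const_mul _))
      (hae.mono fun t ht => ?_)).trans ?_
    · refine (mul_le_mul_of_nonneg_left (hT.gap t ht M (T + 1)) (inv_pos.2 h0).le).trans
        (le_of_eq ?_)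
      simp only [Avg.tav, V]
      ring
    · rw [integral_add i4 (i3.const_mul _),
        integral_add (integrable_const _) (i2.const_mul _), integral_const_mul, integral_const_mul,
        integral_const_mul, integral_const, probReal_univ, one_smul]
      linarith
  · have hb1 : ∀ ω : Om A q.ε, |φ ω.xx| ≤ ‖φ‖ := fun ω => φ.norm_coe_le_norm _
    have hm1 : Measurable fun ω : Om A q.ε => φ ω.xx :=
      (φ.continuous.comp Om.continuous_xx).measurable
    have h1 := Avg.ev_le (ν := ν) hS.meas (a := Avg.tav V fun ω => φ ω.xx)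
      (c := q.p * ∫ x, φ x ∂μ) (Avg.measurable_tav hV hm1) (Avg.abs_tav_le hb1)
      (fun t ht η hη => ?_) hδ
    · filter_upwards [h1] with T h
      rw [Avg.integral_av hV hm1 hb1]
      have h2 : (q.p * ∫ x, φ x ∂μ) * ν.real S ≤ q.p * ∫ x, φ x ∂μ :=
        mul_le_of_le_one_right (mul_nonneg (by positivity) (integral_nonneg fun x => hφ x)) hνS'
      have h3 : ‖φ‖ * (1 - ν.real S) ≤ ‖φ‖ * γ :=
        mul_le_mul_of_nonneg_left (by linarith) (norm_nonneg _)
      linarith
    · filter_upwards [(((hS.gen t ht φ).comp hN).const_mul (q.p : ℝ)).eventually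
        (ge_mem_nhds (lt_add_of_pos_right _ hη))] with T h
      refine le_trans ?_ h
      simp only [Avg.tav, V, hT.xx t (hS.sub ht)]
      exact Avg.sum_le_birkhoff F.f (fun x => hφ x) hp T (τ t)

end Pool.Agent.Lib.MP_e7c912_an
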