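import Pool.Agent.Lib.MP_e7c912_an.H60Tr1

/-! Geometry in a box: transfer of null sets, unstable curves. -/

namespace Pool.Agent.Lib.MP_e7c912_an

open MeasureTheory Filter Metric Set Topology

variable {X : Type} [MetricSpace X] [MeasurableSpace X] {A : Atlas X}

theorem null_of_expand_tr [BorelSpace X] {Y Z : Set X} {z : X → X} {C : ℝ}
    (h : ∀ y ∈ Y, ∀ y' ∈ Y, dist y y' ≤ C * dist (z y) (z y')) (hz : ∀ y ∈ Y, z y ∈ Z)
    (h0 : Measure.hausdorffMeasure 1 Z = 0) : Measure.hausdorffMeasure 1 Y = 0 := by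
  rcases Y.eq_empty_or_nonempty with rfl | ⟨y0, -⟩
  · exact measure_empty
  have : Nonempty X := ⟨y0⟩
  have inj : InjOn z Y := fun y hy y' hy' e => by
    have h1 := h y hy y' hy'
    rw [e, dist_self, mul_zero] at h1
    exact dist_le_zero.1 h1
  have lip : LipschitzOnWith C.toNNReal (Function.invFunOn z Y) (z '' Y) := by
    refine LipschitzOnWith.of_dist_le_mul ?_
    rintro _ ⟨y, hy, rfl⟩ _ ⟨y', hy', rfl⟩
    rw [inj.leftInvOn_invFunOn hy, inj.leftInvOn_invFunOn hy']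
    exact (h y hy y' hy').trans (mul_le_mul_of_nonneg_right (Real.le_coe_toNNReal C) dist_nonneg)
  have h1 := lip.hausdorffMeasure_image_le zero_le_one
  rw [inj.invFunOn_image subset_rfl, measure_mono_null (image_subset_iff.2 hz) h0, mul_zero] at h1
  exact nonpos_iff_eq_zero.1 h1

theorem norm_le_fst_tr {v v' : V} (h : |v.2 - v'.2| ≤ |v.1 - v'.1| / 10) :
    ‖v - v'‖ ≤ |v.1 - v'.1| := by
  rw [Prod.norm_def, max_le_iff, Real.norm_eq_abs, Real.norm_eq_abs, Prod.fst_sub, Prod.snd_sub]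
  exact ⟨le_rfl, by linarith [abs_nonneg (v.1 - v'.1)]⟩

theorem ivt_tr {φ : ℝ → ℝ} {t0 β c u : ℝ} (hβ : 0 < β) (hc : 0 < c)
    (hφ : ContinuousOn φ (Icc (t0 - β) (t0 + β)))
    (h : ∀ t ∈ Icc (t0 - β) (t0 + β), ∀ t' ∈ Icc (t0 - β) (t0 + β), c * |t - t'| ≤ |φ t - φ t'|)
    (hu : |u - φ t0| ≤ c * β) : ∃ t ∈ Icc (t0 - β) (t0 + β), φ t = u := by
  have hab : t0 - β ≤ t0 + β := by linarith
  have ha : t0 - β ∈ Icc (t0 - β) (t0 + β) := left_mem_Icc.2 hab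
  have hb : t0 + β ∈ Icc (t0 - β) (t0 + β) := right_mem_Icc.2 hab
  have hm : t0 ∈ Icc (t0 - β) (t0 + β) := ⟨by linarith, by linarith⟩
  have inj : InjOn φ (Icc (t0 - β) (t0 + β)) := fun t ht t' ht' e => by
    have h1 := h t ht t' ht'
    rw [e, sub_self, abs_zero] at h1
    have h2 : |t - t'| ≤ 0 := by
      by_contra hn
      exact absurd (mul_pos hc (not_le.1 hn)) (not_lt.2 h1)
    exact sub_eq_zero.1 (abs_nonpos_iff.1 h2)
  have h1 := h _ hm _ ha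
  have h2 := h _ hb _ hm
  rw [sub_sub_cancel, abs_of_pos hβ] at h1
  rw [add_sub_cancel_left, abs_of_pos hβ] at h2
  have hu' := abs_le.1 hu
  rcases hφ.strictMonoOn_of_injOn_Icc' hab inj with m | m
  · rw [abs_of_pos (sub_pos.2 (m ha hm (by linarith)))] at h1
    rw [abs_of_pos (sub_pos.2 (m hm hb (by linarith)))] at h2
    exact intermediate_value_Icc hab hφ ⟨by linarith [hu'.1], by linarith [hu'.2]⟩
  · rw [abs_of_neg (sub_neg.2 (m ha hm (by linarith)))] at h1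
    rw [abs_of_neg (sub_neg.2 (m hm hb (by linarith)))] at h2
    exact intermediate_value_Icc' hab hφ ⟨by linarith [hu'.1], by linarith [hu'.2]⟩

namespace Box

variable {F : Dif A} {Λ : Set X} {x0 : X} {ρ K c ε0 : ℝ} (B : Box F Λ x0 ρ K c ε0)

theorem dist_le_tr {y y' : X} (h1 : dist y x0 < A.ρ) (h2 : dist y' x0 < A.ρ)
    (n1 : ‖B.Φ y‖ ≤ 2 * ρ) (n2 : ‖B.Φ y'‖ ≤ 2 * ρ)
    (h : |(B.Φ y).2 - (B.Φ y').2| ≤ |(B.Φ y).1 - (B.Φ y').1| / 10) :
    dist y y' ≤ A.K * |(B.Φ y).1 - (B.Φ y').1| := by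
  have h3 := B.dist_Ψ_le n1 n2
  rw [B.Ψ_Φ h1, B.Ψ_Φ h2] at h3
  exact h3.trans (mul_le_mul_of_nonneg_left (norm_le_fst_tr h) (zero_le_one.trans A.one_le_K))

/-- If the stable leaves through a horizontal set `Y` all meet a set of zero length, then `Y` has
zero length. -/
theorem transfer [BorelSpace X] {Y Z : Set X} (hY : ∀ y ∈ Y, In Λ x0 ρ K y)
    (hc : ∀ y ∈ Y, ∀ y' ∈ Y, |(B.Φ y).2 - (B.Φ y').2| ≤ |(B.Φ y).1 - (B.Φ y').1| / 10)
    (hZ : ∀ y ∈ Y, ∃ s ∈ Icc (-ρ) ρ, B.Ψ (B.ws y s, s) ∈ Z)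
    (h0 : Measure.hausdorffMeasure 1 Z = 0) : Measure.hausdorffMeasure 1 Y = 0 := by
  choose! s hs hz using hZ
  have hρ := B.ρ_pos
  have hK : 0 ≤ K := zero_le_one.trans B.one_le
  have hA : 0 ≤ A.K := zero_le_one.trans A.one_le_K
  have nz : ∀ y ∈ Y, ‖((B.ws y (s y), s y) : V)‖ ≤ 2 * ρ := fun y hy => by
    rw [Prod.norm_def, max_le_iff, Real.norm_eq_abs, Real.norm_eq_abs]
    have a1 := B.abs_ws_le (hY y hy) (hs y hy)
    have a2 : |s y| ≤ ρ := abs_le.2 ⟨(hs y hy).1, (hs y hy).2⟩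
    exact ⟨by linarith, by linarith⟩
  have hh : ∀ y ∈ Y, (B.Φ y).2 ∈ Icc (-ρ) ρ := fun y hy => by
    have a1 := (norm_snd_le (B.Φ y)).trans (B.in_norm (hY y hy)).1
    rw [Real.norm_eq_abs, abs_le] at a1
    exact ⟨by linarith [a1.1], by linarith [a1.2]⟩
  refine null_of_expand_tr (z := fun y => B.Ψ (B.ws y (s y), s y)) (C := A.K * (2 * K * (2 * K)))
    (fun y hy y' hy' => ?_) hz h0
  have i1 := B.in_norm (hY y hy)
  have i2 := B.in_norm (hY y' hy')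
  have e1 : B.ws y (B.Φ y).2 = (B.Φ y).1 := B.ws_self y (hY y hy)
  have e2 : B.ws y' (B.Φ y').2 = (B.Φ y').1 := B.ws_self y' (hY y' hy')
  have a1 := B.dist_le_tr i1.2 i2.2 (by linarith [i1.1]) (by linarith [i2.1]) (hc y hy y' hy')
  have a2 := B.holo y (hY y hy) y' (hY y' hy') _ (hh y hy) _ (hs y hy)
  have a3 := B.ws_lip y' (hY y' hy') _ (hh y hy) _ (hh y' hy')
  have a4 := B.ws_lip y' (hY y' hy') _ (hs y' hy') _ (hs y hy)
  have a5 := B.norm_Φ_sub_le (B.Ψ (B.ws y (s y), s y)) (B.Ψ (B.ws y' (s y'), s y'))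
  rw [B.Φ_Ψ (nz y hy), B.Φ_Ψ (nz y' hy')] at a5
  have a6 : |B.ws y (s y) - B.ws y' (s y')| ≤ _ := (norm_fst_le _).trans a5
  have a7 : |s y - s y'| ≤ _ := (norm_snd_le _).trans a5
  have a8 := abs_sub_le (B.ws y (s y)) (B.ws y' (s y')) (B.ws y' (s y))
  have a9 := abs_sub_le (B.ws y (B.Φ y).2) (B.ws y' (B.Φ y).2) (B.ws y' (B.Φ y').2)
  have a10 := hc y hy y' hy'
  rw [abs_sub_comm (s y')] at a4
  rw [e1] at a2
  rw [e2] at a3
  rw [e1, e2] at a9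
  set D := dist (B.Ψ (B.ws y (s y), s y)) (B.Ψ (B.ws y' (s y'), s y')) with hD
  have b0 : 0 ≤ K * D := mul_nonneg hK dist_nonneg
  have b1 : |B.ws y (s y) - B.ws y' (s y)| ≤ 2 * K * D := by linarith
  have b2 := mul_le_mul_of_nonneg_left b1 hK
  have b3 : |(B.Φ y).1 - (B.Φ y').1| ≤ 2 * K * (2 * K) * D := by
    have := abs_nonneg ((B.Φ y).1 - (B.Φ y').1)
    linarith
  rw [mul_assoc]
  exact a1.trans (mul_le_mul_of_nonneg_left b3 hA)

end Box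

omit [MeasurableSpace X] in
theorem UCur.dist_le_tr {S : X → X} {K c : ℝ} {σ : ℝ → X} (h : UCur S K c σ) {s t : ℝ}
    (hs : s ∈ Icc (0 : ℝ) 1) (ht : t ∈ Icc (0 : ℝ) 1) : dist (σ s) (σ t) ≤ K * |s - t| := by
  simpa using (h s hs t ht).2 0

omit [MeasurableSpace X] in
theorem UCur.continuousOn_tr {S : X → X} {K c : ℝ} {σ : ℝ → X} (h : UCur S K c σ) :
    ContinuousOn σ (Icc 0 1) := by
  refine (LipschitzOnWith.of_dist_le_mul (K := K.toNNReal) fun s hs t ht => ?_).continuousOn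
  exact (h.dist_le_tr hs ht).trans
    (mul_le_mul_of_nonneg_right (Real.le_coe_toNNReal K) (abs_nonneg _))

/-- A contracted curve through a point of the box parametrises its unstable leaf. -/
theorem ucur_box (A : Atlas X) {ρ K c ε0 K' β : ℝ} (hρ : 0 < ρ) (hK : 1 ≤ K) (hε : 0 < ε0)
    (hK' : 0 < K') (hβ : 0 < β) : ∃ β1 c1 : ℝ, 0 < β1 ∧ β1 ≤ β ∧ 0 < c1 ∧
      ∀ (F : Dif A) (Λ : Set X) (x0 : X) (B : Box F Λ x0 ρ K c ε0) (c' : ℝ) (σ : ℝ → X) (t0 β' : ℝ),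
      c ≤ c' → UCur F.g K' c' σ → t0 ∈ Icc β (1 - β) → In Λ x0 ρ K (σ t0) → 0 < β' → β' ≤ β1 →
      (∀ t ∈ Icc (t0 - β') (t0 + β'), dist (σ t) x0 < A.ρ ∧ ‖B.Φ (σ t)‖ ≤ ρ / 2 ∧
        (B.Φ (σ t)).2 = B.wu (σ t0) (B.Φ (σ t)).1) ∧
      (∀ t ∈ Icc (t0 - β') (t0 + β'), ∀ t' ∈ Icc (t0 - β') (t0 + β'),
        c1 * |t - t'| ≤ |(B.Φ (σ t)).1 - (B.Φ (σ t')).1|) ∧
      ∀ u, |u - (B.Φ (σ t0)).1| ≤ c1 * β' →
        ∃ t ∈ Icc (t0 - β') (t0 + β'), (B.Φ (σ t)).1 = u := by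
  have hA : 0 < A.K := zero_lt_one.trans_le A.one_le_K
  have hK0 : 0 < K := zero_lt_one.trans_le hK
  have hc1 : 0 < 1 / (K' * A.K) := by positivity
  refine ⟨min β (min (ε0 / K') (ρ / (4 * K) / K')), 1 / (K' * A.K), by positivity, min_le_left _ _,
    hc1, fun F Λ x0 B c' σ t0 β' hcc hσ ht0 hin hβ' hle => ?_⟩
  obtain ⟨l1', l2', l3'⟩ : β' ≤ β ∧ β' ≤ ε0 / K' ∧ β' ≤ ρ / (4 * K) / K' := by
    simpa only [le_min_iff] using hle
  rw [le_div_iff₀ hK'] at l2' l3'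
  have sub : ∀ t ∈ Icc (t0 - β') (t0 + β'), t ∈ Icc (0 : ℝ) 1 := fun t ht =>
    ⟨by linarith [ht.1, ht0.1], by linarith [ht.2, ht0.2]⟩
  have m0 : t0 ∈ Icc (0 : ℝ) 1 := ⟨by linarith [ht0.1], by linarith [ht0.2]⟩
  have near : ∀ t ∈ Icc (t0 - β') (t0 + β'), |t - t0| ≤ β' := fun t ht =>
    abs_le.2 ⟨by linarith [ht.1], by linarith [ht.2]⟩
  have p1 : ∀ t ∈ Icc (t0 - β') (t0 + β'), dist (σ t) x0 < A.ρ ∧ ‖B.Φ (σ t)‖ ≤ ρ / 2 ∧
      (B.Φ (σ t)).2 = B.wu (σ t0) (B.Φ (σ t)).1 := fun t ht => by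
    have a1 := (hσ.dist_le_tr (sub t ht) m0).trans (mul_le_mul_of_nonneg_left (near t ht) hK'.le)
    have a2 := dist_triangle (σ t) (σ t0) x0
    have a3 := hin.2
    have a4 : dist (σ t) x0 ≤ ρ / (2 * K) := by
      have e : ρ / (2 * K) = ρ / (4 * K) + ρ / (10 * K) + 3 * ρ / (20 * K) := by
        field_simp
        ring
      have : 0 < 3 * ρ / (20 * K) := by positivity
      linarith
    have a5 : K * dist (σ t) x0 ≤ ρ / 2 := by
      refine (mul_le_mul_of_nonneg_left a4 hK0.le).trans (le_of_eq ?_)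
      field_simp
    have a6 : ‖B.Φ (σ t)‖ ≤ ρ / 2 := by
      have := B.norm_Φ_sub_le (σ t) x0
      rw [B.Φ_self, sub_zero] at this
      exact this.trans a5
    have a7 : dist (σ t) x0 < A.ρ := by
      have b1 := le_mul_of_one_le_left (dist_nonneg (x := σ t) (y := x0)) hK
      have b2 := le_mul_of_one_le_left hρ.le A.one_le_K
      have b3 := B.ρ_le
      linarith
    refine ⟨a7, a6, B.wu_char _ hin _ (fun k => ?_)
      (((norm_fst_le (B.Φ (σ t))).trans a6).trans (by linarith))⟩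
    have b1 : Real.exp (-c' * k) ≤ Real.exp (-c * k) :=
      Real.exp_le_exp.2 (mul_le_mul_of_nonneg_right (neg_le_neg hcc) (Nat.cast_nonneg k))
    refine ((hσ t (sub t ht) t0 m0).2 k).trans ?_
    rw [mul_right_comm]
    refine mul_le_mul ?_ b1 (Real.exp_pos _).le hε.le
    have := mul_le_mul_of_nonneg_left (near t ht) hK'.le
    linarith
  have p2 : ∀ t ∈ Icc (t0 - β') (t0 + β'), ∀ t' ∈ Icc (t0 - β') (t0 + β'),
      1 / (K' * A.K) * |t - t'| ≤ |(B.Φ (σ t)).1 - (B.Φ (σ t')).1| := fun t ht t' ht' => by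
    obtain ⟨a1, a2, a3⟩ := p1 t ht
    obtain ⟨b1, b2, b3⟩ := p1 t' ht'
    have a4 := abs_le.1 ((norm_fst_le (B.Φ (σ t))).trans a2)
    have b4 := abs_le.1 ((norm_fst_le (B.Φ (σ t'))).trans b2)
    have e := B.dist_le_tr a1 b1 (by linarith) (by linarith) (by
      rw [a3, b3]
      exact B.wu_lip _ hin _ ⟨by linarith [a4.1], by linarith [a4.2]⟩ _
        ⟨by linarith [b4.1], by linarith [b4.2]⟩)
    rw [one_div, inv_mul_le_iff₀ (by positivity), mul_assoc]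
    exact (hσ t (sub t ht) t' (sub t' ht')).1.trans (mul_le_mul_of_nonneg_left e hK'.le)
  exact ⟨p1, p2, fun u hu => ivt_tr (φ := fun t => (B.Φ (σ t)).1) hβ' hc1
    ((continuous_fst.comp B.continuous_Φ).comp_continuousOn (hσ.continuousOn_tr.mono sub)) p2 hu⟩

theorem UCur.iter {F : Dif A} (K c : ℝ) (j : ℕ) (hc : 0 ≤ c) : ∃ K' : ℝ, 0 < K' ∧
    ∀ σ : ℝ → X, UCur F.g K c σ → UCur F.g K' c (F.f^[j] ∘ σ) := by
  obtain ⟨L, -, hL⟩ := (F.smf.iter j).lip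
  obtain ⟨M, hM1, hM⟩ := (F.smg.iter j).lip
  have hM0 : (1 : ℝ) ≤ M := hM1
  have hL0 : (0 : ℝ) ≤ L := L.2
  have hK := abs_nonneg K
  have hK1 := le_abs_self K
  have cm : Function.Commute F.g F.f := fun x => (F.gf x).trans (F.fg x).symm
  refine ⟨(|K| + 1) * (L + M), by positivity, fun σ hσ s hs t ht => ⟨?_, fun k => ?_⟩⟩
  · have a1 := hM.dist_le_mul (F.f^[j] (σ s)) (F.f^[j] (σ t))
    rw [F.gf_iter, F.gf_iter] at a1
    have a2 := (hσ s hs t ht).1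
    change _ ≤ _ * dist (F.f^[j] (σ s)) (F.f^[j] (σ t))
    have a3 : K * dist (σ s) (σ t) ≤ |K| * (M * dist (F.f^[j] (σ s)) (F.f^[j] (σ t))) :=
      mul_le_mul hK1 a1 dist_nonneg hK
    have a4 : |K| * M ≤ (|K| + 1) * (L + M) :=
      mul_le_mul (by linarith) (by linarith) (by linarith) (by linarith)
    have a5 := mul_le_mul_of_nonneg_right a4
      (dist_nonneg (x := F.f^[j] (σ s)) (y := F.f^[j] (σ t)))
    linarith
  · change dist (F.g^[k] (F.f^[j] (σ s))) (F.g^[k] (F.f^[j] (σ t))) ≤ _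
    rw [cm.iterate_iterate k j (σ s), cm.iterate_iterate k j (σ t)]
    have a1 := hL.dist_le_mul (F.g^[k] (σ s)) (F.g^[k] (σ t))
    have a2 := mul_le_mul_of_nonneg_left ((hσ s hs t ht).2 k) hL0
    have a3 : L * K ≤ (|K| + 1) * (L + M) := by
      rw [mul_comm (L : ℝ)]
      exact mul_le_mul (by linarith) (by linarith) hL0 (by linarith)
    have a4 := mul_le_mul_of_nonneg_right a3
      (mul_nonneg (Real.exp_pos (-c * k)).le (abs_nonneg (s - t)))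
    linarith

omit [MeasurableSpace X] in
theorem UCur.continuousOn {S : X → X} {K c : ℝ} {σ : ℝ → X} (h : UCur S K c σ) :
    ContinuousOn σ (Icc 0 1) := h.continuousOn_tr

end Pool.Agent.Lib.MP_e7c912_an
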