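import Pool.Agent.Lib.MP_e7c912_an.H60SLem
import Pool.Agent.Lib.MP_e7c912_an.H60Box
import Pool.Agent.Lib.MP_e7c912_an.H60Tr

/-! The barrier lemma: stable leaves of `μ` must cross the boundary of `Q`. -/

namespace Pool.Agent.Lib.MP_e7c912_an

open MeasureTheory Filter Metric Set Topology
open scoped ENNReal

theorem exists_of_ae_bar {Y : Type} [MeasurableSpace Y] {m : Measure Y} {S : Set Y}
    (h : m S ≠ 0) {p : Y → Prop} (hp : ∀ᵐ y ∂m, p y) : ∃ y ∈ S, p y :=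
  ((frequently_ae_mem_iff.2 h).and_eventually hp).exists

theorem exists_nat_bar {Y : Type} [MeasurableSpace Y] {m : Measure Y} {S : Set Y}
    (h : m S ≠ 0) {p : ℕ → Y → Prop} (hp : ∀ᵐ y ∂m, y ∈ S → ∃ k, p k y) :
    ∃ k, m {y | y ∈ S ∧ p k y} ≠ 0 := by
  by_contra hn
  push Not at hn
  have h1 : ∀ᵐ y ∂m, ∀ k, y ∉ {y | y ∈ S ∧ p k y} :=
    ae_all_iff.2 fun k => measure_eq_zero_iff_ae_notMem.1 (hn k)
  obtain ⟨y, hy, h2, h3⟩ := exists_of_ae_bar h (hp.and h1)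
  obtain ⟨k, hk⟩ := h2 hy
  exact h3 k ⟨hy, hk⟩

theorem small_bar (C : ℝ) {c δ : ℝ} (hc : 0 < c) (hδ : 0 < δ) :
    ∀ᶠ n : ℕ in atTop, C * Real.exp (-c * n) < δ := by
  have h1 : Tendsto (fun n : ℕ => -c * (n : ℝ)) atTop atBot :=
    tendsto_natCast_atTop_atTop.const_mul_atTop_of_neg (neg_lt_zero.2 hc)
  have h2 := (Real.tendsto_exp_atBot.comp h1).const_mul C
  rw [mul_zero] at h2
  exact h2.eventually (gt_mem_nhds hδ)

theorem frontier_bar {Y : Type} [TopologicalSpace Y] {γ : ℝ → Y} {a b s t : ℝ} {Q : Set Y}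
    (hγ : ContinuousOn γ (Icc a b)) (oQ : IsOpen Q) (hs : s ∈ Icc a b) (ht : t ∈ Icc a b)
    (h1 : γ s ∈ Q) (h2 : γ t ∉ Q) : ∃ r ∈ Icc a b, γ r ∈ frontier Q := by
  by_contra hn
  push Not at hn
  refine h2 ((isPreconnected_Icc.image γ hγ).subset_of_closure_inter_subset oQ
    ⟨γ s, ⟨s, hs, rfl⟩, h1⟩ ?_ ⟨t, ht, rfl⟩)
  rintro _ ⟨hc, r, hr, rfl⟩
  by_contra hq
  exact hn r hr (oQ.frontier_eq ▸ ⟨hc, hq⟩)

variable {X : Type} [MetricSpace X] [CompactSpace X] [MeasurableSpace X] [BorelSpace X]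
  {A : Atlas X}

theorem pull_bar {μ : Measure X} {ε : ℝ} {κ : Measure (Cv A ε)} [IsFiniteMeasure κ]
    (hac : eta κ ≪ μ) {T : X → X} (hT : MeasurePreserving T μ μ) {p : X → Prop}
    (h : ∀ᵐ y ∂μ, p y) : ∀ᵐ w ∂κ, ∀ᵐ t ∂(volume : Measure ℝ), t ∈ Icc (0 : ℝ) 1 →
      p (T (w.pt t)) := by
  have h1 : ∀ᵐ y ∂etaOn κ (Icc 0 1), p (T y) := hac.ae_le (hT.quasiMeasurePreserving.ae h)
  filter_upwards [ae_of_etaOn h1] with w hw
  exact (ae_restrict_iff' measurableSet_Icc).1 hw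

omit [CompactSpace X] [BorelSpace X] [MeasurableSpace X] in
theorem UCur.le_bar {S : X → X} {K c : ℝ} {σ : ℝ → X} (h : UCur S K c σ) {s t : ℝ}
    (hs : s ∈ Icc (0 : ℝ) 1) (ht : t ∈ Icc (0 : ℝ) 1) (hK : 0 ≤ K) (n : ℕ) :
    dist (S^[n] (σ s)) (S^[n] (σ t)) ≤ K * Real.exp (-c * n) := by
  refine ((h s hs t ht).2 n).trans (mul_le_of_le_one_right (by positivity) ?_)
  rw [abs_le]
  constructor <;> linarith [hs.1, hs.2, ht.1, ht.2]

omit [CompactSpace X] [BorelSpace X] [MeasurableSpace X] in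
theorem UCur.nonneg_bar {S : X → X} {K c : ℝ} {σ : ℝ → X} (h : UCur S K c σ) : 0 ≤ K := by
  have h1 := (h 0 ⟨le_rfl, zero_le_one⟩ 1 ⟨zero_le_one, le_rfl⟩).1
  by_contra hn
  have h2 := mul_nonpos_of_nonpos_of_nonneg (not_le.1 hn).le (dist_nonneg (x := σ 0) (y := σ 1))
  norm_num at h1
  linarith

omit [CompactSpace X] [BorelSpace X] in
/-- A stable leaf from `Q` to the outside of `Q` meets the frontier. -/
theorem cross_bar {F : Dif A} {Λ : Set X} {x0 : X} {ρ K c ε0 : ℝ} (B : Box F Λ x0 ρ K c ε0)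
    {y : X} (hy : In Λ x0 ρ K y) {G : X → X} (hG : Continuous G) {Q : Set X} (oQ : IsOpen Q)
    (h1 : G y ∈ Q) {s : ℝ} (hs : s ∈ Icc (-ρ) ρ) (h2 : G (B.Ψ (B.ws y s, s)) ∉ Q) :
    ∃ r ∈ Icc (-ρ) ρ, G (B.Ψ (B.ws y r, r)) ∈ frontier Q := by
  have hρ := B.ρ_pos
  have hn := B.in_norm hy
  have hs0 : (B.Φ y).2 ∈ Icc (-ρ) ρ := by
    have := (norm_snd_le (B.Φ y)).trans hn.1
    rw [Real.norm_eq_abs, abs_le] at this
    constructor <;> linarith [this.1, this.2]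
  have hw : ContinuousOn (B.ws y) (Icc (-ρ) ρ) := by
    refine (LipschitzOnWith.of_dist_le_mul (K := 1) fun a ha b hb => ?_).continuousOn
    have := B.ws_lip y hy a ha b hb
    rw [Real.dist_eq, Real.dist_eq, NNReal.coe_one, one_mul]
    linarith [abs_nonneg (a - b)]
  refine frontier_bar (γ := fun r => G (B.Ψ (B.ws y r, r))) (hG.comp_continuousOn
    (B.continuousOn_Ψ.comp (hw.prodMk continuousOn_id) fun r hr => ?_)) oQ hs0 hs ?_ h2
  · rw [mem_closedBall_zero_iff, Prod.norm_def, max_le_iff, Real.norm_eq_abs, Real.norm_eq_abs]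
    exact ⟨by linarith [B.abs_ws_le hy hr], by
      have := abs_le.2 ⟨hr.1, hr.2⟩
      change |r| ≤ _
      linarith⟩
  · have e : B.ws y (B.Φ y).2 = (B.Φ y).1 := B.ws_self y hy
    change G (B.Ψ (B.ws y (B.Φ y).2, (B.Φ y).2)) ∈ Q
    rw [e]
    change G (B.Ψ (B.Φ y)) ∈ Q
    rwa [B.Ψ_Φ hn.2]

theorem barrier (F : Dif A) {μ ν : Measure X} [IsProbabilityMeasure μ] [IsProbabilityMeasure ν]
    (hμ : Ergodic F.f μ) (hy : ∀ᵐ x ∂μ, 0 < l1 (A.coc F.f) x ∧ l2 (A.coc F.f) x < 0)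
    {ε K c : ℝ} (hc : 0 < c) {κ : Measure (Cv A ε)} [IsFiniteMeasure κ] (h0 : κ ≠ 0)
    (hac : eta κ ≪ μ) {j : ℕ} {T1 T2 : Set ℝ} (hT1 : T1 ⊆ Icc 0 1) (hT2 : T2 ⊆ Icc 0 1)
    (v1 : volume T1 ≠ 0) (v2 : volume T2 ≠ 0) {K1 K2 Q O Z : Set X} (c1 : IsClosed K1)
    (c2 : IsClosed K2) (oQ : IsOpen Q) (oO : IsOpen O) (s1 : K1 ⊆ Q) (s2 : K2 ⊆ O)
    (hd : Disjoint Q O)
    (hκ : ∀ᵐ w ∂κ, UCur F.g K c w.pt ∧ (∀ t ∈ T1, F.f^[j] (w.pt t) ∈ K1) ∧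
      ∀ t ∈ T2, F.f^[j] (w.pt t) ∈ K2)
    (hfr : ∀ z ∈ frontier Q, z ∈ Z ∨ ∃ N : ℕ, 1 ≤ N ∧
      Tendsto (fun k : ℕ => dist (F.f^[k] z) (F.f^[k + N] z)) atTop (𝓝 0))
    (hZ : Measure.hausdorffMeasure 1 (Z \ {z | Gen F.f ν z}) = 0) : μ = ν := by
  by_contra hne
  have hf := hμ.toMeasurePreserving
  have hgE : Ergodic F.g μ := ergodic_inv hμ F.smg.1.measurable F.gf F.fg
  have hg := hgE.toMeasurePreserving
  have hμ0 : μ univ ≠ 0 := by simp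
  have hκ0 : κ univ ≠ 0 := fun h => h0 (Measure.measure_univ_eq_zero.1 h)
  -- the box
  obtain ⟨Λ, hΛ, hae⟩ := pesin F μ hf hc
  obtain ⟨l, hl⟩ := exists_nat_bar (p := fun l x => x ∈ Λ l ∧ Gen F.f μ x) hμ0 (by
    filter_upwards [hae, hy, ae_gen hμ] with x a b e _
    obtain ⟨l, hl⟩ := a b.1 b.2
    exact ⟨l, hl, e⟩)
  obtain ⟨hm, ρ, K0, c0, ε0, hρ, hK0, hc0, hc0c, hε0, hB⟩ := hΛ l
  obtain ⟨x0, hx0, hpos⟩ := exists_ball_pos hl (γ := ρ / (10 * K0)) (by positivity)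
  obtain ⟨B⟩ := hB x0 hx0.2.1
  set L1 : Set X := {y | y ∈ univ ∧ y ∈ Λ l ∧ Gen F.f μ y} ∩ closedBall x0 (ρ / (10 * K0))
    with hL1
  have mL : MeasurableSet L1 :=
    (MeasurableSet.univ.inter (hm.inter (measurableSet_gen hf.measurable))).inter
      measurableSet_closedBall
  have inL : ∀ y ∈ L1, In (Λ l) x0 ρ K0 y := fun y h => ⟨h.1.2.1, h.2⟩
  have genL : ∀ y ∈ L1, Gen F.f μ y := fun y h => h.1.2.2
  clear_value L1
  -- the time `k`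
  obtain ⟨J, hJ⟩ := eventually_atTop.1 (small_bar K hc hε0)
  obtain ⟨k, hk⟩ := exists_nat_bar (p := fun k (w : Cv A ε) => (UCur F.g K c w.pt ∧
      (∀ t ∈ T1, F.f^[j] (w.pt t) ∈ K1) ∧ ∀ t ∈ T2, F.f^[j] (w.pt t) ∈ K2) ∧
      volume {t | t ∈ T1 ∧ J ≤ k ∧ F.g^[k] (w.pt t) ∈ L1} ≠ 0) hκ0 (by
    filter_upwards [hκ, pull_bar hac (MeasurePreserving.id μ) (ergodic_freq hgE mL hpos)]
      with w a b _
    obtain ⟨k, hk⟩ := exists_nat_bar (p := fun k t => J ≤ k ∧ F.g^[k] (w.pt t) ∈ L1) v1 (by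
      filter_upwards [b] with t ht h1
      exact frequently_atTop.1 (ht (hT1 h1)) J)
    exact ⟨k, a, hk⟩)
  -- recurrence
  have hrec := Measure.ae_ae_of_ae_prod ((hg.prod hg).conservative.ae_mem_imp_frequently_image_mem
    (c1.measurableSet.prod c2.measurableSet).nullMeasurableSet)
  obtain ⟨w, ⟨-, ⟨wu, w1, -⟩, wv⟩, hw⟩ := exists_of_ae_bar hk (pull_bar hac (hf.iterate j) hrec)
  obtain ⟨t, ⟨t1, kJ, tL⟩, ht⟩ := exists_of_ae_bar wv hw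
  obtain ⟨w', ⟨-, ⟨wu', -, w2⟩, wv'⟩, hw'⟩ :=
    exists_of_ae_bar hk (pull_bar hac (hf.iterate j) (ht (hT1 t1)))
  obtain ⟨t', t2, ht'⟩ := exists_of_ae_bar v2 hw'
  obtain ⟨t'', t1', -, tL'⟩ := nonempty_of_measure_ne_zero wv'
  have hfreq := ht' (hT2 t2) ⟨w1 t t1, w2 t' t2⟩
  have hK : 0 ≤ K := wu.nonneg_bar
  -- the return time
  obtain ⟨δ1, hδ1, th1⟩ := c1.isCompact.exists_thickening_subset_open oQ s1
  obtain ⟨δ2, hδ2, th2⟩ := c2.isCompact.exists_thickening_subset_open oO s2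
  have ev : ∀ᶠ N : ℕ in atTop, K * Real.exp (-c * (N + k : ℕ)) < δ1 ∧
      K * Real.exp (-c * (N + k : ℕ)) < δ2 / 2 ∧ K0 * ρ * Real.exp (-c0 * N) < δ2 / 2 :=
    ((tendsto_add_atTop_nat k).eventually (small_bar K hc hδ1)).and
      (((tendsto_add_atTop_nat k).eventually (small_bar K hc (half_pos hδ2))).and
        (small_bar (K0 * ρ) hc0 (half_pos hδ2)))
  rw [← map_add_atTop_eq_nat (k + j), frequently_map] at hfreq
  obtain ⟨N, hN, e1, e2, e3⟩ := (hfreq.and_eventually ev).exists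
  have back : ∀ z, F.g^[N + (k + j)] (F.f^[j] z) = F.g^[N + k] z := fun z => by
    rw [← add_assoc, Function.iterate_add_apply, F.gf_iter]
  rw [Prod.map_iterate, Prod.map_apply, back, back] at hN
  obtain ⟨n1, n2⟩ := hN
  -- the horizontal set
  obtain ⟨Lk, -, hLk⟩ := (F.smf.iter k).lip
  obtain ⟨LN, -, hLN⟩ := (F.smf.iter N).lip
  refine wv (null_of_hausdorff_image (σ := fun s => F.g^[k] (w.pt s)) (D := Icc 0 1)
    (K := K * Lk) (fun s hs => hT1 hs.1) (fun s hs s' hs' => ?_) ?_)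
  · have h1 := hLk.dist_le_mul (F.g^[k] (w.pt s)) (F.g^[k] (w.pt s'))
    rw [F.fg_iter, F.fg_iter] at h1
    rw [mul_assoc]
    exact (wu s hs s' hs').1.trans (mul_le_mul_of_nonneg_left h1 hK)
  have hx := inL _ tL
  have hx' := inL _ tL'
  have fst_mem : ∀ y, In (Λ l) x0 ρ K0 y → |(B.Φ y).1| ≤ ρ / 10 := fun y h =>
    (norm_fst_le (B.Φ y)).trans (B.in_norm h).1
  have leaf : ∀ s ∈ T1, F.g^[k] (w.pt s) ∈ L1 → (B.Φ (F.g^[k] (w.pt s))).2 =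
      B.wu (F.g^[k] (w.pt t)) (B.Φ (F.g^[k] (w.pt s))).1 := fun s hs sL => by
    refine B.wu_char _ hx _ (fun m => ?_) ((fst_mem _ (inL _ sL)).trans (by linarith))
    rw [← Function.iterate_add_apply, ← Function.iterate_add_apply]
    refine (wu.le_bar (hT1 hs) (hT1 t1) hK _).trans ?_
    have a1 : Real.exp (-c * (m + k : ℕ)) = Real.exp (-c * k) * Real.exp (-c * m) := by
      rw [← Real.exp_add]
      congr 1
      push_cast
      ring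
    have a2 : Real.exp (-c * m) ≤ Real.exp (-c0 * m) :=
      Real.exp_le_exp.2 (mul_le_mul_of_nonneg_right (neg_le_neg hc0c) (Nat.cast_nonneg m))
    rw [a1, ← mul_assoc]
    exact mul_le_mul (hJ k kJ).le a2 (Real.exp_pos _).le hε0.le
  refine B.transfer (Z := F.f^[N] '' (Z \ {z | Gen F.f ν z})) ?_ ?_ ?_ (hausdorff_lip_null hLN hZ)
  · rintro _ ⟨s, hs, rfl⟩
    exact inL _ hs.2.2
  · rintro _ ⟨s, hs, rfl⟩ _ ⟨s', hs', rfl⟩
    rw [leaf s hs.1 hs.2.2, leaf s' hs'.1 hs'.2.2]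
    have a1 := abs_le.1 (fst_mem _ (inL _ hs.2.2))
    have a2 := abs_le.1 (fst_mem _ (inL _ hs'.2.2))
    exact B.wu_lip _ hx _ ⟨by linarith [a1.1], by linarith [a1.2]⟩ _
      ⟨by linarith [a2.1], by linarith [a2.2]⟩
  · rintro _ ⟨s, ⟨s1', -, sL⟩, rfl⟩
    have hy0 := inL _ sL
    have inQ : F.g^[N] (F.g^[k] (w.pt s)) ∈ Q := by
      refine th1 (mem_thickening_iff.2 ⟨_, n1, ?_⟩)
      rw [← Function.iterate_add_apply]
      exact (wu.le_bar (hT1 s1') (hT1 t1) hK _).trans_lt e1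
    obtain ⟨u, r, hu, hr, eu, er⟩ := B.inter hx' hy0 le_rfl (B.in_norm hx').1 (B.in_norm hy0).1
    have hu' := abs_le.1 hu
    have hr' := abs_le.1 hr
    have inO : F.g^[N] (B.Ψ (B.ws (F.g^[k] (w.pt s)) r, r)) ∈ O := by
      refine th2 (mem_thickening_iff.2 ⟨_, n2, ?_⟩)
      have d1 := B.dist_wu_le hx' (u := u) ⟨by linarith [hu'.1], by linarith [hu'.2]⟩ N
      have d2 := wu'.le_bar (hT1 t1') (hT2 t2) hK (N + k)
      rw [← er, ← Function.iterate_add_apply] at d1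
      have d3 : |u - (B.Φ (F.g^[k] (w'.pt t''))).1| ≤ ρ := by
        have a1 := abs_le.1 (fst_mem _ hx')
        rw [abs_le]
        constructor <;> linarith [a1.1, a1.2, hu'.1, hu'.2]
      have d4 : K0 * Real.exp (-c0 * N) * |u - (B.Φ (F.g^[k] (w'.pt t''))).1| ≤
          K0 * ρ * Real.exp (-c0 * N) := by
        rw [mul_right_comm K0 ρ]
        exact mul_le_mul_of_nonneg_left d3 (by positivity)
      rw [← eu]
      refine (dist_triangle _ (F.g^[N + k] (w'.pt t'')) _).trans_lt ?_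
      linarith
    obtain ⟨r', hr'', hfrn⟩ := cross_bar B hy0 (F.smg.1.iterate N) oQ inQ (s := r)
      ⟨by linarith [hr'.1], by linarith [hr'.2]⟩ fun h => disjoint_left.1 hd h inO
    have g1 : Gen F.f μ (F.g^[N] (B.Ψ (B.ws (F.g^[k] (w.pt s)) r', r'))) := by
      rw [← gen_iterate N, F.fg_iter]
      exact (genL _ sL).congr (B.tendsto_ws hy0 hr'')
    refine ⟨r', hr'', _, ⟨?_, fun g2 => hne (g1.unique g2)⟩, F.fg_iter N _⟩
    rcases hfr _ hfrn with h | ⟨M, hM, h⟩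
    · exact h
    · exact absurd (g1.ae_fix F.smf.1 h) (not_ae_fix hc h0 (hκ.mono fun _ h => h.1) hac hM)

end Pool.Agent.Lib.MP_e7c912_an
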