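import Pool.Agent.Lib.MP_e7c912_an.H60Chart

/-! Boxes with local product structure. Definitions only. -/

namespace Pool.Agent.Lib.MP_e7c912_an

open MeasureTheory Filter Metric Set Topology

variable {X : Type} [MetricSpace X] [MeasurableSpace X] {A : Atlas X}

/-- The points of `Λ` near the centre of a box. -/
def In (Λ : Set X) (x0 : X) (ρ K : ℝ) (x : X) : Prop := x ∈ Λ ∧ dist x x0 ≤ ρ / (10 * K)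

/-- Coordinates near `x0` in which the points of `Λ` have stable leaves `u = ws x s` and unstable
leaves `s = wu x u` over `[-ρ, ρ]`. -/
structure Box (F : Dif A) (Λ : Set X) (x0 : X) (ρ K c ε0 : ℝ) where
  i : Fin A.m
  C : V →L[ℝ] V
  Ci : V →L[ℝ] V
  ws : X → ℝ → ℝ
  wu : X → ℝ → ℝ
  ρ_pos : 0 < ρ
  ρ_le : 4 * A.K * ρ ≤ A.ρ
  one_le : 1 ≤ K
  c_pos : 0 < c
  ε0_pos : 0 < ε0
  mem : x0 ∈ A.D i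
  C_Ci : ∀ v, C (Ci v) = v
  Ci_C : ∀ v, Ci (C v) = v
  C_le : ‖C‖ ≤ 1
  Ci_le : ‖Ci‖ ≤ K
  ws_self : ∀ x, In Λ x0 ρ K x → ws x (A.Phi i Ci x0 x).2 = (A.Phi i Ci x0 x).1
  ws_lip : ∀ x, In Λ x0 ρ K x → ∀ s ∈ Icc (-ρ) ρ, ∀ s' ∈ Icc (-ρ) ρ,
    |ws x s - ws x s'| ≤ |s - s'| / 10
  ws_con : ∀ x, In Λ x0 ρ K x → ∀ s ∈ Icc (-ρ) ρ, ∀ s' ∈ Icc (-ρ) ρ, ∀ k : ℕ,
    dist (F.f^[k] (A.Psi i C x0 (ws x s, s))) (F.f^[k] (A.Psi i C x0 (ws x s', s'))) ≤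
      K * Real.exp (-c * k) * |s - s'|
  wu_self : ∀ x, In Λ x0 ρ K x → wu x (A.Phi i Ci x0 x).1 = (A.Phi i Ci x0 x).2
  wu_lip : ∀ x, In Λ x0 ρ K x → ∀ u ∈ Icc (-ρ) ρ, ∀ u' ∈ Icc (-ρ) ρ,
    |wu x u - wu x u'| ≤ |u - u'| / 10
  wu_con : ∀ x, In Λ x0 ρ K x → ∀ u ∈ Icc (-ρ) ρ, ∀ u' ∈ Icc (-ρ) ρ, ∀ k : ℕ,
    dist (F.g^[k] (A.Psi i C x0 (u, wu x u))) (F.g^[k] (A.Psi i C x0 (u', wu x u'))) ≤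
      K * Real.exp (-c * k) * |u - u'|
  wu_char : ∀ x, In Λ x0 ρ K x → ∀ y,
    (∀ k : ℕ, dist (F.g^[k] y) (F.g^[k] x) ≤ ε0 * Real.exp (-c * k)) →
    |(A.Phi i Ci x0 y).1| ≤ ρ → (A.Phi i Ci x0 y).2 = wu x (A.Phi i Ci x0 y).1
  holo : ∀ x, In Λ x0 ρ K x → ∀ x', In Λ x0 ρ K x' → ∀ s ∈ Icc (-ρ) ρ, ∀ s' ∈ Icc (-ρ) ρ,
    |ws x s - ws x' s| ≤ K * |ws x s' - ws x' s'|
  growth : ∀ x, In Λ x0 ρ K x → ∀ a < l1 (A.coc F.f) x - c, ∀ᶠ n : ℕ in atTop,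
    Real.exp (a * n) ≤ ‖deriv (A.e ∘ F.f^[n] ∘ fun t : ℝ => A.Psi i C x0 (t, 0)) (ws x 0)‖
  closing : ∀ x, In Λ x0 ρ K x → Rec F.f Λ x → ∀ gs : ℕ → X → X, (∀ n, A.Sm (gs n)) →
    A.Conv1 gs F.f → ∀ γ : ℝ, 0 < γ → ∀ᶠ n in atTop, ∃ (aa : ℝ → ℝ) (N : ℕ), 1 ≤ N ∧
      (∀ s ∈ Icc (-ρ) ρ, ∀ s' ∈ Icc (-ρ) ρ, |aa s - aa s'| ≤ |s - s'| / 10) ∧
      |aa (A.Phi i Ci x0 x).2 - (A.Phi i Ci x0 x).1| ≤ γ ∧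
      ∀ s ∈ Icc (-ρ) ρ, Tendsto (fun k : ℕ => dist ((gs n)^[k] (A.Psi i C x0 (aa s, s)))
        ((gs n)^[k + N] (A.Psi i C x0 (aa s, s)))) atTop (𝓝 0)

namespace Box

variable {F : Dif A} {Λ : Set X} {x0 : X} {ρ K c ε0 : ℝ} (B : Box F Λ x0 ρ K c ε0)

/-- The coordinates of the box. -/
noncomputable def Φ (y : X) : V := A.Phi B.i B.Ci x0 y

/-- The parametrisation of the box. -/
noncomputable def Ψ (z : V) : X := A.Psi B.i B.C x0 z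

end Box

/-- Every point of `Λ` is the centre of a box, with uniform constants and rate at most `c0`. -/
def HasBoxes (F : Dif A) (Λ : Set X) (c0 : ℝ) : Prop :=
  ∃ ρ K c ε0 : ℝ, 0 < ρ ∧ 1 ≤ K ∧ 0 < c ∧ c ≤ c0 ∧ 0 < ε0 ∧
    ∀ x0 ∈ Λ, Nonempty (Box F Λ x0 ρ K c ε0)

end Pool.Agent.Lib.MP_e7c912_an
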