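import Pool.Agent.Lib.MP_e7c912_an.H60BrDef

/-! Smooth maps and the smooth topology, read in an atlas. -/

namespace Pool.Agent.Lib.MP_e7c912_an

open MeasureTheory Filter Metric Set Topology
open scoped ContDiff

variable {E : Type} [NormedAddCommGroup E] [NormedSpace ℝ E]

/-- Bounds for the derivatives over a compact set, after a linear change of variables. -/
theorem reg_of_compact {G : Type} [NormedAddCommGroup G] [NormedSpace ℝ G] {h : E → G}
    {T W : Set E} (hT : IsOpen T) (hW : IsCompact W) (hWT : W ⊆ T) (hh : ContDiffOn ℝ ∞ h T)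
    (L : E ≃L[ℝ] V) {U : Set V} (hU : ∀ w ∈ U, L.symm w ∈ W) (r : ℕ) :
    ∃ K : ℝ, ContDiffOn ℝ r (h ∘ L.symm) U ∧
      ∀ s ≤ r, ∀ w ∈ U, ‖iteratedFDeriv ℝ s (h ∘ L.symm) w‖ ≤ K := by
  have hT' : IsOpen (L.symm ⁻¹' T) := hT.preimage L.symm.continuous
  have h1 : ContDiffOn ℝ ∞ (h ∘ L.symm) (L.symm ⁻¹' T) :=
    hh.comp L.symm.contDiff.contDiffOn fun _ hw => hw
  have hW' : IsCompact (L '' W) := hW.image L.continuous
  have hsub : L '' W ⊆ L.symm ⁻¹' T := by
    rintro _ ⟨u, hu, rfl⟩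
    rw [mem_preimage, L.symm_apply_apply]
    exact hWT hu
  have hUW : U ⊆ L '' W := fun w hw => ⟨L.symm w, hU w hw, L.apply_symm_apply w⟩
  have hb : ∀ s : ℕ, ∃ K : ℝ, ∀ w ∈ L '' W, ‖iteratedFDeriv ℝ s (h ∘ L.symm) w‖ ≤ K := fun s =>
    hW'.exists_bound_of_continuousOn
      ((ContinuousOn.continuousOn_iteratedFDeriv h1 hT' (by exact_mod_cast le_top)).mono hsub)
  choose K hK using hb
  obtain ⟨K', hK'⟩ := ((finite_Iic r).image K).bddAbove
  refine ⟨K', (h1.of_le (by exact_mod_cast le_top)).mono (hUW.trans hsub), fun s hs w hw => ?_⟩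
  exact (hK s w (hUW hw)).trans (hK' (mem_image_of_mem K hs))

theorem iteratedFDeriv_equiv_br2 {G : Type} [NormedAddCommGroup G] [NormedSpace ℝ G] (h : E → G)
    (L : V ≃L[ℝ] E) (s : ℕ) (w : V) : iteratedFDeriv ℝ s (h ∘ L) w =
      (iteratedFDeriv ℝ s h (L w)).compContinuousLinearMap fun _ => (L : V →L[ℝ] E) := by
  have h1 := L.iteratedFDerivWithin_comp_right h uniqueDiffOn_univ (mem_univ (L w)) s
  rwa [preimage_univ, iteratedFDerivWithin_univ, iteratedFDerivWithin_univ] at h1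

theorem norm_sub_equiv_br2 {G : Type} [NormedAddCommGroup G] [NormedSpace ℝ G] (h h' : E → G)
    (L : V ≃L[ℝ] E) (s : ℕ) (w : V) :
    ‖iteratedFDeriv ℝ s (h ∘ L) w - iteratedFDeriv ℝ s (h' ∘ L) w‖ ≤
      ‖iteratedFDeriv ℝ s h (L w) - iteratedFDeriv ℝ s h' (L w)‖ * ‖(L : V →L[ℝ] E)‖ ^ s := by
  have h1 : iteratedFDeriv ℝ s (h ∘ L) w - iteratedFDeriv ℝ s (h' ∘ L) w =
      (iteratedFDeriv ℝ s h (L w) - iteratedFDeriv ℝ s h' (L w)).compContinuousLinearMap
        fun _ => (L : V →L[ℝ] E) := by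
    rw [iteratedFDeriv_equiv_br2, iteratedFDeriv_equiv_br2]
    ext m
    simp
  rw [h1]
  refine (ContinuousMultilinearMap.norm_compContinuousLinearMap_le _ _).trans_eq ?_
  simp

theorem norm_sub_pi_br2 {N s : ℕ} {h h' : E → Fin N → ℝ} {u : E} (hh : ContDiffAt ℝ ∞ h u)
    (hh' : ContDiffAt ℝ ∞ h' u) {δ : ℝ} (hδ : 0 ≤ δ)
    (hk : ∀ k : Fin N, ‖iteratedFDeriv ℝ s (fun z => h z k) u -
      iteratedFDeriv ℝ s (fun z => h' z k) u‖ ≤ δ) :
    ‖iteratedFDeriv ℝ s h u - iteratedFDeriv ℝ s h' u‖ ≤ δ := by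
  refine ContinuousMultilinearMap.opNorm_le_bound hδ fun m => ?_
  refine (pi_norm_le_iff_of_nonneg (by positivity)).2 fun k => ?_
  have h1 := (ContinuousLinearMap.proj (R := ℝ) (φ := fun _ : Fin N => ℝ)
    k).iteratedFDeriv_comp_left hh (i := s) (by exact_mod_cast le_top)
  have h2 := (ContinuousLinearMap.proj (R := ℝ) (φ := fun _ : Fin N => ℝ)
    k).iteratedFDeriv_comp_left hh' (i := s) (by exact_mod_cast le_top)
  have h3 : (iteratedFDeriv ℝ s h u - iteratedFDeriv ℝ s h' u) m k =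
      (iteratedFDeriv ℝ s (fun z => h z k) u - iteratedFDeriv ℝ s (fun z => h' z k) u) m := by
    have h4 : iteratedFDeriv ℝ s (fun z => h z k) u m = iteratedFDeriv ℝ s h u m k :=
      congrArg (fun T => T m) h1
    have h5 : iteratedFDeriv ℝ s (fun z => h' z k) u m = iteratedFDeriv ℝ s h' u m k :=
      congrArg (fun T => T m) h2
    simp only [sub_apply, Pi.sub_apply, h4, h5]
  rw [h3]
  exact (ContinuousMultilinearMap.le_opNorm _ _).trans
    (mul_le_mul_of_nonneg_right (hk k) (by positivity))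

variable {M : Type} [TopologicalSpace M] [ChartedSpace E M] [IsManifold (II E) ∞ M] {X : Type}
  [MetricSpace X] [MeasurableSpace X] {A : Atlas X} {j : M ≃ₜ X}

omit [IsManifold (II E) ∞ M] in
theorem Compat.rep_eq_br2 (H : Compat E A j) (g : M → M) (i : Fin A.m) :
    A.rep (conj j g) i = ((A.e ∘ j) ∘ g ∘ (chartAt E (H.c i)).symm) ∘ H.L.symm := by
  funext w
  simp only [Atlas.rep, conj, Function.comp_apply, H.ψ_eq, Homeomorph.symm_apply_apply]

theorem Compat.contDiffOn_br2 (H : Compat E A j) {g : M → M} (hg : ContMDiff (II E) (II E) ∞ g) (x : M) :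
    ContDiffOn ℝ ∞ ((A.e ∘ j) ∘ g ∘ (chartAt E x).symm) (chartAt E x).target :=
  contMDiffOn_iff_contDiffOn.1 (H.smooth.comp_contMDiffOn
    (hg.comp_contMDiffOn (contMDiffOn_chart_symm (I := (II E)) (n := ∞) (x := x))))

theorem Compat.sm (H : Compat E A j) {g : M → M} (hg : ContMDiff (II E) (II E) ∞ g) : A.Sm (conj j g) := by
  refine ⟨j.continuous.comp (hg.continuous.comp j.symm.continuous), fun r => ?_⟩
  have h1 : ∀ i, ∃ K : ℝ, ContDiffOn ℝ r (A.rep (conj j g) i) (A.U i) ∧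
      ∀ s ≤ r, ∀ w ∈ A.U i, ‖iteratedFDeriv ℝ s (A.rep (conj j g) i) w‖ ≤ K := by
    intro i
    rw [H.rep_eq_br2]
    exact reg_of_compact (chartAt E (H.c i)).open_target (H.W_compact i) (H.W_sub i)
      (H.contDiffOn_br2 hg _) H.L (H.U_sub i) r
  choose K hK using h1
  obtain ⟨K', hK'⟩ := (finite_range K).bddAbove
  exact ⟨K', fun i => ⟨(hK i).1, fun s hs w hw =>
    ((hK i).2 s hs w hw).trans (hK' (mem_range_self i))⟩⟩

theorem Compat.nhd (H : Compat E A j) (f : Diffeo E M) {p : Diffeo E M → Prop}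
    (h : ∀ gs : ℕ → Diffeo E M, A.Conv (fun n => conj j (gs n)) (conj j f) →
      ∀ᶠ n in atTop, p (gs n)) : IsSmoothNhd f {g | p g} := by
  by_contra hn
  have key : ∀ n : ℕ, ∃ g : Diffeo E M, ¬ p g ∧ ∀ (i : Fin A.m) (k : Fin A.N), ∀ s ≤ n,
      ∀ w ∈ H.W i,
        ‖iteratedFDeriv ℝ s ((fun y => A.e (j y) k) ∘ g ∘ (chartAt E (H.c i)).symm) w -
          iteratedFDeriv ℝ s ((fun y => A.e (j y) k) ∘ f ∘ (chartAt E (H.c i)).symm) w‖ <
          1 / ((n : ℝ) + 1) := by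
    intro n
    by_contra hc
    push Not at hc
    apply hn
    refine ⟨n, A.m * A.N, 1 / ((n : ℝ) + 1), fun q y => A.e (j y) (finProdFinEquiv.symm q).2,
      fun q => H.c (finProdFinEquiv.symm q).1, fun q => H.W (finProdFinEquiv.symm q).1,
      Nat.one_div_pos_of_nat, fun q => ⟨?_, H.W_compact _, H.W_sub _⟩, fun g hg => ?_⟩
    · exact contMDiff_pi_space.1 H.smooth _
    · by_contra hp
      obtain ⟨i, k, s, hs, w, hw, hle⟩ := hc g hp
      have h2 := hg (finProdFinEquiv (i, k)) s hs w (by simpa using hw)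
      simp only [Equiv.symm_apply_apply] at h2
      exact absurd h2 (not_lt.2 hle)
  choose gs hp hgs using key
  have hconv : A.Conv (fun n => conj j (gs n)) (conj j f) := by
    intro r i
    rw [Metric.tendstoUniformlyOn_iff]
    intro ε hε
    have ht : Tendsto (fun n : ℕ => 1 / ((n : ℝ) + 1) * ‖(H.L.symm : V →L[ℝ] E)‖ ^ r) atTop
        (𝓝 (0 * ‖(H.L.symm : V →L[ℝ] E)‖ ^ r)) :=
      tendsto_one_div_add_atTop_nhds_zero_nat.mul_const _
    rw [zero_mul] at ht
    filter_upwards [ht.eventually (gt_mem_nhds hε), eventually_ge_atTop r] with n hn1 hn2 w hw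
    rw [dist_comm, dist_eq_norm, H.rep_eq_br2, H.rep_eq_br2]
    refine lt_of_le_of_lt ((norm_sub_equiv_br2 _ _ _ _ _).trans ?_) hn1
    refine mul_le_mul_of_nonneg_right ?_ (by positivity)
    have hu := H.U_sub i w hw
    have hnb := (chartAt E (H.c i)).open_target.mem_nhds (H.W_sub i hu)
    exact norm_sub_pi_br2 ((H.contDiffOn_br2 (gs n).contMDiff _).contDiffAt hnb)
      ((H.contDiffOn_br2 f.contMDiff _).contDiffAt hnb) Nat.one_div_pos_of_nat.le
      fun k => (hgs n i k r hn2 _ hu).le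
  obtain ⟨n, hn'⟩ := (h gs hconv).exists
  exact hp n hn'

end Pool.Agent.Lib.MP_e7c912_an
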