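import Pool.Agent.Lib.MP_e7c912_an.H60Calc1

/-! Convergence of maps; diffeomorphisms and their cocycles. -/

namespace Pool.Agent.Lib.MP_e7c912_an

open MeasureTheory Filter Metric Set Topology
open scoped ENNReal NNReal

namespace Atlas

variable {X : Type} [MetricSpace X] [MeasurableSpace X] {A : Atlas X}

theorem Conv.conv1 {gs : ℕ → X → X} {g : X → X} (h : A.Conv gs g) : A.Conv1 gs g := by
  intro i
  have e0 : ∀ u : V → Fin A.N → ℝ,
      continuousMultilinearCurryFin0 ℝ V (Fin A.N → ℝ) ∘ iteratedFDeriv ℝ 0 u = u := fun u => by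
    funext w
    simp
  have e1 : ∀ u : V → Fin A.N → ℝ,
      continuousMultilinearCurryFin1 ℝ V (Fin A.N → ℝ) ∘ iteratedFDeriv ℝ 1 u = fderiv ℝ u :=
    fun u => by
      funext w
      refine ContinuousLinearMap.ext fun v => ?_
      simp
  have h0 := (continuousMultilinearCurryFin0 ℝ V
    (Fin A.N → ℝ)).isometry.uniformContinuous.comp_tendstoUniformlyOn (h 0 i)
  have h1 := (continuousMultilinearCurryFin1 ℝ V
    (Fin A.N → ℝ)).isometry.uniformContinuous.comp_tendstoUniformlyOn (h 1 i)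
  simp only [e0] at h0
  simp only [e1] at h1
  exact ⟨h0, h1⟩

theorem Conv.reg {gs : ℕ → X → X} {g : X → X} (h : A.Conv gs g) (hs : ∀ n, A.Sm (gs n))
    (hg : A.Sm g) (r : ℕ) : ∃ K : ℝ, ∀ᶠ n in atTop, A.Reg r K (gs n) := by
  obtain ⟨K, hK⟩ := hg.2 r
  have h1 : ∀ᶠ n in atTop, ∀ i, ∀ s ∈ Iic r, ∀ w ∈ A.U i,
      dist (iteratedFDeriv ℝ s (A.rep g i) w) (iteratedFDeriv ℝ s (A.rep (gs n) i) w) < 1 :=
    eventually_all.2 fun i => (eventually_all_finite (finite_Iic r)).2 fun s _ =>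
      Metric.tendstoUniformlyOn_iff.1 (h s i) 1 one_pos
  refine ⟨K + 1, h1.mono fun n hn i => ⟨?_, fun s hsr w hw => ?_⟩⟩
  · obtain ⟨K', hK'⟩ := (hs n).2 r
    exact (hK' i).1
  · have h2 := hn i s hsr w hw
    rw [dist_comm, dist_eq_norm] at h2
    have h3 := norm_sub_norm_le (iteratedFDeriv ℝ s (A.rep (gs n) i) w)
      (iteratedFDeriv ℝ s (A.rep g i) w)
    linarith [(hK i).2 s hsr w hw]

theorem Conv.subseq {gs : ℕ → X → X} {g : X → X} (h : A.Conv gs g) {s : ℕ → ℕ}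
    (hs : Tendsto s atTop atTop) : A.Conv (fun n => gs (s n)) g :=
  fun r i u hu => hs.eventually (h r i u hu)

theorem Conv1.subseq {gs : ℕ → X → X} {g : X → X} (h : A.Conv1 gs g) {s : ℕ → ℕ}
    (hs : Tendsto s atTop atTop) : A.Conv1 (fun n => gs (s n)) g :=
  fun i => ⟨fun u hu => hs.eventually ((h i).1 u hu), fun u hu => hs.eventually ((h i).2 u hu)⟩

theorem conv_const (A : Atlas X) (g : X → X) : A.Conv (fun _ => g) g :=
  fun _ _ _ hu => Eventually.of_forall fun _ _ _ => refl_mem_uniformity hu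

theorem self_calc (A : Atlas X) (x : X) : dist x x < A.ρ := by
  rw [dist_self]
  exact A.ρ_pos

theorem Conv1.tendstoUniformly {gs : ℕ → X → X} {g : X → X} (h : A.Conv1 gs g) :
    TendstoUniformly gs g atTop := by
  refine Metric.tendstoUniformly_iff.2 fun ε hε => ?_
  have h1 : ∀ᶠ n in atTop, ∀ i, ∀ w ∈ A.U i, dist (A.rep g i w) (A.rep (gs n) i w) < ε :=
    eventually_all.2 fun i => Metric.tendstoUniformlyOn_iff.1 (h i).1 ε hε
  refine h1.mono fun n hn x => ?_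
  have h2 := hn (A.idx x) _ (φ_mem (A.mem_D x) (A.self_calc x))
  simp only [rep, Function.comp_apply, ψ_φ (A.mem_D x) (A.self_calc x)] at h2
  rwa [A.iso.dist_eq] at h2

/-- The chain rule through a chart. -/
theorem fderiv_comp_calc {g g' : X → X} (hg : A.Sm g) (hg' : A.Sm g') {i k : Fin A.m} {w : V}
    (hw : w ∈ A.U i) {x : X} (hx : x ∈ A.D k) (hd : dist (g' (A.ψ i w)) x < A.ρ) :
    fderiv ℝ (A.rep (g ∘ g') i) w = (fderiv ℝ (A.rep g k) (A.φ k (g' (A.ψ i w)))).comp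
      ((A.pr k).comp (fderiv ℝ (A.rep g' i) w)) := by
  have hc : ContinuousAt (fun w => dist (g' (A.ψ i w)) x) w :=
    (hg'.1.continuousAt.comp
      ((A.continuousOn_ψ i).continuousAt ((A.U_open i).mem_nhds hw))).dist continuousAt_const
  have he : A.rep (g ∘ g') i =ᶠ[𝓝 w] A.rep g k ∘ (A.pr k ∘ A.rep g' i) := by
    filter_upwards [hc.eventually_lt continuousAt_const hd] with w' hw'
    simp only [rep, Function.comp_apply, A.left_inv k x hx _ hw']
  rw [he.fderiv_eq]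
  have h1 : HasFDerivAt (A.pr k ∘ A.rep g' i) ((A.pr k).comp (fderiv ℝ (A.rep g' i) w)) w :=
    (A.pr k).hasFDerivAt.comp w (hg'.differentiableAt hw).hasFDerivAt
  exact (HasFDerivAt.comp w (hg.differentiableAt (φ_mem hx hd)).hasFDerivAt h1).fderiv

theorem comp_sub_calc {W : Type} [NormedAddCommGroup W] [NormedSpace ℝ W] (P Q B C : V →L[ℝ] W)
    {p : W →L[ℝ] V} (hp : ‖p‖ ≤ 1) :
    ‖P.comp (p.comp B) - Q.comp (p.comp C)‖ ≤ ‖P‖ * ‖B - C‖ + ‖P - Q‖ * ‖C‖ := by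
  have key : ∀ (S T : V →L[ℝ] W), ‖S.comp (p.comp T)‖ ≤ ‖S‖ * ‖T‖ := fun S T =>
    (S.opNorm_comp_le _).trans (mul_le_mul_of_nonneg_left ((p.opNorm_comp_le T).trans
      (mul_le_of_le_one_left (norm_nonneg _) hp)) (norm_nonneg _))
  have e : P.comp (p.comp B) - Q.comp (p.comp C) =
      P.comp (p.comp (B - C)) + (P - Q).comp (p.comp C) := by
    refine ContinuousLinearMap.ext fun v => ?_
    simp
  rw [e]
  exact (norm_add_le _ _).trans (add_le_add (key _ _) (key _ _))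

theorem lip_calc {g : X → X} (hg : A.Sm g) {ε : ℝ} (hε : 0 < ε) :
    ∃ δ > 0, ∀ y z, dist y z < δ → dist (g y) (g z) < ε := by
  obtain ⟨L, -, hL⟩ := hg.lip
  obtain ⟨δ, hδ, h⟩ := Metric.uniformContinuous_iff.1 hL.uniformContinuous ε hε
  exact ⟨δ, hδ, h⟩

theorem Conv1.comp_calc {gs gs' : ℕ → X → X} {g g' : X → X} (h : A.Conv1 gs g)
    (h' : A.Conv1 gs' g') (hs : ∀ n, A.Sm (gs n)) (hs' : ∀ n, A.Sm (gs' n)) (hg : A.Sm g)
    (hg' : A.Sm g') : A.Conv1 (fun n => gs n ∘ gs' n) (g ∘ g') := by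
  have t := Metric.tendstoUniformly_iff.1 h.tendstoUniformly
  have t' := Metric.tendstoUniformly_iff.1 h'.tendstoUniformly
  refine fun i => ⟨Metric.tendstoUniformlyOn_iff.2 fun ε hε => ?_,
    Metric.tendstoUniformlyOn_iff.2 fun ε hε => ?_⟩
  · obtain ⟨δ, hδ, hL⟩ := lip_calc hg (half_pos hε)
    filter_upwards [t _ (half_pos hε), t' δ hδ] with n h1 h2 w _
    simp only [rep, Function.comp_apply]
    rw [A.iso.dist_eq]
    linarith [dist_triangle (g (g' (A.ψ i w))) (g (gs' n (A.ψ i w))) (gs n (gs' n (A.ψ i w))),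
      h1 (gs' n (A.ψ i w)), hL _ _ (h2 (A.ψ i w))]
  · obtain ⟨K₁, hK₁⟩ := hg.2 2
    obtain ⟨K₂, hK₂⟩ := hg'.2 1
    have r2 : A.Reg 2 |K₁| g := hK₁.mono le_rfl (le_abs_self _)
    have u1 : A.Up |K₁| g := (r2.mono one_le_two le_rfl).up
    have u2 : A.Up |K₂| g' := (hK₂.mono le_rfl (le_abs_self _)).up
    generalize hP : |K₁| = P at r2 u1
    generalize hQ : |K₂| = Q at u2
    have hP0 : 0 ≤ P := hP ▸ abs_nonneg _
    have hQ0 : 0 ≤ Q := hQ ▸ abs_nonneg _
    have hC : 0 < P + (1 + P) * (Q + 1) + 1 := by positivity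
    obtain ⟨δ, hδ, hδρ, hδε⟩ : ∃ δ > 0, δ ≤ A.ρ ∧ δ * (P + (1 + P) * (Q + 1) + 1) ≤ ε :=
      ⟨min A.ρ (ε / (P + (1 + P) * (Q + 1) + 1)), lt_min A.ρ_pos (div_pos hε hC), min_le_left _ _,
        (le_div_iff₀ hC).1 (min_le_right _ _)⟩
    have h1 : ∀ᶠ n in atTop, ∀ k, ∀ w ∈ A.U k,
        dist (fderiv ℝ (A.rep g k) w) (fderiv ℝ (A.rep (gs n) k) w) < δ :=
      eventually_all.2 fun k => Metric.tendstoUniformlyOn_iff.1 (h k).2 δ hδ
    filter_upwards [h1, t' δ hδ, Metric.tendstoUniformlyOn_iff.1 (h' i).2 δ hδ] with n a b c w hw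
    have hx := A.mem_D (g' (A.ψ i w))
    generalize A.idx (g' (A.ψ i w)) = k at hx
    have hb : dist (gs' n (A.ψ i w)) (g' (A.ψ i w)) < δ := by
      rw [dist_comm]
      exact b _
    have hy := hb.trans_le hδρ
    rw [fderiv_comp_calc hg hg' hw hx (A.self_calc _), fderiv_comp_calc (hs n) (hs' n) hw hx hy,
      dist_eq_norm]
    refine (comp_sub_calc _ _ _ _ (A.pr_le k)).trans_lt ?_
    have m1 := φ_mem hx (A.self_calc _)
    have m2 := φ_mem hx hy
    have a1 := a k _ m2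
    have c1 := c w hw
    rw [dist_eq_norm] at a1 c1
    have a2 := (r2.fderiv_lip m1 m2).trans (mul_le_mul_of_nonneg_left
      ((A.norm_φ_sub_le k _ _).trans ((dist_comm _ _).trans_le hb.le)) hP0)
    have a3 := (norm_sub_le_norm_sub_add_norm_sub _ _ _).trans (add_le_add a2 a1.le)
    have c2 : ‖fderiv ℝ (A.rep (gs' n) i) w‖ ≤ Q + 1 := by
      have := norm_sub_norm_le (fderiv ℝ (A.rep (gs' n) i) w) (fderiv ℝ (A.rep g' i) w)
      rw [norm_sub_rev] at this
      linarith [u2 i w hw, A.ρ_le]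
    have d1 := mul_le_mul (u1 k _ m1) c1.le (norm_nonneg _) hP0
    have d2 := mul_le_mul a3 c2 (norm_nonneg _) (by positivity)
    refine (add_le_add d1 d2).trans_lt ?_
    nlinarith

theorem Conv1.iter {gs : ℕ → X → X} {g : X → X} (h : A.Conv1 gs g) (hs : ∀ n, A.Sm (gs n))
    (hg : A.Sm g) (q : ℕ) : A.Conv1 (fun n => (gs n)^[q]) g^[q] := by
  induction q with
  | zero => exact (A.conv_const id).conv1
  | succ q ih =>
    simp only [Function.iterate_succ']
    exact h.comp_calc ih hs (fun n => (hs n).iter q) hg (hg.iter q)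

theorem Conv1.up_low {gs : ℕ → X → X} {g : X → X} (h : A.Conv1 gs g) {K : ℝ} (hK : 1 ≤ K)
    (hu : A.Up K g) (hl : A.Low K g) :
    ∀ᶠ n in atTop, A.Up (2 * K) (gs n) ∧ A.Low (2 * K) (gs n) := by
  have hK0 : 0 < K := one_pos.trans_le hK
  have hδ : 0 < 1 / (2 * K) := by positivity
  have hδ1 : K * (1 / (2 * K)) = 1 / 2 := by field_simp
  have h1 : ∀ᶠ n in atTop, ∀ k, ∀ w ∈ A.U k,
      dist (fderiv ℝ (A.rep g k) w) (fderiv ℝ (A.rep (gs n) k) w) < 1 / (2 * K) :=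
    eventually_all.2 fun k => Metric.tendstoUniformlyOn_iff.1 (h k).2 _ hδ
  generalize 1 / (2 * K) = δ at hδ hδ1 h1
  refine h1.mono fun n hn => ⟨fun i w hw => ?_, fun i w hw v => ?_⟩
  · have a := hn i w hw
    rw [dist_comm, dist_eq_norm] at a
    have b := norm_sub_norm_le (fderiv ℝ (A.rep (gs n) i) w) (fderiv ℝ (A.rep g i) w)
    have c := hu i w hw
    nlinarith
  · have a := hn i w hw
    rw [dist_eq_norm] at a
    have b := norm_sub_norm_le (fderiv ℝ (A.rep g i) w v) (fderiv ℝ (A.rep (gs n) i) w v)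
    have c := ((fderiv ℝ (A.rep g i) w - fderiv ℝ (A.rep (gs n) i) w).le_opNorm v).trans
      (mul_le_mul_of_nonneg_right a.le (norm_nonneg v))
    rw [sub_apply] at c
    have d := hl i w hw v
    have e := mul_le_mul_of_nonneg_left (b.trans c) hK0.le
    rw [← mul_assoc, hδ1] at e
    linarith

theorem le_id_calc {i : Fin A.m} {w : V} (hw : w ∈ A.U i) (v : V) :
    ‖v‖ ≤ ‖fderiv ℝ (A.rep id i) w v‖ := by
  have h1 : HasFDerivAt (A.pr i ∘ A.rep id i) ((A.pr i).comp (fderiv ℝ (A.rep id i) w)) w :=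
    (A.pr i).hasFDerivAt.comp w (A.sm_id.differentiableAt hw).hasFDerivAt
  have h2 : A.pr i ∘ A.rep id i =ᶠ[𝓝 w] id := by
    filter_upwards [(A.U_open i).mem_nhds hw] with w' hw'
    exact A.right_inv i w' hw'
  have h3 := h1.unique ((hasFDerivAt_id w).congr_of_eventuallyEq h2)
  have h4 : A.pr i (fderiv ℝ (A.rep id i) w v) = v := DFunLike.congr_fun h3 v
  calc ‖v‖ = ‖A.pr i (fderiv ℝ (A.rep id i) w v)‖ := by rw [h4]
    _ ≤ _ := ((A.pr i).le_opNorm _).trans (mul_le_of_le_one_left (norm_nonneg _) (A.pr_le i))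

end Atlas

variable {X : Type} [MetricSpace X] [MeasurableSpace X] {A : Atlas X}

theorem Dif.up_calc (F : Dif A) : ∃ K : ℝ, 1 ≤ K ∧ A.Up K F.f ∧ A.Up K F.g := by
  obtain ⟨K₁, h₁⟩ := F.smf.2 1
  obtain ⟨K₂, h₂⟩ := F.smg.2 1
  exact ⟨max 1 (max K₁ K₂), le_max_left _ _,
    (h₁.mono le_rfl ((le_max_left _ _).trans (le_max_right _ _))).up,
    (h₂.mono le_rfl ((le_max_right _ _).trans (le_max_right _ _))).up⟩

theorem Dif.up_low (F : Dif A) : ∃ K : ℝ, 1 ≤ K ∧ A.Up K F.f ∧ A.Low K F.f := by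
  obtain ⟨K, hK, h₁, h₂⟩ := F.up_calc
  refine ⟨K, hK, h₁, fun i w hw v => (Atlas.le_id_calc hw v).trans ?_⟩
  have e : F.g ∘ F.f = id := funext F.gf
  have hx := A.mem_D (F.f (A.ψ i w))
  have h3 := Atlas.fderiv_comp_calc F.smg F.smf hw hx (A.self_calc _)
  rw [e] at h3
  rw [h3, ContinuousLinearMap.comp_apply, ContinuousLinearMap.comp_apply]
  refine (ContinuousLinearMap.le_opNorm _ _).trans (mul_le_mul
    (h₂ _ _ (Atlas.φ_mem hx (A.self_calc _))) ?_ (norm_nonneg _) (zero_le_one.trans hK))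
  exact ((A.pr _).le_opNorm _).trans (mul_le_of_le_one_left (norm_nonneg _) (A.pr_le _))

theorem Dif.gf_iter (F : Dif A) (n : ℕ) (x : X) : F.g^[n] (F.f^[n] x) = x :=
  Function.LeftInverse.iterate F.gf n x

theorem Dif.fg_iter (F : Dif A) (n : ℕ) (x : X) : F.f^[n] (F.g^[n] x) = x :=
  Function.LeftInverse.iterate F.fg n x

theorem coc_add_calc {g : X → X} (hg : A.Sm g) (n k : ℕ) (x : X) :
    A.coc g (n + k) x = (A.coc g k (g^[n] x)).comp (A.coc g n x) := by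
  rw [Atlas.coc, add_comm, Function.iterate_add]
  exact Atlas.Dm_comp (hg.iter k) (hg.iter n) x

theorem Dif.coc_inv_calc (F : Dif A) (n : ℕ) (x : X) :
    (A.coc F.g n (F.f^[n] x)).comp (A.coc F.f n x) = ContinuousLinearMap.id ℝ V := by
  have e : F.g^[n] ∘ F.f^[n] = id := funext (F.gf_iter n)
  rw [← A.Dm_id x, ← e]
  exact (Atlas.Dm_comp (F.smg.iter n) (F.smf.iter n) x).symm

theorem Dif.cocycle [BorelSpace X] (F : Dif A) :
    ∃ K : ℝ, Cocycle F.f F.g (A.coc F.f) (A.coc F.g) K := by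
  obtain ⟨K, hK, h₁, h₂⟩ := F.up_calc
  exact ⟨K, F.smf.1.measurable, F.smg.1.measurable, F.gf, F.fg,
    fun n => (F.smf.iter n).measurable_Dm, fun n => (F.smg.iter n).measurable_Dm, A.Dm_id, A.Dm_id,
    coc_add_calc F.smf, coc_add_calc F.smg, F.coc_inv_calc, F.symm.coc_inv_calc, hK,
    h₁.norm_Dm_le, h₂.norm_Dm_le⟩

theorem Dif.measurePreserving_symm [BorelSpace X] (F : Dif A) {μ : Measure X}
    (h : MeasurePreserving F.f μ μ) : MeasurePreserving F.g μ μ := by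
  refine ⟨F.smg.1.measurable, ?_⟩
  have e : F.g ∘ F.f = id := funext F.gf
  conv_lhs => rw [← h.map_eq]
  rw [Measure.map_map F.smg.1.measurable h.measurable, e, Measure.map_id]

/-- The iterated inverses converge uniformly. -/
theorem tendstoUniformly_symm_iter {Fs : ℕ → Dif A} {F : Dif A}
    (h : A.Conv1 (fun n => (Fs n).f) F.f) (q : ℕ) :
    TendstoUniformly (fun n => (Fs n).g^[q]) F.g^[q] atTop := by
  refine Metric.tendstoUniformly_iff.2 fun ε hε => ?_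
  obtain ⟨δ, hδ, hL⟩ := Atlas.lip_calc (F.smg.iter q) hε
  have t := (h.iter (fun n => (Fs n).smf) F.smf q).tendstoUniformly
  filter_upwards [Metric.tendstoUniformly_iff.1 t δ hδ] with n hn y
  have := hL _ _ (hn ((Fs n).g^[q] y))
  rwa [F.gf_iter, (Fs n).fg_iter, dist_comm] at this

end Pool.Agent.Lib.MP_e7c912_an
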