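import Pool.Agent.Lib.MP_e7c912_an.H60Br2
import Pool.Agent.Lib.MP_e7c912_an.H60Calc

/-! Comparison of the Riemannian structure with the embedding. -/

namespace Pool.Agent.Lib.MP_e7c912_an

open MeasureTheory Filter Metric Set Topology Bundle
open scoped ContDiff ENNReal NNReal

variable {E : Type} [NormedAddCommGroup E] [NormedSpace ℝ E]

variable {M : Type} [EMetricSpace M] [ChartedSpace E M] [IsManifold (II E) ∞ M] [CompactSpace M]
  [RiemannianBundle fun x : M => TangentSpace (II E) x]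
  [IsContMDiffRiemannianBundle (II E) ∞ E fun x : M => TangentSpace (II E) x]
  {X : Type} [MetricSpace X] [MeasurableSpace X] {A : Atlas X} {j : M ≃ₜ X}

/-- The differential of the embedding, with values in the ambient normed space. -/
noncomputable def demb (A : Atlas X) (j : M ≃ₜ X) (x : M) (v : TangentSpace (II E) x) : Fin A.N → ℝ :=
  mfderiv (II E) (modelWithCornersSelf ℝ (Fin A.N → ℝ)) (A.e ∘ j) x v

omit [CompactSpace M] in
theorem contRiem_br3 : IsContinuousRiemannianBundle E fun x : M => TangentSpace (II E) x := by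
  obtain ⟨g, hg, h⟩ := (inferInstance : IsContMDiffRiemannianBundle (II E) ∞ E
    fun x : M => TangentSpace (II E) x).exists_contMDiff
  exact ⟨g, hg.continuous, h⟩

section

omit [CompactSpace M] [RiemannianBundle fun x : M => TangentSpace (II E) x]
  [IsContMDiffRiemannianBundle (II E) ∞ E fun x : M => TangentSpace (II E) x]

theorem Compat.sig_mdiff_br3 (H : Compat E A j) {i : Fin A.m} {w : V} (hw : w ∈ A.U i) :
    MDifferentiableAt (modelWithCornersSelf ℝ V) (II E)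
      (fun w : V => (chartAt E (H.c i)).symm (H.L.symm w)) w := by
  have h1 : MDifferentiableAt (II E) (II E) (chartAt E (H.c i)).symm (H.L.symm w) :=
    mdifferentiableAt_atlas_symm (chart_mem_atlas _ _) (H.W_sub i (H.U_sub i w hw))
  exact h1.comp w (H.L.symm : V →L[ℝ] E).mdifferentiableAt

theorem Compat.demb_inj_br3 (H : Compat E A j) (x : M) :
    Function.Injective (mfderiv (II E) (modelWithCornersSelf ℝ (Fin A.N → ℝ)) (A.e ∘ j) x) := by
  set i := A.idx (j x)
  have hx := A.mem_D (j x)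
  let σ : (Fin A.N → ℝ) → M := fun z => (chartAt E (H.c i)).symm (H.L.symm (A.pr i z))
  have he : MDifferentiableAt (II E) (modelWithCornersSelf ℝ (Fin A.N → ℝ)) (A.e ∘ j) x :=
    (H.smooth x).mdifferentiableAt (by simp)
  have hσ : MDifferentiableAt (modelWithCornersSelf ℝ (Fin A.N → ℝ)) (II E) σ ((A.e ∘ j) x) :=
    MDifferentiableAt.comp (f := A.pr i) ((A.e ∘ j) x)
      (H.sig_mdiff_br3 (Atlas.φ_mem (y := j x) hx (by simpa using A.ρ_pos)))
      (A.pr i).mdifferentiableAt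
  have hloc : σ ∘ (A.e ∘ j) =ᶠ[𝓝 x] id := by
    have : ∀ᶠ y in 𝓝 x, dist (j y) (j x) < A.ρ :=
      j.continuous.continuousAt.eventually (ball_mem_nhds _ A.ρ_pos)
    filter_upwards [this] with y hy
    have h1 := A.left_inv i _ hx _ hy
    rw [H.ψ_eq] at h1
    exact j.injective h1
  have h2 := hloc.mfderiv_eq (I := (II E)) (I' := (II E))
  rw [mfderiv_comp x hσ he, mfderiv_id] at h2
  intro v w hvw
  have h3 := congrArg (fun B => B v) h2
  have h4 := congrArg (fun B => B w) h2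
  simp only [ContinuousLinearMap.comp_apply] at h3 h4
  rw [hvw] at h3
  exact h3.symm.trans h4

theorem Compat.demb_eq_br3 (H : Compat E A j) {x y : M} (hy : y ∈ (chartAt E x).source)
    (v : TangentSpace (II E) y) :
    demb A j y v = fderiv ℝ ((A.e ∘ j) ∘ (extChartAt (II E) x).symm) (extChartAt (II E) x y)
      ((trivializationAt E (TangentSpace (II E)) x).continuousLinearMapAt ℝ y v) := by
  have hy' : y ∈ (extChartAt (II E) x).source := by simpa using hy
  have hs : ContMDiffAt (II E) (modelWithCornersSelf ℝ (Fin A.N → ℝ)) ∞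
      ((A.e ∘ j) ∘ (extChartAt (II E) x).symm) (extChartAt (II E) x y) :=
    (H.smooth _).comp _ ((contMDiffOn_extChartAt_symm x).contMDiffAt
      ((isOpen_extChartAt_target x).mem_nhds ((extChartAt (II E) x).map_source hy')))
  have hloc : (A.e ∘ j) =ᶠ[𝓝 y] ((A.e ∘ j) ∘ (extChartAt (II E) x).symm) ∘ extChartAt (II E) x := by
    filter_upwards [(isOpen_extChartAt_source x).mem_nhds hy'] with z hz
    simp only [Function.comp_apply, (extChartAt (II E) x).left_inv hz]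
  rw [TangentBundle.continuousLinearMapAt_trivializationAt hy, demb, hloc.mfderiv_eq,
    mfderiv_comp y (hs.mdifferentiableAt (by simp)) (mdifferentiableAt_extChartAt hy),
    mfderiv_eq_fderiv]
  rfl

end

omit [CompactSpace M] in
theorem Compat.local_br3 (H : Compat E A j) (x : M) : ∃ C : ℝ, ∀ᶠ y in 𝓝 x,
    ∀ v : TangentSpace (II E) y, ‖v‖ ≤ C * ‖demb A j y v‖ ∧ ‖demb A j y v‖ ≤ C * ‖v‖ := by
  have := contRiem_br3 (E := E) (M := M)
  obtain ⟨C1, h1, H1⟩ := eventually_norm_trivializationAt_lt E (fun x : M => TangentSpace (II E) x) x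
  obtain ⟨C2, h2, H2⟩ :=
    eventually_norm_symmL_trivializationAt_lt E (fun x : M => TangentSpace (II E) x) x
  set h := (A.e ∘ j) ∘ (extChartAt (II E) x).symm with hh
  have hs : ContDiffAt ℝ 1 h (extChartAt (II E) x x) := by
    have : ContMDiffAt (II E) (modelWithCornersSelf ℝ (Fin A.N → ℝ)) ∞ h (extChartAt (II E) x x) :=
      (H.smooth _).comp _ ((contMDiffOn_extChartAt_symm x).contMDiffAt
        (extChartAt_target_mem_nhds x))
    exact (contMDiffAt_iff_contDiffAt.1 this).of_le (by simp)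
  have hc : ContinuousAt (fun y => fderiv ℝ h (extChartAt (II E) x y)) x :=
    (hs.continuousAt_fderiv (by simp)).comp (continuousAt_extChartAt x)
  set B0 := fderiv ℝ h (extChartAt (II E) x x) with hB0
  have hx : x ∈ (chartAt E x).source := mem_chart_source _ _
  have hinj : Function.Injective B0 := by
    intro u u' huu
    have hb : x ∈ (trivializationAt E (TangentSpace (II E)) x).baseSet :=
      FiberBundle.mem_baseSet_trivializationAt' x
    have e1 := H.demb_eq_br3 hx ((trivializationAt E (TangentSpace (II E)) x).symmL ℝ x u)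
    have e2 := H.demb_eq_br3 hx ((trivializationAt E (TangentSpace (II E)) x).symmL ℝ x u')
    rw [Trivialization.continuousLinearMapAt_symmL _ hb] at e1 e2
    have e3 := H.demb_inj_br3 x (e1.trans (huu.trans e2.symm))
    rw [← Trivialization.continuousLinearMapAt_symmL (R := ℝ) _ hb u, e3,
      Trivialization.continuousLinearMapAt_symmL _ hb]
  have : FiniteDimensional ℝ E := H.L.symm.toLinearEquiv.finiteDimensional
  obtain ⟨K0, hK0, hK⟩ := (B0 : E →ₗ[ℝ] (Fin A.N → ℝ)).injective_iff_antilipschitz.1 hinj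
  have hK0' : (0 : ℝ) < K0 := hK0
  have hK' : ∀ u, ‖u‖ ≤ K0 * ‖B0 u‖ := fun u => by simpa using hK.le_mul_dist u 0
  have H3 : ∀ᶠ y in 𝓝 x, dist (fderiv ℝ h (extChartAt (II E) x y)) B0 < 1 / (2 * K0) :=
    hc.eventually (ball_mem_nhds _ (by positivity))
  refine ⟨max (C2 * (2 * K0)) ((‖B0‖ + 1 / (2 * K0)) * C1), ?_⟩
  filter_upwards [H1, H2, H3, chart_source_mem_nhds E x] with y y1 y2 y3 hy v
  have hb : y ∈ (trivializationAt E (TangentSpace (II E)) x).baseSet := by simpa using hy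
  rw [H.demb_eq_br3 hy]
  set B := fderiv ℝ h (extChartAt (II E) x y)
  set u := (trivializationAt E (TangentSpace (II E)) x).continuousLinearMapAt ℝ y v with hu
  rw [dist_eq_norm] at y3
  have a1 : ‖u‖ ≤ C1 * ‖v‖ :=
    (ContinuousLinearMap.le_opNorm _ _).trans (mul_le_mul_of_nonneg_right y1.le (norm_nonneg _))
  have a2 : ‖v‖ ≤ C2 * ‖u‖ := by
    conv_lhs => rw [← Trivialization.symmL_continuousLinearMapAt (R := ℝ) _ hb v]
    exact (ContinuousLinearMap.le_opNorm _ _).trans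
      (mul_le_mul_of_nonneg_right y2.le (norm_nonneg _))
  have a3 : ‖B u - B0 u‖ ≤ 1 / (2 * K0) * ‖u‖ :=
    ((B - B0).le_opNorm u).trans (mul_le_mul_of_nonneg_right y3.le (norm_nonneg _))
  have a4 : ‖u‖ ≤ 2 * K0 * ‖B u‖ := by
    have b1 : ‖B0 u‖ ≤ ‖B u‖ + ‖B u - B0 u‖ := by
      simpa using norm_sub_le (B u) (B u - B0 u)
    have b2 : K0 * (1 / (2 * K0) * ‖u‖) = ‖u‖ / 2 := by field_simp
    have b3 := mul_le_mul_of_nonneg_left (b1.trans (add_le_add_right a3 _)) hK0'.le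
    linarith [hK' u]
  have a5 : ‖B u‖ ≤ (‖B0‖ + 1 / (2 * K0)) * ‖u‖ := by
    have b1 : ‖B u‖ ≤ ‖B0 u‖ + ‖B u - B0 u‖ := by simpa using norm_add_le (B0 u) (B u - B0 u)
    linarith [B0.le_opNorm u]
  constructor
  · refine a2.trans (le_trans ?_ (mul_le_mul_of_nonneg_right (le_max_left _ _) (norm_nonneg _)))
    rw [mul_assoc]
    exact mul_le_mul_of_nonneg_left a4 h2.le
  · refine a5.trans (le_trans ?_ (mul_le_mul_of_nonneg_right (le_max_right _ _) (norm_nonneg _)))
    rw [mul_assoc]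
    exact mul_le_mul_of_nonneg_left a1 (by positivity)

theorem Compat.tangent (H : Compat E A j) : ∃ C : ℝ, 1 ≤ C ∧ ∀ (x : M) (v : TangentSpace (II E) x),
    ‖v‖ ≤ C * ‖demb A j x v‖ ∧ ‖demb A j x v‖ ≤ C * ‖v‖ := by
  have key : ∃ C : ℝ, 1 ≤ C ∧ ∀ x ∈ (univ : Set M), ∀ v : TangentSpace (II E) x,
      ‖v‖ ≤ C * ‖demb A j x v‖ ∧ ‖demb A j x v‖ ≤ C * ‖v‖ := by
    have mono : ∀ {C C' : ℝ} {x : M} {v : TangentSpace (II E) x}, C ≤ C' →
        (‖v‖ ≤ C * ‖demb A j x v‖ ∧ ‖demb A j x v‖ ≤ C * ‖v‖) →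
        (‖v‖ ≤ C' * ‖demb A j x v‖ ∧ ‖demb A j x v‖ ≤ C' * ‖v‖) := fun h h' =>
      ⟨h'.1.trans (mul_le_mul_of_nonneg_right h (norm_nonneg _)),
        h'.2.trans (mul_le_mul_of_nonneg_right h (norm_nonneg _))⟩
    refine isCompact_univ.induction_on (p := fun s => ∃ C : ℝ, 1 ≤ C ∧ ∀ x ∈ s,
      ∀ v : TangentSpace (II E) x, ‖v‖ ≤ C * ‖demb A j x v‖ ∧ ‖demb A j x v‖ ≤ C * ‖v‖)
      ⟨1, le_rfl, fun _ h => h.elim⟩ ?_ ?_ ?_
    · rintro s t hst ⟨C, h1, h2⟩
      exact ⟨C, h1, fun x hx => h2 x (hst hx)⟩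
    · rintro s t ⟨C, h1, h2⟩ ⟨C', -, h2'⟩
      refine ⟨max C C', le_max_of_le_left h1, fun x hx v => ?_⟩
      rcases hx with hx | hx
      · exact mono (le_max_left _ _) (h2 x hx v)
      · exact mono (le_max_right _ _) (h2' x hx v)
    · intro x _
      obtain ⟨C, hC⟩ := H.local_br3 x
      exact ⟨_, mem_nhdsWithin_of_mem_nhds hC, max 1 C, le_max_left _ _,
        fun y hy v => mono (le_max_right _ _) (hy v)⟩
  obtain ⟨C, h1, h2⟩ := key
  exact ⟨C, h1, fun x v => h2 x trivial v⟩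

theorem conj_iter_br3 {M X : Type} [TopologicalSpace M] [TopologicalSpace X] (j : M ≃ₜ X)
    (g : M → M) (n : ℕ) : (conj j g)^[n] = conj j g^[n] := by
  induction n with
  | zero => ext x; simp [conj]
  | succ n ih => rw [Function.iterate_succ', ih, Function.iterate_succ']; ext x; simp [conj]

theorem norm_le_basis_br3 (L : V →L[ℝ] V) : ‖L‖ ≤ ‖L (1, 0)‖ + ‖L (0, 1)‖ := by
  refine L.opNorm_le_bound (by positivity) fun v => ?_
  have : v = v.1 • ((1, 0) : V) + v.2 • ((0, 1) : V) := by ext <;> simp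
  calc ‖L v‖ = ‖v.1 • L (1, 0) + v.2 • L (0, 1)‖ := by
        conv_lhs => rw [this, map_add, map_smul, map_smul]
    _ ≤ ‖v.1‖ * ‖L (1, 0)‖ + ‖v.2‖ * ‖L (0, 1)‖ := by
        simpa only [norm_smul] using norm_add_le (v.1 • L (1, 0)) (v.2 • L (0, 1))
    _ ≤ ‖v‖ * ‖L (1, 0)‖ + ‖v‖ * ‖L (0, 1)‖ := by
        gcongr
        exacts [norm_fst_le v, norm_snd_le v]
    _ = _ := by ring

theorem Compat.exponent (H : Compat E A j) (f : Diffeo E M) {x : M}
    (h : ∃ c : ℝ, 0 < c ∧ ∃ᶠ n : ℕ in atTop, Real.exp (c * n) ≤ ‖A.coc (conj j f) n (j x)‖) :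
    ∃ (v : TangentSpace (II E) x) (c : ℝ), 0 < c ∧
      ∃ᶠ n : ℕ in atTop, Real.exp (c * n) * ‖v‖ < ‖mfderiv (II E) (II E) f^[n] x v‖ := by
  obtain ⟨c, hc, h⟩ := h
  obtain ⟨C, hC1, hC⟩ := H.tangent
  obtain ⟨v0, hv0⟩ : ∃ v0 : V, ∃ᶠ n : ℕ in atTop,
      Real.exp (c * n) ≤ 2 * ‖A.coc (conj j f) n (j x) v0‖ := by
    have : ∃ᶠ n : ℕ in atTop, Real.exp (c * n) ≤ 2 * ‖A.coc (conj j f) n (j x) (1, 0)‖ ∨
        Real.exp (c * n) ≤ 2 * ‖A.coc (conj j f) n (j x) (0, 1)‖ := by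
      refine h.mono fun n hn => ?_
      by_contra hcon
      push Not at hcon
      linarith [norm_le_basis_br3 (A.coc (conj j f) n (j x)), hcon.1, hcon.2]
    rcases frequently_or_distrib.1 this with h1 | h1
    exacts [⟨_, h1⟩, ⟨_, h1⟩]
  set i := A.idx (j x) with hi
  set w0 := A.φ i (j x) with hw0
  have hw : w0 ∈ A.U i := Atlas.φ_mem (A.mem_D _) (by simpa using A.ρ_pos)
  let σ : V → M := fun w => (chartAt E (H.c i)).symm (H.L.symm w)
  have hσx : σ w0 = x := by
    have h1 : A.ψ i w0 = j x := Atlas.ψ_φ (A.mem_D _) (by simpa using A.ρ_pos)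
    rw [H.ψ_eq] at h1
    exact j.injective h1
  have hsm : ∀ n : ℕ, ContMDiff (II E) (II E) ∞ f^[n] := fun n => by
    induction n with
    | zero => exact contMDiff_id
    | succ n ih => rw [Function.iterate_succ']; exact f.contMDiff.comp ih
  have key : ∀ y : M, σ w0 = y → ∃ v : TangentSpace (II E) y, ∀ n : ℕ,
      fderiv ℝ (A.rep (conj j f)^[n] i) w0 v0 = demb A j (f^[n] y) (mfderiv (II E) (II E) f^[n] y v) := by
    rintro y rfl
    refine ⟨mfderiv (modelWithCornersSelf ℝ V) (II E) σ w0 v0, fun n => ?_⟩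
    have e1 : A.rep (conj j f)^[n] i = (A.e ∘ j) ∘ (f^[n] ∘ σ) := by
      rw [conj_iter_br3]
      ext w
      simp [Atlas.rep, conj, H.ψ_eq, σ]
    have d1 : MDifferentiableAt (modelWithCornersSelf ℝ V) (II E) σ w0 := H.sig_mdiff_br3 hw
    have d2 : MDifferentiableAt (II E) (II E) f^[n] (σ w0) := (hsm n _).mdifferentiableAt (by simp)
    have d3 : MDifferentiableAt (II E) (modelWithCornersSelf ℝ (Fin A.N → ℝ)) (A.e ∘ j)
        ((f^[n] ∘ σ) w0) := (H.smooth _).mdifferentiableAt (by simp)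
    rw [e1, ← mfderiv_eq_fderiv, mfderiv_comp w0 d3 (d2.comp w0 d1), mfderiv_comp w0 d2 d1]
    rfl
  obtain ⟨v, hv⟩ := key x hσx
  refine ⟨v, c / 2, half_pos hc, ?_⟩
  have hlim : ∀ᶠ n : ℕ in atTop, 2 * C * ‖v‖ < Real.exp (c / 2 * n) :=
    (Real.tendsto_exp_atTop.comp
      (tendsto_natCast_atTop_atTop.const_mul_atTop (half_pos hc))).eventually_gt_atTop _
  refine (hv0.and_eventually hlim).mono fun n ⟨h1, h2⟩ => ?_
  have h3 : ‖A.coc (conj j f) n (j x) v0‖ ≤ C * ‖mfderiv (II E) (II E) f^[n] x v‖ := by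
    refine (A.norm_Dm_apply_le _ _ _).trans ?_
    rw [← hi, ← hw0, hv n]
    exact (hC _ _).2
  have h4 : Real.exp (c * n) = Real.exp (c / 2 * n) * Real.exp (c / 2 * n) := by
    rw [← Real.exp_add]; ring_nf
  have h5 := Real.exp_pos (c / 2 * n)
  have h6 : 2 * C * (Real.exp (c / 2 * n) * ‖v‖) < 2 * C * ‖mfderiv (II E) (II E) f^[n] x v‖ := by
    nlinarith [mul_lt_mul_of_pos_left h2 h5]
  exact lt_of_mul_lt_mul_left h6 (by positivity)

end Pool.Agent.Lib.MP_e7c912_an
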