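import Pool.Agent.Lib.MP_e7c912_an.H60Atlas

/-! Compatibility of an `Atlas` with the smooth structure of a surface. Definitions only. -/

namespace Pool.Agent.Lib.MP_e7c912_an

open MeasureTheory Filter Metric Set Topology
open scoped ContDiff

/-- The model with corners of a surface. -/
noncomputable abbrev II (E : Type) [NormedAddCommGroup E] [NormedSpace ℝ E] :
    ModelWithCorners ℝ E E := modelWithCornersSelf ℝ E

/-- The embedding is smooth and the parametrisations come from charts of the surface. -/
structure Compat (E : Type) [NormedAddCommGroup E] [NormedSpace ℝ E] {M : Type} [TopologicalSpace M] [ChartedSpace E M] {X : Type} [MetricSpace X]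
    [MeasurableSpace X] (A : Atlas X) (j : M ≃ₜ X) where
  c : Fin A.m → M
  L : E ≃L[ℝ] V
  W : Fin A.m → Set E
  smooth : ContMDiff (II E) (modelWithCornersSelf ℝ (Fin A.N → ℝ)) ∞ (A.e ∘ j)
  W_compact : ∀ i, IsCompact (W i)
  W_sub : ∀ i, W i ⊆ (chartAt E (c i)).target
  U_sub : ∀ i, ∀ w ∈ A.U i, L.symm w ∈ W i
  ψ_eq : ∀ i w, A.ψ i w = j ((chartAt E (c i)).symm (L.symm w))

/-- The conjugate of a map of the surface. -/
def conj {M X : Type} [TopologicalSpace M] [TopologicalSpace X] (j : M ≃ₜ X) (g : M → M) : X → X :=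
  j ∘ g ∘ j.symm

end Pool.Agent.Lib.MP_e7c912_an
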