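import Pool.Agent.Lib.MP_e7c912_an.H60Atlas

/-! Calculus in the charts of an `Atlas`. -/

namespace Pool.Agent.Lib.MP_e7c912_an

open MeasureTheory Filter Metric Set Topology
open scoped ENNReal NNReal

namespace Atlas

variable {X : Type} [MetricSpace X] [MeasurableSpace X] {A : Atlas X}

theorem dist_eq (A : Atlas X) (x y : X) : dist x y = ‖A.e x - A.e y‖ := by
  rw [← A.iso.dist_eq, dist_eq_norm]

theorem norm_φ_sub_le (A : Atlas X) (i : Fin A.m) (x y : X) : ‖A.φ i x - A.φ i y‖ ≤ dist x y := by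
  rw [A.dist_eq, φ, φ, ← map_sub]
  exact ((A.pr i).le_opNorm _).trans (mul_le_of_le_one_left (norm_nonneg _) (A.pr_le i))

theorem continuous_φ (A : Atlas X) (i : Fin A.m) : Continuous (A.φ i) := (A.pr i).continuous.comp A.iso.continuous

theorem φ_mem {i : Fin A.m} {x y : X} (hx : x ∈ A.D i) (h : dist y x < A.ρ) : A.φ i y ∈ A.U i := by
  refine A.ball_sub i x hx ?_
  rw [mem_ball, dist_eq_norm]
  exact lt_of_le_of_lt (A.norm_φ_sub_le i y x) h

theorem ψ_φ {i : Fin A.m} {x y : X} (hx : x ∈ A.D i) (h : dist y x < A.ρ) :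
    A.ψ i (A.φ i y) = y := A.left_inv i x hx y h

theorem φ_ψ {i : Fin A.m} {w : V} (hw : w ∈ A.U i) : A.φ i (A.ψ i w) = w := A.right_inv i w hw

theorem self_lt_cal1 (A : Atlas X) (x : X) : dist x x < A.ρ := by
  rw [dist_self]
  exact A.ρ_pos

theorem φ_self_cal1 (A : Atlas X) (x : X) : A.φ (A.idx x) x ∈ A.U (A.idx x) :=
  φ_mem (A.mem_D x) (A.self_lt_cal1 x)

theorem ψ_self_cal1 (A : Atlas X) (x : X) : A.ψ (A.idx x) (A.φ (A.idx x) x) = x :=
  ψ_φ (A.mem_D x) (A.self_lt_cal1 x)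

theorem K_nonneg_cal1 (A : Atlas X) : 0 ≤ A.K := zero_le_one.trans A.one_le_K

theorem pr_apply_le_cal1 (A : Atlas X) (i : Fin A.m) (u : Fin A.N → ℝ) : ‖A.pr i u‖ ≤ ‖u‖ :=
  ((A.pr i).le_opNorm _).trans (mul_le_of_le_one_left (norm_nonneg _) (A.pr_le i))

theorem diff_ψ_cal1 {i : Fin A.m} {w : V} (hw : w ∈ A.U i) :
    DifferentiableAt ℝ (A.e ∘ A.ψ i) w := by
  obtain ⟨K', h⟩ := A.smooth 1
  exact ((h i).1.contDiffAt ((A.U_open i).mem_nhds hw)).differentiableAt (by simp)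

theorem loc_cal1 {E : Type*} [TopologicalSpace E] (g : X → X) {c : E → X} {t : E} {i : Fin A.m}
    {x : X} (hx : x ∈ A.D i) (hd : dist (c t) x < A.ρ) (hc : ContinuousAt (A.e ∘ c) t) :
    A.e ∘ g ∘ c =ᶠ[𝓝 t] (A.rep g i ∘ A.pr i) ∘ (A.e ∘ c) := by
  have h1 : ContinuousAt (fun s => dist ((A.e ∘ c) s) (A.e x)) t := hc.dist continuousAt_const
  have h2 : ∀ᶠ s in 𝓝 t, dist ((A.e ∘ c) s) (A.e x) < A.ρ :=
    h1.eventually_lt continuousAt_const (by
      rw [Function.comp_apply, A.iso.dist_eq]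
      exact hd)
  filter_upwards [h2] with s hs
  rw [Function.comp_apply, A.iso.dist_eq] at hs
  simp only [rep, Function.comp_apply]
  rw [A.left_inv i x hx _ hs]

theorem fderiv_loc_cal1 {E : Type*} [NormedAddCommGroup E] [NormedSpace ℝ E] {g : X → X}
    {c : E → X} {t : E} {i : Fin A.m} {x : X} (hx : x ∈ A.D i) (hd : dist (c t) x < A.ρ)
    (hg : DifferentiableAt ℝ (A.rep g i) (A.φ i (c t))) (hc : DifferentiableAt ℝ (A.e ∘ c) t) :
    fderiv ℝ (A.e ∘ g ∘ c) t =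
      (fderiv ℝ (A.rep g i) (A.φ i (c t))).comp ((A.pr i).comp (fderiv ℝ (A.e ∘ c) t)) := by
  have h1 : HasFDerivAt (A.rep g i ∘ A.pr i)
      ((fderiv ℝ (A.rep g i) (A.φ i (c t))).comp (A.pr i)) ((A.e ∘ c) t) :=
    HasFDerivAt.comp ((A.e ∘ c) t) hg.hasFDerivAt (A.pr i).hasFDerivAt
  exact ((h1.comp t hc.hasFDerivAt).congr_of_eventuallyEq
    (loc_cal1 g hx hd hc.continuousAt)).fderiv

theorem norm_le_pr_cal1 {E : Type*} [NormedAddCommGroup E] [NormedSpace ℝ E]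
    {c : E → X} {t : E} {i : Fin A.m} {x : X} (hx : x ∈ A.D i) (hd : dist (c t) x < A.ρ)
    (hc : DifferentiableAt ℝ (A.e ∘ c) t) (v : E) :
    ‖fderiv ℝ (A.e ∘ c) t v‖ ≤ A.K * ‖A.pr i (fderiv ℝ (A.e ∘ c) t v)‖ := by
  have h1 : fderiv ℝ (A.e ∘ c) t =
      (fderiv ℝ (A.e ∘ A.ψ i) (A.φ i (c t))).comp ((A.pr i).comp (fderiv ℝ (A.e ∘ c) t)) :=
    fderiv_loc_cal1 (g := id) hx hd (diff_ψ_cal1 (φ_mem hx hd)) hc
  have h2 : fderiv ℝ (A.e ∘ c) t v =
      fderiv ℝ (A.e ∘ A.ψ i) (A.φ i (c t)) (A.pr i (fderiv ℝ (A.e ∘ c) t v)) :=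
    DFunLike.congr_fun h1 v
  calc ‖fderiv ℝ (A.e ∘ c) t v‖
      = ‖fderiv ℝ (A.e ∘ A.ψ i) (A.φ i (c t)) (A.pr i (fderiv ℝ (A.e ∘ c) t v))‖ := congrArg _ h2
    _ ≤ _ := (ContinuousLinearMap.le_opNorm _ _).trans
        (mul_le_mul_of_nonneg_right (A.deriv_le i _ (φ_mem hx hd)) (norm_nonneg _))

theorem pr_fderiv_cal1 {i : Fin A.m} {w : V} (hw : w ∈ A.U i) :
    (A.pr i).comp (fderiv ℝ (A.e ∘ A.ψ i) w) = ContinuousLinearMap.id ℝ V := by
  have h1 : HasFDerivAt (A.pr i ∘ (A.e ∘ A.ψ i)) ((A.pr i).comp (fderiv ℝ (A.e ∘ A.ψ i) w)) w :=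
    (A.pr i).hasFDerivAt.comp w (diff_ψ_cal1 hw).hasFDerivAt
  have h2 : A.pr i ∘ (A.e ∘ A.ψ i) =ᶠ[𝓝 w] id := by
    filter_upwards [(A.U_open i).mem_nhds hw] with z hz
    exact A.right_inv i z hz
  exact h1.unique ((hasFDerivAt_id w).congr_of_eventuallyEq h2)

theorem dist_ψ_le {i : Fin A.m} {w w' : V} (hw : w ∈ A.U i) (hw' : w' ∈ A.U i) :
    dist (A.ψ i w) (A.ψ i w') ≤ A.K * ‖w - w'‖ := by
  rw [A.dist_eq]
  exact (A.U_convex i).norm_image_sub_le_of_norm_fderiv_le (f := A.e ∘ A.ψ i)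
    (fun z hz => diff_ψ_cal1 hz) (A.deriv_le i) hw' hw

theorem continuousOn_ψ (A : Atlas X) (i : Fin A.m) : ContinuousOn (A.ψ i) (A.U i) := by
  rw [A.iso.isEmbedding.continuousOn_iff]
  exact fun z hz => (diff_ψ_cal1 hz).continuousAt.continuousWithinAt

theorem sm_id (A : Atlas X) : A.Sm id := ⟨continuous_id, A.smooth⟩

theorem Reg.mono {r r' : ℕ} {K K' : ℝ} {g : X → X} (h : A.Reg r K g) (hr : r' ≤ r) (hK : K ≤ K') :
    A.Reg r' K' g := fun i =>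
  ⟨(h i).1.of_le (by exact_mod_cast hr), fun s hs w hw => ((h i).2 s (hs.trans hr) w hw).trans hK⟩

theorem reg_comp (A : Atlas X) (r : ℕ) (K K' : ℝ) : ∃ K'' : ℝ, ∀ g g' : X → X, Continuous g' →
    A.Reg r K g → A.Reg r K' g' → A.Reg r K'' (g ∘ g') := by
  refine ⟨r.factorial * max K 0 * max K' 1 ^ r, fun g g' _ hg hg' i => ?_⟩
  have hloc : ∀ w ∈ A.U i, A.rep (g ∘ g') i =ᶠ[𝓝 w]
      A.rep g (A.idx (g' (A.ψ i w))) ∘ (A.pr (A.idx (g' (A.ψ i w))) ∘ A.rep g' i) := fun w hw =>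
    loc_cal1 g (c := g' ∘ A.ψ i) (A.mem_D _) (A.self_lt_cal1 _)
      ((hg' i).1.contDiffAt ((A.U_open i).mem_nhds hw)).continuousAt
  refine ⟨fun w hw => ?_, fun s hs w hw => ?_⟩
  · refine ContDiffAt.contDiffWithinAt (ContDiffAt.congr_of_eventuallyEq ?_ (hloc w hw))
    refine ContDiffAt.comp w ?_ ((A.pr _).contDiff.contDiffAt.comp w
      ((hg' i).1.contDiffAt ((A.U_open i).mem_nhds hw)))
    exact (hg _).1.contDiffAt ((A.U_open _).mem_nhds (A.φ_self_cal1 (g' (A.ψ i w))))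
  · rw [((hloc w hw).iteratedFDeriv ℝ s).self_of_nhds]
    set k := A.idx (g' (A.ψ i w)) with hk
    have hf : ContDiffOn ℝ r (A.pr k ∘ A.rep g' i) (A.U i) :=
      (A.pr k).contDiff.comp_contDiffOn (hg' i).1
    have ho : IsOpen (A.U i ∩ (A.pr k ∘ A.rep g' i) ⁻¹' A.U k) :=
      hf.continuousOn.isOpen_inter_preimage (A.U_open i) (A.U_open k)
    have hm : (A.pr k ∘ A.rep g' i) w ∈ A.U k := A.φ_self_cal1 (g' (A.ψ i w))
    have hw' : w ∈ A.U i ∩ (A.pr k ∘ A.rep g' i) ⁻¹' A.U k := ⟨hw, hm⟩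
    have hD : (1 : ℝ) ≤ max K' 1 := le_max_right _ _
    rw [← iteratedFDerivWithin_of_isOpen s ho hw']
    refine (norm_iteratedFDerivWithin_comp_le (C := max K 0) (D := max K' 1) (hg k).1
      (hf.mono inter_subset_left) (by exact_mod_cast hs) (A.U_open k).uniqueDiffOn ho.uniqueDiffOn
      (fun z hz => hz.2) hw' (fun j hj => ?_) (fun j hj1 hj => ?_)).trans ?_
    · rw [iteratedFDerivWithin_of_isOpen j (A.U_open k) hm]
      exact ((hg k).2 j (hj.trans hs) _ hm).trans (le_max_left _ _)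
    · rw [iteratedFDerivWithin_of_isOpen j ho hw']
      refine ((A.pr k).norm_iteratedFDeriv_comp_left
        ((hg' i).1.contDiffAt ((A.U_open i).mem_nhds hw))
        (by exact_mod_cast hj.trans hs)).trans ?_
      refine (mul_le_of_le_one_left (norm_nonneg _) (A.pr_le k)).trans ?_
      exact ((hg' i).2 j (hj.trans hs) w hw).trans
        ((le_max_left _ _).trans (le_self_pow₀ hD (by omega)))
    · have h1 : (s.factorial : ℝ) ≤ r.factorial := by exact_mod_cast Nat.factorial_le hs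
      have h2 : max K' 1 ^ s ≤ max K' 1 ^ r := pow_le_pow_right₀ hD hs
      have h3 : (0 : ℝ) ≤ max K 0 := le_max_right _ _
      gcongr

theorem reg_iter (A : Atlas X) (r : ℕ) (K : ℝ) (p : ℕ) : ∃ K' : ℝ, ∀ g : X → X, Continuous g →
    A.Reg r K g → A.Reg r K' g^[p] := by
  induction p with
  | zero =>
    obtain ⟨K', h⟩ := A.smooth r
    exact ⟨K', fun g _ _ => h⟩
  | succ p ih =>
    obtain ⟨K', h⟩ := ih
    obtain ⟨K'', h'⟩ := A.reg_comp r K' K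
    exact ⟨K'', fun g hc hg => h' _ g hc (h g hc hg) hg⟩

theorem Sm.comp {g g' : X → X} (h : A.Sm g) (h' : A.Sm g') : A.Sm (g ∘ g') := by
  refine ⟨h.1.comp h'.1, fun r => ?_⟩
  obtain ⟨K, hK⟩ := h.2 r
  obtain ⟨K', hK'⟩ := h'.2 r
  obtain ⟨K'', h''⟩ := A.reg_comp r K K'
  exact ⟨K'', h'' g g' h'.1 hK hK'⟩

theorem Sm.iter {g : X → X} (h : A.Sm g) (p : ℕ) : A.Sm g^[p] := by
  induction p with
  | zero => exact A.sm_id
  | succ p ih => exact ih.comp h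

theorem Sm.differentiableAt {g : X → X} (h : A.Sm g) {i : Fin A.m} {w : V} (hw : w ∈ A.U i) :
    DifferentiableAt ℝ (A.rep g i) w := by
  obtain ⟨K, hK⟩ := h.2 1
  exact ((hK i).1.contDiffAt ((A.U_open i).mem_nhds hw)).differentiableAt (by simp)

theorem Sm.continuousOn_fderiv {g : X → X} (h : A.Sm g) (i : Fin A.m) :
    ContinuousOn (fderiv ℝ (A.rep g i)) (A.U i) := by
  obtain ⟨K, hK⟩ := h.2 1
  exact (hK i).1.continuousOn_fderiv_of_isOpen (A.U_open i) (by simp)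

theorem Reg.up {K : ℝ} {g : X → X} (h : A.Reg 1 K g) : A.Up K g := fun i w hw => by
  rw [← norm_iteratedFDeriv_one]
  exact (h i).2 1 le_rfl w hw

/-- The first derivative is Lipschitz on the chart domains. -/
theorem Reg.fderiv_lip {K : ℝ} {g : X → X} (h : A.Reg 2 K g) {i : Fin A.m} {w w' : V}
    (hw : w ∈ A.U i) (hw' : w' ∈ A.U i) :
    ‖fderiv ℝ (A.rep g i) w - fderiv ℝ (A.rep g i) w'‖ ≤ K * ‖w - w'‖ := by
  refine (A.U_convex i).norm_image_sub_le_of_norm_fderiv_le (𝕜 := ℝ) (f := fderiv ℝ (A.rep g i))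
    (fun z hz => ?_) (fun z hz => ?_) hw' hw
  · have h1 : ContDiffAt ℝ 1 (fderiv ℝ (A.rep g i)) z :=
      ((h i).1.contDiffAt ((A.U_open i).mem_nhds hz)).fderiv_right (by norm_num)
    exact h1.differentiableAt (by simp)
  · rw [← norm_iteratedFDeriv_one, norm_iteratedFDeriv_fderiv]
    exact (h i).2 2 le_rfl z hz

theorem fderiv_comp_cal1 {g g' : X → X} (hg : A.Sm g) (hg' : A.Sm g') {i : Fin A.m} {w : V}
    (hw : w ∈ A.U i) : fderiv ℝ (A.rep (g ∘ g') i) w =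
      (fderiv ℝ (A.rep g (A.idx (g' (A.ψ i w))))
        (A.φ (A.idx (g' (A.ψ i w))) (g' (A.ψ i w)))).comp
        ((A.pr (A.idx (g' (A.ψ i w)))).comp (fderiv ℝ (A.rep g' i) w)) :=
  fderiv_loc_cal1 (c := g' ∘ A.ψ i) (A.mem_D _) (A.self_lt_cal1 _)
    (hg.differentiableAt (A.φ_self_cal1 _)) (hg'.differentiableAt hw)

theorem Up.iter {K : ℝ} {g : X → X} (h : A.Up K g) (hg : A.Sm g) (hK : 1 ≤ K) (p : ℕ) :
    A.Up (A.K * K ^ p) g^[p] := by
  induction p with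
  | zero =>
    intro i w hw
    rw [pow_zero, mul_one]
    exact A.deriv_le i w hw
  | succ p ih =>
    intro i w hw
    rw [Function.iterate_succ', fderiv_comp_cal1 hg (hg.iter p) hw]
    refine (ContinuousLinearMap.opNorm_comp_le _ _).trans ?_
    have h1 := h _ _ (A.φ_self_cal1 (g^[p] (A.ψ i w)))
    have h2 : ‖(A.pr (A.idx (g^[p] (A.ψ i w)))).comp (fderiv ℝ (A.rep g^[p] i) w)‖ ≤
        A.K * K ^ p := (ContinuousLinearMap.opNorm_comp_le _ _).trans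
      ((mul_le_of_le_one_left (norm_nonneg _) (A.pr_le _)).trans (ih i w hw))
    calc _ ≤ K * (A.K * K ^ p) := mul_le_mul h1 h2 (norm_nonneg _) (by linarith)
      _ = _ := by ring

theorem Low.iter {K : ℝ} {g : X → X} (h : A.Low K g) (hg : A.Sm g) (hK : 1 ≤ K) (p : ℕ) :
    A.Low ((A.K * K) ^ p) g^[p] := by
  induction p with
  | zero =>
    intro i w hw v
    rw [pow_zero, one_mul]
    have h1 : A.pr i (fderiv ℝ (A.e ∘ A.ψ i) w v) = v := DFunLike.congr_fun (pr_fderiv_cal1 hw) v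
    calc ‖v‖ = ‖A.pr i (fderiv ℝ (A.e ∘ A.ψ i) w v)‖ := (congrArg _ h1).symm
      _ ≤ _ := A.pr_apply_le_cal1 i _
  | succ p ih =>
    intro i w hw v
    rw [Function.iterate_succ', fderiv_comp_cal1 hg (hg.iter p) hw]
    have h1 := ih i w hw v
    have h2 : ‖fderiv ℝ (A.rep g^[p] i) w v‖ ≤
        A.K * ‖A.pr (A.idx (g^[p] (A.ψ i w))) (fderiv ℝ (A.rep g^[p] i) w v)‖ :=
      norm_le_pr_cal1 (c := g^[p] ∘ A.ψ i) (A.mem_D _) (A.self_lt_cal1 _)
        ((hg.iter p).differentiableAt hw) v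
    have h3 := h _ _ (A.φ_self_cal1 (g^[p] (A.ψ i w)))
      (A.pr (A.idx (g^[p] (A.ψ i w))) (fderiv ℝ (A.rep g^[p] i) w v))
    have h4 := A.K_nonneg_cal1
    have h5 : 0 ≤ (A.K * K) ^ p := pow_nonneg (mul_nonneg h4 (by linarith)) p
    refine h1.trans ((mul_le_mul_of_nonneg_left
      (h2.trans (mul_le_mul_of_nonneg_left h3 h4)) h5).trans_eq ?_)
    simp only [ContinuousLinearMap.comp_apply]
    ring

theorem Up.dist_le {K : ℝ} {g : X → X} (h : A.Up K g) (hg : A.Sm g) {x y y' : X}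
    (hy : dist y x < A.ρ) (hy' : dist y' x < A.ρ) : dist (g y) (g y') ≤ K * dist y y' := by
  have hx := A.mem_D x
  have h0 : 0 ≤ K := (norm_nonneg _).trans (h _ _ (φ_mem hx hy))
  have h1 := (A.U_convex (A.idx x)).norm_image_sub_le_of_norm_fderiv_le
    (f := A.rep g (A.idx x)) (fun z hz => hg.differentiableAt hz) (h _) (φ_mem hx hy')
    (φ_mem hx hy)
  simp only [rep, Function.comp_apply, ψ_φ hx hy, ψ_φ hx hy'] at h1
  rw [A.dist_eq]
  exact h1.trans (mul_le_mul_of_nonneg_left (A.norm_φ_sub_le _ y y') h0)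

theorem Sm.lip {g : X → X} (h : A.Sm g) : ∃ K : ℝ≥0, 1 ≤ K ∧ LipschitzWith K g := by
  obtain ⟨K, hK⟩ := h.2 1
  have hb : ∀ y, ‖A.e (g y)‖ ≤ K := fun y => by
    have h1 := (hK _).2 0 zero_le_one _ (A.φ_self_cal1 y)
    rw [norm_iteratedFDeriv_zero] at h1
    simpa only [rep, Function.comp_apply, A.ψ_self_cal1 y] using h1
  have hL : (1 : ℝ) ≤ max 1 (max K (2 * K / A.ρ)) := le_max_left _ _
  refine ⟨⟨max 1 (max K (2 * K / A.ρ)), zero_le_one.trans hL⟩, hL,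
    LipschitzWith.of_dist_le_mul fun y y' => ?_⟩
  change _ ≤ max 1 (max K (2 * K / A.ρ)) * dist y y'
  by_cases hd : dist y y' < A.ρ
  · refine (hK.up.dist_le h hd (A.self_lt_cal1 y')).trans ?_
    exact mul_le_mul_of_nonneg_right ((le_max_left _ _).trans (le_max_right _ _)) dist_nonneg
  · have h0 : 0 ≤ K := (norm_nonneg _).trans (hb y)
    have h1 : dist (g y) (g y') ≤ 2 * K := by
      rw [A.dist_eq]
      linarith [norm_sub_le (A.e (g y)) (A.e (g y')), hb y, hb y']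
    have h2 : 2 * K = 2 * K / A.ρ * A.ρ := (div_mul_cancel₀ _ A.ρ_pos.ne').symm
    refine h1.trans (h2.trans_le ?_)
    exact mul_le_mul ((le_max_right _ _).trans (le_max_right _ _)) (not_lt.1 hd) A.ρ_pos.le
      (zero_le_one.trans hL)

/-- Near a point of a curve, `e ∘ g ∘ c` factors through the chart. -/
theorem eventually_rep (g : X → X) {c : ℝ → X} {t : ℝ} {i : Fin A.m} {x : X} (hx : x ∈ A.D i)
    (hd : dist (c t) x < A.ρ) (hc : ContinuousAt (A.e ∘ c) t) :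
    A.e ∘ g ∘ c =ᶠ[𝓝 t] (A.rep g i ∘ A.pr i) ∘ (A.e ∘ c) := loc_cal1 g hx hd hc

theorem Sm.hasDerivAt_comp {g : X → X} (hg : A.Sm g) {c : ℝ → X} {t : ℝ} {v : Fin A.N → ℝ}
    {i : Fin A.m} {x : X} (hx : x ∈ A.D i) (hd : dist (c t) x < A.ρ)
    (hc : HasDerivAt (A.e ∘ c) v t) :
    HasDerivAt (A.e ∘ g ∘ c) (fderiv ℝ (A.rep g i) (A.φ i (c t)) (A.pr i v)) t := by
  have h1 : HasFDerivAt (A.rep g i ∘ A.pr i)
      ((fderiv ℝ (A.rep g i) (A.φ i (c t))).comp (A.pr i)) ((A.e ∘ c) t) :=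
    HasFDerivAt.comp ((A.e ∘ c) t) (hg.differentiableAt (φ_mem hx hd)).hasFDerivAt
      (A.pr i).hasFDerivAt
  exact (h1.comp_hasDerivAt t hc).congr_of_eventuallyEq (loc_cal1 g hx hd hc.continuousAt)

theorem norm_le_pr {c : ℝ → X} {t : ℝ} {v : Fin A.N → ℝ} {i : Fin A.m} {x : X} (hx : x ∈ A.D i)
    (hd : dist (c t) x < A.ρ) (hc : HasDerivAt (A.e ∘ c) v t) : ‖v‖ ≤ A.K * ‖A.pr i v‖ := by
  have h1 : v = fderiv ℝ (A.e ∘ A.ψ i) (A.φ i (c t)) (A.pr i v) :=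
    hc.unique (A.sm_id.hasDerivAt_comp hx hd hc)
  calc ‖v‖ = ‖fderiv ℝ (A.e ∘ A.ψ i) (A.φ i (c t)) (A.pr i v)‖ := congrArg _ h1
    _ ≤ _ := (ContinuousLinearMap.le_opNorm _ _).trans
        (mul_le_mul_of_nonneg_right (A.deriv_le i _ (φ_mem hx hd)) (norm_nonneg _))

theorem Sm.contDiffAt_comp {g : X → X} (hg : A.Sm g) {c : ℝ → X} {t : ℝ} {r : ℕ}
    (hc : ContDiffAt ℝ r (A.e ∘ c) t) : ContDiffAt ℝ r (A.e ∘ g ∘ c) t := by
  obtain ⟨K, hK⟩ := hg.2 r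
  refine ContDiffAt.congr_of_eventuallyEq ?_
    (loc_cal1 g (A.mem_D (c t)) (A.self_lt_cal1 _) hc.continuousAt)
  refine ContDiffAt.comp t (ContDiffAt.comp _ ?_ (A.pr _).contDiff.contDiffAt) hc
  exact (hK _).1.contDiffAt ((A.U_open _).mem_nhds (A.φ_self_cal1 (c t)))

theorem Dm_id (A : Atlas X) (x : X) : A.Dm id x = ContinuousLinearMap.id ℝ V := pr_fderiv_cal1 (A.φ_self_cal1 x)

theorem Dm_comp {g g' : X → X} (hg : A.Sm g) (hg' : A.Sm g') (x : X) :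
    A.Dm (g ∘ g') x = (A.Dm g (g' x)).comp (A.Dm g' x) := by
  unfold Dm
  rw [fderiv_comp_cal1 hg hg' (A.φ_self_cal1 x), A.ψ_self_cal1 x]
  rfl

theorem measurable_fderiv_cal1 [BorelSpace X] (A : Atlas X) (g : X → X) :
    Measurable fun x => fderiv ℝ (A.rep g (A.idx x)) (A.φ (A.idx x) x) := by
  have h : Measurable fun p : X × Fin A.m => fderiv ℝ (A.rep g p.2) (A.φ p.2 p.1) :=
    measurable_from_prod_countable_left fun i =>
      (_root_.measurable_fderiv ℝ (A.rep g i)).comp (A.continuous_φ i).measurable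
  exact h.comp (measurable_id.prodMk A.meas_idx)

theorem Sm.measurable_Dm [BorelSpace X] {g : X → X} (hg : A.Sm g) : Measurable (A.Dm g) := by
  have h : Measurable fun p : X × Fin A.m =>
      (A.pr p.2).comp (fderiv ℝ (A.rep g (A.idx p.1)) (A.φ (A.idx p.1) p.1)) := by
    refine measurable_from_prod_countable_left fun i => ?_
    have hc : Continuous fun L : V →L[ℝ] (Fin A.N → ℝ) => (A.pr i).comp L :=
      continuous_const.clm_comp continuous_id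
    exact hc.measurable.comp (A.measurable_fderiv_cal1 g)
  exact h.comp (measurable_id.prodMk (A.meas_idx.comp hg.1.measurable))

/-- Measurability of the derivative read in the selected chart. -/
theorem Sm.measurable_fderiv [BorelSpace X] {g : X → X} (hg : A.Sm g) :
    Measurable fun x => fderiv ℝ (A.rep g (A.idx x)) (A.φ (A.idx x) x) := by
  have _ := hg
  exact A.measurable_fderiv_cal1 g

theorem Up.norm_Dm_le {K : ℝ} {g : X → X} (h : A.Up K g) (x : X) : ‖A.Dm g x‖ ≤ K :=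
  (ContinuousLinearMap.opNorm_comp_le _ _).trans
    ((mul_le_of_le_one_left (norm_nonneg _) (A.pr_le _)).trans (h _ _ (A.φ_self_cal1 x)))

theorem norm_fderiv_apply_le_cal1 {g : X → X} (hg : A.Sm g) (x : X) (v : V) :
    ‖fderiv ℝ (A.rep g (A.idx x)) (A.φ (A.idx x) x) v‖ ≤ A.K * ‖A.Dm g x v‖ :=
  norm_le_pr_cal1 (c := g ∘ A.ψ (A.idx x)) (A.mem_D (g x))
    (by rw [Function.comp_apply, A.ψ_self_cal1 x]; exact A.self_lt_cal1 _)
    (hg.differentiableAt (A.φ_self_cal1 x)) v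

theorem Sm.norm_fderiv_le {g : X → X} (hg : A.Sm g) {i : Fin A.m} {x : X} (hx : x ∈ A.D i) :
    ‖fderiv ℝ (A.rep g i) (A.φ i x)‖ ≤ A.K ^ 2 * ‖A.Dm g x‖ := by
  have hw := φ_mem hx (A.self_lt_cal1 x)
  have he := ψ_φ hx (A.self_lt_cal1 x)
  have h0 := A.K_nonneg_cal1
  have h1 : fderiv ℝ (A.rep g i) (A.φ i x) = _ := fderiv_comp_cal1 hg A.sm_id hw
  simp only [id, he] at h1
  have h2 : ‖fderiv ℝ (A.rep g (A.idx x)) (A.φ (A.idx x) x)‖ ≤ A.K * ‖A.Dm g x‖ := by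
    refine ContinuousLinearMap.opNorm_le_bound _ (mul_nonneg h0 (norm_nonneg _)) fun v => ?_
    refine (norm_fderiv_apply_le_cal1 hg x v).trans ?_
    rw [mul_assoc]
    exact mul_le_mul_of_nonneg_left (ContinuousLinearMap.le_opNorm _ _) h0
  have h3 : ‖(A.pr (A.idx x)).comp (fderiv ℝ (A.rep id i) (A.φ i x))‖ ≤ A.K :=
    (ContinuousLinearMap.opNorm_comp_le _ _).trans
      ((mul_le_of_le_one_left (norm_nonneg _) (A.pr_le _)).trans (A.deriv_le i _ hw))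
  rw [h1]
  refine (ContinuousLinearMap.opNorm_comp_le _ _).trans ?_
  calc _ ≤ A.K * ‖A.Dm g x‖ * A.K :=
        mul_le_mul h2 h3 (norm_nonneg _) (mul_nonneg h0 (norm_nonneg _))
    _ = _ := by ring

theorem Sm.norm_fderiv_apply_le {g : X → X} (hg : A.Sm g) (x : X) (v : V) :
    ‖fderiv ℝ (A.rep g (A.idx x)) (A.φ (A.idx x) x) v‖ ≤ A.K * ‖A.Dm g x v‖ :=
  norm_fderiv_apply_le_cal1 hg x v

theorem norm_Dm_apply_le (A : Atlas X) (g : X → X) (x : X) (v : V) :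
    ‖A.Dm g x v‖ ≤ ‖fderiv ℝ (A.rep g (A.idx x)) (A.φ (A.idx x) x) v‖ := A.pr_apply_le_cal1 _ _

end Atlas

end Pool.Agent.Lib.MP_e7c912_an
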