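import Pool.Agent.Lib.MP_e7c912_an.H60IDef
import Pool.Agent.Lib.MP_e7c912_an.H60SLem
import Pool.Agent.Lib.MP_e7c912_an.H60Box
import Pool.Agent.Lib.MP_e7c912_an.H60Tr

/-! Two families of curves dominated by the same ergodic measure form a configuration. -/

namespace Pool.Agent.Lib.MP_e7c912_an

open MeasureTheory Filter Metric Set Topology

theorem UCur.mono_cfg {X : Type} [MetricSpace X] {S : X → X} {K K' c : ℝ} {σ : ℝ → X}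
    (h : UCur S K c σ) (hK : K ≤ K') : UCur S K' c σ := fun s hs t ht =>
  ⟨(h s hs t ht).1.trans (mul_le_mul_of_nonneg_right hK dist_nonneg), fun j =>
    ((h s hs t ht).2 j).trans (mul_le_mul_of_nonneg_right
      (mul_le_mul_of_nonneg_right hK (Real.exp_pos _).le) (abs_nonneg _))⟩

/-- A function with null level sets takes three increasing values. -/
theorem three_cfg {Y : Type} [MeasurableSpace Y] {μ : Measure Y} {S : Set Y} (h0 : μ S ≠ 0)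
    (v : Y → ℝ) (h : ∀ x ∈ S, μ {y | y ∈ S ∧ v y = v x} = 0) :
    ∃ x1 ∈ S, ∃ x2 ∈ S, ∃ x3 ∈ S, v x1 < v x2 ∧ v x2 < v x3 := by
  have key : ∀ a ∈ S, ∀ b ∈ S, ∃ c ∈ S, v c ≠ v a ∧ v c ≠ v b := by
    intro a ha b hb
    by_contra hc
    push Not at hc
    refine h0 (measure_mono_null (fun c hcS => ?_) (measure_union_null (h a ha) (h b hb)))
    by_cases h1 : v c = v a
    · exact Or.inl ⟨hcS, h1⟩
    · exact Or.inr ⟨hcS, hc c hcS h1⟩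
  obtain ⟨a, ha⟩ := nonempty_of_measure_ne_zero h0
  obtain ⟨b, hb, hba, -⟩ := key a ha a ha
  obtain ⟨c, hc, hca, hcb⟩ := key a ha b hb
  rcases lt_or_gt_of_ne hba with h1 | h1 <;> rcases lt_or_gt_of_ne hca with h2 | h2 <;>
    rcases lt_or_gt_of_ne hcb with h3 | h3
  · exact ⟨c, hc, b, hb, a, ha, h3, h1⟩
  · exact ⟨b, hb, c, hc, a, ha, h3, h2⟩
  · exact absurd (h1.trans h2) (not_lt.2 h3.le)
  · exact ⟨b, hb, a, ha, c, hc, h1, h2⟩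
  · exact ⟨c, hc, a, ha, b, hb, h2, h1⟩
  · exact absurd (h2.trans h1) (not_lt.2 h3.le)
  · exact ⟨a, ha, c, hc, b, hb, h2, h3⟩
  · exact ⟨a, ha, b, hb, c, hc, h1, h3⟩

section Geo

variable {X : Type} [MetricSpace X] [MeasurableSpace X] {A : Atlas X} {F : Dif A} {Λ : Set X}
  {x0 : X} {ρ K c ε0 : ℝ}

/-- Near the parameter `t0` the curve parametrises the unstable leaf of `σ t0`. -/
def ArcCfg (B : Box F Λ x0 ρ K c ε0) (β' c1 : ℝ) (σ : ℝ → X) (t0 : ℝ) : Prop :=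
  (∀ t ∈ Icc (t0 - β') (t0 + β'), dist (σ t) x0 < A.ρ ∧ ‖B.Φ (σ t)‖ ≤ ρ / 2 ∧
    (B.Φ (σ t)).2 = B.wu (σ t0) (B.Φ (σ t)).1) ∧
  (∀ t ∈ Icc (t0 - β') (t0 + β'), ∀ t' ∈ Icc (t0 - β') (t0 + β'),
    c1 * |t - t'| ≤ |(B.Φ (σ t)).1 - (B.Φ (σ t')).1|) ∧
  ∀ u, |u - (B.Φ (σ t0)).1| ≤ c1 * β' → ∃ t ∈ Icc (t0 - β') (t0 + β'), (B.Φ (σ t)).1 = u

theorem wu_sub_cfg (B : Box F Λ x0 ρ K c ε0) {x : X} (hx : In Λ x0 ρ K x) {u : ℝ} (hu : |u| ≤ ρ) :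
    |B.wu x u - (B.Φ x).2| ≤ |u - (B.Φ x).1| / 10 := by
  have h1 : |(B.Φ x).1| ≤ ρ / 10 := (norm_fst_le (B.Φ x)).trans (B.in_norm hx).1
  have h2 := B.ρ_pos
  have h3 : B.wu x (B.Φ x).1 = (B.Φ x).2 := B.wu_self x hx
  rw [← h3]
  exact B.wu_lip x hx u (abs_le.1 hu) _ (abs_le.1 (by linarith))

theorem small_cfg (B : Box F Λ x0 ρ K c ε0) {x : X} (hx : In Λ x0 ρ K x) {τ : ℝ} (hτ : τ ≤ ρ)
    (hn : ‖B.Φ x‖ ≤ τ / 100) {u : ℝ} (hu : |u| ≤ τ) : |B.wu x u| ≤ τ / 2 := by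
  have h1 : |(B.Φ x).1| ≤ τ / 100 := (norm_fst_le (B.Φ x)).trans hn
  have h2 : |(B.Φ x).2| ≤ τ / 100 := (norm_snd_le (B.Φ x)).trans hn
  have h3 := wu_sub_cfg B hx (hu.trans hτ)
  have h4 := abs_sub u (B.Φ x).1
  have h5 := abs_nonneg u
  rw [abs_le] at h2 h3 ⊢
  constructor <;> linarith [h2.1, h2.2, h3.1, h3.2]

theorem cross_cfg {B : Box F Λ x0 ρ K c ε0} {β' c1 τ t0 : ℝ} {σ : ℝ → X}
    (H : ArcCfg B β' c1 σ t0) (hβ : β' ≤ 1 / 6) (ht : t0 ∈ Icc (1 / 3 : ℝ) (1 - 1 / 3))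
    (hc1 : 0 < c1) (hτ : τ ≤ ρ) (hτ' : 3 * τ ≤ c1 * β') (hx : In Λ x0 ρ K (σ t0))
    (hn : ‖B.Φ (σ t0)‖ ≤ τ / 100) : Cross B τ σ (B.wu (σ t0)) (t0 - β') (t0 + β') c1 := by
  have hρ := B.ρ_pos
  have h1 : |(B.Φ (σ t0)).1| ≤ τ / 100 := (norm_fst_le (B.Φ (σ t0))).trans hn
  refine ⟨by linarith [ht.1], by linarith [ht.2], hc1, fun t h => ?_, H.2.1, fun u hu => ?_,
    B.wu_lip _ hx, fun u hu => small_cfg B hx hτ hn (abs_le.2 hu)⟩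
  · obtain ⟨a1, a2, a3⟩ := H.1 t h
    refine ⟨?_, (norm_fst_le _).trans a2, a3⟩
    have := B.dist_Ψ_lt (z := B.Φ (σ t)) (by linarith)
    rwa [B.Ψ_Φ a1] at this
  · refine H.2.2 u ?_
    have := abs_sub u (B.Φ (σ t0)).1
    have := abs_nonneg u
    linarith

/-- The configuration from three ordered leaves near `p`. -/
theorem geo_cfg {B : Box F Λ x0 ρ K c ε0} {β' c1 τ t1 t2 t3 : ℝ} {σ1 σ2 σ3 : ℝ → X} {p p' : X}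
    (H1 : ArcCfg B β' c1 σ1 t1) (H2 : ArcCfg B β' c1 σ2 t2) (H3 : ArcCfg B β' c1 σ3 t3)
    (hβ : β' ≤ 1 / 6) (ht1 : t1 ∈ Icc (1 / 3 : ℝ) (1 - 1 / 3))
    (ht2 : t2 ∈ Icc (1 / 3 : ℝ) (1 - 1 / 3)) (ht3 : t3 ∈ Icc (1 / 3 : ℝ) (1 - 1 / 3))
    (hc1 : 0 < c1) (hτ0 : 0 < τ) (hτ : τ ≤ ρ) (hτ' : 3 * τ ≤ c1 * β')
    (hx1 : In Λ x0 ρ K (σ1 t1)) (hx2 : In Λ x0 ρ K (σ2 t2)) (hx3 : In Λ x0 ρ K (σ3 t3))
    (hn1 : ‖B.Φ (σ1 t1)‖ ≤ τ / 100) (hn2 : ‖B.Φ (σ2 t2)‖ ≤ τ / 100)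
    (hn3 : ‖B.Φ (σ3 t3)‖ ≤ τ / 100) (hp : In Λ x0 ρ K p ∧ Rec F.f Λ p ∧ ‖B.Φ p‖ ≤ τ / 100)
    (hp' : In Λ x0 ρ K p' ∧ Rec F.f Λ p' ∧ ‖B.Φ p'‖ ≤ τ / 100) (hlt : (B.Φ p).1 < (B.Φ p').1)
    (hs : |(B.Φ p).2 - (B.Φ p').2| ≤ ((B.Φ p').1 - (B.Φ p).1) / 10)
    (hd : ‖B.Φ (σ2 t2) - B.Φ p‖ ≤ ((B.Φ p').1 - (B.Φ p).1) / 100)
    (h12 : B.wu (σ1 t1) (((B.Φ p).1 + (B.Φ p').1) / 2) <
      B.wu (σ2 t2) (((B.Φ p).1 + (B.Φ p').1) / 2))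
    (h23 : B.wu (σ2 t2) (((B.Φ p).1 + (B.Φ p').1) / 2) <
      B.wu (σ3 t3) (((B.Φ p).1 + (B.Φ p').1) / 2)) :
    ∃ y, Cfg B τ σ1 σ2 σ3 (B.wu (σ1 t1)) (B.wu (σ3 t3)) p p' y := by
  have a1 : |(B.Φ p).1| ≤ τ / 100 := (norm_fst_le (B.Φ p)).trans hp.2.2
  have a2 : |(B.Φ p').1| ≤ τ / 100 := (norm_fst_le (B.Φ p')).trans hp'.2.2
  have a3 : |(B.Φ (σ2 t2)).1 - (B.Φ p).1| ≤ ((B.Φ p').1 - (B.Φ p).1) / 100 :=
    (norm_fst_le (B.Φ (σ2 t2) - B.Φ p)).trans hd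
  have a4 : |(B.Φ (σ2 t2)).2 - (B.Φ p).2| ≤ ((B.Φ p').1 - (B.Φ p).1) / 100 :=
    (norm_snd_le (B.Φ (σ2 t2) - B.Φ p)).trans hd
  have hu : |((B.Φ p).1 + (B.Φ p').1) / 2| ≤ τ / 100 := by
    rw [abs_le] at a1 a2 ⊢
    constructor <;> linarith [a1.1, a1.2, a2.1, a2.2]
  have C2 := cross_cfg H2 hβ ht2 hc1 hτ hτ' hx2 hn2
  have hsub : Icc (t2 - β') (t2 + β') ⊆ Icc (0 : ℝ) 1 := Icc_subset_Icc C2.a_pos.le C2.b_lt.le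
  obtain ⟨t, ht, hty⟩ := C2.onto (((B.Φ p).1 + (B.Φ p').1) / 2) (by linarith)
  obtain ⟨t', ht', hty'⟩ := C2.onto τ (by rw [abs_of_pos hτ0]; linarith)
  obtain ⟨b1, -, b3⟩ := H2.1 t ht
  rw [hty] at b3
  have b4 := small_cfg B hx2 hτ hn2 (u := ((B.Φ p).1 + (B.Φ p').1) / 2) (by linarith)
  have b5 := wu_sub_cfg B hx2 (u := ((B.Φ p).1 + (B.Φ p').1) / 2) (by linarith)
  have b6 : |((B.Φ p).1 + (B.Φ p').1) / 2 - (B.Φ (σ2 t2)).1| ≤ (B.Φ p').1 - (B.Φ p).1 := by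
    rw [abs_le] at a3 ⊢
    constructor <;> linarith [a3.1, a3.2]
  rw [← b3] at b4 b5
  have b7 : |(B.Φ (σ2 t)).2 - (B.Φ p).2| ≤ (B.Φ p').1 - (B.Φ p).1 := by
    rw [abs_le] at a4 b5 ⊢
    constructor <;> linarith [a4.1, a4.2, b5.1, b5.2]
  have b8 : |(B.Φ (σ2 t)).2 - (B.Φ p').2| ≤ (B.Φ p').1 - (B.Φ p).1 := by
    rw [abs_le] at a4 b5 hs ⊢
    constructor <;> linarith [a4.1, a4.2, b5.1, b5.2, hs.1, hs.2]
  refine ⟨σ2 t, hτ0, hτ, ⟨_, _, _, cross_cfg H1 hβ ht1 hc1 hτ hτ' hx1 hn1⟩,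
    ⟨_, _, _, cross_cfg H3 hβ ht3 hc1 hτ hτ' hx3 hn3⟩, ⟨hp.1, hp.2.1, by linarith [hp.2.2]⟩,
    ⟨hp'.1, hp'.2.1, by linarith [hp'.2.2]⟩, ⟨t, hsub ht, rfl⟩, ⟨t', hsub ht', by linarith⟩,
    ⟨b1, ?_⟩, ?_, ?_, ?_, ?_⟩
  · rw [Prod.norm_def, max_lt_iff, Real.norm_eq_abs, Real.norm_eq_abs, hty]
    constructor <;> linarith
  · rw [hty, b3]; exact h12
  · rw [hty, b3]; exact h23
  · rw [hty]; linarith
  · rw [hty]; linarith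

/-- Two points of an arc, in increasing order. -/
theorem pair_cfg {B : Box F Λ x0 ρ K c ε0} {β' c1 t0 t1 : ℝ} {σ : ℝ → X}
    (H : ArcCfg B β' c1 σ t0) (hβ : 0 ≤ β') (hc1 : 0 < c1) (hx : In Λ x0 ρ K (σ t0))
    (ht : t1 ∈ Icc (t0 - β') (t0 + β')) (hne : t1 ≠ t0) {S : Set X} (h0 : σ t0 ∈ S)
    (h1 : σ t1 ∈ S) : ∃ p ∈ S, ∃ p' ∈ S, (B.Φ p).1 < (B.Φ p').1 ∧
      |(B.Φ p).2 - (B.Φ p').2| ≤ ((B.Φ p').1 - (B.Φ p).1) / 10 := by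
  have hρ := B.ρ_pos
  obtain ⟨-, a2, a3⟩ := H.1 t1 ht
  have a4 := H.2.1 t1 ht t0 ⟨by linarith, by linarith⟩
  have a5 : 0 < c1 * |t1 - t0| := mul_pos hc1 (abs_pos.2 (sub_ne_zero.2 hne))
  have a6 : |(B.Φ (σ t1)).1| ≤ ρ / 2 := (norm_fst_le (B.Φ (σ t1))).trans a2
  have a7 := wu_sub_cfg B hx (u := (B.Φ (σ t1)).1) (by linarith)
  rw [← a3] at a7
  rcases lt_or_gt_of_ne (abs_pos.1 (a5.trans_le a4)) with h | h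
  · rw [abs_of_neg h] at a7
    exact ⟨_, h1, _, h0, by linarith, by linarith⟩
  · rw [abs_of_pos h, abs_sub_comm] at a7
    exact ⟨_, h0, _, h1, by linarith, a7⟩

end Geo

variable {X : Type} [MetricSpace X] [CompactSpace X] [MeasurableSpace X] [BorelSpace X]
  {A : Atlas X}

/-- The middle parts of the curves of a family. -/
def MidCfg {ε : ℝ} (E : Set (Cv A ε)) : Set X :=
  (fun z : Cv A ε × ℝ => z.1.pt z.2) '' (E ×ˢ Icc (1 / 3 : ℝ) (1 - 1 / 3))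

omit [BorelSpace X] in
theorem isCompact_mid_cfg {ε : ℝ} {E : Set (Cv A ε)} (cE : IsClosed E) : IsCompact (MidCfg E) :=
  (cE.isCompact.prod isCompact_Icc).image Cv.continuous_pt

theorem eta_mid_cfg {ε : ℝ} {E : Set (Cv A ε)} (cE : IsClosed E) {κ : Measure (Cv A ε)}
    [IsFiniteMeasure κ] (hE : ∀ᵐ w ∂κ, w ∈ E) :
    etaOn κ (Icc (1 / 3 : ℝ) (1 - 1 / 3)) (MidCfg E)ᶜ = 0 := by
  rw [etaOn_eq_zero_iff (isCompact_mid_cfg cE).measurableSet.compl]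
  filter_upwards [hE] with w hw
  refine measure_mono_null (fun t ht => ?_) measure_empty
  exact ht.1 ⟨(w, t), ⟨hw, ht.2⟩, rfl⟩

theorem eta_ne_cfg {ε : ℝ} {κ : Measure (Cv A ε)} [IsFiniteMeasure κ] (h0 : κ ≠ 0) :
    etaOn κ (Icc (1 / 3 : ℝ) (1 - 1 / 3)) univ ≠ 0 := by
  rw [etaOn_univ, Real.volume_Icc]
  refine mul_ne_zero (fun h => h0 (Measure.measure_univ_eq_zero.1 h)) ?_
  rw [Ne, ENNReal.ofReal_eq_zero]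
  norm_num

theorem eta_ac_cfg {ε : ℝ} {κ : Measure (Cv A ε)} [IsFiniteMeasure κ] {ξ : Measure X}
    (ac : eta κ ≪ ξ) : etaOn κ (Icc (1 / 3 : ℝ) (1 - 1 / 3)) ≪ ξ :=
  (Measure.absolutelyContinuous_of_le (etaOn_mono le_rfl
    (Icc_subset_Icc (by norm_num) (by norm_num)))).trans ac

/-- A set of recurrent points that lie on iterates of both families. -/
theorem exists_set_cfg (F : Dif A) {ξ : Measure X} [IsProbabilityMeasure ξ] (hξ : Ergodic F.f ξ)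
    {ε : ℝ} {E E' : Set (Cv A ε)} (cE : IsClosed E) (cE' : IsClosed E')
    {κ κ' : Measure (Cv A ε)} [IsFiniteMeasure κ] [IsFiniteMeasure κ'] (h0 : κ ≠ 0) (h0' : κ' ≠ 0)
    (hE : ∀ᵐ w ∂κ, w ∈ E) (hE' : ∀ᵐ w ∂κ', w ∈ E') (ac : eta κ ≪ ξ) (ac' : eta κ' ≪ ξ)
    {Λ : Set X} (hΛ : MeasurableSet Λ) (hΛ0 : ξ Λ ≠ 0) : ∃ (j j' : ℕ) (S : Set X),
      MeasurableSet S ∧ (etaOn κ (Icc (1 / 3 : ℝ) (1 - 1 / 3))).map F.f^[j] S ≠ 0 ∧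
      ∀ x ∈ S, x ∈ Λ ∧ Rec F.f Λ x ∧ x ∈ F.f^[j] '' MidCfg E ∧ x ∈ F.f^[j'] '' MidCfg E' := by
  have hm := hξ.toMeasurePreserving
  have hf : ∀ j : ℕ, Continuous F.f^[j] := fun j => F.smf.1.iterate j
  have hr := ae_rec hm hΛ
  rw [ae_iff] at hr
  set N := toMeasurable ξ {x | ¬ (x ∈ Λ → Rec F.f Λ x)} with hN
  have hN0 : ξ N = 0 := by rw [hN, measure_toMeasurable, hr]
  have hL : MeasurableSet (Λ \ N) := hΛ.diff (measurableSet_toMeasurable _ _)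
  have hL0 : ξ (Λ \ N) ≠ 0 := by rwa [measure_sdiff_null hN0]
  have h1 : ξ (MidCfg E') ≠ 0 := fun h => eta_ne_cfg h0' (by
    rw [← union_compl_self (MidCfg E')]
    exact measure_union_null (eta_ac_cfg ac' h) (eta_mid_cfg cE' hE'))
  obtain ⟨j', hj'⟩ := ergodic_hit hξ hL h1 hL0
  have hB' : MeasurableSet ((Λ \ N) ∩ F.f^[j'] '' MidCfg E') :=
    hL.inter ((isCompact_mid_cfg cE').image (hf j')).measurableSet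
  have hB0 : ξ ((Λ \ N) ∩ F.f^[j'] '' MidCfg E') ≠ 0 := by
    rw [← (hm.iterate j').measure_preimage hB'.nullMeasurableSet]
    refine fun h => hj' (measure_mono_null (fun x hx => ?_) h)
    exact ⟨hx.2, x, hx.1, rfl⟩
  have hfr := (eta_ac_cfg ac).ae_le (ergodic_freq hξ hB' hB0)
  have h2 : ∃ j : ℕ, etaOn κ (Icc (1 / 3 : ℝ) (1 - 1 / 3))
      (F.f^[j] ⁻¹' ((Λ \ N) ∩ F.f^[j'] '' MidCfg E')) ≠ 0 := by
    by_contra h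
    push Not at h
    refine eta_ne_cfg h0 (measure_mono_null (fun x _ => ?_)
      (measure_union_null (measure_iUnion_null h) (mem_ae_iff.1 hfr)))
    by_cases hx : ∃ᶠ n in atTop, F.f^[n] x ∈ (Λ \ N) ∩ F.f^[j'] '' MidCfg E'
    · exact Or.inl (mem_iUnion.2 hx.exists)
    · exact Or.inr hx
  obtain ⟨j, hj⟩ := h2
  have hS : MeasurableSet (((Λ \ N) ∩ F.f^[j'] '' MidCfg E') ∩ F.f^[j] '' MidCfg E) :=
    hB'.inter ((isCompact_mid_cfg cE).image (hf j)).measurableSet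
  refine ⟨j, j', _, hS, ?_, fun x hx => ⟨hx.1.1.1, ?_, hx.2, hx.1.2⟩⟩
  · rw [Measure.map_apply (hf j).measurable hS]
    refine fun h => hj (measure_mono_null (fun x hx => ?_)
      (measure_union_null h (eta_mid_cfg cE hE)))
    by_cases hx' : x ∈ MidCfg E
    · exact Or.inl ⟨hx, x, hx', rfl⟩
    · exact Or.inr hx'
  · by_contra h
    exact hx.1.1.2 (subset_toMeasurable _ _ fun h' => h (h' hx.1.1.1))

theorem exists_cfg (F : Dif A) {ξ : Measure X} [IsProbabilityMeasure ξ] (hξ : Ergodic F.f ξ)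
    (hy : ∀ᵐ x ∂ξ, 0 < l1 (A.coc F.f) x ∧ l2 (A.coc F.f) x < 0) {ε K' c' : ℝ} (hc : 0 < c')
    {E E' : Set (Cv A ε)} (cE : IsClosed E) (cE' : IsClosed E')
    (uE : ∀ w ∈ E, UCur F.g K' c' w.pt) (uE' : ∀ w ∈ E', UCur F.g K' c' w.pt)
    {κ κ' : Measure (Cv A ε)} [IsFiniteMeasure κ] [IsFiniteMeasure κ'] (h0 : κ ≠ 0) (h0' : κ' ≠ 0)
    (hE : ∀ᵐ w ∂κ, w ∈ E) (hE' : ∀ᵐ w ∂κ', w ∈ E') (ac : eta κ ≪ ξ) (ac' : eta κ' ≪ ξ) :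
    ∃ (Λ : Set X) (x0 : X) (ρ K c ε0 : ℝ) (B : Box F Λ x0 ρ K c ε0) (τ : ℝ) (j j' : ℕ)
      (w1 w2 w3 : Cv A ε) (h1 h3 : ℝ → ℝ) (p p' y : X), w1 ∈ E' ∧ w2 ∈ E ∧ w3 ∈ E' ∧
      Cfg B τ (F.f^[j'] ∘ w1.pt) (F.f^[j] ∘ w2.pt) (F.f^[j'] ∘ w3.pt) h1 h3 p p' y := by
  have hm := hξ.toMeasurePreserving
  have ha : ∀ x, ξ {x} = 0 := fun x => by
    by_contra h
    obtain ⟨N, hN, hfix⟩ := ae_fix_of_atom hξ h
    exact not_ae_fix hc h0 (hE.mono uE) ac hN hfix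
  obtain ⟨Λs, hΛs, hae⟩ := pesin F ξ hm hc
  obtain ⟨l, hl⟩ : ∃ l, ξ (Λs l) ≠ 0 := by
    by_contra h
    push Not at h
    have h1 : ∀ᵐ x ∂ξ, x ∉ ⋃ l, Λs l := measure_eq_zero_iff_ae_notMem.1 (measure_iUnion_null h)
    obtain ⟨x, hx1, hx2, hx3⟩ := (h1.and (hae.and hy)).exists
    exact hx1 (mem_iUnion.2 (hx2 hx3.1 hx3.2))
  obtain ⟨hΛ, ρ, K, c, ε0, hρ, hK, -, hcc, hε0, hbox⟩ := hΛs l
  generalize Λs l = Λ at hl hΛ hbox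
  obtain ⟨j, j', S, hS, hS0, hSp⟩ := exists_set_cfg F hξ cE cE' h0 h0' hE hE' ac ac' hΛ hl
  obtain ⟨K1, hK1, hU1⟩ := UCur.iter (F := F) K' c' j hc.le
  obtain ⟨K2, -, hU2⟩ := UCur.iter (F := F) K' c' j' hc.le
  obtain ⟨β1, c1, hβ1, hβ1', hc1, harc⟩ := ucur_box A (c := c) hρ hK hε0
    (lt_max_of_lt_left hK1 : 0 < max K1 K2) (by norm_num : (0 : ℝ) < 1 / 3)
  have hK0 : 0 < K := by linarith
  obtain ⟨τ, hτ0, hτ1, hτ2, hτ3⟩ : ∃ τ : ℝ, 0 < τ ∧ τ ≤ ρ ∧ 3 * τ ≤ c1 * (β1 / 2) ∧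
      4 * K * τ ≤ ε0 := by
    refine ⟨min ρ (min (c1 * (β1 / 2) / 3) (ε0 / (4 * K))), by positivity, min_le_left _ _, ?_, ?_⟩
    · linarith [min_le_right ρ (min (c1 * (β1 / 2) / 3) (ε0 / (4 * K))),
        min_le_left (c1 * (β1 / 2) / 3) (ε0 / (4 * K))]
    · rw [← le_div_iff₀' (by positivity)]
      exact (min_le_right _ _).trans (min_le_right _ _)
  obtain ⟨x0, hx0, hB0⟩ := exists_ball_pos hS0 (γ := τ / (100 * K)) (by positivity)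
  obtain ⟨B⟩ := hbox x0 (hSp x0 hx0).1
  have hscale : ∀ (y y' : X) (d : ℝ), dist y y' ≤ d / (100 * K) → ‖B.Φ y - B.Φ y'‖ ≤ d / 100 := by
    intro y y' d h
    refine (B.norm_Φ_sub_le y y').trans ((mul_le_mul_of_nonneg_left h hK0.le).trans_eq ?_)
    field_simp
  have hin : ∀ x ∈ S ∩ closedBall x0 (τ / (100 * K)),
      In Λ x0 ρ K x ∧ Rec F.f Λ x ∧ ‖B.Φ x‖ ≤ τ / 100 := by
    intro x hx
    refine ⟨⟨(hSp x hx.1).1, (mem_closedBall.1 hx.2).trans ?_⟩, (hSp x hx.1).2.1, ?_⟩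
    · rw [div_le_div_iff₀ (by positivity) (by positivity)]
      nlinarith
    · have := hscale x x0 τ hx.2
      rwa [B.Φ_self, sub_zero] at this
  have arc : ∀ w ∈ E, ∀ t ∈ Icc (1 / 3 : ℝ) (1 - 1 / 3), In Λ x0 ρ K ((F.f^[j] ∘ w.pt) t) →
      ArcCfg B (β1 / 2) c1 (F.f^[j] ∘ w.pt) t := fun w hw t ht hx =>
    harc F Λ x0 B c' _ t _ hcc ((hU1 _ (uE w hw)).mono_cfg (le_max_left _ _)) ht hx
      (by linarith) (by linarith)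
  have arc' : ∀ w ∈ E', ∀ t ∈ Icc (1 / 3 : ℝ) (1 - 1 / 3), In Λ x0 ρ K ((F.f^[j'] ∘ w.pt) t) →
      ArcCfg B (β1 / 2) c1 (F.f^[j'] ∘ w.pt) t := fun w hw t ht hx =>
    harc F Λ x0 B c' _ t _ hcc ((hU2 _ (uE' w hw)).mono_cfg (le_max_right _ _)) ht hx
      (by linarith) (by linarith)
  have hfj : Measurable F.f^[j] := (F.smf.1.iterate j).measurable
  have hacj : (etaOn κ (Icc (1 / 3 : ℝ) (1 - 1 / 3))).map F.f^[j] ≪ ξ := by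
    have := (eta_ac_cfg ac).map hfj
    rwa [(hm.iterate j).map_eq] at this
  obtain ⟨S', hS', hsub, hnull, hsupp⟩ := exists_supp ξ
    (hS.inter (measurableSet_closedBall (x := x0) (ε := τ / (100 * K))))
  have hS0' : etaOn κ (Icc (1 / 3 : ℝ) (1 - 1 / 3)) (F.f^[j] ⁻¹' S') ≠ 0 := by
    rw [← Measure.map_apply hfj hS']
    exact fun h => hB0 (measure_mono_null (subset_sdiff_union _ S')
      (measure_union_null (hacj hnull) h))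
  obtain ⟨w, hw, hw0⟩ : ∃ w ∈ E,
      volume (w.pt ⁻¹' (F.f^[j] ⁻¹' S') ∩ Icc (1 / 3 : ℝ) (1 - 1 / 3)) ≠ 0 := by
    by_contra h
    push Not at h
    exact hS0' ((etaOn_eq_zero_iff (hfj hS')).2 (hE.mono h))
  obtain ⟨t0, ht0, ht0'⟩ := exists_real_pos hw0 (γ := β1 / 2) (by linarith)
  obtain ⟨t1, ht1, hne⟩ : ∃ t1 ∈ (w.pt ⁻¹' (F.f^[j] ⁻¹' S') ∩ Icc (1 / 3 : ℝ) (1 - 1 / 3)) ∩
      Icc (t0 - β1 / 2) (t0 + β1 / 2), t1 ≠ t0 := by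
    by_contra h
    push Not at h
    exact ht0' (measure_mono_null (fun t ht => h t ht) (Real.volume_singleton (a := t0)))
  have hx : In Λ x0 ρ K ((F.f^[j] ∘ w.pt) t0) := (hin _ (hsub ht0.1)).1
  obtain ⟨p, hp, p', hp', hlt, hs⟩ := pair_cfg (arc w hw t0 ht0.2 hx) (by linarith) hc1 hx ht1.2
    hne (S := S') ht0.1 ht1.1.1
  have hpi := hin p (hsub hp)
  have hpi' := hin p' (hsub hp')
  have hu : |((B.Φ p).1 + (B.Φ p').1) / 2| ≤ τ := by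
    have a1 : |(B.Φ p).1| ≤ τ / 100 := (norm_fst_le (B.Φ p)).trans hpi.2.2
    have a2 : |(B.Φ p').1| ≤ τ / 100 := (norm_fst_le (B.Φ p')).trans hpi'.2.2
    rw [abs_le] at a1 a2 ⊢
    constructor <;> linarith [a1.1, a1.2, a2.1, a2.2]
  obtain ⟨x1, hx1, x2, hx2, x3, hx3, h12, h23⟩ := three_cfg
    (hsupp p hp (((B.Φ p').1 - (B.Φ p).1) / (100 * K)) (div_pos (by linarith) (by positivity)))
    (fun x => B.wu x (((B.Φ p).1 + (B.Φ p').1) / 2)) (by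
      intro x hx
      refine measure_mono_null (fun z hz => ?_) (B.leaf_null hm ha (hin x hx.1).1)
      obtain ⟨iz, -, nz⟩ := hin z hz.1.1
      obtain ⟨ix, -, nx⟩ := hin x hx.1
      have a1 : |(B.Φ z).1| ≤ τ / 100 := (norm_fst_le (B.Φ z)).trans nz
      have a2 : |(B.Φ x).1| ≤ τ / 100 := (norm_fst_le (B.Φ x)).trans nx
      refine ⟨(B.in_norm iz).2, by linarith, ?_⟩
      rw [← B.wu_eq iz ix hτ1 hτ3 (by linarith) (by linarith) hu hz.2 _ (by linarith)]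
      exact (B.wu_self z iz).symm)
  obtain ⟨_, ⟨⟨w1, t1⟩, ⟨hw1, ht1⟩, rfl⟩, rfl⟩ := (hSp x1 hx1.1.1).2.2.2
  obtain ⟨_, ⟨⟨w2, t2⟩, ⟨hw2, ht2⟩, rfl⟩, rfl⟩ := (hSp x2 hx2.1.1).2.2.1
  obtain ⟨_, ⟨⟨w3, t3⟩, ⟨hw3, ht3⟩, rfl⟩, rfl⟩ := (hSp x3 hx3.1.1).2.2.2
  obtain ⟨i1, -, n1⟩ := hin _ hx1.1
  obtain ⟨i2, -, n2⟩ := hin _ hx2.1
  obtain ⟨i3, -, n3⟩ := hin _ hx3.1
  obtain ⟨y, hy⟩ := geo_cfg (arc' w1 hw1 t1 ht1 i1) (arc w2 hw2 t2 ht2 i2) (arc' w3 hw3 t3 ht3 i3)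
    (by linarith) ht1 ht2 ht3 hc1 hτ0 hτ1 hτ2 i1 i2 i3 n1 n2 n3 hpi hpi' hlt hs
    (hscale _ p _ hx2.2) h12 h23
  exact ⟨Λ, x0, ρ, K, c, ε0, B, τ, j, j', w1, w2, w3, _, _, p, p', y, hw1, hw2, hw3, hy⟩

end Pool.Agent.Lib.MP_e7c912_an
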