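import Pool.Agent.Lib.MP_e7c912_an.H60Loc1

/-! Bounded distortion and mean derivatives. -/

namespace Pool.Agent.Lib.MP_e7c912_an

open MeasureTheory Filter Metric Set Topology

variable {a b : ℕ → ℝ} {L η E : ℝ}

theorem coord_le_loc {M : V →L[ℝ] V} {a b η : ℝ} (hM : ‖M - diag a b‖ ≤ η) (z : V) :
    |(M z).1 - a * z.1| ≤ η * ‖z‖ ∧ |(M z).2 - b * z.2| ≤ η * ‖z‖ := by
  have h := ((M - diag a b).le_opNorm z).trans (mul_le_mul_of_nonneg_right hM (norm_nonneg z))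
  exact ⟨(norm_fst_le ((M - diag a b) z)).trans h, (norm_snd_le ((M - diag a b) z)).trans h⟩

theorem norm_one_loc {s : ℝ} (hs : |s| ≤ 1) : ‖((1, s) : V)‖ = 1 := by
  rw [Prod.norm_def, norm_one, Real.norm_eq_abs, max_eq_left hs]

theorem par_loc (hp : Par L η E) : 1 + 100 * η ≤ L ∧ L⁻¹ + 100 * η ≤ 1 ∧ 0 < L⁻¹ := by
  have h1 := hp.one_le
  have h2 := hp.pos
  have h3 := hp.h1
  have h4 : 0 < L⁻¹ := inv_pos.mpr (by linarith)
  have h5 : 1 ≤ E ^ 3 := one_le_pow₀ h1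
  refine ⟨by linarith, le_trans ?_ hp.h2, h4⟩
  exact le_mul_of_one_le_right (by linarith) h5

theorem img_loc {M : V →L[ℝ] V} {a b : ℝ} (ha : L ≤ |a|) (hb : |b| ≤ L⁻¹)
    (hM : ‖M - diag a b‖ ≤ η) {s : ℝ} (hs : |s| ≤ 1) :
    L - η ≤ |(M (1, s)).1| ∧ |(M (1, s)).2| ≤ L⁻¹ + η := by
  obtain ⟨h1, h2⟩ := coord_le_loc hM (1, s)
  rw [norm_one_loc hs, mul_one] at h1 h2
  simp only [mul_one] at h1 h2
  have h3 := abs_sub_abs_le_abs_sub a (M (1, s)).1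
  have h4 := abs_sub_abs_le_abs_sub (M (1, s)).2 (b * s)
  have h5 : |b * s| ≤ L⁻¹ := by
    rw [abs_mul]
    exact (mul_le_of_le_one_right (abs_nonneg b) hs).trans hb
  rw [abs_sub_comm] at h3
  constructor <;> linarith

theorem diff_loc {M M' : V →L[ℝ] V} {a b ε : ℝ} (hb : |b| ≤ L⁻¹)
    (hM : ‖M - diag a b‖ ≤ η) (hε : ‖M - M'‖ ≤ ε) (s : ℝ) {s' : ℝ} (hs' : |s'| ≤ 1) :
    |(M (1, s)).1 - (M' (1, s')).1| ≤ η * |s - s'| + ε ∧
      |(M (1, s)).2 - (M' (1, s')).2| ≤ (L⁻¹ + η) * |s - s'| + ε := by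
  obtain ⟨h1, h2⟩ := coord_le_loc hM (0, s - s')
  have h0 : ‖((0, s - s') : V)‖ = |s - s'| := by
    rw [Prod.norm_def, norm_zero, Real.norm_eq_abs, max_eq_right (abs_nonneg _)]
  rw [h0] at h1 h2
  simp only [mul_zero, sub_zero] at h1 h2
  have h3 := ((M - M').le_opNorm (1, s')).trans (mul_le_mul_of_nonneg_right hε (norm_nonneg _))
  rw [norm_one_loc hs', mul_one] at h3
  have h4 : |((M - M') (1, s')).1| ≤ ε := (norm_fst_le ((M - M') (1, s'))).trans h3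
  have h5 : |((M - M') (1, s')).2| ≤ ε := (norm_snd_le ((M - M') (1, s'))).trans h3
  have e : M (1, s) - M' (1, s') = M (0, s - s') + (M - M') (1, s') := by
    rw [sub_apply, ← add_sub_assoc, ← map_add]
    simp
  have e1 : (M (1, s)).1 - (M' (1, s')).1 = (M (0, s - s')).1 + ((M - M') (1, s')).1 :=
    congrArg Prod.fst e
  have e2 : (M (1, s)).2 - (M' (1, s')).2 = (M (0, s - s')).2 + ((M - M') (1, s')).2 :=
    congrArg Prod.snd e
  have h6 := abs_sub_abs_le_abs_sub (M (0, s - s')).2 (b * (s - s'))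
  have h7 : |b * (s - s')| ≤ L⁻¹ * |s - s'| := by
    rw [abs_mul]
    exact mul_le_mul_of_nonneg_right hb (abs_nonneg _)
  rw [e1, e2]
  exact ⟨(abs_add_le _ _).trans (by linarith), (abs_add_le _ _).trans (by linarith)⟩

theorem slope_loc {g g' h h' : ℝ} (hg : 1 ≤ |g|) (hg' : 1 ≤ |g'|) (hh : |h'| ≤ 1) :
    |h / g - h' / g'| ≤ |h - h'| + |g - g'| := by
  have g0 : g ≠ 0 := abs_pos.mp (by linarith)
  have g0' : g' ≠ 0 := abs_pos.mp (by linarith)
  have e : h / g - h' / g' = (h - h') / g - h' / g' * ((g - g') / g) := by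
    field_simp
    ring
  have h1 : ∀ x : ℝ, |x / g| ≤ |x| := fun x => by
    rw [abs_div]
    exact div_le_self (abs_nonneg x) hg
  have h2 : |h' / g'| ≤ 1 := by
    rw [abs_div]
    exact (div_le_self (abs_nonneg _) hg').trans hh
  rw [e]
  refine (abs_sub _ _).trans (add_le_add (h1 _) ?_)
  rw [abs_mul]
  exact (mul_le_of_le_one_left (abs_nonneg _) h2).trans (h1 _)

theorem split_loc {z : V} (h : |z.2| ≤ |z.1|) :
    |z.2 / z.1| ≤ 1 ∧ z = z.1 • ((1, z.2 / z.1) : V) := by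
  by_cases h0 : z.1 = 0
  · have h1 : z.2 = 0 := abs_nonpos_iff.mp (by simpa [h0] using h)
    exact ⟨by simp [h0], Prod.ext (by simp) (by simp [h0, h1])⟩
  · refine ⟨?_, Prod.ext (by simp) ?_⟩
    · rw [abs_div]
      exact div_le_one_of_le₀ h (abs_nonneg _)
    · simp only [Prod.smul_snd, smul_eq_mul]
      field_simp

/-- Bounded distortion for products of nearly diagonal matrices. -/
theorem linear_distortion (hp : Par L η E) {M M' : ℕ → V →L[ℝ] V} {ε : ℕ → ℝ} {n : ℕ} {S : ℝ}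
    (ha : ∀ k < n, L ≤ |a k|) (hb : ∀ k < n, |b k| ≤ L⁻¹)
    (hM : ∀ k < n, ‖M k - diag (a k) (b k)‖ ≤ η) (hM' : ∀ k < n, ‖M' k - diag (a k) (b k)‖ ≤ η)
    (hε : ∀ k < n, ‖M k - M' k‖ ≤ ε k) (hS : ∑ k ∈ Finset.range n, ε k ≤ S) {v v' : ℕ → V}
    (hv : ∀ k < n, v (k + 1) = M k (v k)) (hv' : ∀ k < n, v' (k + 1) = M' k (v' k))
    (c0 : |(v 0).2| ≤ |(v 0).1|) (c0' : |(v' 0).2| ≤ |(v' 0).1|) :
    ‖v n‖ * ‖v' 0‖ ≤ Real.exp (2 * (1 + S)) * (‖v' n‖ * ‖v 0‖) ∧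
      (L - η) ^ n * ‖v 0‖ ≤ ‖v n‖ := by
  obtain ⟨p1, p2, p3⟩ := par_loc hp
  have p4 := hp.pos
  have hn : ∀ (x s : ℝ), |s| ≤ 1 → ‖x • ((1, s) : V)‖ = |x| := fun x s hs => by
    rw [norm_smul, norm_one_loc hs, mul_one, Real.norm_eq_abs]
  have key : ∀ k ≤ n, ∃ x s x' s' : ℝ, |s| ≤ 1 ∧ |s'| ≤ 1 ∧ v k = x • (1, s) ∧
      v' k = x' • (1, s') ∧ |x| * ‖v' 0‖ ≤ Real.exp ((2 - |s - s'|) / 98 +
        100 / 98 * ∑ j ∈ Finset.range k, ε j) * (|x'| * ‖v 0‖) ∧ (L - η) ^ k * ‖v 0‖ ≤ |x| := by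
    intro k
    induction k with
    | zero =>
      intro _
      obtain ⟨h1, h2⟩ := split_loc c0
      obtain ⟨h1', h2'⟩ := split_loc c0'
      have e : ‖v 0‖ = |(v 0).1| := by rw [← hn _ _ h1, ← h2]
      have e' : ‖v' 0‖ = |(v' 0).1| := by rw [← hn _ _ h1', ← h2']
      refine ⟨_, _, _, _, h1, h1', h2, h2', ?_, by rw [pow_zero, one_mul, e]⟩
      rw [e, e', mul_comm]
      refine le_mul_of_one_le_left (by positivity) (Real.one_le_exp ?_)
      have := abs_sub ((v 0).2 / (v 0).1) ((v' 0).2 / (v' 0).1)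
      rw [Finset.sum_range_zero]
      linarith
    | succ k ih =>
      intro hk
      obtain ⟨x, s, x', s', hs, hs', e, e', h1, h2⟩ := ih (Nat.le_of_succ_le hk)
      obtain ⟨g1, g2⟩ := img_loc (ha k hk) (hb k hk) (hM k hk) hs
      obtain ⟨g1', g2'⟩ := img_loc (ha k hk) (hb k hk) (hM' k hk) hs'
      obtain ⟨d1, d2⟩ := diff_loc (hb k hk) (hM k hk) (hε k hk) s hs'
      obtain ⟨t1, t2⟩ := split_loc (z := M k (1, s)) (by linarith)
      obtain ⟨t1', t2'⟩ := split_loc (z := M' k (1, s')) (by linarith)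
      have d3 := slope_loc (g := (M k (1, s)).1) (g' := (M' k (1, s')).1) (h := (M k (1, s)).2)
        (h' := (M' k (1, s')).2) (by linarith) (by linarith) (by linarith)
      have ε0 : 0 ≤ ε k := (norm_nonneg _).trans (hε k hk)
      have D0 := abs_nonneg (s - s')
      refine ⟨x * (M k (1, s)).1, _, x' * (M' k (1, s')).1, _, t1, t1', ?_, ?_, ?_, ?_⟩
      · rw [hv k hk, e, map_smul, mul_smul, ← t2]
      · rw [hv' k hk, e', map_smul, mul_smul, ← t2']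
      · have q1 : |(M k (1, s)).1| ≤ Real.exp (η * |s - s'| + ε k) * |(M' k (1, s')).1| := by
          have q2 := Real.add_one_le_exp (η * |s - s'| + ε k)
          have q3 := abs_sub_abs_le_abs_sub (M k (1, s)).1 (M' k (1, s')).1
          have q4 : 0 ≤ η * |s - s'| + ε k := by positivity
          nlinarith [abs_nonneg (M' k (1, s')).1]
        calc |x * (M k (1, s)).1| * ‖v' 0‖ = |(M k (1, s)).1| * (|x| * ‖v' 0‖) := by
              rw [abs_mul]; ring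
          _ ≤ Real.exp (η * |s - s'| + ε k) * |(M' k (1, s')).1| * (Real.exp ((2 - |s - s'|) / 98 +
              100 / 98 * ∑ j ∈ Finset.range k, ε j) * (|x'| * ‖v 0‖)) :=
              mul_le_mul q1 h1 (by positivity) (by positivity)
          _ = Real.exp (η * |s - s'| + ε k + ((2 - |s - s'|) / 98 +
              100 / 98 * ∑ j ∈ Finset.range k, ε j)) * (|x' * (M' k (1, s')).1| * ‖v 0‖) := by
              rw [Real.exp_add (η * |s - s'| + ε k), abs_mul]; ring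
          _ ≤ _ := by
              refine mul_le_mul_of_nonneg_right (Real.exp_le_exp.mpr ?_) (by positivity)
              rw [Finset.sum_range_succ]
              nlinarith
      · rw [pow_succ, abs_mul, mul_right_comm]
        exact mul_le_mul h2 g1 (by linarith) (abs_nonneg _)
  obtain ⟨x, s, x', s', hs, hs', e, e', h1, h2⟩ := key n le_rfl
  rw [e, e', hn _ _ hs, hn _ _ hs']
  refine ⟨h1.trans (mul_le_mul_of_nonneg_right (Real.exp_le_exp.mpr ?_) (by positivity)), h2⟩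
  have h3 : 0 ≤ ∑ k ∈ Finset.range n, ε k :=
    Finset.sum_nonneg fun k hk => (norm_nonneg _).trans (hε k (Finset.mem_range.mp hk))
  linarith [abs_nonneg (s - s')]

/-- The mean derivative along a segment. -/
noncomputable def sec (DF : V → V →L[ℝ] V) (p p' : V) : V →L[ℝ] V :=
  ∫ t in (0 : ℝ)..1, DF (p + t • (p' - p))

theorem sec_spec {G : V → V} {DF : V → V →L[ℝ] V} {ρ Λ : ℝ}
    (hd : ∀ z, ‖z‖ ≤ ρ → HasFDerivAt G (DF z) z)
    (hl : ∀ z z', ‖z‖ ≤ ρ → ‖z'‖ ≤ ρ → ‖DF z - DF z'‖ ≤ Λ * ‖z - z'‖) (hΛ : 0 ≤ Λ) :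
    (∀ p p', ‖p‖ ≤ ρ → ‖p'‖ ≤ ρ → G p' - G p = sec DF p p' (p' - p)) ∧
    (∀ p p' q q', ‖p‖ ≤ ρ → ‖p'‖ ≤ ρ → ‖q‖ ≤ ρ → ‖q'‖ ≤ ρ →
      ‖sec DF p p' - sec DF q q'‖ ≤ Λ * max ‖p - q‖ ‖p' - q'‖) ∧
    ∀ p p', ‖p‖ ≤ ρ → ‖p'‖ ≤ ρ → ‖sec DF p p' - DF 0‖ ≤ Λ * ρ := by
  have hmax : ∀ (p p' : V), ∀ t ∈ Icc (0 : ℝ) 1, ‖p + t • (p' - p)‖ ≤ max ‖p‖ ‖p'‖ := by
    intro p p' t ht
    exact mem_closedBall_zero_iff.mp ((convex_closedBall (0 : V) (max ‖p‖ ‖p'‖)).add_smul_sub_mem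
      (mem_closedBall_zero_iff.mpr (le_max_left _ _))
      (mem_closedBall_zero_iff.mpr (le_max_right _ _)) ht)
  have hmem : ∀ p p' : V, ‖p‖ ≤ ρ → ‖p'‖ ≤ ρ → ∀ t ∈ Icc (0 : ℝ) 1, ‖p + t • (p' - p)‖ ≤ ρ :=
    fun p p' hp hp' t ht => (hmax p p' t ht).trans (max_le hp hp')
  have hc : ContinuousOn DF {z | ‖z‖ ≤ ρ} :=
    (LipschitzOnWith.of_dist_le_mul (K := ⟨Λ, hΛ⟩) fun z hz z' hz' => by
      rw [dist_eq_norm, dist_eq_norm]
      exact hl z z' hz hz').continuousOn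
  have hc' : ∀ p p' : V, ‖p‖ ≤ ρ → ‖p'‖ ≤ ρ →
      ContinuousOn (fun t : ℝ => DF (p + t • (p' - p))) (uIcc 0 1) := fun p p' hp hp' =>
    hc.comp (by fun_prop) fun t ht => hmem p p' hp hp' t (by simpa using ht)
  have h2 : ∀ p p' q q', ‖p‖ ≤ ρ → ‖p'‖ ≤ ρ → ‖q‖ ≤ ρ → ‖q'‖ ≤ ρ →
      ‖sec DF p p' - sec DF q q'‖ ≤ Λ * max ‖p - q‖ ‖p' - q'‖ := by
    intro p p' q q' hp hp' hq hq'
    rw [sec, sec, ← intervalIntegral.integral_sub (hc' p p' hp hp').intervalIntegrable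
      (hc' q q' hq hq').intervalIntegrable]
    refine (intervalIntegral.norm_integral_le_of_norm_le_const
      (C := Λ * max ‖p - q‖ ‖p' - q'‖) fun t ht => ?_).trans_eq (by simp)
    have ht' : t ∈ Icc (0 : ℝ) 1 := by
      rw [uIoc_of_le zero_le_one] at ht
      exact Ioc_subset_Icc_self ht
    refine (hl _ _ (hmem p p' hp hp' t ht') (hmem q q' hq hq' t ht')).trans
      (mul_le_mul_of_nonneg_left ((congrArg norm ?_).trans_le (hmax (p - q) (p' - q') t ht')) hΛ)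
    simp only [smul_sub]
    abel
  refine ⟨fun p p' hp hp' => ?_, h2, fun p p' hp hp' => ?_⟩
  · rw [sec, ContinuousLinearMap.intervalIntegral_apply (hc' p p' hp hp').intervalIntegrable,
      intervalIntegral.integral_eq_sub_of_hasDerivAt (f := fun t : ℝ => G (p + t • (p' - p)))]
    · simp
    · intro t ht
      refine (hd _ (hmem p p' hp hp' t (by simpa using ht))).comp_hasDerivAt t ?_
      simpa using ((hasDerivAt_id t).smul_const (p' - p)).const_add p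
    · exact ((hc' p p' hp hp').clm_apply continuousOn_const).intervalIntegrable
  · have h0 : ‖(0 : V)‖ ≤ ρ := norm_zero.trans_le ((norm_nonneg p).trans hp)
    have h3 := h2 p p' 0 0 hp hp' h0 h0
    have h4 : sec DF 0 0 = DF 0 := by simp [sec]
    rw [h4, sub_zero, sub_zero] at h3
    exact h3.trans (mul_le_mul_of_nonneg_left (max_le hp hp') hΛ)

end Pool.Agent.Lib.MP_e7c912_an
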