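import Pool.Agent.Lib.MP_e7c912_an.H60Ose

/-! Lyapunov change of coordinates. -/

namespace Pool.Agent.Lib.MP_e7c912_an

open MeasureTheory Filter Metric Set Topology
open scoped ENNReal

/-- On the invariant set `R` the matrices `C` diagonalise the cocycle, and `r` is a slowly varying
size smaller than `δ0 / ‖C⁻¹‖`. -/
structure Lyap {X : Type} [MeasurableSpace X] (T : X → X) (M : ℕ → X → V →L[ℝ] V)
    (K' χ δ δ0 : ℝ) where
  R : Set X
  C : X → V →L[ℝ] V
  Ci : X → V →L[ℝ] V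
  r : X → ℝ
  a : X → ℝ
  b : X → ℝ
  measR : MeasurableSet R
  inv : ∀ x, T x ∈ R ↔ x ∈ R
  measC : Measurable C
  measCi : Measurable Ci
  measr : Measurable r
  C_Ci : ∀ x ∈ R, ∀ v, C x (Ci x v) = v
  Ci_C : ∀ x ∈ R, ∀ v, Ci x (C x v) = v
  C_le : ∀ x ∈ R, ‖C x‖ ≤ 1
  r_pos : ∀ x ∈ R, 0 < r x
  r_Ci : ∀ x ∈ R, r x * ‖Ci x‖ ≤ δ0
  r_up : ∀ x ∈ R, r (T x) ≤ Real.exp δ * r x
  r_down : ∀ x ∈ R, r x ≤ Real.exp δ * r (T x)
  conj : ∀ x ∈ R, ∀ v, M 1 x (C x v) = C (T x) (diag (a x) (b x) v)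
  a_ge : ∀ x ∈ R, Real.exp χ ≤ |a x|
  a_le : ∀ x ∈ R, |a x| ≤ K'
  b_le : ∀ x ∈ R, |b x| ≤ Real.exp (-χ)
  b_ge : ∀ x ∈ R, 1 ≤ K' * |b x|

variable {X : Type} [MeasurableSpace X] {T S : X → X} {M M' : ℕ → X → V →L[ℝ] V} {K : ℝ}

/-- The expanding entries average to the top exponent. -/
def Lyap.Avg {K' χ δ δ0 : ℝ} (LY : Lyap T M K' χ δ δ0) : Prop :=
  ∀ x ∈ LY.R, Tendsto (fun n : ℕ => (∑ k ∈ Finset.range n, Real.log |LY.a (T^[k] x)|) / n) atTop
    (𝓝 (l1 M x))

/-- The matrix with given entries. -/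
noncomputable def mat_lyap (a b c d : ℝ) : V →L[ℝ] V :=
  a • (ContinuousLinearMap.inl ℝ ℝ ℝ).comp (ContinuousLinearMap.fst ℝ ℝ ℝ) +
    b • (ContinuousLinearMap.inl ℝ ℝ ℝ).comp (ContinuousLinearMap.snd ℝ ℝ ℝ) +
    c • (ContinuousLinearMap.inr ℝ ℝ ℝ).comp (ContinuousLinearMap.fst ℝ ℝ ℝ) +
    d • (ContinuousLinearMap.inr ℝ ℝ ℝ).comp (ContinuousLinearMap.snd ℝ ℝ ℝ)

theorem mat_apply_lyap (a b c d : ℝ) (v : V) :
    mat_lyap a b c d v = (a * v.1 + b * v.2, c * v.1 + d * v.2) := by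
  ext <;> simp [mat_lyap]

theorem measurable_mat_lyap {a b c d : X → ℝ} (ha : Measurable a) (hb : Measurable b)
    (hc : Measurable c) (hd : Measurable d) :
    Measurable fun x => mat_lyap (a x) (b x) (c x) (d x) := by
  unfold mat_lyap
  exact (((ha.smul_const _).add (hb.smul_const _)).add (hc.smul_const _)).add (hd.smul_const _)

theorem measurable_app_lyap {L : X → V →L[ℝ] V} {e : X → V} (hL : Measurable L)
    (he : Measurable e) : Measurable fun x => L x (e x) := by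
  have h : (fun x => L x (e x)) = fun x => (e x).1 • L x (1, 0) + (e x).2 • L x (0, 1) := by
    funext x
    rw [← map_smul, ← map_smul, ← map_add]
    congr 1
    ext <;> simp
  rw [h]
  exact (he.fst.smul (hL.apply_continuousLinearMap _)).add
    (he.snd.smul (hL.apply_continuousLinearMap _))

/-- The weighted sum of the norms along the orbit. -/
noncomputable def sN_lyap (χ : ℝ) (M : ℕ → X → V →L[ℝ] V) (e : X → V) (x : X) : ℝ :=
  ∑' n : ℕ, Real.exp (χ * n) * ‖M n x (e x)‖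

theorem measurable_sN_lyap (χ : ℝ) (hM : ∀ n, Measurable (M n)) {e : X → V} (he : Measurable e) :
    Measurable (sN_lyap χ M e) := by
  unfold sN_lyap
  exact Measurable.tsum fun n => measurable_const.mul (measurable_app_lyap (hM n) he).norm

theorem summable_lyap {u : ℕ → ℝ} (hu : ∀ n, 0 ≤ u n) {l χ : ℝ} (hl : l < -χ)
    (h : Tendsto (fun n : ℕ => Real.log (u n) / n) atTop (𝓝 l)) :
    Summable fun n : ℕ => Real.exp (χ * n) * u n := by
  set ε := (-χ - l) / 2 with hε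
  have hε0 : 0 < ε := by rw [hε]; linarith
  have hs : Summable fun n : ℕ => Real.exp (-ε) ^ n :=
    summable_geometric_of_lt_one (Real.exp_pos _).le (Real.exp_lt_one_iff.2 (by linarith))
  refine Summable.of_norm_bounded_eventually_nat hs ?_
  have h1 : ∀ᶠ n : ℕ in atTop, Real.log (u n) / n < -χ - ε :=
    h.eventually (gt_mem_nhds (by rw [hε]; linarith))
  filter_upwards [h1, eventually_gt_atTop 0] with n hn hn0
  have hn' : (0 : ℝ) < n := by exact_mod_cast hn0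
  rw [div_lt_iff₀ hn'] at hn
  rw [Real.norm_of_nonneg (mul_nonneg (Real.exp_pos _).le (hu n)), ← Real.exp_nat_mul]
  calc Real.exp (χ * n) * u n ≤ Real.exp (χ * n) * Real.exp (Real.log (u n)) :=
        mul_le_mul_of_nonneg_left (Real.le_exp_log _) (Real.exp_pos _).le
    _ = Real.exp (χ * n + Real.log (u n)) := (Real.exp_add _ _).symm
    _ ≤ _ := Real.exp_le_exp.2 (by nlinarith)

theorem sN_rec_lyap (h : Cocycle T S M M' K) {χ : ℝ} {e : X → V} {x : X} (he : ‖e x‖ = 1) {β : ℝ}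
    (hβ : M 1 x (e x) = β • e (T x))
    (hs : Summable fun n : ℕ => Real.exp (χ * n) * ‖M n x (e x)‖) :
    sN_lyap χ M e x = 1 + Real.exp χ * |β| * sN_lyap χ M e (T x) := by
  unfold sN_lyap
  rw [hs.tsum_eq_zero_add, ← tsum_mul_left]
  congr 1
  · simp [h.zero, he]
  · congr 1
    funext n
    rw [add_comm n 1, h.add 1 n x]
    simp only [Function.iterate_one, ContinuousLinearMap.comp_apply, hβ, map_smul, norm_smul,
      Real.norm_eq_abs]
    push_cast
    rw [mul_add, Real.exp_add, mul_one]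
    ring

omit [MeasurableSpace X] in
theorem sN_nonneg_lyap (χ : ℝ) (e : X → V) (x : X) : 0 ≤ sN_lyap χ M e x :=
  tsum_nonneg fun n => by positivity

/-- The slowly varying lower envelope of `q`. -/
noncomputable def rho_lyap (T S : X → X) (δ : ℝ) (q : X → ℝ) (x : X) : ℝ :=
  ⨅ n : ℕ, Real.exp (δ * n) * min (q (T^[n] x)) (q (S^[n] x))

omit [MeasurableSpace X] in
theorem rho_le_lyap {δ : ℝ} {q : X → ℝ} (hq : ∀ x, 0 ≤ q x) (x : X) (n : ℕ) :
    rho_lyap T S δ q x ≤ Real.exp (δ * n) * min (q (T^[n] x)) (q (S^[n] x)) := by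
  refine ciInf_le ⟨0, ?_⟩ n
  rintro _ ⟨k, rfl⟩
  exact mul_nonneg (Real.exp_pos _).le (le_min (hq _) (hq _))

omit [MeasurableSpace X] in
theorem rho_comm_lyap (δ : ℝ) (q : X → ℝ) (x : X) : rho_lyap T S δ q x = rho_lyap S T δ q x := by
  unfold rho_lyap
  simp only [min_comm]

omit [MeasurableSpace X] in
theorem rho_up_lyap (ST : ∀ x, S (T x) = x) {δ : ℝ} (hδ : 0 ≤ δ) {q : X → ℝ} (hq : ∀ x, 0 ≤ q x)
    (x : X) : rho_lyap T S δ q (T x) ≤ Real.exp δ * rho_lyap T S δ q x := by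
  rw [mul_comm, ← div_le_iff₀ (Real.exp_pos δ)]
  refine le_ciInf fun n => ?_
  rw [div_le_iff₀ (Real.exp_pos δ)]
  have h2 : ∀ k : ℕ, rho_lyap T S δ q (T x) ≤ Real.exp (δ * k) * q (S^[k] x) * Real.exp δ := by
    intro k
    refine (rho_le_lyap hq (T x) (k + 1)).trans ?_
    have : S^[k + 1] (T x) = S^[k] x := by rw [Function.iterate_succ_apply, ST]
    rw [this]
    push_cast
    rw [mul_add, Real.exp_add, mul_one, mul_right_comm]
    have := Real.exp_pos (δ * k)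
    have := Real.exp_pos δ
    gcongr
    exact min_le_right _ _
  have h1 : rho_lyap T S δ q (T x) ≤ Real.exp (δ * n) * q (T^[n] x) * Real.exp δ := by
    cases n with
    | zero => exact h2 0
    | succ k =>
      refine (rho_le_lyap hq (T x) k).trans ?_
      rw [Function.iterate_succ_apply]
      have h3 : Real.exp (δ * k) ≤ Real.exp (δ * ((k + 1 : ℕ) : ℝ)) :=
        Real.exp_le_exp.2 (by push_cast; nlinarith)
      have h4 : 1 ≤ Real.exp δ := Real.one_le_exp hδ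
      have h5 := hq (T^[k] (T x))
      have h6 := Real.exp_pos (δ * k)
      calc Real.exp (δ * k) * min (q (T^[k] (T x))) (q (S^[k] (T x)))
          ≤ Real.exp (δ * k) * q (T^[k] (T x)) := by
            gcongr
            exact min_le_left _ _
        _ ≤ Real.exp (δ * ((k + 1 : ℕ) : ℝ)) * q (T^[k] (T x)) * 1 := by
            rw [mul_one]
            gcongr
        _ ≤ _ := by
            have := Real.exp_pos (δ * ((k + 1 : ℕ) : ℝ))
            gcongr
  rcases min_choice (q (T^[n] x)) (q (S^[n] x)) with h | h <;> rw [h]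
  · exact h1
  · exact h2 n

theorem measurable_rho_lyap (hT : Measurable T) (hS : Measurable S) (δ : ℝ) {q : X → ℝ}
    (hq : Measurable q) : Measurable (rho_lyap T S δ q) :=
  Measurable.iInf fun n =>
    measurable_const.mul ((hq.comp (hT.iterate n)).min (hq.comp (hS.iterate n)))

theorem iInf_pos_lyap {f : ℕ → ℝ} (hf : ∀ n, 0 < f n) (h : ∀ᶠ n in atTop, 1 ≤ f n) :
    0 < ⨅ n, f n := by
  obtain ⟨N, hN⟩ := eventually_atTop.1 h
  have key : ∀ k : ℕ, ∃ c : ℝ, 0 < c ∧ c ≤ 1 ∧ ∀ n < k, c ≤ f n := by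
    intro k
    induction k with
    | zero => exact ⟨1, one_pos, le_rfl, fun n hn => absurd hn (Nat.not_lt_zero n)⟩
    | succ k ih =>
      obtain ⟨c, c0, c1, hc⟩ := ih
      refine ⟨min c (f k), lt_min c0 (hf k), (min_le_left _ _).trans c1, fun n hn => ?_⟩
      rcases Nat.lt_succ_iff_lt_or_eq.1 hn with h1 | h1
      · exact (min_le_left _ _).trans (hc n h1)
      · rw [h1]
        exact min_le_right _ _
  obtain ⟨c, c0, c1, hc⟩ := key N
  refine c0.trans_le (le_ciInf fun n => ?_)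
  rcases lt_or_ge n N with h1 | h1
  · exact hc n h1
  · exact c1.trans (hN n h1)

theorem one_le_exp_mul_lyap {u : ℕ → ℝ} (hu : ∀ n, 0 < u n) {δ : ℝ} (hδ : 0 < δ)
    (h : Tendsto (fun n : ℕ => Real.log (u n) / n) atTop (𝓝 0)) :
    ∀ᶠ n : ℕ in atTop, 1 ≤ Real.exp (δ * n) * (u n)⁻¹ := by
  filter_upwards [h.eventually (gt_mem_nhds hδ), eventually_gt_atTop 0] with n hn hn0
  have hn' : (0 : ℝ) < n := by exact_mod_cast hn0
  rw [div_lt_iff₀ hn'] at hn
  rw [← div_eq_mul_inv, one_le_div (hu n), ← Real.exp_log (hu n)]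
  exact Real.exp_le_exp.2 hn.le

omit [MeasurableSpace X] in
theorem rho_pos_lyap {δ : ℝ} (hδ : 0 < δ) {u : X → ℝ} {x : X} (h1 : ∀ n, 0 < u (T^[n] x))
    (h2 : ∀ n, 0 < u (S^[n] x))
    (t1 : Tendsto (fun n : ℕ => Real.log (u (T^[n] x)) / n) atTop (𝓝 0))
    (t2 : Tendsto (fun n : ℕ => Real.log (u (S^[n] x)) / n) atTop (𝓝 0)) :
    0 < rho_lyap T S δ (fun y => (u y)⁻¹) x := by
  refine iInf_pos_lyap (fun n => mul_pos (Real.exp_pos _)
    (lt_min (inv_pos.2 (h1 n)) (inv_pos.2 (h2 n)))) ?_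
  filter_upwards [one_le_exp_mul_lyap h1 hδ t1, one_le_exp_mul_lyap h2 hδ t2] with n a b
  rcases min_choice ((u (T^[n] x))⁻¹) ((u (S^[n] x))⁻¹) with h | h <;> rw [h]
  · exact a
  · exact b

/-- The hyperbolic splitting on an invariant set. -/
structure Dat_lyap (T : X → X) (M M' : ℕ → X → V →L[ℝ] V) (χ : ℝ) where
  R : Set X
  eu : X → V
  es : X → V
  al : X → ℝ
  be : X → ℝ
  measR : MeasurableSet R
  inv : ∀ x, T x ∈ R ↔ x ∈ R
  meu : Measurable eu
  mes : Measurable es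
  neu : ∀ x, ‖eu x‖ = 1
  nes : ∀ x, ‖es x‖ = 1
  ne : ∀ x ∈ R, om (eu x) (es x) ≠ 0
  hal : ∀ x ∈ R, M 1 x (eu x) = al x • eu (T x)
  hbe : ∀ x ∈ R, M 1 x (es x) = be x • es (T x)
  sumu : ∀ x ∈ R, Summable fun n : ℕ => Real.exp (χ * n) * ‖M' n x (eu x)‖
  sums : ∀ x ∈ R, Summable fun n : ℕ => Real.exp (χ * n) * ‖M n x (es x)‖
  fo : ∀ x ∈ R, Tendsto (fun n : ℕ => Real.log ‖M n x (eu x)‖ / n) atTop (𝓝 (l1 M x))

theorem inv_one_lyap (h : Cocycle T S M M' K) (x : X) (v : V) : M' 1 (T x) (M 1 x v) = v := by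
  have := congrArg (fun L : V →L[ℝ] V => L v) (h.inv 1 x)
  simpa using this

theorem inv_one'_lyap (h : Cocycle T S M M' K) (x : X) (v : V) : M 1 x (M' 1 (T x) v) = v := by
  have := inv_one_lyap h.symm (T x) v
  rwa [h.ST] at this

theorem scal_lyap (h : Cocycle T S M M' K) {x : X} {e e' : V} (he : ‖e‖ = 1) (he' : ‖e'‖ = 1)
    {β : ℝ} (hβ : M 1 x e = β • e') : |β| ≤ K ∧ 1 ≤ K * |β| := by
  have h1 : ‖M 1 x e‖ = |β| := by rw [hβ, norm_smul, he', mul_one, Real.norm_eq_abs]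
  constructor
  · rw [← h1]
    calc ‖M 1 x e‖ ≤ ‖M 1 x‖ * ‖e‖ := (M 1 x).le_opNorm e
      _ ≤ K := by rw [he, mul_one]; exact h.le x
  · rw [← h1]
    calc (1 : ℝ) = ‖M' 1 (T x) (M 1 x e)‖ := by rw [inv_one_lyap h, he]
      _ ≤ ‖M' 1 (T x)‖ * ‖M 1 x e‖ := (M' 1 (T x)).le_opNorm _
      _ ≤ K * ‖M 1 x e‖ := mul_le_mul_of_nonneg_right (h.le' _) (norm_nonneg _)

namespace Dat_lyap

variable {χ : ℝ} (D : Dat_lyap T M M' χ)

/-- Lyapunov norm of the unstable vector. -/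
noncomputable def su (x : X) : ℝ := sN_lyap χ M' D.eu x

/-- Lyapunov norm of the stable vector. -/
noncomputable def ss (x : X) : ℝ := sN_lyap χ M D.es x

/-- The change of coordinates. -/
noncomputable def C (x : X) : V →L[ℝ] V :=
  mat_lyap ((D.eu x).1 / (2 * D.su x)) ((D.es x).1 / (2 * D.ss x))
    ((D.eu x).2 / (2 * D.su x)) ((D.es x).2 / (2 * D.ss x))

/-- Its inverse. -/
noncomputable def Ci (x : X) : V →L[ℝ] V :=
  mat_lyap (2 * D.su x * (D.es x).2 / om (D.eu x) (D.es x))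
    (-(2 * D.su x * (D.es x).1) / om (D.eu x) (D.es x))
    (-(2 * D.ss x * (D.eu x).2) / om (D.eu x) (D.es x))
    (2 * D.ss x * (D.eu x).1 / om (D.eu x) (D.es x))

/-- The expanding entry. -/
noncomputable def a (x : X) : ℝ := D.al x * D.su (T x) / D.su x

/-- The contracting entry. -/
noncomputable def b (x : X) : ℝ := D.be x * D.ss (T x) / D.ss x

theorem iter {x : X} (hx : x ∈ D.R) (n : ℕ) : T^[n] x ∈ D.R := by
  induction n with
  | zero => exact hx
  | succ n ih => rw [Function.iterate_succ_apply', D.inv]; exact ih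

theorem invS (h : Cocycle T S M M' K) (x : X) : S x ∈ D.R ↔ x ∈ D.R := by
  rw [← D.inv, h.TS]

theorem iterS (h : Cocycle T S M M' K) {x : X} (hx : x ∈ D.R) (n : ℕ) : S^[n] x ∈ D.R := by
  induction n with
  | zero => exact hx
  | succ n ih => rw [Function.iterate_succ_apply', D.invS h]; exact ih

theorem al_bd (h : Cocycle T S M M' K) {x : X} (hx : x ∈ D.R) : |D.al x| ≤ K ∧ 1 ≤ K * |D.al x| :=
  scal_lyap h (D.neu _) (D.neu _) (D.hal x hx)

theorem be_bd (h : Cocycle T S M M' K) {x : X} (hx : x ∈ D.R) : |D.be x| ≤ K ∧ 1 ≤ K * |D.be x| :=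
  scal_lyap h (D.nes _) (D.nes _) (D.hbe x hx)

theorem al_ne (h : Cocycle T S M M' K) {x : X} (hx : x ∈ D.R) : D.al x ≠ 0 := by
  intro h0
  have := (D.al_bd h hx).2
  rw [h0, abs_zero, mul_zero] at this
  linarith

theorem ss_rec (h : Cocycle T S M M' K) {x : X} (hx : x ∈ D.R) :
    D.ss x = 1 + Real.exp χ * |D.be x| * D.ss (T x) :=
  sN_rec_lyap h (D.nes x) (D.hbe x hx) (D.sums x hx)

theorem su_rec (h : Cocycle T S M M' K) {x : X} (hx : x ∈ D.R) :
    D.su (T x) = 1 + Real.exp χ * |D.al x|⁻¹ * D.su x := by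
  have h1 : M' 1 (T x) (D.eu (T x)) = (D.al x)⁻¹ • D.eu (S (T x)) := by
    have h2 := inv_one_lyap h x (D.eu x)
    rw [D.hal x hx, map_smul] at h2
    rw [h.ST, ← h2, smul_smul, inv_mul_cancel₀ (D.al_ne h hx), one_smul]
  have := sN_rec_lyap h.symm (D.neu (T x)) h1 (D.sumu (T x) ((D.inv x).2 hx))
  rwa [h.ST, abs_inv] at this

theorem one_le_ss (h : Cocycle T S M M' K) {x : X} (hx : x ∈ D.R) : 1 ≤ D.ss x := by
  rw [D.ss_rec h hx]
  have : 0 ≤ D.ss (T x) := sN_nonneg_lyap _ _ _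
  have : 0 ≤ Real.exp χ * |D.be x| * D.ss (T x) := by positivity
  linarith

theorem one_le_su (h : Cocycle T S M M' K) {x : X} (hx : x ∈ D.R) : 1 ≤ D.su x := by
  have h1 := D.su_rec h ((D.invS h x).2 hx)
  rw [h.TS] at h1
  rw [h1]
  have : 0 ≤ D.su (S x) := sN_nonneg_lyap _ _ _
  have : 0 ≤ Real.exp χ * |D.al (S x)|⁻¹ * D.su (S x) := by positivity
  linarith

theorem measurable_C (h : Cocycle T S M M' K) : Measurable D.C := by
  have h1 : Measurable D.su := measurable_sN_lyap χ h.measM' D.meu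
  have h2 : Measurable D.ss := measurable_sN_lyap χ h.measM D.mes
  exact measurable_mat_lyap (D.meu.fst.div (h1.const_mul 2)) (D.mes.fst.div (h2.const_mul 2))
    (D.meu.snd.div (h1.const_mul 2)) (D.mes.snd.div (h2.const_mul 2))

theorem measurable_Ci (h : Cocycle T S M M' K) : Measurable D.Ci := by
  have h1 : Measurable D.su := measurable_sN_lyap χ h.measM' D.meu
  have h2 : Measurable D.ss := measurable_sN_lyap χ h.measM D.mes
  have h3 : Measurable fun x => om (D.eu x) (D.es x) :=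
    (D.meu.fst.mul D.mes.snd).sub (D.meu.snd.mul D.mes.fst)
  exact measurable_mat_lyap (((h1.const_mul 2).mul D.mes.snd).div h3)
    (((h1.const_mul 2).mul D.mes.fst).neg.div h3) (((h2.const_mul 2).mul D.meu.snd).neg.div h3)
    (((h2.const_mul 2).mul D.meu.fst).div h3)

theorem C_apply (x : X) (v : V) :
    D.C x v = (v.1 / (2 * D.su x)) • D.eu x + (v.2 / (2 * D.ss x)) • D.es x := by
  rw [C, mat_apply_lyap]
  ext <;> simp <;> ring

theorem C_Ci (h : Cocycle T S M M' K) {x : X} (hx : x ∈ D.R) (v : V) : D.C x (D.Ci x v) = v := by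
  have h1 : D.su x ≠ 0 := by linarith [D.one_le_su h hx]
  have h2 : D.ss x ≠ 0 := by linarith [D.one_le_ss h hx]
  have h3 := D.ne x hx
  rw [C, Ci, mat_apply_lyap, mat_apply_lyap]
  ext
  · simp only
    field_simp
    unfold om
    ring
  · simp only
    field_simp
    unfold om
    ring

theorem Ci_C (h : Cocycle T S M M' K) {x : X} (hx : x ∈ D.R) (v : V) : D.Ci x (D.C x v) = v := by
  have h1 : D.su x ≠ 0 := by linarith [D.one_le_su h hx]
  have h2 : D.ss x ≠ 0 := by linarith [D.one_le_ss h hx]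
  have h3 := D.ne x hx
  rw [C, Ci, mat_apply_lyap, mat_apply_lyap]
  ext
  · simp only
    field_simp
    unfold om
    ring
  · simp only
    field_simp
    unfold om
    ring

theorem C_le (h : Cocycle T S M M' K) {x : X} (hx : x ∈ D.R) : ‖D.C x‖ ≤ 1 := by
  refine ContinuousLinearMap.opNorm_le_bound _ zero_le_one fun v => ?_
  have h1 := D.one_le_su h hx
  have h2 := D.one_le_ss h hx
  have key : ∀ t s : ℝ, 1 ≤ s → |t| ≤ ‖v‖ → |t / (2 * s)| ≤ ‖v‖ / 2 := by
    intro t s hs ht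
    rw [abs_div, abs_of_pos (by linarith : 0 < 2 * s)]
    have := norm_nonneg v
    gcongr
    linarith
  rw [D.C_apply]
  refine (norm_add_le _ _).trans ?_
  rw [norm_smul, norm_smul, D.neu, D.nes, Real.norm_eq_abs, Real.norm_eq_abs]
  have h3 := key v.1 _ h1 (norm_fst_le v)
  have h4 := key v.2 _ h2 (norm_snd_le v)
  linarith

theorem conj (h : Cocycle T S M M' K) {x : X} (hx : x ∈ D.R) (v : V) :
    M 1 x (D.C x v) = D.C (T x) (diag (D.a x) (D.b x) v) := by
  have hx' := (D.inv x).2 hx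
  have h1 : D.su x ≠ 0 := by linarith [D.one_le_su h hx]
  have h2 : D.ss x ≠ 0 := by linarith [D.one_le_ss h hx]
  have h3 : D.su (T x) ≠ 0 := by linarith [D.one_le_su h hx']
  have h4 : D.ss (T x) ≠ 0 := by linarith [D.one_le_ss h hx']
  rw [D.C_apply, D.C_apply, map_add, map_smul, map_smul, D.hal x hx, D.hbe x hx, smul_smul,
    smul_smul, diag_apply]
  congr 2
  · unfold a
    field_simp
  · unfold b
    field_simp

theorem abs_a (h : Cocycle T S M M' K) {x : X} (hx : x ∈ D.R) :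
    |D.a x| = |D.al x| / D.su x + Real.exp χ := by
  have h1 := D.one_le_su h hx
  have h3 := D.one_le_su h ((D.inv x).2 hx)
  have h5 : |D.al x| ≠ 0 := abs_ne_zero.2 (D.al_ne h hx)
  unfold a
  rw [abs_div, abs_mul, abs_of_pos (by linarith : 0 < D.su x),
    abs_of_pos (by linarith : 0 < D.su (T x)), D.su_rec h hx]
  field_simp

theorem a_ge (h : Cocycle T S M M' K) {x : X} (hx : x ∈ D.R) : Real.exp χ ≤ |D.a x| := by
  rw [D.abs_a h hx]
  have h1 := D.one_le_su h hx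
  have : 0 ≤ |D.al x| / D.su x := by positivity
  linarith

theorem a_le (h : Cocycle T S M M' K) {x : X} (hx : x ∈ D.R) : |D.a x| ≤ K + Real.exp χ := by
  rw [D.abs_a h hx]
  have h1 := D.one_le_su h hx
  have : |D.al x| / D.su x ≤ |D.al x| := div_le_self (abs_nonneg _) h1
  linarith [(D.al_bd h hx).1]

theorem abs_b (h : Cocycle T S M M' K) {x : X} (hx : x ∈ D.R) :
    |D.b x| = |D.be x| * D.ss (T x) / D.ss x := by
  have h1 := D.one_le_ss h hx
  have h3 := D.one_le_ss h ((D.inv x).2 hx)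
  unfold b
  rw [abs_div, abs_mul, abs_of_pos (by linarith : 0 < D.ss x),
    abs_of_pos (by linarith : 0 < D.ss (T x))]

theorem b_le (h : Cocycle T S M M' K) {x : X} (hx : x ∈ D.R) : |D.b x| ≤ Real.exp (-χ) := by
  have h1 := D.one_le_ss h hx
  rw [D.abs_b h hx, div_le_iff₀ (by linarith), D.ss_rec h hx, mul_add, mul_assoc, ← mul_assoc,
    ← Real.exp_add, neg_add_cancel, Real.exp_zero]
  have := Real.exp_pos (-χ)
  linarith

theorem b_ge (h : Cocycle T S M M' K) {x : X} (hx : x ∈ D.R) :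
    1 ≤ (K + Real.exp χ) * |D.b x| := by
  have h1 := D.one_le_ss h hx
  have h3 := D.one_le_ss h ((D.inv x).2 hx)
  have h4 := (D.be_bd h hx).2
  rw [D.abs_b h hx, ← mul_div_assoc, one_le_div (by linarith), D.ss_rec h hx]
  nlinarith

theorem su_le (h : Cocycle T S M M' K) {x : X} (hx : x ∈ D.R) : D.su x ≤ ‖D.Ci x‖ := by
  have h1 := D.one_le_su h hx
  have h2 : D.C x (2 * D.su x, 0) = D.eu x := by
    rw [D.C_apply]
    simp only [zero_div, zero_smul, add_zero]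
    rw [div_self (by linarith), one_smul]
  have h3 := (D.Ci x).le_opNorm (D.eu x)
  rw [D.neu, mul_one, ← h2, D.Ci_C h hx] at h3
  have h4 := norm_fst_le ((2 * D.su x, 0) : V)
  simp only [Real.norm_eq_abs] at h4
  rw [abs_of_pos (by linarith)] at h4
  linarith

theorem Ci_pos (h : Cocycle T S M M' K) {x : X} (hx : x ∈ D.R) : 0 < ‖D.Ci x‖ := by
  linarith [D.su_le h hx, D.one_le_su h hx]

theorem Ci_up (h : Cocycle T S M M' K) (hχ : 0 < χ) {x : X} (hx : x ∈ D.R) :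
    ‖D.Ci (T x)‖ ≤ (K + Real.exp χ) * K * ‖D.Ci x‖ := by
  have hK := h.one_le
  have he := Real.exp_pos χ
  refine ContinuousLinearMap.opNorm_le_bound _ (by positivity) fun w => ?_
  have h1 : D.Ci (T x) w = diag (D.a x) (D.b x) (D.Ci x (M' 1 (T x) w)) := by
    rw [← D.Ci_C h ((D.inv x).2 hx) (diag _ _ _), ← D.conj h hx, D.C_Ci h hx, inv_one'_lyap h]
  have h2 : ∀ v : V, ‖diag (D.a x) (D.b x) v‖ ≤ (K + Real.exp χ) * ‖v‖ := by
    intro v
    rw [diag_apply, Prod.norm_def, max_le_iff, norm_mul, norm_mul]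
    have hb : |D.b x| ≤ K + Real.exp χ :=
      (D.b_le h hx).trans (by linarith [Real.exp_le_one_iff.2 (by linarith : -χ ≤ 0)])
    exact ⟨mul_le_mul (D.a_le h hx) (norm_fst_le v) (norm_nonneg _) (by positivity),
      mul_le_mul hb (norm_snd_le v) (norm_nonneg _) (by positivity)⟩
  rw [h1]
  refine (h2 _).trans ?_
  have h3 := (D.Ci x).le_opNorm (M' 1 (T x) w)
  have h4 : ‖M' 1 (T x) w‖ ≤ K * ‖w‖ :=
    ((M' 1 (T x)).le_opNorm w).trans (mul_le_mul_of_nonneg_right (h.le' _) (norm_nonneg _))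
  calc _ ≤ (K + Real.exp χ) * (‖D.Ci x‖ * (K * ‖w‖)) := by
        gcongr
        exact h3.trans (by gcongr)
    _ = _ := by ring

theorem Ci_down (h : Cocycle T S M M' K) (hχ : 0 < χ) {x : X} (hx : x ∈ D.R) :
    ‖D.Ci x‖ ≤ (K + Real.exp χ) * K * ‖D.Ci (T x)‖ := by
  have hK := h.one_le
  have he := Real.exp_pos χ
  refine ContinuousLinearMap.opNorm_le_bound _ (by positivity) fun w => ?_
  have h1 : D.Ci (T x) (M 1 x w) = diag (D.a x) (D.b x) (D.Ci x w) := by
    rw [← D.Ci_C h ((D.inv x).2 hx) (diag _ _ _), ← D.conj h hx, D.C_Ci h hx]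
  have h2 : ∀ v : V, ‖v‖ ≤ (K + Real.exp χ) * ‖diag (D.a x) (D.b x) v‖ := by
    intro v
    have ha : 1 ≤ (K + Real.exp χ) * |D.a x| := by
      have := D.a_ge h hx
      have := Real.one_le_exp hχ.le
      nlinarith
    have hb := D.b_ge h hx
    have h5 := norm_fst_le (diag (D.a x) (D.b x) v)
    have h6 := norm_snd_le (diag (D.a x) (D.b x) v)
    rw [diag_apply] at h5 h6
    simp only [norm_mul, Real.norm_eq_abs] at h5 h6
    rw [diag_apply, Prod.norm_def v, max_le_iff, Real.norm_eq_abs, Real.norm_eq_abs]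
    constructor
    · calc |v.1| ≤ (K + Real.exp χ) * |D.a x| * |v.1| := le_mul_of_one_le_left (abs_nonneg _) ha
        _ = (K + Real.exp χ) * (|D.a x| * |v.1|) := by ring
        _ ≤ _ := by gcongr
    · calc |v.2| ≤ (K + Real.exp χ) * |D.b x| * |v.2| := le_mul_of_one_le_left (abs_nonneg _) hb
        _ = (K + Real.exp χ) * (|D.b x| * |v.2|) := by ring
        _ ≤ _ := by gcongr
  refine (h2 _).trans ?_
  rw [← h1]
  have h3 := (D.Ci (T x)).le_opNorm (M 1 x w)
  have h4 : ‖M 1 x w‖ ≤ K * ‖w‖ :=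
    ((M 1 x).le_opNorm w).trans (mul_le_mul_of_nonneg_right (h.le _) (norm_nonneg _))
  calc _ ≤ (K + Real.exp χ) * (‖D.Ci (T x)‖ * (K * ‖w‖)) := by
        gcongr
        exact h3.trans (by gcongr)
    _ = _ := by ring

theorem log_step (h : Cocycle T S M M' K) (hχ : 0 < χ) {x : X} (hx : x ∈ D.R) :
    |Real.log ‖D.Ci (T x)‖ - Real.log ‖D.Ci x‖| ≤ Real.log ((K + Real.exp χ) * K) := by
  have hK := h.one_le
  have he := Real.exp_pos χ
  have h1 := D.Ci_pos h hx
  have h2 := D.Ci_pos h ((D.inv x).2 hx)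
  have h3 := Real.log_le_log h2 (D.Ci_up h hχ hx)
  have h4 := Real.log_le_log h1 (D.Ci_down h hχ hx)
  rw [Real.log_mul (by positivity) h1.ne'] at h3
  rw [Real.log_mul (by positivity) h2.ne'] at h4
  rw [abs_le]
  constructor <;> linarith

theorem sum_log (h : Cocycle T S M M' K) {x : X} (hx : x ∈ D.R) (n : ℕ) :
    ∃ s : ℝ, s ≠ 0 ∧ M n x (D.eu x) = s • D.eu (T^[n] x) ∧
      ∑ k ∈ Finset.range n, Real.log |D.a (T^[k] x)| =
        Real.log |s| + Real.log (D.su (T^[n] x)) - Real.log (D.su x) := by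
  induction n with
  | zero => exact ⟨1, one_ne_zero, by simp [h.zero], by simp⟩
  | succ n ih =>
    obtain ⟨s, s0, hs, hsum⟩ := ih
    have hn := D.iter hx n
    have h1 := D.one_le_su h hn
    have h2 := D.one_le_su h ((D.inv _).2 hn)
    have h3 := D.al_ne h hn
    refine ⟨s * D.al (T^[n] x), mul_ne_zero s0 h3, ?_, ?_⟩
    · rw [h.add n 1 x, ContinuousLinearMap.comp_apply, hs, map_smul, D.hal _ hn, smul_smul,
        Function.iterate_succ_apply']
    · rw [Finset.sum_range_succ, hsum, Function.iterate_succ_apply']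
      simp only [Real.log_abs]
      unfold a
      rw [Real.log_div (mul_ne_zero h3 (by linarith)) (by linarith),
        Real.log_mul h3 (by linarith), Real.log_mul s0 h3]
      ring

theorem avg (h : Cocycle T S M M' K) {x : X} (hx : x ∈ D.R)
    (ht : Tendsto (fun n : ℕ => Real.log ‖D.Ci (T^[n] x)‖ / n) atTop (𝓝 0)) :
    Tendsto (fun n : ℕ => (∑ k ∈ Finset.range n, Real.log |D.a (T^[k] x)|) / n) atTop
      (𝓝 (l1 M x)) := by
  have h1 : Tendsto (fun n : ℕ => Real.log (D.su (T^[n] x)) / n) atTop (𝓝 0) := by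
    refine squeeze_zero (fun n => ?_) (fun n => ?_) ht
    · exact div_nonneg (Real.log_nonneg (D.one_le_su h (D.iter hx n))) (Nat.cast_nonneg n)
    · have := D.one_le_su h (D.iter hx n)
      exact div_le_div_of_nonneg_right (Real.log_le_log (by linarith) (D.su_le h (D.iter hx n)))
        (Nat.cast_nonneg n)
  have h2 := ((D.fo x hx).add h1).sub (tendsto_const_div_atTop_nhds_zero_nat (Real.log (D.su x)))
  rw [add_zero, sub_zero] at h2
  refine h2.congr fun n => ?_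
  obtain ⟨s, -, hs, hsum⟩ := D.sum_log h hx n
  rw [hsum, hs, norm_smul, D.neu, mul_one, Real.norm_eq_abs]
  ring

end Dat_lyap

theorem exists_dat_lyap (h : Cocycle T S M M' K) (μ : Measure X) [IsFiniteMeasure μ]
    (hT : MeasurePreserving T μ μ) {χ : ℝ} (hχ : 0 < χ) :
    ∃ D : Dat_lyap T M M' χ, ∀ᵐ x ∂μ, χ < l1 M x → l2 M x < -χ → x ∈ D.R := by
  obtain ⟨eu, es, meu, mes, hn, hreg⟩ := oseledets h μ hT
  obtain ⟨G, mG, iG, aG, pG⟩ := exists_inv_full hT h.measS h.ST h.TS hreg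
  have hal : ∀ x, ∃ s : ℝ, x ∈ G → l2 M x < l1 M x → M 1 x (eu x) = s • eu (T x) := by
    intro x
    by_cases hx : x ∈ G ∧ l2 M x < l1 M x
    · obtain ⟨s, -, hs⟩ := parallel_of_om (hn (T x)).1 ((pG x hx.1).inv_u hx.2)
      exact ⟨s, fun _ _ => hs⟩
    · exact ⟨0, fun a b => absurd ⟨a, b⟩ hx⟩
  have hbe : ∀ x, ∃ s : ℝ, x ∈ G → l2 M x < l1 M x → M 1 x (es x) = s • es (T x) := by
    intro x
    by_cases hx : x ∈ G ∧ l2 M x < l1 M x
    · obtain ⟨s, -, hs⟩ := parallel_of_om (hn (T x)).2 ((pG x hx.1).inv_s hx.2)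
      exact ⟨s, fun _ _ => hs⟩
    · exact ⟨0, fun a b => absurd ⟨a, b⟩ hx⟩
  choose al hal using hal
  choose be hbe using hbe
  have hlt : ∀ x ∈ G ∩ ({x | χ < l1 M x} ∩ {x | l2 M x < -χ}), l2 M x < l1 M x := by
    intro x hx
    have h1 : χ < l1 M x := hx.2.1
    have h2 : l2 M x < -χ := hx.2.2
    linarith
  refine ⟨⟨G ∩ ({x | χ < l1 M x} ∩ {x | l2 M x < -χ}), eu, es, al, be,
    mG.inter ((measurableSet_lt measurable_const h.measurable_l1).inter
      (measurableSet_lt h.measurable_l2 measurable_const)), fun x => ?_, meu, mes,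
    fun x => (hn x).1, fun x => (hn x).2, fun x hx => (pG x hx.1).ne (hlt x hx),
    fun x hx => hal x hx.1 (hlt x hx), fun x hx => hbe x hx.1 (hlt x hx), fun x hx => ?_,
    fun x hx => ?_, fun x hx => (pG x hx.1).fo (hlt x hx) _ ((pG x hx.1).ne (hlt x hx))⟩, ?_⟩
  · simp only [mem_inter_iff, mem_ofPred_eq, iG, h.l1_comp, h.l2_comp]
  · exact summable_lyap (fun n => norm_nonneg _) (neg_lt_neg hx.2.1) ((pG x hx.1).bu (hlt x hx))
  · exact summable_lyap (fun n => norm_nonneg _) hx.2.2 ((pG x hx.1).fs (hlt x hx))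
  · filter_upwards [aG] with x hx h1 h2
    exact ⟨hx, h1, h2⟩

theorem exists_lyap (h : Cocycle T S M M' K) (μ : Measure X) [IsFiniteMeasure μ]
    (hT : MeasurePreserving T μ μ) {χ δ δ0 : ℝ} (hχ : 0 < χ) (hδ : 0 < δ) (hδ0 : 0 < δ0) :
    ∃ LY : Lyap T M (K + Real.exp χ) χ δ δ0, LY.Avg ∧
      ∀ᵐ x ∂μ, χ < l1 M x → l2 M x < -χ → x ∈ LY.R := by
  obtain ⟨D, hD⟩ := exists_dat_lyap h μ hT hχ
  have hS := measurePreserving_inv hT h.measS h.ST
  have mψ : Measurable fun x => Real.log ‖D.Ci x‖ := (D.measurable_Ci h).norm.log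
  have t1 := tempered hT mψ D.measR D.inv fun x hx => D.log_step h hχ hx
  have t2 := tempered (C := Real.log ((K + Real.exp χ) * K)) hS mψ D.measR (D.invS h)
    fun x hx => by
      have := D.log_step h hχ ((D.invS h x).2 hx)
      rwa [h.TS, abs_sub_comm] at this
  obtain ⟨G, mG, iG, aG, pG⟩ := exists_inv_full hT h.measS h.ST h.TS (t1.and t2)
  have hq : ∀ x, 0 ≤ ‖D.Ci x‖⁻¹ := fun x => inv_nonneg.2 (norm_nonneg _)
  refine ⟨⟨D.R ∩ G, D.C, D.Ci, fun x => δ0 * rho_lyap T S δ (fun y => ‖D.Ci y‖⁻¹) x, D.a, D.b,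
    D.measR.inter mG, fun x => ?_, D.measurable_C h, D.measurable_Ci h,
    (measurable_rho_lyap h.measT h.measS δ (D.measurable_Ci h).norm.inv).const_mul δ0,
    fun x hx => D.C_Ci h hx.1, fun x hx => D.Ci_C h hx.1, fun x hx => D.C_le h hx.1,
    fun x hx => ?_, fun x hx => ?_, fun x _ => ?_, fun x _ => ?_, fun x hx => D.conj h hx.1,
    fun x hx => D.a_ge h hx.1, fun x hx => D.a_le h hx.1, fun x hx => D.b_le h hx.1,
    fun x hx => D.b_ge h hx.1⟩, fun x hx => D.avg h hx.1 ((pG x hx.2).1 hx.1), ?_⟩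
  · simp only [mem_inter_iff, iG, D.inv]
  · exact mul_pos hδ0 (rho_pos_lyap (u := fun y => ‖D.Ci y‖) hδ
      (fun n => D.Ci_pos h (D.iter hx.1 n)) (fun n => D.Ci_pos h (D.iterS h hx.1 n))
      ((pG x hx.2).1 hx.1) ((pG x hx.2).2 hx.1))
  · have h1 := rho_le_lyap (T := T) (S := S) (δ := δ) hq x 0
    simp only [Nat.cast_zero, mul_zero, Real.exp_zero, Function.iterate_zero, id, min_self,
      one_mul] at h1
    have h2 := D.Ci_pos h hx.1
    calc δ0 * rho_lyap T S δ (fun y => ‖D.Ci y‖⁻¹) x * ‖D.Ci x‖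
        ≤ δ0 * ‖D.Ci x‖⁻¹ * ‖D.Ci x‖ := by gcongr
      _ = δ0 := by field_simp
  · have h1 := rho_up_lyap h.ST hδ.le hq x
    calc δ0 * rho_lyap T S δ (fun y => ‖D.Ci y‖⁻¹) (T x)
        ≤ δ0 * (Real.exp δ * rho_lyap T S δ (fun y => ‖D.Ci y‖⁻¹) x) := by gcongr
      _ = _ := by ring
  · have h1 := rho_up_lyap h.TS hδ.le hq (T x)
    rw [h.ST, rho_comm_lyap, rho_comm_lyap (T := S)] at h1
    calc δ0 * rho_lyap T S δ (fun y => ‖D.Ci y‖⁻¹) x
        ≤ δ0 * (Real.exp δ * rho_lyap T S δ (fun y => ‖D.Ci y‖⁻¹) (T x)) := by gcongr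
      _ = _ := by ring
  · filter_upwards [hD, aG] with x h1 h2 h3 h4
    exact ⟨h1 h3 h4, h2⟩

end Pool.Agent.Lib.MP_e7c912_an
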