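import Pool.Agent.Lib.MP_e7c912_an.H60Calc
import Pool.Agent.Lib.MP_e7c912_an.H60Lyap
import Pool.Agent.Lib.MP_e7c912_an.H60Loc

/-! Lyapunov charts along orbits. -/

namespace Pool.Agent.Lib.MP_e7c912_an

open MeasureTheory Filter Metric Set Topology
open scoped ENNReal

variable {X : Type} [MetricSpace X] [MeasurableSpace X] {A : Atlas X}

/-- Affine coordinates centred at `x0`. -/
noncomputable def Atlas.Phi (A : Atlas X) (i : Fin A.m) (Ci : V →L[ℝ] V) (x0 y : X) : V :=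
  Ci (A.φ i y - A.φ i x0)

/-- The inverse parametrisation. -/
noncomputable def Atlas.Psi (A : Atlas X) (i : Fin A.m) (C : V →L[ℝ] V) (x0 : X) (z : V) : X :=
  A.ψ i (A.φ i x0 + C z)

/-- Smallness conditions on the constants. -/
structure Adm (F : Dif A) (K' χ δ δ0 η K2 : ℝ) : Prop where
  par : Par (Real.exp χ) η (Real.exp (2 * δ))
  δ_pos : 0 < δ
  one_le' : 1 ≤ K'
  one_le2 : 1 ≤ K2
  regf : A.Reg 2 K2 F.f
  regg : A.Reg 2 K2 F.g
  δ0_pos : 0 < δ0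
  small1 : 4 * K2 * Real.exp δ * δ0 ≤ η
  small2 : 4 * A.K * K2 * δ0 ≤ A.ρ

theorem Adm.symm {F : Dif A} {K' χ δ δ0 η K2 : ℝ} (h : Adm F K' χ δ δ0 η K2) :
    Adm F.symm K' χ δ δ0 η K2 :=
  ⟨h.par, h.δ_pos, h.one_le', h.one_le2, h.regg, h.regf, h.δ0_pos, h.small1, h.small2⟩

namespace Lyap

variable {F : Dif A} {K' χ δ δ0 η K2 : ℝ} (LY : Lyap F.f (A.coc F.f) K' χ δ δ0)

/-- The chart at `x`. -/
noncomputable def Φ (x y : X) : V := A.Phi (A.idx x) (LY.Ci x) x y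

/-- The parametrisation at `x`. -/
noncomputable def Ψ (x : X) (z : V) : X := A.Psi (A.idx x) (LY.C x) x z

/-- The map `g` read in the charts at `x` and `x'`. -/
noncomputable def Fc (g : X → X) (x x' : X) (z : V) : V := LY.Φ x' (g (LY.Ψ x z))

/-- Its derivative. -/
noncomputable def DFc (g : X → X) (x x' : X) (z : V) : V →L[ℝ] V :=
  (LY.Ci x').comp ((A.pr (A.idx x')).comp
    ((fderiv ℝ (A.rep g (A.idx x)) (A.φ (A.idx x) x + LY.C x z)).comp (LY.C x)))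

/-- The maps along the orbit of `x`. -/
noncomputable def Orb (x : X) (k : ℕ) : V → V := LY.Fc F.f (F.f^[k] x) (F.f^[k + 1] x)

/-- `y` is in the local stable set of `x` of relative size `θ`. -/
def St (θ : ℝ) (x y : X) : Prop :=
  dist y x < A.ρ ∧ Stay (LY.Orb x) (fun k => θ * LY.r (F.f^[k] x)) (LY.Φ x y)

/-- A set on which the charts are almost constant. -/
structure Block (κ r0 : ℝ) (Λ : Set X) : Prop where
  meas : MeasurableSet Λ
  sub : Λ ⊆ LY.R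
  r0_pos : 0 < r0
  idx : ∀ x ∈ Λ, ∀ x' ∈ Λ, A.idx x = A.idx x'
  r_ge : ∀ x ∈ Λ, r0 ≤ LY.r x
  r_osc : ∀ x ∈ Λ, ∀ x' ∈ Λ, LY.r x' ≤ Real.exp δ * LY.r x
  osc : ∀ x ∈ Λ, ∀ x' ∈ Λ, ‖(LY.Ci x).comp (LY.C x') - ContinuousLinearMap.id ℝ V‖ ≤ κ

variable {LY}

theorem iter_mem {x : X} (hx : x ∈ LY.R) (k : ℕ) : F.f^[k] x ∈ LY.R := by
  induction k with
  | zero => exact hx
  | succ k ih =>
    rw [Function.iterate_succ_apply']
    exact (LY.inv _).2 ih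

theorem one_le_Ci_cha {x : X} (hx : x ∈ LY.R) : 1 ≤ ‖LY.Ci x‖ := by
  have h1 : ‖((1, 0) : V)‖ = 1 := by simp
  have h2 := (LY.C x).le_of_opNorm_le (LY.C_le x hx) (LY.Ci x (1, 0))
  have h3 := (LY.Ci x).le_opNorm (1, 0)
  rw [LY.C_Ci x hx, h1] at h2
  rw [h1] at h3
  linarith

theorem norm_C_le_cha {x : X} (hx : x ∈ LY.R) (z : V) : ‖LY.C x z‖ ≤ ‖z‖ := by
  simpa using (LY.C x).le_of_opNorm_le (LY.C_le x hx) z

theorem r_le {x : X} (hx : x ∈ LY.R) : LY.r x ≤ δ0 := by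
  have h1 := LY.r_Ci x hx
  have h2 := mul_le_mul_of_nonneg_left (one_le_Ci_cha hx) (LY.r_pos x hx).le
  linarith

theorem r_iter_ge {x : X} (hx : x ∈ LY.R) (k : ℕ) :
    LY.r x * Real.exp (-δ * k) ≤ LY.r (F.f^[k] x) := by
  induction k with
  | zero => simp
  | succ k ih =>
    have h1 := LY.r_down _ (iter_mem hx k)
    rw [Function.iterate_succ_apply']
    have h2 : Real.exp (-δ * ((k + 1 : ℕ) : ℝ)) = Real.exp (-δ * k) * Real.exp (-δ) := by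
      rw [← Real.exp_add]
      congr 1
      push_cast
      ring
    have h3 : Real.exp (-δ) * Real.exp δ = 1 := by rw [← Real.exp_add]; simp
    have h4 := mul_le_mul_of_nonneg_left (ih.trans h1) (Real.exp_pos (-δ)).le
    rw [← mul_assoc (Real.exp (-δ)) (Real.exp δ), h3, one_mul] at h4
    rw [h2]
    linarith

theorem Φ_self (x : X) : LY.Φ x x = 0 := by
  simp [Φ, Atlas.Phi]

theorem Ψ_zero (x : X) : LY.Ψ x 0 = x := by
  simp only [Ψ, Atlas.Psi, map_zero, add_zero]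
  exact Atlas.ψ_φ (A.mem_D x) (by simpa using A.ρ_pos)

theorem mem_U {x : X} (hx : x ∈ LY.R) {z : V} (hz : ‖z‖ < A.ρ) :
    A.φ (A.idx x) x + LY.C x z ∈ A.U (A.idx x) := by
  refine A.ball_sub _ x (A.mem_D x) ?_
  rw [mem_ball, dist_eq_norm]
  change ‖A.φ (A.idx x) x + LY.C x z - A.φ (A.idx x) x‖ < _
  rw [add_sub_cancel_left]
  exact (norm_C_le_cha hx z).trans_lt hz

theorem Φ_Ψ {x : X} (hx : x ∈ LY.R) {z : V} (hz : ‖z‖ < A.ρ) : LY.Φ x (LY.Ψ x z) = z := by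
  simp only [Φ, Ψ, Atlas.Phi, Atlas.Psi]
  rw [Atlas.φ_ψ (mem_U hx hz), add_sub_cancel_left, LY.Ci_C x hx]

theorem Ψ_Φ {x y : X} (hx : x ∈ LY.R) (hy : dist y x < A.ρ) : LY.Ψ x (LY.Φ x y) = y := by
  simp only [Φ, Ψ, Atlas.Phi, Atlas.Psi]
  rw [LY.C_Ci x hx, add_sub_cancel]
  exact Atlas.ψ_φ (A.mem_D x) hy

theorem dist_Ψ_le {x : X} (hx : x ∈ LY.R) {z z' : V} (hz : ‖z‖ < A.ρ) (hz' : ‖z'‖ < A.ρ) :
    dist (LY.Ψ x z) (LY.Ψ x z') ≤ A.K * ‖z - z'‖ := by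
  refine (Atlas.dist_ψ_le (mem_U hx hz) (mem_U hx hz')).trans ?_
  rw [add_sub_add_left_eq_sub, ← map_sub]
  exact mul_le_mul_of_nonneg_left (norm_C_le_cha hx _) (zero_le_one.trans A.one_le_K)

theorem norm_Φ_sub_le {x : X} (hx : x ∈ LY.R) (y y' : X) :
    LY.r x * ‖LY.Φ x y - LY.Φ x y'‖ ≤ δ0 * dist y y' := by
  simp only [Φ, Atlas.Phi]
  rw [← map_sub, sub_sub_sub_cancel_right]
  have h1 := (LY.Ci x).le_opNorm (A.φ (A.idx x) y - A.φ (A.idx x) y')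
  have h2 := A.norm_φ_sub_le (A.idx x) y y'
  have h3 := LY.r_pos x hx
  calc LY.r x * ‖LY.Ci x (A.φ (A.idx x) y - A.φ (A.idx x) y')‖
      ≤ LY.r x * (‖LY.Ci x‖ * dist y y') :=
        mul_le_mul_of_nonneg_left (h1.trans (mul_le_mul_of_nonneg_left h2 (norm_nonneg _))) h3.le
    _ ≤ δ0 * dist y y' := by
        rw [← mul_assoc]
        exact mul_le_mul_of_nonneg_right (LY.r_Ci x hx) dist_nonneg

/-- Change of chart inside a chart of the atlas. -/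
theorem Φ_change {x x0 : X} (hx0 : x0 ∈ LY.R) (hi : A.idx x = A.idx x0) (y : X) :
    LY.Φ x y = (LY.Ci x).comp (LY.C x0) (LY.Φ x0 y - LY.Φ x0 x) := by
  simp only [Φ, Atlas.Phi, ContinuousLinearMap.comp_apply]
  rw [← map_sub, LY.C_Ci x0 hx0, sub_sub_sub_cancel_right, hi]

theorem Ψ_change {x x0 : X} (hx : x ∈ LY.R) (hx0 : x0 ∈ LY.R) (hi : A.idx x = A.idx x0) (z : V) :
    LY.Ψ x ((LY.Ci x).comp (LY.C x0) (z - LY.Φ x0 x)) = LY.Ψ x0 z := by
  simp only [Φ, Ψ, Atlas.Phi, Atlas.Psi, ContinuousLinearMap.comp_apply]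
  rw [LY.C_Ci x hx, map_sub, LY.C_Ci x0 hx0, hi]
  congr 1
  abel

theorem hasFDerivAt_Fc {g : X → X} (hg : A.Sm g) {x : X} (hx : x ∈ LY.R) (x' : X) {z : V}
    (hz : ‖z‖ < A.ρ) : HasFDerivAt (LY.Fc g x x') (LY.DFc g x x' z) z := by
  have h1 : HasFDerivAt (fun z : V => A.φ (A.idx x) x + LY.C x z) (LY.C x) z :=
    (LY.C x).hasFDerivAt.const_add _
  have h2 := (hg.differentiableAt (mem_U hx hz)).hasFDerivAt.comp z h1
  have h3 := (((A.pr (A.idx x')).hasFDerivAt.comp z h2).sub_const (A.φ (A.idx x') x'))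
  exact (LY.Ci x').hasFDerivAt.comp z h3

theorem DFc_zero {x : X} (hx : x ∈ LY.R) : LY.DFc F.f x (F.f x) 0 = diag (LY.a x) (LY.b x) := by
  refine ContinuousLinearMap.ext fun v => ?_
  have h1 := LY.conj x hx v
  have h2 := LY.Ci_C (F.f x) ((LY.inv x).2 hx) (diag (LY.a x) (LY.b x) v)
  rw [← h1] at h2
  rw [← h2]
  simp only [DFc, map_zero, add_zero, ContinuousLinearMap.comp_apply, Atlas.coc, Atlas.Dm,
    Function.iterate_one]

theorem adm_r_lt (h : Adm F K' χ δ δ0 η K2) {x : X} (hx : x ∈ LY.R) :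
    LY.r x ≤ 1 ∧ 4 * A.K * K2 * LY.r x ≤ A.ρ ∧ LY.r x < A.ρ := by
  have h1 := r_le hx
  have h2 := h.small2
  have h3 := A.one_le_K
  have h4 := h.one_le2
  have h5 := A.ρ_le
  have h6 := LY.r_pos x hx
  have h7 : 1 ≤ A.K * K2 := one_le_mul_of_one_le_of_one_le h3 h4
  have h8 : 4 * A.K * K2 * LY.r x ≤ A.ρ :=
    (mul_le_mul_of_nonneg_left h1 (by nlinarith)).trans h2
  have h9 : 4 * LY.r x ≤ A.ρ := by nlinarith
  exact ⟨by linarith, h8, by linarith⟩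

theorem DFc_lip (h : Adm F K' χ δ δ0 η K2) {x : X} (hx : x ∈ LY.R) {z z' : V} (hz : ‖z‖ < A.ρ)
    (hz' : ‖z'‖ < A.ρ) :
    ‖LY.DFc F.f x (F.f x) z - LY.DFc F.f x (F.f x) z'‖ ≤ η / 4 / LY.r x * ‖z - z'‖ := by
  have hfx := (LY.inv x).2 hx
  have h1 := h.regf.fderiv_lip (mem_U hx hz) (mem_U hx hz')
  rw [add_sub_add_left_eq_sub, ← map_sub] at h1
  have hK2 : 0 ≤ K2 := zero_le_one.trans h.one_le2
  have h2 := h1.trans (mul_le_mul_of_nonneg_left (norm_C_le_cha hx _) hK2)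
  have e : LY.DFc F.f x (F.f x) z - LY.DFc F.f x (F.f x) z' = (LY.Ci (F.f x)).comp
      ((A.pr (A.idx (F.f x))).comp ((fderiv ℝ (A.rep F.f (A.idx x)) (A.φ (A.idx x) x + LY.C x z) -
        fderiv ℝ (A.rep F.f (A.idx x)) (A.φ (A.idx x) x + LY.C x z')).comp (LY.C x))) := by
    simp only [DFc, ContinuousLinearMap.sub_comp, ContinuousLinearMap.comp_sub]
  rw [e]
  set B := fderiv ℝ (A.rep F.f (A.idx x)) (A.φ (A.idx x) x + LY.C x z) -
    fderiv ℝ (A.rep F.f (A.idx x)) (A.φ (A.idx x) x + LY.C x z') with hB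
  have h3 : ‖B.comp (LY.C x)‖ ≤ K2 * ‖z - z'‖ :=
    (B.opNorm_comp_le _).trans ((mul_le_of_le_one_right (norm_nonneg _) (LY.C_le x hx)).trans h2)
  have h4 : ‖(A.pr (A.idx (F.f x))).comp (B.comp (LY.C x))‖ ≤ K2 * ‖z - z'‖ :=
    (ContinuousLinearMap.opNorm_comp_le _ _).trans
      ((mul_le_of_le_one_left (norm_nonneg _) (A.pr_le _)).trans h3)
  refine (ContinuousLinearMap.opNorm_comp_le _ _).trans
    ((mul_le_mul_of_nonneg_left h4 (norm_nonneg _)).trans ?_)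
  rw [← mul_assoc]
  refine mul_le_mul_of_nonneg_right ?_ (norm_nonneg _)
  have h5 := LY.r_pos x hx
  rw [le_div_iff₀ h5]
  have h6 := LY.r_Ci _ hfx
  have h7 := LY.r_down x hx
  have h8 := h.small1
  have h9 := norm_nonneg (LY.Ci (F.f x))
  have h10 : ‖LY.Ci (F.f x)‖ * LY.r x ≤ Real.exp δ * δ0 :=
    (mul_le_mul_of_nonneg_left h7 h9).trans (by
      have := mul_le_mul_of_nonneg_left h6 (Real.exp_pos δ).le
      linarith)
  have h11 := mul_le_mul_of_nonneg_left h10 hK2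
  linarith

theorem dist_Ψ_self_cha (h : Adm F K' χ δ δ0 η K2) {x : X} (hx : x ∈ LY.R) {z : V}
    (hz : ‖z‖ ≤ LY.r x) : K2 * dist (LY.Ψ x z) x < A.ρ ∧ dist (LY.Ψ x z) x < A.ρ := by
  obtain ⟨-, h2, h3⟩ := adm_r_lt h hx
  have h4 := dist_Ψ_le hx (hz.trans_lt h3) (z' := 0) (by simpa using A.ρ_pos)
  rw [Ψ_zero, sub_zero] at h4
  have h5 := h4.trans (mul_le_mul_of_nonneg_left hz (zero_le_one.trans A.one_le_K))
  have h6 := mul_le_mul_of_nonneg_left h5 (zero_le_one.trans h.one_le2)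
  have h7 := A.ρ_pos
  have h8 : K2 * dist (LY.Ψ x z) x < A.ρ := by linarith
  exact ⟨h8, (le_mul_of_one_le_left dist_nonneg h.one_le2).trans_lt h8⟩

theorem Ψ_Fc (h : Adm F K' χ δ δ0 η K2) {x : X} (hx : x ∈ LY.R) {z : V} (hz : ‖z‖ ≤ LY.r x) :
    LY.Ψ (F.f x) (LY.Fc F.f x (F.f x) z) = F.f (LY.Ψ x z) := by
  obtain ⟨h1, h2⟩ := dist_Ψ_self_cha h hx hz
  refine Ψ_Φ ((LY.inv x).2 hx) (lt_of_le_of_lt ?_ h1)
  exact (h.regf.mono one_le_two le_rfl).up.dist_le F.smf (x := x) h2 (by simpa using A.ρ_pos)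

theorem Orb_eq_cha (x : X) (k : ℕ) :
    LY.Orb x k = LY.Fc F.f (F.f^[k] x) (F.f (F.f^[k] x)) := by
  rw [Orb, Function.iterate_succ_apply']

theorem Orb_zero_cha (x : X) (k : ℕ) : LY.Orb x k 0 = 0 := by
  rw [Orb_eq_cha, Fc, Ψ_zero, Φ_self]

theorem hyp_orb (h : Adm F K' χ δ δ0 η K2) {x : X} (hx : x ∈ LY.R) {θ : ℝ} (h0 : 0 < θ)
    (h1 : θ ≤ 1) : Hyp (LY.Orb x) (fun k => LY.a (F.f^[k] x)) (fun k => LY.b (F.f^[k] x))
      (fun k => θ * LY.r (F.f^[k] x)) (Real.exp χ) η (Real.exp (2 * δ)) := by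
  have hE : Real.exp δ ≤ Real.exp (2 * δ) := Real.exp_le_exp.2 (by linarith [h.δ_pos])
  have hp := fun k => LY.r_pos _ (iter_mem hx k)
  refine ⟨fun k => mul_pos h0 (hp k), fun k => ?_, fun k => ?_, fun k => LY.a_ge _ (iter_mem hx k),
    fun k => ?_, fun k z z' hz hz' => ?_, fun k => ?_⟩
  · have h2 := LY.r_up _ (iter_mem hx k)
    have h3 := h2.trans (mul_le_mul_of_nonneg_right hE (hp k).le)
    rw [Function.iterate_succ_apply', mul_left_comm]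
    exact mul_le_mul_of_nonneg_left h3 h0.le
  · have h2 := LY.r_down _ (iter_mem hx k)
    have h3 := h2.trans (mul_le_mul_of_nonneg_right hE
      (LY.r_pos _ ((LY.inv _).2 (iter_mem hx k))).le)
    rw [Function.iterate_succ_apply', mul_left_comm]
    exact mul_le_mul_of_nonneg_left h3 h0.le
  · rw [← Real.exp_neg]
    exact LY.b_le _ (iter_mem hx k)
  · set y := F.f^[k] x with hy
    have hyR : y ∈ LY.R := iter_mem hx k
    have hr := LY.r_pos y hyR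
    have hθ : θ * LY.r y ≤ LY.r y := mul_le_of_le_one_left hr.le h1
    have hlt := (adm_r_lt h hyR).2.2
    have hη := h.par.pos
    have key := (convex_closedBall (0 : V) (θ * LY.r y)).norm_image_sub_le_of_norm_hasFDerivWithin_le'
      (f := LY.Fc F.f y (F.f y)) (f' := LY.DFc F.f y (F.f y)) (φ := diag (LY.a y) (LY.b y))
      (C := η) (x := z') (y := z)
      (fun w hw => (hasFDerivAt_Fc F.smf hyR _
        ((mem_closedBall_zero_iff.1 hw).trans_lt (hθ.trans_lt hlt))).hasFDerivWithinAt)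
      (fun w hw => by
        have h2 := (mem_closedBall_zero_iff.1 hw).trans hθ
        have h3 := DFc_lip h hyR (h2.trans_lt hlt) (z' := 0) (by simpa using A.ρ_pos)
        rw [DFc_zero hyR, sub_zero] at h3
        refine h3.trans ((mul_le_mul_of_nonneg_left h2 (by positivity)).trans ?_)
        rw [div_mul_cancel₀ _ hr.ne']
        linarith)
      (mem_closedBall_zero_iff.2 hz') (mem_closedBall_zero_iff.2 hz)
    rw [Orb_eq_cha]
    exact key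
  · rw [Orb_zero_cha, norm_zero]
    exact (mul_pos h.par.pos (mul_pos h0 (hp k))).le

theorem St.mono {θ θ' : ℝ} {x y : X} (hx : x ∈ LY.R) (h : LY.St θ x y) (hθ : θ ≤ θ') :
    LY.St θ' x y := 
  ⟨h.1, h.2.mono fun k => mul_le_mul_of_nonneg_right hθ (LY.r_pos _ (iter_mem hx k)).le⟩

theorem st_self (h : Adm F K' χ δ δ0 η K2) {x : X} (hx : x ∈ LY.R) {θ : ℝ} (h0 : 0 ≤ θ) :
    LY.St θ x x ∧ ∀ k, It (LY.Orb x) k 0 = 0 := by
  have h1 : ∀ k, It (LY.Orb x) k 0 = 0 := fun k => by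
    induction k with
    | zero => rfl
    | succ k ih => rw [It, ih, Orb_zero_cha]
  refine ⟨⟨by simpa using A.ρ_pos, fun k => ?_⟩, h1⟩
  rw [Φ_self, h1, norm_zero]
  exact mul_nonneg h0 (LY.r_pos _ (iter_mem hx k)).le

theorem st_Ψ (h : Adm F K' χ δ δ0 η K2) {x : X} (hx : x ∈ LY.R) {θ : ℝ} (h1 : θ ≤ 1) {z : V}
    (hz : Stay (LY.Orb x) (fun k => θ * LY.r (F.f^[k] x)) z) : LY.St θ x (LY.Ψ x z) := by
  have h2 : ‖z‖ ≤ LY.r x := (hz 0).trans (mul_le_of_le_one_left (LY.r_pos x hx).le h1)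
  refine ⟨(dist_Ψ_self_cha h hx h2).2, ?_⟩
  rwa [Φ_Ψ hx (h2.trans_lt (adm_r_lt h hx).2.2)]

theorem St.iter (h : Adm F K' χ δ δ0 η K2) {x y : X} (hx : x ∈ LY.R) (hy : LY.St 1 x y) (k : ℕ) :
    F.f^[k] y = LY.Ψ (F.f^[k] x) (It (LY.Orb x) k (LY.Φ x y)) ∧
      LY.Φ (F.f^[k] x) (F.f^[k] y) = It (LY.Orb x) k (LY.Φ x y) ∧
      dist (F.f^[k] y) (F.f^[k] x) < A.ρ := by
  have hs : ∀ k, ‖It (LY.Orb x) k (LY.Φ x y)‖ ≤ LY.r (F.f^[k] x) := fun k => by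
    simpa using hy.2 k
  have h1 : ∀ k, F.f^[k] y = LY.Ψ (F.f^[k] x) (It (LY.Orb x) k (LY.Φ x y)) := fun k => by
    induction k with
    | zero => exact (Ψ_Φ hx hy.1).symm
    | succ k ih =>
      rw [It, Orb_eq_cha, Function.iterate_succ_apply', Function.iterate_succ_apply',
        Ψ_Fc h (iter_mem hx k) (hs k), ← ih]
  refine ⟨h1 k, ?_, ?_⟩
  · rw [h1 k, Φ_Ψ (iter_mem hx k) ((hs k).trans_lt (adm_r_lt h (iter_mem hx k)).2.2)]
  · rw [h1 k]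
    exact (dist_Ψ_self_cha h (iter_mem hx k) (hs k)).2

theorem St.norm_le (h : Adm F K' χ δ δ0 η K2) {x y y' : X} (hx : x ∈ LY.R) (hy : LY.St 1 x y)
    (hy' : LY.St 1 x y') (k : ℕ) :
    ‖It (LY.Orb x) k (LY.Φ x y) - It (LY.Orb x) k (LY.Φ x y')‖ ≤
      Real.exp (-(6 * δ) * k) * ‖LY.Φ x y - LY.Φ x y'‖ := by
  refine ((cone h.par (hyp_orb h hx one_pos le_rfl) hy.2 hy'.2).2 k).trans
    (mul_le_mul_of_nonneg_right ?_ (norm_nonneg _))
  have h1 := h.par.h2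
  have h2 := h.par.pos
  have h3 : Real.exp (2 * δ) ^ 3 = Real.exp (6 * δ) := by
    rw [← Real.exp_nat_mul]
    congr 1
    push_cast
    ring
  have h4 : (Real.exp χ)⁻¹ + η ≤ Real.exp (-(6 * δ)) := by
    rw [h3, ← le_div_iff₀ (Real.exp_pos _), one_div, ← Real.exp_neg (6 * δ)] at h1
    linarith
  rw [mul_comm (-(6 * δ)), Real.exp_nat_mul]
  exact pow_le_pow_left₀ (by positivity) h4 k

theorem St.contract (h : Adm F K' χ δ δ0 η K2) {x y y' : X} (hx : x ∈ LY.R) (hy : LY.St 1 x y)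
    (hy' : LY.St 1 x y') (k : ℕ) :
    dist (F.f^[k] y) (F.f^[k] y') ≤ A.K * Real.exp (-(6 * δ) * k) * ‖LY.Φ x y - LY.Φ x y'‖ := by
  have hlt := (adm_r_lt h (iter_mem hx k)).2.2
  rw [(St.iter h hx hy k).1, (St.iter h hx hy' k).1, mul_assoc]
  refine (dist_Ψ_le (iter_mem hx k) (lt_of_le_of_lt (by simpa using hy.2 k) hlt)
    (lt_of_le_of_lt (by simpa using hy'.2 k) hlt)).trans ?_
  exact mul_le_mul_of_nonneg_left (St.norm_le h hx hy hy' k) (zero_le_one.trans A.one_le_K)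

theorem st_of_close (h : Adm F K' χ δ δ0 η K2) {x y : X} (hx : x ∈ LY.R)
    (hd : ∀ k, dist (F.f^[k] y) (F.f^[k] x) ≤ LY.r (F.f^[k] x) ^ 2) : LY.St 1 x y := by
  have h1 : ∀ k, dist (F.f^[k] y) (F.f^[k] x) < A.ρ := fun k => by
    obtain ⟨p1, -, p3⟩ := adm_r_lt h (iter_mem hx k)
    have p4 := LY.r_pos _ (iter_mem hx k)
    refine (hd k).trans_lt (lt_of_le_of_lt ?_ p3)
    nlinarith
  have h2 : ∀ k, It (LY.Orb x) k (LY.Φ x y) = LY.Φ (F.f^[k] x) (F.f^[k] y) := fun k => by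
    induction k with
    | zero => rfl
    | succ k ih =>
      rw [It, ih, Orb, Fc, Ψ_Φ (iter_mem hx k) (h1 k), Function.iterate_succ_apply' F.f k y]
  refine ⟨h1 0, fun k => ?_⟩
  have p4 := LY.r_pos _ (iter_mem hx k)
  have p5 := norm_Φ_sub_le (iter_mem hx k) (F.f^[k] y) (F.f^[k] x)
  rw [Φ_self, sub_zero] at p5
  have p6 : δ0 ≤ 1 := by
    have q1 := h.small2
    have q2 : 1 ≤ A.K * K2 := one_le_mul_of_one_le_of_one_le A.one_le_K h.one_le2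
    have q3 := A.ρ_le
    have q4 := h.δ0_pos
    nlinarith
  have p7 := p5.trans (mul_le_of_le_one_left dist_nonneg p6)
  rw [h2]
  beta_reduce
  rw [one_mul]
  exact le_of_mul_le_mul_left (p7.trans ((hd k).trans_eq (sq _))) p4

end Lyap

end Pool.Agent.Lib.MP_e7c912_an
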