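import Pool.Agent.Lib.MP_e7c912_an.H60YDef

/-! Elementary properties of bounded curves and of dyadic intervals. -/

namespace Pool.Agent.Lib.MP_e7c912_an

open MeasureTheory Filter Metric Set Topology

theorem dl_pos (m : ℕ) : 0 < dl m := by
  unfold dl
  positivity

theorem dl_add (m j : ℕ) : dl (m + j) * 2 ^ j = dl m := by
  unfold dl
  rw [pow_add]
  field_simp

theorem dy_le (m : ℕ) (t : ℝ) : dy m t ≤ t := by
  unfold dy
  rw [div_le_iff₀ (by positivity), mul_comm t]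
  exact Int.floor_le _

theorem lt_dy_add (m : ℕ) (t : ℝ) : t < dy m t + dl m := by
  unfold dy dl
  rw [← add_div, lt_div_iff₀ (by positivity), mul_comm t]
  exact Int.lt_floor_add_one _

theorem dy_eq_iff (m : ℕ) (t t0 : ℝ) : dy m t = dy m t0 ↔ t ∈ Ico (dy m t0) (dy m t0 + dl m) := by
  refine ⟨fun h => h ▸ ⟨dy_le m t, lt_dy_add m t⟩, fun h => ?_⟩
  obtain ⟨h1, h2⟩ := h
  unfold dy dl at *
  rw [div_le_iff₀ (by positivity), mul_comm t] at h1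
  rw [← add_div, lt_div_iff₀ (by positivity), mul_comm t] at h2
  rw [Int.floor_eq_iff.2 ⟨h1, h2⟩]

theorem dy_mono (m j : ℕ) (t : ℝ) :
    dy m t ≤ dy (m + j) t ∧ dy (m + j) t + dl (m + j) ≤ dy m t + dl m := by
  have hj : (0 : ℝ) < 2 ^ j := by positivity
  have hm : (0 : ℝ) < 2 ^ m := by positivity
  have h1 : ⌊(2 : ℝ) ^ m * t⌋ * 2 ^ j ≤ ⌊(2 : ℝ) ^ (m + j) * t⌋ := by
    rw [Int.le_floor, pow_add, mul_right_comm]
    push_cast
    exact mul_le_mul_of_nonneg_right (Int.floor_le _) hj.le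
  have h2 : ⌊(2 : ℝ) ^ (m + j) * t⌋ + 1 ≤ (⌊(2 : ℝ) ^ m * t⌋ + 1) * 2 ^ j := by
    rw [Int.add_one_le_iff, Int.floor_lt, pow_add, mul_right_comm]
    push_cast
    exact mul_lt_mul_of_pos_right (Int.lt_floor_add_one _) hj
  have h3 : ((⌊(2 : ℝ) ^ m * t⌋ : ℤ) : ℝ) * 2 ^ j ≤ (⌊(2 : ℝ) ^ (m + j) * t⌋ : ℤ) := by
    exact_mod_cast h1
  have h4 : ((⌊(2 : ℝ) ^ (m + j) * t⌋ : ℤ) : ℝ) + 1 ≤ ((⌊(2 : ℝ) ^ m * t⌋ : ℤ) + 1) * 2 ^ j := by
    exact_mod_cast h2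
  unfold dy dl
  rw [← add_div, ← add_div, div_le_div_iff₀ hm (by positivity),
    div_le_div_iff₀ (by positivity) hm]
  generalize ((⌊(2 : ℝ) ^ (m + j) * t⌋ : ℤ) : ℝ) = u at *
  rw [pow_add]
  constructor <;> nlinarith

theorem dy_eq_of_add {m j : ℕ} {t t' : ℝ} (h : dy (m + j) t = dy (m + j) t') : dy m t = dy m t' := by
  obtain ⟨h1, h2⟩ := (dy_eq_iff _ _ _).1 h
  exact (dy_eq_iff _ _ _).2 ⟨(dy_mono m j t').1.trans h1, h2.trans_le (dy_mono m j t').2⟩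

theorem dy_zero {t : ℝ} (ht : t ∈ Ico (0 : ℝ) 1) : dy 0 t = 0 := by
  unfold dy
  rw [pow_zero, one_mul, Int.floor_eq_zero_iff.2 ht, Int.cast_zero, zero_div]

theorem measurable_dy (m : ℕ) : Measurable (dy m) :=
  (measurable_from_top (f := fun n : ℤ => (n : ℝ) / 2 ^ m)).comp
    (measurable_id.const_mul ((2 : ℝ) ^ m)).floor

theorem cell_sub_cur (m : ℕ) {t : ℝ} (ht : t ∈ Ico (0 : ℝ) 1) :
    0 ≤ dy m t ∧ dy m t + dl m ≤ 1 := by
  have h := dy_mono 0 m t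
  rwa [zero_add, dy_zero ht, zero_add, dl, dl, pow_zero, div_one] at h

/-- Comparison of two measures cell by cell, for a subdivision given by stopping generations. -/
theorem cells_le {mm : ℝ → ℕ}
    (hc : ∀ t ∈ Ico (0 : ℝ) 1, ∀ t', dy (mm t) t' = dy (mm t) t → mm t' = mm t) {μ ν : Measure ℝ}
    (h : ∀ t ∈ Ico (0 : ℝ) 1, μ (Ico (dy (mm t) t) (dy (mm t) t + dl (mm t))) ≤
      ν (Ico (dy (mm t) t) (dy (mm t) t + dl (mm t)))) : μ (Ico 0 1) ≤ ν (Ico 0 1) := by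
  set cell : ℝ → Set ℝ := fun t => Ico (dy (mm t) t) (dy (mm t) t + dl (mm t)) with hcell
  have hcount : (cell '' Ico 0 1).Countable := by
    refine (countable_range fun p : ℕ × ℤ =>
      Ico ((p.2 : ℝ) / 2 ^ p.1) ((p.2 : ℝ) / 2 ^ p.1 + dl p.1)).mono ?_
    rintro _ ⟨t, -, rfl⟩
    exact ⟨(mm t, ⌊2 ^ mm t * t⌋), rfl⟩
  have hdis : (cell '' Ico 0 1).Pairwise Disjoint := by
    rintro _ ⟨t, ht, rfl⟩ _ ⟨t', ht', rfl⟩ hne
    refine Set.disjoint_left.2 fun s hs hs' => hne ?_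
    have e1 := (dy_eq_iff _ _ _).2 hs
    have e2 := (dy_eq_iff _ _ _).2 hs'
    have e3 : mm t = mm t' := (hc t ht s e1).symm.trans (hc t' ht' s e2)
    simp only [hcell]
    rw [← e1, ← e2, e3]
  have hmeas : ∀ s ∈ cell '' Ico 0 1, MeasurableSet s := by
    rintro _ ⟨t, -, rfl⟩
    exact measurableSet_Ico
  have hU : ⋃₀ (cell '' Ico 0 1) = Ico 0 1 := by
    refine Subset.antisymm (sUnion_subset ?_) fun t ht =>
      ⟨_, ⟨t, ht, rfl⟩, dy_le _ t, lt_dy_add _ t⟩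
    rintro _ ⟨t, ht, rfl⟩
    exact Ico_subset_Ico (cell_sub_cur _ ht).1 (cell_sub_cur _ ht).2
  rw [← hU, measure_sUnion hcount hdis hmeas, measure_sUnion hcount hdis hmeas]
  refine ENNReal.tsum_le_tsum ?_
  rintro ⟨_, t, ht, rfl⟩
  exact h t ht

theorem cell_sub (m : ℕ) {t : ℝ} (ht : t ∈ Ico (0 : ℝ) 1) : 0 ≤ dy m t ∧ dy m t + dl m ≤ 1 :=
  cell_sub_cur m ht

/-- A function that only depends on the dyadic interval of a fixed generation is measurable. -/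
theorem measurable_of_dy {Y : Type} [MeasurableSpace Y] {f : ℝ → Y} (m : ℕ)
    (h : ∀ t t', dy m t = dy m t' → f t = f t') : Measurable f := by
  have e : f = (fun n : ℤ => f ((n : ℝ) / 2 ^ m)) ∘ fun t : ℝ => ⌊2 ^ m * t⌋ := by
    funext t
    exact h t (dy m t) ((dy_eq_iff _ _ _).2 ⟨le_rfl, lt_add_of_pos_right _ (dl_pos m)⟩).symm
  rw [e]
  exact measurable_from_top.comp (measurable_id.const_mul ((2 : ℝ) ^ m)).floor

namespace Atlas

variable {X : Type} [MetricSpace X] [MeasurableSpace X] {A : Atlas X} {r : ℕ} {ε : ℝ} {c : ℝ → X}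
  {a h a' h' : ℝ}

theorem SmC.mono (H : A.SmC r c a h) (h1 : a ≤ a') (h2 : a' + h' ≤ a + h) : A.SmC r c a' h' :=
  fun t ht => H t (Icc_subset_Icc h1 h2 ht)

theorem Bdd.mono (H : A.Bdd r c a h) (h0 : 0 ≤ h') (h1 : a ≤ a') (h2 : a' + h' ≤ a + h) :
    A.Bdd r c a' h' := fun s hs hr t ht =>
  (mul_le_mul_of_nonneg_left (pow_le_pow_left₀ h0 (by linarith) _) (norm_nonneg _)).trans
    (H s hs hr t (Icc_subset_Icc h1 h2 ht))

theorem Sml.mono (H : A.Sml ε c a h) (h0 : 0 ≤ h') (h1 : a ≤ a') (h2 : a' + h' ≤ a + h) :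
    A.Sml ε c a' h' := fun t ht =>
  (mul_le_mul_of_nonneg_left (by linarith) (norm_nonneg _)).trans (H t (Icc_subset_Icc h1 h2 ht))

theorem Good.mono (H : A.Good r ε c a h) (h0 : 0 ≤ h') (h1 : a ≤ a') (h2 : a' + h' ≤ a + h) :
    A.Good r ε c a' h' := ⟨H.1.mono h1 h2, H.2.1.mono h0 h1 h2, H.2.2.mono h0 h1 h2⟩

theorem SmC.hasDerivAt (H : A.SmC r c a h) (hr : 1 ≤ r) {t : ℝ} (ht : t ∈ Icc a (a + h)) :
    HasDerivAt (A.e ∘ c) (deriv (A.e ∘ c) t) t :=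
  ((H t ht).differentiableAt (by norm_cast; omega)).hasDerivAt

theorem SmC.comp (H : A.SmC r c a h) {G : X → X} (hG : A.Sm G) : A.SmC r (G ∘ c) a h :=
  fun t ht => hG.contDiffAt_comp (H t ht)

theorem Bdd.key_cur (hs : A.SmC r c a h) (H : A.Bdd r c a h) (hr : 2 ≤ r) (h0 : 0 < h) :
    ∃ M : ℝ, (∀ t ∈ Icc a (a + h), ‖deriv (A.e ∘ c) t‖ ≤ M ∧ 3 * M ≤ 4 * ‖deriv (A.e ∘ c) t‖) ∧
      ∀ s ∈ Icc a (a + h), ∀ t ∈ Icc a (a + h),
        ‖deriv (A.e ∘ c) s - deriv (A.e ∘ c) t‖ * h ≤ M / 4 * |s - t| := by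
  have hd : ∀ t ∈ Icc a (a + h), DifferentiableAt ℝ (deriv (A.e ∘ c)) t := fun t ht =>
    ((hs t ht).derivWithin (m := 1) (by exact_mod_cast hr)).differentiableAt one_ne_zero
  obtain ⟨u, hu, hmax⟩ := isCompact_Icc.exists_isMaxOn (f := fun t => ‖deriv (A.e ∘ c) t‖)
    (nonempty_Icc.2 (le_add_of_nonneg_right h0.le))
    fun t ht => (hd t ht).continuousAt.norm.continuousWithinAt
  have hb : ∀ t ∈ Icc a (a + h),
      ‖deriv (deriv (A.e ∘ c)) t‖ ≤ ‖deriv (A.e ∘ c) u‖ / 4 / h := fun t ht => by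
    have h1 := H 2 le_rfl hr t ht
    rw [iteratedDeriv_succ, iteratedDeriv_one] at h1
    have h2 : ‖deriv (A.e ∘ c) t‖ ≤ ‖deriv (A.e ∘ c) u‖ := hmax ht
    rw [le_div_iff₀ h0]
    simp only [Nat.add_one_sub_one, pow_one] at h1
    linarith
  have hl : ∀ s ∈ Icc a (a + h), ∀ t ∈ Icc a (a + h),
      ‖deriv (A.e ∘ c) s - deriv (A.e ∘ c) t‖ * h ≤ ‖deriv (A.e ∘ c) u‖ / 4 * |s - t| := by
    intro s hs t ht
    have h1 := (convex_Icc a (a + h)).norm_image_sub_le_of_norm_deriv_le hd hb ht hs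
    rwa [Real.norm_eq_abs, div_mul_eq_mul_div, le_div_iff₀ h0] at h1
  refine ⟨_, fun t ht => ⟨hmax ht, ?_⟩, hl⟩
  have h1 := hl u hu t ht
  have h2 : |u - t| ≤ h := abs_sub_le_iff.2 ⟨by linarith [hu.2, ht.1], by linarith [hu.1, ht.2]⟩
  have h3 := mul_le_mul_of_nonneg_left h2 (by positivity : 0 ≤ ‖deriv (A.e ∘ c) u‖ / 4)
  have h4 := le_of_mul_le_mul_right (h1.trans h3) h0
  have h5 := norm_sub_norm_le (deriv (A.e ∘ c) u) (deriv (A.e ∘ c) t)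
  linarith

/-- Bounded distortion of the speed. -/
theorem Bdd.distortion (hs : A.SmC r c a h) (H : A.Bdd r c a h) (hr : 2 ≤ r) (h0 : 0 < h) {s t : ℝ}
    (h1 : s ∈ Icc a (a + h)) (h2 : t ∈ Icc a (a + h)) :
    3 * ‖deriv (A.e ∘ c) s‖ ≤ 4 * ‖deriv (A.e ∘ c) t‖ := by
  obtain ⟨M, hM, -⟩ := H.key_cur hs hr h0
  linarith [(hM s h1).1, (hM t h2).2]

theorem Bdd.deriv_sub (hs : A.SmC r c a h) (H : A.Bdd r c a h) (hr : 2 ≤ r) (h0 : 0 < h) {s t : ℝ}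
    (h1 : s ∈ Icc a (a + h)) (h2 : t ∈ Icc a (a + h)) :
    ‖deriv (A.e ∘ c) s - deriv (A.e ∘ c) t‖ * h ≤ ‖deriv (A.e ∘ c) t‖ * |s - t| / 3 := by
  obtain ⟨M, hM, hl⟩ := H.key_cur hs hr h0
  have h3 := mul_le_mul_of_nonneg_right (hM t h2).2 (abs_nonneg (s - t))
  linarith [hl s h1 t h2]

theorem Bdd.taylor (hs : A.SmC r c a h) (H : A.Bdd r c a h) (hr : 2 ≤ r) (h0 : 0 < h) {s t : ℝ}
    (h1 : s ∈ Icc a (a + h)) (h2 : t ∈ Icc a (a + h)) :
    ‖A.e (c s) - A.e (c t) - (s - t) • deriv (A.e ∘ c) t‖ * h ≤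
      ‖deriv (A.e ∘ c) t‖ * (s - t) ^ 2 / 3 := by
  have hsub : uIcc t s ⊆ Icc a (a + h) := uIcc_subset_Icc h2 h1
  have h3 := (convex_uIcc t s).norm_image_sub_le_of_norm_hasDerivWithin_le
    (f := fun u => (A.e ∘ c) u - u • deriv (A.e ∘ c) t)
    (f' := fun u => deriv (A.e ∘ c) u - deriv (A.e ∘ c) t)
    (C := ‖deriv (A.e ∘ c) t‖ * |s - t| / 3 / h) (fun u hu => by
      have h4 := (hs.hasDerivAt (by omega) (hsub hu)).sub
        ((hasDerivAt_id u).smul_const (deriv (A.e ∘ c) t))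
      rw [one_smul] at h4
      exact h4.hasDerivWithinAt) (fun u hu => by
      rw [le_div_iff₀ h0]
      refine (H.deriv_sub hs hr h0 (hsub hu) h2).trans ?_
      exact div_le_div_of_nonneg_right (mul_le_mul_of_nonneg_left (abs_sub_left_of_mem_uIcc hu)
        (norm_nonneg _)) (by norm_num)) left_mem_uIcc right_mem_uIcc
  rw [Real.norm_eq_abs, div_mul_eq_mul_div, le_div_iff₀ h0] at h3
  have e : A.e (c s) - A.e (c t) - (s - t) • deriv (A.e ∘ c) t =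
      (A.e ∘ c) s - s • deriv (A.e ∘ c) t - ((A.e ∘ c) t - t • deriv (A.e ∘ c) t) := by
    simp only [Function.comp_apply, sub_smul]
    abel
  rw [e, ← sq_abs (s - t)]
  refine h3.trans_eq ?_
  ring

theorem Sml.dist_le (hs : A.SmC r c a h) (H : A.Sml ε c a h) (hr : 1 ≤ r) (h0 : 0 < h) {s t : ℝ}
    (h1 : s ∈ Icc a (a + h)) (h2 : t ∈ Icc a (a + h)) : dist (c s) (c t) * h ≤ ε * |s - t| := by
  have h3 := (convex_Icc a (a + h)).norm_image_sub_le_of_norm_deriv_le (C := ε / h)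
    (fun u hu => (hs.hasDerivAt hr hu).differentiableAt)
    (fun u hu => (le_div_iff₀ h0).2 (H u hu)) h2 h1
  rw [Real.norm_eq_abs, div_mul_eq_mul_div, le_div_iff₀ h0] at h3
  rw [A.dist_eq]
  exact h3

end Atlas

theorem YFit.pieces_cur {X : Type} [MetricSpace X] [MeasurableSpace X] {A : Atlas X} {G : X → X}
    {r js : ℕ} {ε Λ n1 n2 : ℝ} (H : YFit A G r ε Λ n1 n2 js) {c : ℝ → X} {a L : ℝ} (hL : 0 < L)
    (hc : A.Good r ε c a L) (x : X) (N : ℕ) : ∃ S : Finset (ℝ × ℝ), (S.card : ℝ) ≤ n1 ^ N ∧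
      (∀ p ∈ S, 0 < p.2 ∧ A.Good r ε (G^[N] ∘ c) p.1 p.2) ∧ ∀ t ∈ Icc a (a + L),
        (∀ k ≤ N, dist (G^[k] (c t)) (G^[k] x) < ε) → ∃ p ∈ S, t ∈ Icc p.1 (p.1 + p.2) := by
  classical
  have hn : 0 ≤ n1 := by
    obtain ⟨S, hS, -⟩ := H.cover c a L x hL hc
    exact (Nat.cast_nonneg _).trans hS
  induction N with
  | zero =>
    refine ⟨{(a, L)}, by simp, fun p hp => ?_, fun t ht _ => ⟨_, Finset.mem_singleton_self _, ht⟩⟩
    rw [Finset.mem_singleton.1 hp]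
    exact ⟨hL, hc⟩
  | succ N ih =>
    obtain ⟨S, h1, h2, h3⟩ := ih
    choose! T hT using fun p (hp : p ∈ S) =>
      H.cover (G^[N] ∘ c) p.1 p.2 (G^[N + 1] x) (h2 p hp).1 (h2 p hp).2
    refine ⟨S.biUnion T, ?_, fun q hq => ?_, fun t ht hk => ?_⟩
    · calc ((S.biUnion T).card : ℝ) ≤ ∑ p ∈ S, ((T p).card : ℝ) := by
            exact_mod_cast Finset.card_biUnion_le
        _ ≤ ∑ _p ∈ S, n1 := Finset.sum_le_sum fun p hp => (hT p hp).1
        _ ≤ n1 ^ (N + 1) := by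
            rw [Finset.sum_const, nsmul_eq_mul, pow_succ]
            exact mul_le_mul_of_nonneg_right h1 hn
    · obtain ⟨p, hp, hq⟩ := Finset.mem_biUnion.1 hq
      have h4 := (hT p hp).2.1 q hq
      rw [Function.iterate_succ']
      exact ⟨h4.1, h4.2.2.2⟩
    · obtain ⟨p, hp, htp⟩ := h3 t ht fun k hkN => hk k (hkN.trans N.le_succ)
      obtain ⟨q, hq, htq⟩ := (hT p hp).2.2 t htp (by
        have h4 := hk (N + 1) le_rfl
        rwa [Function.iterate_succ_apply' G N (c t)] at h4)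
      exact ⟨q, Finset.mem_biUnion.2 ⟨p, hp, hq⟩, htq⟩

/-- Local volume growth: inside a Bowen ball, few parameters are strongly expanded. -/
theorem YFit.volume_le {X : Type} [MetricSpace X] [MeasurableSpace X] {A : Atlas X} {G : X → X}
    {r js : ℕ} {ε Λ n1 n2 : ℝ} (H : YFit A G r ε Λ n1 n2 js) {c : ℝ → X} {a L : ℝ} (hL : 0 < L)
    (hc : A.Good r ε c a L) (N : ℕ) (x : X) {θ : ℝ} (hθ : 0 < θ) :
    volume {t | t ∈ Icc a (a + L) ∧ (∀ k ≤ N, dist (G^[k] (c t)) (G^[k] x) < ε) ∧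
      θ < ‖deriv (A.e ∘ G^[N] ∘ c) t‖} ≤ ENNReal.ofReal (n1 ^ N * ε / θ) := by
  classical
  obtain ⟨S, h1, h2, h3⟩ := H.pieces_cur hL hc x N
  have hε : 0 ≤ ε / θ := div_nonneg H.ε_pos.le hθ.le
  calc _ ≤ volume (⋃ p ∈ S.filter fun p => p.2 ≤ ε / θ, Icc p.1 (p.1 + p.2)) := by
        refine measure_mono ?_
        rintro t ⟨ht, hk, hd⟩
        obtain ⟨p, hp, htp⟩ := h3 t ht hk
        refine mem_biUnion (Finset.mem_coe.2 (Finset.mem_filter.2 ⟨hp, ?_⟩)) htp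
        have h4 := (h2 p hp).2.2.2 t htp
        have h5 := mul_le_mul_of_nonneg_right hd.le (h2 p hp).1.le
        rw [le_div_iff₀ hθ, mul_comm]
        exact h5.trans h4
    _ ≤ ∑ p ∈ S.filter fun p => p.2 ≤ ε / θ, volume (Icc p.1 (p.1 + p.2)) :=
        measure_biUnion_finset_le _ _
    _ ≤ ∑ _p ∈ S.filter fun p => p.2 ≤ ε / θ, ENNReal.ofReal (ε / θ) := by
        refine Finset.sum_le_sum fun p hp => ?_
        rw [Real.volume_Icc, add_sub_cancel_left]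
        exact ENNReal.ofReal_le_ofReal (Finset.mem_filter.1 hp).2
    _ ≤ ENNReal.ofReal (n1 ^ N * ε / θ) := by
        rw [Finset.sum_const, nsmul_eq_mul, ← ENNReal.ofReal_natCast,
          ← ENNReal.ofReal_mul (Nat.cast_nonneg _), mul_div_assoc]
        refine ENNReal.ofReal_le_ofReal (mul_le_mul_of_nonneg_right (le_trans ?_ h1) hε)
        exact_mod_cast Finset.card_filter_le _ _

end Pool.Agent.Lib.MP_e7c912_an
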