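import Pool.Agent.Lib.MP_e7c912_an.H60SDef
import Pool.Agent.Lib.MP_e7c912_an.H60Curve
import Pool.Agent.Lib.MP_e7c912_an.H60Gen

/-! Elementary properties of the space of curves and of the state space. -/

namespace Pool.Agent.Lib.MP_e7c912_an

open MeasureTheory Filter Metric Set Topology
open scoped ENNReal unitInterval

variable {X : Type} [MetricSpace X] [MeasurableSpace X] {A : Atlas X} {ε : ℝ}

namespace Cv

theorem continuous_ev_sl1 :
    Continuous fun z : Cv A ε × ℝ => z.1.1 (projIcc 0 1 zero_le_one z.2) := by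
  have h1 : Continuous fun z : Cv A ε × ℝ => (z.1.1 : C(I, X × (Fin A.N → ℝ))) :=
    continuous_subtype_val.comp continuous_fst
  have h2 : Continuous fun z : Cv A ε × ℝ => (projIcc 0 1 zero_le_one z.2 : I) :=
    continuous_projIcc.comp continuous_snd
  exact continuous_eval.comp (h1.prodMk h2)

theorem continuous_pt : Continuous fun z : Cv A ε × ℝ => z.1.pt z.2 :=
  continuous_fst.comp continuous_ev_sl1

theorem continuous_dv : Continuous fun z : Cv A ε × ℝ => z.1.dv z.2 :=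
  continuous_snd.comp continuous_ev_sl1

theorem dist_ev_sl1 (w w' : Cv A ε) (s : I) : dist (w.1 s) (w'.1 s) ≤ dist w w' :=
  ContinuousMap.dist_apply_le_dist (f := w.1) (g := w'.1) s

theorem dist_pt_le (w w' : Cv A ε) (t : ℝ) : dist (w.pt t) (w'.pt t) ≤ dist w w' := by
  refine le_trans ?_ (dist_ev_sl1 w w' (projIcc 0 1 zero_le_one t))
  rw [Prod.dist_eq]
  exact le_max_left _ _

theorem norm_dv_sub_le (w w' : Cv A ε) (t : ℝ) : ‖w.dv t - w'.dv t‖ ≤ dist w w' := by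
  refine le_trans ?_ (dist_ev_sl1 w w' (projIcc 0 1 zero_le_one t))
  rw [Prod.dist_eq, ← dist_eq_norm]
  exact le_max_right _ _

theorem norm_dv_le (w : Cv A ε) (t : ℝ) : ‖w.dv t‖ ≤ ε := w.2.1 _

theorem eps_nonneg_sl1 (w : Cv A ε) : 0 ≤ ε := (norm_nonneg _).trans (w.norm_dv_le 0)

theorem pt_lip (w : Cv A ε) (s t : ℝ) : dist (w.pt s) (w.pt t) ≤ 2 * ε * |s - t| := by
  have h1 := w.2.dist_le (projIcc 0 1 zero_le_one s) (projIcc 0 1 zero_le_one t)
  have h2 : dist (projIcc (0 : ℝ) 1 zero_le_one s) (projIcc 0 1 zero_le_one t) ≤ |s - t| :=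
    Set.abs_projIcc_sub_projIcc zero_le_one
  have h3 : dist (w.pt s) (w.pt t) ≤
      dist (w.1 (projIcc 0 1 zero_le_one s)) (w.1 (projIcc 0 1 zero_le_one t)) := by
    rw [Prod.dist_eq]
    exact le_max_left _ _
  have h4 := w.eps_nonneg_sl1
  exact h3.trans (h1.trans (mul_le_mul_of_nonneg_left h2 (by positivity)))

theorem taylor_sl1 (w : Cv A ε) {s t : ℝ} (hs : s ∈ Icc (0 : ℝ) 1) (ht : t ∈ Icc (0 : ℝ) 1) :
    ‖A.e (w.pt s) - A.e (w.pt t) - (s - t) • w.dv t‖ ≤ ‖w.dv t‖ * (s - t) ^ 2 / 3 := by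
  have h1 := w.2.2.2 (projIcc 0 1 zero_le_one s) (projIcc 0 1 zero_le_one t)
  have e1 : ((projIcc (0 : ℝ) 1 zero_le_one s : I) : ℝ) = s := by rw [projIcc_of_mem _ hs]
  have e2 : ((projIcc (0 : ℝ) 1 zero_le_one t : I) : ℝ) = t := by rw [projIcc_of_mem _ ht]
  rw [e1, e2] at h1
  exact h1

theorem Big.le_dist {w : Cv A ε} (h : w.Big) {s t : ℝ} (hs : s ∈ Icc (0 : ℝ) 1)
    (ht : t ∈ Icc (0 : ℝ) 1) : ε / 6 * |s - t| ≤ dist (w.pt s) (w.pt t) := by
  have h1 := w.taylor_sl1 hs ht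
  have h2 := h t
  have h3 : |s - t| ≤ 1 := by
    rw [abs_le]
    constructor <;> linarith [hs.1, hs.2, ht.1, ht.2]
  have h0 := abs_nonneg (s - t)
  have hn := norm_nonneg (w.dv t)
  have h4 : ‖(s - t) • w.dv t‖ ≤ ‖A.e (w.pt s) - A.e (w.pt t)‖ +
      ‖A.e (w.pt s) - A.e (w.pt t) - (s - t) • w.dv t‖ := by
    have := norm_sub_le (A.e (w.pt s) - A.e (w.pt t))
      (A.e (w.pt s) - A.e (w.pt t) - (s - t) • w.dv t)
    rwa [sub_sub_cancel] at this
  rw [norm_smul, Real.norm_eq_abs] at h4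
  rw [← sq_abs] at h1
  rw [A.dist_eq]
  have h5 : |s - t| ^ 2 ≤ |s - t| := by nlinarith
  have h6 : ‖w.dv t‖ * |s - t| ^ 2 ≤ ‖w.dv t‖ * |s - t| := mul_le_mul_of_nonneg_left h5 hn
  have h7 : ε / 4 * |s - t| ≤ ‖w.dv t‖ * |s - t| := mul_le_mul_of_nonneg_right h2 h0
  nlinarith

theorem hasDerivAt (w : Cv A ε) {t : ℝ} (ht : t ∈ Ioo (0 : ℝ) 1) :
    HasDerivAt (A.e ∘ w.pt) (w.dv t) t := by
  rw [hasDerivAt_iff_isLittleO, Asymptotics.isLittleO_iff]
  intro c hc
  have hn := norm_nonneg (w.dv t)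
  have h1 : ∀ᶠ s in 𝓝 t, s ∈ Icc (0 : ℝ) 1 := Icc_mem_nhds ht.1 ht.2
  have h2 : ∀ᶠ s in 𝓝 t, ‖w.dv t‖ * |s - t| / 3 < c := by
    have hcont : Continuous fun s : ℝ => ‖w.dv t‖ * |s - t| / 3 := by fun_prop
    refine hcont.continuousAt.eventually_lt continuousAt_const ?_
    simpa using hc
  filter_upwards [h1, h2] with s hs hs2
  have h3 := w.taylor_sl1 hs (Ioo_subset_Icc_self ht)
  rw [← sq_abs] at h3
  rw [Real.norm_eq_abs]
  have h0 := abs_nonneg (s - t)
  have h4 : ‖w.dv t‖ * |s - t| / 3 * |s - t| ≤ c * |s - t| := mul_le_mul_of_nonneg_right hs2.le h0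
  refine h3.trans ?_
  nlinarith

theorem hasDerivAt_DN {G : X → X} (hG : A.Sm G) (w : Cv A ε) {t : ℝ} (ht : t ∈ Ioo (0 : ℝ) 1) :
    HasDerivAt (A.e ∘ G ∘ w.pt) (w.DN G t) t :=
  hG.hasDerivAt_comp (A.mem_D (w.pt t)) (by rw [dist_self]; exact A.ρ_pos) (w.hasDerivAt ht)

/-- The velocity of the image can be computed in any chart. -/
theorem DN_eq {G : X → X} (hG : A.Sm G) (w : Cv A ε) {t : ℝ} (ht : t ∈ Ioo (0 : ℝ) 1)
    {i : Fin A.m} {x : X} (hx : x ∈ A.D i) (hd : dist (w.pt t) x < A.ρ) :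
    w.DN G t = fderiv ℝ (A.rep G i) (A.φ i (w.pt t)) (A.pr i (w.dv t)) :=
  (w.hasDerivAt_DN hG ht).unique (hG.hasDerivAt_comp hx hd (w.hasDerivAt ht))

theorem measurable_DN [CompactSpace X] [BorelSpace X] {G : X → X} (hG : A.Sm G) :
    Measurable fun z : Cv A ε × ℝ => z.1.DN G z.2 := by
  have hp : Measurable fun z : Cv A ε × ℝ => z.1.pt z.2 := continuous_pt.measurable
  have hv : Measurable fun z : Cv A ε × ℝ => z.1.dv z.2 := continuous_dv.measurable
  have h1 := hG.measurable_fderiv.comp hp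
  have h2 : Measurable fun z : Cv A ε × ℝ => A.pr (A.idx (z.1.pt z.2)) :=
    (measurable_of_finite A.pr).comp (A.meas_idx.comp hp)
  have h3 : Measurable fun z : Cv A ε × ℝ => A.pr (A.idx (z.1.pt z.2)) (z.1.dv z.2) :=
    ContinuousLinearMap.measurable_apply₂.comp (h2.prodMk hv)
  exact ContinuousLinearMap.measurable_apply₂.comp (h1.prodMk h3)

/-- The tangent vector in the selected chart. -/
theorem norm_Dm_le_DN (G : X → X) (w : Cv A ε) (t : ℝ) :
    ‖A.Dm G (w.pt t) (A.pr (A.idx (w.pt t)) (w.dv t))‖ ≤ ‖w.DN G t‖ :=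
  A.norm_Dm_apply_le G _ _

theorem Big.pr_ne (hε : 0 < ε) {w : Cv A ε} (h : w.Big) {t : ℝ} (ht : t ∈ Ioo (0 : ℝ) 1) :
    A.pr (A.idx (w.pt t)) (w.dv t) ≠ 0 := by
  intro h0
  have h1 := Atlas.norm_le_pr (A.mem_D (w.pt t)) (by rw [dist_self]; exact A.ρ_pos)
    (w.hasDerivAt ht)
  rw [h0, norm_zero, mul_zero] at h1
  have h2 := h t
  linarith

theorem isClosed_big : IsClosed {w : Cv A ε | w.Big} := by
  have : {w : Cv A ε | w.Big} = ⋂ t : ℝ, {w : Cv A ε | ε / 4 ≤ ‖w.dv t‖} := by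
    ext w
    simp [Big]
  rw [this]
  refine isClosed_iInter fun t => isClosed_le continuous_const ?_
  exact (continuous_dv.comp (continuous_id.prodMk continuous_const)).norm

theorem norm_pr_le_sl1 (i : Fin A.m) (v : Fin A.N → ℝ) : ‖A.pr i v‖ ≤ ‖v‖ := by
  refine ((A.pr i).le_opNorm v).trans ?_
  have := A.pr_le i
  have h0 := norm_nonneg v
  nlinarith

/-- Nearby curves have nearby images under nearby maps, in the `C^1` sense. -/
theorem close {gs : ℕ → X → X} {g : X → X} (h : A.Conv1 gs g) (hs : ∀ n, A.Sm (gs n))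
    (hg : A.Sm g) (w0 : Cv A ε) {γ : ℝ} (hγ : 0 < γ) : ∃ δ : ℝ, 0 < δ ∧ ∀ᶠ n in atTop,
      ∀ w : Cv A ε, dist w w0 < δ → (∀ t, dist (gs n (w.pt t)) (g (w0.pt t)) ≤ γ) ∧
        ∀ t ∈ Ioo (0 : ℝ) 1, ‖w.DN (gs n) t - w0.DN g t‖ ≤ γ := by
  obtain ⟨L, -, hL⟩ := hg.lip
  obtain ⟨K0, hK0⟩ := hg.2 2
  have hK : A.Reg 2 (max K0 0) g := hK0.mono le_rfl (le_max_left _ _)
  have hKn : 0 ≤ max K0 0 := le_max_right _ _
  generalize max K0 0 = K at hK hKn
  have hup : A.Up K g := (hK.mono (by norm_num) le_rfl).up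
  have hε := w0.eps_nonneg_sl1
  have hLn : (0 : ℝ) ≤ L := L.2
  set C : ℝ := L + K * ε + K + 1 with hC
  have hCpos : 0 < C := by positivity
  have hη : 0 < γ / (2 * (ε + 1)) := by positivity
  refine ⟨min A.ρ (γ / (2 * C)), lt_min A.ρ_pos (by positivity), ?_⟩
  have e1 := Metric.tendstoUniformly_iff.1 h.tendstoUniformly (γ / 2) (by positivity)
  have e2 : ∀ᶠ n in atTop, ∀ i : Fin A.m, ∀ z ∈ A.U i,
      dist (fderiv ℝ (A.rep g i) z) (fderiv ℝ (A.rep (gs n) i) z) < γ / (2 * (ε + 1)) :=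
    eventually_all.2 fun i => Metric.tendstoUniformlyOn_iff.1 (h i).2 _ hη
  filter_upwards [e1, e2] with n h1 h2 w hw
  have hwρ : dist w w0 < A.ρ := hw.trans_le (min_le_left _ _)
  have hwC : dist w w0 * C ≤ γ / 2 := by
    have : dist w w0 ≤ γ / (2 * C) := (hw.trans_le (min_le_right _ _)).le
    calc dist w w0 * C ≤ γ / (2 * C) * C := mul_le_mul_of_nonneg_right this hCpos.le
      _ = γ / 2 := by field_simp
  have hd0 : 0 ≤ dist w w0 := dist_nonneg
  have hKd : 0 ≤ K * dist w w0 := by positivity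
  have hKεd : 0 ≤ K * ε * dist w w0 := by positivity
  have hLd : 0 ≤ L * dist w w0 := by positivity
  refine ⟨fun t => ?_, fun t ht => ?_⟩
  · have a1 := h1 (w.pt t)
    have a2 := hL.dist_le_mul (w.pt t) (w0.pt t)
    have a3 := dist_pt_le w w0 t
    have a4 := dist_triangle (gs n (w.pt t)) (g (w.pt t)) (g (w0.pt t))
    have a5 : (L : ℝ) * dist (w.pt t) (w0.pt t) ≤ L * dist w w0 := mul_le_mul_of_nonneg_left a3 hLn
    rw [dist_comm] at a1
    nlinarith
  · have hx := A.mem_D (w0.pt t)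
    have a3 := dist_pt_le w w0 t
    have hd : dist (w.pt t) (w0.pt t) < A.ρ := a3.trans_lt hwρ
    have hd' : dist (w0.pt t) (w0.pt t) < A.ρ := by rw [dist_self]; exact A.ρ_pos
    rw [DN_eq (hs n) w ht hx hd, DN_eq hg w0 ht hx hd']
    generalize A.idx (w0.pt t) = i at hx
    have hz := Atlas.φ_mem hx hd
    have hz0 := Atlas.φ_mem hx hd'
    have hzz : ‖A.φ i (w.pt t) - A.φ i (w0.pt t)‖ ≤ dist w w0 := (A.norm_φ_sub_le i _ _).trans a3
    have hv : ‖A.pr i (w.dv t)‖ ≤ ε := (norm_pr_le_sl1 i _).trans (w.norm_dv_le t)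
    have hvv : ‖A.pr i (w.dv t) - A.pr i (w0.dv t)‖ ≤ dist w w0 := by
      rw [← map_sub]
      exact (norm_pr_le_sl1 i _).trans (norm_dv_sub_le w w0 t)
    have b1 := h2 i _ hz
    have b2 := hK.fderiv_lip hz hz0
    have b3 := hup i _ hz0
    generalize A.φ i (w.pt t) = z at *
    generalize A.φ i (w0.pt t) = z0 at *
    generalize A.pr i (w.dv t) = v at *
    generalize A.pr i (w0.dv t) = v0 at *
    generalize fderiv ℝ (A.rep (gs n) i) z = P at *
    generalize fderiv ℝ (A.rep g i) z = Q at *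
    generalize fderiv ℝ (A.rep g i) z0 = R at *
    have e : P v - R v0 = (P - Q) v + (Q - R) v + R (v - v0) := by
      simp only [ContinuousLinearMap.sub_apply, map_sub]
      abel
    rw [dist_comm, dist_eq_norm] at b1
    have c1 : ‖(P - Q) v‖ ≤ γ / (2 * (ε + 1)) * ε :=
      ((P - Q).le_opNorm v).trans (mul_le_mul b1.le hv (norm_nonneg _) hη.le)
    have c2 : ‖(Q - R) v‖ ≤ K * dist w w0 * ε :=
      ((Q - R).le_opNorm v).trans
        (mul_le_mul (b2.trans (mul_le_mul_of_nonneg_left hzz hKn)) hv (norm_nonneg _) hKd)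
    have c3 : ‖R (v - v0)‖ ≤ K * dist w w0 :=
      (R.le_opNorm _).trans (mul_le_mul b3 hvv (norm_nonneg _) hKn)
    have c4 : γ / (2 * (ε + 1)) * ε ≤ γ / 2 := by
      have : γ / (2 * (ε + 1)) * (ε + 1) = γ / 2 := by field_simp
      nlinarith
    rw [e]
    refine (norm_add₃_le).trans ?_
    nlinarith

end Cv

theorem aff_mem_sl1 {a h t : ℝ} (h0 : 0 < h) (ht : t ∈ Icc (0 : ℝ) 1) :
    a + h * t ∈ Icc a (a + h) := by
  constructor <;> nlinarith [ht.1, ht.2]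

/-- A good curve on `[a, a + h]` gives an element of the space of curves. -/
theorem Atlas.Good.exists_cv {r : ℕ} {c : ℝ → X} {a h : ℝ} (H : A.Good r ε c a h) (hr : 2 ≤ r)
    (h0 : 0 < h) : ∃ w : Cv A ε, ∀ t ∈ Icc (0 : ℝ) 1,
      w.pt t = c (a + h * t) ∧ w.dv t = h • deriv (A.e ∘ c) (a + h * t) := by
  have haff : Continuous fun t : I => a + h * (t : ℝ) := by fun_prop
  have hm : ∀ t : I, a + h * (t : ℝ) ∈ Icc a (a + h) := fun t => aff_mem_sl1 h0 t.2
  have hc1 : Continuous fun t : I => c (a + h * (t : ℝ)) := by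
    rw [A.iso.isEmbedding.continuous_iff, continuous_iff_continuousAt]
    intro t
    exact ContinuousAt.comp (f := fun t : I => a + h * (t : ℝ)) (g := A.e ∘ c)
      (H.1 _ (hm t)).continuousAt haff.continuousAt
  have hc2 : Continuous fun t : I => h • deriv (A.e ∘ c) (a + h * (t : ℝ)) := by
    refine Continuous.const_smul ?_ h
    rw [continuous_iff_continuousAt]
    intro t
    refine ContinuousAt.comp (f := fun t : I => a + h * (t : ℝ)) (g := deriv (A.e ∘ c)) ?_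
      haff.continuousAt
    have hr0 : (r : WithTop ℕ∞) ≠ 0 := by
      have : r ≠ 0 := by omega
      exact_mod_cast this
    have h1 := (H.1 _ (hm t)).continuousAt_fderiv hr0
    exact h1.clm_apply continuousAt_const
  have hn : ∀ v : Fin A.N → ℝ, ‖h • v‖ = ‖v‖ * h := fun v => by
    rw [norm_smul, Real.norm_eq_abs, abs_of_pos h0, mul_comm]
  refine ⟨⟨⟨fun t => (c (a + h * (t : ℝ)), h • deriv (A.e ∘ c) (a + h * (t : ℝ))),
    hc1.prodMk hc2⟩, fun t => ?_, fun s t => ?_, fun s t => ?_⟩, fun t ht => ?_⟩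
  · change ‖h • deriv (A.e ∘ c) (a + h * (t : ℝ))‖ ≤ ε
    rw [hn]
    exact H.2.2 _ (hm t)
  · change ‖h • deriv (A.e ∘ c) (a + h * (s : ℝ)) - h • deriv (A.e ∘ c) (a + h * (t : ℝ))‖ ≤
      ‖h • deriv (A.e ∘ c) (a + h * (t : ℝ))‖ * |(s : ℝ) - t| / 3
    have h1 := Atlas.Bdd.deriv_sub H.1 H.2.1 hr h0 (hm s) (hm t)
    have h2 : a + h * (s : ℝ) - (a + h * (t : ℝ)) = h * ((s : ℝ) - t) := by ring
    rw [h2, abs_mul, abs_of_pos h0] at h1
    rw [← smul_sub, hn, hn, mul_assoc]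
    exact h1
  · change ‖A.e (c (a + h * (s : ℝ))) - A.e (c (a + h * (t : ℝ))) -
      ((s : ℝ) - t) • h • deriv (A.e ∘ c) (a + h * (t : ℝ))‖ ≤
      ‖h • deriv (A.e ∘ c) (a + h * (t : ℝ))‖ * ((s : ℝ) - t) ^ 2 / 3
    have h1 := Atlas.Bdd.taylor H.1 H.2.1 hr h0 (hm s) (hm t)
    have h2 : a + h * (s : ℝ) - (a + h * (t : ℝ)) = ((s : ℝ) - t) * h := by ring
    rw [h2] at h1
    rw [smul_smul, hn]
    refine le_of_mul_le_mul_right (h1.trans (le_of_eq ?_)) h0
    ring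
  · have e1 : ((projIcc (0 : ℝ) 1 zero_le_one t : I) : ℝ) = t := by rw [projIcc_of_mem _ ht]
    constructor
    · change c (a + h * ((projIcc (0 : ℝ) 1 zero_le_one t : I) : ℝ)) = _
      rw [e1]
    · change h • deriv (A.e ∘ c) (a + h * ((projIcc (0 : ℝ) 1 zero_le_one t : I) : ℝ)) = _
      rw [e1]

theorem deriv_aff_sl1 {E : Type} [NormedAddCommGroup E] [NormedSpace ℝ E] (u : ℝ → E)
    (a h t : ℝ) : deriv (fun t => u (a + h * t)) t = h • deriv u (a + h * t) := by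
  have h1 := deriv_comp_mul_left h (fun x => u (a + x)) t
  rw [deriv_comp_const_add] at h1
  exact h1

theorem iteratedDeriv_aff_sl1 {E : Type} [NormedAddCommGroup E] [NormedSpace ℝ E] (u : ℝ → E)
    (a h : ℝ) (s : ℕ) : iteratedDeriv s (fun t => u (a + h * t)) =
      fun t => h ^ s • iteratedDeriv s u (a + h * t) := by
  induction s with
  | zero => simp
  | succ s ih =>
    funext t
    rw [iteratedDeriv_succ, ih, deriv_fun_const_smul_field, deriv_aff_sl1, ← iteratedDeriv_succ,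
      smul_smul, pow_succ]

theorem Atlas.Good.rescale {r : ℕ} {c : ℝ → X} {a h : ℝ} (H : A.Good r ε c a h) (h0 : 0 < h) :
    A.Good r ε (fun t => c (a + h * t)) 0 1 := by
  have e : (A.e ∘ fun t => c (a + h * t)) = fun t => (A.e ∘ c) (a + h * t) := rfl
  have hm : ∀ t ∈ Icc (0 : ℝ) (0 + 1), a + h * t ∈ Icc a (a + h) := fun t ht =>
    aff_mem_sl1 h0 (by simpa using ht)
  refine ⟨fun t ht => ?_, fun s hs hs' t ht => ?_, fun t ht => ?_⟩
  · exact ContDiffAt.comp (g := A.e ∘ c) (f := fun t => a + h * t) t (H.1 _ (hm t ht))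
      (by fun_prop)
  · have h1 := H.2.1 s hs hs' _ (hm t ht)
    rw [e, iteratedDeriv_aff_sl1, deriv_aff_sl1, one_pow, mul_one, norm_smul, norm_smul,
      Real.norm_eq_abs, Real.norm_eq_abs, abs_of_pos h0, abs_of_pos (pow_pos h0 s)]
    obtain ⟨k, rfl⟩ : ∃ k, s = k + 1 := ⟨s - 1, by omega⟩
    rw [Nat.add_sub_cancel] at h1
    have h2 := mul_le_mul_of_nonneg_left h1 h0.le
    refine le_trans (le_of_eq ?_) (h2.trans (le_of_eq ?_)) <;> ring
  · have h1 := H.2.2 _ (hm t ht)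
    rw [e, deriv_aff_sl1, mul_one, norm_smul, Real.norm_eq_abs, abs_of_pos h0, mul_comm]
    exact h1

/-- The local volume growth of a curve that comes from a good curve. -/
theorem lv_of_good {F : Dif A} {q : Prm} {r js : ℕ} {n1 n2 : ℝ}
    (H : YFit A F.f^[q.p] r q.ε q.Λ n1 n2 js) (h1 : n1 ≤ Real.exp (q.α * q.p))
    {c : ℝ → X} (hc : A.Good r q.ε c 0 1) {w : Cv A q.ε} (hw : ∀ t ∈ Icc (0 : ℝ) 1, w.pt t = c t) :
    LV F q w := by
  intro N x θ hθ
  have h2 := H.volume_le one_pos hc N x hθ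
  obtain ⟨S, hS, -⟩ := H.cover c 0 1 x one_pos hc
  have hn : 0 ≤ n1 := (Nat.cast_nonneg _).trans hS
  have hε := H.ε_pos
  refine le_trans (measure_mono ?_) (h2.trans (ENNReal.ofReal_le_ofReal ?_))
  · rintro t ⟨ht, ha, hb⟩
    have ht' := Ioo_subset_Icc_self ht
    refine ⟨by simpa using ht', fun k hk => ?_, ?_⟩
    · rw [← hw t ht']
      exact ha k hk
    · have h3 := w.hasDerivAt_DN (H.sm.iter N) ht
      have h4 : A.e ∘ (F.f^[q.p])^[N] ∘ c =ᶠ[𝓝 t] A.e ∘ (F.f^[q.p])^[N] ∘ w.pt := by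
        filter_upwards [Icc_mem_nhds ht.1 ht.2] with s hs
        simp only [Function.comp_apply, hw s hs]
      rw [(h3.congr_of_eventuallyEq h4).deriv]
      exact hb
  · have h3 : n1 ^ N ≤ Real.exp (q.α * q.p * N) := by
      rw [mul_comm _ (N : ℝ), Real.exp_nat_mul]
      exact pow_le_pow_left₀ hn h1 N
    gcongr

theorem UAll.ucur (F : Dif A) {q : Prm} (hp : 1 ≤ q.p) (hε : 0 < q.ε) (hα : 0 ≤ q.α) :
    ∃ K : ℝ, 0 < K ∧ ∀ w : Cv A q.ε, UAll F q w → UCur F.g K (2 * q.α) w.pt := by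
  obtain ⟨L, hL1, hL⟩ := F.smg.lip
  have hL1' : (1 : ℝ) ≤ L := by exact_mod_cast hL1
  refine ⟨max (6 / q.ε) ((L : ℝ) ^ q.p * q.ε * Real.exp (2 * q.α * q.p)),
    lt_max_of_lt_left (by positivity), fun w hw s hs t ht => ⟨?_, fun j => ?_⟩⟩
  · have h1 := hw.1.le_dist hs ht
    have h2 : |s - t| ≤ 6 / q.ε * dist (w.pt s) (w.pt t) := by
      calc |s - t| = 6 / q.ε * (q.ε / 6 * |s - t|) := by field_simp
        _ ≤ _ := mul_le_mul_of_nonneg_left h1 (by positivity)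
    exact h2.trans (mul_le_mul_of_nonneg_right (le_max_left _ _) dist_nonneg)
  · have hj : j % q.p + q.p * (j / q.p) = j := Nat.mod_add_div j q.p
    have hb : j % q.p ≤ q.p := (Nat.mod_lt j hp).le
    generalize j % q.p = b at hj hb
    generalize j / q.p = a at hj
    subst hj
    have h1 := hw.2 a s t
    rw [← Function.iterate_mul] at h1
    rw [Function.iterate_add_apply, Function.iterate_add_apply]
    have h2 := (hL.iterate b).dist_le_mul (F.g^[q.p * a] (w.pt s)) (F.g^[q.p * a] (w.pt t))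
    have h3 : ((L ^ b : NNReal) : ℝ) ≤ (L : ℝ) ^ q.p := by
      rw [NNReal.coe_pow]
      exact pow_le_pow_right₀ hL1' hb
    have h4 : Real.exp (-(2 * (q.α * q.p)) * a) ≤
        Real.exp (2 * q.α * q.p) * Real.exp (-(2 * q.α) * ((b + q.p * a : ℕ) : ℝ)) := by
      rw [← Real.exp_add]
      refine Real.exp_le_exp.2 ?_
      have hb' : (b : ℝ) ≤ q.p := by exact_mod_cast hb
      push_cast
      nlinarith
    have h0 := abs_nonneg (s - t)
    calc _ ≤ _ := h2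
      _ ≤ (L : ℝ) ^ q.p * (q.ε * (Real.exp (2 * q.α * q.p) *
            Real.exp (-(2 * q.α) * ((b + q.p * a : ℕ) : ℝ))) * |s - t|) := by
          refine mul_le_mul h3 (h1.trans ?_) dist_nonneg (by positivity)
          gcongr
      _ = (L : ℝ) ^ q.p * q.ε * Real.exp (2 * q.α * q.p) *
            Real.exp (-(2 * q.α) * ((b + q.p * a : ℕ) : ℝ)) * |s - t| := by ring
      _ ≤ _ := by
          gcongr
          exact le_max_right _ _

/-- The tangent vector of a curve contracted in the past is contracted in the past. -/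
theorem UC.norm_coc_le {F : Dif A} {q : Prm} {j : ℕ} {w : Cv A q.ε} (h : UC F q j w) {t : ℝ}
    (ht : t ∈ Ioo (0 : ℝ) 1) :
    ‖A.coc F.g (q.p * j) (w.pt t) (A.pr (A.idx (w.pt t)) (w.dv t))‖ ≤
      q.ε * Real.exp (-(2 * q.α) * (q.p * j : ℕ)) := by
  refine (Cv.norm_Dm_le_DN F.g^[q.p * j] w t).trans ?_
  have hε := w.eps_nonneg_sl1
  refine (w.hasDerivAt_DN (F.smg.iter (q.p * j)) ht).le_of_lip' (by positivity)
    (Eventually.of_forall fun s => ?_)
  have h1 := h s t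
  rw [← Function.iterate_mul, A.dist_eq] at h1
  have e : -(2 * q.α) * ((q.p * j : ℕ) : ℝ) = -(2 * (q.α * q.p)) * j := by
    push_cast
    ring
  rw [e]
  exact h1

end Pool.Agent.Lib.MP_e7c912_an
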