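import Pool.Agent.Lib.MP_e7c912_an.H60IDef
import Pool.Agent.Lib.MP_e7c912_an.H60SLem1
import Pool.Agent.Lib.MP_e7c912_an.H60Tr1

/-! Curves that cross a box are graphs, in a robust way. -/

namespace Pool.Agent.Lib.MP_e7c912_an

open MeasureTheory Filter Metric Set Topology

variable {X : Type} [MetricSpace X] [MeasurableSpace X] {A : Atlas X}

/-- A continuous right inverse of an expanding function. -/
theorem inv_crs {u : ℝ → ℝ} {a b c τ : ℝ} (hc : 0 < c) (hτ : 0 ≤ τ)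
    (sep : ∀ t ∈ Icc a b, ∀ t' ∈ Icc a b, c * |t - t'| ≤ |u t - u t'|)
    (onto : ∀ v ∈ Icc (-τ) τ, ∃ t ∈ Icc a b, u t = v) :
    ∃ T : ℝ → ℝ, Continuous T ∧ (∀ v, T v ∈ Icc a b) ∧ ∀ v ∈ Icc (-τ) τ, u (T v) = v := by
  have hle : -τ ≤ τ := by linarith
  choose T0 h1 h2 using fun v : Icc (-τ) τ => onto v.1 v.2
  have hT0 : Continuous T0 := by
    refine (LipschitzWith.of_dist_le_mul (K := (c⁻¹).toNNReal) fun v v' => ?_).continuous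
    have h := sep _ (h1 v) _ (h1 v')
    rw [h2, h2] at h
    rw [Real.coe_toNNReal _ (inv_pos.2 hc).le, Subtype.dist_eq, Real.dist_eq, Real.dist_eq,
      ← div_eq_inv_mul, le_div_iff₀ hc]
    linarith
  refine ⟨fun v => T0 (projIcc (-τ) τ hle v), hT0.comp continuous_projIcc, fun v => h1 _,
    fun v hv => ?_⟩
  rw [h2, projIcc_of_mem hle hv]

theorem Box.fst_lip_crs {F : Dif A} {Λ : Set X} {x0 : X} {ρ K c ε0 : ℝ}
    (B : Box F Λ x0 ρ K c ε0) {σ σ' : ℝ → X} {d d' : ℝ → Fin A.N → ℝ} {a b γ : ℝ}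
    (h : ∀ t ∈ Icc a b, HasDerivAt (A.e ∘ σ) (d t) t)
    (h' : ∀ t ∈ Icc a b, HasDerivAt (A.e ∘ σ') (d' t) t)
    (hd : ∀ t ∈ Icc a b, ‖d t - d' t‖ ≤ γ) {t t' : ℝ} (ht : t ∈ Icc a b) (ht' : t' ∈ Icc a b) :
    |((B.Φ (σ t)).1 - (B.Φ (σ' t)).1) - ((B.Φ (σ t')).1 - (B.Φ (σ' t')).1)| ≤
      K * γ * |t - t'| := by
  let L : (Fin A.N → ℝ) →L[ℝ] ℝ := (ContinuousLinearMap.fst ℝ ℝ ℝ).comp (B.Ci.comp (A.pr B.i))
  have hK := B.one_le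
  have hL : ∀ v, ‖L v‖ ≤ K * ‖v‖ := by
    intro v
    have a1 : ‖A.pr B.i v‖ ≤ ‖v‖ := by
      have := (A.pr B.i).le_opNorm v
      have h1 := A.pr_le B.i
      have h0 := norm_nonneg v
      nlinarith
    have a2 : ‖B.Ci (A.pr B.i v)‖ ≤ K * ‖v‖ :=
      (B.Ci.le_opNorm _).trans (mul_le_mul B.Ci_le a1 (norm_nonneg _) (by linarith))
    exact (norm_fst_le (B.Ci (A.pr B.i v))).trans a2
  have e : ∀ s, (B.Φ (σ s)).1 - (B.Φ (σ' s)).1 = L ((A.e ∘ σ) s - (A.e ∘ σ') s) := by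
    intro s
    rw [Box.Φ_def_tr1, Box.Φ_def_tr1, ← Prod.fst_sub, ← map_sub, sub_sub_sub_cancel_right]
    simp [L, Atlas.φ]
  rw [e, e]
  have hder : ∀ s ∈ Icc a b, HasDerivWithinAt (fun s => L ((A.e ∘ σ) s - (A.e ∘ σ') s))
      (L (d s - d' s)) (Icc a b) s := fun s hs =>
    (L.hasFDerivAt.comp_hasDerivAt s ((h s hs).sub (h' s hs))).hasDerivWithinAt
  have hb : ∀ s ∈ Icc a b, ‖L (d s - d' s)‖ ≤ K * γ := fun s hs =>
    (hL _).trans (mul_le_mul_of_nonneg_left (hd s hs) (by linarith))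
  exact (convex_Icc a b).norm_image_sub_le_of_norm_hasDerivWithin_le hder hb ht' ht

/-- Nearby curves for nearby maps are graphs. -/
theorem Cross.graph {F : Dif A} {Λ : Set X} {x0 : X} {ρ K c ε0 : ℝ} {B : Box F Λ x0 ρ K c ε0}
    {τ : ℝ} (hτ : 0 < τ) {gs : ℕ → X → X} {g : X → X} (hc : A.Conv1 gs g) (hs : ∀ n, A.Sm (gs n))
    (hg : A.Sm g) {ε : ℝ} {w0 : Cv A ε} {h : ℝ → ℝ} {a b c1 : ℝ}
    (H : Cross B τ (g ∘ w0.pt) h a b c1) {γ : ℝ} (hγ : 0 < γ) : ∃ δ : ℝ, 0 < δ ∧ ∀ᶠ n in atTop,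
      ∀ w : Cv A ε, dist w w0 < δ → ∃ top : ℝ → ℝ, Continuous top ∧ ∀ u ∈ Icc (-τ) τ,
        |top u - h u| ≤ γ ∧ ∃ t ∈ Icc (0 : ℝ) 1, gs n (w.pt t) = B.Ψ (u, top u) := by
  have hK := B.one_le
  have hK0 : 0 < K := by linarith
  have hc1 := H.c1_pos
  have hAρ := A.ρ_pos
  obtain ⟨γ', hγ', g1, g2, g3, g4⟩ : ∃ γ' : ℝ, 0 < γ' ∧ K * γ' ≤ c1 / 2 ∧ K * γ' ≤ τ ∧
      K * γ' ≤ γ / 2 ∧ K * γ' ≤ A.ρ / 4 := by
    refine ⟨min (min (c1 / 2) τ) (min (γ / 2) (A.ρ / 4)) / K, by positivity, ?_⟩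
    rw [mul_div_cancel₀ _ hK0.ne']
    exact ⟨(min_le_left _ _).trans (min_le_left _ _), (min_le_left _ _).trans (min_le_right _ _),
      (min_le_right _ _).trans (min_le_left _ _), (min_le_right _ _).trans (min_le_right _ _)⟩
  have g5 : γ' ≤ K * γ' := le_mul_of_one_le_left hγ'.le hK
  obtain ⟨δ, hδ, hev⟩ := Cv.close hc hs hg w0 hγ'
  refine ⟨δ, hδ, hev.mono fun n hn w hw => ?_⟩
  obtain ⟨n1, n2⟩ := hn w hw
  have hsub : ∀ t ∈ Icc a b, t ∈ Ioo (0 : ℝ) 1 := fun t ht =>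
    ⟨H.a_pos.trans_le ht.1, ht.2.trans_lt H.b_lt⟩
  have hpt : Continuous w.pt := Cv.continuous_pt.comp (Continuous.prodMk_right w)
  have hcont : Continuous fun t => B.Φ (gs n (w.pt t)) :=
    B.continuous_Φ.comp ((hs n).1.comp hpt)
  have hnear : ∀ t, ‖B.Φ (gs n (w.pt t)) - B.Φ (g (w0.pt t))‖ ≤ K * γ' := fun t =>
    (B.norm_Φ_sub_le _ _).trans (mul_le_mul_of_nonneg_left (n1 t) hK0.le)
  have hn1 : ∀ t, |(B.Φ (gs n (w.pt t))).1 - (B.Φ (g (w0.pt t))).1| ≤ K * γ' := fun t =>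
    (norm_fst_le (B.Φ (gs n (w.pt t)) - B.Φ (g (w0.pt t)))).trans (hnear t)
  have hn2 : ∀ t, |(B.Φ (gs n (w.pt t))).2 - (B.Φ (g (w0.pt t))).2| ≤ K * γ' := fun t =>
    (norm_snd_le (B.Φ (gs n (w.pt t)) - B.Φ (g (w0.pt t)))).trans (hnear t)
  have sep : ∀ t ∈ Icc a b, ∀ t' ∈ Icc a b,
      c1 / 2 * |t - t'| ≤ |(B.Φ (gs n (w.pt t))).1 - (B.Φ (gs n (w.pt t'))).1| := by
    intro t ht t' ht'
    have a1 : |((B.Φ (gs n (w.pt t))).1 - (B.Φ (g (w0.pt t))).1) -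
        ((B.Φ (gs n (w.pt t'))).1 - (B.Φ (g (w0.pt t'))).1)| ≤ K * γ' * |t - t'| :=
      B.fst_lip_crs (σ := gs n ∘ w.pt) (σ' := g ∘ w0.pt)
        (fun s hs' => Cv.hasDerivAt_DN (hs n) w (hsub s hs'))
        (fun s hs' => Cv.hasDerivAt_DN hg w0 (hsub s hs')) (fun s hs' => n2 s (hsub s hs')) ht ht'
    have a2 : c1 * |t - t'| ≤ |(B.Φ (g (w0.pt t))).1 - (B.Φ (g (w0.pt t'))).1| :=
      H.sep t ht t' ht'
    have a3 := mul_le_mul_of_nonneg_right g1 (abs_nonneg (t - t'))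
    have a4 := abs_sub ((B.Φ (gs n (w.pt t))).1 - (B.Φ (gs n (w.pt t'))).1)
      (((B.Φ (gs n (w.pt t))).1 - (B.Φ (g (w0.pt t))).1) -
        ((B.Φ (gs n (w.pt t'))).1 - (B.Φ (g (w0.pt t'))).1))
    have a5 : (B.Φ (gs n (w.pt t))).1 - (B.Φ (gs n (w.pt t'))).1 -
        (((B.Φ (gs n (w.pt t))).1 - (B.Φ (g (w0.pt t))).1) -
        ((B.Φ (gs n (w.pt t'))).1 - (B.Φ (g (w0.pt t'))).1)) =
        (B.Φ (g (w0.pt t))).1 - (B.Φ (g (w0.pt t'))).1 := by ring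
    rw [a5] at a4
    linarith
  obtain ⟨t1, ht1, e1⟩ := H.onto (-(2 * τ)) (by rw [abs_neg, abs_of_pos (by linarith)])
  obtain ⟨t2, ht2, e2⟩ := H.onto (2 * τ) (by rw [abs_of_pos (by linarith)])
  have e1' : (B.Φ (g (w0.pt t1))).1 = -(2 * τ) := e1
  have e2' : (B.Φ (g (w0.pt t2))).1 = 2 * τ := e2
  have hτρ : 2 * τ ≤ ρ / 2 := by
    have := (H.near t2 ht2).2.1
    rw [e2] at this
    exact (le_abs_self _).trans this
  have onto : ∀ v ∈ Icc (-τ) τ, ∃ t ∈ Icc a b, (B.Φ (gs n (w.pt t))).1 = v := by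
    intro v hv
    have b1 := abs_le.1 (hn1 t1)
    have b2 := abs_le.1 (hn1 t2)
    rw [e1'] at b1
    rw [e2'] at b2
    exact isPreconnected_Icc.intermediate_value ht1 ht2
      (f := fun t => (B.Φ (gs n (w.pt t))).1) hcont.fst.continuousOn
      ⟨by linarith [b1.2, hv.1], by linarith [b2.1, hv.2]⟩
  obtain ⟨T, hT, hTm, hTu⟩ := inv_crs (u := fun t => (B.Φ (gs n (w.pt t))).1) (half_pos hc1) hτ.le
    sep onto
  refine ⟨fun v => (B.Φ (gs n (w.pt (T v)))).2, (hcont.comp hT).snd, fun v hv => ?_⟩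
  have hu : (B.Φ (gs n (w.pt (T v)))).1 = v := hTu v hv
  obtain ⟨m1, m2, m3⟩ := H.near (T v) (hTm v)
  have m1' : dist (g (w0.pt (T v))) x0 ≤ A.ρ / 2 := m1
  have m2' : |(B.Φ (g (w0.pt (T v)))).1| ≤ ρ / 2 := m2
  have m3' : (B.Φ (g (w0.pt (T v)))).2 = h (B.Φ (g (w0.pt (T v)))).1 := m3
  have hρ := B.ρ_pos
  refine ⟨?_, T v, Ioo_subset_Icc_self (hsub _ (hTm v)), ?_⟩
  · have b1 := hn1 (T v)
    have b2 := hn2 (T v)
    rw [hu] at b1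
    rw [m3'] at b2
    have b3 := H.lip (B.Φ (g (w0.pt (T v)))).1 (abs_le.1 (by linarith)) v
      ⟨by linarith [hv.1], by linarith [hv.2]⟩
    rw [abs_sub_comm] at b1
    have b4 := abs_sub_le (B.Φ (gs n (w.pt (T v)))).2 (h (B.Φ (g (w0.pt (T v)))).1) (h v)
    change |(B.Φ (gs n (w.pt (T v)))).2 - h v| ≤ γ
    linarith
  · have b1 : dist (gs n (w.pt (T v))) x0 < A.ρ := by
      linarith [dist_triangle (gs n (w.pt (T v))) (g (w0.pt (T v))) x0, n1 (T v)]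
    have b2 : ((v, (B.Φ (gs n (w.pt (T v)))).2) : V) = B.Φ (gs n (w.pt (T v))) :=
      Prod.ext hu.symm rfl
    change gs n (w.pt (T v)) = B.Ψ (v, (B.Φ (gs n (w.pt (T v)))).2)
    rw [b2, B.Ψ_Φ b1]

end Pool.Agent.Lib.MP_e7c912_an
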