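import Pool.Agent.Lib.MP_e7c912_an.H60Ent

/-! Lower bounds for the entropy from measures that give small mass to Bowen balls. -/

namespace Pool.Agent.Lib.MP_e7c912_an

open MeasureTheory Filter Metric Set Topology
open scoped ENNReal

/-- Bowen balls of size `ε` have exponentially small mass. -/
def Thin {X : Type} [MetricSpace X] [MeasurableSpace X] (T : X → X) (ε β : ℝ) (ν : Measure X) :
    Prop :=
  ∃ C : ℝ, ∀ (n : ℕ) (x : X),
    ν {y | ∀ k < n, dist (T^[k] y) (T^[k] x) < ε} ≤ ENNReal.ofReal (C * Real.exp (-β * n))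

variable {X : Type} [MetricSpace X] [CompactSpace X] [MeasurableSpace X] [BorelSpace X]
  {T : X → X} {m ν : Measure X} {ε β : ℝ}

omit [CompactSpace X] [BorelSpace X] in
theorem Thin.one_le_th (h : Thin T ε β ν) : ∃ C : ℝ, 1 ≤ C ∧ ∀ (n : ℕ) (x : X),
    ν {y | ∀ k < n, dist (T^[k] y) (T^[k] x) < ε} ≤ ENNReal.ofReal (C * Real.exp (-β * n)) := by
  obtain ⟨C, hC⟩ := h
  refine ⟨max C 1, le_max_right _ _, fun n x => (hC n x).trans (ENNReal.ofReal_le_ofReal ?_)⟩
  exact mul_le_mul_of_nonneg_right (le_max_left _ _) (Real.exp_pos _).le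

omit [CompactSpace X] [BorelSpace X] in
theorem Thin.exists_set_th [IsProbabilityMeasure m] [IsFiniteMeasure ν] (h : Thin T ε β ν)
    (h0 : ν ≠ 0) (hac : ν ≪ m) : ∃ Y, MeasurableSet Y ∧ m Y ≠ 0 ∧ Thin T ε β (m.restrict Y) := by
  have hν := Measure.withDensity_rnDeriv_eq ν m hac
  have hm := Measure.measurable_rnDeriv ν m
  obtain ⟨k, hk⟩ : ∃ k : ℕ, 0 < m {x | (k : ℝ≥0∞)⁻¹ < ν.rnDeriv m x} := by
    refine exists_measure_pos_of_not_measure_iUnion_null fun e => h0 ?_
    rw [← hν, withDensity_eq_zero_iff hm.aemeasurable]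
    exact measure_mono_null (fun x hx => mem_iUnion.2 (ENNReal.exists_inv_nat_lt hx)) e
  have hY : MeasurableSet {x | (k : ℝ≥0∞)⁻¹ < ν.rnDeriv m x} := measurableSet_lt measurable_const hm
  refine ⟨_, hY, hk.ne', ?_⟩
  have h1 : m.restrict {x | (k : ℝ≥0∞)⁻¹ < ν.rnDeriv m x} ≤ (k : ℝ≥0∞) • ν := by
    conv_rhs => rw [← hν, ← withDensity_smul _ hm]
    rw [← withDensity_indicator_one hY]
    refine withDensity_mono (.of_forall fun x => indicator_apply_le fun hx => ?_)
    have h2 : (k : ℝ≥0∞) ≠ 0 := fun e => by simp [e] at hx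
    calc (1 : ℝ≥0∞) = k * (k : ℝ≥0∞)⁻¹ := (ENNReal.mul_inv_cancel h2 (by simp)).symm
      _ ≤ k * ν.rnDeriv m x := mul_le_mul_right (le_of_lt hx) _
  obtain ⟨C, hC⟩ := h
  refine ⟨k * C, fun n x => (h1 _).trans ?_⟩
  rw [Measure.smul_apply, smul_eq_mul, mul_assoc, ENNReal.ofReal_mul (Nat.cast_nonneg k),
    ENNReal.ofReal_natCast]
  exact mul_le_mul_right (hC n x) _

omit [CompactSpace X] [BorelSpace X] in
theorem Thin.preimage_th [IsProbabilityMeasure m] (hT : MeasurePreserving T m m) {Y : Set X}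
    (hY : MeasurableSet Y) (h : Thin T ε β (m.restrict Y)) : Thin T ε β (m.restrict (T ⁻¹' Y)) := by
  obtain ⟨C, hC⟩ := h
  refine ⟨max (C * Real.exp β) 1, fun n x => ?_⟩
  rw [Measure.restrict_apply' (hT.measurable hY)]
  cases n with
  | zero => exact prob_le_one.trans (by simp)
  | succ n =>
    have h1 := hC n (T x)
    rw [Measure.restrict_apply' hY] at h1
    refine (measure_mono (t := T ⁻¹' (_ ∩ Y)) ?_).trans
      ((Measure.le_map_apply hT.measurable.aemeasurable _).trans
        ((hT.map_eq ▸ h1 :).trans (ENNReal.ofReal_le_ofReal ?_)))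
    · exact fun y hy => ⟨fun k hk => hy.1 (k + 1) (by omega), hy.2⟩
    · refine le_trans (le_of_eq ?_)
        (mul_le_mul_of_nonneg_right (le_max_left _ _) (Real.exp_pos _).le)
      rw [mul_assoc, ← Real.exp_add]
      congr 2
      push_cast
      ring

omit [CompactSpace X] [BorelSpace X] in
theorem Thin.union_th {Y Y' : Set X} (h : Thin T ε β (m.restrict Y))
    (h' : Thin T ε β (m.restrict Y')) : Thin T ε β (m.restrict (Y ∪ Y')) := by
  obtain ⟨C, h1, hC⟩ := h.one_le_th
  obtain ⟨C', h1', hC'⟩ := h'.one_le_th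
  refine ⟨C + C', fun n x => (Measure.restrict_union_le _ _ _).trans ?_⟩
  rw [add_mul, ENNReal.ofReal_add (by positivity) (by positivity)]
  exact add_le_add (hC n x) (hC' n x)

theorem Thin.core_th [IsProbabilityMeasure m] (hT : Measurable T) {Y : Set X}
    (h : Thin T ε β (m.restrict Y)) (hε : 0 < ε) (hβ : 0 < β) :
    ENNReal.ofReal (m.real Y * β) ≤ ksEntropy m T := by
  obtain ⟨C, h1, hC⟩ := h.one_le_th
  obtain ⟨k, P, hP, hd⟩ := exists_partition (X := X) hε
  have hf : Fib P := fun b => hP (measurableSet_singleton b)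
  refine le_trans ?_ (ks_ge hf)
  have h2 : Tendsto (fun n : ℕ => ENNReal.ofReal (m.real Y * β - (m.real Y * Real.log C + 1) / n))
      atTop (𝓝 (ENNReal.ofReal (m.real Y * β - 0))) :=
    ENNReal.tendsto_ofReal ((tendsto_const_div_atTop_nhds_zero_nat _).const_sub _)
  rw [sub_zero] at h2
  rw [← h2.limsup_eq]
  have h3 : Tendsto (fun n : ℕ => C * Real.exp (-β * n)) atTop (𝓝 (C * 0)) :=
    (Real.tendsto_exp_atBot.comp (tendsto_natCast_atTop_atTop.const_mul_atTop_of_neg
      (neg_lt_zero.2 hβ))).const_mul C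
  refine limsup_le_limsup ?_
  filter_upwards [h3.eventually_le_const (show C * 0 < 1 by simp), eventually_gt_atTop 0]
    with n h4 hn
  have hi := hf.itin hT n
  have hs : ∀ (μ : Measure X) [IsFiniteMeasure μ],
      ∑ w, μ.real (itin T P n ⁻¹' {w}) = μ.real univ := fun μ _ => by
    rw [sum_measureReal_preimage_singleton _ fun w _ => hi w]
    simp
  have h5 := entropy_lower (m := fun w => m.real (itin T P n ⁻¹' {w}))
    (ζ := fun w => (m.restrict Y).real (itin T P n ⁻¹' {w})) (θ := C * Real.exp (-β * n))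
    (s := m.real Y) (fun _ => measureReal_nonneg)
    (fun w => ENNReal.toReal_mono (measure_ne_top _ _) (Measure.restrict_le_self _))
    (by simp [hs]) (fun w => ?_) (by positivity) h4 (by simp [hs])
  · refine ENNReal.ofReal_le_ofReal ?_
    have hn' : (0 : ℝ) < n := Nat.cast_pos.2 hn
    rw [Real.log_mul (by positivity) (Real.exp_pos _).ne', Real.log_exp] at h5
    rw [blockEntropy_eq, le_div_iff₀ hn', sub_mul, div_mul_cancel₀ _ hn'.ne', ent]
    linarith
  · rcases (itin T P n ⁻¹' {w}).eq_empty_or_nonempty with e | ⟨x, hx⟩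
    · simp only [e, measureReal_empty]
      positivity
    · refine ENNReal.toReal_le_of_le_ofReal (by positivity) ((measure_mono ?_).trans (hC n x))
      exact fun y hy k hk => hd _ _ (congrFun (hy.trans hx.symm) ⟨k, hk⟩)

theorem Thin.ks_ne [IsProbabilityMeasure m] [IsFiniteMeasure ν] (hT : MeasurePreserving T m m)
    (h : Thin T ε β ν) (hε : 0 < ε) (hβ : 0 < β) (h0 : ν ≠ 0) (hac : ν ≪ m) :
    ksEntropy m T ≠ 0 := by
  obtain ⟨Y, -, h1, h2⟩ := h.exists_set_th h0 hac
  exact ((ENNReal.ofReal_pos.2 (mul_pos (ENNReal.toReal_pos h1 (measure_ne_top _ _)) hβ)).trans_le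
    (h2.core_th hT.measurable hε hβ)).ne'

theorem Thin.ks_ge [IsProbabilityMeasure m] [IsFiniteMeasure ν] (hT : Ergodic T m)
    (h : Thin T ε β ν) (hε : 0 < ε) (h0 : ν ≠ 0) (hac : ν ≪ m) :
    ENNReal.ofReal β ≤ ksEntropy m T := by
  rcases le_or_gt β 0 with hβ | hβ
  · simp [ENNReal.ofReal_of_nonpos hβ]
  obtain ⟨Y, hY, h1, h2⟩ := h.exists_set_th h0 hac
  have hm := hT.toMeasurePreserving
  have h3 : ∀ j, Thin T ε β (m.restrict (T^[j] ⁻¹' Y)) := fun j => by
    induction j with
    | zero => exact h2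
    | succ j ih => exact ih.preimage_th hm (hm.measurable.iterate j hY)
  have h4 : ∀ J, Thin T ε β (m.restrict (accumulate (fun j => T^[j] ⁻¹' Y) J)) := fun J => by
    induction J with
    | zero => simpa using h2
    | succ J ih => simpa only [accumulate_succ] using ih.union_th (h3 _)
  have h5 : m (⋃ j, T^[j] ⁻¹' Y) = 1 := by
    rw [← measure_univ (μ := m)]
    exact measure_congr (eventuallyEq_univ.2 ((ergodic_freq hT hY h1).mono fun x hx =>
      mem_iUnion.2 hx.exists))
  have h6 := tendsto_measure_iUnion_accumulate (μ := m) (f := fun j : ℕ => T^[j] ⁻¹' Y)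
  rw [h5] at h6
  have h7 := ENNReal.tendsto_ofReal (((ENNReal.tendsto_toReal (by simp)).comp h6).mul_const β)
  rw [ENNReal.toReal_one, one_mul] at h7
  exact le_of_tendsto' h7 fun J => (h4 J).core_th hm.measurable hε hβ

end Pool.Agent.Lib.MP_e7c912_an
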