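import Pool.Agent.Lib.MP_e7c912_an.H60SLem
import Pool.Agent.Lib.MP_e7c912_an.H60Thin

/-! Expanded curves with controlled local volume growth carry thin measures. -/

namespace Pool.Agent.Lib.MP_e7c912_an

open MeasureTheory Filter Metric Set Topology
open scoped ENNReal

variable {X : Type} [MetricSpace X] [CompactSpace X] [MeasurableSpace X] [BorelSpace X]
  {A : Atlas X}

omit [CompactSpace X] [BorelSpace X] in
/-- The parameters that stay in a Bowen ball and are expanded from time `N0` on. -/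
theorem section_le_el {F : Dif A} {q : Prm} (hp : 1 ≤ q.p) {w : Cv A q.ε} (hw : LV F q w) (a : ℝ)
    (N0 n : ℕ) (x : X) {S : Set ℝ} (hS : ∀ t ∈ S, t ∈ Ioo (0 : ℝ) 1 ∧
      (∀ k < n, dist (F.f^[k] (w.pt t)) (F.f^[k] x) < q.ε) ∧
      ∀ k : ℕ, N0 ≤ k → Real.exp (a * k) ≤ ‖w.DN F.f^[k] t‖) :
    volume S ≤ ENNReal.ofReal ((2 * |q.ε| + 1) * Real.exp (|a - q.α| * (N0 + q.p)) *
      Real.exp (-(a - q.α) * n)) := by
  have hb := abs_nonneg (a - q.α)
  have hb1 := le_abs_self (a - q.α)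
  have hε := abs_nonneg q.ε
  by_cases hn : n ≤ N0 + q.p
  · have h1 : volume S ≤ volume (Ioo (0 : ℝ) 1) := measure_mono fun t ht => (hS t ht).1
    rw [Real.volume_Ioo] at h1
    refine h1.trans (ENNReal.ofReal_le_ofReal ?_)
    have h2 : (n : ℝ) ≤ N0 + q.p := by exact_mod_cast hn
    have h3 : (0 : ℝ) ≤ n := Nat.cast_nonneg n
    have h4 : 1 ≤ Real.exp (|a - q.α| * (N0 + q.p)) * Real.exp (-(a - q.α) * n) := by
      rw [← Real.exp_add]
      refine Real.one_le_exp ?_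
      nlinarith
    rw [mul_assoc]
    nlinarith
  · obtain ⟨N, h1, h2⟩ : ∃ N : ℕ, q.p * N < n ∧ n ≤ q.p * N + q.p := by
      refine ⟨(n - 1) / q.p, ?_, ?_⟩
      · have := Nat.mul_div_le (n - 1) q.p
        omega
      · have := Nat.lt_mul_div_succ (n - 1) (show 0 < q.p by omega)
        rw [mul_add, mul_one] at this
        omega
    have hθ : 0 < Real.exp (a * (q.p * N : ℕ)) / 2 := by positivity
    refine (measure_mono fun t ht => ?_).trans ((hw N x _ hθ).trans (ENNReal.ofReal_le_ofReal ?_))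
    · obtain ⟨a1, a2, a3⟩ := hS t ht
      refine ⟨a1, fun k hk => ?_, ?_⟩
      · rw [← Function.iterate_mul]
        exact a2 _ ((Nat.mul_le_mul_left _ hk).trans_lt h1)
      · rw [← Function.iterate_mul]
        have := a3 (q.p * N) (by omega)
        linarith
    · have e1 : ((q.p * N : ℕ) : ℝ) = q.p * N := Nat.cast_mul _ _
      have h3 : (q.p : ℝ) * N ≤ n := by exact_mod_cast h1.le
      have h4 : (n : ℝ) ≤ q.p * N + q.p := by exact_mod_cast h2
      have h5 : (0 : ℝ) ≤ N0 := Nat.cast_nonneg _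
      have h6 : Real.exp (q.α * q.p * N) ≤ Real.exp (|a - q.α| * (N0 + q.p)) *
          Real.exp (-(a - q.α) * n) * Real.exp (a * (q.p * N)) := by
        rw [← Real.exp_add, ← Real.exp_add]
        refine Real.exp_le_exp.2 ?_
        have b1 : (a - q.α) * (n - q.p * N) ≤ |a - q.α| * (n - q.p * N) :=
          mul_le_mul_of_nonneg_right hb1 (by linarith)
        have b2 : |a - q.α| * (n - q.p * N) ≤ |a - q.α| * (N0 + q.p) :=
          mul_le_mul_of_nonneg_left (by linarith) hb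
        nlinarith
      rw [div_le_iff₀ hθ, e1]
      have h7 : Real.exp (q.α * q.p * N) * q.ε ≤ Real.exp (q.α * q.p * N) * (|q.ε| + 1 / 2) :=
        mul_le_mul_of_nonneg_left (by linarith [le_abs_self q.ε]) (Real.exp_pos _).le
      have h8 := mul_le_mul_of_nonneg_right h6 (show 0 ≤ |q.ε| + 1 / 2 by linarith)
      refine h7.trans (h8.trans_eq ?_)
      ring

theorem exists_thin {F : Dif A} {q : Prm} (hp : 1 ≤ q.p) {κ : Measure (Cv A q.ε)}
    [IsFiniteMeasure κ] (hκ : ∀ᵐ w ∂κ, LV F q w) {Z : Set X} (hZ : MeasurableSet Z)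
    (h0 : eta κ Z ≠ 0) {a : ℝ}
    (hg : ∀ᵐ w ∂κ, ∀ᵐ t ∂volume.restrict (Icc (0 : ℝ) 1), w.pt t ∈ Z →
      ∀ᶠ n : ℕ in atTop, Real.exp (a * n) ≤ ‖w.DN F.f^[n] t‖) :
    ∃ ν : Measure X, IsFiniteMeasure ν ∧ ν ≠ 0 ∧ ν ≤ (eta κ).restrict Z ∧
      Thin F.f q.ε (a - q.α) ν := by
  have hev : Measurable fun z : Cv A q.ε × ℝ => z.1.pt z.2 := Cv.continuous_pt.measurable
  obtain ⟨W, hW⟩ : ∃ W : ℕ → Set (Cv A q.ε × ℝ), ∀ N0 z, z ∈ W N0 ↔ z.2 ∈ Ioo (0 : ℝ) 1 ∧
      z.1.pt z.2 ∈ Z ∧ ∀ k : ℕ, N0 ≤ k → Real.exp (a * k) ≤ ‖z.1.DN F.f^[k] z.2‖ :=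
    ⟨fun N0 => {z | _}, fun _ _ => Iff.rfl⟩
  have hWm : ∀ N0, MeasurableSet (W N0) := fun N0 => by
    have : W N0 = Prod.snd ⁻¹' Ioo (0 : ℝ) 1 ∩ ((fun z : Cv A q.ε × ℝ => z.1.pt z.2) ⁻¹' Z ∩
        ⋂ k : ℕ, ⋂ (_ : N0 ≤ k), {z | Real.exp (a * k) ≤ ‖z.1.DN F.f^[k] z.2‖}) := by
      ext z
      simp only [hW, mem_inter_iff, mem_preimage, mem_iInter, mem_ofPred_eq]
    rw [this]
    exact (measurable_snd measurableSet_Ioo).inter ((hev hZ).inter
      (MeasurableSet.iInter fun k => MeasurableSet.iInter fun _ =>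
        measurableSet_le measurable_const (Cv.measurable_DN (F.smf.iter k)).norm))
  obtain ⟨N0, hN0⟩ : ∃ N0, κ.prod (volume.restrict (Icc (0 : ℝ) 1)) (W N0) ≠ 0 := by
    by_contra h
    push Not at h
    have h1 := Measure.ae_ae_of_ae_prod
      (measure_eq_zero_iff_ae_notMem.1 (measure_iUnion_null h))
    refine h0 ((etaOn_eq_zero_iff hZ).2 ?_)
    filter_upwards [h1, hg] with w a1 a2
    have a3 : ∀ᵐ t ∂volume.restrict (Icc (0 : ℝ) 1), t ∈ Ioo (0 : ℝ) 1 := by
      rw [← Measure.restrict_congr_set Ioo_ae_eq_Icc]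
      exact ae_restrict_mem measurableSet_Ioo
    rw [← Measure.restrict_apply' measurableSet_Icc, measure_eq_zero_iff_ae_notMem]
    filter_upwards [a1, a2, a3] with t b1 b2 b3 ht
    obtain ⟨N0, hN0⟩ := eventually_atTop.1 (b2 ht)
    exact b1 (mem_iUnion.2 ⟨N0, (hW N0 (w, t)).2 ⟨b3, ht, hN0⟩⟩)
  refine ⟨((κ.prod (volume.restrict (Icc (0 : ℝ) 1))).restrict (W N0)).map
    fun z : Cv A q.ε × ℝ => z.1.pt z.2, inferInstance, fun h => hN0 ?_, ?_, ?_⟩
  · rwa [Measure.map_eq_zero_iff hev.aemeasurable, Measure.restrict_eq_zero] at h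
  · refine Measure.le_iff.2 fun s hs => ?_
    rw [Measure.map_apply hev hs, Measure.restrict_apply' (hWm N0), Measure.restrict_apply hs, eta,
      etaOn, Measure.map_apply hev (hs.inter hZ)]
    exact measure_mono fun z hz => ⟨hz.1, ((hW N0 z).1 hz.2).2.1⟩
  · refine ⟨κ.real univ * ((2 * |q.ε| + 1) * Real.exp (|a - q.α| * (N0 + q.p))), fun n x => ?_⟩
    have hB : MeasurableSet {y | ∀ k < n, dist (F.f^[k] y) (F.f^[k] x) < q.ε} := by
      simp only [ofPred_forall]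
      exact MeasurableSet.iInter fun k => MeasurableSet.iInter fun _ =>
        (isOpen_lt ((F.smf.1.iterate k).dist continuous_const) continuous_const).measurableSet
    rw [Measure.map_apply hev hB, Measure.restrict_apply' (hWm N0),
      Measure.prod_apply ((hev hB).inter (hWm N0)), mul_assoc,
      ENNReal.ofReal_mul measureReal_nonneg, ofReal_measureReal, mul_comm, ← lintegral_const]
    refine lintegral_mono_ae (hκ.mono fun w hw => ?_)
    refine (Measure.restrict_le_self _).trans (section_le_el hp hw a N0 n x fun t ht => ?_)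
    obtain ⟨b1, -, b3⟩ := (hW N0 (w, t)).1 ht.2
    exact ⟨b1, ht.1, b3⟩

end Pool.Agent.Lib.MP_e7c912_an
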