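import Pool.Agent.Lib.MP_e7c912_an.H60Erg

/-! Shannon entropy of finite valued observables. -/

namespace Pool.Agent.Lib.MP_e7c912_an

open MeasureTheory Filter Metric Set Topology
open scoped ENNReal

variable {X : Type} [MeasurableSpace X] {T S : X → X} {μ : Measure X}

/-- The entropy of a finite valued observable. -/
noncomputable def ent {β : Type} [Fintype β] (μ : Measure X) (f : X → β) : ℝ :=
  ∑ b, Real.negMulLog (μ.real (f ⁻¹' {b}))

/-- All fibres are measurable. -/
def Fib {β : Type} (f : X → β) : Prop := ∀ b, MeasurableSet (f ⁻¹' {b})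

/-- The itinerary of length `n`. -/
def itin {β : Type} (T : X → X) (P : X → β) (n : ℕ) (x : X) : Fin n → β := fun i => P (T^[i] x)

variable {β β' : Type} [Fintype β] [Fintype β'] {f : X → β} {g : X → β'}

theorem blockEntropy_eq (μ : Measure X) (T : X → X) (P : X → β) (n : ℕ) :
    blockEntropy μ T P n = ent μ (itin T P n) := by
  unfold blockEntropy ent
  refine Finset.sum_congr (by congr) fun w _ => ?_
  congr 2
  ext x
  simp [itin, funext_iff]

omit [Fintype β] in
theorem Fib.comp (hf : Fib f) (hT : Measurable T) : Fib (f ∘ T) := fun b => hT (hf b)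

omit [Fintype β'] in
theorem Fib.map (hf : Fib f) (φ : β → β') : Fib (φ ∘ f) := by
  intro b
  have : (φ ∘ f) ⁻¹' {b} = ⋃ a ∈ {a | φ a = b}, f ⁻¹' {a} := by
    ext x; simp
  rw [this]
  exact MeasurableSet.biUnion (Set.to_countable _) fun a _ => hf a

omit [Fintype β] [Fintype β'] in
theorem Fib.prod (hf : Fib f) (hg : Fib g) : Fib fun x => (f x, g x) := by
  rintro ⟨a, b⟩
  have : (fun x => (f x, g x)) ⁻¹' {(a, b)} = f ⁻¹' {a} ∩ g ⁻¹' {b} := by
    ext x; simp
  rw [this]
  exact (hf a).inter (hg b)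

omit [Fintype β] in
theorem Fib.itin (hf : Fib f) (hT : Measurable T) (n : ℕ) : Fib (itin T f n) := by
  intro w
  have : MP_e7c912_an.itin T f n ⁻¹' {w} = ⋂ i : Fin n, T^[i] ⁻¹' (f ⁻¹' {w i}) := by
    ext x; simp [MP_e7c912_an.itin, funext_iff]
  rw [this]
  exact MeasurableSet.iInter fun i => (hT.iterate i) (hf _)

theorem ent_nonneg [IsProbabilityMeasure μ] (f : X → β) : 0 ≤ ent μ f :=
  Finset.sum_nonneg fun _ _ => Real.negMulLog_nonneg measureReal_nonneg measureReal_le_one

theorem ent_comp (hT : MeasurePreserving T μ μ) (hf : Fib f) : ent μ (f ∘ T) = ent μ f := by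
  refine Finset.sum_congr rfl fun b _ => ?_
  rw [Set.preimage_comp, hT.measureReal_preimage (hf b).nullMeasurableSet]

theorem negMulLog_sum_ent0 {ι : Type} (s : Finset ι) (a : ι → ℝ) (ha : ∀ i, 0 ≤ a i) :
    Real.negMulLog (∑ i ∈ s, a i) ≤ ∑ i ∈ s, Real.negMulLog (a i) := by
  unfold Real.negMulLog
  rw [← Finset.sum_neg_distrib, Finset.sum_mul]
  refine Finset.sum_le_sum fun i hi => ?_
  rcases (ha i).eq_or_lt with h | h
  · simp [← h]
  · have := Real.log_le_log h (Finset.single_le_sum (fun i _ => ha i) hi)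
    nlinarith

theorem gibbs_ent0 {p q : ℝ} (hp : 0 ≤ p) (hq : 0 ≤ q) (h : p ≠ 0 → 0 < q) :
    Real.negMulLog p ≤ -(p * Real.log q) + (q - p) := by
  rcases hp.eq_or_lt with h0 | h0
  · simp [← h0, hq]
  · have h1 := h h0.ne'
    have h2 := Real.log_le_sub_one_of_pos (div_pos h1 h0)
    rw [Real.log_div h1.ne' h0.ne'] at h2
    have h3 := mul_le_mul_of_nonneg_left h2 hp
    have h4 : p * (q / p - 1) = q - p := by field_simp
    unfold Real.negMulLog
    linarith

omit [Fintype β] in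
theorem sum_fib_ent0 [IsFiniteMeasure μ] (hg : Fib g) (A : Set X) :
    ∑ b, μ.real (A ∩ g ⁻¹' {b}) = μ.real A := by
  have h := sum_measureReal_preimage_singleton (μ := μ.restrict A) (f := g) Finset.univ
    (fun b _ => hg b)
  simp only [Finset.coe_univ, Set.preimage_univ, measureReal_restrict_apply_univ] at h
  rw [← h]
  refine Finset.sum_congr rfl fun b _ => ?_
  rw [measureReal_restrict_apply (hg b), Set.inter_comm]

omit [MeasurableSpace X] [Fintype β] [Fintype β'] in
theorem pre_prod_ent0 (a : β) (b : β') :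
    (fun x => (f x, g x)) ⁻¹' {(a, b)} = f ⁻¹' {a} ∩ g ⁻¹' {b} := by
  ext x; simp

theorem sum_one_ent0 [IsProbabilityMeasure μ] (hf : Fib f) : ∑ b, μ.real (f ⁻¹' {b}) = 1 := by
  simpa using sum_fib_ent0 (μ := μ) hf Set.univ

/-- An observable determined by another one has less entropy. -/
theorem ent_le_of_det [IsProbabilityMeasure μ] (hf : Fib f)
    (h : ∀ x y, f x = f y → g x = g y) : ent μ g ≤ ent μ f := by
  classical
  have h1 : ent μ g ≤ ∑ b, ∑ a, Real.negMulLog (μ.real (g ⁻¹' {b} ∩ f ⁻¹' {a})) := by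
    refine Finset.sum_le_sum fun b _ => ?_
    rw [← sum_fib_ent0 hf (g ⁻¹' {b})]
    exact negMulLog_sum_ent0 _ _ fun _ => measureReal_nonneg
  refine h1.trans (le_of_eq ?_)
  rw [Finset.sum_comm]
  refine Finset.sum_congr rfl fun a _ => ?_
  rcases (f ⁻¹' {a}).eq_empty_or_nonempty with h0 | ⟨x, hx⟩
  · simp [h0]
  · rw [Finset.sum_eq_single (g x)]
    · congr 2
      exact Set.inter_eq_right.2 fun y hy => h y x (hy.trans hx.symm)
    · intro b _ hb
      have : g ⁻¹' {b} ∩ f ⁻¹' {a} = ∅ := by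
        refine Set.eq_empty_of_forall_notMem fun y hy => hb ?_
        exact (show g y = b from hy.1).symm.trans (h y x (hy.2.trans hx.symm))
      simp [this]
    · simp

theorem ent_prod_le [IsProbabilityMeasure μ] (hf : Fib f) (hg : Fib g) :
    ent μ (fun x => (f x, g x)) ≤ ent μ f + ent μ g := by
  have key : ∀ a b, Real.negMulLog (μ.real (f ⁻¹' {a} ∩ g ⁻¹' {b})) ≤
      -(μ.real (f ⁻¹' {a} ∩ g ⁻¹' {b}) * Real.log (μ.real (f ⁻¹' {a}))) -
        μ.real (g ⁻¹' {b} ∩ f ⁻¹' {a}) * Real.log (μ.real (g ⁻¹' {b})) +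
        (μ.real (f ⁻¹' {a}) * μ.real (g ⁻¹' {b}) - μ.real (f ⁻¹' {a} ∩ g ⁻¹' {b})) := by
    intro a b
    rw [Set.inter_comm (g ⁻¹' {b})]
    by_cases h0 : μ.real (f ⁻¹' {a} ∩ g ⁻¹' {b}) = 0
    · rw [h0]; simp; positivity
    · have hp : 0 < μ.real (f ⁻¹' {a} ∩ g ⁻¹' {b}) := lt_of_le_of_ne measureReal_nonneg (Ne.symm h0)
      have h1 : 0 < μ.real (f ⁻¹' {a}) := hp.trans_le (measureReal_mono Set.inter_subset_left)
      have h2 : 0 < μ.real (g ⁻¹' {b}) := hp.trans_le (measureReal_mono Set.inter_subset_right)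
      have := gibbs_ent0 hp.le (mul_pos h1 h2).le fun _ => mul_pos h1 h2
      rw [Real.log_mul h1.ne' h2.ne'] at this
      linarith
  unfold ent
  rw [Fintype.sum_prod_type]
  simp only [pre_prod_ent0]
  refine (Finset.sum_le_sum fun a _ => Finset.sum_le_sum fun b _ => key a b).trans (le_of_eq ?_)
  simp only [Finset.sum_add_distrib, Finset.sum_sub_distrib, Finset.sum_neg_distrib]
  rw [Finset.sum_comm (f := fun a b => μ.real (g ⁻¹' {b} ∩ f ⁻¹' {a}) * Real.log (μ.real (g ⁻¹' {b})))]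
  simp only [← Finset.sum_mul, ← Finset.mul_sum, sum_fib_ent0 hf, sum_fib_ent0 hg, sum_one_ent0 hf,
    sum_one_ent0 hg, Real.negMulLog, neg_mul, Finset.sum_neg_distrib]
  ring

/-- The gain of entropy is at most the mean logarithm of the number of values on a fibre. -/
theorem ent_chain [IsProbabilityMeasure μ] (hf : Fib f) (hg : Fib g) {nn : X → ℝ}
    (hn : Integrable nn μ) (h : ∀ x, Real.log (Set.ncard {b | ∃ y, f y = f x ∧ g y = b}) ≤ nn x) :
    ent μ (fun x => (f x, g x)) ≤ ent μ f + ∫ x, nn x ∂μ := by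
  classical
  have hint : ∫ x, nn x ∂μ = ∑ a, ∫ x in f ⁻¹' {a}, nn x ∂μ := by
    rw [← integral_biUnion_finset Finset.univ (fun a _ => hf a) ?_ fun a _ => hn.integrableOn]
    · have : (⋃ a ∈ (Finset.univ : Finset β), f ⁻¹' {a}) = Set.univ := by
        ext x; simp
      rw [this, Measure.restrict_univ]
    · intro a _ b _ hab
      exact Set.disjoint_left.2 fun x hx hx' => hab ((show f x = a from hx).symm.trans hx')
  unfold ent
  rw [Fintype.sum_prod_type, hint, ← Finset.sum_add_distrib]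
  refine Finset.sum_le_sum fun a _ => ?_
  simp only [pre_prod_ent0]
  set V : Finset β' := Finset.univ.filter fun b => ∃ y, f y = a ∧ g y = b with hV
  set m := μ.real (f ⁻¹' {a}) with hm
  have hm0 : 0 ≤ m := measureReal_nonneg
  have h1 : m * Real.log V.card ≤ ∫ x in f ⁻¹' {a}, nn x ∂μ := by
    have := setIntegral_mono_on (μ := μ) (f := fun _ => Real.log V.card) (g := nn)
      (integrableOn_const (measure_ne_top _ _)) hn.integrableOn (hf a) fun x hx => by
        have h2 := h x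
        rw [show f x = a from hx] at h2
        have h3 : {b | ∃ y, f y = a ∧ g y = b} = (V : Set β') := by
          ext b; simp [hV]
        rwa [h3, Set.ncard_coe_finset] at h2
    simpa using this
  have hz : ∀ b, b ∉ V → f ⁻¹' {a} ∩ g ⁻¹' {b} = ∅ := fun b hb =>
    Set.eq_empty_of_forall_notMem fun y hy => hb
      (Finset.mem_filter.2 ⟨Finset.mem_univ _, y, hy.1, hy.2⟩)
  have h2 : ∑ b, Real.negMulLog (μ.real (f ⁻¹' {a} ∩ g ⁻¹' {b})) =
      ∑ b ∈ V, Real.negMulLog (μ.real (f ⁻¹' {a} ∩ g ⁻¹' {b})) :=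
    (Finset.sum_subset (Finset.subset_univ V) fun b _ hb => by simp [hz b hb]).symm
  have h3 : ∑ b ∈ V, μ.real (f ⁻¹' {a} ∩ g ⁻¹' {b}) = m := by
    rw [hm, ← sum_fib_ent0 hg (f ⁻¹' {a})]
    exact Finset.sum_subset (Finset.subset_univ V) fun b _ hb => by simp [hz b hb]
  rw [h2]
  rcases V.eq_empty_or_nonempty with h0 | h0
  · rw [h0] at h1 h3 ⊢
    simp only [Finset.sum_empty, Finset.card_empty, Nat.cast_zero, Real.log_zero, mul_zero] at h1 h3 ⊢
    rw [← h3]
    simpa using h1
  have hc : (0 : ℝ) < V.card := Nat.cast_pos.2 h0.card_pos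
  rcases hm0.eq_or_lt with h4 | h4
  · have : ∀ b, μ.real (f ⁻¹' {a} ∩ g ⁻¹' {b}) = 0 := fun b =>
      le_antisymm ((measureReal_mono Set.inter_subset_left).trans (hm.symm.trans h4.symm).le)
        measureReal_nonneg
    rw [← h4] at h1 ⊢
    simpa [this] using h1
  have h5 := Finset.sum_le_sum (s := V) fun b _ =>
    gibbs_ent0 (p := μ.real (f ⁻¹' {a} ∩ g ⁻¹' {b})) measureReal_nonneg (div_pos h4 hc).le
      fun _ => div_pos h4 hc
  simp only [Finset.sum_add_distrib, Finset.sum_sub_distrib, Finset.sum_neg_distrib,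
    ← Finset.sum_mul, h3, Finset.sum_const, nsmul_eq_mul] at h5
  rw [Real.log_div h4.ne' hc.ne', mul_div_cancel₀ _ hc.ne'] at h5
  unfold Real.negMulLog at h5 ⊢
  linarith

/-- A distribution that dominates a spread out mass `s` has large entropy. -/
theorem entropy_lower {β : Type} [Fintype β] {m ζ : β → ℝ} {θ s : ℝ} (h0 : ∀ b, 0 ≤ ζ b)
    (hle : ∀ b, ζ b ≤ m b) (hsum : ∑ b, m b ≤ 1) (hθ : ∀ b, ζ b ≤ θ) (θpos : 0 < θ) (θle : θ ≤ 1)
    (hs : s ≤ ∑ b, ζ b) : s * -Real.log θ - 1 ≤ ∑ b, Real.negMulLog (m b) := by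
  have hl : Real.log θ ≤ 0 := Real.log_nonpos θpos.le θle
  have hm0 : ∀ b, 0 ≤ m b := fun b => (h0 b).trans (hle b)
  have key : ∀ b, ζ b * -Real.log θ - m b ≤ Real.negMulLog (m b) := by
    intro b
    have hm1 : m b ≤ 1 :=
      (Finset.single_le_sum (fun b _ => hm0 b) (Finset.mem_univ b)).trans hsum
    unfold Real.negMulLog
    rcases (hm0 b).eq_or_lt with h | h
    · have : ζ b = 0 := le_antisymm (h ▸ hle b) (h0 b)
      simp [← h, this]
    rcases le_total (m b) θ with h1 | h1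
    · have := Real.log_le_log h h1
      nlinarith [hle b, h0 b]
    · have h2 := Real.log_le_sub_one_of_pos (div_pos h θpos)
      rw [Real.log_div h.ne' θpos.ne'] at h2
      have h3 := mul_le_mul_of_nonneg_left h2 θpos.le
      have h4 : θ * (m b / θ - 1) = m b - θ := by field_simp
      have h5 := Real.log_nonpos h.le hm1
      nlinarith [hθ b, h0 b]
  have := Finset.sum_le_sum (s := Finset.univ) fun b _ => key b
  rw [Finset.sum_sub_distrib, ← Finset.sum_mul] at this
  nlinarith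

end Pool.Agent.Lib.MP_e7c912_an
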