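import Pool.Agent.Lib.MP_e7c912_an.H60Ent0

/-! Basic properties of the Kolmogorov-Sinai entropy. -/

namespace Pool.Agent.Lib.MP_e7c912_an

open MeasureTheory Filter Metric Set Topology
open scoped ENNReal

variable {X : Type} [MeasurableSpace X] {T S : X → X} {μ : Measure X}

theorem le_ks_ent1 {k : ℕ} {P : X → Fin k} (hP : Measurable P) :
    limsup (fun n : ℕ => ENNReal.ofReal (blockEntropy μ T P n / n)) atTop ≤ ksEntropy μ T :=
  le_iSup_of_le k (le_iSup₂_of_le P hP le_rfl)

theorem ks_ge {β : Type} [Fintype β] {P : X → β} (hP : ∀ b, MeasurableSet (P ⁻¹' {b})) :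
    limsup (fun n : ℕ => ENNReal.ofReal (blockEntropy μ T P n / n)) atTop ≤ ksEntropy μ T := by
  have e : ∀ n, blockEntropy μ T P n = blockEntropy μ T (Fintype.equivFin β ∘ P) n := fun n =>
    Fintype.sum_equiv (Equiv.piCongrRight fun _ => Fintype.equivFin β) _ _ fun w => by simp
  simp only [e]
  exact le_ks_ent1 (measurable_to_countable' (Fib.map hP _))

theorem ks_symm_le_ent1 [IsProbabilityMeasure μ] (hT : MeasurePreserving T μ μ) (hS : Measurable S)
    (ST : ∀ x, S (T x) = x) : ksEntropy μ S ≤ ksEntropy μ T := by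
  refine iSup_le fun k => iSup₂_le fun P hP => le_trans ?_ (le_ks_ent1 hP)
  have hF : Fib P := fun b => hP (measurableSet_singleton b)
  refine limsup_le_limsup (Eventually.of_forall fun n => ENNReal.ofReal_le_ofReal
    (div_le_div_of_nonneg_right ?_ n.cast_nonneg))
  rw [blockEntropy_eq, blockEntropy_eq, ← ent_comp (hT.iterate (n - 1)) (hF.itin hS n)]
  refine ent_le_of_det (hF.itin hT.measurable n) fun x y h => funext fun i => ?_
  have e : ∀ z, S^[i] (T^[n - 1] z) = T^[i.rev] z := fun z => by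
    rw [show n - 1 = i + i.rev by have := i.2; rw [Fin.val_rev]; omega,
      Function.iterate_add_apply]
    exact Function.LeftInverse.iterate (f := T) (g := S) ST i _
  simp only [Function.comp_apply, itin, e]
  exact congrFun h i.rev

theorem ks_symm [IsProbabilityMeasure μ] (hT : MeasurePreserving T μ μ) (hS : Measurable S)
    (ST : ∀ x, S (T x) = x) (TS : ∀ x, T (S x) = x) : ksEntropy μ S = ksEntropy μ T :=
  le_antisymm (ks_symm_le_ent1 hT hS ST)
    (ks_symm_le_ent1 (measurePreserving_inv hT hS ST) hT.measurable TS)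

theorem limsup_mul_le_ent1 {H H' : ℕ → ℝ} {n : ℕ} (hn : 0 < n)
    (h : ∀ N, H N ≤ H' (N / n + 1)) :
    (n : ℝ≥0∞) * limsup (fun N : ℕ => ENNReal.ofReal (H N / N)) atTop ≤
      limsup (fun m : ℕ => ENNReal.ofReal (H' m / m)) atTop := by
  by_contra hc
  obtain ⟨r₂, h20, h2, h2'⟩ := ENNReal.lt_iff_exists_real_btwn.1 (not_le.1 hc)
  obtain ⟨r₁, h10, h1, h1'⟩ := ENNReal.lt_iff_exists_real_btwn.1 h2
  have hn' : (0 : ℝ) < n := Nat.cast_pos.2 hn
  have h12 : r₁ < r₂ := (ENNReal.ofReal_lt_ofReal_iff_of_nonneg h10).1 h1'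
  have h1p : 0 < r₁ := ENNReal.ofReal_pos.1 (lt_of_le_of_lt zero_le h1)
  have h3 : ENNReal.ofReal (r₂ / n) < limsup (fun N : ℕ => ENNReal.ofReal (H N / N)) atTop := by
    by_contra h4
    refine absurd h2' (not_lt.2 ((mul_le_mul_right (not_lt.1 h4) _).trans (le_of_eq ?_)))
    rw [← ENNReal.ofReal_natCast, ← ENNReal.ofReal_mul hn'.le, mul_div_cancel₀ _ hn'.ne']
  have h4 := frequently_lt_of_lt_limsup (by isBoundedDefault) h3
  have t : Tendsto (fun N : ℕ => N / n + 1) atTop atTop :=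
    (tendsto_add_atTop_nat 1).comp (Nat.tendsto_div_const_atTop hn.ne')
  have h5 := t.eventually (eventually_lt_of_limsup_lt h1)
  have h6 : ∀ᶠ N : ℕ in atTop, r₁ * n / (r₂ - r₁) < N :=
    tendsto_natCast_atTop_atTop.eventually (eventually_gt_atTop _)
  obtain ⟨N, a1, a2, a3⟩ := (h4.and_eventually (h5.and h6)).exists
  have hN : (0 : ℝ) < N := lt_trans (div_pos (mul_pos h1p hn') (sub_pos.2 h12)) a3
  rw [ENNReal.ofReal_lt_ofReal_iff_of_nonneg (div_nonneg h20 hn'.le), div_lt_div_iff₀ hn' hN] at a1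
  rw [ENNReal.ofReal_lt_ofReal_iff h1p, div_lt_iff₀ (Nat.cast_pos.2 (Nat.succ_pos _))] at a2
  rw [div_lt_iff₀ (sub_pos.2 h12)] at a3
  have a4 : ((N / n : ℕ) : ℝ) * n ≤ N := by exact_mod_cast Nat.div_mul_le_self N n
  have a5 := mul_lt_mul_of_pos_right ((h N).trans_lt a2) hn'
  push_cast at a5
  nlinarith [mul_le_mul_of_nonneg_left a4 h10]

theorem ks_iter [IsProbabilityMeasure μ] (hT : MeasurePreserving T μ μ) (n : ℕ) :
    (n : ℝ≥0∞) * ksEntropy μ T ≤ ksEntropy μ T^[n] := by
  rcases n.eq_zero_or_pos with rfl | hn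
  · simp
  rw [ksEntropy]
  simp only [ENNReal.mul_iSup]
  refine iSup_le fun k => iSup₂_le fun P hP => ?_
  have hF : Fib P := fun b => hP (measurableSet_singleton b)
  have hF' := hF.itin hT.measurable n
  refine le_trans (limsup_mul_le_ent1 hn fun N => ?_) (ks_ge hF')
  rw [blockEntropy_eq, blockEntropy_eq]
  refine ent_le_of_det (hF'.itin (hT.measurable.iterate n) _) fun x y h => funext fun i => ?_
  have hi : i / n < N / n + 1 := Nat.lt_succ_of_le (Nat.div_le_div_right i.2.le)
  have := congrFun (congrFun h ⟨i / n, hi⟩) ⟨i % n, Nat.mod_lt _ hn⟩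
  simp only [itin, ← Function.iterate_mul, ← Function.iterate_add_apply, Nat.mod_add_div] at this
  exact this

theorem ks_map {Y : Type} [MeasurableSpace Y] (j : X ≃ᵐ Y) {T' : Y → Y}
    (h : ∀ x, T' (j x) = j (T x)) : ksEntropy (μ.map j) T' = ksEntropy μ T := by
  have hs : Function.Semiconj j T T' := fun x => (h x).symm
  have e : ∀ (k : ℕ) (P : Y → Fin k) (n : ℕ),
      blockEntropy (μ.map j) T' P n = blockEntropy μ T (P ∘ j) n := fun k P n =>
    Finset.sum_congr rfl fun w _ => by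
      simp only [measureReal_def, j.map_apply, preimage_ofPred_eq, Function.comp_apply,
        fun i x => (hs.iterate_right i).eq x]
  refine le_antisymm (iSup_le fun k => iSup₂_le fun P hP => ?_)
    (iSup_le fun k => iSup₂_le fun P hP => ?_)
  · simp only [e]
    exact le_ks_ent1 (hP.comp j.measurable)
  · refine le_trans (le_of_eq ?_) (le_ks_ent1 (hP.comp j.symm.measurable))
    simp only [e, Function.comp_assoc, j.symm_comp_self, Function.comp_id]

theorem exists_partition [MetricSpace X] [CompactSpace X] [BorelSpace X] {γ : ℝ} (hγ : 0 < γ) :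
    ∃ (k : ℕ) (P : X → Fin k), Measurable P ∧ ∀ x y, P x = P y → dist x y < γ := by
  classical
  obtain ⟨t, -, ht, hc⟩ := finite_cover_balls_of_compact (isCompact_univ (X := X)) (half_pos hγ)
  have := ht.fintype
  refine ⟨_, fun x => Fintype.equivFin (t → Prop) fun c => x ∈ ball c.1 (γ / 2),
    (measurable_of_finite _).comp (measurable_pi_lambda _ fun c => measurableSet_ball.mem),
    fun x y h => ?_⟩
  obtain ⟨c, hc1, hc2⟩ := mem_iUnion₂.1 (hc (mem_univ x))
  have h1 : y ∈ ball c (γ / 2) := (congrFun ((Fintype.equivFin _).injective h) ⟨c, hc1⟩).mp hc2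
  exact dist_lt_add_of_nonempty_ball_inter_ball ⟨c, mem_ball_comm.1 hc2, mem_ball_comm.1 h1⟩
    |>.trans_eq (add_halves γ)

end Pool.Agent.Lib.MP_e7c912_an
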