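import Pool.Agent.Lib.MP_e7c912_an.H60Erg1

/-! Consequences of the ergodic theorems and of recurrence. -/

namespace Pool.Agent.Lib.MP_e7c912_an

open MeasureTheory Filter Metric Set Topology
open scoped ENNReal

variable {X : Type} [MeasurableSpace X] {T S : X → X} {μ : Measure X} {φ : X → ℝ} {C : ℝ}

theorem ae_le_of_inv_erg [IsFiniteMeasure μ] {f g : X → ℝ} (hf : Measurable f) (hg : Measurable g)
    (bf : ∀ x, |f x| ≤ C) (bg : ∀ x, |g x| ≤ C) (fi : ∀ x, f (T x) = f x) (gi : ∀ x, g (T x) = g x)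
    (h : ∀ B, MeasurableSet B → T ⁻¹' B = B → ∫ x in B, f x ∂μ = ∫ x in B, g x ∂μ) :
    ∀ᵐ x ∂μ, g x ≤ f x := by
  have hB : MeasurableSet {x | f x < g x} := measurableSet_lt hf hg
  have hi : T ⁻¹' {x | f x < g x} = {x | f x < g x} := by
    ext x
    simp only [mem_preimage, mem_ofPred_eq, fi, gi]
  have If : Integrable f μ :=
    Integrable.of_bound hf.aestronglyMeasurable C (Eventually.of_forall bf)
  have Ig : Integrable g μ :=
    Integrable.of_bound hg.aestronglyMeasurable C (Eventually.of_forall bg)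
  have h0 : ∫ x in {x | f x < g x}, (g x - f x) ∂μ = 0 := by
    rw [integral_sub Ig.integrableOn If.integrableOn, h _ hB hi, sub_self]
  have hn : 0 ≤ᵐ[μ.restrict {x | f x < g x}] fun x => g x - f x := by
    filter_upwards [ae_restrict_mem hB] with x hx
    exact sub_nonneg.2 (le_of_lt hx)
  have h1 := (setIntegral_eq_zero_iff_of_nonneg_ae hn (Ig.sub If).integrableOn).1 h0
  have h2 := (ae_restrict_iff' hB).1 h1
  filter_upwards [h2] with x hx
  by_contra hc
  have h3 : f x < g x := lt_of_not_ge hc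
  have h4 : g x - f x = 0 := hx h3
  linarith

/-- Two bounded invariant functions with the same integrals on invariant sets agree. -/
theorem ae_eq_of_inv [IsFiniteMeasure μ] {f g : X → ℝ} (hf : Measurable f) (hg : Measurable g)
    (bf : ∀ x, |f x| ≤ C) (bg : ∀ x, |g x| ≤ C) (fi : ∀ x, f (T x) = f x) (gi : ∀ x, g (T x) = g x)
    (h : ∀ B, MeasurableSet B → T ⁻¹' B = B → ∫ x in B, f x ∂μ = ∫ x in B, g x ∂μ) :
    f =ᵐ[μ] g := by
  filter_upwards [ae_le_of_inv_erg hf hg bf bg fi gi h,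
    ae_le_of_inv_erg hg hf bg bf gi fi fun B hB hi => (h B hB hi).symm] with x h1 h2
  exact le_antisymm h2 h1

theorem measurePreserving_inv (hT : MeasurePreserving T μ μ) (hS : Measurable S)
    (ST : ∀ x, S (T x) = x) : MeasurePreserving S μ μ := by
  refine ⟨hS, ?_⟩
  have h1 : S ∘ T = id := funext ST
  conv_lhs => rw [← hT.map_eq]
  rw [Measure.map_map hS hT.measurable, h1, Measure.map_id]

theorem avg_ae_eq_symm [IsFiniteMeasure μ] (hT : MeasurePreserving T μ μ) (hS : Measurable S)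
    (ST : ∀ x, S (T x) = x) (TS : ∀ x, T (S x) = x) (hφ : Measurable φ) (hb : ∀ x, |φ x| ≤ C) :
    avg T φ =ᵐ[μ] avg S φ := by
  refine ae_eq_of_inv (T := T) (measurable_avg hT.measurable hφ) (measurable_avg hS hφ)
    (abs_avg_le hb) (abs_avg_le hb) (avg_comp hb) (fun x => ?_) (fun B hB hi => ?_)
  · rw [← avg_comp (T := S) hb (T x), ST]
  · have hi' : S ⁻¹' B = B := by
      ext x
      have h1 : S x ∈ T ⁻¹' B ↔ S x ∈ B := by rw [hi]
      rw [mem_preimage, TS] at h1
      exact h1.symm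
    rw [setIntegral_avg hT hφ hb hB hi,
      setIntegral_avg (measurePreserving_inv hT hS ST) hφ hb hB hi']

/-- A function with bounded increments along orbits grows sublinearly. -/
theorem tempered [IsFiniteMeasure μ] (hT : MeasurePreserving T μ μ) {ψ : X → ℝ} (hψ : Measurable ψ)
    {R : Set X} (hR : MeasurableSet R) (hi : ∀ x, T x ∈ R ↔ x ∈ R)
    (hb : ∀ x ∈ R, |ψ (T x) - ψ x| ≤ C) :
    ∀ᵐ x ∂μ, x ∈ R → Tendsto (fun n : ℕ => ψ (T^[n] x) / n) atTop (𝓝 0) := by
  set h : X → ℝ := R.indicator fun x => ψ (T x) - ψ x with hh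
  have hm : Measurable h := ((hψ.comp hT.measurable).sub hψ).indicator hR
  have hb' : ∀ x, |h x| ≤ |C| := by
    intro x
    by_cases hx : x ∈ R
    · rw [hh, indicator_of_mem hx]
      exact (hb x hx).trans (le_abs_self C)
    · rw [hh, indicator_of_notMem hx, abs_zero]
      exact abs_nonneg C
  have hit : ∀ n : ℕ, ∀ x ∈ R, T^[n] x ∈ R := by
    intro n x hx
    induction n with
    | zero => exact hx
    | succ n ih => rw [Function.iterate_succ_apply']; exact (hi _).2 ih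
  have hsum : ∀ n : ℕ, ∀ x ∈ R, birkhoffSum T h n x = ψ (T^[n] x) - ψ x := by
    intro n x hx
    induction n with
    | zero => simp
    | succ n ih =>
      rw [birkhoffSum_succ, ih, hh, indicator_of_mem (hit n x hx), Function.iterate_succ_apply']
      ring
  have hrec : ∀ k : ℕ, ∀ᵐ x ∂μ, x ∈ {y | |ψ y| ≤ k} → ∃ᶠ n in atTop, T^[n] x ∈ {y | |ψ y| ≤ k} :=
    fun k => hT.conservative.ae_mem_imp_frequently_image_mem
      (measurableSet_le (continuous_abs.measurable.comp hψ) measurable_const).nullMeasurableSet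
  filter_upwards [ae_tendsto_avg hT hm hb', ae_all_iff.2 hrec] with x h1 h2 hx
  have h3 : Tendsto (fun n : ℕ => ψ (T^[n] x) / n) atTop (𝓝 (avg T h x)) := by
    have h4 := h1.add (tendsto_const_div_atTop_nhds_zero_nat (ψ x))
    rw [add_zero] at h4
    refine h4.congr fun n => ?_
    rw [birkhoffAverage, hsum n x hx, smul_eq_mul]
    ring
  obtain ⟨k, hk⟩ := exists_nat_ge |ψ x|
  have h5 := h2 k hk
  have h6 : Tendsto (fun n : ℕ => |ψ (T^[n] x) / n| - (k : ℝ) / n) atTop (𝓝 (|avg T h x| - 0)) :=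
    h3.abs.sub (tendsto_const_div_atTop_nhds_zero_nat (k : ℝ))
  have h7 : |avg T h x| - 0 ∈ Iic (0 : ℝ) := by
    refine isClosed_Iic.mem_of_frequently_of_tendsto (h5.mono fun n hn => ?_) h6
    have hn' : |ψ (T^[n] x)| ≤ k := hn
    rw [mem_Iic, abs_div, Nat.abs_cast, sub_nonpos]
    exact div_le_div_of_nonneg_right hn' (Nat.cast_nonneg n)
  rw [mem_Iic, sub_zero, abs_nonpos_iff] at h7
  rwa [h7] at h3

/-- A property that holds almost everywhere holds on an invariant measurable set of full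
measure. -/
theorem exists_inv_full (hT : MeasurePreserving T μ μ) (hS : Measurable S)
    (ST : ∀ x, S (T x) = x) (TS : ∀ x, T (S x) = x) {p : X → Prop} (h : ∀ᵐ x ∂μ, p x) :
    ∃ G : Set X, MeasurableSet G ∧ (∀ x, T x ∈ G ↔ x ∈ G) ∧ (∀ᵐ x ∂μ, x ∈ G) ∧ ∀ x ∈ G, p x := by
  have hS' := measurePreserving_inv hT hS ST
  set N := toMeasurable μ {x | ¬ p x} with hN
  have hNm : MeasurableSet N := measurableSet_toMeasurable _ _
  have hN0 : ∀ᵐ x ∂μ, x ∉ N := by
    rw [← measure_eq_zero_iff_ae_notMem, hN, measure_toMeasurable]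
    exact ae_iff.1 h
  refine ⟨{x | ∀ n : ℕ, T^[n] x ∉ N ∧ S^[n] x ∉ N}, ?_, fun x => ⟨fun hx n => ?_, fun hx n => ?_⟩,
    ?_, fun x hx => ?_⟩
  · rw [ofPred_forall]
    exact MeasurableSet.iInter fun n =>
      ((hT.measurable.iterate n) hNm.compl).inter ((hS.iterate n) hNm.compl)
  · have h1 : S^[n] x ∉ N := by
      have h2 := (hx (n + 1)).2
      rwa [Function.iterate_succ_apply, ST] at h2
    refine ⟨?_, h1⟩
    cases n with
    | zero => exact h1
    | succ n => exact (hx n).1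
  · have h1 : T^[n] (T x) ∉ N := (hx (n + 1)).1
    refine ⟨h1, ?_⟩
    cases n with
    | zero => exact h1
    | succ n =>
      rw [Function.iterate_succ_apply, ST]
      exact (hx n).2
  · refine ae_all_iff.2 fun n => ?_
    exact ((hT.iterate n).quasiMeasurePreserving.ae hN0).and
      ((hS'.iterate n).quasiMeasurePreserving.ae hN0)
  · by_contra hc
    exact (hx 0).1 (subset_toMeasurable μ _ hc)

theorem ergodic_inv (h : Ergodic T μ) (hS : Measurable S) (ST : ∀ x, S (T x) = x)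
    (TS : ∀ x, T (S x) = x) : Ergodic S μ := by
  refine ⟨measurePreserving_inv h.toMeasurePreserving hS ST, ⟨fun s hs hi => ?_⟩⟩
  refine h.toPreErgodic.aeconst_set hs ?_
  ext x
  have h1 : T x ∈ S ⁻¹' s ↔ T x ∈ s := by rw [hi]
  rw [mem_preimage, ST] at h1
  exact h1.symm

theorem ergodic_freq [IsFiniteMeasure μ] (h : Ergodic T μ) {B : Set X} (hB : MeasurableSet B)
    (h0 : μ B ≠ 0) : ∀ᵐ x ∂μ, ∃ᶠ n in atTop, T^[n] x ∈ B := by
  have hm : MeasurableSet {x | ∃ᶠ n in atTop, T^[n] x ∈ B} := by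
    have h1 : {x | ∃ᶠ n in atTop, T^[n] x ∈ B} = ⋂ a : ℕ, ⋃ b : ℕ, ⋃ _ : a ≤ b, T^[b] ⁻¹' B := by
      ext x
      simp only [mem_ofPred_eq, frequently_atTop, mem_iInter, mem_iUnion, mem_preimage,
        exists_prop]
    rw [h1]
    exact MeasurableSet.iInter fun a => MeasurableSet.iUnion fun b => MeasurableSet.iUnion fun _ =>
      (h.measurable.iterate b) hB
  have hi : T ⁻¹' {x | ∃ᶠ n in atTop, T^[n] x ∈ B} = {x | ∃ᶠ n in atTop, T^[n] x ∈ B} := by
    ext x
    simp only [mem_preimage, mem_ofPred_eq, frequently_atTop]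
    constructor
    · intro hx a
      obtain ⟨b, hb, hb'⟩ := hx a
      exact ⟨b + 1, by omega, hb'⟩
    · intro hx a
      obtain ⟨b, hb, hb'⟩ := hx (a + 1)
      obtain ⟨c, rfl⟩ : ∃ c, b = c + 1 := ⟨b - 1, by omega⟩
      exact ⟨c, by omega, hb'⟩
  rcases h.toPreErgodic.ae_mem_or_ae_notMem hm hi with h1 | h1
  · exact h1
  · exfalso
    apply h0
    rw [measure_eq_zero_iff_ae_notMem]
    filter_upwards [h1, h.toMeasurePreserving.conservative.ae_mem_imp_frequently_image_mem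
      hB.nullMeasurableSet] with x h2 h3 h4
    exact h2 (h3 h4)

theorem ergodic_hit [IsFiniteMeasure μ] (h : Ergodic T μ) {B B' : Set X} (hB' : MeasurableSet B')
    (h0 : μ B ≠ 0) (h0' : μ B' ≠ 0) : ∃ j : ℕ, μ (B ∩ T^[j] ⁻¹' B') ≠ 0 := by
  by_contra hc
  push Not at hc
  apply h0
  rw [measure_eq_zero_iff_ae_notMem]
  have h1 : ∀ᵐ x ∂μ, ∀ j : ℕ, x ∉ B ∩ T^[j] ⁻¹' B' :=
    ae_all_iff.2 fun j => measure_eq_zero_iff_ae_notMem.1 (hc j)
  filter_upwards [h1, ergodic_freq h hB' h0'] with x h2 h3 h4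
  obtain ⟨j, hj⟩ := h3.exists
  exact h2 j ⟨h4, hj⟩

end Pool.Agent.Lib.MP_e7c912_an
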