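import Pool.Agent.Lib.MP_e7c912_an.H60Atlas

/-! Birkhoff and Kingman theorems for bounded observables. -/

namespace Pool.Agent.Lib.MP_e7c912_an

open MeasureTheory Filter Metric Set Topology
open scoped ENNReal

variable {X : Type} [MeasurableSpace X] {T S : X → X} {μ : Measure X} {φ : X → ℝ} {C : ℝ}

theorem bddLe_erg1 {u : ℕ → ℝ} {K : ℝ} (hu : ∀ n, |u n| ≤ K) :
    IsBoundedUnder (· ≤ ·) atTop u :=
  isBoundedUnder_of ⟨K, fun n => (abs_le.1 (hu n)).2⟩

theorem bddGe_erg1 {u : ℕ → ℝ} {K : ℝ} (hu : ∀ n, |u n| ≤ K) :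
    IsBoundedUnder (· ≥ ·) atTop u :=
  isBoundedUnder_of ⟨-K, fun n => (abs_le.1 (hu n)).1⟩

theorem limsup_le_erg1 {u v : ℕ → ℝ} {K K' b : ℝ} (hu : ∀ n, |u n| ≤ K) (hv : ∀ n, |v n| ≤ K')
    (h : ∀ e : ℝ, 0 < e → ∀ᶠ n in atTop, u n ≤ v n + b + e) :
    limsup u atTop ≤ limsup v atTop + b := by
  refine le_of_forall_pos_le_add fun e he => ?_
  refine limsup_le_of_le (bddGe_erg1 hu).isCoboundedUnder_le ?_
  have h1 : ∀ᶠ n in atTop, v n < limsup v atTop + e / 2 :=
    eventually_lt_of_limsup_lt (by linarith) (bddLe_erg1 hv)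
  filter_upwards [h1, h (e / 2) (by linarith)] with n h1 h2
  linarith

theorem liminf_le_erg1 {u v : ℕ → ℝ} {K K' : ℝ} (hu : ∀ n, |u n| ≤ K) (hv : ∀ n, |v n| ≤ K')
    (h : ∀ e : ℝ, 0 < e → ∀ᶠ n in atTop, u n ≤ v n + e) :
    liminf u atTop ≤ liminf v atTop := by
  refine le_of_forall_pos_le_add fun e he => ?_
  rw [← sub_le_iff_le_add]
  refine le_liminf_of_le (bddLe_erg1 hv).isCoboundedUnder_ge ?_
  have h1 : ∀ᶠ n in atTop, liminf u atTop - e / 2 < u n :=
    eventually_lt_of_lt_liminf (by linarith) (bddGe_erg1 hu)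
  filter_upwards [h1, h (e / 2) (by linarith)] with n h1 h2
  linarith

theorem abs_limsup_le_erg1 {u : ℕ → ℝ} {K : ℝ} (hu : ∀ n, |u n| ≤ K) : |limsup u atTop| ≤ K := by
  refine abs_le.2 ⟨?_, ?_⟩
  · exact le_limsup_of_frequently_le (Frequently.of_forall fun n => (abs_le.1 (hu n)).1)
      (bddLe_erg1 hu)
  · exact limsup_le_of_le (bddGe_erg1 hu).isCoboundedUnder_le
      (Eventually.of_forall fun n => (abs_le.1 (hu n)).2)

theorem abs_liminf_le_erg1 {u : ℕ → ℝ} {K : ℝ} (hu : ∀ n, |u n| ≤ K) : |liminf u atTop| ≤ K := by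
  refine abs_le.2 ⟨?_, ?_⟩
  · exact le_liminf_of_le (bddLe_erg1 hu).isCoboundedUnder_ge
      (Eventually.of_forall fun n => (abs_le.1 (hu n)).1)
  · exact liminf_le_of_frequently_le (Frequently.of_forall fun n => (abs_le.1 (hu n)).2)
      (bddGe_erg1 hu)

theorem ev_div_le_erg1 (K : ℝ) {e : ℝ} (he : 0 < e) : ∀ᶠ n : ℕ in atTop, K / n ≤ e :=
  (tendsto_const_div_atTop_nhds_zero_nat K).eventually (ge_mem_nhds he)

theorem abs_div_le_erg1 {t K : ℝ} {n : ℕ} (hK : 0 ≤ K) (h : |t| ≤ K * n) : |t / n| ≤ K := by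
  rcases Nat.eq_zero_or_pos n with rfl | hn
  · simpa using hK
  · have hn' : (0 : ℝ) < n := Nat.cast_pos.2 hn
    rw [abs_div, abs_of_pos hn', div_le_iff₀ hn']
    exact h

theorem measurePreserving_restrict (hT : MeasurePreserving T μ μ) {B : Set X}
    (hB : MeasurableSet B) (hi : T ⁻¹' B = B) :
    MeasurePreserving T (μ.restrict B) (μ.restrict B) := by
  have := hT.restrict_preimage hB
  rwa [hi] at this

theorem measurable_sum_erg1 (hT : Measurable T) (hφ : Measurable φ) (n : ℕ) :
    Measurable (birkhoffSum T φ n) := by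
  unfold birkhoffSum
  exact Finset.measurable_sum _ fun k _ => hφ.comp (hT.iterate k)

omit [MeasurableSpace X] in
theorem average_eq_erg1 (T : X → X) (φ : X → ℝ) (n : ℕ) (x : X) :
    birkhoffAverage ℝ T φ n x = birkhoffSum T φ n x / n := by
  rw [birkhoffAverage, smul_eq_mul, div_eq_inv_mul]

theorem measurable_average_erg1 (hT : Measurable T) (hφ : Measurable φ) (n : ℕ) :
    Measurable (birkhoffAverage ℝ T φ n) := by
  have : birkhoffAverage ℝ T φ n = fun x => birkhoffSum T φ n x / n :=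
    funext fun x => average_eq_erg1 T φ n x
  rw [this]
  exact (measurable_sum_erg1 hT hφ n).div_const _

theorem measurable_avg (hT : Measurable T) (hφ : Measurable φ) : Measurable (avg T φ) :=
  Measurable.limsup fun n => measurable_average_erg1 hT hφ n

omit [MeasurableSpace X] in
theorem abs_sum_le_erg1 (hb : ∀ x, |φ x| ≤ C) (n : ℕ) (x : X) :
    |birkhoffSum T φ n x| ≤ C * n := by
  unfold birkhoffSum
  refine (Finset.abs_sum_le_sum_abs _ _).trans ?_
  refine (Finset.sum_le_sum fun k _ => hb (T^[k] x)).trans ?_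
  simp [mul_comm]

omit [MeasurableSpace X] in
theorem abs_average_le_erg1 (hb : ∀ x, |φ x| ≤ C) (n : ℕ) (x : X) :
    |birkhoffAverage ℝ T φ n x| ≤ C := by
  rw [average_eq_erg1]
  exact abs_div_le_erg1 ((abs_nonneg _).trans (hb x)) (abs_sum_le_erg1 hb n x)

omit [MeasurableSpace X] in
theorem avg_comp (hb : ∀ x, |φ x| ≤ C) (x : X) : avg T φ (T x) = avg T φ x := by
  have key : ∀ e : ℝ, 0 < e → ∀ᶠ n : ℕ in atTop,
      |birkhoffAverage ℝ T φ n (T x) - birkhoffAverage ℝ T φ n x| ≤ e := by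
    intro e he
    filter_upwards [ev_div_le_erg1 (2 * C) he] with n hn
    refine le_trans ?_ hn
    rw [birkhoffAverage_apply_sub_birkhoffAverage, smul_eq_mul, abs_mul, div_eq_inv_mul,
      abs_of_nonneg (by positivity)]
    refine mul_le_mul_of_nonneg_left ?_ (by positivity)
    have h1 := abs_le.1 (hb (T^[n] x))
    have h2 := abs_le.1 (hb x)
    exact abs_le.2 ⟨by linarith, by linarith⟩
  apply le_antisymm
  · have := limsup_le_erg1 (b := 0) (fun n => abs_average_le_erg1 (T := T) hb n (T x))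
      (fun n => abs_average_le_erg1 (T := T) hb n x) fun e he => by
        filter_upwards [key e he] with n hn
        have := (abs_le.1 hn).2
        linarith
    simpa [avg] using this
  · have := limsup_le_erg1 (b := 0) (fun n => abs_average_le_erg1 (T := T) hb n x)
      (fun n => abs_average_le_erg1 (T := T) hb n (T x)) fun e he => by
        filter_upwards [key e he] with n hn
        have := (abs_le.1 hn).1
        linarith
    simpa [avg] using this

omit [MeasurableSpace X] in
theorem abs_avg_le (hb : ∀ x, |φ x| ≤ C) (x : X) : |avg T φ x| ≤ C :=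
  abs_limsup_le_erg1 fun n => abs_average_le_erg1 hb n x

/-- The points at which no good time occurs before `L`. -/
def badSet_erg1 (a : ℕ → X → ℝ) (g : X → ℝ) (e : ℝ) (L : ℕ) : Set X :=
  {x | ∀ n : ℕ, 1 ≤ n → n ≤ L → n * (g x + e) < a n x}

/-- The indicator of the bad set. -/
noncomputable def badInd_erg1 (a : ℕ → X → ℝ) (g : X → ℝ) (e : ℝ) (L : ℕ) : X → ℝ :=
  (badSet_erg1 a g e L).indicator fun _ => 1

omit [MeasurableSpace X] in
theorem badInd_nonneg_erg1 (a : ℕ → X → ℝ) (g : X → ℝ) (e : ℝ) (L : ℕ) (x : X) :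
    0 ≤ badInd_erg1 a g e L x :=
  indicator_nonneg (fun _ _ => zero_le_one) x

omit [MeasurableSpace X] in
theorem abs_badInd_le_erg1 (a : ℕ → X → ℝ) (g : X → ℝ) (e : ℝ) (L : ℕ) (x : X) :
    |badInd_erg1 a g e L x| ≤ 1 := by
  unfold badInd_erg1
  by_cases h : x ∈ badSet_erg1 a g e L <;> simp [h]

theorem measurableSet_bad_erg1 {a : ℕ → X → ℝ} {g : X → ℝ} (hm : ∀ n, Measurable (a n))
    (hg : Measurable g) (e : ℝ) (L : ℕ) : MeasurableSet (badSet_erg1 a g e L) := by
  have : badSet_erg1 a g e L =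
      ⋂ n : ℕ, ⋂ _ : 1 ≤ n, ⋂ _ : n ≤ L, {x | n * (g x + e) < a n x} := by
    ext x
    simp [badSet_erg1]
  rw [this]
  refine MeasurableSet.iInter fun n => MeasurableSet.iInter fun _ =>
    MeasurableSet.iInter fun _ => measurableSet_lt ?_ (hm n)
  exact (hg.add_const e).const_mul _

theorem measurable_badInd_erg1 {a : ℕ → X → ℝ} {g : X → ℝ} (hm : ∀ n, Measurable (a n))
    (hg : Measurable g) (e : ℝ) (L : ℕ) : Measurable (badInd_erg1 a g e L) :=
  measurable_const.indicator (measurableSet_bad_erg1 hm hg e L)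

theorem integral_badInd_erg1 {a : ℕ → X → ℝ} {g : X → ℝ} (hm : ∀ n, Measurable (a n))
    (hg : Measurable g) (e : ℝ) (L : ℕ) :
    ∫ x, badInd_erg1 a g e L x ∂μ = μ.real (badSet_erg1 a g e L) :=
  integral_indicator_one (measurableSet_bad_erg1 hm hg e L)

theorem tendsto_bad_erg1 [IsFiniteMeasure μ] {a : ℕ → X → ℝ} {g : X → ℝ}
    (hm : ∀ n, Measurable (a n)) (hg : Measurable g) {e : ℝ}
    (hex : ∀ x, ∃ n : ℕ, 1 ≤ n ∧ a n x ≤ n * (g x + e)) :
    Tendsto (fun L => μ.real (badSet_erg1 a g e L)) atTop (𝓝 0) := by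
  have h1 := tendsto_measure_iInter_atTop (μ := μ) (s := fun L => badSet_erg1 a g e L)
    (fun L => (measurableSet_bad_erg1 hm hg e L).nullMeasurableSet)
    (fun L L' hL x hx n h1 h2 => hx n h1 (h2.trans hL)) ⟨0, measure_ne_top _ _⟩
  have h2 : (⋂ L, badSet_erg1 a g e L) = ∅ := by
    refine eq_empty_of_forall_notMem fun x hx => ?_
    obtain ⟨n, h1, h2⟩ := hex x
    exact absurd (mem_iInter.1 hx n n h1 le_rfl) (not_lt.2 h2)
  rw [h2, measure_empty] at h1
  have := (ENNReal.tendsto_toReal ENNReal.zero_ne_top).comp h1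
  simpa [Measure.real, Function.comp_def] using this

omit [MeasurableSpace X] in
/-- The covering inequality. -/
theorem cover_erg1 {a : ℕ → X → ℝ} {g : X → ℝ} (hb : ∀ n x, |a n x| ≤ C * n)
    (hsub : ∀ n k x, a (n + k) x ≤ a n x + a k (T^[n] x)) (hgb : ∀ x, |g x| ≤ C)
    (hgi : ∀ x, g (T x) = g x) {e : ℝ} (he : 0 < e) (L n : ℕ) : ∀ x,
    a n x ≤ n * (g x + e) + 2 * C * birkhoffSum T (badInd_erg1 a g e L) n x + 2 * C * L := by
  have hit : ∀ m x, g (T^[m] x) = g x := by
    intro m
    induction m with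
    | zero => intro x; rfl
    | succ m ih => intro x; rw [Function.iterate_succ_apply, ih, hgi]
  have hS : ∀ m x, 0 ≤ birkhoffSum T (badInd_erg1 a g e L) m x := fun m x =>
    Finset.sum_nonneg fun k _ => badInd_nonneg_erg1 a g e L _
  induction n using Nat.strong_induction_on with
  | _ n ih =>
    intro x
    have hC : 0 ≤ C := (abs_nonneg _).trans (hgb x)
    have hg1 := (abs_le.1 (hgb x)).1
    rcases le_or_gt n L with hn | hn
    · have h1 := (abs_le.1 (hb n x)).2
      have h2 : (n : ℝ) ≤ L := Nat.cast_le.2 hn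
      have h3 : (0 : ℝ) ≤ n := Nat.cast_nonneg n
      have h4 := mul_nonneg hC (hS n x)
      nlinarith [mul_le_mul_of_nonneg_left h2 hC, mul_nonneg h3 he.le,
        mul_nonneg h3 (show 0 ≤ g x + C by linarith)]
    · by_cases hx : x ∈ badSet_erg1 a g e L
      · obtain ⟨k, rfl⟩ : ∃ k, n = 1 + k := ⟨n - 1, by omega⟩
        have h1 := hsub 1 k x
        have h2 := ih k (by omega) (T^[1] x)
        have h3 := (abs_le.1 (hb 1 x)).2
        have h4 : badInd_erg1 a g e L x = 1 := by simp [badInd_erg1, hx]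
        rw [birkhoffSum_add, birkhoffSum_one, h4]
        rw [hit] at h2
        push_cast at h3 ⊢
        nlinarith
      · obtain ⟨m, hm1, hmL, hm⟩ : ∃ m : ℕ, 1 ≤ m ∧ m ≤ L ∧ a m x ≤ m * (g x + e) := by
          by_contra hcon
          exact hx fun m h1 h2 => not_le.1 fun h3 => hcon ⟨m, h1, h2, h3⟩
        obtain ⟨k, rfl⟩ : ∃ k, n = m + k := ⟨n - m, by omega⟩
        have h1 := hsub m k x
        have h2 := ih k (by omega) (T^[m] x)
        have h4 := mul_nonneg hC (hS m x)
        rw [birkhoffSum_add]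
        rw [hit] at h2
        push_cast
        nlinarith

theorem integrable_erg1 [IsFiniteMeasure μ] {f : X → ℝ} {K : ℝ} (hf : Measurable f)
    (hb : ∀ x, |f x| ≤ K) : Integrable f μ :=
  Integrable.of_bound hf.aestronglyMeasurable K (Eventually.of_forall hb)

theorem integral_sum_erg1 [IsFiniteMeasure μ] (hT : MeasurePreserving T μ μ) (hφ : Measurable φ)
    (hb : ∀ x, |φ x| ≤ C) (n : ℕ) : ∫ x, birkhoffSum T φ n x ∂μ = n * ∫ x, φ x ∂μ := by
  unfold birkhoffSum
  rw [integral_finsetSum (f := fun k x => φ (T^[k] x)) _ fun k _ =>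
    integrable_erg1 (hφ.comp (hT.measurable.iterate k)) fun x => hb _]
  have : ∀ k ∈ Finset.range n, ∫ x, φ (T^[k] x) ∂μ = ∫ x, φ x ∂μ := by
    intro k _
    have h := hT.iterate k
    rw [← integral_map h.measurable.aemeasurable hφ.aestronglyMeasurable, h.map_eq]
  rw [Finset.sum_congr rfl this]
  simp

/-- Half of the pointwise ergodic theorem. -/
theorem integral_avg_le_erg1 [IsFiniteMeasure μ] (hT : MeasurePreserving T μ μ)
    (hφ : Measurable φ) (hb : ∀ x, |φ x| ≤ C) : ∫ x, avg T φ x ∂μ ≤ ∫ x, φ x ∂μ := by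
  have hb' : ∀ x, |(-φ) x| ≤ C := fun x => by simpa using hb x
  have hm : ∀ n, Measurable (birkhoffSum T (-φ) n) := measurable_sum_erg1 hT.measurable hφ.neg
  have hg : Measurable fun x => -avg T φ x := (measurable_avg hT.measurable hφ).neg
  have hgb : ∀ x, |-avg T φ x| ≤ C := fun x => by simpa using abs_avg_le hb x
  have main : ∀ e : ℝ, 0 < e → ∫ x, avg T φ x ∂μ ≤ ∫ x, φ x ∂μ + e * μ.real univ := by
    intro e he
    have hex : ∀ x, ∃ n : ℕ, 1 ≤ n ∧ birkhoffSum T (-φ) n x ≤ n * (-avg T φ x + e) := by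
      intro x
      have h1 : ∃ᶠ n : ℕ in atTop, avg T φ x - e < birkhoffAverage ℝ T φ n x :=
        frequently_lt_of_lt_limsup
          (bddGe_erg1 fun n => abs_average_le_erg1 hb n x).isCoboundedUnder_le
          (by unfold avg; linarith)
      obtain ⟨n, h2, h3⟩ := (h1.and_eventually (eventually_ge_atTop 1)).exists
      refine ⟨n, h3, ?_⟩
      have hn : (0 : ℝ) < n := Nat.cast_pos.2 h3
      rw [average_eq_erg1, lt_div_iff₀ hn] at h2
      rw [birkhoffSum_neg]
      linarith
    have hlim := tendsto_bad_erg1 (μ := μ) hm hg hex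
    have step : ∀ L : ℕ, ∫ x, avg T φ x ∂μ ≤ ∫ x, φ x ∂μ + e * μ.real univ +
        2 * C * μ.real (badSet_erg1 (birkhoffSum T (-φ)) (fun x => -avg T φ x) e L) := by
      intro L
      refine le_of_forall_pos_le_add fun d hd => ?_
      obtain ⟨n, h2, h3⟩ := ((ev_div_le_erg1 (2 * C * L * μ.real univ) hd).and
        (eventually_ge_atTop 1)).exists
      have hn : (0 : ℝ) < n := Nat.cast_pos.2 h3
      have hcov := cover_erg1 (T := T) (abs_sum_le_erg1 hb')
        (fun n k x => (birkhoffSum_add T (-φ) n k x).le) hgb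
        (fun x => by rw [avg_comp hb]) he L n
      have hmI := measurable_badInd_erg1 hm hg e L
      have i1 : Integrable (fun x => -avg T φ x) μ := integrable_erg1 hg hgb
      have i2 : Integrable (fun x => (n : ℝ) * (-avg T φ x + e)) μ :=
        (i1.add (integrable_const e)).const_mul _
      have i3 : Integrable (fun x => 2 * C * birkhoffSum T
          (badInd_erg1 (birkhoffSum T (-φ)) (fun x => -avg T φ x) e L) n x) μ :=
        (integrable_erg1 (measurable_sum_erg1 hT.measurable hmI n)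
          (abs_sum_le_erg1 (abs_badInd_le_erg1 _ _ e L) n)).const_mul _
      have h4 := integral_mono (μ := μ) (integrable_erg1 (hm n) (abs_sum_le_erg1 hb' n))
        ((i2.add i3).add (integrable_const (2 * C * L))) hcov
      rw [integral_sum_erg1 hT hφ.neg hb', integral_add' (i2.add i3) (integrable_const _),
        integral_add' i2 i3, integral_const_mul, integral_const_mul,
        integral_add i1 (integrable_const e), integral_neg,
        integral_sum_erg1 hT hmI (abs_badInd_le_erg1 _ _ e L), integral_badInd_erg1 hm hg,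
        integral_const, integral_const, integral_neg'] at h4
      simp only [smul_eq_mul] at h4
      rw [div_le_iff₀ hn] at h2
      refine le_of_mul_le_mul_left ?_ hn
      linarith
    have h5 := (hlim.const_mul (2 * C)).const_add (∫ x, φ x ∂μ + e * μ.real univ)
    simpa using ge_of_tendsto' h5 step
  have h6 : Tendsto (fun n : ℕ => ∫ x, φ x ∂μ + 1 / ((n : ℝ) + 1) * μ.real univ) atTop
      (𝓝 (∫ x, φ x ∂μ + 0 * μ.real univ)) :=
    (tendsto_one_div_add_atTop_nhds_zero_nat.mul_const _).const_add _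
  simpa using ge_of_tendsto' h6 fun n => main _ Nat.one_div_pos_of_nat

omit [MeasurableSpace X] in
theorem liminf_comp_erg1 {a : ℕ → X → ℝ} (hb : ∀ n x, |a n x| ≤ C * n)
    (hstep : ∀ n x, |a (n + 1) x - a n (T x)| ≤ C) (x : X) :
    liminf (fun n : ℕ => a n (T x) / n) atTop = liminf (fun n : ℕ => a n x / n) atTop := by
  have hC : 0 ≤ C := (abs_nonneg _).trans (hstep 0 x)
  have hq : ∀ (n : ℕ) y, |a n y / n| ≤ C := fun n y => abs_div_le_erg1 hC (hb n y)
  rw [← liminf_nat_add (fun n : ℕ => a n x / n) 1]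
  have key : ∀ e : ℝ, 0 < e → ∀ᶠ n : ℕ in atTop,
      |a (n + 1) x / ((n + 1 : ℕ) : ℝ) - a n (T x) / n| ≤ e := by
    intro e he
    filter_upwards [ev_div_le_erg1 (2 * C) he, eventually_ge_atTop 1] with n h1 h2
    have hn : (0 : ℝ) < n := Nat.cast_pos.2 h2
    refine le_trans ?_ h1
    have h3 : a (n + 1) x / ((n + 1 : ℕ) : ℝ) - a n (T x) / n =
        ((a (n + 1) x - a n (T x)) - a (n + 1) x / ((n + 1 : ℕ) : ℝ)) / n := by
      push_cast
      field_simp
      ring
    rw [h3, abs_div, abs_of_pos hn]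
    refine div_le_div_of_nonneg_right ?_ hn.le
    have h4 := abs_le.1 (hstep n x)
    have h5 := abs_le.1 (hq (n + 1) x)
    exact abs_le.2 ⟨by linarith, by linarith⟩
  apply le_antisymm
  · refine liminf_le_erg1 (fun n => hq n _) (fun n => hq (n + 1) _) fun e he => ?_
    filter_upwards [key e he] with n hn
    have := (abs_le.1 hn).1
    linarith
  · refine liminf_le_erg1 (fun n => hq (n + 1) _) (fun n => hq n _) fun e he => ?_
    filter_upwards [key e he] with n hn
    have := (abs_le.1 hn).2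
    linarith

theorem kingman_erg1 [IsFiniteMeasure μ] (hT : MeasurePreserving T μ μ) {a : ℕ → X → ℝ}
    (hm : ∀ n, Measurable (a n)) (hb : ∀ n x, |a n x| ≤ C * n)
    (hsub : ∀ n k x, a (n + k) x ≤ a n x + a k (T^[n] x))
    (hstep : ∀ n x, |a (n + 1) x - a n (T x)| ≤ C) :
    ∀ᵐ x ∂μ, Tendsto (fun n : ℕ => a n x / n) atTop
      (𝓝 (limsup (fun n : ℕ => a n x / n) atTop)) := by
  have hC : ∀ _ : X, 0 ≤ C := fun x => (abs_nonneg _).trans (hstep 0 x)
  have hq : ∀ x (n : ℕ), |a n x / n| ≤ C := fun x n => abs_div_le_erg1 (hC x) (hb n x)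
  set g : X → ℝ := fun x => liminf (fun n : ℕ => a n x / n) atTop with hgdef
  set h : X → ℝ := fun x => limsup (fun n : ℕ => a n x / n) atTop with hhdef
  have hg : Measurable g := Measurable.liminf fun n => (hm n).div_const _
  have hh : Measurable h := Measurable.limsup fun n => (hm n).div_const _
  have hgb : ∀ x, |g x| ≤ C := fun x => abs_liminf_le_erg1 (hq x)
  have hhb : ∀ x, |h x| ≤ C := fun x => abs_limsup_le_erg1 (hq x)
  have hgi : ∀ x, g (T x) = g x := fun x => liminf_comp_erg1 hb hstep x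
  have ig : Integrable g μ := integrable_erg1 hg hgb
  have ih : Integrable h μ := integrable_erg1 hh hhb
  have main : ∀ e : ℝ, 0 < e → ∫ x, h x ∂μ ≤ ∫ x, g x ∂μ + e * μ.real univ := by
    intro e he
    have hex : ∀ x, ∃ n : ℕ, 1 ≤ n ∧ a n x ≤ n * (g x + e) := by
      intro x
      have h1 : ∃ᶠ n : ℕ in atTop, a n x / n < g x + e :=
        frequently_lt_of_liminf_lt (bddLe_erg1 (hq x)).isCoboundedUnder_ge
          (by simp only [hgdef]; linarith)
      obtain ⟨n, h2, h3⟩ := (h1.and_eventually (eventually_ge_atTop 1)).exists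
      refine ⟨n, h3, ?_⟩
      have hn : (0 : ℝ) < n := Nat.cast_pos.2 h3
      rw [div_lt_iff₀ hn] at h2
      linarith
    have hlim := tendsto_bad_erg1 (μ := μ) hm hg hex
    have step : ∀ L : ℕ, ∫ x, h x ∂μ ≤ ∫ x, g x ∂μ + e * μ.real univ +
        2 * |C| * μ.real (badSet_erg1 a g e L) := by
      intro L
      have hmI : Measurable fun x => 2 * |C| * badInd_erg1 a g e L x :=
        (measurable_badInd_erg1 hm hg e L).const_mul _
      have hbI : ∀ x, |2 * |C| * badInd_erg1 a g e L x| ≤ 2 * |C| := by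
        intro x
        rw [abs_mul, abs_of_nonneg (by positivity : 0 ≤ 2 * |C|)]
        exact mul_le_of_le_one_right (by positivity) (abs_badInd_le_erg1 a g e L x)
      have hpt : ∀ x, h x ≤ avg T (fun x => 2 * |C| * badInd_erg1 a g e L x) x + (g x + e) := by
        intro x
        refine limsup_le_erg1 (hq x) (fun n => abs_average_le_erg1 hbI n x) fun d hd => ?_
        filter_upwards [ev_div_le_erg1 (2 * C * L) hd, eventually_ge_atTop 1] with n h1 h2
        have hn : (0 : ℝ) < n := Nat.cast_pos.2 h2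
        have h3 := cover_erg1 hb hsub hgb hgi he L n x
        have h4 : birkhoffSum T (fun x => 2 * |C| * badInd_erg1 a g e L x) n x =
            2 * C * birkhoffSum T (badInd_erg1 a g e L) n x := by
          simp only [birkhoffSum, abs_of_nonneg (hC x), Finset.mul_sum]
        rw [div_le_iff₀ hn] at h1
        rw [average_eq_erg1, h4, div_le_iff₀ hn, add_mul, add_mul, div_mul_cancel₀ _ hn.ne']
        linarith
      have i1 : Integrable (avg T fun x => 2 * |C| * badInd_erg1 a g e L x) μ :=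
        integrable_erg1 (measurable_avg hT.measurable hmI) (abs_avg_le hbI)
      have i2 : Integrable (fun x => g x + e) μ := ig.add (integrable_const e)
      have h4 := integral_mono ih (i1.add i2) hpt
      have h5 := integral_avg_le_erg1 hT hmI hbI
      rw [integral_add' i1 i2, integral_add ig (integrable_const e), integral_const] at h4
      rw [integral_const_mul, integral_badInd_erg1 hm hg] at h5
      simp only [smul_eq_mul] at h4
      linarith
    have h5 := (hlim.const_mul (2 * |C|)).const_add (∫ x, g x ∂μ + e * μ.real univ)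
    simpa using ge_of_tendsto' h5 step
  have h6 : Tendsto (fun n : ℕ => ∫ x, g x ∂μ + 1 / ((n : ℝ) + 1) * μ.real univ) atTop
      (𝓝 (∫ x, g x ∂μ + 0 * μ.real univ)) :=
    (tendsto_one_div_add_atTop_nhds_zero_nat.mul_const _).const_add _
  have h7 : ∫ x, h x ∂μ ≤ ∫ x, g x ∂μ := by
    simpa using ge_of_tendsto' h6 fun n => main _ Nat.one_div_pos_of_nat
  have h8 : ∀ x, g x ≤ h x := fun x => liminf_le_limsup (bddLe_erg1 (hq x)) (bddGe_erg1 (hq x))
  have h9 : g =ᵐ[μ] h := (integral_eq_iff_of_ae_le ig ih (Eventually.of_forall h8)).1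
    (le_antisymm (integral_mono ig ih h8) h7)
  filter_upwards [h9] with x hx
  exact tendsto_of_liminf_eq_limsup hx rfl (bddLe_erg1 (hq x)) (bddGe_erg1 (hq x))

theorem ae_tendsto_avg [IsFiniteMeasure μ] (hT : MeasurePreserving T μ μ) (hφ : Measurable φ)
    (hb : ∀ x, |φ x| ≤ C) :
    ∀ᵐ x ∂μ, Tendsto (fun n : ℕ => birkhoffAverage ℝ T φ n x) atTop (𝓝 (avg T φ x)) := by
  have := kingman_erg1 hT (measurable_sum_erg1 hT.measurable hφ) (abs_sum_le_erg1 hb)
    (fun n k x => (birkhoffSum_add T φ n k x).le)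
    (fun n x => by rw [birkhoffSum_succ']; simpa using hb x)
  simpa only [avg, average_eq_erg1] using this

theorem setIntegral_avg [IsFiniteMeasure μ] (hT : MeasurePreserving T μ μ) (hφ : Measurable φ)
    (hb : ∀ x, |φ x| ≤ C) {B : Set X} (hB : MeasurableSet B) (hi : T ⁻¹' B = B) :
    ∫ x in B, avg T φ x ∂μ = ∫ x in B, φ x ∂μ := by
  have hT' := measurePreserving_restrict hT hB hi
  have h1 := tendsto_integral_of_dominated_convergence (μ := μ.restrict B) (fun _ => C)
    (fun n => (measurable_average_erg1 hT.measurable hφ n).aestronglyMeasurable)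
    (integrable_const C) (fun n => Eventually.of_forall fun x => abs_average_le_erg1 hb n x)
    (ae_tendsto_avg hT' hφ hb)
  refine tendsto_nhds_unique h1 (tendsto_const_nhds.congr' ?_)
  filter_upwards [eventually_ge_atTop 1] with n hn
  have hn' : (0 : ℝ) < n := Nat.cast_pos.2 hn
  simp only [average_eq_erg1]
  rw [integral_div, integral_sum_erg1 hT' hφ hb, mul_div_cancel_left₀ _ hn'.ne']

theorem kingman [IsFiniteMeasure μ] (hT : MeasurePreserving T μ μ) {a : ℕ → X → ℝ}
    (hm : ∀ n, Measurable (a n)) (hb : ∀ n x, |a n x| ≤ C * n)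
    (hsub : ∀ n k x, a (n + k) x ≤ a n x + a k (T^[n] x))
    (hstep : ∀ n x, |a (n + 1) x - a n (T x)| ≤ C) :
    ∀ᵐ x ∂μ, Tendsto (fun n : ℕ => a n x / n) atTop
      (𝓝 (limsup (fun n : ℕ => a n x / n) atTop)) :=
  kingman_erg1 hT hm hb hsub hstep

end Pool.Agent.Lib.MP_e7c912_an
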