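import Pool.Agent.Lib.MP_e7c912_an.H60Yom1

/-! One step of the reparametrisation, from the conclusion of the reparametrisation lemma. -/

namespace Pool.Agent.Lib.MP_e7c912_an

open MeasureTheory Filter Metric Set Topology

variable {X : Type} [MetricSpace X] [MeasurableSpace X] {A : Atlas X}

/-- An interval of length `h` containing `t` can be moved inside `[a, a + L]`. -/
theorem clamp_fit1 {a L h u t : ℝ} (hL : h ≤ L) (ht : t ∈ Icc a (a + L)) (h1 : u ≤ t)
    (h2 : t ≤ u + h) :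
    a ≤ min (max a u) (a + L - h) ∧ min (max a u) (a + L - h) + h ≤ a + L ∧
      t ∈ Icc (min (max a u) (a + L - h)) (min (max a u) (a + L - h) + h) := by
  obtain ⟨ht1, ht2⟩ := ht
  refine ⟨le_min (le_max_left _ _) (by linarith), ?_, ?_, ?_⟩
  · have := min_le_right (max a u) (a + L - h)
    linarith
  · exact (min_le_left _ _).trans (max_le ht1 h1)
  · rcases min_choice (max a u) (a + L - h) with h3 | h3
    · rw [h3]
      have := le_max_right a u
      linarith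
    · rw [h3]
      linarith

theorem floor_fit1 {h z t : ℝ} (hh : 0 < h) :
    z + (⌊(t - z) / h⌋ : ℤ) * h ≤ t ∧ t ≤ z + (⌊(t - z) / h⌋ : ℤ) * h + h := by
  have h1 := Int.floor_le ((t - z) / h)
  have h2 := Int.lt_floor_add_one ((t - z) / h)
  rw [le_div_iff₀ hh] at h1
  rw [div_lt_iff₀ hh] at h2
  constructor <;> nlinarith

theorem floor_mem_fit1 {h z t : ℝ} {M : ℤ} (hh : 0 < h) (H : |t - z| < M * h) :
    ⌊(t - z) / h⌋ ∈ Finset.Icc (-M) (M - 1) := by
  rw [abs_lt] at H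
  rw [Finset.mem_Icc]
  constructor
  · rw [Int.le_floor, le_div_iff₀ hh]
    push_cast
    linarith [H.1]
  · have : ⌊(t - z) / h⌋ < M := by
      rw [Int.floor_lt, div_lt_iff₀ hh]
      exact H.2
    omega

/-- On a bounded interval, the parameters mapped into a ball of radius `ε` are covered by at most
eight good pieces. -/
theorem eight_fit1 {r : ℕ} {ε : ℝ} {c : ℝ → X} {s h : ℝ} (hr : 2 ≤ r) (hε : 0 < ε) (hh : 0 < h)
    (hs : A.SmC r c s h) (hb : A.Bdd r c s h) (y : X) :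
    ∃ S : Finset (ℝ × ℝ), S.card ≤ 8 ∧
      (∀ p ∈ S, 0 < p.2 ∧ s ≤ p.1 ∧ p.1 + p.2 ≤ s + h ∧ A.Good r ε c p.1 p.2) ∧
      ∀ t ∈ Icc s (s + h), dist (c t) y < ε → ∃ p ∈ S, t ∈ Icc p.1 (p.1 + p.2) := by
  classical
  by_cases hT : ∃ t0 ∈ Icc s (s + h), dist (c t0) y < ε
  swap
  · refine ⟨∅, by simp, by simp, fun t ht hd => absurd ⟨t, ht, hd⟩ hT⟩
  obtain ⟨t0, ht0, hd0⟩ := hT
  set v0 := ‖deriv (A.e ∘ c) t0‖ with hv0
  have hv : 0 ≤ v0 := norm_nonneg _
  have hsp : ∀ t ∈ Icc s (s + h), 3 * ‖deriv (A.e ∘ c) t‖ ≤ 4 * v0 := fun t ht =>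
    Atlas.Bdd.distortion hs hb hr hh ht ht0
  by_cases hc : h * v0 ≤ 3 * ε / 4
  · refine ⟨{(s, h)}, by simp, ?_, ?_⟩
    · intro p hp
      rw [Finset.mem_singleton] at hp
      subst hp
      refine ⟨hh, le_rfl, le_rfl, hs, hb, fun t ht => ?_⟩
      have := hsp t ht
      change ‖deriv (A.e ∘ c) t‖ * h ≤ ε
      nlinarith
    · intro t ht _
      exact ⟨(s, h), by simp, ht⟩
  rw [not_le] at hc
  have hv' : 0 < v0 := by
    rcases hv.eq_or_lt with h0 | h0
    · rw [← h0] at hc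
      linarith
    · exact h0
  set lam := 3 * ε / (4 * v0) with hlam
  have hl0 : 0 < lam := by positivity
  have hlv : lam * v0 = 3 * ε / 4 := by
    rw [hlam]
    field_simp
  have hlh : lam ≤ h := by
    by_contra hn
    rw [not_le] at hn
    nlinarith
  refine ⟨(Finset.Icc (-4 : ℤ) 3).image
    fun i : ℤ => (min (max s (t0 + i * lam)) (s + h - lam), lam), ?_, ?_, ?_⟩
  · refine Finset.card_image_le.trans ?_
    simp
  · intro p hp
    obtain ⟨i, -, rfl⟩ := Finset.mem_image.1 hp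
    have h1 : s ≤ min (max s (t0 + i * lam)) (s + h - lam) :=
      le_min (le_max_left _ _) (by linarith)
    have h2 : min (max s (t0 + i * lam)) (s + h - lam) + lam ≤ s + h := by
      have := min_le_right (max s (t0 + i * lam)) (s + h - lam)
      linarith
    refine ⟨hl0, h1, h2, hs.mono h1 h2, hb.mono hl0.le h1 h2, fun t ht => ?_⟩
    have := hsp t ⟨h1.trans ht.1, ht.2.trans h2⟩
    change ‖deriv (A.e ∘ c) t‖ * lam ≤ ε
    nlinarith
  · intro t ht hd
    have htay := Atlas.Bdd.taylor hs hb hr hh ht ht0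
    rw [← hv0] at htay
    have habs : |t - t0| ≤ h := by
      rw [abs_le]
      constructor <;> linarith [ht.1, ht.2, ht0.1, ht0.2]
    have h3 : ‖A.e (c t) - A.e (c t0) - (t - t0) • deriv (A.e ∘ c) t0‖ ≤ v0 * |t - t0| / 3 := by
      refine le_of_mul_le_mul_right (htay.trans ?_) hh
      rw [← sq_abs, sq]
      have h4 : 0 ≤ v0 * |t - t0| := by positivity
      nlinarith
    have h5 : ‖A.e (c t) - A.e (c t0)‖ < 2 * ε := by
      rw [← dist_eq_norm, A.iso.dist_eq]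
      have := dist_triangle_right (c t) (c t0) y
      linarith
    have h6 : ‖(t - t0) • deriv (A.e ∘ c) t0‖ = |t - t0| * v0 := by
      rw [norm_smul, Real.norm_eq_abs]
    have h7 : ‖(t - t0) • deriv (A.e ∘ c) t0‖ ≤ ‖A.e (c t) - A.e (c t0)‖ +
        ‖A.e (c t) - A.e (c t0) - (t - t0) • deriv (A.e ∘ c) t0‖ := by
      have := norm_sub_le (A.e (c t) - A.e (c t0))
        (A.e (c t) - A.e (c t0) - (t - t0) • deriv (A.e ∘ c) t0)
      rwa [sub_sub_cancel] at this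
    have h8 : |t - t0| < ((4 : ℤ) : ℝ) * lam := by
      push_cast
      refine lt_of_mul_lt_mul_right ?_ hv
      nlinarith
    have h9 := floor_mem_fit1 hl0 h8
    obtain ⟨h10, h11⟩ := floor_fit1 (z := t0) (t := t) hl0
    refine ⟨_, Finset.mem_image.2 ⟨_, h9, rfl⟩, ?_⟩
    exact (clamp_fit1 hlh ht h10 h11).2.2

/-- Whitney type cover of an interval by intervals far from a finite set or very short. -/
theorem whitney_fit1 {a L C : ℝ} (J : ℕ) (hL : 0 < L) (hC : 1 ≤ C) (Z : Finset ℝ) :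
    ∃ S : Finset (ℝ × ℝ), (S.card : ℝ) ≤ (Z.card + 1) * (J + 1) * (4 * C + 11) ∧
      (∀ p ∈ S, 0 < p.2 ∧ a ≤ p.1 ∧ p.1 + p.2 ≤ a + L ∧
        ((∀ z ∈ Z, ∀ t ∈ Icc p.1 (p.1 + p.2), C * p.2 ≤ |t - z|) ∨ p.2 * 2 ^ J ≤ L)) ∧
      ∀ t ∈ Icc a (a + L), ∃ p ∈ S, t ∈ Icc p.1 (p.1 + p.2) := by
  classical
  set M : ℤ := ⌈2 * C⌉ + 2 with hM
  have hM1 : 2 * C + 2 ≤ (M : ℝ) := by
    rw [hM]
    push_cast
    linarith [Int.le_ceil (2 * C)]
  have hM2 : (M : ℝ) ≤ 2 * C + 3 := by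
    rw [hM]
    push_cast
    linarith [Int.ceil_lt_add_one (2 * C)]
  have hM0 : 0 ≤ M := by
    have : (0 : ℝ) ≤ M := by linarith
    exact_mod_cast this
  let g : ℝ × ℕ × ℤ → ℝ × ℝ := fun w =>
    (min (max a (w.1 + w.2.2 * (L / 2 ^ w.2.1))) (a + L - L / 2 ^ w.2.1), L / 2 ^ w.2.1)
  let P : Finset (ℝ × ℕ × ℤ) := insert a Z ×ˢ Finset.range (J + 1) ×ˢ Finset.Icc (-M) (M - 1)
  have hpos : ∀ j : ℕ, 0 < L / 2 ^ j := fun j => by positivity
  have hle : ∀ j : ℕ, L / 2 ^ j ≤ L := fun j => div_le_self hL.le (one_le_pow₀ (by norm_num))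
  refine ⟨(P.image g).filter fun p => 0 < p.2 ∧ a ≤ p.1 ∧ p.1 + p.2 ≤ a + L ∧
        ((∀ z ∈ Z, ∀ t ∈ Icc p.1 (p.1 + p.2), C * p.2 ≤ |t - z|) ∨ p.2 * 2 ^ J ≤ L),
    ?_, fun p hp => (Finset.mem_filter.1 hp).2, ?_⟩
  · refine (Nat.cast_le.2 ((Finset.card_filter_le _ _).trans Finset.card_image_le)).trans ?_
    have h1 : ((insert a Z).card : ℝ) ≤ Z.card + 1 := by
      exact_mod_cast Finset.card_insert_le a Z
    have h2 : ((Finset.Icc (-M) (M - 1)).card : ℝ) ≤ 4 * C + 11 := by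
      have h3 : ((Finset.Icc (-M) (M - 1)).card : ℤ) = 2 * M := by
        rw [Int.card_Icc_of_le _ _ (by omega)]
        ring
      have h4 : ((Finset.Icc (-M) (M - 1)).card : ℝ) = 2 * M := by exact_mod_cast h3
      linarith
    simp only [P, Finset.card_product, Finset.card_range]
    push_cast
    rw [mul_assoc]
    gcongr
  · intro t ht
    obtain ⟨z, hz, hmin⟩ := Finset.exists_min_image (insert a Z) (fun z => |t - z|)
      (Finset.insert_nonempty a Z)
    have hdL : |t - z| ≤ L := by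
      refine (hmin a (Finset.mem_insert_self a Z)).trans ?_
      rw [abs_le]
      constructor <;> linarith [ht.1, ht.2]
    have key : ∃ j ≤ J, |t - z| < M * (L / 2 ^ j) ∧
        ((C + 1) * (L / 2 ^ j) ≤ |t - z| ∨ j = J) := by
      by_cases hA : (C + 1) * (L / 2 ^ J) ≤ |t - z|
      · have hex : ∃ j : ℕ, (C + 1) * (L / 2 ^ j) ≤ |t - z| := ⟨J, hA⟩
        have h0 := Nat.find_spec hex
        refine ⟨Nat.find hex, Nat.find_min' hex hA, ?_, Or.inl h0⟩
        rcases hj : Nat.find hex with _ | j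
        · rw [hj, pow_zero, div_one] at h0
          nlinarith
        · have h1 := Nat.find_min hex (m := j) (by omega)
          rw [not_le] at h1
          have h2 : L / 2 ^ j = 2 * (L / 2 ^ (j + 1)) := by
            rw [pow_succ]
            field_simp
          rw [h2] at h1
          have := hpos (j + 1)
          nlinarith
      · rw [not_le] at hA
        refine ⟨J, le_rfl, ?_, Or.inr rfl⟩
        have := hpos J
        nlinarith
    obtain ⟨j, hj, h1, h2⟩ := key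
    have h3 := floor_mem_fit1 (hpos j) h1
    obtain ⟨h4, h5⟩ := floor_fit1 (z := z) (t := t) (hpos j)
    obtain ⟨h6, h7, h8⟩ := clamp_fit1 (hle j) ht h4 h5
    refine ⟨g (z, j, ⌊(t - z) / (L / 2 ^ j)⌋), Finset.mem_filter.2 ⟨Finset.mem_image_of_mem _ ?_,
      hpos j, h6, h7, ?_⟩, h8⟩
    · simp only [P, Finset.mem_product, Finset.mem_range]
      exact ⟨hz, by omega, h3⟩
    · rcases h2 with h2 | h2
      · refine Or.inl fun z' hz' t' ht' => ?_
        have h9 := hmin z' (Finset.mem_insert_of_mem hz')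
        have h10 : |t - t'| ≤ L / 2 ^ j := by
          rw [abs_le]
          constructor <;> linarith [ht'.1, ht'.2, h8.1, h8.2]
        have h11 := abs_sub_le t t' z'
        change C * (L / 2 ^ j) ≤ |t' - z'|
        linarith
      · refine Or.inr ?_
        change L / 2 ^ j * 2 ^ J ≤ L
        rw [h2, div_mul_cancel₀ _ (by positivity)]

theorem yfit_of {G : X → X} {r x J js : ℕ} {C Kf ε : ℝ} (hG : A.Sm G) (hr : 2 ≤ r) (hC : 1 ≤ C)
    (hK : 1 ≤ Kf) (hε : 0 < ε) (hu : A.Up Kf G) (hl : A.Low Kf G) (hJ : C * Kf ^ 2 ≤ 2 ^ J)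
    (hjs : J ≤ js) (hY : ∀ (c : ℝ → X) (a L : ℝ), 0 < L → A.Good r ε c a L →
      ∃ Z : Finset ℝ, (Z.card : ℝ) ≤ C * 2 ^ x ∧ ∀ s h : ℝ, 0 < h → a ≤ s → s + h ≤ a + L →
        ((∀ z ∈ Z, ∀ t ∈ Icc s (s + h), C * h ≤ |t - z|) ∨ h * (C * Kf ^ 2) ≤ L) →
        A.Bdd r (G ∘ c) s h) :
    YFit A G r ε (Real.log (A.K * Kf) + 1) (8 * ((C * 2 ^ x + 1) * (J + 1) * (4 * C + 11)))
      (4 * C ^ 2 * 2 ^ x) js := by
  classical
  have hA := A.one_le_K
  have hKK : 1 ≤ A.K * Kf := one_le_mul_of_one_le_of_one_le hA hK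
  have hexp : A.K * Kf ≤ Real.exp (Real.log (A.K * Kf) + 1) := by
    rw [Real.exp_add, Real.exp_log (by linarith)]
    exact le_mul_of_one_le_right (by linarith) (Real.one_le_exp zero_le_one)
  have hKf : Kf ≤ A.K * Kf := le_mul_of_one_le_left (by linarith) hA
  refine ⟨hG, hr, hε, ?_, ?_, ?_, ?_, ?_, ?_⟩
  · have := Real.log_nonneg hKK
    linarith
  · intro c t v hc
    exact (deriv_comp_le hG hu hc).trans
      (mul_le_mul_of_nonneg_right (hKf.trans hexp) (norm_nonneg _))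
  · intro c t v hc
    exact (le_deriv_comp hG hl hc).trans (mul_le_mul_of_nonneg_right hexp (norm_nonneg _))
  · intro c a L y hL hc
    obtain ⟨Z, hZ, hZb⟩ := hY c a L hL hc
    obtain ⟨S, hS, hS1, hS2⟩ := whitney_fit1 (a := a) J hL hC Z
    have h8 : ∀ p : ℝ × ℝ, ∃ T : Finset (ℝ × ℝ), T.card ≤ 8 ∧ (p ∈ S →
        (∀ q ∈ T, 0 < q.2 ∧ p.1 ≤ q.1 ∧ q.1 + q.2 ≤ p.1 + p.2 ∧ A.Good r ε (G ∘ c) q.1 q.2) ∧
        ∀ t ∈ Icc p.1 (p.1 + p.2), dist (G (c t)) y < ε → ∃ q ∈ T, t ∈ Icc q.1 (q.1 + q.2)) := by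
      intro p
      by_cases hp : p ∈ S
      · obtain ⟨h1, h2, h3, h4⟩ := hS1 p hp
        have hb : A.Bdd r (G ∘ c) p.1 p.2 := by
          refine hZb p.1 p.2 h1 h2 h3 (h4.imp id fun h5 => le_trans ?_ h5)
          exact mul_le_mul_of_nonneg_left hJ h1.le
        obtain ⟨T, hT1, hT2, hT3⟩ := eight_fit1 hr hε h1 ((hc.1.comp hG).mono h2 h3) hb y
        exact ⟨T, hT1, fun _ => ⟨hT2, hT3⟩⟩
      · exact ⟨∅, by simp, fun h => absurd h hp⟩
    choose T hT1 hT2 using h8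
    refine ⟨S.biUnion T, ?_, ?_, ?_⟩
    · have h1 : (S.biUnion T).card ≤ S.card * 8 :=
        Finset.card_biUnion_le_card_mul S T 8 fun p _ => hT1 p
      have h2 : ((S.biUnion T).card : ℝ) ≤ S.card * 8 := by exact_mod_cast h1
      have h3 : ((Z.card : ℝ) + 1) * (J + 1) * (4 * C + 11) ≤
          (C * 2 ^ x + 1) * (J + 1) * (4 * C + 11) := by gcongr
      linarith
    · intro q hq
      obtain ⟨p, hp, hq⟩ := Finset.mem_biUnion.1 hq
      obtain ⟨h1, h2, h3, h4⟩ := (hT2 p hp).1 q hq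
      obtain ⟨-, h5, h6, -⟩ := hS1 p hp
      exact ⟨h1, h5.trans h2, h3.trans h6, h4⟩
    · intro t ht hd
      obtain ⟨p, hp, htp⟩ := hS2 t ht
      obtain ⟨q, hq, htq⟩ := (hT2 p hp).2 t htp hd
      exact ⟨q, Finset.mem_biUnion.2 ⟨p, hp, hq⟩, htq⟩
  · intro c m t0 j hc
    obtain ⟨Z, hZ, hZb⟩ := hY c _ _ (dl_pos m) hc
    have hd := dl_pos (m + j)
    have hsub : {t | dy m t = dy m t0 ∧ ¬ A.Bdd r (G ∘ c) (dy (m + j) t) (dl (m + j))} ⊆
        ⋃ z ∈ Z, closedBall z ((C + 1) * dl (m + j)) := by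
      rintro t ⟨h1, h2⟩
      obtain ⟨h3, h4⟩ := dy_mono m j t
      rw [h1] at h3 h4
      by_contra hn
      refine h2 (hZb _ _ hd h3 h4 (Or.inl fun z hz t' ht' => ?_))
      have h5 : (C + 1) * dl (m + j) < |t - z| := by
        by_contra h6
        rw [not_lt] at h6
        exact hn (mem_iUnion₂.2 ⟨z, hz, by rwa [mem_closedBall, Real.dist_eq]⟩)
      have h7 : |t - t'| ≤ dl (m + j) := by
        rw [abs_le]
        constructor <;> linarith [ht'.1, ht'.2, dy_le (m + j) t, lt_dy_add (m + j) t]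
      have h8 := abs_sub_le t t' z
      linarith
    refine (measure_mono hsub).trans ((measure_biUnion_finset_le _ _).trans ?_)
    simp only [Real.volume_closedBall, Finset.sum_const, nsmul_eq_mul]
    rw [← ENNReal.ofReal_natCast, ← ENNReal.ofReal_mul (Nat.cast_nonneg _)]
    refine ENNReal.ofReal_le_ofReal ?_
    calc (Z.card : ℝ) * (2 * ((C + 1) * dl (m + j))) ≤ (C * 2 ^ x) * (2 * ((C + C) * dl (m + j))) := by
          gcongr
      _ = 4 * C ^ 2 * 2 ^ x * dl (m + j) := by ring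
  · intro c a L s h hh hc h1 h2 h3
    have hL : 0 < L := lt_of_lt_of_le (by positivity) h3
    have h4 : h * (C * Kf ^ 2) ≤ L := by
      refine le_trans (mul_le_mul_of_nonneg_left (hJ.trans ?_) hh.le) h3
      exact pow_le_pow_right₀ (by norm_num) hjs
    obtain ⟨Z, -, hZb⟩ := hY c a L hL hc
    refine ⟨(hc.1.comp hG).mono h1 h2, hZb s h hh h1 h2 (Or.inr h4), fun t ht => ?_⟩
    have ht' : t ∈ Icc a (a + L) := ⟨h1.trans ht.1, ht.2.trans h2⟩
    have h5 := deriv_comp_le hG hu (hc.1.hasDerivAt (by omega) ht')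
    have h6 := hc.2.2 t ht'
    have h7 : Kf * h ≤ L := by
      refine le_trans ?_ h4
      rw [mul_comm h]
      refine mul_le_mul_of_nonneg_right ?_ hh.le
      nlinarith
    calc ‖deriv (A.e ∘ G ∘ c) t‖ * h ≤ Kf * ‖deriv (A.e ∘ c) t‖ * h :=
          mul_le_mul_of_nonneg_right h5 hh.le
      _ = ‖deriv (A.e ∘ c) t‖ * (Kf * h) := by ring
      _ ≤ ‖deriv (A.e ∘ c) t‖ * L := mul_le_mul_of_nonneg_left h7 (norm_nonneg _)
      _ ≤ ε := h6

end Pool.Agent.Lib.MP_e7c912_an
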