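import Pool.Agent.Lib.MP_e7c912_an.H60Yom
import Pool.Agent.Lib.MP_e7c912_an.H60Fit1

/-! Choice of the parameters of the reparametrisation. -/

namespace Pool.Agent.Lib.MP_e7c912_an

open MeasureTheory Filter Metric Set Topology

theorem n1_fit {C y : ℝ} {r x : ℕ} (hC : 1 ≤ C) (hx : (2 : ℝ) ^ x ≤ 2 * C * Real.exp y)
    (hy : 2 * (8 * (2 * C ^ 2 + 1) * (4 * C + 11)) * (4 * r * C + 2 * r + 1) + 1 ≤ y) :
    8 * ((C * 2 ^ x + 1) * ((x * (r - 1) : ℕ) + 1) * (4 * C + 11)) ≤ Real.exp (y + y) := by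
  obtain ⟨D, hD⟩ : ∃ D : ℝ, D = 8 * (2 * C ^ 2 + 1) * (4 * C + 11) := ⟨_, rfl⟩
  have hD0 : 0 ≤ D := by rw [hD]; positivity
  have hr0 : (0 : ℝ) ≤ r := Nat.cast_nonneg r
  have hE : 0 ≤ D * (4 * r * C + 2 * r + 1) := by positivity
  rw [← hD] at hy
  have hy1 : 1 ≤ y := by linarith
  have he : 1 ≤ Real.exp y := Real.one_le_exp (by linarith)
  have h1 : (x : ℝ) ≤ 2 * (2 * C + y) := by
    have e1 := Real.log_le_log (by positivity) hx
    rw [Real.log_pow, Real.log_mul (by positivity) (by positivity), Real.log_exp] at e1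
    have e2 := Real.log_le_self (show 0 ≤ 2 * C by positivity)
    have e3 := Real.log_two_gt_d9
    have e4 : (0 : ℝ) ≤ x := Nat.cast_nonneg x
    nlinarith
  have h2 : ((x * (r - 1) : ℕ) : ℝ) ≤ 2 * (2 * C + y) * r := by
    refine (Nat.cast_le.2 (Nat.mul_le_mul_left x (Nat.sub_le r 1))).trans ?_
    push_cast
    gcongr
  have h3 : C * 2 ^ x + 1 ≤ (2 * C ^ 2 + 1) * Real.exp y := by nlinarith
  have h4 : D * (2 * (2 * C + y) * r + 1) ≤ Real.exp y := by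
    refine le_trans ?_ (Real.quadratic_le_exp_of_nonneg (by linarith))
    have e1 : 2 * (2 * C + y) * r + 1 ≤ y * (4 * r * C + 2 * r + 1) := by
      have : 0 ≤ (y - 1) * (4 * r * C + 1) := mul_nonneg (by linarith) (by positivity)
      nlinarith
    have e2 := mul_le_mul_of_nonneg_left e1 hD0
    have e3 := mul_le_mul_of_nonneg_left hy (show 0 ≤ y by linarith)
    nlinarith
  calc _ ≤ 8 * ((2 * C ^ 2 + 1) * Real.exp y * (2 * (2 * C + y) * r + 1) * (4 * C + 11)) := by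
        gcongr
    _ = D * (2 * (2 * C + y) * r + 1) * Real.exp y := by rw [hD]; ring
    _ ≤ _ := by rw [Real.exp_add]; gcongr

theorem num_fit {C α : ℝ} (r : ℕ) (hC : 1 ≤ C) (hα : 0 < α) : ∃ p x x0 : ℕ,
    C * Real.exp (α * p / 2) ≤ 2 ^ x ∧ ∀ ε Λ : ℝ, Num ⟨p, ε, Λ, α⟩ x0 (max (x * (r - 1)) x0)
      (8 * ((C * 2 ^ x + 1) * ((x * (r - 1) : ℕ) + 1) * (4 * C + 11))) (4 * C ^ 2 * 2 ^ x) := by
  obtain ⟨E, hE⟩ : ∃ E : ℝ,
    E = 2 * (8 * (2 * C ^ 2 + 1) * (4 * C + 11)) * (4 * r * C + 2 * r + 1) + 1 := ⟨_, rfl⟩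
  have hE0 : 0 ≤ E := by rw [hE]; positivity
  have hC3 : 0 ≤ 8 * C ^ 3 := by positivity
  obtain ⟨p, hp⟩ := exists_nat_ge (2 * (E + 8 * C ^ 3 + 3) / α)
  rw [div_le_iff₀ hα] at hp
  obtain ⟨y, hy⟩ : ∃ y : ℝ, y = α * p / 2 := ⟨_, rfl⟩
  have hy' : α * p = y + y := by rw [hy]; ring
  have hy1 : E + 8 * C ^ 3 + 3 ≤ y := by linarith
  have he : 1 ≤ Real.exp y := Real.one_le_exp (by linarith)
  obtain ⟨n, h1, h2⟩ := exists_nat_pow_near (one_le_mul_of_one_le_of_one_le hC he) one_lt_two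
  have h3 : (2 : ℝ) ^ (n + 1) ≤ 2 * C * Real.exp y := by rw [pow_succ]; linarith
  have hl := Real.log_two_gt_d9
  have hl' := Real.log_two_lt_d9
  have hl0 : 0 < Real.log 2 := by linarith
  refine ⟨p, n + 1, ⌈2 * (α * p) / Real.log 2⌉₊, hy ▸ h2.le, fun ε Λ =>
    ⟨?_, hα, ?_, ?_, ?_, ?_, ?_, le_max_right _ _⟩⟩
  · refine Nat.pos_of_ne_zero fun h => ?_
    simp only at h
    rw [h, Nat.cast_zero, zero_mul] at hp
    linarith
  · simp only [hy']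
    exact n1_fit hC h3 (by linarith)
  · have : (1 : ℝ) ≤ 2 ^ (n + 1) := one_le_pow₀ one_le_two
    nlinarith [one_le_pow₀ (n := 2) hC]
  · simp only [hy']
    have e1 : 4 * C ^ 2 * 2 ^ (n + 1) ≤ 8 * C ^ 3 * Real.exp y :=
      (mul_le_mul_of_nonneg_left h3 (by positivity)).trans_eq (by ring)
    have e2 := Real.log_le_log (by positivity) e1
    rw [Real.log_mul (x := 8 * C ^ 3) (by positivity) (by positivity), Real.log_exp] at e2
    linarith [Real.log_le_self hC3]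
  · exact (div_le_iff₀ hl0).1 (Nat.le_ceil _)
  · have e1 := (Nat.ceil_lt_add_one (show 0 ≤ 2 * (α * p) / Real.log 2 by positivity)).le
    have e2 := mul_le_mul_of_nonneg_right e1 hl0.le
    rw [add_mul, div_mul_cancel₀ _ hl0.ne'] at e2
    simp only
    linarith

variable {X : Type} [MetricSpace X] [MeasurableSpace X]

theorem exists_fit (A : Atlas X) {K1 α : ℝ} (hK : 1 ≤ K1) (hα : 0 < α) : ∃ r : ℕ, ∀ Kr : ℝ,
    ∃ q : Prm, q.α = α ∧ ∀ g : X → X, A.Sm g → A.Reg r Kr g → A.Up K1 g → A.Low K1 g →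
      Fit A q g := by
  have hA := A.one_le_K
  have hKK : 1 ≤ A.K * K1 := one_le_mul_of_one_le_of_one_le hA hK
  obtain ⟨m, hm⟩ := exists_nat_ge (4 * Real.log (A.K * K1) / α)
  rw [div_le_iff₀ hα] at hm
  refine ⟨m + 2, fun Kr => ?_⟩
  obtain ⟨C, hC, hY⟩ := lemmaY A (r := m + 2) (by omega)
  obtain ⟨p, x, x0, hx, hN⟩ := num_fit (m + 2) hC hα
  obtain ⟨K', hK'⟩ := A.reg_iter (m + 2) Kr p
  have hKf : 1 ≤ (A.K * K1) ^ p := one_le_pow₀ hKK
  have hρ := A.ρ_pos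
  have hε0 : 0 < min (A.ρ / 2) (1 / (|K'| + 1)) := by positivity
  have hε1 : min (A.ρ / 2) (1 / (|K'| + 1)) ≤ A.ρ / 2 := min_le_left _ _
  have hε2 : min (A.ρ / 2) (1 / (|K'| + 1)) * K' ≤ (A.K * K1) ^ p := by
    have e1 := (le_div_iff₀ (by positivity)).1 (min_le_right (A.ρ / 2) (1 / (|K'| + 1)))
    nlinarith [le_abs_self K']
  have hJ : C * ((A.K * K1) ^ p) ^ 2 ≤ 2 ^ (x * (m + 2 - 1)) := by
    have e1 : ((A.K * K1) ^ p) ^ 2 ≤ Real.exp (α * p / 2) ^ (m + 1) := by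
      rw [← Real.exp_log (show 0 < A.K * K1 by linarith), ← Real.exp_nat_mul, ← Real.exp_nat_mul,
        ← Real.exp_nat_mul, Real.exp_le_exp]
      have := mul_le_mul_of_nonneg_left hm (Nat.cast_nonneg (α := ℝ) p)
      have : 0 ≤ α * p := by positivity
      push_cast
      nlinarith
    calc _ ≤ C ^ (m + 1) * Real.exp (α * p / 2) ^ (m + 1) :=
          mul_le_mul (le_self_pow₀ hC (by omega)) e1 (by positivity) (by positivity)
      _ ≤ (2 ^ x) ^ (m + 1) := by rw [← mul_pow]; gcongr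
      _ = _ := by rw [← pow_mul]; rfl
  refine ⟨⟨p, min (A.ρ / 2) (1 / (|K'| + 1)), Real.log (A.K * (A.K * K1) ^ p) + 1, α⟩, rfl,
    fun g hg hR hU hL => ⟨m + 2, x0, _, _, _, hN _ _, ?_⟩⟩
  have hp : 1 ≤ p := (hN 0 0).p_pos
  have hU' : A.Up ((A.K * K1) ^ p) g^[p] := fun i w hw => (hU.iter hg hK p i w hw).trans (by
    rw [mul_pow]
    exact mul_le_mul_of_nonneg_right (le_self_pow₀ hA (by omega)) (by positivity))
  have hL' := hL.iter hg hK p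
  exact yfit_of (hg.iter p) (by omega) hC hKf hε0 hU' hL' hJ (le_max_left _ _)
    (hY _ _ K' _ x (hg.iter p) (hK' g hg.1 hR) hU' hL' hKf hε0 (by linarith [A.ρ_le])
      (by linarith) hε2 hJ)

/-- Parameters adapted to all the maps of a convergent sequence, from some rank on. -/
theorem exists_fit_seq {A : Atlas X} {Fs : ℕ → Dif A} {F : Dif A}
    (h : A.Conv (fun n => (Fs n).f) F.f) {α : ℝ} (hα : 0 < α) :
    ∃ q : Prm, q.α = α ∧ 1 ≤ q.p ∧ 0 < q.ε ∧ 0 < q.Λ ∧ ∀ᶠ n in atTop, Fit A q (Fs n).f := by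
  obtain ⟨K, hK, hU, hL⟩ := F.up_low
  obtain ⟨r, hr⟩ := exists_fit A (K1 := 2 * K) (by linarith) hα
  obtain ⟨Kr, hR⟩ := h.reg (fun n => (Fs n).smf) F.smf r
  obtain ⟨q, h1, h2⟩ := hr Kr
  have h3 : ∀ᶠ n in atTop, Fit A q (Fs n).f := by
    filter_upwards [hR, h.conv1.up_low hK hU hL] with n e1 e2
    exact h2 _ (Fs n).smf e1 e2.1 e2.2
  obtain ⟨n, _, _, _, _, _, h4, h5⟩ := h3.exists
  exact ⟨q, h1, h4.p_pos, h5.ε_pos, h5.Λ_pos, h3⟩

end Pool.Agent.Lib.MP_e7c912_an
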