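import Pool.Agent.Lib.MP_e7c912_an.H60Erg

/-! Generic points, level sets of time averages, recurrence. -/

set_option linter.unusedSectionVars false

namespace Pool.Agent.Lib.MP_e7c912_an

open MeasureTheory Filter Metric Set Topology
open scoped ENNReal NNReal

variable {X : Type} [MetricSpace X] [CompactSpace X] [MeasurableSpace X] [BorelSpace X]
  {T S : X → X} {μ ν : Measure X}

/-- A dense sequence of continuous functions. -/
noncomputable def dns (X : Type) [MetricSpace X] [CompactSpace X] : ℕ → C(X, ℝ) :=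
  TopologicalSpace.denseSeq C(X, ℝ)

/-- The upper time averages of the dense sequence. -/
noncomputable def Lv (T : X → X) (x : X) : ℕ → ℝ := fun j => avg T (dns X j) x

section aux

omit [MetricSpace X] [CompactSpace X] [MeasurableSpace X] [BorelSpace X] in
theorem abs_bavg_le_gen1 {φ : X → ℝ} {C : ℝ} (hb : ∀ x, |φ x| ≤ C) (n : ℕ) (x : X) :
    |birkhoffAverage ℝ T φ n x| ≤ C := by
  rcases Nat.eq_zero_or_pos n with rfl | hn
  · simpa using (abs_nonneg _).trans (hb x)
  have h0 : (0 : ℝ) < n := by exact_mod_cast hn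
  have h1 : |birkhoffSum T φ n x| ≤ n * C :=
    (Finset.abs_sum_le_sum_abs _ _).trans ((Finset.sum_le_sum fun i _ => hb _).trans (by simp))
  rw [birkhoffAverage, smul_eq_mul, abs_mul, abs_inv, abs_of_pos h0, inv_mul_le_iff₀ h0]
  exact h1

theorem limsup_le_gen1 {u v : ℕ → ℝ} {C : ℝ} (hu : ∀ n, |u n| ≤ C) (hv : ∀ n, |v n| ≤ C)
    (h : Tendsto (fun n => u n - v n) atTop (𝓝 0)) : limsup u atTop ≤ limsup v atTop := by
  refine le_of_forall_pos_le_add fun ε hε => ?_
  refine limsup_le_of_le (isCoboundedUnder_le_of_le atTop fun n => (abs_le.1 (hu n)).1) ?_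
  have h1 := eventually_lt_of_limsup_lt (lt_add_of_pos_right (limsup v atTop) (half_pos hε))
    (isBoundedUnder_of ⟨C, fun n => (abs_le.1 (hv n)).2⟩)
  filter_upwards [h1, h.eventually (gt_mem_nhds (half_pos hε))] with n h2 h3
  linarith

omit [MeasurableSpace X] [BorelSpace X] in
theorem bd_gen1 (φ : C(X, ℝ)) (x : X) : |φ x| ≤ ‖φ‖ := φ.norm_coe_le_norm x

omit [MeasurableSpace X] [BorelSpace X] in
theorem dense_gen1 : DenseRange (dns X) := TopologicalSpace.denseRange_denseSeq _

omit [MeasurableSpace X] [BorelSpace X] in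
theorem lip_gen1 (n : ℕ) (x : X) :
    LipschitzWith 1 fun φ : C(X, ℝ) => birkhoffAverage ℝ T φ n x := by
  refine LipschitzWith.of_dist_le_mul fun φ ψ => ?_
  have := abs_bavg_le_gen1 (T := T) (bd_gen1 (φ - ψ)) n x
  rw [ContinuousMap.coe_sub, birkhoffAverage_sub] at this
  rw [NNReal.coe_one, one_mul, dist_eq_norm φ, Real.dist_eq]
  exact this

theorem int_gen1 (μ : Measure X) [IsFiniteMeasure μ] (φ : C(X, ℝ)) : Integrable φ μ :=
  φ.continuous.integrable_of_hasCompactSupport (HasCompactSupport.of_compactSpace _)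

theorem cont_int_gen1 (μ : Measure X) [IsFiniteMeasure μ] :
    Continuous fun φ : C(X, ℝ) => ∫ x, φ x ∂μ := by
  refine (LipschitzWith.of_dist_le_mul (K := (μ univ).toNNReal) fun φ ψ => ?_).continuous
  rw [dist_eq_norm, ← integral_sub (int_gen1 μ φ) (int_gen1 μ ψ), mul_comm, dist_eq_norm]
  exact norm_integral_le_of_norm_le_const (Eventually.of_forall fun x => bd_gen1 (φ - ψ) x)

theorem ext_gen1 [IsFiniteMeasure μ] [IsFiniteMeasure ν]
    (h : ∀ j, ∫ x, dns X j x ∂μ = ∫ x, dns X j x ∂ν) : μ = ν := by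
  have h1 := dense_gen1.equalizer (cont_int_gen1 μ) (cont_int_gen1 ν) (funext h)
  exact ext_of_forall_integral_eq_of_IsFiniteMeasure fun f => congrFun h1 f.toContinuousMap

theorem gen_iff_gen1 [IsFiniteMeasure μ] (x : X) : Gen T μ x ↔ ∀ j,
    Tendsto (fun n : ℕ => birkhoffAverage ℝ T (dns X j) n x) atTop (𝓝 (∫ y, dns X j y ∂μ)) := by
  refine ⟨fun h j => h _, fun h φ => ?_⟩
  exact dense_gen1.induction_on φ
    ((LipschitzWith.uniformEquicontinuous _ 1
      fun n => lip_gen1 n x).equicontinuous.isClosed_setOfPred_tendsto (cont_int_gen1 μ)) h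

omit [MeasurableSpace X] [BorelSpace X] in
theorem diff_gen1 (φ : C(X, ℝ)) {x y : X}
    (hd : Tendsto (fun n : ℕ => dist (T^[n] x) (T^[n] y)) atTop (𝓝 0)) :
    Tendsto (fun n : ℕ => birkhoffAverage ℝ T φ n x - birkhoffAverage ℝ T φ n y) atTop (𝓝 0) := by
  have h1 : Tendsto (fun n : ℕ => (T^[n] x, T^[n] y)) atTop (uniformity X) :=
    tendsto_uniformity_iff_dist_tendsto_zero.2 hd
  have h2 := tendsto_uniformity_iff_dist_tendsto_zero.1
    (Tendsto.comp (CompactSpace.uniformContinuous_of_continuous φ.continuous) h1)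
  have h3 : Tendsto (fun n : ℕ => φ (T^[n] x) - φ (T^[n] y)) atTop (𝓝 0) :=
    tendsto_zero_iff_norm_tendsto_zero.2 h2
  refine h3.cesaro.congr fun n => ?_
  simp only [birkhoffAverage, birkhoffSum, Finset.sum_sub_distrib, smul_eq_mul, mul_sub]

end aux

theorem ae_gen [IsProbabilityMeasure μ] (h : Ergodic T μ) : ∀ᵐ x ∂μ, Gen T μ x := by
  simp only [gen_iff_gen1, ae_all_iff]
  intro j
  have hm := (dns X j).continuous.measurable
  obtain ⟨c, hc⟩ := h.toPreErgodic.ae_eq_const_of_ae_eq_comp (measurable_avg h.measurable hm)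
    (funext (avg_comp (bd_gen1 (dns X j))))
  have h1 := setIntegral_avg h.toMeasurePreserving hm (bd_gen1 _) MeasurableSet.univ preimage_univ
  rw [Measure.restrict_univ, integral_congr_ae hc] at h1
  have h2 : c = ∫ x, dns X j x ∂μ := by simpa using h1
  filter_upwards [ae_tendsto_avg h.toMeasurePreserving hm (bd_gen1 _), hc] with x h3 h4
  rwa [h4, Function.const_apply, h2] at h3

theorem measurableSet_gen [IsFiniteMeasure μ] (hT : Measurable T) :
    MeasurableSet {x | Gen T μ x} := by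
  simp only [gen_iff_gen1, ofPred_forall]
  refine MeasurableSet.iInter fun j => measurableSet_tendsto _ fun n => ?_
  exact (Finset.measurable_sum _ fun k _ =>
    (dns X j).continuous.measurable.comp (hT.iterate k)).const_smul (n : ℝ)⁻¹

theorem Gen.congr {x y : X} (h : Gen T μ x)
    (hd : Tendsto (fun n : ℕ => dist (T^[n] x) (T^[n] y)) atTop (𝓝 0)) : Gen T μ y := fun φ => by
  simpa using (h φ).sub (diff_gen1 φ hd)

theorem gen_iterate (k : ℕ) (x : X) : Gen T μ (T^[k] x) ↔ Gen T μ x := by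
  induction k with
  | zero => rfl
  | succ k ih =>
    rw [Function.iterate_succ_apply', ← ih]
    have h := fun φ : C(X, ℝ) => tendsto_birkhoffAverage_apply_sub_birkhoffAverage' ℝ
      (isCompact_range φ.continuous).isBounded T (T^[k] x)
    exact ⟨fun h1 φ => by simpa using (h1 φ).sub (h φ), fun h1 φ => by simpa using (h1 φ).add (h φ)⟩

theorem Gen.unique [IsProbabilityMeasure μ] [IsProbabilityMeasure ν] {x : X} (h : Gen T μ x)
    (h' : Gen T ν x) : μ = ν :=
  ext_gen1 fun _ => tendsto_nhds_unique (h _) (h' _)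

/-- A generic point that is asymptotically periodic forces the measure on periodic points. -/
theorem Gen.ae_fix [IsProbabilityMeasure μ] {z : X} (h : Gen T μ z) (hT : Continuous T) {N : ℕ}
    (hd : Tendsto (fun k : ℕ => dist (T^[k] z) (T^[k + N] z)) atTop (𝓝 0)) :
    ∀ᵐ x ∂μ, T^[N] x = x := by
  let φ : C(X, ℝ) := ⟨fun x => dist x (T^[N] x), continuous_id.dist (hT.iterate N)⟩
  have h1 : Tendsto (fun n : ℕ => birkhoffAverage ℝ T φ n z) atTop (𝓝 0) := by
    refine hd.cesaro.congr fun n => ?_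
    simp only [birkhoffAverage, birkhoffSum, smul_eq_mul, φ, ContinuousMap.coe_mk,
      ← Function.iterate_add_apply, add_comm N]
  have h2 := (integral_eq_zero_iff_of_nonneg (fun x => dist_nonneg) (int_gen1 μ φ)).1
    (tendsto_nhds_unique (h φ) h1)
  filter_upwards [h2] with x hx
  exact (dist_eq_zero.1 hx).symm

theorem measurable_Lv (hT : Measurable T) : Measurable (Lv T) :=
  measurable_pi_lambda _ fun j => measurable_avg hT (dns X j).continuous.measurable

theorem Lv_comp (x : X) : Lv T (T x) = Lv T x :=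
  funext fun j => avg_comp (bd_gen1 (dns X j)) x

theorem Lv_congr {x y : X} (hd : Tendsto (fun n : ℕ => dist (T^[n] x) (T^[n] y)) atTop (𝓝 0)) :
    Lv T x = Lv T y := by
  funext j
  have hb := abs_bavg_le_gen1 (T := T) (bd_gen1 (dns X j))
  exact le_antisymm (limsup_le_gen1 (hb · x) (hb · y) (diff_gen1 _ hd))
    (limsup_le_gen1 (hb · y) (hb · x) (diff_gen1 _ (by simpa only [dist_comm] using hd)))

theorem Lv_ae_symm [IsFiniteMeasure μ] (hT : MeasurePreserving T μ μ) (hS : Measurable S)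
    (ST : ∀ x, S (T x) = x) (TS : ∀ x, T (S x) = x) : ∀ᵐ x ∂μ, Lv T x = Lv S x := by
  simp only [funext_iff, ae_all_iff]
  exact fun j => avg_ae_eq_symm hT hS ST TS (dns X j).continuous.measurable (bd_gen1 _)

/-- An invariant set of positive measure on which the averages are constant is ergodic. -/
theorem ergodic_level [IsFiniteMeasure μ] (hT : MeasurePreserving T μ μ) {Z : Set X}
    (hZ : MeasurableSet Z) (hi : T ⁻¹' Z = Z) (h0 : μ Z ≠ 0) {l : ℕ → ℝ}
    (hl : ∀ x ∈ Z, Lv T x = l) : Ergodic T ((μ Z)⁻¹ • μ.restrict Z) := by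
  refine Ergodic.smul_measure ⟨measurePreserving_restrict hT hZ hi, ⟨fun B hB hBi => ?_⟩⟩ _
  have key : ∀ W, MeasurableSet W → T ⁻¹' W = W → W ⊆ Z → ∀ j,
      ∫ x in W, dns X j x ∂μ = (μ W).toReal * l j := by
    intro W hW hWi hWZ j
    rw [← setIntegral_avg hT (dns X j).continuous.measurable (bd_gen1 _) hW hWi,
      setIntegral_congr_fun hW (f := avg T (dns X j)) (g := fun _ => l j)
        fun x hx => congrFun (hl x (hWZ hx)) j,
      setIntegral_const]
    rfl
  have : IsFiniteMeasure (μ Z • μ.restrict (B ∩ Z)) := Measure.smul_finite _ (measure_ne_top _ _)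
  have : IsFiniteMeasure (μ (B ∩ Z) • μ.restrict Z) := Measure.smul_finite _ (measure_ne_top _ _)
  have h1 : μ Z • μ.restrict (B ∩ Z) = μ (B ∩ Z) • μ.restrict Z := ext_gen1 fun j => by
    rw [integral_smul_measure, integral_smul_measure, key Z hZ hi Subset.rfl,
      key _ (hB.inter hZ) (by rw [preimage_inter, hBi, hi]) inter_subset_right, smul_eq_mul,
      smul_eq_mul, mul_left_comm]
  have h2 := congrArg (fun m : Measure X => m Bᶜ) h1
  simp only [Measure.smul_apply, smul_eq_mul] at h2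
  rw [Measure.restrict_apply hB.compl, ← inter_assoc, compl_inter_self, empty_inter,
    measure_empty, mul_zero] at h2
  rw [eventuallyConst_set]
  rcases mul_eq_zero.1 h2.symm with h3 | h3
  · refine Or.inr (measure_eq_zero_iff_ae_notMem.1 ?_)
    rwa [Measure.restrict_apply hB]
  · exact Or.inl h3

theorem ae_rec [IsFiniteMeasure μ] (hT : MeasurePreserving T μ μ) {Λ : Set X}
    (hΛ : MeasurableSet Λ) : ∀ᵐ x ∂μ, x ∈ Λ → Rec T Λ x := by
  have h1 : ∀ s ∈ TopologicalSpace.countableBasis X,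
      ∀ᵐ x ∂μ, x ∈ Λ ∩ s → ∃ᶠ n in atTop, T^[n] x ∈ Λ ∩ s := fun s hs =>
    hT.conservative.ae_mem_imp_frequently_image_mem
      (hΛ.inter (TopologicalSpace.isOpen_of_mem_countableBasis hs).measurableSet).nullMeasurableSet
  filter_upwards [(ae_ball_iff (TopologicalSpace.countable_countableBasis X)).2 h1]
    with x hx hxΛ γ hγ
  obtain ⟨s, hs, hxs, hsb⟩ :=
    (TopologicalSpace.isBasis_countableBasis X).mem_nhds_iff.1 (ball_mem_nhds x hγ)
  obtain ⟨N, h2, h3⟩ := ((hx s hs ⟨hxΛ, hxs⟩).and_eventually (eventually_ge_atTop 1)).exists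
  exact ⟨N, h3, h2.1, hsb h2.2⟩

/-- An ergodic measure with an atom is carried by a periodic orbit. -/
theorem ae_fix_of_atom [IsProbabilityMeasure μ] (h : Ergodic T μ) {x : X} (h0 : μ {x} ≠ 0) :
    ∃ N : ℕ, 1 ≤ N ∧ ∀ᵐ y ∂μ, T^[N] y = y := by
  obtain ⟨y, rfl, N, hN, hx⟩ := h.toMeasurePreserving.conservative.exists_mem_iterate_mem
    (measurableSet_singleton x).nullMeasurableSet h0
  refine ⟨N, Nat.one_le_iff_ne_zero.2 hN, ?_⟩
  have h1 : MeasurableSet {z | T^[N] z = z} :=
    measurableSet_eq_fun (h.measurable.iterate N) measurable_id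
  have h2 : {z | T^[N] z = z} ⊆ T ⁻¹' {z | T^[N] z = z} := fun z hz => by
    change T^[N] (T z) = T z
    rw [← Function.iterate_succ_apply, Function.iterate_succ_apply', show T^[N] z = z from hz]
  rcases h.ae_empty_or_univ_of_ae_le_preimage h1.nullMeasurableSet h2.eventuallyLE with h3 | h3
  · exact absurd (measure_mono_null (singleton_subset_iff.2 (show y ∈ {z | T^[N] z = z} from hx))
      (ae_eq_empty.1 h3)) h0
  · exact eventuallyEq_univ.1 h3

end Pool.Agent.Lib.MP_e7c912_an
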