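import Pool.Agent.Lib.MP_e7c912_an.H60SLem
import Pool.Agent.Lib.MP_e7c912_an.H60Box
import Pool.Agent.Lib.MP_e7c912_an.H60Tr

/-! The Hopf argument. -/

namespace Pool.Agent.Lib.MP_e7c912_an

open MeasureTheory Filter Metric Set Topology
open scoped ENNReal

variable {X : Type} [MetricSpace X] [CompactSpace X] [MeasurableSpace X] [BorelSpace X]
  {A : Atlas X} {F : Dif A} {q : Prm} {κ : Measure (Cv A q.ε)} {m : Measure X}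

/-- A set seen by the curves is seen by their middle parts. -/
theorem exists_mid_hp2 {ε : ℝ} {κ : Measure (Cv A ε)} [SFinite κ] {B : Set X}
    (hB : MeasurableSet B) (h0 : eta κ B ≠ 0) :
    ∃ β : ℝ, 0 < β ∧ etaOn κ (Icc β (1 - β)) B ≠ 0 := by
  by_contra hc
  push Not at hc
  refine h0 ((etaOn_eq_zero_iff hB).2 ?_)
  have h1 : ∀ k : ℕ, ∀ᵐ w ∂κ,
      volume (w.pt ⁻¹' B ∩ Icc (1 / ((k : ℝ) + 1)) (1 - 1 / ((k : ℝ) + 1))) = 0 := fun k =>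
    (etaOn_eq_zero_iff hB).1 (hc _ (by positivity))
  filter_upwards [ae_all_iff.2 h1] with w hw
  have h2 : w.pt ⁻¹' B ∩ Icc 0 1 ⊆
      (⋃ k : ℕ, w.pt ⁻¹' B ∩ Icc (1 / ((k : ℝ) + 1)) (1 - 1 / ((k : ℝ) + 1))) ∪ {0, 1} := by
    rintro t ⟨ht, h3, h4⟩
    rcases h3.eq_or_lt with h5 | h5
    · exact Or.inr (Or.inl h5.symm)
    rcases h4.eq_or_lt with h6 | h6
    · exact Or.inr (Or.inr h6)
    obtain ⟨k, hk⟩ := exists_nat_one_div_lt (lt_min h5 (sub_pos.2 h6))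
    rw [lt_min_iff] at hk
    exact Or.inl (mem_iUnion.2 ⟨k, ht, hk.1.le, by linarith [hk.2]⟩)
  exact measure_mono_null h2
    (measure_union_null (measure_iUnion_null hw) ((Set.toFinite _).measure_zero _))

/-- The backward averages are constant along a contracted curve. -/
theorem UCur.lv_hp2 {S : X → X} {K c : ℝ} {σ : ℝ → X} (h : UCur S K c σ) (hc : 0 < c) {t : ℝ}
    (ht : t ∈ Icc (0 : ℝ) 1) : Lv S (σ t) = Lv S (σ 0) := by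
  refine Lv_congr (squeeze_zero (fun _ => dist_nonneg)
    (fun n => (h t ht 0 ⟨le_rfl, zero_le_one⟩).2 n) ?_)
  have h1 : Tendsto (fun n : ℕ => Real.exp (-c * n)) atTop (𝓝 0) :=
    Real.tendsto_exp_atBot.comp
      (tendsto_natCast_atTop_atTop.const_mul_atTop_of_neg (neg_lt_zero.2 hc))
  simpa using (h1.const_mul K).mul_const |t - 0|

/-- A level set of the time averages that carries a positive mass of curves. -/
theorem Gibbs.exists_level (h : Gibbs F q κ m) (hp : 1 ≤ q.p) (hε : 0 < q.ε) (hα : 0 < q.α)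
    (hy : ∀ᵐ x ∂m, 0 < l1 (A.coc F.f) x ∧ l2 (A.coc F.f) x < 0) {Z0 : Set X}
    (hZ0 : MeasurableSet Z0) (h0 : eta κ Z0 ≠ 0) :
    ∃ (l : ℕ → ℝ) (S : Set (Cv A q.ε)), MeasurableSet S ∧ κ S ≠ 0 ∧
      eta (κ.restrict S) {x | Lv F.f x = l}ᶜ = 0 ∧ eta κ ({x | Lv F.f x = l} ∩ Z0) ≠ 0 := by
  have := h.finκ
  have := h.finm
  have hα2 : 0 < 2 * q.α := by positivity
  have hf : Measurable F.f := F.smf.1.measurable
  have hg : Measurable F.g := F.smg.1.measurable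
  have hac : ∀ B : Set X, m B = 0 → eta κ B = 0 := fun B hB => by
    have := Measure.le_iff'.1 h.le B
    rwa [Measure.smul_apply, hB, smul_zero, nonpos_iff_eq_zero] at this
  obtain ⟨K', hK', hU⟩ := UAll.ucur F hp hε hα.le
  obtain ⟨Λ, hΛ, hΛ'⟩ := pesin F m h.mp hα2
  obtain ⟨G0, hG0⟩ : ∃ G0 : Set X, G0 = {x | Lv F.f x = Lv F.g x} := ⟨_, rfl⟩
  have hG0m : MeasurableSet G0 :=
    hG0 ▸ measurableSet_eq_fun (measurable_Lv hf) (measurable_Lv hg)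
  have hG0a : ∀ᵐ x ∂m, x ∈ G0 := hG0 ▸ Lv_ae_symm h.mp hg F.gf F.fg
  have hG0e : ∀ x ∈ G0, Lv F.f x = Lv F.g x := fun x hx => by rwa [hG0] at hx
  have hgood : ∀ᵐ w ∂κ, UCur F.g K' (2 * q.α) w.pt ∧ volume (w.pt ⁻¹' G0ᶜ ∩ Icc 0 1) = 0 := by
    filter_upwards [h.ae, (etaOn_eq_zero_iff hG0m.compl).1 (hac _ hG0a)] with w h1 h2
    exact ⟨hU w h1.1, h2⟩
  obtain ⟨l0, hl0⟩ : ∃ l0, eta κ (Λ l0 ∩ G0 ∩ Z0) ≠ 0 := by
    by_contra hc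
    push Not at hc
    have h1 : ∀ᵐ x ∂m, ∃ l, x ∈ Λ l ∩ G0 := by
      filter_upwards [hy, hΛ', hG0a] with x h1 h2 h3
      obtain ⟨l, hl⟩ := h2 h1.1 h1.2
      exact ⟨l, hl, h3⟩
    refine h0 (measure_mono_null (fun x hx => ?_)
      (measure_union_null (measure_iUnion_null hc) (hac _ h1)))
    by_cases h2 : ∃ l, x ∈ Λ l ∩ G0
    · obtain ⟨l, hl⟩ := h2
      exact Or.inl (mem_iUnion.2 ⟨l, hl, hx⟩)
    · exact Or.inr h2
  have hW : MeasurableSet (Λ l0 ∩ G0 ∩ Z0) := ((hΛ l0).1.inter hG0m).inter hZ0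
  obtain ⟨β, hβ, hν⟩ := exists_mid_hp2 hW hl0
  obtain ⟨ρ, K, c, ε0, hρ, hK, -, hc0, hε0, hbox⟩ := (hΛ l0).2
  obtain ⟨β1, c1, hβ1, hβ1', hc1, hub⟩ := ucur_box (c := c) A hρ hK hε0 hK' hβ
  have hK0 : 0 < K := by linarith
  obtain ⟨τ, hτ0, hτ1, hτ2⟩ : ∃ τ : ℝ, 0 < τ ∧ τ ≤ ρ / 10 ∧ 3 * τ ≤ c1 * β1 :=
    ⟨min (ρ / 10) (c1 * β1 / 3), by positivity, min_le_left _ _,
      by linarith [min_le_right (ρ / 10) (c1 * β1 / 3)]⟩
  obtain ⟨x0, hx0, hν0⟩ := exists_ball_pos hν (γ := τ / K) (by positivity)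
  obtain ⟨B⟩ := hbox x0 hx0.1.1
  obtain ⟨B0, hB0⟩ : ∃ B0, B0 = Λ l0 ∩ G0 ∩ Z0 ∩ closedBall x0 (τ / K) := ⟨_, rfl⟩
  rw [← hB0] at hν0
  have hB0m : MeasurableSet B0 := hB0 ▸ hW.inter measurableSet_closedBall
  have hin : ∀ x ∈ B0, In (Λ l0) x0 ρ K x ∧ ‖B.Φ x‖ ≤ τ ∧ x ∈ G0 ∧ x ∈ Z0 := by
    intro x hx
    rw [hB0] at hx
    have h1 : dist x x0 ≤ τ / K := hx.2
    refine ⟨⟨hx.1.1.1, h1.trans ?_⟩, ?_, hx.1.1.2, hx.1.2⟩
    · rw [← div_div]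
      exact div_le_div_of_nonneg_right hτ1 hK0.le
    · have h2 := B.norm_Φ_sub_le x x0
      rw [B.Φ_self, sub_zero] at h2
      rw [le_div_iff₀ hK0] at h1
      linarith
  have hsub : ∀ t0 ∈ Icc β (1 - β), Icc (t0 - β1) (t0 + β1) ⊆ Icc (0 : ℝ) 1 := fun t0 ht0 =>
    Icc_subset_Icc (by linarith [ht0.1]) (by linarith [ht0.2])
  have hsub' : Icc β (1 - β) ⊆ Icc (0 : ℝ) 1 := Icc_subset_Icc hβ.le (by linarith)
  have hnot : ¬ ∀ᵐ w ∂κ, volume (w.pt ⁻¹' B0 ∩ Icc β (1 - β)) = 0 := fun h1 =>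
    hν0 ((etaOn_eq_zero_iff hB0m).2 h1)
  obtain ⟨w1, hw1, hw1'⟩ : ∃ w1 : Cv A q.ε, UCur F.g K' (2 * q.α) w1.pt ∧
      volume (w1.pt ⁻¹' B0 ∩ Icc β (1 - β)) ≠ 0 := by
    by_contra hc
    push Not at hc
    exact hnot (hgood.mono fun w hw => hc w hw.1)
  obtain ⟨t1, ht1, hT⟩ := exists_real_pos hw1' hβ1
  obtain ⟨Y, hY⟩ : ∃ Y, Y = w1.pt '' (w1.pt ⁻¹' B0 ∩ Icc β (1 - β) ∩ Icc (t1 - β1) (t1 + β1)) :=
    ⟨_, rfl⟩
  have hY0 : Measure.hausdorffMeasure 1 Y ≠ 0 := fun h1 =>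
    hT (null_of_hausdorff_image (D := Icc 0 1) (fun t ht => hsub' ht.1.2)
      (fun s hs t ht => (hw1 s hs t ht).1) (hY ▸ h1))
  have hYB : ∀ y ∈ Y, y ∈ B0 ∧ Lv F.g y = Lv F.g (w1.pt 0) := by
    intro y hy
    rw [hY] at hy
    obtain ⟨t, ht, rfl⟩ := hy
    exact ⟨ht.1.1, hw1.lv_hp2 hα2 (hsub' ht.1.2)⟩
  have hYc : ∀ y ∈ Y, ∀ y' ∈ Y, |(B.Φ y).2 - (B.Φ y').2| ≤ |(B.Φ y).1 - (B.Φ y').1| / 10 := by
    have h1 := (hub F _ x0 B _ _ t1 β1 hc0 hw1 ht1.2 (hin _ ht1.1).1 hβ1 le_rfl).1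
    have h2 : ∀ t ∈ Icc (t1 - β1) (t1 + β1), (B.Φ (w1.pt t)).1 ∈ Icc (-ρ) ρ := fun t ht => by
      have h3 := (norm_fst_le (B.Φ (w1.pt t))).trans (h1 t ht).2.1
      rw [Real.norm_eq_abs, abs_le] at h3
      exact ⟨by linarith [h3.1], by linarith [h3.2]⟩
    intro y hy y' hy'
    rw [hY] at hy hy'
    obtain ⟨t, ht, rfl⟩ := hy
    obtain ⟨t', ht', rfl⟩ := hy'
    rw [(h1 t ht.2).2.2, (h1 t' ht'.2).2.2]
    exact B.wu_lip _ (hin _ ht1.1).1 _ (h2 t ht.2) _ (h2 t' ht'.2)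
  have claim : ∀ w : Cv A q.ε, UCur F.g K' (2 * q.α) w.pt →
      volume (w.pt ⁻¹' G0ᶜ ∩ Icc 0 1) = 0 → ∀ t0 ∈ w.pt ⁻¹' B0 ∩ Icc β (1 - β),
      Lv F.g (w.pt 0) = Lv F.g (w1.pt 0) := by
    intro w hw hw' t0 ht0
    have hZ := hausdorff_image_null (σ := w.pt) (D := univ) (subset_univ _)
      (fun s _ t _ => w.pt_lip s t) hw'
    have h1 : ¬ ∀ y ∈ Y, ∃ s ∈ Icc (-ρ) ρ,
        B.Ψ (B.ws y s, s) ∈ w.pt '' (w.pt ⁻¹' G0ᶜ ∩ Icc 0 1) := fun h2 =>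
      hY0 (B.transfer (fun y hy => (hin y (hYB y hy).1).1) hYc h2 hZ)
    push Not at h1
    obtain ⟨y, hy, h1⟩ := h1
    obtain ⟨hyB, hyl⟩ := hYB y hy
    obtain ⟨hx1, hx2, -, -⟩ := hin _ ht0.1
    obtain ⟨hy1, hy2, hy3, -⟩ := hin _ hyB
    obtain ⟨u, s, hu, hs, e1, e2⟩ := B.inter hx1 hy1 hτ1 hx2 hy2
    obtain ⟨h2, -, h3⟩ := hub F _ x0 B _ _ t0 β1 hc0 hw ht0.2 hx1 hβ1 le_rfl
    have h4 : |(B.Φ (w.pt t0)).1| ≤ τ := (norm_fst_le (B.Φ (w.pt t0))).trans hx2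
    obtain ⟨t, ht, h5⟩ := h3 u ((abs_sub _ _).trans (by linarith))
    have hs' : s ∈ Icc (-ρ) ρ := by
      rw [abs_le] at hs
      exact ⟨by linarith [hs.1], by linarith [hs.2]⟩
    have h6 : B.Ψ (B.ws y s, s) = w.pt t := by
      rw [← B.Ψ_Φ (h2 t ht).1]
      congr 1
      refine Prod.ext (e1.symm.trans h5.symm) ?_
      rw [(h2 t ht).2.2, h5]
      exact e2
    have ht' := hsub t0 ht0.2 ht
    have h7 : w.pt t ∈ G0 := by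
      by_contra h8
      exact h1 s hs' ⟨t, ⟨h8, ht'⟩, h6.symm⟩
    have h8 : Lv F.f y = Lv F.f (w.pt t) := h6 ▸ Lv_congr (B.tendsto_ws hy1 hs')
    rw [← hw.lv_hp2 hα2 ht', ← hG0e _ h7, ← h8, hG0e _ hy3, hyl]
  have hlev : Measurable fun w : Cv A q.ε => Lv F.g (w.pt 0) :=
    (measurable_Lv hg).comp
      (Cv.continuous_pt.comp (continuous_id.prodMk continuous_const)).measurable
  have hS : MeasurableSet {w : Cv A q.ε | Lv F.g (w.pt 0) = Lv F.g (w1.pt 0)} :=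
    measurableSet_eq_fun hlev measurable_const
  have hL : MeasurableSet {x | Lv F.f x = Lv F.g (w1.pt 0)} :=
    measurableSet_eq_fun (measurable_Lv hf) measurable_const
  refine ⟨Lv F.g (w1.pt 0), _, hS, fun h1 => hnot ?_, (etaOn_eq_zero_iff hL.compl).2 ?_,
    fun h1 => hnot ?_⟩
  · filter_upwards [hgood, measure_eq_zero_iff_ae_notMem.1 h1] with w hw hw'
    by_contra h2
    obtain ⟨t0, ht0⟩ := nonempty_of_measure_ne_zero h2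
    exact hw' (claim w hw.1 hw.2 t0 ht0)
  · rw [ae_restrict_iff' hS]
    filter_upwards [hgood] with w hw hw'
    refine measure_mono_null ?_ hw.2
    intro t ht
    refine ⟨fun h2 => ht.1 ?_, ht.2⟩
    change Lv F.f (w.pt t) = _
    rw [hG0e _ h2, hw.1.lv_hp2 hα2 ht.2]
    exact hw'
  · filter_upwards [hgood, (etaOn_eq_zero_iff (hL.inter hZ0)).1 h1] with w hw hw'
    refine measure_mono_null ?_ hw'
    intro t ht
    refine ⟨⟨?_, (hin _ ht.1).2.2.2⟩, hsub' ht.2⟩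
    change Lv F.f (w.pt t) = _
    rw [hG0e _ (hin _ ht.1).2.2.1, hw.1.lv_hp2 hα2 (hsub' ht.2)]
    exact claim w hw.1 hw.2 t ht

end Pool.Agent.Lib.MP_e7c912_an
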