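import Pool.Agent.Lib.MP_e7c912_an.H60YDef

/-! The compact space of curves, the state space and the unstable states. -/

namespace Pool.Agent.Lib.MP_e7c912_an

open MeasureTheory Filter Metric Set Topology
open scoped ENNReal unitInterval

variable {X : Type} [MetricSpace X] [MeasurableSpace X]

/-- A curve on the unit interval together with its velocity, of speed at most `ε` and nearly
straight. -/
def IsCv (A : Atlas X) (ε : ℝ) (w : C(I, X × (Fin A.N → ℝ))) : Prop :=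
  (∀ t, ‖(w t).2‖ ≤ ε) ∧ (∀ s t, ‖(w s).2 - (w t).2‖ ≤ ‖(w t).2‖ * |(s : ℝ) - t| / 3) ∧
    ∀ s t, ‖A.e (w s).1 - A.e (w t).1 - ((s : ℝ) - t) • (w t).2‖ ≤ ‖(w t).2‖ * ((s : ℝ) - t) ^ 2 / 3

/-- The space of curves. -/
def Cv (A : Atlas X) (ε : ℝ) : Type := {w : C(I, X × (Fin A.N → ℝ)) // IsCv A ε w}

variable {A : Atlas X} {ε : ℝ}

noncomputable instance : MetricSpace (Cv A ε) := Subtype.metricSpace

noncomputable instance : MeasurableSpace (Cv A ε) := borel _

instance : BorelSpace (Cv A ε) := ⟨rfl⟩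

theorem isClosed_isCv (A : Atlas X) (ε : ℝ) : IsClosed {w | IsCv A ε w} := by
  have he := A.iso.continuous
  simp only [IsCv, ofPred_and, ofPred_forall]
  refine (isClosed_iInter fun t => isClosed_le (by fun_prop) continuous_const).inter
    ((isClosed_iInter fun s => isClosed_iInter fun t => isClosed_le (by fun_prop) (by fun_prop)).inter
      (isClosed_iInter fun s => isClosed_iInter fun t => isClosed_le (by fun_prop) (by fun_prop)))

theorem IsCv.dist_le {w : C(I, X × (Fin A.N → ℝ))} (h : IsCv A ε w) (s t : I) :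
    dist (w s) (w t) ≤ 2 * ε * dist s t := by
  have hε : 0 ≤ ε := (norm_nonneg _).trans (h.1 t)
  have hd : dist s t = |(s : ℝ) - t| := rfl
  have h1 : |(s : ℝ) - t| ≤ 1 := by
    rw [abs_le]
    constructor <;> linarith [s.2.1, s.2.2, t.2.1, t.2.2]
  have h0 := abs_nonneg ((s : ℝ) - t)
  have ht := h.1 t
  have hn := norm_nonneg (w t).2
  rw [Prod.dist_eq, max_le_iff, hd]
  constructor
  · rw [← A.iso.dist_eq, dist_eq_norm]
    have h2 := h.2.2 s t
    have h3 : ‖A.e (w s).1 - A.e (w t).1‖ ≤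
        ‖A.e (w s).1 - A.e (w t).1 - ((s : ℝ) - t) • (w t).2‖ + ‖((s : ℝ) - t) • (w t).2‖ := by
      simpa using norm_add_le (A.e (w s).1 - A.e (w t).1 - ((s : ℝ) - t) • (w t).2)
        (((s : ℝ) - t) • (w t).2)
    rw [norm_smul, Real.norm_eq_abs] at h3
    rw [← sq_abs] at h2
    have h4 : |(s : ℝ) - t| ^ 2 ≤ |(s : ℝ) - t| := by nlinarith
    have h5 : ‖(w t).2‖ * |(s : ℝ) - t| ^ 2 ≤ ε * |(s : ℝ) - t| :=
      mul_le_mul ht h4 (by positivity) hε
    have h6 : |(s : ℝ) - t| * ‖(w t).2‖ ≤ |(s : ℝ) - t| * ε := mul_le_mul_of_nonneg_left ht h0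
    nlinarith
  · rw [dist_eq_norm]
    have h2 := h.2.1 s t
    have h6 : ‖(w t).2‖ * |(s : ℝ) - t| ≤ ε * |(s : ℝ) - t| := mul_le_mul_of_nonneg_right ht h0
    nlinarith

theorem isCompact_isCv [CompactSpace X] (A : Atlas X) (ε : ℝ) : IsCompact {w | IsCv A ε w} := by
  have hK : IsCompact ((univ : Set X) ×ˢ closedBall (0 : Fin A.N → ℝ) ε) :=
    isCompact_univ.prod (isCompact_closedBall _ _)
  apply ArzelaAscoli.isCompact_of_equicontinuous
  · refine (isCompact_univ_pi fun _ : I => hK).of_isClosed_subset ?_ ?_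
    · have he := A.iso.continuous
      have : ContinuousMap.toFun '' {w | IsCv A ε w} = {w : I → X × (Fin A.N → ℝ) |
          (∀ s t, dist (w s) (w t) ≤ 2 * ε * dist s t) ∧ (∀ t, ‖(w t).2‖ ≤ ε) ∧
          (∀ s t, ‖(w s).2 - (w t).2‖ ≤ ‖(w t).2‖ * |(s : ℝ) - t| / 3) ∧
          ∀ s t, ‖A.e (w s).1 - A.e (w t).1 - ((s : ℝ) - t) • (w t).2‖ ≤
            ‖(w t).2‖ * ((s : ℝ) - t) ^ 2 / 3} := by
        ext w
        constructor
        · rintro ⟨w, hw, rfl⟩
          exact ⟨hw.dist_le, hw⟩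
        · rintro ⟨h1, h2⟩
          have hc : Continuous w := by
            refine (LipschitzWith.of_dist_le_mul (K := (2 * ε).toNNReal) fun s t => ?_).continuous
            exact (h1 s t).trans (mul_le_mul_of_nonneg_right (Real.le_coe_toNNReal _) dist_nonneg)
          exact ⟨⟨w, hc⟩, h2, rfl⟩
      rw [this]
      simp only [ofPred_and, ofPred_forall]
      refine (isClosed_iInter fun s => isClosed_iInter fun t =>
        isClosed_le (by fun_prop) continuous_const).inter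
        ((isClosed_iInter fun t => isClosed_le (by fun_prop) continuous_const).inter
        ((isClosed_iInter fun s => isClosed_iInter fun t =>
          isClosed_le (by fun_prop) (by fun_prop)).inter
        (isClosed_iInter fun s => isClosed_iInter fun t => isClosed_le (by fun_prop) (by fun_prop))))
    · rintro _ ⟨w, hw, rfl⟩ t -
      exact ⟨trivial, by simpa using hw.1 t⟩
  · refine (Metric.uniformEquicontinuous_of_continuity_modulus (fun d => 2 * ε * d) ?_
      (fun (w : {w | IsCv A ε w}) => (w.1 : I → X × (Fin A.N → ℝ)))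
      fun s t w => IsCv.dist_le w.2 s t).equicontinuous
    have : Continuous fun d : ℝ => 2 * ε * d := by fun_prop
    simpa using this.tendsto 0

instance [CompactSpace X] : CompactSpace (Cv A ε) := isCompact_iff_compactSpace.1 (isCompact_isCv A ε)

instance [CompactSpace X] : SecondCountableTopology (Cv A ε) :=
  EMetric.secondCountable_of_sigmaCompact _

namespace Cv

/-- The curve, extended to the line by constants. -/
noncomputable def pt (w : Cv A ε) (t : ℝ) : X := (w.1 (projIcc 0 1 zero_le_one t)).1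

/-- The velocity. -/
noncomputable def dv (w : Cv A ε) (t : ℝ) : Fin A.N → ℝ := (w.1 (projIcc 0 1 zero_le_one t)).2

/-- The speed is at least `ε / 4`. -/
def Big (w : Cv A ε) : Prop := ∀ t, ε / 4 ≤ ‖w.dv t‖

/-- The velocity of the image of the curve by `G`. -/
noncomputable def DN (G : X → X) (w : Cv A ε) (t : ℝ) : Fin A.N → ℝ :=
  fderiv ℝ (A.rep G (A.idx (w.pt t))) (A.φ (A.idx (w.pt t)) (w.pt t))
    (A.pr (A.idx (w.pt t)) (w.dv t))

end Cv

/-- Contraction of the curve by the `j`-th iterate of the inverse of `F.f^[p]`. -/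
def UC (F : Dif A) (q : Prm) (j : ℕ) (w : Cv A q.ε) : Prop :=
  ∀ s t : ℝ, dist ((F.g^[q.p])^[j] (w.pt s)) ((F.g^[q.p])^[j] (w.pt t)) ≤
    q.ε * Real.exp (-(2 * (q.α * q.p)) * j) * |s - t|

/-- Long curves contracted in the past. -/
def UAll (F : Dif A) (q : Prm) (w : Cv A q.ε) : Prop := w.Big ∧ ∀ j, UC F q j w

/-- Local volume growth along the curve. -/
def LV (F : Dif A) (q : Prm) (w : Cv A q.ε) : Prop :=
  ∀ (N : ℕ) (x : X) (θ : ℝ), 0 < θ →
    volume {t | t ∈ Ioo (0 : ℝ) 1 ∧ (∀ k ≤ N, dist ((F.f^[q.p])^[k] (w.pt t)) ((F.f^[q.p])^[k] x) < q.ε) ∧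
      θ < ‖w.DN (F.f^[q.p])^[N] t‖} ≤ ENNReal.ofReal (Real.exp (q.α * q.p * N) * q.ε / θ)

/-- The measure carried by a family of curves, for parameters in `T`. -/
noncomputable def etaOn (κ : Measure (Cv A ε)) (T : Set ℝ) : Measure X :=
  (κ.prod (volume.restrict T)).map fun z : Cv A ε × ℝ => z.1.pt z.2

/-- The measure carried by a family of curves. -/
noncomputable def eta (κ : Measure (Cv A ε)) : Measure X := etaOn κ (Icc 0 1)

/-- States: at each time a point, a flag, an expansion and a curve. -/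
abbrev Om (A : Atlas X) (ε : ℝ) : Type := ℤ → X × Bool × I × Cv A ε

instance [CompactSpace X] [BorelSpace X] : BorelSpace (Om A ε) := inferInstance

instance [CompactSpace X] [BorelSpace X] : OpensMeasurableSpace (Om A ε) :=
  BorelSpace.opensMeasurable

namespace Om

def shift (ω : Om A ε) : Om A ε := fun j => ω (j + 1)

def xx (ω : Om A ε) : X := (ω 0).1

def fl (ω : Om A ε) (j : ℤ) : Bool := (ω j).2.1

noncomputable def uu (Λ : ℝ) (ω : Om A ε) (j : ℤ) : ℝ := Λ * (2 * ((ω j).2.2.1 : ℝ) - 1)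

def cv (ω : Om A ε) : Cv A ε := (ω 0).2.2.2

end Om

/-- Time zero is flagged. -/
def Fl0 (A : Atlas X) (ε : ℝ) : Set (Om A ε) := {ω | ω.fl 0 = true}

/-- Time zero lies between two flagged times at distance at most `M`. -/
def OM (A : Atlas X) (ε : ℝ) (M : ℕ) : Set (Om A ε) :=
  {ω | ∃ a b : ℤ, a ≤ 0 ∧ 0 < b ∧ b - a ≤ M ∧ ω.fl a = true ∧ ω.fl b = true}

/-- The recorded expansions are at most the norms of the derivatives. -/
def Rel (F : Dif A) (q : Prm) (ω : Om A q.ε) : Prop :=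
  ∃ i, ω.xx ∈ A.D i ∧ ∀ n : ℕ, Real.exp (∑ j ∈ Finset.range n, ω.uu q.Λ j) ≤
    ‖fderiv ℝ (A.rep (F.f^[q.p])^[n] i) (A.φ i ω.xx)‖

/-- The closed constraints at time zero, except for the contraction in the past. -/
def Con (F : Dif A) (q : Prm) (ω : Om A q.ε) : Prop :=
  (ω 1).1 = F.f^[q.p] ω.xx ∧ Rel F q ω ∧ (ω.fl 0 = true → ω.cv.Big) ∧ LV F q ω.cv

/-- The family of curves seen at flagged times. -/
noncomputable def kap (P : Measure (Om A ε)) : Measure (Cv A ε) := (P.restrict (Fl0 A ε)).map Om.cv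

/-- Unstable states. -/
structure UState (F : Dif A) (q : Prm) (b : ℝ) (P : Measure (Om A q.ε)) : Prop where
  inv : MeasurePreserving Om.shift P P
  con : ∀ᵐ ω ∂P, Con F q ω ∧ ∀ j, UC F q j ω.cv
  link : (P.restrict (Fl0 A q.ε)).map Om.xx = eta (kap P)
  low : q.p * b ≤ ∫ ω, ω.uu q.Λ 0 ∂P
  gap : ∀ M : ℕ, 1 ≤ M → ∫ ω in (OM A q.ε M)ᶜ, ω.uu q.Λ 0 ∂P ≤
    (Real.log 4 + q.Λ) * P.real (Fl0 A q.ε ∩ (OM A q.ε M)ᶜ) + 4 * (q.α * q.p)

/-- Sequences that are asymptotically unstable states. -/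
structure AState [CompactSpace X] [BorelSpace X] (Fs : ℕ → Dif A) (q : Prm) (b : ℝ)
    (Ps : ℕ → ProbabilityMeasure (Om A q.ε)) : Prop where
  inv : ∀ φ : C(Om A q.ε, ℝ), Tendsto (fun n => ∫ ω, φ ω.shift ∂(Ps n : Measure (Om A q.ε)) -
    ∫ ω, φ ω ∂(Ps n : Measure (Om A q.ε))) atTop (𝓝 0)
  con : ∀ n, ∀ᵐ ω ∂(Ps n : Measure (Om A q.ε)), Con (Fs n) q ω
  uc : ∀ j, Tendsto (fun n => (Ps n : Measure (Om A q.ε)) {ω | UC (Fs n) q j ω.cv}ᶜ) atTop (𝓝 0)
  link : ∀ n, ((Ps n : Measure (Om A q.ε)).restrict (Fl0 A q.ε)).map Om.xx = eta (kap (Ps n : Measure (Om A q.ε)))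
  low : ∀ γ : ℝ, 0 < γ → ∀ᶠ n in atTop, q.p * b - γ ≤ ∫ ω, ω.uu q.Λ 0 ∂(Ps n : Measure (Om A q.ε))
  gap : ∀ M : ℕ, 1 ≤ M → ∀ γ : ℝ, 0 < γ → ∀ᶠ n in atTop,
    ∫ ω in (OM A q.ε M)ᶜ, ω.uu q.Λ 0 ∂(Ps n : Measure (Om A q.ε)) ≤ (Real.log 4 + q.Λ) *
      (Ps n : Measure (Om A q.ε)).real (Fl0 A q.ε ∩ (OM A q.ε M)ᶜ) + 4 * (q.α * q.p) + γ

/-- An invariant measure `m` generated by a family `κ` of long unstable curves. -/
structure Gibbs (F : Dif A) (q : Prm) (κ : Measure (Cv A q.ε)) (m : Measure X) : Prop where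
  finκ : IsFiniteMeasure κ
  finm : IsFiniteMeasure m
  mp : MeasurePreserving F.f m m
  ae : ∀ᵐ w ∂κ, UAll F q w ∧ LV F q w
  le : eta κ ≤ (q.p : ℝ≥0∞) • m
  nul : ∀ Z, MeasurableSet Z → F.f ⁻¹' Z = Z → eta κ Z = 0 → m Z = 0

end Pool.Agent.Lib.MP_e7c912_an
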