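import Pool.Agent.Lib.MP_e7c912_an.H60BoxDef
import Pool.Agent.Lib.MP_e7c912_an.H60SDef

/-! Configurations of curves in a box. Definitions only. -/

namespace Pool.Agent.Lib.MP_e7c912_an

open MeasureTheory Filter Metric Set Topology

variable {X : Type} [MetricSpace X] [MeasurableSpace X] {A : Atlas X} {F : Dif A} {Λ : Set X}
  {x0 : X} {ρ K c ε0 : ℝ}

/-- On `[a, b]` the curve `σ` follows the graph of `h` and crosses `[-2τ, 2τ]`. -/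
structure Cross (B : Box F Λ x0 ρ K c ε0) (τ : ℝ) (σ : ℝ → X) (h : ℝ → ℝ) (a b c1 : ℝ) : Prop where
  a_pos : 0 < a
  b_lt : b < 1
  c1_pos : 0 < c1
  near : ∀ t ∈ Icc a b, dist (σ t) x0 ≤ A.ρ / 2 ∧ |(B.Φ (σ t)).1| ≤ ρ / 2 ∧
    (B.Φ (σ t)).2 = h (B.Φ (σ t)).1
  sep : ∀ t ∈ Icc a b, ∀ t' ∈ Icc a b, c1 * |t - t'| ≤ |(B.Φ (σ t)).1 - (B.Φ (σ t')).1|
  onto : ∀ u, |u| ≤ 2 * τ → ∃ t ∈ Icc a b, (B.Φ (σ t)).1 = u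
  lip : ∀ u ∈ Icc (-ρ) ρ, ∀ u' ∈ Icc (-ρ) ρ, |h u - h u'| ≤ |u - u'| / 10
  small : ∀ u ∈ Icc (-τ) τ, |h u| ≤ τ / 2

/-- The point `y` of the curve `σ2` lies above `σ1`, below `σ3`, to the right of the recurrent
point `p` and to the left of the recurrent point `p'`; the curve `σ2` also goes far to the right. -/
structure Cfg (B : Box F Λ x0 ρ K c ε0) (τ : ℝ) (σ1 σ2 σ3 : ℝ → X) (h1 h3 : ℝ → ℝ) (p p' y : X) :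
    Prop where
  τ_pos : 0 < τ
  τ_le : τ ≤ ρ
  cr1 : ∃ a b c1, Cross B τ σ1 h1 a b c1
  cr3 : ∃ a b c1, Cross B τ σ3 h3 a b c1
  inp : In Λ x0 ρ K p ∧ Rec F.f Λ p ∧ ‖B.Φ p‖ ≤ τ / 4
  inp' : In Λ x0 ρ K p' ∧ Rec F.f Λ p' ∧ ‖B.Φ p'‖ ≤ τ / 4
  on : ∃ t ∈ Icc (0 : ℝ) 1, σ2 t = y
  far : ∃ t ∈ Icc (0 : ℝ) 1, 3 * τ / 4 ≤ (B.Φ (σ2 t)).1
  near : dist y x0 < A.ρ ∧ ‖B.Φ y‖ < τ
  above : h1 (B.Φ y).1 < (B.Φ y).2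
  below : (B.Φ y).2 < h3 (B.Φ y).1
  right : (B.Φ p).1 + |(B.Φ y).2 - (B.Φ p).2| / 10 < (B.Φ y).1
  left : (B.Φ y).1 + |(B.Φ y).2 - (B.Φ p').2| / 10 < (B.Φ p').1

end Pool.Agent.Lib.MP_e7c912_an
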