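import Pool.Agent.Lib.MP_e7c912_an.H60Cfg
import Pool.Agent.Lib.MP_e7c912_an.H60Bar
import Pool.Agent.Lib.MP_e7c912_an.H60Cross

/-! Two sequences of measures whose curves accumulate on the same ergodic measure coincide. -/

namespace Pool.Agent.Lib.MP_e7c912_an

open MeasureTheory Filter Metric Set Topology

variable {X : Type} [MetricSpace X] [CompactSpace X] [MeasurableSpace X] [BorelSpace X]
  {A : Atlas X}

/-- A Lipschitz function on an interval has a continuous extension. -/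
theorem ext_lip_inj {ρ : ℝ} {aa : ℝ → ℝ}
    (h : ∀ s ∈ Icc (-ρ) ρ, ∀ s' ∈ Icc (-ρ) ρ, |aa s - aa s'| ≤ |s - s'| / 10) :
    ∃ a' : ℝ → ℝ, Continuous a' ∧ ∀ s ∈ Icc (-ρ) ρ, a' s = aa s := by
  have hl : LipschitzOnWith 1 aa (Icc (-ρ) ρ) := by
    refine LipschitzOnWith.of_dist_le_mul fun s hs t ht => ?_
    have := h s hs t ht
    have h0 := abs_nonneg (s - t)
    simp only [Real.dist_eq, NNReal.coe_one, one_mul]
    linarith
  obtain ⟨g, hg, he⟩ := hl.extend_real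
  exact ⟨g, hg.continuous, fun s hs => (he hs).symm⟩

/-- A relatively open nonempty subset of the unit interval has positive length. -/
theorem vol_ne_inj {W : Set ℝ} (hW : IsOpen W) {t : ℝ} (ht : t ∈ Icc (0 : ℝ) 1) (htW : t ∈ W) :
    volume (Icc (0 : ℝ) 1 ∩ W) ≠ 0 := by
  have h1 : t ∈ closure (Ioo (0 : ℝ) 1) := by
    rw [closure_Ioo zero_ne_one]
    exact ht
  have h2 : (W ∩ Ioo (0 : ℝ) 1).Nonempty := mem_closure_iff.1 h1 W hW htW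
  have h3 : volume (W ∩ Ioo (0 : ℝ) 1) ≠ 0 := (hW.inter isOpen_Ioo).measure_ne_zero _ h2
  intro h0
  exact h3 (measure_mono_null (fun x hx => mem_inter (Ioo_subset_Icc_self hx.2) hx.1) h0)

/-- A curve with almost all points generic near any given curve of the support. -/
theorem exists_gen_inj {ε : ℝ} (F : Dif A) {ν : Measure X} [IsProbabilityMeasure ν]
    (hν : Ergodic F.f ν) {κ : Measure (Cv A ε)} [IsFiniteMeasure κ] (hac : eta κ ≪ ν)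
    {U : Set (Cv A ε)} (hU : κ U ≠ 0) (j : ℕ) : ∃ w ∈ U, Measure.hausdorffMeasure 1
      ((F.f^[j] ∘ w.pt) '' Icc 0 1 \ {z | Gen F.f ν z}) = 0 := by
  have h1 : ∀ᵐ x ∂eta κ, Gen F.f ν x := hac.ae_le (ae_gen hν)
  obtain ⟨w, hw, h2⟩ := Measure.exists_mem_of_measure_ne_zero_of_ae hU
    (ae_restrict_of_ae (ae_of_etaOn h1))
  refine ⟨w, hw, ?_⟩
  obtain ⟨L, -, hL⟩ := (F.smf.iter j).lip
  have h3 : volume {t | t ∈ Icc (0 : ℝ) 1 ∧ ¬ Gen F.f ν (w.pt t)} = 0 := by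
    rw [ae_restrict_iff' measurableSet_Icc, ae_iff] at h2
    simpa only [Classical.not_imp] using h2
  have h4 := hausdorff_image_null (σ := F.f^[j] ∘ w.pt) (D := univ) (K := L * (2 * ε))
    (subset_univ _) (fun s _ t _ => by
      calc dist (F.f^[j] (w.pt s)) (F.f^[j] (w.pt t)) ≤ L * dist (w.pt s) (w.pt t) :=
            hL.dist_le_mul _ _
        _ ≤ L * (2 * ε * |s - t|) := mul_le_mul_of_nonneg_left (w.pt_lip s t) L.2
        _ = L * (2 * ε) * |s - t| := by ring) h3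
  refine measure_mono_null ?_ h4
  rintro z ⟨⟨t, ht, rfl⟩, hz⟩
  exact ⟨t, ⟨ht, fun hg => hz ((gen_iterate j _).2 hg)⟩, rfl⟩

/-- The rectangle bounded by four graphs. -/
def rectInj {F : Dif A} {Λ : Set X} {x0 : X} {ρ K c ε0 : ℝ} (B : Box F Λ x0 ρ K c ε0) (τ : ℝ)
    (aa bb bot top : ℝ → ℝ) : Set X :=
  {z | dist z x0 < A.ρ ∧ ‖B.Φ z‖ < τ ∧ aa (B.Φ z).2 < (B.Φ z).1 ∧ (B.Φ z).1 < bb (B.Φ z).2 ∧
    bot (B.Φ z).1 < (B.Φ z).2 ∧ (B.Φ z).2 < top (B.Φ z).1}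

omit [CompactSpace X] [BorelSpace X] in
theorem isOpen_rectInj {F : Dif A} {Λ : Set X} {x0 : X} {ρ K c ε0 : ℝ} (B : Box F Λ x0 ρ K c ε0)
    (τ : ℝ) {aa bb bot top : ℝ → ℝ} (ca : Continuous aa) (cb : Continuous bb)
    (c1 : Continuous bot) (c3 : Continuous top) : IsOpen (rectInj B τ aa bb bot top) := by
  have hΦ := B.continuous_Φ
  simp only [rectInj, ofPred_and]
  exact (isOpen_lt (by fun_prop) continuous_const).inter
    ((isOpen_lt (by fun_prop) continuous_const).inter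
    ((isOpen_lt (by fun_prop) (by fun_prop)).inter ((isOpen_lt (by fun_prop) (by fun_prop)).inter
    ((isOpen_lt (by fun_prop) (by fun_prop)).inter (isOpen_lt (by fun_prop) (by fun_prop))))))

omit [CompactSpace X] [BorelSpace X] in
theorem frontier_rectInj {F : Dif A} {Λ : Set X} {x0 : X} {ρ K c ε0 : ℝ}
    (B : Box F Λ x0 ρ K c ε0) {τ : ℝ} (hτ : 0 < τ) (hτ' : τ ≤ ρ) {aa bb bot top : ℝ → ℝ}
    (ca : Continuous aa) (cb : Continuous bb) (c1 : Continuous bot) (c3 : Continuous top)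
    (ha : ∀ s ∈ Icc (-τ) τ, |aa s| ≤ 0.55 * τ) (hb : ∀ s ∈ Icc (-τ) τ, |bb s| ≤ 0.55 * τ)
    (h1 : ∀ s ∈ Icc (-τ) τ, |bot s| ≤ 0.55 * τ) (h3 : ∀ s ∈ Icc (-τ) τ, |top s| ≤ 0.55 * τ)
    {z : X} (hz : z ∈ frontier (rectInj B τ aa bb bot top)) :
    ∃ r ∈ Icc (-τ) τ, z = B.Ψ (aa r, r) ∨ z = B.Ψ (bb r, r) ∨ z = B.Ψ (r, bot r) ∨
      z = B.Ψ (r, top r) := by
  have hΦ := B.continuous_Φ
  have hρ := A.ρ_pos
  rw [(isOpen_rectInj B τ ca cb c1 c3).frontier_eq] at hz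
  have hC : IsClosed {z : X | dist z x0 ≤ A.ρ / 2 ∧ |(B.Φ z).1| ≤ 0.55 * τ ∧
      |(B.Φ z).2| ≤ 0.55 * τ ∧ aa (B.Φ z).2 ≤ (B.Φ z).1 ∧ (B.Φ z).1 ≤ bb (B.Φ z).2 ∧
      bot (B.Φ z).1 ≤ (B.Φ z).2 ∧ (B.Φ z).2 ≤ top (B.Φ z).1} := by
    simp only [ofPred_and]
    exact (isClosed_le (by fun_prop) continuous_const).inter
      ((isClosed_le (by fun_prop) continuous_const).inter
      ((isClosed_le (by fun_prop) continuous_const).inter
      ((isClosed_le (by fun_prop) (by fun_prop)).inter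
      ((isClosed_le (by fun_prop) (by fun_prop)).inter
      ((isClosed_le (by fun_prop) (by fun_prop)).inter (isClosed_le (by fun_prop) (by fun_prop)))))))
  have hsub := closure_minimal (s := rectInj B τ aa bb bot top) (fun z hz => by
    obtain ⟨d1, d2, d3, d4, d5, d6⟩ := hz
    have e1 : |(B.Φ z).1| < τ := lt_of_le_of_lt (norm_fst_le (B.Φ z)) d2
    have e2 : |(B.Φ z).2| < τ := lt_of_le_of_lt (norm_snd_le (B.Φ z)) d2
    have m1 : (B.Φ z).1 ∈ Icc (-τ) τ := abs_le.1 e1.le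
    have m2 : (B.Φ z).2 ∈ Icc (-τ) τ := abs_le.1 e2.le
    have f1 := abs_le.1 (ha _ m2)
    have f2 := abs_le.1 (hb _ m2)
    have f3 := abs_le.1 (h1 _ m1)
    have f4 := abs_le.1 (h3 _ m1)
    refine ⟨?_, abs_le.2 ⟨by linarith [f1.1], by linarith [f2.2]⟩,
      abs_le.2 ⟨by linarith [f3.1], by linarith [f4.2]⟩, d3.le, d4.le, d5.le, d6.le⟩
    have := B.dist_Ψ_lt (z := B.Φ z) (by linarith)
    rwa [B.Ψ_Φ d1] at this) hC
  obtain ⟨d1, d2, d2', d3, d4, d5, d6⟩ := hsub hz.1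
  have e0 : dist z x0 < A.ρ := by linarith
  have e1 : ‖B.Φ z‖ < τ := by
    rw [Prod.norm_def, max_lt_iff, Real.norm_eq_abs, Real.norm_eq_abs]
    constructor <;> linarith
  have m1 : (B.Φ z).1 ∈ Icc (-τ) τ := abs_le.1 (by linarith)
  have m2 : (B.Φ z).2 ∈ Icc (-τ) τ := abs_le.1 (by linarith)
  have hz0 := (B.Ψ_Φ e0).symm
  rcases d3.eq_or_lt with g3 | g3
  · exact ⟨_, m2, Or.inl (by rw [g3]; exact hz0)⟩
  rcases d4.eq_or_lt with g4 | g4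
  · exact ⟨_, m2, Or.inr (Or.inl (by rw [← g4]; exact hz0))⟩
  rcases d5.eq_or_lt with g5 | g5
  · exact ⟨_, m1, Or.inr (Or.inr (Or.inl (by rw [g5]; exact hz0)))⟩
  rcases d6.eq_or_lt with g6 | g6
  · exact ⟨_, m1, Or.inr (Or.inr (Or.inr (by rw [← g6]; exact hz0)))⟩
  exact absurd ⟨e0, e1, g3, g4, g5, g6⟩ hz.2

/-- Choice of a margin. -/
theorem exists_margin_inj {a b c d e f : ℝ} (ha : 0 < a) (hb : 0 < b) (hc : 0 < c) (hd : 0 < d)
    (he : 0 < e) (hf : 0 < f) :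
    ∃ m : ℝ, 0 < m ∧ m ≤ a ∧ m < b ∧ 3 * m < c ∧ 3 * m < d ∧ 3 * m < e ∧ 3 * m < f := by
  refine ⟨min (min a b) (min (min c d) (min e f)) / 4, by positivity, ?_⟩
  have h1 := min_le_left (min a b) (min (min c d) (min e f))
  have h2 := min_le_right (min a b) (min (min c d) (min e f))
  have h3 := min_le_left a b
  have h4 := min_le_right a b
  have h5 := min_le_left (min c d) (min e f)
  have h6 := min_le_right (min c d) (min e f)
  have h7 := min_le_left c d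
  have h8 := min_le_right c d
  have h9 := min_le_left e f
  have h10 := min_le_right e f
  refine ⟨?_, ?_, ?_, ?_, ?_, ?_⟩ <;> linarith

/-- Estimates for a vertical side of the rectangle. -/
theorem side_inj {ρ τ m u s : ℝ} {aa a' : ℝ → ℝ} (hτ : 0 < τ) (hτ' : τ ≤ ρ) (hm : m ≤ τ / 20)
    (hu : |u| ≤ τ / 4) (hs : |s| ≤ τ / 4)
    (hl : ∀ s ∈ Icc (-ρ) ρ, ∀ s' ∈ Icc (-ρ) ρ, |aa s - aa s'| ≤ |s - s'| / 10)
    (h0 : |aa s - u| ≤ m) (he : ∀ s ∈ Icc (-ρ) ρ, a' s = aa s) :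
    ∀ r ∈ Icc (-τ) τ, |a' r - u| ≤ m + |r - s| / 10 ∧ |a' r| ≤ 0.55 * τ := by
  intro r hr
  have hr' : r ∈ Icc (-ρ) ρ := ⟨by linarith [hr.1], by linarith [hr.2]⟩
  have hs' : s ∈ Icc (-ρ) ρ := abs_le.1 (by linarith)
  have h1 := hl r hr' s hs'
  have h2 : |aa r - u| ≤ |aa r - aa s| + |aa s - u| := abs_sub_le _ _ _
  have h3 : |r - s| ≤ |r| + |s| := abs_sub _ _
  have h4 : |r| ≤ τ := abs_le.2 hr
  have h5 : |aa r| ≤ |aa r - u| + |u| := by simpa using abs_add_le (aa r - u) u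
  rw [he r hr']
  constructor <;> linarith

/-- The conclusion from a configuration. -/
theorem Cfg.eventually_eq {Fs : ℕ → Dif A} {F : Dif A} (hc : A.Conv1 (fun n => (Fs n).f) F.f)
    {q : Prm} (hp : 1 ≤ q.p) (hε : 0 < q.ε) (hα : 0 < q.α) {μs νs : ℕ → Measure X}
    (hμ : ∀ n, IsProbabilityMeasure (μs n) ∧ Ergodic (Fs n).f (μs n) ∧
      ∀ᵐ x ∂μs n, 0 < l1 (A.coc (Fs n).f) x ∧ l2 (A.coc (Fs n).f) x < 0)
    (hν : ∀ n, IsProbabilityMeasure (νs n) ∧ Ergodic (Fs n).f (νs n))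
    {κs κs' : ℕ → Measure (Cv A q.ε)}
    (hκ : ∀ n, IsFiniteMeasure (κs n) ∧ eta (κs n) ≪ μs n ∧ ∀ᵐ w ∂κs n, UAll (Fs n) q w)
    (hκ' : ∀ n, IsFiniteMeasure (κs' n) ∧ eta (κs' n) ≪ νs n)
    {Λ : Set X} {x0 : X} {ρ K c ε0 : ℝ} {B : Box F Λ x0 ρ K c ε0} {τ : ℝ} {j j' : ℕ}
    {w1 w2 w3 : Cv A q.ε} {h1 h3 : ℝ → ℝ} {p p' y : X}
    (H : Cfg B τ (F.f^[j'] ∘ w1.pt) (F.f^[j] ∘ w2.pt) (F.f^[j'] ∘ w3.pt) h1 h3 p p' y)
    (s1 : ∀ δ : ℝ, 0 < δ → ∀ᶠ n in atTop, κs' n (ball w1 δ) ≠ 0)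
    (s2 : ∀ δ : ℝ, 0 < δ → ∀ᶠ n in atTop, κs n (ball w2 δ) ≠ 0)
    (s3 : ∀ δ : ℝ, 0 < δ → ∀ᶠ n in atTop, κs' n (ball w3 δ) ≠ 0) :
    ∀ᶠ n in atTop, μs n = νs n := by
  have hτ := H.τ_pos
  have hτ' := H.τ_le
  have hK := B.one_le
  obtain ⟨a1, b1, c1, cr1⟩ := H.cr1
  obtain ⟨a3, b3, c3, cr3⟩ := H.cr3
  obtain ⟨m, m0, m1, m2, m3, m4, m5, m6⟩ := exists_margin_inj (a := τ / 20) (by positivity)
    (sub_pos.2 H.near.2) (sub_pos.2 H.above) (sub_pos.2 H.below) (sub_pos.2 H.right)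
    (sub_pos.2 H.left)
  obtain ⟨dl, dl0, dl1, dl2⟩ : ∃ dl : ℝ, 0 < dl ∧ K * dl ≤ m ∧ dist y x0 + dl < A.ρ := by
    have h0 := sub_pos.2 H.near.1
    refine ⟨min (m / K) ((A.ρ - dist y x0) / 2), by positivity, ?_, ?_⟩
    · calc K * min (m / K) ((A.ρ - dist y x0) / 2) ≤ K * (m / K) :=
            mul_le_mul_of_nonneg_left (min_le_left _ _) (by linarith)
        _ = m := by field_simp
    · have := min_le_right (m / K) ((A.ρ - dist y x0) / 2)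
      linarith
  have hs : ∀ n, A.Sm (Fs n).f := fun n => (Fs n).smf
  obtain ⟨δ1, δ1p, G1⟩ := Cross.graph hτ (hc.iter hs F.smf j') (fun n => (hs n).iter j')
    (F.smf.iter j') cr1 m0
  obtain ⟨δ3, δ3p, G3⟩ := Cross.graph hτ (hc.iter hs F.smf j') (fun n => (hs n).iter j')
    (F.smf.iter j') cr3 m0
  obtain ⟨δ2, δ2p, G2⟩ := Cv.close (hc.iter hs F.smf j) (fun n => (hs n).iter j)
    (F.smf.iter j) w2 (half_pos dl0)
  have cσ : Continuous (F.f^[j] ∘ w2.pt) :=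
    (F.smf.iter j).1.comp (Cv.continuous_pt.comp (Continuous.prodMk_right w2))
  have hΦ := B.continuous_Φ
  have v1 : volume (Icc (0 : ℝ) 1 ∩ {t | dist ((F.f^[j] ∘ w2.pt) t) y < dl / 2}) ≠ 0 := by
    obtain ⟨t, ht, e⟩ := H.on
    refine vol_ne_inj (isOpen_lt (by fun_prop) continuous_const) ht ?_
    simp only [mem_ofPred_eq, e, dist_self]
    exact half_pos dl0
  have v2 : volume (Icc (0 : ℝ) 1 ∩ {t | 0.7 * τ < (B.Φ ((F.f^[j] ∘ w2.pt) t)).1}) ≠ 0 := by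
    obtain ⟨t, ht, e⟩ := H.far
    refine vol_ne_inj (isOpen_lt continuous_const (by fun_prop)) ht ?_
    simp only [mem_ofPred_eq]
    linarith
  have hup : |(B.Φ p).1| ≤ τ / 4 := (norm_fst_le (B.Φ p)).trans H.inp.2.2
  have hsp : |(B.Φ p).2| ≤ τ / 4 := (norm_snd_le (B.Φ p)).trans H.inp.2.2
  have hup' : |(B.Φ p').1| ≤ τ / 4 := (norm_fst_le (B.Φ p')).trans H.inp'.2.2
  have hsp' : |(B.Φ p').2| ≤ τ / 4 := (norm_snd_le (B.Φ p')).trans H.inp'.2.2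
  filter_upwards [G1, G2, G3, s1 δ1 δ1p, s2 δ2 δ2p, s3 δ3 δ3p,
    B.closing p H.inp.1 H.inp.2.1 _ hs hc m m0, B.closing p' H.inp'.1 H.inp'.2.1 _ hs hc m m0]
    with n g1 g2 g3 t1 t2 t3 cl cl'
  obtain ⟨aa, N, hN, la, ea, pa⟩ := cl
  obtain ⟨bb, N', hN', lb, eb, pb⟩ := cl'
  obtain ⟨a', ca, ha'⟩ := ext_lip_inj la
  obtain ⟨b', cb, hb'⟩ := ext_lip_inj lb
  have sa := side_inj hτ hτ' m1 hup hsp la ea ha'
  have sb := side_inj hτ hτ' m1 hup' hsp' lb eb hb'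
  obtain ⟨i1, e1, y1⟩ := hμ n
  obtain ⟨i2, e2⟩ := hν n
  obtain ⟨i3, ac, hu⟩ := hκ n
  obtain ⟨i4, ac'⟩ := hκ' n
  obtain ⟨w1', hw1, z1⟩ := exists_gen_inj (Fs n) e2 ac' t1 j'
  obtain ⟨w3', hw3, z3⟩ := exists_gen_inj (Fs n) e2 ac' t3 j'
  obtain ⟨bot, cbot, hbot⟩ := g1 w1' hw1
  obtain ⟨top, ctop, htop⟩ := g3 w3' hw3
  have sbot : ∀ r ∈ Icc (-τ) τ, |bot r| ≤ 0.55 * τ := fun r hr => by
    have h5 : |bot r| ≤ |bot r - h1 r| + |h1 r| := by simpa using abs_add_le (bot r - h1 r) (h1 r)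
    linarith [(hbot r hr).1, cr1.small r hr]
  have stop : ∀ r ∈ Icc (-τ) τ, |top r| ≤ 0.55 * τ := fun r hr => by
    have h5 : |top r| ≤ |top r - h3 r| + |h3 r| := by simpa using abs_add_le (top r - h3 r) (h3 r)
    linarith [(htop r hr).1, cr3.small r hr]
  obtain ⟨K', -, hK'⟩ := UAll.ucur (Fs n) hp hε hα.le
  have hsubρ : ∀ r ∈ Icc (-τ) τ, r ∈ Icc (-ρ) ρ := fun r hr =>
    ⟨by linarith [hr.1], by linarith [hr.2]⟩
  refine barrier (Fs n) e1 y1 (K := K') (c := 2 * q.α) (by positivity)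
    (κ := (κs n).restrict (ball w2 δ2)) (fun h => t2 (Measure.restrict_eq_zero.1 h))
    ((Measure.absolutelyContinuous_of_le
      (etaOn_mono Measure.restrict_le_self subset_rfl)).trans ac) (j := j)
    inter_subset_left inter_subset_left v1 v2 (K1 := closedBall y dl)
    (K2 := {z | 0.65 * τ ≤ (B.Φ z).1}) (Q := rectInj B τ a' b' bot top)
    (O := {z | 0.6 * τ < (B.Φ z).1})
    (Z := ((Fs n).f^[j'] ∘ w1'.pt) '' Icc 0 1 ∪ ((Fs n).f^[j'] ∘ w3'.pt) '' Icc 0 1)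
    isClosed_closedBall (isClosed_le continuous_const (by fun_prop))
    (isOpen_rectInj B τ ca cb cbot ctop) (isOpen_lt continuous_const (by fun_prop)) ?_ ?_ ?_ ?_ ?_ ?_
  · intro z hz
    rw [mem_closedBall] at hz
    have n1 : ‖B.Φ z - B.Φ y‖ ≤ m :=
      (B.norm_Φ_sub_le z y).trans ((mul_le_mul_of_nonneg_left hz (by linarith)).trans dl1)
    have n2 : |(B.Φ z).1 - (B.Φ y).1| ≤ m := (norm_fst_le (B.Φ z - B.Φ y)).trans n1
    have n3 : |(B.Φ z).2 - (B.Φ y).2| ≤ m := (norm_snd_le (B.Φ z - B.Φ y)).trans n1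
    have n4 : ‖B.Φ z‖ < τ := by
      have : ‖B.Φ z‖ ≤ ‖B.Φ z - B.Φ y‖ + ‖B.Φ y‖ := by
        simpa using norm_add_le (B.Φ z - B.Φ y) (B.Φ y)
      linarith
    have mu : (B.Φ z).1 ∈ Icc (-τ) τ := abs_le.1 ((norm_fst_le (B.Φ z)).trans n4.le)
    have ms : (B.Φ z).2 ∈ Icc (-τ) τ := abs_le.1 ((norm_snd_le (B.Φ z)).trans n4.le)
    have my : (B.Φ y).1 ∈ Icc (-τ) τ := abs_le.1 ((norm_fst_le (B.Φ y)).trans H.near.2.le)
    have q1 := abs_le.1 (sa _ ms).1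
    have q2 := abs_le.1 (sb _ ms).1
    have q3 := abs_le.1 (hbot _ mu).1
    have q4 := abs_le.1 (htop _ mu).1
    have q5 := abs_le.1 ((cr1.lip _ (hsubρ _ mu) _ (hsubρ _ my)).trans
      (div_le_div_of_nonneg_right n2 (by norm_num)))
    have q6 := abs_le.1 ((cr3.lip _ (hsubρ _ mu) _ (hsubρ _ my)).trans
      (div_le_div_of_nonneg_right n2 (by norm_num)))
    have q7 := abs_sub_le (B.Φ z).2 (B.Φ y).2 (B.Φ p).2
    have q8 := abs_sub_le (B.Φ z).2 (B.Φ y).2 (B.Φ p').2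
    have n2' := abs_le.1 n2
    have n3' := abs_le.1 n3
    refine ⟨?_, n4, ?_, ?_, ?_, ?_⟩
    · linarith [dist_triangle z y x0]
    · linarith [q1.2, n2'.1]
    · linarith [q2.1, n2'.2]
    · linarith [q3.2, q5.2, n3'.1]
    · linarith [q4.1, q6.1, n3'.2]
  · intro z hz
    simp only [mem_ofPred_eq] at hz ⊢
    linarith
  · refine disjoint_left.2 fun z hz hz' => ?_
    obtain ⟨-, d2, -, d4, -, -⟩ := hz
    have ms : (B.Φ z).2 ∈ Icc (-τ) τ := abs_le.1 ((norm_snd_le (B.Φ z)).trans d2.le)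
    have := (abs_le.1 (sb _ ms).2).2
    simp only [mem_ofPred_eq] at hz'
    linarith
  · filter_upwards [ae_restrict_of_ae hu, ae_restrict_mem measurableSet_ball] with w hw hw'
    have hcl := (g2 w hw').1
    refine ⟨hK' w hw, fun t ht => ?_, fun t ht => ?_⟩
    · have h7 : dist (F.f^[j] (w2.pt t)) y < dl / 2 := ht.2
      rw [mem_closedBall]
      linarith [dist_triangle ((Fs n).f^[j] (w.pt t)) (F.f^[j] (w2.pt t)) y, hcl t]
    · have h7 : 0.7 * τ < (B.Φ (F.f^[j] (w2.pt t))).1 := ht.2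
      have h8 := (norm_fst_le _).trans ((B.norm_Φ_sub_le ((Fs n).f^[j] (w.pt t))
        (F.f^[j] (w2.pt t))).trans (mul_le_mul_of_nonneg_left (hcl t) (by linarith)))
      have h9 := (abs_le.1 h8).1
      simp only [Prod.fst_sub] at h9
      change 0.65 * τ ≤ (B.Φ ((Fs n).f^[j] (w.pt t))).1
      linarith
  · intro z hz
    obtain ⟨r, hr, h | h | h | h⟩ := frontier_rectInj B hτ hτ' ca cb cbot ctop
      (fun r hr => (sa r hr).2) (fun r hr => (sb r hr).2) sbot stop hz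
    · refine Or.inr ⟨N, hN, ?_⟩
      rw [h, ha' r (hsubρ r hr)]
      exact pa r (hsubρ r hr)
    · refine Or.inr ⟨N', hN', ?_⟩
      rw [h, hb' r (hsubρ r hr)]
      exact pb r (hsubρ r hr)
    · obtain ⟨t, ht, e⟩ := (hbot r hr).2
      exact Or.inl (Or.inl ⟨t, ht, e.trans h.symm⟩)
    · obtain ⟨t, ht, e⟩ := (htop r hr).2
      exact Or.inl (Or.inr ⟨t, ht, e.trans h.symm⟩)
  · rw [union_sdiff_distrib]
    exact measure_union_null z1 z3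

theorem inj {Fs : ℕ → Dif A} {F : Dif A} (hc : A.Conv1 (fun n => (Fs n).f) F.f)
    {q : Prm} (hp : 1 ≤ q.p) (hε : 0 < q.ε) (hα : 0 < q.α) {μs νs : ℕ → Measure X}
    (hμ : ∀ n, IsProbabilityMeasure (μs n) ∧ Ergodic (Fs n).f (μs n) ∧
      ∀ᵐ x ∂μs n, 0 < l1 (A.coc (Fs n).f) x ∧ l2 (A.coc (Fs n).f) x < 0)
    (hν : ∀ n, IsProbabilityMeasure (νs n) ∧ Ergodic (Fs n).f (νs n))
    {κs κs' : ℕ → Measure (Cv A q.ε)}
    (hκ : ∀ n, IsFiniteMeasure (κs n) ∧ eta (κs n) ≪ μs n ∧ ∀ᵐ w ∂κs n, UAll (Fs n) q w)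
    (hκ' : ∀ n, IsFiniteMeasure (κs' n) ∧ eta (κs' n) ≪ νs n)
    {κ κ' : Measure (Cv A q.ε)} [IsFiniteMeasure κ] [IsFiniteMeasure κ']
    (lim : ∀ U, IsOpen U → κ U ≠ 0 → ∀ᶠ n in atTop, κs n U ≠ 0)
    (lim' : ∀ U, IsOpen U → κ' U ≠ 0 → ∀ᶠ n in atTop, κs' n U ≠ 0)
    (hu : ∀ᵐ w ∂κ, UAll F q w) (hu' : ∀ᵐ w ∂κ', UAll F q w)
    {ξ : Measure X} [IsProbabilityMeasure ξ] (hξ : Ergodic F.f ξ)
    (hy : ∀ᵐ x ∂ξ, 0 < l1 (A.coc F.f) x ∧ l2 (A.coc F.f) x < 0) {S S' : Set (Cv A q.ε)}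
    (h0 : κ S ≠ 0) (h0' : κ' S' ≠ 0) (ac : eta (κ.restrict S) ≪ ξ)
    (ac' : eta (κ'.restrict S') ≪ ξ) : ∀ᶠ n in atTop, μs n = νs n := by
  obtain ⟨K', -, hK'⟩ := UAll.ucur F hp hε hα.le
  have key : ∀ (κ : Measure (Cv A q.ε)) (S : Set (Cv A q.ε)), (∀ᵐ w ∂κ, UAll F q w) →
      ∀ᵐ w ∂κ.restrict S, w ∈ κ.support ∩ {w | UAll F q w} := fun κ S h =>
    ae_restrict_of_ae (Filter.Eventually.and Measure.support_mem_ae h)
  obtain ⟨Λ, x0, ρ, K, c, ε0, B, τ, j, j', w1, w2, w3, h1, h3, p, p', y, m1, m2, m3, H⟩ :=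
    exists_cfg F hξ hy (K' := K') (c' := 2 * q.α) (by positivity)
      (Measure.isClosed_support.inter (isClosed_uall F q))
      (Measure.isClosed_support.inter (isClosed_uall F q))
      (fun w hw => hK' w hw.2) (fun w hw => hK' w hw.2)
      (fun h => h0 (Measure.restrict_eq_zero.1 h)) (fun h => h0' (Measure.restrict_eq_zero.1 h))
      (key κ S hu) (key κ' S' hu') ac ac'
  exact H.eventually_eq hc hp hε hα hμ hν hκ hκ'
    (fun δ hδ => lim' _ isOpen_ball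
      ((Measure.mem_support_iff_forall _).1 m1.1 _ (ball_mem_nhds _ hδ)).ne')
    (fun δ hδ => lim _ isOpen_ball
      ((Measure.mem_support_iff_forall _).1 m2.1 _ (ball_mem_nhds _ hδ)).ne')
    (fun δ hδ => lim' _ isOpen_ball
      ((Measure.mem_support_iff_forall _).1 m3.1 _ (ball_mem_nhds _ hδ)).ne')

end Pool.Agent.Lib.MP_e7c912_an
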