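import Pool.Agent.Lib.MP_e7c912_an.H60SLem

/-! Limits of unstable states. -/

namespace Pool.Agent.Lib.MP_e7c912_an

open MeasureTheory Filter Metric Set Topology
open scoped ENNReal

variable {X : Type} [MetricSpace X] [CompactSpace X] [MeasurableSpace X] [BorelSpace X]
  {A : Atlas X} {q : Prm}

theorem exists_subseq {ι : Type} [Finite ι] {ε : ℝ} (Ps : ℕ → ι → ProbabilityMeasure (Om A ε)) :
    ∃ (s : ℕ → ℕ) (P : ι → ProbabilityMeasure (Om A ε)), StrictMono s ∧
      ∀ i, Tendsto (fun n => Ps (s n) i) atTop (𝓝 (P i)) := by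
  obtain ⟨P, s, hs, h⟩ := CompactSpace.tendsto_subseq Ps
  exact ⟨s, P, hs, tendsto_pi_nhds.1 h⟩

theorem AState.subseq {Fs : ℕ → Dif A} {b : ℝ} {Ps : ℕ → ProbabilityMeasure (Om A q.ε)}
    (h : AState Fs q b Ps) {s : ℕ → ℕ} (hs : Tendsto s atTop atTop) :
    AState (fun n => Fs (s n)) q b (fun n => Ps (s n)) :=
  ⟨fun φ => (h.inv φ).comp hs, fun n => h.con (s n), fun j => (h.uc j).comp hs,
    fun n => h.link (s n), fun γ hγ => hs.eventually (h.low γ hγ),
    fun M hM γ hγ => hs.eventually (h.gap M hM γ hγ)⟩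

theorem astate_of_ustate {Fs : ℕ → Dif A} {bs : ℕ → ℝ} {b : ℝ}
    {Ps : ℕ → ProbabilityMeasure (Om A q.ε)} (h : ∀ n, UState (Fs n) q (bs n) (Ps n))
    (hb : Tendsto bs atTop (𝓝 b)) : AState Fs q b Ps := by
  refine ⟨fun φ => ?_, fun n => (h n).con.mono fun ω hω => hω.1, fun j => ?_, fun n => (h n).link,
    fun γ hγ => ?_, fun M hM γ hγ => Eventually.of_forall fun n => ?_⟩
  · refine tendsto_const_nhds.congr fun n => (sub_eq_zero.2 ?_).symm
    rw [← integral_map (h n).inv.measurable.aemeasurable φ.continuous.aestronglyMeasurable,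
      (h n).inv.map_eq]
  · exact tendsto_const_nhds.congr fun n => ((h n).con.mono fun ω hω => hω.2 j).symm
  · have h1 : Tendsto (fun n => (q.p : ℝ) * bs n) atTop (𝓝 (q.p * b)) := hb.const_mul _
    filter_upwards [h1.eventually (lt_mem_nhds (sub_lt_self _ hγ))] with n hn
    exact hn.le.trans (h n).low
  · exact ((h n).gap M hM).trans (le_add_of_nonneg_right hγ.le)

theorem tendsto_integral_lim {ε : ℝ} {Ps : ℕ → ProbabilityMeasure (Om A ε)}
    {P : ProbabilityMeasure (Om A ε)} (hP : Tendsto Ps atTop (𝓝 P)) {φ : Om A ε → ℝ}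
    (hφ : Continuous φ) : Tendsto (fun n => ∫ ω, φ ω ∂(Ps n : Measure (Om A ε))) atTop
      (𝓝 (∫ ω, φ ω ∂(P : Measure (Om A ε)))) :=
  ProbabilityMeasure.tendsto_iff_forall_integral_tendsto.1 hP
    (BoundedContinuousFunction.mkOfCompact ⟨φ, hφ⟩)

theorem tendsto_setIntegral_lim {ε : ℝ} {Ps : ℕ → ProbabilityMeasure (Om A ε)}
    {P : ProbabilityMeasure (Om A ε)} (hP : Tendsto Ps atTop (𝓝 P)) {φ : Om A ε → ℝ}
    (hφ : Continuous φ) {S : Set (Om A ε)} (hS : IsClopen S) :
    Tendsto (fun n => ∫ ω in S, φ ω ∂(Ps n : Measure (Om A ε))) atTop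
      (𝓝 (∫ ω in S, φ ω ∂(P : Measure (Om A ε)))) := by
  simpa only [integral_indicator hS.isOpen.measurableSet] using
    tendsto_integral_lim hP (hS.continuous_indicator hφ)

theorem isFiniteMeasure_kap_lim {ε : ℝ} (P : Measure (Om A ε)) [IsFiniteMeasure P] :
    IsFiniteMeasure (kap P) := by
  unfold kap
  infer_instance

theorem link_iff_lim {ε : ℝ} (P : Measure (Om A ε)) [IsFiniteMeasure P] :
    (P.restrict (Fl0 A ε)).map Om.xx = eta (kap P) ↔ ∀ φ : C(X, ℝ),
      ∫ ω in Fl0 A ε, φ ω.xx ∂P = ∫ ω in Fl0 A ε, (∫ t in Icc (0 : ℝ) 1, φ (ω.cv.pt t)) ∂P := by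
  have := isFiniteMeasure_kap_lim P
  have := isFiniteMeasure_eta (κ := kap P)
  have h1 : ∀ φ : C(X, ℝ), ∫ x, φ x ∂(P.restrict (Fl0 A ε)).map Om.xx =
      ∫ ω in Fl0 A ε, φ ω.xx ∂P := fun φ =>
    integral_map Om.continuous_xx.measurable.aemeasurable φ.continuous.aestronglyMeasurable
  have h2 : ∀ φ : C(X, ℝ), ∫ x, φ x ∂eta (kap P) =
      ∫ ω in Fl0 A ε, (∫ t in Icc (0 : ℝ) 1, φ (ω.cv.pt t)) ∂P := fun φ => by
    rw [integral_eta, kap, integral_map Om.continuous_cv.measurable.aemeasurable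
      (continuous_integral_pt φ).aestronglyMeasurable]
  refine ⟨fun h φ => by rw [← h1, ← h2, h], fun h => ?_⟩
  exact ext_of_forall_integral_eq_of_IsFiniteMeasure fun φ =>
    (h1 φ.toContinuousMap).trans ((h _).trans (h2 φ.toContinuousMap).symm)

theorem AState.limit {Fs : ℕ → Dif A} {F : Dif A} (hc : A.Conv1 (fun n => (Fs n).f) F.f) {b : ℝ}
    {Ps : ℕ → ProbabilityMeasure (Om A q.ε)} (h : AState Fs q b Ps)
    {P : ProbabilityMeasure (Om A q.ε)} (hP : Tendsto Ps atTop (𝓝 P)) : UState F q b P := by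
  refine ⟨⟨Om.continuous_shift.measurable, ?_⟩, ?_, (link_iff_lim _).2 fun φ => ?_, ?_,
    fun M hM => ?_⟩
  · refine ext_of_forall_integral_eq_of_IsFiniteMeasure fun φ => ?_
    rw [integral_map Om.continuous_shift.measurable.aemeasurable φ.continuous.aestronglyMeasurable]
    exact sub_eq_zero.1 (tendsto_nhds_unique
      ((tendsto_integral_lim hP (φ.continuous.comp Om.continuous_shift)).sub
        (tendsto_integral_lim hP φ.continuous)) (h.inv φ.toContinuousMap))
  · refine Eventually.and ?_ (ae_all_iff.2 fun j => ?_)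
    · exact ae_of_limit hP (W := fun n => {ω | Con (Fs n) q ω})
        (tendsto_const_nhds.congr fun n => (h.con n).symm) fun s y z hs hy hz =>
          Con.limit (Fs := fun n => Fs (s n)) (hc.subseq hs.tendsto_atTop) hz hy
    · exact ae_of_limit hP (h.uc j) fun s y z hs hy hz =>
        UC.limit (Fs := fun n => Fs (s n)) (hc.subseq hs.tendsto_atTop)
          ((Om.continuous_cv.tendsto z).comp hz) hy
  · exact tendsto_nhds_unique
      (tendsto_setIntegral_lim hP (φ.continuous.comp Om.continuous_xx) isClopen_fl0)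
      ((tendsto_setIntegral_lim hP ((continuous_integral_pt φ).comp Om.continuous_cv)
        isClopen_fl0).congr fun n => ((link_iff_lim _).1 (h.link n) φ).symm)
  · refine le_of_forall_pos_le_add fun γ hγ => sub_le_iff_le_add.1 ?_
    exact ge_of_tendsto (tendsto_integral_lim hP (Om.continuous_uu q.Λ 0)) (h.low γ hγ)
  · refine le_of_forall_pos_le_add fun γ hγ => ?_
    have h1 := tendsto_setIntegral_lim hP (continuous_const (y := (1 : ℝ)))
      (isClopen_fl0.inter (isClopen_om M).compl)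
    simp only [setIntegral_const, smul_eq_mul, mul_one] at h1
    exact le_of_tendsto_of_tendsto
      (tendsto_setIntegral_lim hP (Om.continuous_uu q.Λ 0) (isClopen_om M).compl)
      (((h1.const_mul _).add_const _).add_const _) (h.gap M hM γ hγ)

/-- Open sets of curves charged in the limit are charged from some rank on. -/
theorem kap_open {ε : ℝ} {Ps : ℕ → ProbabilityMeasure (Om A ε)} {P : ProbabilityMeasure (Om A ε)}
    (hP : Tendsto Ps atTop (𝓝 P)) {U : Set (Cv A ε)} (hU : IsOpen U)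
    (h0 : kap (P : Measure (Om A ε)) U ≠ 0) :
    ∀ᶠ n in atTop, kap (Ps n : Measure (Om A ε)) U ≠ 0 := by
  have hO := hU.preimage (Om.continuous_cv (A := A) (ε := ε))
  have h1 : ∀ Q : Measure (Om A ε), kap Q U = Q (Om.cv ⁻¹' U ∩ Fl0 A ε) := fun Q => by
    rw [kap, Measure.map_apply Om.continuous_cv.measurable hU.measurableSet,
      Measure.restrict_apply hO.measurableSet]
  simp only [h1] at h0 ⊢
  have h2 := ProbabilityMeasure.le_liminf_measure_open_of_tendsto hP (hO.inter isClopen_fl0.isOpen)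
  exact (eventually_lt_of_lt_liminf ((pos_iff_ne_zero.2 h0).trans_le h2)).mono fun n hn => hn.ne'

theorem isFiniteMeasure_kap {ε : ℝ} (P : Measure (Om A ε)) [IsFiniteMeasure P] :
    IsFiniteMeasure (kap P) := isFiniteMeasure_kap_lim P

theorem UState.ae_uall {F : Dif A} {b : ℝ} {P : Measure (Om A q.ε)} (h : UState F q b P) :
    ∀ᵐ w ∂kap P, UAll F q w ∧ LV F q w := by
  refine (ae_map_iff Om.continuous_cv.measurable.aemeasurable
    ((isClosed_uall F q).inter (isClosed_lv F q)).measurableSet).2 ?_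
  filter_upwards [ae_restrict_of_ae h.con, ae_restrict_mem isClopen_fl0.isOpen.measurableSet]
    with ω h1 h2
  exact ⟨⟨h1.1.2.2.1 h2, h1.2⟩, h1.1.2.2.2⟩

end Pool.Agent.Lib.MP_e7c912_an
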