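import Pool.Agent.Lib.MP_e7c912_an.H60Atlas

/-! Sequences of nearly linear hyperbolic maps of the plane. -/

namespace Pool.Agent.Lib.MP_e7c912_an

open MeasureTheory Filter Metric Set Topology

/-- Composition of the first `n` maps. -/
def It (F : ℕ → V → V) : ℕ → V → V
  | 0, z => z
  | n + 1, z => F n (It F n z)

/-- The orbit of `z` stays in the boxes. -/
def Stay (F : ℕ → V → V) (r : ℕ → ℝ) (z : V) : Prop := ∀ k, ‖It F k z‖ ≤ r k

/-- Expansion `L`, nonlinearity `η`, variation `E` of the sizes. -/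
structure Par (L η E : ℝ) : Prop where
  one_le : 1 ≤ E
  pos : 0 < η
  h1 : E + 100 * η ≤ L
  h2 : (L⁻¹ + 100 * η) * E ^ 3 ≤ 1

structure Hyp (F : ℕ → V → V) (a b r : ℕ → ℝ) (L η E : ℝ) : Prop where
  pos : ∀ k, 0 < r k
  up : ∀ k, r (k + 1) ≤ E * r k
  down : ∀ k, r k ≤ E * r (k + 1)
  a_ge : ∀ k, L ≤ |a k|
  b_le : ∀ k, |b k| ≤ L⁻¹
  lip : ∀ k z z', ‖z‖ ≤ r k → ‖z'‖ ≤ r k →
    ‖F k z - F k z' - diag (a k) (b k) (z - z')‖ ≤ η * ‖z - z'‖
  zero : ∀ k, ‖F k 0‖ ≤ η * r k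

variable {F : ℕ → V → V} {a b r : ℕ → ℝ} {L η E : ℝ}

theorem exists_par {χ c0 : ℝ} (hχ : 0 < χ) (hc : 0 < c0) :
    ∃ δ η : ℝ, 0 < δ ∧ 2 * δ ≤ c0 ∧ Par (Real.exp χ) η (Real.exp (2 * δ)) := by
  obtain ⟨δ, h0, h1, h2⟩ : ∃ δ : ℝ, 0 < δ ∧ 2 * δ ≤ c0 ∧ 12 * δ ≤ χ :=
    ⟨min (c0 / 2) (χ / 12), lt_min (by linarith) (by linarith),
      by linarith [min_le_left (c0 / 2) (χ / 12)], by linarith [min_le_right (c0 / 2) (χ / 12)]⟩
  have a1 : Real.exp (2 * δ) < Real.exp χ := Real.exp_lt_exp.2 (by linarith)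
  have a2 : Real.exp (-χ) < Real.exp (-(6 * δ)) := Real.exp_lt_exp.2 (by linarith)
  have m1 := min_le_left (Real.exp χ - Real.exp (2 * δ)) (Real.exp (-(6 * δ)) - Real.exp (-χ))
  have m2 := min_le_right (Real.exp χ - Real.exp (2 * δ)) (Real.exp (-(6 * δ)) - Real.exp (-χ))
  refine ⟨δ, min (Real.exp χ - Real.exp (2 * δ)) (Real.exp (-(6 * δ)) - Real.exp (-χ)) / 100, h0,
    h1, Real.one_le_exp (by linarith), div_pos (lt_min (by linarith) (by linarith)) (by norm_num),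
    by linarith, ?_⟩
  have e : Real.exp (-(6 * δ)) * Real.exp (2 * δ) ^ 3 = 1 := by
    rw [← Real.exp_nat_mul, ← Real.exp_add, Real.exp_eq_one_iff]
    push_cast
    ring
  rw [← e, ← Real.exp_neg]
  exact mul_le_mul_of_nonneg_right (by linarith) (by positivity)

theorem Par.inv_pos_loc1 (hp : Par L η E) : 0 < L⁻¹ :=
  inv_pos.2 (by linarith [hp.h1, hp.one_le, hp.pos])

theorem Par.mul_le_loc1 (hp : Par L η E) : (L⁻¹ + 100 * η) * E ≤ 1 := by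
  refine le_trans (mul_le_mul_of_nonneg_left (le_self_pow₀ hp.one_le (by norm_num)) ?_) hp.h2
  linarith [hp.inv_pos_loc1, hp.pos]

theorem Par.le_one_loc1 (hp : Par L η E) : L⁻¹ + 100 * η ≤ 1 :=
  (le_mul_of_one_le_right (by linarith [hp.inv_pos_loc1, hp.pos]) hp.one_le).trans hp.mul_le_loc1

theorem abs_fst_le_loc1 (z : V) : |z.1| ≤ ‖z‖ := norm_fst_le z

theorem abs_snd_le_loc1 (z : V) : |z.2| ≤ ‖z‖ := norm_snd_le z

theorem norm_le_loc1 {z : V} {c : ℝ} (h1 : |z.1| ≤ c) (h2 : |z.2| ≤ c) : ‖z‖ ≤ c :=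
  max_le h1 h2

theorem Hyp.step_loc1 (h : Hyp F a b r L η E) (k : ℕ) {z z' : V} (hz : ‖z‖ ≤ r k)
    (hz' : ‖z'‖ ≤ r k) : |(F k z - F k z').1 - a k * (z - z').1| ≤ η * ‖z - z'‖ ∧
      |(F k z - F k z').2 - b k * (z - z').2| ≤ η * ‖z - z'‖ :=
  ⟨(abs_fst_le_loc1 (F k z - F k z' - diag (a k) (b k) (z - z'))).trans (h.lip k z z' hz hz'),
    (abs_snd_le_loc1 (F k z - F k z' - diag (a k) (b k) (z - z'))).trans (h.lip k z z' hz hz')⟩

theorem Hyp.step0_loc1 (hp : Par L η E) (h : Hyp F a b r L η E) (k : ℕ) {z : V} (hz : ‖z‖ ≤ r k) :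
    |(F k z).1 - a k * z.1| ≤ 2 * (η * r k) ∧ |(F k z).2 - b k * z.2| ≤ 2 * (η * r k) := by
  obtain ⟨h1, h2⟩ := h.step_loc1 k hz (z' := 0) (by simpa using (h.pos k).le)
  have h3 := abs_le.1 ((abs_fst_le_loc1 _).trans (h.zero k))
  have h4 := abs_le.1 ((abs_snd_le_loc1 _).trans (h.zero k))
  have h5 := mul_le_mul_of_nonneg_left hz hp.pos.le
  rw [sub_zero] at h1 h2
  simp only [Prod.fst_sub, Prod.snd_sub] at h1 h2
  rw [abs_le] at h1 h2
  exact ⟨abs_le.2 ⟨by linarith, by linarith⟩, abs_le.2 ⟨by linarith, by linarith⟩⟩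

theorem Hyp.continuousOn_loc1 (hp : Par L η E) (h : Hyp F a b r L η E) (k : ℕ) :
    ContinuousOn (F k) (closedBall 0 (r k)) := by
  have : LipschitzOnWith ⟨η, hp.pos.le⟩ (fun z => F k z - diag (a k) (b k) z)
      (closedBall 0 (r k)) := LipschitzOnWith.of_dist_le_mul fun z hz z' hz' => by
    have := h.lip k z z' (mem_closedBall_zero_iff.1 hz) (mem_closedBall_zero_iff.1 hz')
    rw [map_sub, sub_sub_sub_comm] at this
    rw [dist_eq_norm, dist_eq_norm]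
    exact this
  exact (this.continuousOn.add (diag (a k) (b k)).continuous.continuousOn).congr
    fun z _ => by simp only [Pi.add_apply, sub_add_cancel]

theorem exists_sub_loc1 {g : ℝ → ℝ} {α β ρ : ℝ} (hρ : 0 ≤ ρ) (hαβ : α ≤ β)
    (hc : ContinuousOn g (Icc α β)) (h0 : g α ≤ -ρ) (h1 : ρ ≤ g β) :
    ∃ α' β', α ≤ α' ∧ α' ≤ β' ∧ β' ≤ β ∧ g α' = -ρ ∧ g β' = ρ ∧ ∀ t ∈ Icc α' β', |g t| ≤ ρ := by
  have cpt : ∀ {s t : ℝ} (c : ℝ), α ≤ s → t ≤ β → IsCompact (Icc s t ∩ g ⁻¹' {c}) :=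
    fun c hs ht => isCompact_Icc.of_isClosed_subset
      ((hc.mono (Icc_subset_Icc hs ht)).preimage_isClosed_of_isClosed isClosed_Icc
        isClosed_singleton) inter_subset_left
  have ivt : ∀ {s t c : ℝ}, α ≤ s → s ≤ t → t ≤ β → g s ≤ c → c ≤ g t →
      (Icc s t ∩ g ⁻¹' {c}).Nonempty := fun hs hst ht k1 k2 =>
    intermediate_value_Icc hst (hc.mono (Icc_subset_Icc hs ht)) ⟨k1, k2⟩
  obtain ⟨α', ⟨⟨a1, a2⟩, a3⟩, a4⟩ := (cpt (-ρ) le_rfl le_rfl).exists_isGreatest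
    (ivt le_rfl hαβ le_rfl h0 (by linarith))
  have a3' : g α' = -ρ := a3
  obtain ⟨β', ⟨⟨b1, b2⟩, b3⟩, b4⟩ := (cpt ρ a1 le_rfl).exists_isLeast
    (ivt a1 a2 le_rfl (by linarith) h1)
  have b3' : g β' = ρ := b3
  refine ⟨α', β', a1, b1, b2, a3', b3', fun t ⟨t1, t2⟩ => abs_le.2 ⟨?_, ?_⟩⟩
  · by_contra hn
    obtain ⟨s, ⟨s1, s2⟩, s3⟩ := ivt (a1.trans t1) (t2.trans b2) le_rfl (not_le.1 hn).le
      (by linarith)
    have : t = α' := le_antisymm (s1.trans (a4 ⟨⟨a1.trans (t1.trans s1), s2⟩, s3⟩)) t1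
    exact hn (by rw [this, a3'])
  · by_contra hn
    obtain ⟨s, ⟨s1, s2⟩, s3⟩ := ivt (c := ρ) a1 t1 (t2.trans b2) (by linarith) (not_le.1 hn).le
    have : t = β' := le_antisymm t2 ((b4 ⟨⟨s1, s2.trans (t2.trans b2)⟩, s3⟩).trans s2)
    exact hn (by rw [this, b3'])

theorem ends_loc1 (hp : Par L η E) (h : Hyp F a b r L η E) (k : ℕ) {z z' : V} (hz : ‖z‖ ≤ r k)
    (hz' : ‖z'‖ ≤ r k) (e : z.1 = -r k) (e' : z'.1 = r k) :
    ((F k z).1 ≤ -r (k + 1) ∧ r (k + 1) ≤ (F k z').1) ∨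
      ((F k z').1 ≤ -r (k + 1) ∧ r (k + 1) ≤ (F k z).1) := by
  have h1 := abs_le.1 (h.step0_loc1 hp k hz).1
  have h2 := abs_le.1 (h.step0_loc1 hp k hz').1
  rw [e] at h1
  rw [e'] at h2
  have h3 := h.up k
  have h4 := mul_le_mul_of_nonneg_right hp.h1 (h.pos k).le
  have h5 := mul_pos hp.pos (h.pos k)
  rcases le_abs.1 (h.a_ge k) with h6 | h6
  · have := mul_le_mul_of_nonneg_right h6 (h.pos k).le
    exact Or.inl ⟨by nlinarith, by nlinarith⟩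
  · have := mul_le_mul_of_nonneg_right h6 (h.pos k).le
    exact Or.inr ⟨by nlinarith, by nlinarith⟩

theorem snd_le_loc1 (hp : Par L η E) (h : Hyp F a b r L η E) (k : ℕ) {z : V} (hz : ‖z‖ ≤ r k) :
    |(F k z).2| ≤ r (k + 1) := by
  have h1 := (h.step0_loc1 hp k hz).2
  have h2 : |b k * z.2| ≤ L⁻¹ * r k := by
    rw [abs_mul]
    exact mul_le_mul (h.b_le k) ((abs_snd_le_loc1 z).trans hz) (abs_nonneg _) hp.inv_pos_loc1.le
  have h3 := abs_sub_abs_le_abs_sub (F k z).2 (b k * z.2)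
  have h4 := mul_le_mul_of_nonneg_left (h.down k)
    (by linarith [hp.inv_pos_loc1, hp.pos] : 0 ≤ L⁻¹ + 100 * η)
  have h5 := mul_le_mul_of_nonneg_right hp.mul_le_loc1 (h.pos (k + 1)).le
  have h6 := mul_pos hp.pos (h.pos k)
  nlinarith

theorem Stay.mono {r' : ℕ → ℝ} {z : V} (h : Stay F r z) (hr : ∀ k, r k ≤ r' k) : Stay F r' z :=
  fun k => (h k).trans (hr k)

/-- A curve crossing the first box contains a point that stays in all boxes. -/
theorem cross (hp : Par L η E) (h : Hyp F a b r L η E) {γ : ℝ → V} {α β : ℝ} (hαβ : α ≤ β)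
    (hc : ContinuousOn γ (Icc α β)) (hs : ∀ t ∈ Icc α β, |(γ t).2| ≤ r 0) (h0 : (γ α).1 ≤ -r 0)
    (h1 : r 0 ≤ (γ β).1) : ∃ t ∈ Icc α β, Stay F r (γ t) := by
  let C : ℕ → Set ℝ := fun n => {t | t ∈ Icc α β ∧ ∀ k < n, ‖It F k (γ t)‖ ≤ r k}
  have C0 : C 0 = Icc α β := by ext t; simp [C]
  have Cs : ∀ n, C (n + 1) = C n ∩ (fun t => It F n (γ t)) ⁻¹' closedBall 0 (r n) := fun n => by
    ext t
    simp only [C, mem_ofPred_eq, mem_inter_iff, mem_preimage, mem_closedBall_zero_iff,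
      Nat.forall_lt_succ_right, and_assoc]
  have cl : ∀ n, IsClosed (C n) ∧ ContinuousOn (fun t => It F n (γ t)) (C n) := fun n => by
    induction n with
    | zero => exact C0 ▸ ⟨isClosed_Icc, hc⟩
    | succ n ih =>
      rw [Cs]
      exact ⟨ih.2.preimage_isClosed_of_isClosed ih.1 isClosed_closedBall,
        (h.continuousOn_loc1 hp n).comp (ih.2.mono inter_subset_left) fun t ht => ht.2⟩
  have ne : ∀ n, ∃ s t, s ≤ t ∧ Icc s t ⊆ C n ∧ (∀ u ∈ Icc s t, |(It F n (γ u)).2| ≤ r n) ∧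
      (((It F n (γ s)).1 ≤ -r n ∧ r n ≤ (It F n (γ t)).1) ∨
        ((It F n (γ t)).1 ≤ -r n ∧ r n ≤ (It F n (γ s)).1)) := fun n => by
    induction n with
    | zero => exact ⟨α, β, hαβ, C0.ge, hs, Or.inl ⟨h0, h1⟩⟩
    | succ n ih =>
      obtain ⟨s, t, st, sub, sn, en⟩ := ih
      have ct := continuous_fst.comp_continuousOn ((cl n).2.mono sub)
      have fin : ∀ s' t', s ≤ s' → t' ≤ t → (∀ u ∈ Icc s' t', |(It F n (γ u)).1| ≤ r n) →
          ∀ u ∈ Icc s' t', ‖It F n (γ u)‖ ≤ r n := fun s' t' k1 k2 k3 u hu =>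
        norm_le_loc1 (k3 u hu) (sn u (Icc_subset_Icc k1 k2 hu))
      rcases en with en | en
      · obtain ⟨s', t', k1, k2, k3, k4, k5, k6⟩ := exists_sub_loc1 (h.pos n).le st ct en.1 en.2
        have k7 := fin s' t' k1 k3 k6
        refine ⟨s', t', k2, fun u hu => ?_, fun u hu => snd_le_loc1 hp h n (k7 u hu),
          ends_loc1 hp h n (k7 s' ⟨le_rfl, k2⟩) (k7 t' ⟨k2, le_rfl⟩) k4 k5⟩
        exact Cs n ▸ ⟨sub (Icc_subset_Icc k1 k3 hu), mem_closedBall_zero_iff.2 (k7 u hu)⟩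
      · obtain ⟨s', t', k1, k2, k3, k4, k5, k6⟩ := exists_sub_loc1 (h.pos n).le st ct.neg
          (neg_le_neg en.2) (le_neg.1 en.1)
        have k7 := fin s' t' k1 k3 fun u hu => (abs_neg _).ge.trans (k6 u hu)
        refine ⟨s', t', k2, fun u hu => ?_, fun u hu => snd_le_loc1 hp h n (k7 u hu),
          (ends_loc1 hp h n (k7 t' ⟨k2, le_rfl⟩) (k7 s' ⟨le_rfl, k2⟩) (neg_eq_iff_eq_neg.1 k5)
            (neg_inj.1 k4)).symm⟩
        exact Cs n ▸ ⟨sub (Icc_subset_Icc k1 k3 hu), mem_closedBall_zero_iff.2 (k7 u hu)⟩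
  obtain ⟨t, ht⟩ := IsCompact.nonempty_iInter_of_sequence_nonempty_isCompact_isClosed C
    (fun n => Cs n ▸ inter_subset_left)
    (fun n => by obtain ⟨s, t, st, sub, -⟩ := ne n; exact ⟨s, sub ⟨le_rfl, st⟩⟩)
    (C0 ▸ isCompact_Icc) fun n => (cl n).1
  exact ⟨t, (mem_iInter.1 ht 0).1, fun k => (mem_iInter.1 ht (k + 1)).2 k (Nat.lt_succ_self k)⟩

theorem cone_all_loc1 (hp : Par L η E) (h : Hyp F a b r L η E) {z z' : V} (hz : Stay F r z)
    (hz' : Stay F r z') (k : ℕ) :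
    40 * |(It F k z - It F k z').1| ≤ |(It F k z - It F k z').2| := by
  by_contra hn
  let d : ℕ → V := fun n => It F n z - It F n z'
  have hE := hp.one_le
  have hη := hp.pos
  have hL := hp.h1
  have st : ∀ n, |(d n).2| ≤ 40 * |(d n).1| →
      (L - 40 * η) * |(d n).1| ≤ |(d (n + 1)).1| ∧ |(d (n + 1)).2| ≤ 40 * |(d (n + 1)).1| := by
    intro n hd
    obtain ⟨h1, h2⟩ := h.step_loc1 n (hz n) (hz' n)
    change |(d (n + 1)).1 - a n * (d n).1| ≤ η * ‖d n‖ at h1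
    change |(d (n + 1)).2 - b n * (d n).2| ≤ η * ‖d n‖ at h2
    have x0 := abs_nonneg (d n).1
    have h3 := mul_le_mul_of_nonneg_left (norm_le_loc1 (by linarith) hd) hη.le
    have h4 := abs_sub_abs_le_abs_sub (a n * (d n).1) (d (n + 1)).1
    rw [abs_sub_comm, abs_mul] at h4
    have h5 := mul_le_mul_of_nonneg_right (h.a_ge n) x0
    have h6 := abs_sub_abs_le_abs_sub (d (n + 1)).2 (b n * (d n).2)
    rw [abs_mul] at h6
    have h7 := mul_le_mul (h.b_le n) hd (abs_nonneg _) hp.inv_pos_loc1.le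
    have h8 := mul_le_mul_of_nonneg_right hp.le_one_loc1 x0
    have h9 := mul_le_mul_of_nonneg_right (by linarith : 1 ≤ L - 40 * η) x0
    have h10 := mul_nonneg hη.le x0
    exact ⟨by linarith, by linarith⟩
  have q1 : 1 < (L - 40 * η) / E := (one_lt_div (by linarith)).2 (by linarith)
  have x0 : 0 < |(d k).1| := by
    have := abs_nonneg (d k).2
    change ¬ 40 * |(d k).1| ≤ |(d k).2| at hn
    linarith
  have gr : ∀ n, |(d (k + n)).2| ≤ 40 * |(d (k + n)).1| ∧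
      ((L - 40 * η) / E) ^ n * |(d k).1| * r (k + n) ≤ |(d (k + n)).1| * r k := fun n => by
    induction n with
    | zero => exact ⟨(not_le.1 hn).le, by simp⟩
    | succ n ih =>
      obtain ⟨h1, h2⟩ := st _ ih.1
      refine ⟨h2, ?_⟩
      calc _ ≤ ((L - 40 * η) / E) ^ (n + 1) * |(d k).1| * (E * r (k + n)) :=
            mul_le_mul_of_nonneg_left (h.up _) (by positivity)
        _ = (L - 40 * η) * (((L - 40 * η) / E) ^ n * |(d k).1| * r (k + n)) := by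
            rw [pow_succ]
            field_simp
        _ ≤ (L - 40 * η) * (|(d (k + n)).1| * r k) :=
            mul_le_mul_of_nonneg_left ih.2 (by linarith)
        _ ≤ _ := by
            rw [← mul_assoc]
            exact mul_le_mul_of_nonneg_right h1 (h.pos k).le
  obtain ⟨n, hn'⟩ := pow_unbounded_of_one_lt (2 * r k / |(d k).1|) q1
  rw [div_lt_iff₀ x0] at hn'
  have h1 : |(d (k + n)).1| ≤ 2 * r (k + n) := by
    have := norm_sub_le_of_le (hz (k + n)) (hz' (k + n))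
    have := abs_fst_le_loc1 (d (k + n))
    change ‖d (k + n)‖ ≤ _ at *
    linarith
  have h2 := mul_le_mul_of_nonneg_right h1 (h.pos k).le
  have h3 := mul_lt_mul_of_pos_right hn' (h.pos (k + n))
  linarith [(gr n).2]

theorem cone (hp : Par L η E) (h : Hyp F a b r L η E) {z z' : V} (hz : Stay F r z)
    (hz' : Stay F r z') : |z.1 - z'.1| ≤ |z.2 - z'.2| / 40 ∧
      ∀ k, ‖It F k z - It F k z'‖ ≤ (L⁻¹ + η) ^ k * ‖z - z'‖ := by
  refine ⟨?_, fun k => ?_⟩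
  · have : 40 * |z.1 - z'.1| ≤ |z.2 - z'.2| := cone_all_loc1 hp h hz hz' 0
    linarith
  induction k with
  | zero => simp [It]
  | succ k ih =>
    have h1 := cone_all_loc1 hp h hz hz' (k + 1)
    have h2 := (h.step_loc1 k (hz k) (hz' k)).2
    have h3 := abs_sub_abs_le_abs_sub (It F (k + 1) z - It F (k + 1) z').2
      (b k * (It F k z - It F k z').2)
    rw [abs_mul] at h3
    have h4 := mul_le_mul (h.b_le k) (abs_snd_le_loc1 (It F k z - It F k z')) (abs_nonneg _)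
      hp.inv_pos_loc1.le
    have h5 := mul_le_mul_of_nonneg_left ih (add_pos hp.inv_pos_loc1 hp.pos).le
    have h6 : |(It F (k + 1) z - It F (k + 1) z').2| ≤ (L⁻¹ + η) ^ (k + 1) * ‖z - z'‖ := by
      change |(It F (k + 1) z - It F (k + 1) z').2 - _| ≤ _ at h2
      rw [pow_succ', mul_assoc]
      linarith
    exact norm_le_loc1 (by linarith [abs_nonneg (It F (k + 1) z - It F (k + 1) z').1]) h6

theorem near_loc1 {Ti : V →L[ℝ] V} (hT : ‖Ti - ContinuousLinearMap.id ℝ V‖ ≤ 1 / 100) (v : V) :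
    |(Ti v).1 - v.1| ≤ ‖v‖ / 100 ∧ |(Ti v).2 - v.2| ≤ ‖v‖ / 100 := by
  have h1 : ‖Ti v - v‖ ≤ ‖v‖ / 100 := by
    have := (Ti - ContinuousLinearMap.id ℝ V).le_of_opNorm_le hT v
    change ‖Ti v - v‖ ≤ _ at this
    linarith
  exact ⟨(abs_fst_le_loc1 (Ti v - v)).trans h1, (abs_snd_le_loc1 (Ti v - v)).trans h1⟩

/-- The cone condition in nearby coordinates. -/
theorem cone_ref (hp : Par L η E) (h : Hyp F a b r L η E) {Ti : V →L[ℝ] V}
    (hT : ‖Ti - ContinuousLinearMap.id ℝ V‖ ≤ 1 / 100) {o z z' : V} (hz : Stay F r (Ti (z - o)))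
    (hz' : Stay F r (Ti (z' - o))) : |z.1 - z'.1| ≤ |z.2 - z'.2| / 10 := by
  have h1 : |(Ti (z - o) - Ti (z' - o)).1| ≤ |(Ti (z - o) - Ti (z' - o)).2| / 40 :=
    (cone hp h hz hz').1
  rw [← map_sub, sub_sub_sub_cancel_right] at h1
  obtain ⟨h2, h3⟩ := near_loc1 hT (z - z')
  have h4 := abs_sub_abs_le_abs_sub (z - z').1 (Ti (z - z')).1
  rw [abs_sub_comm] at h4
  have h5 := abs_sub_abs_le_abs_sub (Ti (z - z')).2 (z - z').2
  have a1 := abs_nonneg (z - z').1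
  have a2 := abs_nonneg (z - z').2
  have h6 : ‖z - z'‖ ≤ |(z - z').1| + |(z - z').2| := norm_le_loc1 (by linarith) (by linarith)
  change |(z - z').1| ≤ |(z - z').2| / 10
  linarith

/-- The stable set is a graph in nearby coordinates. -/
theorem graph (hp : Par L η E) (h : Hyp F a b r L η E) {Ti : V →L[ℝ] V}
    (hT : ‖Ti - ContinuousLinearMap.id ℝ V‖ ≤ 1 / 100) {o : V} {ρ : ℝ} (hρ : r 0 = 2 * ρ)
    (ho : ‖o‖ ≤ ρ / 10) : ∃ w : ℝ → ℝ, (∀ s ∈ Icc (-ρ) ρ, Stay F r (Ti ((w s, s) - o))) ∧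
      ∀ s ∈ Icc (-ρ) ρ, ∀ s' ∈ Icc (-ρ) ρ, |w s - w s'| ≤ |s - s'| / 10 := by
  have r0 := h.pos 0
  have o1 := abs_le.1 ((abs_fst_le_loc1 o).trans ho)
  have o2 := abs_le.1 ((abs_snd_le_loc1 o).trans ho)
  have ex : ∀ s ∈ Icc (-ρ) ρ, ∃ t, Stay F r (Ti ((t, s) - o)) := fun s ⟨s1, s2⟩ => by
    have nb : ∀ t ∈ Icc (-(3 * ρ)) (3 * ρ), ‖((t, s) - o : V)‖ ≤ 4 * ρ := fun t ⟨t1, t2⟩ =>
      norm_le_loc1 (abs_le.2 ⟨by change _ ≤ t - o.1; linarith, by change t - o.1 ≤ _; linarith⟩)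
        (abs_le.2 ⟨by change _ ≤ s - o.2; linarith, by change s - o.2 ≤ _; linarith⟩)
    have m1 : -(3 * ρ) ≤ 3 * ρ := by linarith
    obtain ⟨t, -, ht⟩ := cross hp h (γ := fun t => Ti ((t, s) - o)) m1 (by fun_prop)
      (fun t ht => by
        have k1 := abs_le.1 (near_loc1 hT ((t, s) - o)).2
        have k2 := nb t ht
        change _ ≤ _ - (s - o.2) ∧ _ - (s - o.2) ≤ _ at k1
        exact abs_le.2 ⟨by linarith, by linarith⟩)
      (by
        have k1 := abs_le.1 (near_loc1 hT ((-(3 * ρ), s) - o)).1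
        have k2 := nb _ ⟨le_rfl, m1⟩
        change _ ≤ _ - (-(3 * ρ) - o.1) ∧ _ - (-(3 * ρ) - o.1) ≤ _ at k1
        linarith)
      (by
        have k1 := abs_le.1 (near_loc1 hT ((3 * ρ, s) - o)).1
        have k2 := nb _ ⟨m1, le_rfl⟩
        change _ ≤ _ - (3 * ρ - o.1) ∧ _ - (3 * ρ - o.1) ≤ _ at k1
        linarith)
    exact ⟨t, ht⟩
  choose! w hw using ex
  exact ⟨w, hw, fun s hs s' hs' => cone_ref hp h hT (hw s hs) (hw s' hs')⟩

/-- On the horizontal line through `o` there is a point of the stable set near `o`. -/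
theorem graph_at (hp : Par L η E) (h : Hyp F a b r L η E) {Ti : V →L[ℝ] V}
    (hT : ‖Ti - ContinuousLinearMap.id ℝ V‖ ≤ 1 / 100) (o : V) :
    ∃ u : ℝ, |u - o.1| ≤ 2 * r 0 ∧ Stay F r (Ti ((u, o.2) - o)) := by
  have r0 := h.pos 0
  have nb : ∀ t ∈ Icc (o.1 - 2 * r 0) (o.1 + 2 * r 0), ‖((t, o.2) - o : V)‖ ≤ 2 * r 0 :=
    fun t ⟨t1, t2⟩ =>
      norm_le_loc1 (abs_le.2 ⟨by change _ ≤ t - o.1; linarith, by change t - o.1 ≤ _; linarith⟩)
        (abs_le.2 ⟨by change _ ≤ o.2 - o.2; linarith, by change o.2 - o.2 ≤ _; linarith⟩)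
  have m1 : o.1 - 2 * r 0 ≤ o.1 + 2 * r 0 := by linarith
  obtain ⟨t, ⟨t1, t2⟩, ht⟩ := cross hp h (γ := fun t => Ti ((t, o.2) - o)) m1 (by fun_prop)
    (fun t ht => by
      have k1 := abs_le.1 (near_loc1 hT ((t, o.2) - o)).2
      have k2 := nb t ht
      change _ ≤ _ - (o.2 - o.2) ∧ _ - (o.2 - o.2) ≤ _ at k1
      exact abs_le.2 ⟨by linarith, by linarith⟩)
    (by
      have k1 := abs_le.1 (near_loc1 hT ((o.1 - 2 * r 0, o.2) - o)).1
      have k2 := nb _ ⟨le_rfl, m1⟩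
      change _ ≤ _ - (o.1 - 2 * r 0 - o.1) ∧ _ - (o.1 - 2 * r 0 - o.1) ≤ _ at k1
      linarith)
    (by
      have k1 := abs_le.1 (near_loc1 hT ((o.1 + 2 * r 0, o.2) - o)).1
      have k2 := nb _ ⟨m1, le_rfl⟩
      change _ ≤ _ - (o.1 + 2 * r 0 - o.1) ∧ _ - (o.1 + 2 * r 0 - o.1) ≤ _ at k1
      linarith)
  exact ⟨t, abs_le.2 ⟨by linarith, by linarith⟩, ht⟩

end Pool.Agent.Lib.MP_e7c912_an
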