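import Pool.Agent.Lib.MP_e7c912_an.H60State
import Pool.Agent.Lib.MP_e7c912_an.H60Inj
import Pool.Agent.Lib.MP_e7c912_an.H60Fit

/-! Finiteness and upper semicontinuity in the abstract setting. -/

namespace Pool.Agent.Lib.MP_e7c912_an

open MeasureTheory Filter Metric Set Topology
open scoped ENNReal

variable {X : Type} [MetricSpace X] [CompactSpace X] [MeasurableSpace X] [BorelSpace X]
  {A : Atlas X}

theorem SRB.hyp {F : Dif A} {μ : Measure X} (h : SRB F μ) {b : ℝ} (hb : 0 < b)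
    (hk : ENNReal.ofReal b ≤ ksEntropy μ F.f) :
    ∀ᵐ x ∂μ, 0 < l1 (A.coc F.f) x ∧ l2 (A.coc F.f) x < 0 := by
  have := h.1
  filter_upwards [hyp_of_entropy F h.2.1 hb hk] with x hx
  exact ⟨hb.trans_le hx.1, by linarith [hx.2]⟩

theorem collide {Fs : ℕ → Dif A} {F : Dif A} (hc : A.Conv (fun n => (Fs n).f) F.f) {α b : ℝ}
    (hα : 0 < α) (hb : 5 * α < b) {ι : Type} [Finite ι] {μs : ℕ → ι → Measure X}
    (hμ : ∀ n i, SRB (Fs n) (μs n i) ∧
      ∃ b', b < b' ∧ ENNReal.ofReal b' ≤ ksEntropy (μs n i) (Fs n).f) :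
    ∃ (s : ℕ → ℕ) (ξ : ι → Measure X), StrictMono s ∧
      (∀ i, SRB F (ξ i) ∧ ENNReal.ofReal (b - 5 * α) ≤ ksEntropy (ξ i) F.f) ∧
      ∀ (i i' : ι) (u u' : ℕ → ℕ), Tendsto u atTop atTop → Tendsto u' atTop atTop →
        (∀ n, Fs (s (u' n)) = Fs (s (u n))) → ξ i = ξ i' →
        ∀ᶠ n in atTop, μs (s (u n)) i = μs (s (u' n)) i' := by
  have hb0 : 0 < b := by linarith
  obtain ⟨q, rfl, hp, hε, -, hq⟩ := exists_fit_seq hc hα
  obtain ⟨n0, hn0⟩ := eventually_atTop.1 hq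
  have key : ∀ n i, ∃ P : ProbabilityMeasure (Om A q.ε), UState (Fs (n + n0)) q b P ∧
      eta (kap (P : Measure (Om A q.ε))) ≪ μs (n + n0) i := by
    intro n i
    obtain ⟨h1, b', h2, h3⟩ := hμ (n + n0) i
    have := h1.1
    refine state_of_srb (hn0 _ (Nat.le_add_left _ _)) h1 hb0 h2 ?_
    filter_upwards [hyp_of_entropy _ h1.2.1 (hb0.trans h2) h3] with x hx
    exact ⟨hx.1, by linarith [hx.2]⟩
  choose Ps hU hac using key
  obtain ⟨s, P, hs, hP⟩ := exists_subseq Ps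
  have hs' : StrictMono fun n => s n + n0 := fun a b hab => Nat.add_lt_add_right (hs hab) _
  have hc1 : A.Conv1 (fun n => (Fs (s n + n0)).f) F.f := hc.conv1.subseq hs'.tendsto_atTop
  have hUP : ∀ i, UState F q b (P i) := fun i =>
    (astate_of_ustate (Fs := fun n => Fs (s n + n0)) (bs := fun _ => b) (fun n => hU (s n) i)
      tendsto_const_nhds).limit hc1 (hP i)
  choose ξ S hξ hk hS hSac using fun i => srb_of_state hp hε hα (by linarith) (hUP i)
  refine ⟨fun n => s n + n0, ξ, hs', fun i => ⟨hξ i, hk i⟩, fun i i' u u' hu hu' hF hii => ?_⟩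
  have := (hξ i).1
  have := isFiniteMeasure_kap (P i : Measure (Om A q.ε))
  have := isFiniteMeasure_kap (P i' : Measure (Om A q.ε))
  refine inj (Fs := fun n => Fs (s (u n) + n0)) (hc1.subseq hu) hp hε hα
    (κs := fun n => kap (Ps (s (u n)) i : Measure (Om A q.ε)))
    (κs' := fun n => kap (Ps (s (u' n)) i' : Measure (Om A q.ε))) (fun n => ?_) (fun n => ?_)
    (fun n => ⟨isFiniteMeasure_kap _, hac _ _, (hU _ _).ae_uall.mono fun w hw => hw.1⟩)
    (fun n => ⟨isFiniteMeasure_kap _, hac _ _⟩)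
    (fun U hU' h0 => hu.eventually (kap_open (hP i) hU' h0))
    (fun U hU' h0 => hu'.eventually (kap_open (hP i') hU' h0))
    ((hUP i).ae_uall.mono fun w hw => hw.1) ((hUP i').ae_uall.mono fun w hw => hw.1)
    (hξ i).2.1 ((hξ i).hyp (by linarith) (hk i)) (hS i) (hS i') (hSac i) (hii ▸ hSac i')
  · obtain ⟨h1, b', h2, h3⟩ := hμ (s (u n) + n0) i
    exact ⟨h1.1, h1.2.1, h1.hyp (hb0.trans h2) h3⟩
  · obtain ⟨h1, -⟩ := hμ (s (u' n) + n0) i'
    exact ⟨h1.1, hF n ▸ h1.2.1⟩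

theorem main_fin (F : Dif A) {b : ℝ} (hb : 0 < b) :
    {μ : Measure X | SRB F μ ∧ ENNReal.ofReal b ≤ ksEntropy μ F.f}.Finite := by
  by_contra hinf
  have e := Set.Infinite.natEmbedding _ hinf
  obtain ⟨s, ξ, hs, -, h⟩ := collide (Fs := fun _ => F) (A.conv_const F.f) (α := b / 20)
    (b := b / 2) (by linarith) (by linarith) (ι := Unit) (μs := fun n _ => (e n : Measure X))
    fun n _ => ⟨(e n).2.1, b, by linarith, (e n).2.2⟩
  obtain ⟨n, hn⟩ := (h () () id (fun n => n + 1) tendsto_id (tendsto_add_atTop_nat 1)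
    (fun _ => rfl) rfl).exists
  have := hs.injective (e.injective (Subtype.ext hn))
  simp at this

theorem exists_gap (F : Dif A) {b : ℝ} (hb : 0 < b) : ∃ α : ℝ, 0 < α ∧ 5 * α < b ∧
    ∀ μ, SRB F μ → ENNReal.ofReal (b - 5 * α) ≤ ksEntropy μ F.f →
      ENNReal.ofReal b ≤ ksEntropy μ F.f := by
  have hfin := main_fin F (half_pos hb)
  have hcont : Tendsto (fun α : ℝ => ENNReal.ofReal (b - 5 * α)) (𝓝[>] 0)
      (𝓝 (ENNReal.ofReal b)) := by
    have : Continuous fun α : ℝ => ENNReal.ofReal (b - 5 * α) :=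
      ENNReal.continuous_ofReal.comp (by fun_prop)
    simpa using (this.tendsto 0).mono_left nhdsWithin_le_nhds
  have h1 : ∀ᶠ α in 𝓝[>] (0 : ℝ), ∀ μ ∈ {μ : Measure X | SRB F μ ∧
      ENNReal.ofReal (b / 2) ≤ ksEntropy μ F.f}, ENNReal.ofReal (b - 5 * α) ≤ ksEntropy μ F.f →
      ENNReal.ofReal b ≤ ksEntropy μ F.f := by
    refine (eventually_all_finite hfin).2 fun μ _ => ?_
    by_cases h : ENNReal.ofReal b ≤ ksEntropy μ F.f
    · exact Eventually.of_forall fun _ _ => h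
    · filter_upwards [hcont.eventually (lt_mem_nhds (not_le.1 h))] with α hα h'
      exact absurd h' (not_le.2 hα)
  obtain ⟨α, hα, h2⟩ := (h1.and (Ioo_mem_nhdsGT (show (0 : ℝ) < b / 10 by linarith))).exists
  refine ⟨α, h2.1, by linarith [h2.2], fun μ hμ hk => hα μ ⟨hμ, le_trans ?_ hk⟩ hk⟩
  exact ENNReal.ofReal_le_ofReal (by linarith [h2.2])

theorem main_usc {Fs : ℕ → Dif A} {F : Dif A} (hc : A.Conv (fun n => (Fs n).f) F.f) {b : ℝ}
    (hb : 0 < b) : ∀ᶠ n in atTop,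
      {μ : Measure X | SRB (Fs n) μ ∧ ENNReal.ofReal b < ksEntropy μ (Fs n).f}.encard ≤
        {μ : Measure X | SRB F μ ∧ ENNReal.ofReal b ≤ ksEntropy μ F.f}.encard := by
  classical
  by_contra hne
  have hfin := main_fin F hb
  set T := {μ : Measure X | SRB F μ ∧ ENNReal.ofReal b ≤ ksEntropy μ F.f} with hT
  obtain ⟨α, hα, hαb, hgap⟩ := exists_gap F hb
  obtain ⟨s0, hs0, h0⟩ := extraction_of_frequently_atTop (not_eventually.1 hne)
  have key : ∀ n, ∃ μ : Fin (T.ncard + 1) → Measure X, Function.Injective μ ∧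
      ∀ i, SRB (Fs (s0 n)) (μ i) ∧ ENNReal.ofReal b < ksEntropy (μ i) (Fs (s0 n)).f := by
    intro n
    have h1 := not_le.1 (h0 n)
    rw [← hfin.cast_ncard_eq] at h1
    obtain ⟨t, ht, hcard⟩ := Set.exists_subset_encard_eq (Order.add_one_le_of_lt h1)
    have htf : t.Finite := Set.finite_of_encard_eq_coe (k := T.ncard + 1) (by simpa using hcard)
    have := htf.fintype
    have hc' : Fintype.card t = T.ncard + 1 := by
      rw [Set.encard_eq_coe_toFinset_card, Set.toFinset_card] at hcard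
      exact_mod_cast hcard
    let e := (Fintype.equivFinOfCardEq hc').symm
    exact ⟨fun i => e i, Subtype.val_injective.comp e.injective, fun i => ht (e i).2⟩
  choose μs hinj hμs using key
  obtain ⟨s, ξ, hs, hξ, h⟩ := collide (Fs := fun n => Fs (s0 n)) (hc.subseq hs0.tendsto_atTop) hα
    hαb (μs := μs) fun n i => ⟨(hμs n i).1, by
      obtain ⟨r, h1, h2, h3⟩ := ENNReal.lt_iff_exists_real_btwn.1 (hμs n i).2
      exact ⟨r, (ENNReal.ofReal_lt_ofReal_iff_of_nonneg hb.le).1 h2, h3.le⟩⟩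
  have := hfin.fintype
  have hcard : Fintype.card T < Fintype.card (Fin (T.ncard + 1)) := by
    rw [Fintype.card_fin, Set.ncard_eq_toFinset_card', Set.toFinset_card]
    exact Nat.lt_succ_self _
  obtain ⟨i, i', hii, he⟩ := Fintype.exists_ne_map_eq_of_card_lt
    (fun i => (⟨ξ i, (hξ i).1, hgap _ (hξ i).1 (hξ i).2⟩ : T)) hcard
  obtain ⟨n, hn⟩ := (h i i' id id tendsto_id tendsto_id (fun _ => rfl)
    (congrArg Subtype.val he)).exists
  exact hii (hinj _ hn)

end Pool.Agent.Lib.MP_e7c912_an
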