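import Pool.Agent.Lib.MP_e7c912_an.H60Erg

/-! Linear algebra in the plane and elementary bounds for cocycles. -/

namespace Pool.Agent.Lib.MP_e7c912_an

open MeasureTheory Filter Metric Set Topology
open scoped ENNReal

variable {X : Type} [MeasurableSpace X] {T S : X → X} {M M' : ℕ → X → V →L[ℝ] V} {K : ℝ}

lemma fst_le_o1 (a : V) : |a.1| ≤ ‖a‖ := norm_fst_le a

lemma snd_le_o1 (a : V) : |a.2| ≤ ‖a‖ := norm_snd_le a

lemma norm_o1 (a : V) : ‖a‖ = max |a.1| |a.2| := rfl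

lemma lin_le_o1 (p q : ℝ) (v : V) : |p * v.1 + q * v.2| ≤ (|p| + |q|) * ‖v‖ := by
  refine (abs_add_le _ _).trans ?_
  rw [abs_mul, abs_mul, add_mul]
  gcongr
  exacts [fst_le_o1 v, snd_le_o1 v]

lemma apply_o1 (L : V →L[ℝ] V) (v : V) : L v = ((L (1, 0)).1 * v.1 + (L (0, 1)).1 * v.2,
    (L (1, 0)).2 * v.1 + (L (0, 1)).2 * v.2) := by
  have : v = v.1 • ((1, 0) : V) + v.2 • ((0, 1) : V) := by ext <;> simp
  conv_lhs => rw [this, map_add, map_smul, map_smul]
  ext <;> simp <;> ring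

theorem abs_om_le (a b : V) : |om a b| ≤ 2 * ‖a‖ * ‖b‖ := by
  have h := lin_le_o1 (-a.2) a.1 b
  rw [abs_neg] at h
  have e : om a b = -a.2 * b.1 + a.1 * b.2 := by unfold om; ring
  rw [e]
  refine h.trans ?_
  gcongr
  linarith [fst_le_o1 a, snd_le_o1 a]

theorem om_map (L : V →L[ℝ] V) (a b : V) : om (L a) (L b) = det2 L * om a b := by
  rw [apply_o1 L a, apply_o1 L b]
  simp only [om, det2]
  ring

theorem det2_comp (L L' : V →L[ℝ] V) : det2 (L.comp L') = det2 L * det2 L' :=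
  om_map L _ _

/-- The unit vector killed by a row. -/
noncomputable def rv_o1 (p q : ℝ) : V :=
  if max |p| |q| = 0 then (1, 0) else (-q / max |p| |q|, p / max |p| |q|)

lemma rv_spec_o1 (p q : ℝ) : ‖rv_o1 p q‖ = 1 ∧ p * (rv_o1 p q).1 + q * (rv_o1 p q).2 = 0 ∧
    (∀ r s, |r * (rv_o1 p q).1 + s * (rv_o1 p q).2| * (|p| + |q|) ≤ 2 * |p * s - q * r|) ∧
    ∀ v : V, (|p| + |q|) * |om (rv_o1 p q) v| ≤ 2 * |p * v.1 + q * v.2| := by
  have h1 := le_max_left |p| |q|
  have h2 := le_max_right |p| |q|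
  unfold rv_o1
  split_ifs with h
  · have hp : p = 0 := abs_nonpos_iff.1 (h ▸ h1)
    have hq : q = 0 := abs_nonpos_iff.1 (h ▸ h2)
    subst hp hq
    simp
  · have hm : 0 < max |p| |q| := lt_of_le_of_ne ((abs_nonneg p).trans h1) (Ne.symm h)
    have key : ∀ x : ℝ, abs (x / max |p| |q|) * (|p| + |q|) ≤ 2 * |x| := fun x => by
      rw [abs_div, abs_of_pos hm, div_mul_eq_mul_div, div_le_iff₀ hm]
      nlinarith [abs_nonneg x]
    refine ⟨?_, by ring, fun r s => ?_, fun v => ?_⟩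
    · rw [norm_o1]
      simp only [abs_div, abs_neg, abs_of_pos hm]
      rw [max_div_div_right hm.le, max_comm, div_self h]
    · convert key (p * s - q * r) using 3
      ring
    · have := key (-(p * v.1 + q * v.2))
      rw [abs_neg, mul_comm] at this
      convert this using 3
      simp only [om]
      ring

lemma meas_rv_o1 {Y : Type*} [MeasurableSpace Y] {p q : Y → ℝ} (hp : Measurable p)
    (hq : Measurable q) : Measurable fun y => rv_o1 (p y) (q y) := by
  have hm : Measurable fun y => max |p y| |q y| := hp.abs.max hq.abs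
  exact Measurable.ite (hm (measurableSet_singleton 0)) measurable_const
    ((hq.neg.div hm).prodMk (hp.div hm))

lemma meas_app_o1 (v : V) : Measurable fun L : V →L[ℝ] V => L v :=
  (ContinuousLinearMap.apply ℝ V v).continuous.measurable

/-- The same, with a measurable choice. -/
theorem exists_small_meas : ∃ sm : (V →L[ℝ] V) → V, Measurable sm ∧ ∀ L : V →L[ℝ] V,
    ‖sm L‖ = 1 ∧ ‖L (sm L)‖ * ‖L‖ ≤ 2 * |det2 L| ∧ ∀ v, ‖L‖ * |om (sm L) v| ≤ 2 * ‖L v‖ := by
  refine ⟨fun L => if |(L (1, 0)).2| + |(L (0, 1)).2| ≤ |(L (1, 0)).1| + |(L (0, 1)).1| then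
    rv_o1 (L (1, 0)).1 (L (0, 1)).1 else rv_o1 (L (1, 0)).2 (L (0, 1)).2, ?_, fun L => ?_⟩
  · have h1 := meas_app_o1 (1, 0)
    have h2 := meas_app_o1 (0, 1)
    exact Measurable.ite (measurableSet_le (h1.snd.abs.add h2.snd.abs) (h1.fst.abs.add h2.fst.abs))
      (meas_rv_o1 h1.fst h2.fst) (meas_rv_o1 h1.snd h2.snd)
  have hL : ∀ N, |(L (1, 0)).2| + |(L (0, 1)).2| ≤ N → |(L (1, 0)).1| + |(L (0, 1)).1| ≤ N →
      ‖L‖ ≤ N := fun N h1 h2 => by
    refine L.opNorm_le_bound (le_trans (by positivity) h1) fun v => ?_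
    rw [apply_o1, norm_o1]
    exact max_le ((lin_le_o1 _ _ v).trans (by gcongr)) ((lin_le_o1 _ _ v).trans (by gcongr))
  beta_reduce
  split_ifs with h
  · obtain ⟨e1, e2, e3, e4⟩ := rv_spec_o1 (L (1, 0)).1 (L (0, 1)).1
    have hN := hL _ h le_rfl
    refine ⟨e1, ?_, fun v => ?_⟩
    · rw [apply_o1, norm_o1, e2, abs_zero, max_eq_right (abs_nonneg _)]
      refine le_trans (by gcongr) ((e3 _ _).trans_eq ?_)
      simp only [det2, om]
      ring_nf
    · refine le_trans (by gcongr) ((e4 v).trans ?_)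
      have := fst_le_o1 (L v)
      rw [apply_o1 L v] at this ⊢
      linarith
  · obtain ⟨e1, e2, e3, e4⟩ := rv_spec_o1 (L (1, 0)).2 (L (0, 1)).2
    have hN := hL _ le_rfl (not_le.1 h).le
    refine ⟨e1, ?_, fun v => ?_⟩
    · rw [apply_o1, norm_o1, e2, abs_zero, max_eq_left (abs_nonneg _)]
      refine le_trans (by gcongr) ((e3 _ _).trans_eq ?_)
      rw [abs_sub_comm]
      simp only [det2, om]
      ring_nf
    · refine le_trans (by gcongr) ((e4 v).trans ?_)
      have := snd_le_o1 (L v)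
      rw [apply_o1 L v] at this ⊢
      linarith

/-- A unit vector that is least expanded, up to a constant, and the expansion of the others. -/
theorem exists_small (L : V →L[ℝ] V) : ∃ e : V, ‖e‖ = 1 ∧ ‖L e‖ * ‖L‖ ≤ 2 * |det2 L| ∧
    ∀ v, ‖L‖ * |om e v| ≤ 2 * ‖L v‖ :=
  let ⟨sm, _, h⟩ := exists_small_meas
  ⟨sm L, h L⟩

theorem om_triangle (a b c : V) : |om a c| * ‖b‖ ≤ |om a b| * ‖c‖ + |om b c| * ‖a‖ := by
  have e : om a c • b = om a b • c + om b c • a := by
    ext <;> simp [om] <;> ring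
  have := norm_add_le (om a b • c) (om b c • a)
  rw [← e] at this
  simpa [norm_smul] using this

lemma sq_ge_o1 {e : V} (he : ‖e‖ = 1) : 1 ≤ e.1 ^ 2 + e.2 ^ 2 := by
  rw [norm_o1] at he
  rcases max_choice |e.1| |e.2| with h | h <;> rw [h] at he
  · nlinarith [sq_abs e.1, sq_nonneg e.2]
  · nlinarith [sq_abs e.2, sq_nonneg e.1]

/-- Decomposition along a unit vector and its rotation. -/
theorem exists_decomp {e : V} (he : ‖e‖ = 1) (v : V) :
    ∃ s t : ℝ, |s| ≤ 2 * ‖v‖ ∧ |t| ≤ |om e v| ∧ v = s • e + t • ((-e.2, e.1) : V) := by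
  have h := sq_ge_o1 he
  have hp : 0 < e.1 ^ 2 + e.2 ^ 2 := by linarith
  have key : ∀ x : ℝ, |x / (e.1 ^ 2 + e.2 ^ 2)| ≤ |x| := fun x => by
    rw [abs_div, abs_of_pos hp]
    exact div_le_self (abs_nonneg x) h
  refine ⟨(e.1 * v.1 + e.2 * v.2) / (e.1 ^ 2 + e.2 ^ 2), om e v / (e.1 ^ 2 + e.2 ^ 2),
    (key _).trans ((lin_le_o1 _ _ v).trans ?_), key _, ?_⟩
  · gcongr
    linarith [fst_le_o1 e, snd_le_o1 e]
  · ext <;> simp only [om, Prod.fst_add, Prod.snd_add, Prod.smul_fst, Prod.smul_snd, smul_eq_mul] <;>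
      field_simp <;> ring

theorem parallel_of_om {e v : V} (he : ‖e‖ = 1) (h : om v e = 0) :
    ∃ s : ℝ, |s| = ‖v‖ ∧ v = s • e := by
  obtain ⟨s, t, -, ht, hv⟩ := exists_decomp he v
  have e0 : om e v = 0 := by
    unfold om at h ⊢
    linarith
  rw [e0, abs_zero, abs_nonpos_iff] at ht
  rw [ht, zero_smul, add_zero] at hv
  exact ⟨s, by rw [hv, norm_smul, he, mul_one, Real.norm_eq_abs], hv⟩

theorem measurable_det2 : Measurable det2 :=
  ((meas_app_o1 (1, 0)).fst.mul (meas_app_o1 (0, 1)).snd).sub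
    ((meas_app_o1 (1, 0)).snd.mul (meas_app_o1 (0, 1)).fst)

/-- Every vector is expanded at least by `|det| / (2 ‖L‖)`. -/
theorem det2_mul_le (L : V →L[ℝ] V) (v : V) : |det2 L| * ‖v‖ ≤ 2 * ‖L‖ * ‖L v‖ := by
  have key : ∀ w : V, ‖w‖ = 1 → |det2 L| * |om v w| ≤ 2 * ‖L‖ * ‖L v‖ := fun w hw => by
    rw [← abs_mul, ← om_map]
    have h1 := L.le_opNorm w
    rw [hw, mul_one] at h1
    calc _ ≤ 2 * ‖L v‖ * ‖L w‖ := abs_om_le _ _
      _ ≤ 2 * ‖L v‖ * ‖L‖ := by gcongr
      _ = _ := by ring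
  rw [norm_o1 v]
  rcases max_choice |v.1| |v.2| with h | h <;> rw [h]
  · simpa [om] using key (0, 1) (by simp)
  · simpa [om] using key (1, 0) (by simp)

lemma det2_id_o1 : det2 (ContinuousLinearMap.id ℝ V) = 1 := by simp [det2, om]

lemma det2_le_o1 {L : V →L[ℝ] V} (h : ‖L‖ ≤ K) : |det2 L| ≤ 2 * K ^ 2 := by
  have h1 := L.le_opNorm (1, 0)
  have h2 := L.le_opNorm (0, 1)
  have hK := (norm_nonneg _).trans h
  simp only [Prod.norm_mk, norm_one, norm_zero, zero_le_one, sup_of_le_left, sup_of_le_right,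
    mul_one] at h1 h2
  calc _ ≤ 2 * ‖L (1, 0)‖ * ‖L (0, 1)‖ := abs_om_le _ _
    _ ≤ 2 * K * K := by gcongr <;> linarith
    _ = _ := by ring

lemma div_le_o1 {u : ℕ → ℝ} {C : ℝ} (hC : 0 ≤ C) (h : ∀ n, |u n| ≤ C * n) (n : ℕ) :
    |u n / n| ≤ C := by
  rcases Nat.eq_zero_or_pos n with rfl | hn
  · simpa using hC
  · have : (0 : ℝ) < n := by exact_mod_cast hn
    rw [abs_div, abs_of_pos this, div_le_iff₀ this]
    exact h n

lemma abs_limsup_o1 {a : ℕ → ℝ} {C : ℝ} (h : ∀ n, |a n| ≤ C) : |limsup a atTop| ≤ C :=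
  abs_le.2 ⟨le_limsup_of_frequently_le (Frequently.of_forall fun n => (abs_le.1 (h n)).1)
      (isBoundedUnder_of ⟨C, fun n => (abs_le.1 (h n)).2⟩),
    limsup_le_of_le (isCoboundedUnder_le_of_le _ fun n => (abs_le.1 (h n)).1)
      (Eventually.of_forall fun n => (abs_le.1 (h n)).2)⟩

lemma limsup_le_o1 {a b : ℕ → ℝ} {C : ℝ} (h : ∀ n, |a n| ≤ C)
    (hb : Tendsto (fun n => b n - a n) atTop (𝓝 0)) : limsup b atTop ≤ limsup a atTop := by
  have := limsup_add_le (f := atTop) (u := a) (v := fun n => b n - a n)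
    (isBoundedUnder_of ⟨-C, fun n => (abs_le.1 (h n)).1⟩)
    (isBoundedUnder_of ⟨C, fun n => (abs_le.1 (h n)).2⟩) hb.isCoboundedUnder_le hb.isBoundedUnder_le
  rw [hb.limsup_eq, add_zero] at this
  rwa [show (a + fun n => b n - a n) = b from funext fun n => by simp] at this

lemma limsup_shift_o1 {u u' : ℕ → ℝ} {C : ℝ} (hC : 0 ≤ C) (h : ∀ n, |u n| ≤ C * n)
    (h' : ∀ n, |u' n| ≤ C * n) (hd : ∀ n, |u' n - u (n + 1)| ≤ C) :
    limsup (fun n : ℕ => u' n / n) atTop = limsup (fun n : ℕ => u n / n) atTop := by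
  rw [← limsup_nat_add (fun n : ℕ => u n / n) 1]
  have ha := fun n => div_le_o1 hC h (n + 1)
  have ht : Tendsto (fun n : ℕ => u' n / n - u (n + 1) / ((n + 1 : ℕ) : ℝ)) atTop (𝓝 0) := by
    refine squeeze_zero_norm' ?_ (tendsto_const_div_atTop_nhds_zero_nat (2 * C))
    filter_upwards [eventually_gt_atTop 0] with n hn
    have hn' : (0 : ℝ) < n := by exact_mod_cast hn
    have e : u' n / n - u (n + 1) / ((n + 1 : ℕ) : ℝ) =
        (u' n - u (n + 1) + u (n + 1) / ((n + 1 : ℕ) : ℝ)) / n := by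
      push_cast
      field_simp
      ring
    rw [e, Real.norm_eq_abs, abs_div, abs_of_pos hn']
    gcongr
    linarith [abs_add_le (u' n - u (n + 1)) (u (n + 1) / ((n + 1 : ℕ) : ℝ)), hd n, ha n]
  refine le_antisymm (limsup_le_o1 ha ht) (limsup_le_o1 (div_le_o1 hC h') ?_)
  simpa using ht.neg

lemma abs_log_o1 {x y B : ℝ} (hx : 0 < x) (hy : 0 < y) (hB : 0 < B) (h : x ≤ B * y)
    (h' : y ≤ B * x) : |Real.log x - Real.log y| ≤ Real.log B := by
  have h1 := Real.log_le_log hx h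
  have h2 := Real.log_le_log hy h'
  rw [Real.log_mul hB.ne' (by positivity)] at h1 h2
  rw [abs_le]
  constructor <;> linarith

lemma Cocycle.norm_le_o1 (h : Cocycle T S M M' K) (n : ℕ) : ∀ x, ‖M n x‖ ≤ K ^ n := by
  induction n with
  | zero => exact fun x => by rw [h.zero, pow_zero]; exact ContinuousLinearMap.norm_id_le
  | succ n ih =>
    intro x
    have hK := zero_le_one.trans h.one_le
    rw [h.add, pow_succ']
    exact (ContinuousLinearMap.opNorm_comp_le _ _).trans (mul_le_mul (h.le _) (ih x)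
      (norm_nonneg _) hK)

lemma Cocycle.det_le_o1 (h : Cocycle T S M M' K) (n : ℕ) :
    ∀ x, |det2 (M n x)| ≤ (2 * K ^ 2) ^ n := by
  induction n with
  | zero => exact fun x => by simp [h.zero, det2_id_o1]
  | succ n ih =>
    intro x
    rw [h.add, pow_succ', det2_comp, abs_mul]
    exact mul_le_mul (det2_le_o1 (h.le _)) (ih x) (abs_nonneg _) (by positivity)

lemma Cocycle.det_mul_o1 (h : Cocycle T S M M' K) (n : ℕ) (x : X) :
    det2 (M' n (T^[n] x)) * det2 (M n x) = 1 := by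
  rw [← det2_comp, h.inv, det2_id_o1]

lemma Cocycle.one_le_o1 (h : Cocycle T S M M' K) (n : ℕ) (x : X) : 1 ≤ K ^ n * ‖M n x‖ := by
  have := ContinuousLinearMap.opNorm_comp_le (M' n (T^[n] x)) (M n x)
  rw [h.inv, ContinuousLinearMap.norm_id] at this
  exact this.trans (by gcongr; exact h.symm.norm_le_o1 n _)

lemma Cocycle.pos_o1 (h : Cocycle T S M M' K) (n : ℕ) (x : X) : 0 < ‖M n x‖ := by
  refine (norm_nonneg _).lt_of_ne fun h0 => ?_
  have := h.one_le_o1 n x
  rw [← h0] at this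
  linarith

lemma Cocycle.succ_o1 (h : Cocycle T S M M' K) (n : ℕ) (x : X) :
    M (n + 1) x = (M n (T x)).comp (M 1 x) := by
  rw [add_comm, h.add, Function.iterate_one]

lemma Cocycle.pred_o1 (h : Cocycle T S M M' K) (n : ℕ) (x : X) :
    M n (T x) = (M (n + 1) x).comp (M' 1 (T x)) := by
  have := h.inv' 1 (T x)
  rw [Function.iterate_one, h.ST] at this
  rw [h.succ_o1, ContinuousLinearMap.comp_assoc, this, ContinuousLinearMap.comp_id]

theorem Cocycle.measurable_l1 (h : Cocycle T S M M' K) : Measurable (l1 M) :=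
  Measurable.limsup fun n => (h.measM n).norm.log.div_const _

theorem Cocycle.measurable_l2 (h : Cocycle T S M M' K) : Measurable (l2 M) :=
  (Measurable.limsup fun n => (measurable_det2.comp (h.measM n)).abs.log.div_const _).sub
    h.measurable_l1

theorem Cocycle.abs_log_le (h : Cocycle T S M M' K) (n : ℕ) (x : X) :
    |Real.log ‖M n x‖| ≤ Real.log K * n := by
  have hK := zero_lt_one.trans_le h.one_le
  have := abs_log_o1 (h.pos_o1 n x) one_pos (pow_pos hK n) (by simpa using h.norm_le_o1 n x)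
    (h.one_le_o1 n x)
  rwa [Real.log_one, sub_zero, Real.log_pow, mul_comm] at this

theorem Cocycle.det2_ne (h : Cocycle T S M M' K) (n : ℕ) (x : X) : det2 (M n x) ≠ 0 :=
  right_ne_zero_of_mul_eq_one (h.det_mul_o1 n x)

theorem Cocycle.abs_log_det_le (h : Cocycle T S M M' K) (n : ℕ) (x : X) :
    |Real.log (abs (det2 (M n x)))| ≤ Real.log (2 * K ^ 2) * n := by
  have hK := zero_lt_one.trans_le h.one_le
  have h1 : 1 ≤ (2 * K ^ 2) ^ n * |det2 (M n x)| := by
    have := congrArg abs (h.det_mul_o1 n x)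
    rw [abs_mul, abs_one] at this
    rw [← this]
    gcongr
    exact h.symm.det_le_o1 n _
  have := abs_log_o1 (abs_pos.2 (h.det2_ne n x)) one_pos (by positivity)
    (by simpa using h.det_le_o1 n x) h1
  rwa [Real.log_one, sub_zero, Real.log_pow, mul_comm] at this

lemma Cocycle.log_nonneg_o1 (h : Cocycle T S M M' K) : 0 ≤ Real.log (2 * K ^ 2) :=
  Real.log_nonneg (by nlinarith [h.one_le])

theorem Cocycle.l1_comp (h : Cocycle T S M M' K) (x : X) : l1 M (T x) = l1 M x := by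
  have hK := zero_lt_one.trans_le h.one_le
  refine limsup_shift_o1 (Real.log_nonneg h.one_le) (h.abs_log_le · x) (h.abs_log_le · (T x))
    fun n => abs_log_o1 (h.pos_o1 _ _) (h.pos_o1 _ _) hK ?_ ?_
  · rw [h.pred_o1, mul_comm]
    exact (ContinuousLinearMap.opNorm_comp_le _ _).trans (by gcongr; exact h.le' _)
  · rw [h.succ_o1, mul_comm]
    exact (ContinuousLinearMap.opNorm_comp_le _ _).trans (by gcongr; exact h.le _)

theorem Cocycle.l2_comp (h : Cocycle T S M M' K) (x : X) : l2 M (T x) = l2 M x := by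
  have hK := zero_lt_one.trans_le h.one_le
  unfold l2
  rw [h.l1_comp]
  congr 1
  refine limsup_shift_o1 h.log_nonneg_o1 (h.abs_log_det_le · x) (h.abs_log_det_le · (T x))
    fun n => abs_log_o1 (abs_pos.2 (h.det2_ne _ _)) (abs_pos.2 (h.det2_ne _ _)) (by positivity)
      ?_ ?_
  · rw [h.pred_o1, mul_comm, det2_comp, abs_mul]
    gcongr
    exact det2_le_o1 (h.le' _)
  · rw [h.succ_o1, mul_comm, det2_comp, abs_mul]
    gcongr
    exact det2_le_o1 (h.le _)

theorem Cocycle.abs_l1_le (h : Cocycle T S M M' K) (x : X) : |l1 M x| ≤ Real.log K :=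
  abs_limsup_o1 (div_le_o1 (Real.log_nonneg h.one_le) (h.abs_log_le · x))

theorem Cocycle.abs_l2_le (h : Cocycle T S M M' K) (x : X) :
    |l2 M x| ≤ Real.log K + Real.log (2 * K ^ 2) := by
  have := abs_limsup_o1 (div_le_o1 h.log_nonneg_o1 (h.abs_log_det_le · x))
  unfold l2
  linarith [abs_sub (limsup (fun n : ℕ => Real.log |det2 (M n x)| / n) atTop) (l1 M x),
    h.abs_l1_le x]

end Pool.Agent.Lib.MP_e7c912_an
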