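import Pool.Agent.Lib.MP_e7c912_an.H60Ose1

/-! The one-sided Oseledets theorem. -/

namespace Pool.Agent.Lib.MP_e7c912_an

open MeasureTheory Filter Metric Set Topology
open scoped ENNReal

variable {X : Type} [MeasurableSpace X] {T S : X → X} {M M' : ℕ → X → V →L[ℝ] V} {K : ℝ}

/-- At most exponential growth of rate `c`. -/
def UpOse2 (u : ℕ → ℝ) (c : ℝ) : Prop :=
  ∀ t > 0, ∃ C > 0, ∀ n : ℕ, u n ≤ C * Real.exp ((c + t) * n)

theorem up_of_tendsto_ose2 {u : ℕ → ℝ} {c : ℝ} (h0 : ∀ n, 0 < u n)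
    (h : Tendsto (fun n : ℕ => Real.log (u n) / n) atTop (𝓝 c)) : UpOse2 u c := by
  intro t ht
  obtain ⟨N, hN⟩ := eventually_atTop.1 (h.eventually (gt_mem_nhds (lt_add_of_pos_right c ht)))
  have hs : 0 ≤ ∑ k ∈ Finset.range (N + 1), u k / Real.exp ((c + t) * k) :=
    Finset.sum_nonneg fun k _ => (div_pos (h0 k) (Real.exp_pos _)).le
  refine ⟨1 + ∑ k ∈ Finset.range (N + 1), u k / Real.exp ((c + t) * k), by linarith, fun n => ?_⟩
  rw [← div_le_iff₀ (Real.exp_pos _)]
  rcases lt_or_ge n (N + 1) with hn | hn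
  · have := Finset.single_le_sum (f := fun k : ℕ => u k / Real.exp ((c + t) * k))
      (fun k _ => (div_pos (h0 k) (Real.exp_pos _)).le) (Finset.mem_range.2 hn)
    linarith
  · have h1 := hN n (by omega)
    have h2 : (0 : ℝ) < n := by exact_mod_cast (by omega : 0 < n)
    rw [div_lt_iff₀ h2, Real.log_lt_iff_lt_exp (h0 n)] at h1
    have := (div_le_one (Real.exp_pos _)).2 h1.le
    linarith

theorem sandwich_ose2 {u w : ℕ → ℝ} {c a : ℝ} (h0 : ∀ n, 0 < w n)
    (h : Tendsto (fun n : ℕ => Real.log (w n) / n) atTop (𝓝 c)) (ha : 0 < a)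
    (hl : ∀ᶠ n in atTop, a * w n ≤ u n) (hu : UpOse2 u c) :
    Tendsto (fun n : ℕ => Real.log (u n) / n) atTop (𝓝 c) := by
  refine tendsto_order.2 ⟨fun b hb => ?_, fun b hb => ?_⟩
  · have h1 := (tendsto_const_div_atTop_nhds_zero_nat (Real.log a)).add h
    rw [zero_add] at h1
    filter_upwards [h1.eventually (lt_mem_nhds hb), hl] with n h2 h3
    refine h2.trans_le ?_
    rw [← add_div, ← Real.log_mul ha.ne' (h0 n).ne']
    gcongr
    exact mul_pos ha (h0 n)
  · obtain ⟨C, hC, h1⟩ := hu ((b - c) / 2) (by linarith)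
    have h2 := tendsto_const_div_atTop_nhds_zero_nat (Real.log C)
    filter_upwards [h2.eventually (gt_mem_nhds (show 0 < (b - c) / 2 by linarith)), hl,
      eventually_gt_atTop 0] with n h3 h4 h5
    have h6 : (0 : ℝ) < n := by exact_mod_cast h5
    have h7 := Real.log_le_log ((mul_pos ha (h0 n)).trans_le h4) (h1 n)
    rw [Real.log_mul hC.ne' (Real.exp_pos _).ne', Real.log_exp] at h7
    rw [div_lt_iff₀ h6] at h3 ⊢
    linarith

theorem det_le_ose2 (L : V →L[ℝ] V) : |det2 L| ≤ 2 * ‖L‖ * ‖L‖ := by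
  have h1 : ‖L (1, 0)‖ ≤ ‖L‖ := by simpa using L.le_opNorm (1, 0)
  have h2 : ‖L (0, 1)‖ ≤ ‖L‖ := by simpa using L.le_opNorm (0, 1)
  exact (abs_om_le _ _).trans (by gcongr)

theorem norm_pos_ose2 {L : V →L[ℝ] V} (h : det2 L ≠ 0) : 0 < ‖L‖ := by
  refine lt_of_le_of_ne (norm_nonneg _) fun e => h ?_
  have := det_le_ose2 L
  rw [← e, mul_zero] at this
  exact abs_nonpos_iff.1 this

theorem near_ose2 {a b : V} (ha : ‖a‖ = 1) (hb : ‖b‖ = 1) (h : ‖b - a‖ ≤ ‖b + a‖) :
    ‖b - a‖ ≤ 2 * |om a b| := by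
  obtain ⟨s, t, -, ht, e⟩ := exists_decomp ha b
  have hr : ‖((-a.2, a.1) : V)‖ = 1 := by
    rw [← ha, Prod.norm_def, Prod.norm_def, norm_neg, max_comm]
  have h1 : ‖b - s • a‖ = |t| := by
    rw [e, add_sub_cancel_left, norm_smul, hr, mul_one, Real.norm_eq_abs]
  have h2 : |1 - (|s|)| ≤ |t| := by
    have := abs_norm_sub_norm_le b (s • a)
    rwa [h1, hb, norm_smul, ha, mul_one, Real.norm_eq_abs] at this
  rcases le_total 0 s with hs | hs
  · rw [abs_of_nonneg hs] at h2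
    have h3 : b - a = (b - s • a) - (1 - s) • a := by rw [sub_smul, one_smul]; abel
    have h4 := norm_sub_le (b - s • a) ((1 - s) • a)
    rw [← h3, h1, norm_smul, ha, mul_one, Real.norm_eq_abs] at h4
    linarith
  · rw [abs_of_nonpos hs] at h2
    have h3 : b + a = (b - s • a) + (1 - -s) • a := by
      rw [sub_smul, one_smul, neg_smul]; abel
    have h4 := norm_add_le (b - s • a) ((1 - -s) • a)
    rw [← h3, h1, norm_smul, ha, mul_one, Real.norm_eq_abs] at h4
    linarith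

/-- A coherent choice of signs. -/
noncomputable def fixOse2 (e : ℕ → V) : ℕ → V
  | 0 => e 0
  | n + 1 => if ‖e (n + 1) - fixOse2 e n‖ ≤ ‖e (n + 1) + fixOse2 e n‖ then e (n + 1) else -e (n + 1)

theorem fix_eq_ose2 (e : ℕ → V) (n : ℕ) : fixOse2 e n = e n ∨ fixOse2 e n = -e n := by
  cases n with
  | zero => exact Or.inl rfl
  | succ n =>
    rw [fixOse2]
    split_ifs
    · exact Or.inl rfl
    · exact Or.inr rfl

theorem fix_le_ose2 (e : ℕ → V) (n : ℕ) :
    ‖fixOse2 e (n + 1) - fixOse2 e n‖ ≤ ‖fixOse2 e (n + 1) + fixOse2 e n‖ := by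
  rw [fixOse2]
  split_ifs with h
  · exact h
  · rw [← norm_neg (_ - _), ← norm_neg (_ + _), neg_sub', neg_neg, sub_neg_eq_add, neg_add,
      neg_neg, ← sub_eq_add_neg]
    exact (not_le.1 h).le

theorem fix_meas_ose2 {e : X → ℕ → V} (he : ∀ n, Measurable fun x => e x n) (n : ℕ) :
    Measurable fun x => fixOse2 (e x) n := by
  induction n with
  | zero => exact he 0
  | succ n ih =>
    exact Measurable.ite (measurableSet_le ((he _).sub ih).norm ((he _).add ih).norm) (he _)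
      (he _).neg

theorem core_ose2 {L : ℕ → V →L[ℝ] V} (hK : 1 ≤ K) (h1 : ∀ n w, ‖L n w‖ ≤ K * ‖L (n + 1) w‖)
    (h2 : ∀ n, ‖L (n + 1)‖ ≤ K * ‖L n‖) (hd : ∀ n, det2 (L n) ≠ 0) {f : ℕ → V}
    (f1 : ∀ n, ‖f n‖ = 1) (f2 : ∀ n, ‖L n (f n)‖ * ‖L n‖ ≤ 2 * |det2 (L n)|)
    (f3 : ∀ n v, ‖L n‖ * |om (f n) v| ≤ 2 * ‖L n v‖)
    (f4 : ∀ n, ‖f (n + 1) - f n‖ ≤ ‖f (n + 1) + f n‖) {a b : ℝ}
    (ta : Tendsto (fun n : ℕ => Real.log ‖L n‖ / n) atTop (𝓝 a))
    (tb : Tendsto (fun n : ℕ => Real.log (|det2 (L n)| / ‖L n‖) / n) atTop (𝓝 b)) (hab : b < a) :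
    ∃ e : V, Tendsto f atTop (𝓝 e) ∧ ‖e‖ = 1 ∧
      Tendsto (fun n : ℕ => Real.log ‖L n e‖ / n) atTop (𝓝 b) ∧
      ∀ v, om v e ≠ 0 → Tendsto (fun n : ℕ => Real.log ‖L n v‖ / n) atTop (𝓝 a) := by
  have hK0 : 0 < K := by linarith
  have hN : ∀ n, 0 < ‖L n‖ := fun n => norm_pos_ose2 (hd n)
  have hD : ∀ n, 0 < |det2 (L n)| / ‖L n‖ := fun n => div_pos (abs_pos.2 (hd n)) (hN n)
  have tq : Tendsto (fun n : ℕ => Real.log (|det2 (L n)| / ‖L n‖ / ‖L n‖) / n) atTop
      (𝓝 (b - a)) := by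
    refine (tb.sub ta).congr fun n => ?_
    rw [Real.log_div (hD n).ne' (hN n).ne', sub_div]
  have uq := up_of_tendsto_ose2 (fun n => div_pos (hD n) (hN n)) tq
  have step : ∀ n, dist (f n) (f (n + 1)) ≤
      8 * K ^ 2 * (|det2 (L (n + 1))| / ‖L (n + 1)‖ / ‖L (n + 1)‖) := fun n => by
    have e1 := near_ose2 (f1 n) (f1 (n + 1)) (f4 n)
    have e2 : ‖L (n + 1)‖ * |om (f n) (f (n + 1))| ≤ K * (2 * (K * ‖L (n + 1) (f (n + 1))‖)) := by
      calc _ ≤ K * ‖L n‖ * |om (f n) (f (n + 1))| := by gcongr; exact h2 n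
        _ = K * (‖L n‖ * |om (f n) (f (n + 1))|) := by ring
        _ ≤ K * (2 * ‖L n (f (n + 1))‖) := mul_le_mul_of_nonneg_left (f3 n _) hK0.le
        _ ≤ _ := by gcongr; exact h1 n _
    have e3 := f2 (n + 1)
    have e4 := hN (n + 1)
    rw [dist_comm, dist_eq_norm, ← mul_div_assoc, ← mul_div_assoc, le_div_iff₀ e4, le_div_iff₀ e4]
    calc _ ≤ 2 * |om (f n) (f (n + 1))| * ‖L (n + 1)‖ * ‖L (n + 1)‖ := by gcongr
      _ = 2 * (‖L (n + 1)‖ * |om (f n) (f (n + 1))|) * ‖L (n + 1)‖ := by ring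
      _ ≤ 2 * (K * (2 * (K * ‖L (n + 1) (f (n + 1))‖))) * ‖L (n + 1)‖ := by gcongr
      _ = 4 * K ^ 2 * (‖L (n + 1) (f (n + 1))‖ * ‖L (n + 1)‖) := by ring
      _ ≤ 4 * K ^ 2 * (2 * |det2 (L (n + 1))|) := by gcongr
      _ = _ := by ring
  have geo : ∀ t > 0, b - a + t < 0 → ∃ C > 0, ∀ n : ℕ,
      dist (f n) (f (n + 1)) ≤ C * Real.exp (b - a + t) ^ n := fun t ht ht' => by
    obtain ⟨C, hC, h⟩ := uq t ht
    refine ⟨8 * K ^ 2 * C, by positivity, fun n => (step n).trans ?_⟩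
    rw [mul_assoc (8 * K ^ 2), ← Real.exp_nat_mul]
    refine mul_le_mul_of_nonneg_left ((h (n + 1)).trans
      (mul_le_mul_of_nonneg_left (Real.exp_le_exp.2 ?_) hC.le)) (by positivity)
    push_cast
    linarith
  obtain ⟨C0, -, hC0⟩ := geo ((a - b) / 2) (by linarith) (by linarith)
  obtain ⟨e, he⟩ := cauchySeq_tendsto_of_complete
    (cauchySeq_of_le_geometric _ C0 (Real.exp_lt_one_iff.2 (by linarith)) hC0)
  have he1 : ‖e‖ = 1 := tendsto_nhds_unique he.norm (by simp only [f1]; exact tendsto_const_nhds)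
  refine ⟨e, he, he1, sandwich_ose2 hD tb (a := 1 / 2) (by norm_num)
    (Eventually.of_forall fun n => ?_) fun t ht => ?_, fun v hv => ?_⟩
  · have := det2_mul_le (L n) e
    rw [he1, mul_one] at this
    rw [← mul_div_assoc, div_le_iff₀ (hN n)]
    linarith
  · obtain ⟨s, hs, hs1, hs2⟩ : ∃ s > 0, 2 * s ≤ t ∧ b - a + s < 0 :=
      ⟨min (t / 2) ((a - b) / 2), lt_min (by linarith) (by linarith),
        by linarith [min_le_left (t / 2) ((a - b) / 2)],
        by linarith [min_le_right (t / 2) ((a - b) / 2)]⟩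
    obtain ⟨C1, hC1, g1⟩ := geo s hs hs2
    obtain ⟨C2, hC2, g2⟩ := up_of_tendsto_ose2 hN ta s hs
    obtain ⟨C3, hC3, g3⟩ := up_of_tendsto_ose2 hD tb t ht
    have hr := Real.exp_lt_one_iff.2 hs2
    have hr' : 0 < 1 - Real.exp (b - a + s) := by linarith
    refine ⟨2 * C3 + C2 * (C1 / (1 - Real.exp (b - a + s))), by positivity, fun n => ?_⟩
    have e1 := dist_le_of_le_geometric_of_tendsto _ C1 hr g1 he n
    rw [dist_comm, dist_eq_norm, ← Real.exp_nat_mul] at e1
    have e2 : ‖L n (f n)‖ ≤ 2 * (C3 * Real.exp ((b + t) * n)) := by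
      refine le_trans ?_ (mul_le_mul_of_nonneg_left (g3 n) zero_le_two)
      rw [← mul_div_assoc, le_div_iff₀ (hN n)]
      exact f2 n
    have e3 : ‖L n (e - f n)‖ ≤ C2 * (C1 / (1 - Real.exp (b - a + s))) *
        Real.exp ((b + t) * n) := by
      calc _ ≤ ‖L n‖ * ‖e - f n‖ := (L n).le_opNorm _
        _ ≤ C2 * Real.exp ((a + s) * n) *
            (C1 * Real.exp (n * (b - a + s)) / (1 - Real.exp (b - a + s))) := by
          gcongr
          exact g2 n
        _ = C2 * (C1 / (1 - Real.exp (b - a + s))) * Real.exp ((b + 2 * s) * n) := by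
          rw [show (b + 2 * s) * n = (a + s) * n + n * (b - a + s) by ring,
            Real.exp_add ((a + s) * n)]
          ring
        _ ≤ _ := by gcongr
    have e4 := norm_add_le (L n (f n)) (L n (e - f n))
    rw [← map_add, add_sub_cancel] at e4
    linarith
  · have hv' : 0 < |om e v| := by
      rw [abs_pos]
      intro h0
      apply hv
      simp only [om] at h0 ⊢
      linarith
    have hc : Tendsto (fun n => |om (f n) v|) atTop (𝓝 |om e v|) := by
      have : Continuous fun w : V => |om w v| := by unfold om; fun_prop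
      exact (this.tendsto e).comp he
    refine sandwich_ose2 hN ta (a := |om e v| / 4) (by linarith) ?_ fun t ht => ?_
    · filter_upwards [hc.eventually (lt_mem_nhds (half_lt_self hv'))] with n hn
      have e1 := f3 n v
      have e2 := mul_le_mul_of_nonneg_left hn.le (hN n).le
      linarith
    · obtain ⟨C, hC, g⟩ := up_of_tendsto_ose2 hN ta t ht
      refine ⟨C * (‖v‖ + 1), by positivity, fun n => ?_⟩
      calc _ ≤ ‖L n‖ * ‖v‖ := (L n).le_opNorm _
        _ ≤ C * Real.exp ((a + t) * n) * (‖v‖ + 1) := by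
          gcongr
          · exact g n
          · linarith
        _ = _ := by ring

theorem Cocycle.norm_le_ose2 (h : Cocycle T S M M' K) (n k : ℕ) (x : X) :
    ‖M (n + k) x‖ ≤ ‖M k (T^[n] x)‖ * ‖M n x‖ := by
  rw [h.add]
  exact ContinuousLinearMap.opNorm_comp_le _ _

theorem Cocycle.ae_norm_ose2 (h : Cocycle T S M M' K) (μ : Measure X) [IsFiniteMeasure μ]
    (hT : MeasurePreserving T μ μ) :
    ∀ᵐ x ∂μ, Tendsto (fun n : ℕ => Real.log ‖M n x‖ / n) atTop (𝓝 (l1 M x)) := by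
  have hK0 : 0 < K := by linarith [h.one_le]
  have hN : ∀ n x, 0 < ‖M n x‖ := fun n x => norm_pos_ose2 (h.det2_ne n x)
  refine kingman (C := Real.log K) hT (a := fun n x => Real.log ‖M n x‖)
    (fun n => (h.measM n).norm.log) h.abs_log_le (fun n k x => ?_) fun n x => ?_
  · rw [← Real.log_mul (hN _ _).ne' (hN _ _).ne', mul_comm]
    exact Real.log_le_log (hN _ _) (h.norm_le_ose2 n k x)
  · have e1 : ‖M (n + 1) x‖ ≤ K * ‖M n (T x)‖ := by
      rw [add_comm, mul_comm]
      exact (h.norm_le_ose2 1 n x).trans (mul_le_mul_of_nonneg_left (h.le x) (norm_nonneg _))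
    have e2 : ‖M n (T x)‖ ≤ K * ‖M (n + 1) x‖ := by
      have e3 := h.inv' 1 (T x)
      rw [Function.iterate_one, h.ST] at e3
      have e4 : M n (T x) = (M (n + 1) x).comp (M' 1 (T x)) := by
        rw [add_comm, h.add, ContinuousLinearMap.comp_assoc, e3, Function.iterate_one,
          ContinuousLinearMap.comp_id]
      rw [mul_comm]
      conv_lhs => rw [e4]
      exact (ContinuousLinearMap.opNorm_comp_le _ _).trans
        (mul_le_mul_of_nonneg_left (h.le' _) (norm_nonneg _))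
    have l1 := Real.log_le_log (hN _ _) e1
    have l2 := Real.log_le_log (hN _ _) e2
    rw [Real.log_mul hK0.ne' (hN _ _).ne'] at l1 l2
    exact abs_le.2 ⟨by linarith, by linarith⟩

theorem Cocycle.ae_det_ose2 (h : Cocycle T S M M' K) (μ : Measure X) [IsFiniteMeasure μ]
    (hT : MeasurePreserving T μ μ) :
    ∀ᵐ x ∂μ, Tendsto (fun n : ℕ => Real.log |det2 (M n x)| / n) atTop (𝓝 (l2 M x + l1 M x)) := by
  have key : ∀ n k x, Real.log |det2 (M (n + k) x)| =
      Real.log |det2 (M n x)| + Real.log |det2 (M k (T^[n] x))| := fun n k x => by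
    rw [h.add, det2_comp, abs_mul, Real.log_mul (abs_pos.2 (h.det2_ne _ _)).ne'
      (abs_pos.2 (h.det2_ne _ _)).ne', add_comm]
  have := kingman (C := Real.log (2 * K ^ 2)) hT (a := fun n x => Real.log |det2 (M n x)|)
    (fun n => (continuous_abs.measurable.comp (measurable_det2.comp (h.measM n))).log)
    h.abs_log_det_le (fun n k x => (key n k x).le) fun n x => by
      have e := h.abs_log_det_le 1 x
      rw [add_comm n, key, Function.iterate_one, add_sub_cancel_right]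
      simpa using e
  simpa only [l2, sub_add_cancel] using this

theorem ose_half (h : Cocycle T S M M' K) (μ : Measure X) [IsFiniteMeasure μ]
    (hT : MeasurePreserving T μ μ) : ∃ es : X → V, Measurable es ∧ (∀ x, ‖es x‖ = 1) ∧ ∀ᵐ x ∂μ,
      Tendsto (fun n : ℕ => Real.log ‖M n x‖ / n) atTop (𝓝 (l1 M x)) ∧
      Tendsto (fun n : ℕ => Real.log (|det2 (M n x)| / ‖M n x‖) / n) atTop (𝓝 (l2 M x)) ∧
      l2 M x ≤ l1 M x ∧ (l2 M x < l1 M x →
        Tendsto (fun n : ℕ => Real.log ‖M n x (es x)‖ / n) atTop (𝓝 (l2 M x)) ∧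
        ∀ v, om v (es x) ≠ 0 →
          Tendsto (fun n : ℕ => Real.log ‖M n x v‖ / n) atTop (𝓝 (l1 M x))) := by
  obtain ⟨sm, hsm, hs⟩ := exists_small_meas
  have hN : ∀ n x, 0 < ‖M n x‖ := fun n x => norm_pos_ose2 (h.det2_ne n x)
  set f : X → ℕ → V := fun x => fixOse2 fun n => sm (M n x) with hf
  have mf : ∀ n, Measurable fun x => f x n := fix_meas_ose2 fun n => hsm.comp (h.measM n)
  have ml : Measurable fun x => limUnder atTop (f x) :=
    (StronglyMeasurable.limUnder fun n => (mf n).stronglyMeasurable).measurable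
  refine ⟨fun x => if ‖limUnder atTop (f x)‖ = 1 then limUnder atTop (f x) else (1, 0),
    Measurable.ite (measurableSet_eq_fun ml.norm measurable_const) ml measurable_const,
    fun x => ?_, ?_⟩
  · dsimp only
    split_ifs with hx
    · exact hx
    · simp
  filter_upwards [h.ae_norm_ose2 μ hT, h.ae_det_ose2 μ hT] with x t1 td
  have t2 : Tendsto (fun n : ℕ => Real.log (|det2 (M n x)| / ‖M n x‖) / n) atTop
      (𝓝 (l2 M x)) := by
    have := td.sub t1
    rw [add_sub_cancel_right] at this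
    refine this.congr fun n => ?_
    rw [Real.log_div (abs_pos.2 (h.det2_ne n x)).ne' (hN n x).ne', sub_div]
  refine ⟨t1, t2, ?_, fun hlt => ?_⟩
  · have t3 := (tendsto_const_div_atTop_nhds_zero_nat (Real.log 2)).add t1
    rw [zero_add] at t3
    refine le_of_tendsto_of_tendsto' t2 t3 fun n => ?_
    rw [← add_div, ← Real.log_mul two_ne_zero (hN n x).ne']
    gcongr
    · exact div_pos (abs_pos.2 (h.det2_ne n x)) (hN n x)
    · rw [div_le_iff₀ (hN n x)]
      exact det_le_ose2 _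
  · have hp : ∀ n, ‖f x n‖ = 1 ∧ ‖M n x (f x n)‖ * ‖M n x‖ ≤ 2 * |det2 (M n x)| ∧
        ∀ v, ‖M n x‖ * |om (f x n) v| ≤ 2 * ‖M n x v‖ := fun n => by
      rcases fix_eq_ose2 (fun n => sm (M n x)) n with e | e
      · rw [show f x n = sm (M n x) from e]
        exact hs _
      · rw [show f x n = -sm (M n x) from e, norm_neg, map_neg, norm_neg]
        refine ⟨(hs _).1, (hs _).2.1, fun v => ?_⟩
        rw [show om (-sm (M n x)) v = -om (sm (M n x)) v by simp only [om]; simp; ring, abs_neg]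
        exact (hs _).2.2 v
    obtain ⟨e, he, he1, r1, r2⟩ := core_ose2 (L := fun n => M n x) (f := f x) h.one_le
      (fun n w => by
        have e1 := congrArg (fun L : V →L[ℝ] V => L (M n x w)) (h.inv 1 (T^[n] x))
        simp only [ContinuousLinearMap.comp_apply, ContinuousLinearMap.id_apply] at e1
        rw [h.add, ContinuousLinearMap.comp_apply]
        conv_lhs => rw [← e1]
        exact (ContinuousLinearMap.le_opNorm _ _).trans
          (mul_le_mul_of_nonneg_right (h.le' _) (norm_nonneg _)))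
      (fun n => (h.norm_le_ose2 n 1 x).trans
        (mul_le_mul_of_nonneg_right (h.le _) (norm_nonneg _)))
      (fun n => h.det2_ne n x) (fun n => (hp n).1) (fun n => (hp n).2.1) (fun n => (hp n).2.2)
      (fix_le_ose2 _) t1 t2 hlt
    rw [he.limUnder_eq, if_pos he1]
    exact ⟨r1, r2⟩

end Pool.Agent.Lib.MP_e7c912_an
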