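import Pool.Agent.Lib.MP_e7c912_an.H60TDef
import Pool.Agent.Lib.MP_e7c912_an.H60Curve

/-! Construction of the stopping generations. -/

namespace Pool.Agent.Lib.MP_e7c912_an

open MeasureTheory Filter Metric Set Topology

variable {X : Type} [MetricSpace X] [MeasurableSpace X] {A : Atlas X}

/-- The first index between `x0` and `js` where `P` holds, or `js`. -/
noncomputable def first_stp (x0 js : ℕ) (P : ℕ → Prop) : ℕ :=
  sInf {j | x0 ≤ j ∧ (P j ∨ js ≤ j)}

theorem first_mem_stp {x0 js : ℕ} (h : x0 ≤ js) (P : ℕ → Prop) :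
    x0 ≤ first_stp x0 js P ∧ (P (first_stp x0 js P) ∨ js ≤ first_stp x0 js P) :=
  Nat.sInf_mem (s := {j | x0 ≤ j ∧ (P j ∨ js ≤ j)}) ⟨js, h, Or.inr le_rfl⟩

theorem first_le_stp {x0 js j : ℕ} {P : ℕ → Prop} (h1 : x0 ≤ j) (h2 : P j ∨ js ≤ j) :
    first_stp x0 js P ≤ j :=
  Nat.sInf_le (s := {j | x0 ≤ j ∧ (P j ∨ js ≤ j)}) ⟨h1, h2⟩

theorem first_le_js_stp {x0 js : ℕ} (h : x0 ≤ js) (P : ℕ → Prop) : first_stp x0 js P ≤ js :=
  first_le_stp h (Or.inr le_rfl)

theorem not_of_lt_first_stp {x0 js j : ℕ} {P : ℕ → Prop} (h1 : x0 ≤ j)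
    (h2 : j < first_stp x0 js P) : ¬ P j := fun hp =>
  absurd (first_le_stp h1 (Or.inl hp)) (not_le.mpr h2)

theorem first_congr_stp {x0 js : ℕ} (h : x0 ≤ js) {P Q : ℕ → Prop}
    (hPQ : ∀ j, j ≤ first_stp x0 js P → (P j ↔ Q j)) : first_stp x0 js Q = first_stp x0 js P := by
  have hP := first_mem_stp h P
  have hQ := first_mem_stp h Q
  have h1 : first_stp x0 js Q ≤ first_stp x0 js P :=
    first_le_stp hP.1 (hP.2.imp_left (hPQ _ le_rfl).1)
  exact le_antisymm h1 (first_le_stp hQ.1 (hQ.2.imp_left (hPQ _ h1).2))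

theorem dy_eq_of_le_stp {m M : ℕ} {t t' : ℝ} (hm : m ≤ M) (h : dy M t = dy M t') :
    dy m t = dy m t' := by
  obtain ⟨j, rfl⟩ := Nat.exists_eq_add_of_le hm
  exact dy_eq_of_add h

theorem dy_mono_stp {m M : ℕ} (hm : m ≤ M) (t : ℝ) :
    dy m t ≤ dy M t ∧ dy M t + dl M ≤ dy m t + dl m := by
  obtain ⟨j, rfl⟩ := Nat.exists_eq_add_of_le hm
  exact dy_mono m j t

/-- The stopping generations. -/
noncomputable def mm_stp (A : Atlas X) (G : X → X) (r : ℕ) (ε : ℝ) (τ : ℝ → X) (x0 js : ℕ) :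
    ℕ → ℝ → ℕ
  | 0, _ => 0
  | k + 1, t => mm_stp A G r ε τ x0 js k t + first_stp x0 js fun j =>
      A.Good r ε (G^[k + 1] ∘ τ) (dy (mm_stp A G r ε τ x0 js k t + j) t)
        (dl (mm_stp A G r ε τ x0 js k t + j))

/-- The first generation with bounded geometry. -/
noncomputable def zz_stp (A : Atlas X) (G : X → X) (r : ℕ) (ε : ℝ) (τ : ℝ → X) (x0 js : ℕ)
    (k : ℕ) (t : ℝ) : ℕ :=
  first_stp x0 js fun j =>
    A.Bdd r (G^[k + 1] ∘ τ) (dy (mm_stp A G r ε τ x0 js k t + j) t)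
      (dl (mm_stp A G r ε τ x0 js k t + j))

section

variable {G : X → X} {r x0 js : ℕ} {ε : ℝ} {τ : ℝ → X}

theorem mm_succ_stp (k : ℕ) (t : ℝ) : mm_stp A G r ε τ x0 js (k + 1) t =
    mm_stp A G r ε τ x0 js k t + first_stp x0 js fun j =>
      A.Good r ε (G^[k + 1] ∘ τ) (dy (mm_stp A G r ε τ x0 js k t + j) t)
        (dl (mm_stp A G r ε τ x0 js k t + j)) := rfl

theorem mm_const_stp (h : x0 ≤ js) (k : ℕ) : ∀ t t' : ℝ,
    dy (mm_stp A G r ε τ x0 js k t) t' = dy (mm_stp A G r ε τ x0 js k t) t →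
      mm_stp A G r ε τ x0 js k t' = mm_stp A G r ε τ x0 js k t := by
  induction k with
  | zero => intro _ _ _; rfl
  | succ k ih =>
    intro t t' ht
    rw [mm_succ_stp] at ht
    have h1 := ih t t' (dy_eq_of_add ht)
    rw [mm_succ_stp, mm_succ_stp, h1]
    congr 1
    refine first_congr_stp h fun j hj => ?_
    rw [dy_eq_of_le_stp (Nat.add_le_add_left hj _) ht]

theorem mm_le_stp (h : x0 ≤ js) (k : ℕ) (t : ℝ) : mm_stp A G r ε τ x0 js k t ≤ js * k := by
  induction k with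
  | zero => exact le_rfl
  | succ k ih =>
    rw [mm_succ_stp, Nat.mul_succ]
    exact Nat.add_le_add ih (first_le_js_stp h _)

theorem mm_dy_stp (h : x0 ≤ js) (k : ℕ) {M : ℕ} (hM : js * k ≤ M) {t t' : ℝ}
    (ht : dy M t = dy M t') : mm_stp A G r ε τ x0 js k t = mm_stp A G r ε τ x0 js k t' :=
  mm_const_stp h k t' t (dy_eq_of_le_stp ((mm_le_stp h k t').trans hM) ht)

theorem bdd_dy_stp (h : x0 ≤ js) (k : ℕ) {j : ℕ} (hj : j ≤ js) {t t' : ℝ}
    (ht : dy (js * (k + 1)) t = dy (js * (k + 1)) t') :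
    A.Bdd r (G^[k + 1] ∘ τ) (dy (mm_stp A G r ε τ x0 js k t + j) t)
      (dl (mm_stp A G r ε τ x0 js k t + j)) =
    A.Bdd r (G^[k + 1] ∘ τ) (dy (mm_stp A G r ε τ x0 js k t' + j) t')
      (dl (mm_stp A G r ε τ x0 js k t' + j)) := by
  have h1 : mm_stp A G r ε τ x0 js k t + j ≤ js * (k + 1) := Nat.add_le_add (mm_le_stp h k t) hj
  rw [← mm_dy_stp h k (Nat.mul_le_mul_left js (Nat.le_succ k)) ht, dy_eq_of_le_stp h1 ht]

theorem good_stp {Λ n1 n2 : ℝ} (h : x0 ≤ js) (H : YFit A G r ε Λ n1 n2 js)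
    (hτ : A.Good r ε τ 0 1) (k : ℕ) : ∀ t ∈ Ico (0 : ℝ) 1,
    A.Good r ε (G^[k] ∘ τ) (dy (mm_stp A G r ε τ x0 js k t) t) (dl (mm_stp A G r ε τ x0 js k t)) := by
  induction k with
  | zero =>
    intro t ht
    change A.Good r ε τ (dy 0 t) (dl 0)
    rw [dy_zero ht]
    simpa [dl] using hτ
  | succ k ih =>
    intro t ht
    rw [mm_succ_stp]
    set P : ℕ → Prop := fun j => A.Good r ε (G^[k + 1] ∘ τ) (dy (mm_stp A G r ε τ x0 js k t + j) t)
        (dl (mm_stp A G r ε τ x0 js k t + j)) with hP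
    rcases (first_mem_stp h P).2 with h1 | h1
    · exact h1
    · rw [le_antisymm (first_le_js_stp h P) h1, Function.iterate_succ', Function.comp_assoc]
      exact H.tiny _ _ _ _ _ (dl_pos _) (ih t ht) (dy_mono _ _ t).1 (dy_mono _ _ t).2
        (dl_add _ _).le

theorem short_stp {Λ n1 n2 : ℝ} (h : x0 ≤ js) (H : YFit A G r ε Λ n1 n2 js)
    (hτ : A.Good r ε τ 0 1) (k : ℕ) {t : ℝ} (ht : t ∈ Ico (0 : ℝ) 1)
    (hb : ¬ A.BigC ε (G^[k + 1] ∘ τ) (dy (mm_stp A G r ε τ x0 js (k + 1) t) t)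
      (dl (mm_stp A G r ε τ x0 js (k + 1) t))) :
    mm_stp A G r ε τ x0 js (k + 1) t = mm_stp A G r ε τ x0 js k t + zz_stp A G r ε τ x0 js k t := by
  rw [mm_succ_stp] at hb ⊢
  rw [zz_stp]
  set m := mm_stp A G r ε τ x0 js k t with hm
  set P : ℕ → Prop := fun j => A.Good r ε (G^[k + 1] ∘ τ) (dy (m + j) t) (dl (m + j)) with hP
  set Q : ℕ → Prop := fun j => A.Bdd r (G^[k + 1] ∘ τ) (dy (m + j) t) (dl (m + j)) with hQ
  have hPm := first_mem_stp h P
  have hQm := first_mem_stp h Q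
  have hle : first_stp x0 js Q ≤ first_stp x0 js P :=
    first_le_stp hPm.1 (hPm.2.imp_left fun hg => hg.2.1)
  congr 1
  by_contra hne
  have hlt : first_stp x0 js Q < first_stp x0 js P := lt_of_le_of_ne hle (Ne.symm hne)
  have hjs := first_le_js_stp h P
  obtain ⟨j, hj⟩ : ∃ j, first_stp x0 js P = j + 1 := ⟨first_stp x0 js P - 1, by omega⟩
  have hQ1 : Q (first_stp x0 js Q) := hQm.2.resolve_right (by omega)
  have hzj : m + first_stp x0 js Q ≤ m + j := by omega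
  have hbdd : A.Bdd r (G^[k + 1] ∘ τ) (dy (m + j) t) (dl (m + j)) :=
    Atlas.Bdd.mono hQ1 (dl_pos _).le (dy_mono_stp hzj t).1 (dy_mono_stp hzj t).2
  have hsm : A.SmC r (G^[k + 1] ∘ τ) (dy (m + j) t) (dl (m + j)) := by
    rw [Function.iterate_succ', Function.comp_assoc]
    exact ((good_stp h H hτ k t ht).1.comp H.sm).mono (dy_mono _ _ t).1 (dy_mono _ _ t).2
  have hng : ¬ P j := not_of_lt_first_stp (x0 := x0) (js := js) (by omega) (by omega)
  have hns : ¬ A.Sml ε (G^[k + 1] ∘ τ) (dy (m + j) t) (dl (m + j)) := fun hs => hng ⟨hsm, hbdd, hs⟩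
  apply hb
  rw [hj]
  intro s hs
  simp only [Atlas.Sml, not_forall, not_le] at hns
  obtain ⟨u, hu, hlt'⟩ := hns
  have hmono := dy_mono (m + j) 1 t
  have hs' : s ∈ Icc (dy (m + j) t) (dy (m + j) t + dl (m + j)) :=
    ⟨hmono.1.trans hs.1, hs.2.trans hmono.2⟩
  have hd := Atlas.Bdd.distortion hsm hbdd H.two_le (dl_pos _) hu hs'
  have h2 := dl_add (m + j) 1
  have h3 := dl_pos (m + j + 1)
  have h4 := H.ε_pos
  rw [← h2, pow_one] at hlt'
  have h5 := mul_le_mul_of_nonneg_right hd h3.le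
  change ε / 4 ≤ _ * dl (m + j + 1)
  nlinarith

theorem zz_le_sum_stp (h : x0 ≤ js) (Q : ℕ → Prop) [DecidablePred Q] :
    (first_stp x0 js Q : ℝ) ≤ x0 + ∑ j ∈ Finset.range js, if Q j then (0 : ℝ) else 1 := by
  have h1 := (first_mem_stp h Q).1
  have h2 := first_le_js_stp h Q
  have h3 : ∑ j ∈ Finset.Ico x0 (first_stp x0 js Q), (1 : ℝ) ≤
      ∑ j ∈ Finset.range js, if Q j then (0 : ℝ) else 1 := by
    calc ∑ j ∈ Finset.Ico x0 (first_stp x0 js Q), (1 : ℝ)
        = ∑ j ∈ Finset.Ico x0 (first_stp x0 js Q), if Q j then (0 : ℝ) else 1 := by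
          refine Finset.sum_congr rfl fun j hj => ?_
          rw [if_neg (not_of_lt_first_stp (Finset.mem_Ico.mp hj).1 (Finset.mem_Ico.mp hj).2)]
      _ ≤ _ := by
          refine Finset.sum_le_sum_of_subset_of_nonneg (fun j hj => ?_) fun j _ _ => ?_
          · have := (Finset.mem_Ico.mp hj).2
            exact Finset.mem_range.mpr (by omega)
          · split_ifs <;> norm_num
  rw [Finset.sum_const, Nat.card_Ico, nsmul_eq_mul, mul_one, Nat.cast_sub h1] at h3
  linarith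

theorem vol_bad_stp {Λ n1 n2 : ℝ} (h : x0 ≤ js) (H : YFit A G r ε Λ n1 n2 js) (hn : 0 ≤ n2)
    (hτ : A.Good r ε τ 0 1) (k j : ℕ) :
    volume.restrict {t | ¬ A.Bdd r (G^[k + 1] ∘ τ) (dy (mm_stp A G r ε τ x0 js k t + j) t)
      (dl (mm_stp A G r ε τ x0 js k t + j))} (Ico (0 : ℝ) 1) ≤ ENNReal.ofReal (n2 / 2 ^ j) := by
  have key := cells_le (mm := mm_stp A G r ε τ x0 js k) (fun t _ t' => mm_const_stp h k t t')
    (μ := volume.restrict {t | ¬ A.Bdd r (G^[k + 1] ∘ τ) (dy (mm_stp A G r ε τ x0 js k t + j) t)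
      (dl (mm_stp A G r ε τ x0 js k t + j))}) (ν := ENNReal.ofReal (n2 / 2 ^ j) • volume) ?_
  · simpa using key
  intro t ht
  rw [Measure.restrict_apply measurableSet_Ico, Measure.smul_apply, Real.volume_Ico, smul_eq_mul,
    ← ENNReal.ofReal_mul (by positivity), add_sub_cancel_left]
  have hmom := H.moment (G^[k] ∘ τ) _ t j (good_stp h H hτ k t ht)
  refine le_trans (measure_mono ?_) (hmom.trans (le_of_eq ?_))
  · rintro t' ⟨h1, h2⟩
    have h3 := (dy_eq_iff _ _ _).mpr h1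
    refine ⟨h3, ?_⟩
    rw [mem_ofPred_eq, mm_const_stp h k t t' h3, Function.iterate_succ', Function.comp_assoc] at h2
    exact h2
  · rw [← dl_add (mm_stp A G r ε τ x0 js k t) j]
    congr 1
    field_simp

theorem sum_min_stp (J N : ℕ) :
    ∑ j ∈ Finset.range N, min (1 : ℝ) (2 ^ J / 2 ^ j) ≤ J + 2 := by
  have key : ∀ i : ℕ, ∑ j ∈ Finset.range (J + i), min (1 : ℝ) (2 ^ J / 2 ^ j) ≤ J + 2 - 2 / 2 ^ i := by
    intro i
    induction i with
    | zero =>
      have : ∑ j ∈ Finset.range J, min (1 : ℝ) (2 ^ J / 2 ^ j) ≤ ∑ _j ∈ Finset.range J, (1 : ℝ) :=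
        Finset.sum_le_sum fun j _ => min_le_left _ _
      simp at this ⊢
      exact this
    | succ i ih =>
      rw [← add_assoc, Finset.sum_range_succ]
      have h1 : min (1 : ℝ) (2 ^ J / 2 ^ (J + i)) ≤ 2 ^ J / 2 ^ (J + i) := min_le_right _ _
      have h2 : (2 : ℝ) ^ J / 2 ^ (J + i) = 2 / 2 ^ i - 2 / 2 ^ (i + 1) := by
        field_simp
        ring
      linarith
  have h1 : ∑ j ∈ Finset.range N, min (1 : ℝ) (2 ^ J / 2 ^ j) ≤
      ∑ j ∈ Finset.range (J + N), min (1 : ℝ) (2 ^ J / 2 ^ j) :=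
    Finset.sum_le_sum_of_subset_of_nonneg (Finset.range_subset_range.mpr (Nat.le_add_left _ _))
      fun j _ _ => by positivity
  have h2 : (0 : ℝ) ≤ 2 / 2 ^ N := by positivity
  linarith [key N]

theorem mean_stp {Λ n1 n2 : ℝ} (h : x0 ≤ js) (H : YFit A G r ε Λ n1 n2 js) (hn : 0 ≤ n2)
    (hτ : A.Good r ε τ 0 1) (k : ℕ) {J : ℕ} (hJ : n2 ≤ 2 ^ J) :
    ∫ t in Ico (0 : ℝ) 1, Real.log 2 * (zz_stp A G r ε τ x0 js k t : ℝ) ≤
      Real.log 2 * (x0 + (J + 2)) := by
  classical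
  set E : ℕ → Set ℝ := fun j => {t | ¬ A.Bdd r (G^[k + 1] ∘ τ)
    (dy (mm_stp A G r ε τ x0 js k t + j) t) (dl (mm_stp A G r ε τ x0 js k t + j))} with hE
  have hEm : ∀ j ∈ Finset.range js, MeasurableSet (E j) := by
    intro j hj
    refine measurableSet_setOfPred.mpr (measurable_of_dy (js * (k + 1)) fun t t' ht => ?_)
    rw [bdd_dy_stp h k (Finset.mem_range.mp hj).le ht]
  have hlog : 0 ≤ Real.log 2 := Real.log_nonneg one_le_two
  have hint : ∀ j ∈ Finset.range js,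
      Integrable ((E j).indicator fun _ => (1 : ℝ)) (volume.restrict (Ico (0 : ℝ) 1)) :=
    fun j hj => (integrable_const (1 : ℝ)).indicator (hEm j hj)
  have hint2 : Integrable (fun t => ∑ j ∈ Finset.range js, (E j).indicator (fun _ => (1 : ℝ)) t)
      (volume.restrict (Ico (0 : ℝ) 1)) := integrable_finsetSum _ hint
  rw [integral_const_mul]
  refine mul_le_mul_of_nonneg_left ?_ hlog
  calc ∫ t in Ico (0 : ℝ) 1, (zz_stp A G r ε τ x0 js k t : ℝ)
      ≤ ∫ t in Ico (0 : ℝ) 1, ((x0 : ℝ) +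
          ∑ j ∈ Finset.range js, (E j).indicator (fun _ => (1 : ℝ)) t) := by
        refine integral_mono_of_nonneg (Eventually.of_forall fun t => Nat.cast_nonneg _)
          ((integrable_const _).add hint2) (Eventually.of_forall fun t => ?_)
        refine (zz_le_sum_stp h _).trans (le_of_eq ?_)
        congr 1
        refine Finset.sum_congr rfl fun j _ => ?_
        rw [indicator_apply]
        simp only [hE, mem_ofPred_eq, ite_not]
    _ = x0 + ∑ j ∈ Finset.range js, (volume.restrict (Ico (0 : ℝ) 1)).real (E j) := by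
        rw [integral_add (integrable_const _) hint2, integral_finsetSum _ hint]
        congr 1
        · simp
        · exact Finset.sum_congr rfl fun j hj => by
            rw [integral_indicator_const _ (hEm j hj), smul_eq_mul, mul_one]
    _ ≤ x0 + ∑ j ∈ Finset.range js, min (1 : ℝ) (2 ^ J / 2 ^ j) := by
        gcongr with j hj
        refine le_min ?_ ?_
        · refine (measureReal_mono (subset_univ _)).trans (le_of_eq ?_)
          simp
        · have h1 := vol_bad_stp h H hn hτ k j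
          rw [Measure.restrict_apply measurableSet_Ico, inter_comm,
            ← Measure.restrict_apply (hEm j hj)] at h1
          refine (ENNReal.toReal_le_of_le_ofReal (by positivity) h1).trans ?_
          gcongr
    _ ≤ _ := by linarith [sum_min_stp J js]

end

theorem exists_stop {G : X → X} {q : Prm} {r x0 js : ℕ} {n1 n2 : ℝ} (hN : Num q x0 js n1 n2)
    (H : YFit A G r q.ε q.Λ n1 n2 js) {τ : ℝ → X} (hτ : A.Good r q.ε τ 0 1) :
    ∃ mm zz : ℕ → ℝ → ℕ, Stop A G r q.ε τ x0 js (4 * (q.α * q.p)) mm zz := by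
  have h := hN.x0_js
  refine ⟨mm_stp A G r q.ε τ x0 js, zz_stp A G r q.ε τ x0 js, fun _ => rfl, mm_const_stp h,
    mm_le_stp h, fun k => measurable_of_dy (js * k) fun t t' ht => mm_dy_stp h k le_rfl ht,
    fun k => measurable_of_dy (js * (k + 1)) fun t t' ht => ?_, good_stp h H hτ, fun k t => ?_,
    fun k t ht hb => short_stp h H hτ k ht hb, fun k t => first_le_js_stp h _, fun k => ?_⟩
  · refine first_congr_stp h fun j hj => ?_
    rw [bdd_dy_stp h k (hj.trans (first_le_js_stp h _)) ht]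
  · rw [mm_succ_stp]
    exact Nat.add_le_add_left (first_mem_stp h _).1 _
  · obtain ⟨J, hJ1, hJ2⟩ := exists_nat_pow_near hN.one_le_n2 (one_lt_two (α := ℝ))
    refine (mean_stp h H (zero_le_one.trans hN.one_le_n2) hτ k hJ2.le).trans ?_
    have h1 : (J : ℝ) * Real.log 2 ≤ Real.log n2 := by
      rw [← Real.log_pow]
      exact Real.log_le_log (by positivity) hJ1
    have h2 : Real.log 2 ≤ 1 := by
      have := Real.log_le_sub_one_of_pos (two_pos (α := ℝ))
      linarith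
    have h3 := hN.n2_le
    have h4 := hN.x0_le
    push_cast
    nlinarith

end Pool.Agent.Lib.MP_e7c912_an
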