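import Pool.Agent.Lib.MP_e7c912_an.H60Limit
import Pool.Agent.Lib.MP_e7c912_an.H60Ose

/-! The invariant measure generated by an unstable state. -/

namespace Pool.Agent.Lib.MP_e7c912_an

open MeasureTheory Filter Metric Set Topology
open scoped ENNReal

/-- A monotone family of sets that is translated by the map is almost everywhere constant. -/
theorem ae_const_str {Y : Type} [MeasurableSpace Y] {T : Y → Y} {μ : Measure Y}
    [IsFiniteMeasure μ] (hT : MeasurePreserving T μ μ) {S : ℤ → Set Y}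
    (hS : ∀ n, MeasurableSet (S n)) (hi : ∀ n, T ⁻¹' S n = S (n + 1))
    (hm : ∀ n, S n ⊆ S (n + 1) ∨ S (n + 1) ⊆ S n) : ∀ᵐ y ∂μ, ∀ n, y ∈ S n ↔ y ∈ S 0 := by
  have h1 : ∀ n, μ (S (n + 1)) = μ (S n) := fun n => by
    rw [← hi n, hT.measure_preimage (hS n).nullMeasurableSet]
  have h2 : ∀ n, ∀ᵐ y ∂μ, y ∈ S n ↔ y ∈ S (n + 1) := fun n => by
    rcases hm n with h | h
    · exact (ae_eq_of_subset_of_measure_ge h (h1 n).le (hS n).nullMeasurableSet
        (measure_ne_top _ _)).mem_iff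
    · exact (ae_eq_of_subset_of_measure_ge h (h1 n).ge (hS _).nullMeasurableSet
        (measure_ne_top _ _)).symm.mem_iff
  filter_upwards [ae_all_iff.2 h2] with y hy n
  induction n using Int.induction_on with
  | zero => rfl
  | succ k ih => rw [← hy k, ih]
  | pred k ih =>
    rw [← ih, hy (-(k : ℤ) - 1)]
    simp

/-- The sum of the images of a measure that is invariant under an iterate is invariant. -/
theorem sum_inv_str {Y : Type} [MeasurableSpace Y] {f : Y → Y} (hf : Measurable f) {ν : Measure Y}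
    {p : ℕ} (hp : 1 ≤ p) (h : ν.map f^[p] = ν) :
    MeasurePreserving f (∑ j ∈ Finset.range p, ν.map f^[j])
      (∑ j ∈ Finset.range p, ν.map f^[j]) := by
  refine ⟨hf, ?_⟩
  obtain ⟨r, rfl⟩ : ∃ r, p = r + 1 := ⟨p - 1, by omega⟩
  rw [Measure.map_finset_sum hf.aemeasurable]
  have h1 : ∀ j, (ν.map f^[j]).map f = ν.map f^[j + 1] := fun j => by
    rw [Measure.map_map hf (hf.iterate j), Function.iterate_succ']
  simp only [h1]
  rw [Finset.sum_range_succ, h, Finset.sum_range_succ' (fun j => ν.map f^[j])]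
  simp

variable {X : Type} [MetricSpace X] [CompactSpace X] [MeasurableSpace X] [BorelSpace X]
  {A : Atlas X}

/-- Some time is flagged. -/
def OStr (A : Atlas X) (ε : ℝ) : Set (Om A ε) := {ω | ∃ j, ω.fl j = true}

omit [CompactSpace X] [BorelSpace X] in
theorem fl_shift_str {ε : ℝ} (ω : Om A ε) (j : ℤ) : ω.shift.fl j = ω.fl (j + 1) := rfl

theorem measurableSet_fl_str {ε : ℝ} (j : ℤ) : MeasurableSet {ω : Om A ε | ω.fl j = true} := by
  have : Continuous fun ω : Om A ε => ω.fl j := by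
    unfold Om.fl
    fun_prop
  exact (isClosed_eq this continuous_const).measurableSet

theorem measurableSet_o_str {ε : ℝ} : MeasurableSet (OStr A ε) := by
  have : OStr A ε = ⋃ j : ℤ, {ω : Om A ε | ω.fl j = true} := by
    ext ω
    simp [OStr]
  rw [this]
  exact MeasurableSet.iUnion measurableSet_fl_str

omit [CompactSpace X] [BorelSpace X] in
theorem preimage_o_str {ε : ℝ} : Om.shift ⁻¹' OStr A ε = OStr A ε := by
  ext ω
  constructor
  · rintro ⟨j, hj⟩
    exact ⟨j + 1, hj⟩
  · rintro ⟨j, hj⟩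
    refine ⟨j - 1, ?_⟩
    rw [fl_shift_str, sub_add_cancel]
    exact hj

theorem ae_two_str {ε : ℝ} {P : Measure (Om A ε)} [IsFiniteMeasure P]
    (h : MeasurePreserving Om.shift P P) :
    ∀ᵐ ω ∂P, ω ∈ OStr A ε → (∃ a ≤ 0, ω.fl a = true) ∧ ∃ b, 0 < b ∧ ω.fl b = true := by
  have h1 := ae_const_str h (S := fun n => {ω : Om A ε | ∃ a ≤ n, ω.fl a = true})
    (fun n => by
      have : {ω : Om A ε | ∃ a ≤ n, ω.fl a = true} =
          ⋃ a : ℤ, ⋃ _ : a ≤ n, {ω : Om A ε | ω.fl a = true} := by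
        ext ω
        simp
      rw [this]
      exact MeasurableSet.iUnion fun a => MeasurableSet.iUnion fun _ => measurableSet_fl_str a)
    (fun n => by
      ext ω
      constructor
      · rintro ⟨j, hj, hj'⟩
        exact ⟨j + 1, by omega, hj'⟩
      · rintro ⟨j, hj, hj'⟩
        refine ⟨j - 1, by omega, ?_⟩
        rw [fl_shift_str, sub_add_cancel]
        exact hj')
    (fun n => Or.inl fun ω ⟨a, ha, ha'⟩ => ⟨a, by omega, ha'⟩)
  have h2 := ae_const_str h (S := fun n => {ω : Om A ε | ∃ a, n < a ∧ ω.fl a = true})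
    (fun n => by
      have : {ω : Om A ε | ∃ a, n < a ∧ ω.fl a = true} =
          ⋃ a : ℤ, ⋃ _ : n < a, {ω : Om A ε | ω.fl a = true} := by
        ext ω
        simp
      rw [this]
      exact MeasurableSet.iUnion fun a => MeasurableSet.iUnion fun _ => measurableSet_fl_str a)
    (fun n => by
      ext ω
      constructor
      · rintro ⟨j, hj, hj'⟩
        exact ⟨j + 1, by omega, hj'⟩
      · rintro ⟨j, hj, hj'⟩
        refine ⟨j - 1, by omega, ?_⟩
        rw [fl_shift_str, sub_add_cancel]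
        exact hj')
    (fun n => Or.inr fun ω ⟨a, ha, ha'⟩ => ⟨a, by omega, ha'⟩)
  filter_upwards [h1, h2] with ω h1 h2 ⟨j, hj⟩
  exact ⟨(h1 j).1 ⟨j, le_rfl, hj⟩, (h2 (j - 1)).1 ⟨j, by omega, hj⟩⟩

theorem low_o_str {F : Dif A} {q : Prm} {b : ℝ} {P : Measure (Om A q.ε)} [IsProbabilityMeasure P]
    (h : UState F q b P) : q.p * (b - 4 * q.α) ≤ ∫ ω in OStr A q.ε, ω.uu q.Λ 0 ∂P := by
  have hint : Integrable (fun ω : Om A q.ε => ω.uu q.Λ 0) P :=
    Integrable.of_bound (Om.continuous_uu q.Λ 0).aestronglyMeasurable |q.Λ|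
      (Eventually.of_forall fun ω => Om.abs_uu_le q.Λ ω 0)
  have hmeas : ∀ M : ℕ, MeasurableSet (OM A q.ε M) := fun M =>
    (isClopen_om M).isOpen.measurableSet
  have hmono : Monotone (OM A q.ε) := by
    rintro M M' hM ω ⟨a, c, h1, h2, h3, h4⟩
    exact ⟨a, c, h1, h2, h3.trans (by exact_mod_cast hM), h4⟩
  have hU : (⋃ M, OM A q.ε M : Set (Om A q.ε)) =ᵐ[P] OStr A q.ε := by
    refine eventuallyEq_set.2 ?_
    filter_upwards [ae_two_str h.inv] with ω hω
    constructor
    · intro h1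
      obtain ⟨M, a, c, -, -, -, h4, -⟩ := mem_iUnion.1 h1
      exact ⟨a, h4⟩
    · intro h1
      obtain ⟨⟨a, ha, ha'⟩, c, hc, hc'⟩ := hω h1
      exact mem_iUnion.2 ⟨(c - a).toNat, a, c, ha, hc, Int.self_le_toNat _, ha', hc'⟩
  have t1 := tendsto_setIntegral_of_monotone hmeas hmono (hint.integrableOn (s := ⋃ M, OM A q.ε M))
  rw [setIntegral_congr_set hU] at t1
  have hF : MeasurableSet (Fl0 A q.ε) := isClopen_fl0.isOpen.measurableSet
  have t2 := tendsto_measure_iInter_atTop (μ := P) (s := fun M : ℕ => Fl0 A q.ε ∩ (OM A q.ε M)ᶜ)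
    (fun M => (hF.inter (hmeas M).compl).nullMeasurableSet)
    (fun M M' hM => inter_subset_inter_right _ (compl_subset_compl.2 (hmono hM)))
    ⟨0, measure_ne_top _ _⟩
  have h0 : P (⋂ M : ℕ, Fl0 A q.ε ∩ (OM A q.ε M)ᶜ) = 0 := by
    refine measure_eq_zero_iff_ae_notMem.2 ?_
    filter_upwards [hU.mem_iff] with ω hω h1
    have h2 := mem_iInter.1 h1
    obtain ⟨M, hM⟩ := mem_iUnion.1 (hω.2 ⟨0, (h2 0).1⟩)
    exact (h2 M).2 hM
  rw [h0] at t2
  have t3 : Tendsto (fun M : ℕ => P.real (Fl0 A q.ε ∩ (OM A q.ε M)ᶜ)) atTop (𝓝 0) := by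
    have := (ENNReal.tendsto_toReal ENNReal.zero_ne_top).comp t2
    simpa [Measure.real, Function.comp_def] using this
  have t4 := t1.add (t3.const_mul (Real.log 4 + q.Λ))
  rw [mul_zero, add_zero] at t4
  refine ge_of_tendsto t4 ?_
  filter_upwards [eventually_ge_atTop 1] with M hM
  have h1 := h.gap M hM
  have h2 := h.low
  rw [← integral_add_compl (hmeas M) hint] at h2
  linarith

omit [CompactSpace X] in
theorem avg_le_str {F : Dif A} {q : Prm} (hp : 1 ≤ q.p) {ω : Om A q.ε} (h : Rel F q ω) {c : ℝ}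
    (hc : Tendsto (fun n : ℕ => birkhoffAverage ℝ Om.shift (fun ω : Om A q.ε => ω.uu q.Λ 0) n ω)
      atTop (𝓝 c)) : c / q.p ≤ l1 (A.coc F.f) ω.xx := by
  obtain ⟨K, hK⟩ := F.cocycle
  obtain ⟨i, hi, h⟩ := h
  have hp' : (0 : ℝ) < q.p := by exact_mod_cast hp
  have hAK : 0 < A.K := one_pos.trans_le A.one_le_K
  have t1 : Tendsto (fun n : ℕ => (birkhoffAverage ℝ Om.shift
      (fun ω : Om A q.ε => ω.uu q.Λ 0) n ω - 2 * Real.log A.K / n) / q.p) atTop (𝓝 (c / q.p)) := by
    have := (hc.sub (tendsto_const_div_atTop_nhds_zero_nat (2 * Real.log A.K))).div_const (q.p : ℝ)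
    simpa using this
  refine le_of_forall_lt_imp_le_of_dense fun c' hc' => ?_
  refine le_limsup_of_frequently_le ?_ ?_
  · have ht : Tendsto (fun n : ℕ => q.p * n) atTop atTop :=
      tendsto_atTop_mono (fun n => Nat.le_mul_of_pos_left n hp) tendsto_id
    refine ht.frequently (Eventually.frequently ?_)
    filter_upwards [t1.eventually (lt_mem_nhds hc'), eventually_ge_atTop 1] with n hn hn1
    have hn' : (0 : ℝ) < n := by exact_mod_cast hn1
    have h1 := (h n).trans (((F.smf.iter q.p).iter n).norm_fderiv_le hi)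
    rw [← Function.iterate_mul] at h1
    have h2 : birkhoffAverage ℝ Om.shift (fun ω : Om A q.ε => ω.uu q.Λ 0) n ω =
        (∑ j ∈ Finset.range n, ω.uu q.Λ j) / n := by
      simp only [birkhoffAverage, birkhoffSum, smul_eq_mul, Om.uu, Om.shift_iter, zero_add]
      rw [div_eq_inv_mul]
    have h3 : 0 < ‖A.Dm F.f^[q.p * n] ω.xx‖ := by
      have := (Real.exp_pos _).trans_le h1
      exact (mul_pos_iff_of_pos_left (by positivity)).1 this
    have h4 := Real.log_le_log (Real.exp_pos _) h1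
    rw [Real.log_exp, Real.log_mul (by positivity) h3.ne', Real.log_pow] at h4
    refine hn.le.trans ?_
    rw [h2, ← sub_div, div_div, Nat.cast_mul, mul_comm (n : ℝ)]
    refine div_le_div_of_nonneg_right ?_ (by positivity)
    simp only [Atlas.coc]
    push_cast at h4
    linarith
  · refine isBoundedUnder_of ⟨Real.log K, fun n => ?_⟩
    rcases Nat.eq_zero_or_pos n with rfl | hn
    · simpa using Real.log_nonneg hK.one_le
    · have hn' : (0 : ℝ) < n := by exact_mod_cast hn
      rw [div_le_iff₀ hn']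
      exact (le_abs_self _).trans (hK.abs_log_le n _)

theorem gibbs_of_ustate {F : Dif A} {q : Prm} (hp : 1 ≤ q.p) {b : ℝ} (hb : 4 * q.α < b)
    {P : Measure (Om A q.ε)} [IsProbabilityMeasure P] (h : UState F q b P) :
    ∃ m : Measure X, Gibbs F q (kap P) m ∧ m {x | b - 4 * q.α ≤ l1 (A.coc F.f) x} ≠ 0 := by
  have hf : Measurable F.f := F.smf.1.measurable
  have hxx : Measurable (Om.xx : Om A q.ε → X) := Om.continuous_xx.measurable
  have hsh : Measurable (Om.shift : Om A q.ε → Om A q.ε) := h.inv.measurable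
  have hO : MeasurableSet (OStr A q.ε) := measurableSet_o_str
  have hF : MeasurableSet (Fl0 A q.ε) := isClopen_fl0.isOpen.measurableSet
  have hstep : ∀ᵐ ω ∂P, ω.shift.xx = F.f^[q.p] ω.xx := by
    filter_upwards [h.con] with ω hω
    exact hω.1.1
  set ν : Measure X := (P.restrict (OStr A q.ε)).map Om.xx with hν
  have hνinv : ν.map F.f^[q.p] = ν := by
    have h1 := (measurePreserving_restrict h.inv hO preimage_o_str).map_eq
    calc ν.map F.f^[q.p] = (P.restrict (OStr A q.ε)).map (F.f^[q.p] ∘ Om.xx) :=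
          Measure.map_map (hf.iterate _) hxx
      _ = (P.restrict (OStr A q.ε)).map (Om.xx ∘ Om.shift) := by
          refine Measure.map_congr (ae_restrict_of_ae ?_)
          filter_upwards [hstep] with ω hω
          exact hω.symm
      _ = ν := by rw [← Measure.map_map hxx hsh, h1]
  have hle : ν ≤ ∑ j ∈ Finset.range q.p, ν.map F.f^[j] := by
    have := Finset.single_le_sum (f := fun j => ν.map F.f^[j]) (s := Finset.range q.p)
      (fun j _ => Measure.zero_le _) (Finset.mem_range.2 hp)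
    simpa using this
  have hνapp : ∀ Z, MeasurableSet Z → ν Z = P (Om.xx ⁻¹' Z ∩ OStr A q.ε) := fun Z hZ => by
    rw [hν, Measure.map_apply hxx hZ, Measure.restrict_apply (hxx hZ)]
  refine ⟨∑ j ∈ Finset.range q.p, ν.map F.f^[j],
    ⟨isFiniteMeasure_kap P, inferInstance, sum_inv_str hf hp hνinv, h.ae_uall, ?_, ?_⟩, ?_⟩
  · rw [← h.link]
    have h1 : (P.restrict (Fl0 A q.ε)).map Om.xx ≤ ν :=
      Measure.map_mono (Measure.restrict_mono (s' := OStr A q.ε) (fun ω hω => ⟨0, hω⟩) le_rfl) hxx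
    refine (h1.trans hle).trans ?_
    intro s
    rw [Measure.smul_apply, smul_eq_mul]
    exact le_mul_of_one_le_left (zero_le) (by exact_mod_cast hp)
  · intro Z hZ hZi h0
    have hZj : ∀ j, F.f^[j] ⁻¹' Z = Z := fun j => by
      rw [Set.preimage_iterate_eq]
      exact Function.iterate_fixed hZi j
    have h1 : ν Z = 0 := by
      rw [← h.link, Measure.map_apply hxx hZ, Measure.restrict_apply (hxx hZ)] at h0
      rw [hνapp Z hZ]
      have h2 : ∀ᵐ ω ∂P, ω ∉ Om.xx ⁻¹' Z ∩ Fl0 A q.ε := measure_eq_zero_iff_ae_notMem.1 h0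
      have h3 : ∀ k : ℕ, ∀ᵐ ω ∂P, Om.shift^[k] ω ∉ Om.xx ⁻¹' Z ∩ Fl0 A q.ε ∧
          (Om.shift^[k] ω).shift.xx = F.f^[q.p] (Om.shift^[k] ω).xx := fun k =>
        (h.inv.iterate k).quasiMeasurePreserving.ae (h2.and hstep)
      refine measure_eq_zero_iff_ae_notMem.2 ?_
      filter_upwards [ae_all_iff.2 h3, ae_two_str h.inv] with ω h3 h4 ⟨h5, h6⟩
      obtain ⟨-, c, hc, hc'⟩ := h4 h6
      have h7 : ∀ k : ℕ, (Om.shift^[k] ω).xx ∈ Z := fun k => by
        induction k with
        | zero => exact h5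
        | succ k ih =>
          rw [Function.iterate_succ_apply', (h3 k).2]
          rw [← hZj q.p] at ih
          exact ih
      refine (h3 c.toNat).1 ⟨h7 _, ?_⟩
      change ((Om.shift^[c.toNat] ω) 0).2.1 = true
      rw [Om.shift_iter, zero_add, Int.toNat_of_nonneg hc.le]
      exact hc'
    rw [Measure.finsetSum_apply]
    refine Finset.sum_eq_zero fun j _ => ?_
    rw [Measure.map_apply (hf.iterate j) hZ, hZj, h1]
  · intro h0
    obtain ⟨K, hK⟩ := F.cocycle
    have hW : MeasurableSet {x | b - 4 * q.α ≤ l1 (A.coc F.f) x} :=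
      measurableSet_le measurable_const hK.measurable_l1
    have h1 : ν {x | b - 4 * q.α ≤ l1 (A.coc F.f) x} = 0 :=
      le_antisymm ((hle _).trans h0.le) zero_le
    rw [hνapp _ hW] at h1
    have hp' : (0 : ℝ) < q.p := by exact_mod_cast hp
    have hφ : Measurable fun ω : Om A q.ε => ω.uu q.Λ 0 := (Om.continuous_uu q.Λ 0).measurable
    have hφb : ∀ ω : Om A q.ε, |ω.uu q.Λ 0| ≤ |q.Λ| := fun ω => Om.abs_uu_le q.Λ ω 0
    set av := avg Om.shift fun ω : Om A q.ε => ω.uu q.Λ 0 with hav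
    have h2 : ∀ᵐ ω ∂P.restrict (OStr A q.ε), 0 < q.p * (b - 4 * q.α) - av ω := by
      rw [ae_restrict_iff' hO]
      filter_upwards [measure_eq_zero_iff_ae_notMem.1 h1, h.con, ae_tendsto_avg h.inv hφ hφb]
        with ω h1 h2 h3 h4
      have h5 := avg_le_str hp h2.1.2.1 h3
      have h6 : l1 (A.coc F.f) ω.xx < b - 4 * q.α := not_le.1 fun h6 => h1 ⟨h6, h4⟩
      have h7 := h5.trans_lt h6
      rw [div_lt_iff₀ hp'] at h7
      linarith
    have h3 := low_o_str h
    rw [← setIntegral_avg h.inv hφ hφb hO preimage_o_str] at h3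
    have hint : Integrable av (P.restrict (OStr A q.ε)) :=
      Integrable.of_bound (measurable_avg hsh hφ).aestronglyMeasurable |q.Λ|
        (Eventually.of_forall fun ω => abs_avg_le hφb ω)
    have hpos : 0 < q.p * (b - 4 * q.α) := mul_pos hp' (sub_pos.2 hb)
    have h4 : ∫ ω in OStr A q.ε, (q.p * (b - 4 * q.α) - av ω) ∂P = 0 := by
      refine le_antisymm ?_ (integral_nonneg_of_ae (h2.mono fun ω hω => hω.le))
      rw [integral_sub (integrable_const _) hint, setIntegral_const, smul_eq_mul]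
      have : P.real (OStr A q.ε) ≤ 1 := measureReal_le_one
      nlinarith
    have h5 := (integral_eq_zero_iff_of_nonneg_ae (h2.mono fun ω hω => hω.le)
      ((integrable_const _).sub hint)).1 h4
    have h6 : ∀ᵐ ω ∂P.restrict (OStr A q.ε), False := by
      filter_upwards [h2, h5] with ω h2 h5
      exact h2.ne' h5
    have h7 : P.restrict (OStr A q.ε) = 0 := by
      rwa [eventually_false_iff_eq_bot, ae_eq_bot] at h6
    rw [h7, integral_zero_measure] at h3
    linarith

end Pool.Agent.Lib.MP_e7c912_an
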