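import Pool.Agent.Lib.MP_e7c912_an.H60Tau1

/-! A smooth segment most of whose points are generic for a given SRB measure. -/

namespace Pool.Agent.Lib.MP_e7c912_an

open MeasureTheory Filter Metric Set Topology

theorem deriv_affine_tau {E : Type} [NormedAddCommGroup E] [NormedSpace ℝ E] (g : ℝ → E)
    (a k t : ℝ) : deriv (fun t => g (a + k * t)) t = k • deriv g (a + k * t) := by
  rw [deriv_comp_mul_left k (fun z => g (a + z)) t, deriv_comp_const_add]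

theorem iteratedDeriv_affine_tau {E : Type} [NormedAddCommGroup E] [NormedSpace ℝ E] (g : ℝ → E)
    (a k : ℝ) (n : ℕ) :
    iteratedDeriv n (fun t => g (a + k * t)) = fun t => k ^ n • iteratedDeriv n g (a + k * t) := by
  induction n with
  | zero => simp
  | succ n ih =>
    funext t
    rw [iteratedDeriv_succ, ih, deriv_fun_const_smul_field, deriv_affine_tau, smul_smul,
      ← pow_succ, iteratedDeriv_succ]

/-- A measurable set of positive measure almost fills some short interval. -/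
theorem dense_tau {S : Set ℝ} (h0 : volume S ≠ 0) {γ δ : ℝ} (hγ : 0 < γ) (hδ : 0 < δ) :
    ∃ u0 ∈ S, ∃ h : ℝ, 0 < h ∧ h ≤ δ ∧
      1 - γ ≤ volume.real {t | t ∈ Ico (0 : ℝ) 1 ∧ u0 - h + 2 * h * t ∈ S} := by
  obtain ⟨u0, hu0, ht⟩ := Measure.exists_mem_of_measure_ne_zero_of_ae h0
    (Besicovitch.ae_tendsto_measure_inter_div volume S)
  have h1 : ENNReal.ofReal (1 - γ) < 1 := ENNReal.ofReal_lt_one.2 (by linarith)
  have h2 := ht.eventually (lt_mem_nhds h1)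
  have h3 : ∀ᶠ h in 𝓝[>] (0 : ℝ), h ∈ Ioc 0 δ := Ioc_mem_nhdsGT hδ
  obtain ⟨h, h4, h5, h6⟩ := (h2.and h3).exists
  refine ⟨u0, hu0, h, h5, h6, ?_⟩
  have h7 : {t | t ∈ Ico (0 : ℝ) 1 ∧ u0 - h + 2 * h * t ∈ S} =
      (fun t => 2 * h * t) ⁻¹' ((fun z => u0 - h + z) ⁻¹' (S ∩ Ico (u0 - h) (u0 + h))) := by
    ext t
    simp only [mem_ofPred_eq, mem_preimage, mem_inter_iff, mem_Ico]
    constructor
    · rintro ⟨⟨h8, h9⟩, h10⟩
      exact ⟨h10, by nlinarith, by nlinarith⟩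
    · rintro ⟨h10, h8, h9⟩
      refine ⟨⟨?_, ?_⟩, h10⟩
      · by_contra hn
        rw [not_le] at hn
        nlinarith
      · by_contra hn
        rw [not_lt] at hn
        nlinarith
  have h8 : volume (S ∩ Ico (u0 - h) (u0 + h)) = volume (S ∩ closedBall u0 h) := by
    rw [Real.closedBall_eq_Icc]
    exact measure_congr (EventuallyEq.inter (EventuallyEq.refl _ _) Ico_ae_eq_Icc)
  have h9 : volume {t | t ∈ Ico (0 : ℝ) 1 ∧ u0 - h + 2 * h * t ∈ S} =
      volume (S ∩ closedBall u0 h) / volume (closedBall u0 h) := by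
    rw [h7, Real.volume_preimage_mul_left (by positivity), measure_preimage_add, h8,
      Real.volume_closedBall, abs_of_pos (by positivity), ENNReal.ofReal_inv_of_pos (by positivity),
      ENNReal.div_eq_inv_mul]
  have h10 : volume {t | t ∈ Ico (0 : ℝ) 1 ∧ u0 - h + 2 * h * t ∈ S} ≠ ⊤ :=
    ne_top_of_le_ne_top (by simp) (measure_mono fun t ht => ht.1)
  rw [← h9] at h4
  exact (ENNReal.ofReal_le_iff_le_toReal h10).1 h4.le

variable {X : Type} [MetricSpace X] [CompactSpace X] [MeasurableSpace X] [BorelSpace X]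
  {A : Atlas X}

omit [CompactSpace X] [BorelSpace X] in
/-- The horizontal segment of a box is smooth, with speed bounded below. -/
theorem Box.seg_tau {F : Dif A} {Λ : Set X} {x0 : X} {ρ K c ε0 : ℝ} (B : Box F Λ x0 ρ K c ε0)
    (r : ℕ) {u : ℝ} (hu : u ∈ Icc (-(2 * ρ)) (2 * ρ)) :
    ContDiffAt ℝ r (A.e ∘ fun t : ℝ => B.Ψ (t, 0)) u ∧
      1 ≤ K * ‖deriv (A.e ∘ fun t : ℝ => B.Ψ (t, 0)) u‖ := by
  let l : ℝ → V := fun t => A.φ B.i x0 + B.C (t, 0)
  have hl : ContDiff ℝ (r + 1 : ℕ) l := by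
    refine contDiff_const.add (B.C.contDiff.comp ?_)
    exact contDiff_id.prodMk contDiff_const
  have hmem : l u ∈ A.U B.i := by
    refine A.ball_sub B.i x0 B.mem ?_
    rw [mem_ball, dist_eq_norm]
    change ‖A.φ B.i x0 + B.C (u, 0) - A.φ B.i x0‖ < A.ρ
    rw [add_sub_cancel_left]
    have h1 : ‖B.C (u, 0)‖ ≤ 1 * ‖((u, 0) : V)‖ :=
      (B.C.le_opNorm _).trans (mul_le_mul_of_nonneg_right B.C_le (norm_nonneg _))
    have h2 : ‖((u, 0) : V)‖ ≤ 2 * ρ := by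
      rw [Prod.norm_mk, norm_zero, Real.norm_eq_abs, max_eq_left (abs_nonneg _), abs_le]
      exact hu
    have h3 := B.ρ_le
    have h4 := A.one_le_K
    have h5 := B.ρ_pos
    nlinarith
  obtain ⟨K', hK'⟩ := A.smooth (r + 1)
  have hs : ContDiffAt ℝ (r + 1 : ℕ) (A.e ∘ fun t : ℝ => B.Ψ (t, 0)) u :=
    ((hK' B.i).1.contDiffAt ((A.U_open B.i).mem_nhds hmem)).comp u hl.contDiffAt
  refine ⟨hs.of_le (by exact_mod_cast Nat.le_succ r), ?_⟩
  have hd := (hs.differentiableAt (by simp)).hasDerivAt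
  have h1 := (A.pr B.i).hasFDerivAt.comp_hasDerivAt u hd
  have h2 : HasDerivAt l (B.C (1, 0)) u := by
    have h3 : HasDerivAt (fun t : ℝ => ((t, 0) : V)) (1, 0) u :=
      (hasDerivAt_id u).prodMk (hasDerivAt_const u 0)
    exact (B.C.hasFDerivAt.comp_hasDerivAt u h3).const_add _
  have h4 : (A.pr B.i ∘ A.e ∘ fun t : ℝ => B.Ψ (t, 0)) =ᶠ[𝓝 u] l := by
    filter_upwards [hl.continuous.continuousAt.preimage_mem_nhds ((A.U_open B.i).mem_nhds hmem)]
      with t ht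
    exact A.right_inv B.i _ ht
  have h5 := h1.unique (h2.congr_of_eventuallyEq h4)
  have h6 : ‖B.C (1, 0)‖ ≤ 1 * ‖deriv (A.e ∘ fun t : ℝ => B.Ψ (t, 0)) u‖ := by
    rw [← h5]
    exact ((A.pr B.i).le_opNorm _).trans (mul_le_mul_of_nonneg_right (A.pr_le _) (norm_nonneg _))
  have h7 : ‖B.Ci (B.C (1, 0))‖ ≤ K * ‖B.C (1, 0)‖ :=
    (B.Ci.le_opNorm _).trans (mul_le_mul_of_nonneg_right B.Ci_le (norm_nonneg _))
  rw [B.Ci_C] at h7
  have h8 : ‖((1, 0) : V)‖ = 1 := by simp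
  have h9 := B.one_le
  rw [h8] at h7
  nlinarith

/-- Bounds for finitely many derivatives on a compact interval. -/
theorem bound_tau {E : Type} [NormedAddCommGroup E] [NormedSpace ℝ E] {g : ℝ → E} {a b : ℝ} {r : ℕ}
    (hg : ∀ u ∈ Icc a b, ContDiffAt ℝ r g u) :
    ∃ M : ℝ, 0 < M ∧ ∀ s ≤ r, ∀ u ∈ Icc a b, ‖iteratedDeriv s g u‖ ≤ M := by
  have h1 : ∀ s : ℕ, ∃ M : ℝ, s ≤ r → ∀ u ∈ Icc a b, ‖iteratedDeriv s g u‖ ≤ M := by
    intro s
    by_cases hs : s ≤ r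
    · have h2 : ContinuousOn (iteratedFDeriv ℝ s g) (Icc a b) := fun u hu =>
        ((hg u hu).continuousAt_iteratedFDeriv (by exact_mod_cast hs)).continuousWithinAt
      obtain ⟨M, hM⟩ := isCompact_Icc.exists_bound_of_continuousOn h2
      exact ⟨M, fun _ u hu => by rw [← norm_iteratedFDeriv_eq_norm_iteratedDeriv]; exact hM u hu⟩
    · exact ⟨0, fun h => absurd h hs⟩
  choose M hM using h1
  refine ⟨1 + ∑ s ∈ Finset.range (r + 1), |M s|, by positivity, fun s hs u hu => ?_⟩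
  have h2 : |M s| ≤ ∑ s ∈ Finset.range (r + 1), |M s| :=
    Finset.single_le_sum (f := fun s => |M s|) (fun _ _ => abs_nonneg _)
      (Finset.mem_range.2 (by omega))
  linarith [hM s hs u hu, le_abs_self (M s)]

theorem exists_seed {F : Dif A} {μ : Measure X} (h : SRB F μ) {b b' : ℝ} (hb : 0 < b)
    (hbb : b < b') (hl : ∀ᵐ x ∂μ, b' ≤ l1 (A.coc F.f) x ∧ l2 (A.coc F.f) x < 0) (r : ℕ) {ε γ : ℝ}
    (hε : 0 < ε) (hγ : 0 < γ) : ∃ (τ : ℝ → X) (S : Set ℝ), Seed F μ b r ε γ τ S := by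
  have := h.1
  obtain ⟨Λ, x0, ρ, K, c, ε0, B, hS⟩ := exists_segment (b := (b + b') / 2) h (by linarith)
    (by linarith) hl
  set β : ℝ → X := fun t => B.Ψ (t, 0) with hβ
  set S0 : Set ℝ := {u : ℝ | |u| ≤ ρ ∧ Gen F.f μ (β u) ∧ ∀ᶠ n : ℕ in atTop,
    Real.exp ((b + b') / 2 * n) ≤ ‖deriv (A.e ∘ F.f^[n] ∘ β) u‖} with hS0
  have hρ := B.ρ_pos
  have hK := B.one_le
  have hseg : ∀ u ∈ Icc (-(2 * ρ)) (2 * ρ), ContDiffAt ℝ (r + 1 : ℕ) (A.e ∘ β) u ∧
      1 ≤ K * ‖deriv (A.e ∘ β) u‖ := fun u hu => B.seg_tau (r + 1) hu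
  obtain ⟨M, hM0, hM⟩ := bound_tau fun u hu => (hseg u hu).1
  have hmeas : MeasurableSet S0 := by
    have h1 : ContinuousOn β (Icc (-(2 * ρ)) (2 * ρ)) := fun u hu =>
      (A.iso.isEmbedding.isInducing.continuousAt_iff.2 (hseg u hu).1.continuousAt).continuousWithinAt
    have h2 : MeasurableSet (Subtype.val '' ((Icc (-(2 * ρ)) (2 * ρ)).domRestrict β ⁻¹'
        {x | Gen F.f μ x})) :=
      measurableSet_Icc.subtype_image
        (h1.domRestrict.measurable (measurableSet_gen F.smf.1.measurable))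
    have h3 : MeasurableSet (⋃ N : ℕ, ⋂ n : ℕ, ⋂ _ : N ≤ n,
        {u : ℝ | Real.exp ((b + b') / 2 * n) ≤ ‖deriv (A.e ∘ F.f^[n] ∘ β) u‖}) :=
      MeasurableSet.iUnion fun N => MeasurableSet.iInter fun n => MeasurableSet.iInter fun _ =>
        measurableSet_le measurable_const (measurable_deriv _).norm
    have h4 : S0 = Icc (-ρ) ρ ∩ ((Subtype.val '' ((Icc (-(2 * ρ)) (2 * ρ)).domRestrict β ⁻¹'
        {x | Gen F.f μ x})) ∩ ⋃ N : ℕ, ⋂ n : ℕ, ⋂ _ : N ≤ n,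
        {u : ℝ | Real.exp ((b + b') / 2 * n) ≤ ‖deriv (A.e ∘ F.f^[n] ∘ β) u‖}) := by
      ext u
      simp only [hS0, mem_ofPred_eq, mem_inter_iff, mem_iUnion, mem_iInter, eventually_atTop,
        abs_le, mem_Icc]
      constructor
      · rintro ⟨h5, h6, h7⟩
        exact ⟨h5, ⟨⟨u, by linarith [h5.1], by linarith [h5.2]⟩, h6, rfl⟩, h7⟩
      · rintro ⟨h5, ⟨w, h6, rfl⟩, h7⟩
        exact ⟨h5, h6, h7⟩
    rw [h4]
    exact measurableSet_Icc.inter (h2.inter h3)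
  obtain ⟨u0, hu0, k, hk0, hk, hbig⟩ := dense_tau (S := S0) hS hγ
    (δ := min (min ρ (1 / 2)) (min (1 / (8 * K * M)) (ε / (2 * M)))) (by positivity)
  simp only [le_min_iff] at hk
  obtain ⟨⟨hk1, hk2⟩, hk3, hk4⟩ := hk
  rw [le_div_iff₀ (by positivity)] at hk3 hk4
  have hin : ∀ t ∈ Icc (0 : ℝ) 1, u0 - k + 2 * k * t ∈ Icc (-(2 * ρ)) (2 * ρ) := by
    intro t ht
    obtain ⟨h1, h2⟩ := abs_le.1 hu0.1
    constructor <;> nlinarith [ht.1, ht.2]
  have hder : ∀ (G : X → X) (t : ℝ), ‖deriv (A.e ∘ G ∘ fun t => β (u0 - k + 2 * k * t)) t‖ =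
      2 * k * ‖deriv (A.e ∘ G ∘ β) (u0 - k + 2 * k * t)‖ := by
    intro G t
    have h1 := deriv_affine_tau (A.e ∘ G ∘ β) (u0 - k) (2 * k) t
    change ‖deriv (fun t => (A.e ∘ G ∘ β) (u0 - k + 2 * k * t)) t‖ = _
    rw [h1, norm_smul, Real.norm_eq_abs, abs_of_pos (by positivity)]
  have hder1 : ∀ t : ℝ, ‖deriv (A.e ∘ fun t => β (u0 - k + 2 * k * t)) t‖ =
      2 * k * ‖deriv (A.e ∘ β) (u0 - k + 2 * k * t)‖ := hder id
  refine ⟨fun t => β (u0 - k + 2 * k * t), {t | t ∈ Ico (0 : ℝ) 1 ∧ u0 - k + 2 * k * t ∈ S0},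
    ⟨?_, ?_, ?_⟩, ⟨2 * k / K, by positivity, ?_⟩, ?_, fun t ht => ht.1, hbig,
    fun t ht => ht.2.2.1, ?_⟩
  · intro t ht
    rw [zero_add] at ht
    have h1 : ContDiffAt ℝ r (A.e ∘ β) (u0 - k + 2 * k * t) :=
      (hseg _ (hin t ht)).1.of_le (by exact_mod_cast Nat.le_succ r)
    exact h1.comp (f := fun t : ℝ => u0 - k + 2 * k * t) t (by fun_prop)
  · intro s hs hsr t ht
    rw [zero_add] at ht
    have h1 := congrFun (iteratedDeriv_affine_tau (A.e ∘ β) (u0 - k) (2 * k) s) t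
    rw [hder1, one_pow, mul_one]
    change ‖iteratedDeriv s (fun t => (A.e ∘ β) (u0 - k + 2 * k * t)) t‖ ≤ _
    rw [h1, norm_smul, Real.norm_eq_abs, abs_of_pos (by positivity)]
    have h2 : (2 * k) ^ s ≤ (2 * k) ^ 2 := pow_le_pow_of_le_one (by positivity) (by linarith) hs
    have h3 := hM s (by omega) _ (hin t ht)
    have h4 := (hseg _ (hin t ht)).2
    set D := ‖deriv (A.e ∘ β) (u0 - k + 2 * k * t)‖
    have h5 : 8 * k * M ≤ D := by
      refine le_of_mul_le_mul_left ?_ (by linarith : 0 < K)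
      linarith
    calc (2 * k) ^ s * ‖iteratedDeriv s (A.e ∘ β) (u0 - k + 2 * k * t)‖ ≤ (2 * k) ^ 2 * M := by
          gcongr
      _ = 2 * k * (8 * k * M) / 4 := by ring
      _ ≤ 2 * k * D / 4 := by gcongr
  · intro t ht
    rw [zero_add] at ht
    have h3 := hM 1 (by omega) _ (hin t ht)
    rw [iteratedDeriv_one] at h3
    rw [hder1, mul_one]
    calc 2 * k * ‖deriv (A.e ∘ β) (u0 - k + 2 * k * t)‖ ≤ 2 * k * M := by gcongr
      _ ≤ ε := by linarith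
  · intro t ht
    have h4 := (hseg _ (hin t ht)).2
    rw [hder1, div_le_iff₀ (by linarith)]
    nlinarith
  · exact measurableSet_Ico.inter
      ((show Measurable fun t : ℝ => u0 - k + 2 * k * t by fun_prop) hmeas)
  · intro t ht
    have h1 : Tendsto (fun n : ℕ => Real.exp ((b' - b) / 2 * n)) atTop atTop :=
      Real.tendsto_exp_atTop.comp (tendsto_natCast_atTop_atTop.const_mul_atTop (by linarith))
    filter_upwards [ht.2.2.2, h1.eventually_ge_atTop (1 / (2 * k))] with n h2 h3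
    rw [hder]
    rw [div_le_iff₀ (by positivity)] at h3
    have h4 : Real.exp ((b + b') / 2 * n) = Real.exp ((b' - b) / 2 * n) * Real.exp (b * n) := by
      rw [← Real.exp_add]
      congr 1
      ring
    have h5 := Real.exp_pos (b * n)
    calc Real.exp (b * n) ≤ Real.exp ((b' - b) / 2 * n) * (2 * k) * Real.exp (b * n) :=
          le_mul_of_one_le_left h5.le h3
      _ = 2 * k * Real.exp ((b + b') / 2 * n) := by rw [h4]; ring
      _ ≤ _ := by gcongr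

end Pool.Agent.Lib.MP_e7c912_an
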