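import Pool.Agent.Lib.MP_e7c912_an.H60SLem

/-! Two ingredients for the states along a tree: the gap inequality and the resampling identity. -/

namespace Pool.Agent.Lib.MP_e7c912_an

open MeasureTheory Filter Metric Set Topology

variable {X : Type} [MetricSpace X] [MeasurableSpace X] {A : Atlas X} {ε : ℝ}

theorem fl_iter_tree1 (ω : Om A ε) (k : ℕ) (j : ℤ) : (Om.shift^[k] ω).fl j = ω.fl (j + k) := by
  unfold Om.fl
  rw [Om.shift_iter]

theorem uu_iter_tree1 (Λ : ℝ) (ω : Om A ε) (k : ℕ) : (Om.shift^[k] ω).uu Λ 0 = ω.uu Λ k := by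
  unfold Om.uu
  rw [Om.shift_iter, zero_add]

theorem om_succ_tree1 (ω : Om A ε) (M k : ℕ) (h : Om.shift^[k] ω ∈ OM A ε M)
    (hf : ω.fl (k + 1) = false) : Om.shift^[k + 1] ω ∈ OM A ε M := by
  obtain ⟨a, b, ha, hb, hab, fa, fb⟩ := h
  rw [fl_iter_tree1] at fa fb
  have hb1 : b ≠ 1 := by
    rintro rfl
    rw [add_comm, hf] at fb
    exact Bool.false_ne_true fb
  refine ⟨a - 1, b - 1, by omega, by omega, by omega, ?_, ?_⟩
  · rw [fl_iter_tree1, ← fa]
    congr 1
    push_cast
    ring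
  · rw [fl_iter_tree1, ← fb]
    congr 1
    push_cast
    ring

theorem gap_ineq (ω : Om A ε) {Λ l0 : ℝ} {v z : ℕ → ℝ} (hΛ : 0 ≤ Λ) (h0 : 0 < l0) (hl : l0 ≤ v 0)
    (vpos : ∀ k, 0 < v k) (vle : ∀ k, v k ≤ ε) (zpos : ∀ k, 0 ≤ z k)
    (big : ∀ k : ℕ, ω.fl k = true → ε / 4 ≤ v k)
    (short : ∀ k : ℕ, ω.fl (k + 1) = false → ω.uu Λ k = Real.log (v (k + 1)) - Real.log (v k) + z k)
    (M T : ℕ) :
    ∑ k ∈ Finset.range T, ((OM A ε M)ᶜ).indicator (fun ω => ω.uu Λ 0) (Om.shift^[k] ω) ≤
      (Λ + Real.log ε - Real.log l0) + (Real.log 4 + Λ) * ∑ k ∈ Finset.range T,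
        (Fl0 A ε ∩ (OM A ε M)ᶜ).indicator (fun _ => (1 : ℝ)) (Om.shift^[k] ω) +
      ∑ k ∈ Finset.range T, z k := by
  have hε : 0 < ε := (vpos 0).trans_le (vle 0)
  have hl4 : 0 ≤ Real.log 4 := Real.log_nonneg (by norm_num)
  have key : ∀ T : ℕ,
      (∑ k ∈ Finset.range T, ((OM A ε M)ᶜ).indicator (fun ω => ω.uu Λ 0) (Om.shift^[k] ω) ≤
      (Λ + Real.log ε - Real.log l0) + (Real.log 4 + Λ) * ∑ k ∈ Finset.range T,
        (Fl0 A ε ∩ (OM A ε M)ᶜ).indicator (fun _ => (1 : ℝ)) (Om.shift^[k] ω) +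
      ∑ k ∈ Finset.range T, z k) ∧
      (ω.fl T = false → Om.shift^[T] ω ∉ OM A ε M →
      ∑ k ∈ Finset.range T, ((OM A ε M)ᶜ).indicator (fun ω => ω.uu Λ 0) (Om.shift^[k] ω) ≤
      (Real.log (v T) - Real.log l0) + (Real.log 4 + Λ) * ∑ k ∈ Finset.range T,
        (Fl0 A ε ∩ (OM A ε M)ᶜ).indicator (fun _ => (1 : ℝ)) (Om.shift^[k] ω) +
      ∑ k ∈ Finset.range T, z k) := by
    intro T
    induction T with
    | zero =>
      have h1 : Real.log l0 ≤ Real.log (v 0) := Real.log_le_log h0 hl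
      have h2 : Real.log (v 0) ≤ Real.log ε := Real.log_le_log (vpos 0) (vle 0)
      simp only [Finset.range_zero, Finset.sum_empty, mul_zero, add_zero]
      exact ⟨by linarith, fun _ _ => by linarith⟩
    | succ T ih =>
      obtain ⟨ih1, ih2⟩ := ih
      have hz := zpos T
      have hu : ω.uu Λ T ≤ Λ := by
        have := Om.abs_uu_le Λ ω T
        rw [abs_of_nonneg hΛ] at this
        exact (le_abs_self _).trans this
      have hv : Real.log (v T) ≤ Real.log ε := Real.log_le_log (vpos T) (vle T)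
      simp only [Finset.sum_range_succ]
      by_cases hO : Om.shift^[T] ω ∈ OM A ε M
      · have e1 : ((OM A ε M)ᶜ).indicator (fun ω => ω.uu Λ 0) (Om.shift^[T] ω) = 0 :=
          indicator_of_notMem (show Om.shift^[T] ω ∉ (OM A ε M)ᶜ from fun h => h hO) _
        have e2 : (Fl0 A ε ∩ (OM A ε M)ᶜ).indicator (fun _ => (1 : ℝ)) (Om.shift^[T] ω) = 0 :=
          indicator_of_notMem (fun h => h.2 hO) _
        rw [e1, e2]
        refine ⟨by linarith, fun hf hn => ?_⟩
        refine absurd (om_succ_tree1 ω M T hO ?_) hn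
        simpa using hf
      · have e1 : ((OM A ε M)ᶜ).indicator (fun ω => ω.uu Λ 0) (Om.shift^[T] ω) = ω.uu Λ T := by
          rw [indicator_of_mem (show Om.shift^[T] ω ∈ (OM A ε M)ᶜ from hO), uu_iter_tree1]
        rw [e1]
        cases hF : ω.fl T with
        | true =>
          have e2 : (Fl0 A ε ∩ (OM A ε M)ᶜ).indicator (fun _ => (1 : ℝ)) (Om.shift^[T] ω) = 1 := by
            refine indicator_of_mem (mem_inter ?_ hO) _
            change (Om.shift^[T] ω).fl 0 = true
            rw [fl_iter_tree1, zero_add, hF]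
          rw [e2]
          refine ⟨by nlinarith, fun hf _ => ?_⟩
          have hs := short T (by simpa using hf)
          have hb : Real.log (ε / 4) ≤ Real.log (v T) :=
            Real.log_le_log (by positivity) (big T hF)
          rw [Real.log_div hε.ne' (by norm_num)] at hb
          nlinarith
        | false =>
          have e2 : (Fl0 A ε ∩ (OM A ε M)ᶜ).indicator (fun _ => (1 : ℝ)) (Om.shift^[T] ω) = 0 := by
            refine indicator_of_notMem (fun h => ?_) _
            have h1 : (Om.shift^[T] ω).fl 0 = true := h.1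
            rw [fl_iter_tree1, zero_add, hF] at h1
            exact Bool.false_ne_true h1
          rw [e2]
          have ih3 := ih2 hF hO
          refine ⟨by linarith, fun hf _ => ?_⟩
          have hs := short T (by simpa using hf)
          linarith
  exact (key T).1

/-- Affine change of variables on one interval. -/
theorem vol_cell_tree1 {d l : ℝ} (hl : 0 < l) (E S : Set ℝ)
    (h : ∀ s ∈ Ico (0 : ℝ) 1, s ∈ S ↔ d + l * s ∈ E) :
    volume (Ico d (d + l) ∩ E) = volume (S ∩ Icc 0 1) * ENNReal.ofReal l := by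
  have h1 : S ∩ Ico 0 1 = (fun s => l * s) ⁻¹' ((fun x => d + x) ⁻¹' (Ico d (d + l) ∩ E)) := by
    ext s
    simp only [mem_inter_iff, mem_preimage]
    constructor
    · rintro ⟨hs, hI⟩
      refine ⟨⟨?_, ?_⟩, (h s hI).1 hs⟩
      · nlinarith [hI.1]
      · nlinarith [hI.2]
    · rintro ⟨hI, hs⟩
      have hI' : s ∈ Ico (0 : ℝ) 1 := by
        constructor
        · by_contra hn
          have := hI.1
          nlinarith [not_le.1 hn]
        · by_contra hn
          have := hI.2
          nlinarith [not_lt.1 hn]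
      exact ⟨(h s hI').2 hs, hI'⟩
  have h2 : volume (S ∩ Icc 0 1) = volume (S ∩ Ico 0 1) :=
    measure_congr (ae_eq_set_inter (ae_eq_refl _) Ico_ae_eq_Icc.symm)
  rw [h2, h1, Real.volume_preimage_mul_left hl.ne', measure_preimage_add,
    abs_of_pos (inv_pos.2 hl), mul_comm, ← mul_assoc, ← ENNReal.ofReal_mul hl.le,
    mul_inv_cancel₀ hl.ne', ENNReal.ofReal_one, one_mul]

theorem link_cells [CompactSpace X] [BorelSpace X] {W : ℝ → Om A ε} (hW : Measurable W)
    {mm : ℝ → ℕ} (hc : ∀ t ∈ Ico (0 : ℝ) 1, ∀ t', dy (mm t) t' = dy (mm t) t →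
      mm t' = mm t ∧ (W t').fl 0 = (W t).fl 0 ∧ (W t').cv = (W t).cv)
    (hx : ∀ t ∈ Ico (0 : ℝ) 1, ∀ s ∈ Ico (0 : ℝ) 1,
      (W t).cv.pt s = (W (dy (mm t) t + dl (mm t) * s)).xx) :
    (((volume.restrict (Ico (0 : ℝ) 1)).map W).restrict (Fl0 A ε)).map Om.xx =
      eta (kap ((volume.restrict (Ico (0 : ℝ) 1)).map W)) := by
  ext B hB
  have hFl : MeasurableSet (Fl0 A ε) := isClopen_fl0.isClosed.measurableSet
  have hxx : Measurable (Om.xx : Om A ε → X) := Om.continuous_xx.measurable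
  have hcv : Measurable (Om.cv : Om A ε → Cv A ε) := Om.continuous_cv.measurable
  have hpt : Measurable fun z : Cv A ε × ℝ => z.1.pt z.2 := Cv.continuous_pt.measurable
  have hg : Measurable fun w : Cv A ε => volume (w.pt ⁻¹' B ∩ Icc (0 : ℝ) 1) := by
    have h1 : MeasurableSet ((fun z : Cv A ε × ℝ => z.1.pt z.2) ⁻¹' B ∩ Prod.snd ⁻¹' Icc (0 : ℝ) 1) :=
      (hpt hB).inter (measurable_snd measurableSet_Icc)
    exact measurable_measure_prodMk_left (ν := (volume : Measure ℝ)) h1
  set g : Cv A ε → ENNReal := fun w => volume (w.pt ⁻¹' B ∩ Icc (0 : ℝ) 1) with hgdef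
  have hE : MeasurableSet (W ⁻¹' (Om.xx ⁻¹' B ∩ Fl0 A ε)) := hW ((hxx hB).inter hFl)
  have hρ : Measurable ((Fl0 A ε).indicator fun ω : Om A ε => g ω.cv) :=
    (hg.comp hcv).indicator hFl
  have hL : ((((volume.restrict (Ico (0 : ℝ) 1)).map W).restrict (Fl0 A ε)).map Om.xx) B =
      (volume.restrict (W ⁻¹' (Om.xx ⁻¹' B ∩ Fl0 A ε))) (Ico 0 1) := by
    rw [Measure.map_apply hxx hB, Measure.restrict_apply (hxx hB),
      Measure.map_apply hW ((hxx hB).inter hFl), Measure.restrict_apply hE,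
      Measure.restrict_apply measurableSet_Ico, inter_comm]
  have hR : eta (kap ((volume.restrict (Ico (0 : ℝ) 1)).map W)) B =
      (volume.withDensity fun t => (Fl0 A ε).indicator (fun ω => g ω.cv) (W t)) (Ico 0 1) := by
    unfold eta kap
    rw [etaOn_apply hB, lintegral_map hg hcv, ← lintegral_indicator hFl,
      lintegral_map hρ hW, withDensity_apply _ measurableSet_Ico]
  have hcell : ∀ t ∈ Ico (0 : ℝ) 1,
      (volume.restrict (W ⁻¹' (Om.xx ⁻¹' B ∩ Fl0 A ε)))
        (Ico (dy (mm t) t) (dy (mm t) t + dl (mm t))) =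
      (volume.withDensity fun t => (Fl0 A ε).indicator (fun ω => g ω.cv) (W t))
        (Ico (dy (mm t) t) (dy (mm t) t + dl (mm t))) := by
    intro t ht
    have hl := dl_pos (mm t)
    have hsame : ∀ t' ∈ Ico (dy (mm t) t) (dy (mm t) t + dl (mm t)),
        (W t').fl 0 = (W t).fl 0 ∧ (W t').cv = (W t).cv := fun t' ht' =>
      (hc t ht t' ((dy_eq_iff _ _ _).2 ht')).2
    rw [Measure.restrict_apply measurableSet_Ico, withDensity_apply _ measurableSet_Ico,
      setLIntegral_congr_fun (g := fun _ => (Fl0 A ε).indicator (fun ω => g ω.cv) (W t))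
        measurableSet_Ico, setLIntegral_const, Real.volume_Ico, add_sub_cancel_left]
    · by_cases hF : W t ∈ Fl0 A ε
      · rw [indicator_of_mem hF]
        refine vol_cell_tree1 hl _ _ fun s hs => ?_
        have hm : dy (mm t) t + dl (mm t) * s ∈ Ico (dy (mm t) t) (dy (mm t) t + dl (mm t)) := by
          constructor
          · nlinarith [hs.1]
          · nlinarith [hs.2]
        have h1 : W (dy (mm t) t + dl (mm t) * s) ∈ Fl0 A ε := ((hsame _ hm).1).trans hF
        simp only [mem_preimage, mem_inter_iff, hx t ht s hs, h1, and_true]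
      · rw [indicator_of_notMem hF, zero_mul]
        refine measure_mono_null (fun t' ht' => ?_) measure_empty
        exact hF (((hsame t' ht'.1).1).symm.trans ht'.2.2)
    · intro t' ht'
      obtain ⟨h1, h2⟩ := hsame t' ht'
      by_cases hF : W t ∈ Fl0 A ε
      · have hF' : W t' ∈ Fl0 A ε := h1.trans hF
        simp only [indicator_of_mem hF, indicator_of_mem hF', h2]
      · have hF' : W t' ∉ Fl0 A ε := fun h => hF (h1.symm.trans h)
        simp only [indicator_of_notMem hF, indicator_of_notMem hF']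
  have hmm : ∀ t ∈ Ico (0 : ℝ) 1, ∀ t', dy (mm t) t' = dy (mm t) t → mm t' = mm t :=
    fun t ht t' h => (hc t ht t' h).1
  rw [hL, hR]
  exact le_antisymm (cells_le hmm fun t ht => (hcell t ht).le)
    (cells_le hmm fun t ht => (hcell t ht).ge)

end Pool.Agent.Lib.MP_e7c912_an
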