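import Pool.Agent.Lib.MP_e7c912_an.H60TDef
import Pool.Agent.Lib.MP_e7c912_an.H60Tree1

/-! The states along the tree of a good curve. -/

namespace Pool.Agent.Lib.MP_e7c912_an

open MeasureTheory Filter Metric Set Topology
open scoped unitInterval

variable {X : Type} [MetricSpace X] [CompactSpace X] [MeasurableSpace X] [BorelSpace X]
  {A : Atlas X}

/-- The element of the space of curves given by `c` on `[a, a + h]`. -/
noncomputable def cv_tre {ε : ℝ} (w0 : Cv A ε) (c : ℝ → X) (a h : ℝ) : Cv A ε :=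
  @Classical.epsilon _ ⟨w0⟩ fun w : Cv A ε => ∀ t ∈ Icc (0 : ℝ) 1,
    w.pt t = c (a + h * t) ∧ w.dv t = h • deriv (A.e ∘ c) (a + h * t)

omit [CompactSpace X] [BorelSpace X] in
theorem cv_spec_tre {ε : ℝ} (w0 : Cv A ε) {r : ℕ} {c : ℝ → X} {a h : ℝ} (H : A.Good r ε c a h)
    (hr : 2 ≤ r) (h0 : 0 < h) : ∀ t ∈ Icc (0 : ℝ) 1, (cv_tre w0 c a h).pt t = c (a + h * t) ∧
      (cv_tre w0 c a h).dv t = h • deriv (A.e ∘ c) (a + h * t) :=
  Classical.epsilon_spec (H.exists_cv hr h0)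

/-- The logarithmic expansion at step `k`. -/
noncomputable def ex_tre (A : Atlas X) (G : X → X) (τ : ℝ → X) (k : ℕ) (t : ℝ) : ℝ :=
  Real.log ‖deriv (A.e ∘ G^[k + 1] ∘ τ) t‖ - Real.log ‖deriv (A.e ∘ G^[k] ∘ τ) t‖

open Classical in
/-- The data recorded at step `k`. -/
noncomputable def st_tre {ε : ℝ} (w0 : Cv A ε) (G : X → X) (τ : ℝ → X) (Λ : ℝ) (mm : ℕ → ℝ → ℕ)
    (k : ℕ) (t : ℝ) : X × Bool × I × Cv A ε :=
  (G^[k] (τ (projIcc 0 1 zero_le_one t)),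
    decide (A.BigC ε (G^[k] ∘ τ) (dy (mm k t) t) (dl (mm k t))),
    projIcc 0 1 zero_le_one ((ex_tre A G τ k t / Λ + 1) / 2),
    cv_tre w0 (G^[k] ∘ τ) (dy (mm k t) t) (dl (mm k t)))

/-- The state of the parameter `t`. -/
noncomputable def om_tre {ε : ℝ} (w0 : Cv A ε) (G : X → X) (τ : ℝ → X) (Λ : ℝ) (mm : ℕ → ℝ → ℕ)
    (t : ℝ) : Om A ε := fun j => st_tre w0 G τ Λ mm j.toNat t

omit [CompactSpace X] [BorelSpace X] in
theorem shift_tre {ε : ℝ} (w0 : Cv A ε) (G : X → X) (τ : ℝ → X) (Λ : ℝ) (mm : ℕ → ℝ → ℕ)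
    (t : ℝ) (k j : ℕ) :
    (Om.shift^[k] (om_tre w0 G τ Λ mm t)) (j : ℤ) = st_tre w0 G τ Λ mm (j + k) t := by
  rw [Om.shift_iter, ← Nat.cast_add]
  rfl

omit [CompactSpace X] [BorelSpace X] in
theorem shift0_tre {ε : ℝ} (w0 : Cv A ε) (G : X → X) (τ : ℝ → X) (Λ : ℝ) (mm : ℕ → ℝ → ℕ)
    (t : ℝ) (k : ℕ) :
    (Om.shift^[k] (om_tre w0 G τ Λ mm t)) 0 = st_tre w0 G τ Λ mm k t := by
  simpa using shift_tre w0 G τ Λ mm t k 0

theorem mem_cell_tre (m : ℕ) (t : ℝ) : t ∈ Icc (dy m t) (dy m t + dl m) :=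
  ⟨dy_le m t, (lt_dy_add m t).le⟩

theorem mem_aff_tre {a h s : ℝ} (h0 : 0 < h) (hs : s ∈ Icc (0 : ℝ) 1) :
    a + h * s ∈ Icc a (a + h) := by
  constructor <;> nlinarith [hs.1, hs.2]

theorem log_dl_tre (m z : ℕ) : Real.log (dl (m + z)) = Real.log (dl m) - Real.log 2 * z := by
  rw [← dl_add m z, Real.log_mul (dl_pos _).ne' (by positivity), Real.log_pow]
  ring

section
variable {G : X → X} {r x0 js : ℕ} {ε Λ n1 n2 B : ℝ} {τ : ℝ → X} {mm zz : ℕ → ℝ → ℕ}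

omit [CompactSpace X] [BorelSpace X] in
theorem hasDerivAt_tre (H : YFit A G r ε Λ n1 n2 js) (hS : Stop A G r ε τ x0 js B mm zz) (k : ℕ)
    {t : ℝ} (ht : t ∈ Ico (0 : ℝ) 1) :
    HasDerivAt (A.e ∘ G^[k] ∘ τ) (deriv (A.e ∘ G^[k] ∘ τ) t) t :=
  (hS.good k t ht).1.hasDerivAt (le_trans (by norm_num) H.two_le) (mem_cell_tre _ t)

omit [CompactSpace X] [BorelSpace X] in
theorem pos_tre (H : YFit A G r ε Λ n1 n2 js) (hS : Stop A G r ε τ x0 js B mm zz) {t : ℝ}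
    (ht : t ∈ Ico (0 : ℝ) 1) (h0 : 0 < ‖deriv (A.e ∘ τ) t‖) (k : ℕ) :
    0 < ‖deriv (A.e ∘ G^[k] ∘ τ) t‖ := by
  induction k with
  | zero => exact h0
  | succ k ih =>
    have h1 := H.low _ t _ (hasDerivAt_tre H hS k ht)
    rw [Function.iterate_succ']
    exact (pos_iff_pos_of_mul_pos (ih.trans_le h1)).1 (Real.exp_pos _)

omit [CompactSpace X] [BorelSpace X] in
theorem abs_ex_tre (H : YFit A G r ε Λ n1 n2 js) (hS : Stop A G r ε τ x0 js B mm zz) {t : ℝ}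
    (ht : t ∈ Ico (0 : ℝ) 1) (h0 : 0 < ‖deriv (A.e ∘ τ) t‖) (k : ℕ) :
    -Λ ≤ ex_tre A G τ k t ∧ ex_tre A G τ k t ≤ Λ := by
  have h1 := H.low _ t _ (hasDerivAt_tre H hS k ht)
  have h2 := H.up _ t _ (hasDerivAt_tre H hS k ht)
  have p1 := pos_tre H hS ht h0 k
  have p2 := pos_tre H hS ht h0 (k + 1)
  unfold ex_tre
  rw [Function.iterate_succ', Function.comp_assoc] at p2 ⊢
  have h3 := Real.log_le_log p1 h1
  have h4 := Real.log_le_log p2 h2
  rw [Real.log_mul (Real.exp_pos _).ne' p2.ne', Real.log_exp] at h3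
  rw [Real.log_mul (Real.exp_pos _).ne' p1.ne', Real.log_exp] at h4
  constructor
  · exact le_sub_iff_add_le.2 (neg_add_le_iff_le_add.2 h3)
  · exact sub_le_iff_le_add.2 h4

omit [CompactSpace X] [BorelSpace X] in
theorem uu_tre (H : YFit A G r ε Λ n1 n2 js) (hS : Stop A G r ε τ x0 js B mm zz) (w0 : Cv A ε)
    {t : ℝ} (ht : t ∈ Ico (0 : ℝ) 1) (h0 : 0 < ‖deriv (A.e ∘ τ) t‖) (k j : ℕ) :
    (Om.shift^[k] (om_tre w0 G τ Λ mm t)).uu Λ j = ex_tre A G τ (j + k) t := by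
  obtain ⟨h1, h2⟩ := abs_ex_tre H hS ht h0 (j + k)
  have hΛ := H.Λ_pos
  have h3 : -1 ≤ ex_tre A G τ (j + k) t / Λ := by
    rw [le_div_iff₀ hΛ]; linarith
  have h4 : ex_tre A G τ (j + k) t / Λ ≤ 1 := by
    rw [div_le_iff₀ hΛ]; linarith
  rw [Om.uu, shift_tre, st_tre]
  simp only
  rw [projIcc_of_mem zero_le_one ⟨by linarith, by linarith⟩]
  field_simp
  ring

omit [CompactSpace X] [BorelSpace X] in
theorem sum_ex_tre (A : Atlas X) (G : X → X) (τ : ℝ → X) (t : ℝ) (k n : ℕ) :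
    ∑ j ∈ Finset.range n, ex_tre A G τ (j + k) t =
      Real.log ‖deriv (A.e ∘ G^[n + k] ∘ τ) t‖ - Real.log ‖deriv (A.e ∘ G^[k] ∘ τ) t‖ := by
  induction n with
  | zero => simp
  | succ n ih =>
    rw [Finset.sum_range_succ, ih, ex_tre, Nat.add_right_comm n 1 k]
    ring

omit [CompactSpace X] [BorelSpace X] in
theorem cell_tre (hS : Stop A G r ε τ x0 js B mm zz) (k : ℕ) {t t' : ℝ}
    (h : dy (js * k) t = dy (js * k) t') :
    mm k t' = mm k t ∧ dy (mm k t) t' = dy (mm k t) t := by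
  obtain ⟨d, hd⟩ := Nat.exists_eq_add_of_le (hS.le k t)
  rw [hd] at h
  have h1 := (dy_eq_of_add h).symm
  exact ⟨hS.const k t t' h1, h1⟩

omit [CompactSpace X] in
theorem meas_tre (H : YFit A G r ε Λ n1 n2 js) (hS : Stop A G r ε τ x0 js B mm zz) (w0 : Cv A ε) :
    Measurable (om_tre w0 G τ Λ mm) := by
  have h0 : (0 : ℝ) ∈ Ico (0 : ℝ) 1 := ⟨le_rfl, one_pos⟩
  have h1 := (hS.good 0 0 h0).1
  rw [hS.zero, dy_zero h0] at h1
  have h2 : Continuous fun t : ℝ => τ (projIcc (0 : ℝ) 1 zero_le_one t) := by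
    rw [A.iso.isEmbedding.isInducing.continuous_iff]
    refine continuous_iff_continuousAt.2 fun t => ?_
    have h3 := (h1 (projIcc (0 : ℝ) 1 zero_le_one t) (by
      simp [dl])).continuousAt
    exact ContinuousAt.comp (f := fun t : ℝ => (projIcc (0 : ℝ) 1 zero_le_one t : ℝ)) h3
      (continuous_subtype_val.comp continuous_projIcc).continuousAt
  refine measurable_pi_lambda _ fun j => ?_
  refine ((H.sm.1.iterate _).comp h2).measurable.prodMk (Measurable.prodMk ?_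
    (Measurable.prodMk ?_ ?_))
  · refine measurable_of_dy (js * j.toNat) fun t t' h => ?_
    obtain ⟨h3, h4⟩ := cell_tre hS _ h
    rw [h3, h4]
  · refine continuous_projIcc.measurable.comp ?_
    unfold ex_tre
    exact ((((measurable_deriv _).norm.log.sub (measurable_deriv _).norm.log).div_const _).add_const
      _).div_const _
  · refine measurable_of_dy (js * j.toNat) fun t t' h => ?_
    obtain ⟨h3, h4⟩ := cell_tre hS _ h
    rw [h3, h4]

omit [CompactSpace X] [BorelSpace X] in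
theorem step_tre (hS : Stop A G r ε τ x0 js B mm zz) (t : ℝ) (k j : ℕ) :
    mm k t + j * x0 ≤ mm (j + k) t := by
  induction j with
  | zero => simp
  | succ j ih =>
    have := hS.step (j + k) t
    rw [Nat.add_right_comm j 1 k, Nat.succ_mul]
    omega

omit [CompactSpace X] [BorelSpace X] in
theorem rel_tre (H : YFit A G r ε Λ n1 n2 js) (hS : Stop A G r ε τ x0 js B mm zz) {t : ℝ}
    (ht : t ∈ Ico (0 : ℝ) 1) (h0 : 0 < ‖deriv (A.e ∘ τ) t‖) (k n : ℕ) :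
    Real.exp (∑ j ∈ Finset.range n, ex_tre A G τ (j + k) t) ≤
      ‖fderiv ℝ (A.rep G^[n] (A.idx (G^[k] (τ t)))) (A.φ (A.idx (G^[k] (τ t))) (G^[k] (τ t)))‖ := by
  have p1 := pos_tre H hS ht h0 k
  have p2 := pos_tre H hS ht h0 (n + k)
  have h1 := (H.sm.iter n).hasDerivAt_comp (c := G^[k] ∘ τ) (A.mem_D (G^[k] (τ t)))
    (by simpa using A.ρ_pos) (hasDerivAt_tre H hS k ht)
  rw [sum_ex_tre, Real.exp_sub, Real.exp_log p1, Real.exp_log p2, div_le_iff₀ p1,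
    Function.iterate_add]
  refine (congrArg norm h1.deriv).trans_le ((ContinuousLinearMap.le_opNorm _ _).trans ?_)
  refine mul_le_mul_of_nonneg_left ((ContinuousLinearMap.le_opNorm _ _).trans ?_) (norm_nonneg _)
  exact mul_le_of_le_one_left (norm_nonneg _) (A.pr_le _)

end

omit [CompactSpace X] [BorelSpace X] in
theorem pt_proj_tre {ε : ℝ} (w : Cv A ε) (s : ℝ) :
    w.pt s = w.pt (projIcc (0 : ℝ) 1 zero_le_one s) ∧
      w.dv s = w.dv (projIcc (0 : ℝ) 1 zero_le_one s) := by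
  simp only [Cv.pt, Cv.dv, projIcc_val, and_self]

omit [CompactSpace X] [BorelSpace X] in
theorem uc_tre {F : Dif A} {q : Prm} {r x0 js : ℕ} {n1 n2 B : ℝ} (hN : Num q x0 js n1 n2)
    (H : YFit A F.f^[q.p] r q.ε q.Λ n1 n2 js) {τ : ℝ → X} {mm zz : ℕ → ℝ → ℕ}
    (hS : Stop A F.f^[q.p] r q.ε τ x0 js B mm zz) (w0 : Cv A q.ε) {t : ℝ}
    (ht : t ∈ Ico (0 : ℝ) 1) (j k : ℕ) : UC F q j (cv_tre w0 ((F.f^[q.p])^[j + k] ∘ τ)
      (dy (mm (j + k) t) t) (dl (mm (j + k) t))) := by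
  intro s s'
  have hsp := cv_spec_tre w0 (hS.good (j + k) t ht) H.two_le (dl_pos _)
  obtain ⟨d, hd⟩ := Nat.exists_eq_add_of_le (step_tre hS t k j)
  rw [add_assoc] at hd
  have hinv : ∀ y, (F.g^[q.p])^[j] ((F.f^[q.p])^[j + k] y) = (F.f^[q.p])^[k] y := by
    intro y
    rw [Function.iterate_add_apply, ← Function.iterate_mul F.g, ← Function.iterate_mul F.f q.p j,
      F.gf_iter]
  rw [(pt_proj_tre _ s).1, (pt_proj_tre _ s').1, (hsp _ (projIcc _ _ _ s).2).1,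
    (hsp _ (projIcc _ _ _ s').2).1, Function.comp_apply, Function.comp_apply, hinv, hinv]
  have huu : |(projIcc (0 : ℝ) 1 zero_le_one s : ℝ) - projIcc (0 : ℝ) 1 zero_le_one s'| ≤
      |s - s'| := abs_projIcc_sub_projIcc zero_le_one
  have hu := (projIcc (0 : ℝ) 1 zero_le_one s).2
  have hu' := (projIcc (0 : ℝ) 1 zero_le_one s').2
  generalize (projIcc (0 : ℝ) 1 zero_le_one s : ℝ) = u at huu hu ⊢
  generalize (projIcc (0 : ℝ) 1 zero_le_one s' : ℝ) = u' at huu hu' ⊢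
  rw [hd]
  have hm := dy_mono (mm k t) (j * x0 + d) t
  have hsub : ∀ v ∈ Icc (0 : ℝ) 1, dy (mm k t + (j * x0 + d)) t + dl (mm k t + (j * x0 + d)) * v ∈
      Icc (dy (mm k t) t) (dy (mm k t) t + dl (mm k t)) := fun v hv =>
    Icc_subset_Icc hm.1 hm.2 (mem_aff_tre (dl_pos _) hv)
  have h1 := (hS.good k t ht).2.2.dist_le (hS.good k t ht).1 (le_trans (by norm_num) H.two_le)
    (dl_pos _) (hsub u hu) (hsub u' hu')
  have hp := dl_pos (mm k t + (j * x0 + d))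
  rw [add_sub_add_left_eq_sub, ← mul_sub, abs_mul, abs_of_pos hp,
    ← dl_add (mm k t) (j * x0 + d)] at h1
  have h2 : Real.exp (2 * (q.α * q.p) * j) ≤ 2 ^ (j * x0 + d) := by
    refine le_trans ?_ (pow_le_pow_right₀ one_le_two (Nat.le_add_right _ d))
    rw [← Real.exp_log (show (0 : ℝ) < 2 ^ (j * x0) by positivity), Real.log_pow]
    refine Real.exp_le_exp.2 ?_
    have := mul_le_mul_of_nonneg_right hN.x0_ge (Nat.cast_nonneg (α := ℝ) j)
    push_cast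
    linarith
  simp only [Function.comp_apply] at h1
  set δ := dist ((F.f^[q.p])^[k] (τ (dy (mm k t + (j * x0 + d)) t +
    dl (mm k t + (j * x0 + d)) * u))) ((F.f^[q.p])^[k] (τ (dy (mm k t + (j * x0 + d)) t +
    dl (mm k t + (j * x0 + d)) * u'))) with hδ
  have hδ0 : 0 ≤ δ := dist_nonneg
  have h3 : δ * 2 ^ (j * x0 + d) ≤ q.ε * |u - u'| := by
    refine le_of_mul_le_mul_left ?_ hp
    linarith
  have h4 : δ * Real.exp (2 * (q.α * q.p) * j) ≤ q.ε * |s - s'| :=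
    (mul_le_mul_of_nonneg_left h2 hδ0).trans
      (h3.trans (mul_le_mul_of_nonneg_left huu H.ε_pos.le))
  rw [neg_mul, Real.exp_neg, mul_right_comm, ← div_eq_mul_inv, le_div_iff₀ (Real.exp_pos _)]
  exact h4

theorem exists_tree {F : Dif A} {q : Prm} {r x0 js : ℕ} {n1 n2 : ℝ} (hN : Num q x0 js n1 n2)
    (H : YFit A F.f^[q.p] r q.ε q.Λ n1 n2 js) {τ : ℝ → X} {l0 : ℝ} (h0 : 0 < l0)
    (hl : ∀ t ∈ Icc (0 : ℝ) 1, l0 ≤ ‖deriv (A.e ∘ τ) t‖) {mm zz : ℕ → ℝ → ℕ}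
    (hS : Stop A F.f^[q.p] r q.ε τ x0 js (4 * (q.α * q.p)) mm zz) :
    ∃ (W : ℝ → Om A q.ε) (z : ℕ → ℝ → ℝ) (C0 : ℝ), Tree F q τ W z C0 := by
  obtain ⟨w0, -⟩ := (hS.good 0 0 ⟨le_rfl, one_pos⟩).exists_cv H.two_le (dl_pos _)
  have hpos : ∀ t ∈ Ico (0 : ℝ) 1, 0 < ‖deriv (A.e ∘ τ) t‖ :=
    fun t ht => h0.trans_le (hl t (Ico_subset_Icc_self ht))
  have hxx : ∀ t ∈ Icc (0 : ℝ) 1, ∀ k : ℕ,
      (st_tre w0 F.f^[q.p] τ q.Λ mm k t).1 = (F.f^[q.p])^[k] (τ t) := by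
    intro t ht k
    rw [st_tre, projIcc_of_mem zero_le_one ht]
  have hx0 : ∀ t ∈ Icc (0 : ℝ) 1, ∀ k : ℕ,
      (Om.shift^[k] (om_tre w0 F.f^[q.p] τ q.Λ mm t)).xx = (F.f^[q.p])^[k] (τ t) := by
    intro t ht k
    rw [Om.xx, shift0_tre, hxx t ht]
  have hcv : ∀ t, ∀ k : ℕ, (Om.shift^[k] (om_tre w0 F.f^[q.p] τ q.Λ mm t)).cv =
      cv_tre w0 ((F.f^[q.p])^[k] ∘ τ) (dy (mm k t) t) (dl (mm k t)) := by
    intro t k
    rw [Om.cv, shift0_tre]
    rfl
  have hfl : ∀ t, ∀ k : ℕ, (om_tre w0 F.f^[q.p] τ q.Λ mm t).fl k = true ↔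
      A.BigC q.ε ((F.f^[q.p])^[k] ∘ τ) (dy (mm k t) t) (dl (mm k t)) := by
    intro t k
    classical
    exact decide_eq_true_iff
  have hfl0 : ∀ t, ∀ k : ℕ, (Om.shift^[k] (om_tre w0 F.f^[q.p] τ q.Λ mm t)).fl 0 =
      (om_tre w0 F.f^[q.p] τ q.Λ mm t).fl k := by
    intro t k
    rw [Om.fl, shift0_tre]
    rfl
  refine ⟨om_tre w0 F.f^[q.p] τ q.Λ mm, fun k t => Real.log 2 * (zz k t : ℝ),
    q.Λ + Real.log q.ε - Real.log l0, meas_tre H hS w0,
    fun t ht k => hx0 t (Ico_subset_Icc_self ht) k, fun t ht k => ⟨?_, ?_, ?_, ?_⟩,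
    fun t ht j k hjk => ?_, fun t ht k => ?_, fun k => ?_, fun k => ?_, hS.mean,
    fun t ht M T => ?_⟩
  · have := shift_tre w0 F.f^[q.p] τ q.Λ mm t k 1
    rw [Nat.cast_one] at this
    rw [this, hxx t (Ico_subset_Icc_self ht), hx0 t (Ico_subset_Icc_self ht), add_comm,
      Function.iterate_succ_apply']
  · rw [Rel, hx0 t (Ico_subset_Icc_self ht)]
    refine ⟨_, A.mem_D _, fun n => ?_⟩
    simp only [uu_tre H hS w0 ht (hpos t ht)]
    exact rel_tre H hS ht (hpos t ht) k n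
  · rw [hfl0, hfl, hcv]
    intro hb s
    have hsp := cv_spec_tre w0 (hS.good k t ht) H.two_le (dl_pos _)
    rw [(pt_proj_tre _ s).2, (hsp _ (projIcc _ _ _ s).2).2, norm_smul, Real.norm_eq_abs,
      abs_of_pos (dl_pos _), mul_comm]
    exact hb _ (mem_aff_tre (dl_pos _) (projIcc _ _ _ s).2)
  · rw [hcv]
    exact lv_of_good H hN.n1_le ((hS.good k t ht).rescale (dl_pos _))
      fun s hs => (cv_spec_tre w0 (hS.good k t ht) H.two_le (dl_pos _) s hs).1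
  · obtain ⟨d, rfl⟩ := Nat.exists_eq_add_of_le hjk
    rw [hcv]
    exact uc_tre hN H hS w0 ht j d
  · have h1 := sum_ex_tre A F.f^[q.p] τ t 0 k
    refine Eq.trans (Finset.sum_congr rfl fun j _ => ?_) h1
    simpa using uu_tre H hS w0 ht (hpos t ht) j 0
  · refine link_cells (mm := mm k)
      ((Om.continuous_shift.iterate k).measurable.comp (meas_tre H hS w0)) ?_ ?_
    · intro t _ t' h
      have h1 := hS.const k t t' h
      refine ⟨h1, ?_, ?_⟩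
      · rw [hfl0, hfl0, Bool.eq_iff_iff, hfl, hfl, h1, h]
      · rw [hcv, hcv, h1, h]
    · intro t ht s hs
      have h1 := cell_sub (mm k t) ht
      have h2 := mem_aff_tre (a := dy (mm k t) t) (dl_pos (mm k t)) (Ico_subset_Icc_self hs)
      rw [hcv, hx0 _ ⟨h1.1.trans h2.1, h2.2.trans h1.2⟩,
        (cv_spec_tre w0 (hS.good k t ht) H.two_le (dl_pos _) s (Ico_subset_Icc_self hs)).1]
      rfl
  · refine Measure.integrableOn_of_bounded (M := Real.log 2 * js) (by simp) ?_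
      (Eventually.of_forall fun t => ?_)
    · exact ((measurable_from_top.comp (hS.meas_zz k)).const_mul _).aestronglyMeasurable
    · have h2 : 0 ≤ Real.log 2 := Real.log_nonneg one_le_two
      rw [Real.norm_eq_abs, abs_of_nonneg (by positivity)]
      exact mul_le_mul_of_nonneg_left (Nat.cast_le.2 (hS.zz_le k t)) h2
  · have h2 : 0 ≤ Real.log 2 := Real.log_nonneg one_le_two
    have p1 := pos_tre H hS ht (hpos t ht)
    refine gap_ineq (v := fun k => ‖deriv (A.e ∘ (F.f^[q.p])^[k] ∘ τ) t‖ * dl (mm k t)) _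
      H.Λ_pos.le h0 ?_ (fun k => mul_pos (p1 k) (dl_pos _))
      (fun k => (hS.good k t ht).2.2 t (mem_cell_tre _ t)) (fun k => by positivity)
      (fun k hk => (hfl t k).1 hk t (mem_cell_tre _ t)) (fun k hk => ?_) M T
    · have := hl t (Ico_subset_Icc_self ht)
      simpa [hS.zero, dl] using this
    · have h3 : ¬ A.BigC q.ε ((F.f^[q.p])^[k + 1] ∘ τ) (dy (mm (k + 1) t) t)
          (dl (mm (k + 1) t)) := by
        rw [← hfl, Nat.cast_succ, hk]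
        simp
      have h4 := uu_tre H hS w0 ht (hpos t ht) 0 k
      rw [Function.iterate_zero_apply] at h4
      rw [h4, Real.log_mul (p1 _).ne' (dl_pos _).ne', Real.log_mul (p1 _).ne' (dl_pos _).ne',
        hS.short k t ht h3, log_dl_tre, add_zero, ex_tre]
      ring

end Pool.Agent.Lib.MP_e7c912_an
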