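import Pool.Agent.Lib.MP_e7c912_an.H60Limit
import Pool.Agent.Lib.MP_e7c912_an.H60Stop
import Pool.Agent.Lib.MP_e7c912_an.H60Tree
import Pool.Agent.Lib.MP_e7c912_an.H60Avg
import Pool.Agent.Lib.MP_e7c912_an.H60Tau
import Pool.Agent.Lib.MP_e7c912_an.H60Str
import Pool.Agent.Lib.MP_e7c912_an.H60Hopf1
import Pool.Agent.Lib.MP_e7c912_an.H60Hopf2

/-! From SRB measures to unstable states and back. -/

namespace Pool.Agent.Lib.MP_e7c912_an

open MeasureTheory Filter Metric Set Topology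
open scoped ENNReal

variable {X : Type} [MetricSpace X] [CompactSpace X] [MeasurableSpace X] [BorelSpace X]
  {A : Atlas X}

theorem tendsto_integral_xx {ε : ℝ} {Ps : ℕ → ProbabilityMeasure (Om A ε)}
    {P : ProbabilityMeasure (Om A ε)} (hP : Tendsto Ps atTop (𝓝 P)) (φ : C(X, ℝ)) :
    Tendsto (fun n => ∫ ω, φ ω.xx ∂(Ps n : Measure (Om A ε))) atTop
      (𝓝 (∫ ω, φ ω.xx ∂(P : Measure (Om A ε)))) := by
  have := (ProbabilityMeasure.tendsto_iff_forall_integral_tendsto.1 hP)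
    (BoundedContinuousFunction.mkOfCompact (φ.comp ⟨Om.xx, Om.continuous_xx⟩))
  simpa using this

theorem state_approx {F : Dif A} {q : Prm} (hq : Fit A q F.f) {μ : Measure X} (h : SRB F μ)
    {b b' : ℝ} (hb : 0 < b) (hbb : b < b')
    (hl : ∀ᵐ x ∂μ, b' ≤ l1 (A.coc F.f) x ∧ l2 (A.coc F.f) x < 0) {γ : ℝ} (hγ : 0 < γ) :
    ∃ P : ProbabilityMeasure (Om A q.ε), UState F q ((1 - γ) * b - γ * q.Λ) P ∧
      ∀ φ : C(X, ℝ), 0 ≤ φ →
        ∫ ω, φ ω.xx ∂(P : Measure (Om A q.ε)) ≤ q.p * ∫ x, φ x ∂μ + γ * ‖φ‖ := by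
  obtain ⟨r, x0, js, n1, n2, hN, H⟩ := hq
  have := h.1
  obtain ⟨τ, S, hS⟩ := exists_seed h hb hbb hl r H.ε_pos hγ
  obtain ⟨mm, zz, hst⟩ := exists_stop hN H hS.good
  obtain ⟨l0, h0, hl0⟩ := hS.speed
  obtain ⟨W, z, C0, hT⟩ := exists_tree hN H h0 hl0 hst
  obtain ⟨Ps, hA, hD⟩ := astate_of_tree hN.p_pos H.Λ_pos.le hb.le hγ.le hS hT
  obtain ⟨s, P, hs, hP⟩ := exists_subseq (ι := Unit) fun n _ => Ps n
  refine ⟨P (), (hA.subseq hs.tendsto_atTop).limit (A.conv_const F.f).conv1 (hP ()), fun φ hφ => ?_⟩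
  refine le_of_forall_pos_le_add fun γ' hγ' => ?_
  exact le_of_tendsto (tendsto_integral_xx (hP ()) φ)
    (hs.tendsto_atTop.eventually (hD φ hφ γ' hγ'))

theorem state_of_srb {F : Dif A} {q : Prm} (hq : Fit A q F.f) {μ : Measure X} (h : SRB F μ)
    {b b' : ℝ} (hb : 0 < b) (hbb : b < b')
    (hl : ∀ᵐ x ∂μ, b' ≤ l1 (A.coc F.f) x ∧ l2 (A.coc F.f) x < 0) :
    ∃ P : ProbabilityMeasure (Om A q.ε), UState F q b P ∧
      eta (kap (P : Measure (Om A q.ε))) ≪ μ := by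
  have := h.1
  have hγ : ∀ n : ℕ, (0 : ℝ) < 1 / ((n : ℝ) + 1) := fun n => Nat.one_div_pos_of_nat
  choose Ps hU hD using fun n : ℕ => state_approx hq h hb hbb hl (hγ n)
  have h0 : Tendsto (fun n : ℕ => (1 : ℝ) / ((n : ℝ) + 1)) atTop (𝓝 0) :=
    tendsto_one_div_add_atTop_nhds_zero_nat
  have hb' : Tendsto (fun n : ℕ => (1 - 1 / ((n : ℝ) + 1)) * b - 1 / ((n : ℝ) + 1) * q.Λ) atTop
      (𝓝 b) := by
    simpa using (((tendsto_const_nhds (x := (1 : ℝ))).sub h0).mul_const b).sub (h0.mul_const q.Λ)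
  have hA : AState (fun _ => F) q b Ps := astate_of_ustate hU hb'
  obtain ⟨s, P, hs, hP⟩ := exists_subseq (ι := Unit) fun n _ => Ps n
  have hUS := (hA.subseq hs.tendsto_atTop).limit (A.conv_const F.f).conv1 (hP ())
  refine ⟨P (), hUS, ?_⟩
  have hm : Measurable (Om.xx : Om A q.ε → X) := Om.continuous_xx.measurable
  have hle : (P () : Measure (Om A q.ε)).map Om.xx ≤ (q.p : ℝ≥0∞) • μ := by
    have : IsFiniteMeasure ((q.p : ℝ≥0∞) • μ) := ⟨by simp⟩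
    refine le_of_integral_le fun φ hφ => ?_
    rw [integral_map hm.aemeasurable φ.continuous.aestronglyMeasurable, integral_smul_measure]
    have h1 : Tendsto (fun n : ℕ => q.p * ∫ x, φ x ∂μ + 1 / ((s n : ℝ) + 1) * ‖φ‖) atTop
        (𝓝 (q.p * ∫ x, φ x ∂μ)) := by
      simpa using (tendsto_const_nhds (x := q.p * ∫ x, φ x ∂μ)).add
        ((h0.comp hs.tendsto_atTop).mul_const ‖φ‖)
    simpa using le_of_tendsto_of_tendsto' (tendsto_integral_xx (hP ()) φ) h1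
      fun n => hD (s n) φ hφ
  rw [← hUS.link]
  exact (Measure.absolutelyContinuous_of_le
    ((Measure.map_mono Measure.restrict_le_self hm).trans hle)).trans
      (Measure.smul_absolutelyContinuous)

theorem srb_of_state {F : Dif A} {q : Prm} (hp : 1 ≤ q.p) (hε : 0 < q.ε) (hα : 0 < q.α) {b : ℝ}
    (hb : 4 * q.α < b) {P : Measure (Om A q.ε)} [IsProbabilityMeasure P] (h : UState F q b P) :
    ∃ (ξ : Measure X) (S : Set (Cv A q.ε)), SRB F ξ ∧
      ENNReal.ofReal (b - 5 * q.α) ≤ ksEntropy ξ F.f ∧ kap P S ≠ 0 ∧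
      eta ((kap P).restrict S) ≪ ξ := by
  obtain ⟨m, hG, hm⟩ := gibbs_of_ustate hp hb h
  obtain ⟨K, hC⟩ := F.cocycle
  have := hG.finm
  have := hG.finκ
  have hf : Measurable F.f := F.smf.1.measurable
  have hZ0 : MeasurableSet {x | b - 4 * q.α ≤ l1 (A.coc F.f) x} :=
    measurableSet_le measurable_const hC.measurable_l1
  have hi0 : F.f ⁻¹' {x | b - 4 * q.α ≤ l1 (A.coc F.f) x} =
      {x | b - 4 * q.α ≤ l1 (A.coc F.f) x} := by
    ext x
    simp [hC.l1_comp]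
  obtain ⟨l, S, hS, hS0, hc, hz⟩ := hG.exists_level hp hε hα (hG.hyp hp hε hα) hZ0
    fun h0 => hm (hG.nul _ hZ0 hi0 h0)
  set Z : Set X := {x | Lv F.f x = l} with hZdef
  have hZ : MeasurableSet Z := (measurable_Lv hf) (measurableSet_singleton l)
  have hi : F.f ⁻¹' Z = Z := by
    ext x
    simp [hZdef, Lv_comp]
  have hz' : m (Z ∩ {x | b - 4 * q.α ≤ l1 (A.coc F.f) x}) ≠ 0 := fun h0 => hz (hG.ac h0)
  have hZ0' : m Z ≠ 0 := fun h0 => hz' (measure_mono_null inter_subset_left h0)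
  have he : Ergodic F.f ((m Z)⁻¹ • m.restrict Z) :=
    ergodic_level hG.mp hZ hi hZ0' fun x hx => hx
  have hpr : IsProbabilityMeasure ((m Z)⁻¹ • m.restrict Z) :=
    ⟨by simp [ENNReal.inv_mul_cancel hZ0' (measure_ne_top m Z)]⟩
  refine ⟨_, S, ⟨hpr, he, hG.leafAC hp hε hα hZ hi hZ0'⟩, ?_, hS0, ?_⟩
  · have := hG.ks_ge hp hε hα hZ hi hZ0' he hz'
    rwa [show b - 4 * q.α - q.α = b - 5 * q.α by ring] at this
  · refine Measure.AbsolutelyContinuous.mk fun B hB h0 => ?_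
    have h1 : m (B ∩ Z) = 0 := by
      simpa [Measure.restrict_apply hB, measure_ne_top] using h0
    have h2 : eta ((kap P).restrict S) (B ∩ Z) = 0 :=
      nonpos_iff_eq_zero.1 ((etaOn_mono Measure.restrict_le_self Subset.rfl _).trans (hG.ac h1).le)
    refine measure_mono_null (t := B ∩ Z ∪ Zᶜ) (fun x hx => ?_) (measure_union_null h2 hc)
    by_cases hx' : x ∈ Z
    · exact Or.inl ⟨hx, hx'⟩
    · exact Or.inr hx'

end Pool.Agent.Lib.MP_e7c912_an
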