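import Pool.Agent.Lib.MP_e7c912_an.H60SDef

/-! The tree of dyadic subdivisions of a good curve. Definitions only. -/

namespace Pool.Agent.Lib.MP_e7c912_an

open MeasureTheory Filter Metric Set Topology
open scoped ENNReal

variable {X : Type} [MetricSpace X] [MeasurableSpace X]

/-- At step `k` the parameter `t` lies in a dyadic interval of generation `mm k t` on which
`G^[k] ∘ τ` is good. When the next curve is short, the generation jumps by `zz k t`. -/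
structure Stop (A : Atlas X) (G : X → X) (r : ℕ) (ε : ℝ) (τ : ℝ → X) (x0 js : ℕ) (B : ℝ)
    (mm zz : ℕ → ℝ → ℕ) : Prop where
  zero : ∀ t, mm 0 t = 0
  const : ∀ k t t', dy (mm k t) t' = dy (mm k t) t → mm k t' = mm k t
  le : ∀ k t, mm k t ≤ js * k
  meas_mm : ∀ k, Measurable (mm k)
  meas_zz : ∀ k, Measurable (zz k)
  good : ∀ k, ∀ t ∈ Ico (0 : ℝ) 1, A.Good r ε (G^[k] ∘ τ) (dy (mm k t) t) (dl (mm k t))
  step : ∀ k t, mm k t + x0 ≤ mm (k + 1) t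
  short : ∀ k, ∀ t ∈ Ico (0 : ℝ) 1,
    ¬ A.BigC ε (G^[k + 1] ∘ τ) (dy (mm (k + 1) t) t) (dl (mm (k + 1) t)) →
    mm (k + 1) t = mm k t + zz k t
  zz_le : ∀ k t, zz k t ≤ js
  mean : ∀ k, ∫ t in Ico (0 : ℝ) 1, Real.log 2 * (zz k t : ℝ) ≤ B

open Classical in
/-- The states along the tree. -/
structure Tree {A : Atlas X} (F : Dif A) (q : Prm) (τ : ℝ → X) (W : ℝ → Om A q.ε)
    (z : ℕ → ℝ → ℝ) (C0 : ℝ) : Prop where
  meas : Measurable W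
  xx : ∀ t ∈ Ico (0 : ℝ) 1, ∀ k : ℕ, (Om.shift^[k] (W t)).xx = (F.f^[q.p])^[k] (τ t)
  con : ∀ t ∈ Ico (0 : ℝ) 1, ∀ k : ℕ, Con F q (Om.shift^[k] (W t))
  uc : ∀ t ∈ Ico (0 : ℝ) 1, ∀ j k : ℕ, j ≤ k → UC F q j (Om.shift^[k] (W t)).cv
  sum : ∀ t ∈ Ico (0 : ℝ) 1, ∀ k : ℕ, ∑ j ∈ Finset.range k, (Om.shift^[j] (W t)).uu q.Λ 0 =
    Real.log ‖deriv (A.e ∘ (F.f^[q.p])^[k] ∘ τ) t‖ - Real.log ‖deriv (A.e ∘ τ) t‖
  link : ∀ k : ℕ, (((volume.restrict (Ico (0 : ℝ) 1)).map fun t => Om.shift^[k] (W t)).restrict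
    (Fl0 A q.ε)).map Om.xx =
      eta (kap ((volume.restrict (Ico (0 : ℝ) 1)).map fun t => Om.shift^[k] (W t)))
  z_int : ∀ k, IntegrableOn (z k) (Ico (0 : ℝ) 1)
  z_mean : ∀ k, ∫ t in Ico (0 : ℝ) 1, z k t ≤ 4 * (q.α * q.p)
  gap : ∀ t ∈ Ico (0 : ℝ) 1, ∀ M T : ℕ,
    ∑ k ∈ Finset.range T, ((OM A q.ε M)ᶜ).indicator (fun ω => ω.uu q.Λ 0) (Om.shift^[k] (W t)) ≤
      C0 + (Real.log 4 + q.Λ) * ∑ k ∈ Finset.range T,
        (Fl0 A q.ε ∩ (OM A q.ε M)ᶜ).indicator (fun _ => (1 : ℝ)) (Om.shift^[k] (W t)) +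
      ∑ k ∈ Finset.range T, z k t

/-- A good curve most of whose points are generic and expanded. -/
structure Seed {A : Atlas X} (F : Dif A) (μ : Measure X) (b : ℝ) (r : ℕ) (ε γ : ℝ) (τ : ℝ → X)
    (S : Set ℝ) : Prop where
  good : A.Good r ε τ 0 1
  speed : ∃ l0 : ℝ, 0 < l0 ∧ ∀ t ∈ Icc (0 : ℝ) 1, l0 ≤ ‖deriv (A.e ∘ τ) t‖
  meas : MeasurableSet S
  sub : S ⊆ Ico 0 1
  big : 1 - γ ≤ volume.real S
  gen : ∀ t ∈ S, Gen F.f μ (τ t)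
  grow : ∀ t ∈ S, ∀ᶠ n : ℕ in atTop, Real.exp (b * n) ≤ ‖deriv (A.e ∘ F.f^[n] ∘ τ) t‖

end Pool.Agent.Lib.MP_e7c912_an
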