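import Pool.Agent.Lib.MP_e7c912_an.H60TDef
import Pool.Agent.Lib.MP_e7c912_an.H60Box
import Pool.Agent.Lib.MP_e7c912_an.H60Tr

/-! A smooth segment most of whose points are generic for a given SRB measure. -/

namespace Pool.Agent.Lib.MP_e7c912_an

open MeasureTheory Filter Metric Set Topology

variable {X : Type} [MetricSpace X] [CompactSpace X] [MeasurableSpace X] [BorelSpace X]
  {A : Atlas X}

/-- The local unstable leaf of `z` in a box. -/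
def leaf_tau1 {F : Dif A} {Λ : Set X} {x0 : X} {ρ K c ε0 : ℝ} (B : Box F Λ x0 ρ K c ε0) (z : X) :
    Set X :=
  {y | dist y x0 < A.ρ ∧ |(B.Φ y).1| ≤ ρ ∧ (B.Φ y).2 = B.wu z (B.Φ y).1}

omit [CompactSpace X] [BorelSpace X] in
/-- Two points of a local leaf are contracted in the past. -/
theorem leaf_con_tau1 {F : Dif A} {Λ : Set X} {x0 : X} {ρ K c ε0 : ℝ}
    (B : Box F Λ x0 ρ K c ε0) {z : X} (hz : In Λ x0 ρ K z) {y y' : X} (hy : y ∈ leaf_tau1 B z)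
    (hy' : y' ∈ leaf_tau1 B z) (k : ℕ) :
    dist (F.g^[k] y) (F.g^[k] y') ≤ K * K * dist y y' * Real.exp (-c * k) := by
  obtain ⟨h1, h2, h3⟩ := hy
  obtain ⟨h1', h2', h3'⟩ := hy'
  have e1 : B.Ψ ((B.Φ y).1, B.wu z (B.Φ y).1) = y := by
    rw [← h3]; exact B.Ψ_Φ h1
  have e2 : B.Ψ ((B.Φ y').1, B.wu z (B.Φ y').1) = y' := by
    rw [← h3']; exact B.Ψ_Φ h1'
  have h := B.wu_con z hz (B.Φ y).1 (abs_le.1 h2) (B.Φ y').1 (abs_le.1 h2') k
  change dist (F.g^[k] (B.Ψ _)) (F.g^[k] (B.Ψ _)) ≤ _ at h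
  rw [e1, e2] at h
  have h4 : |(B.Φ y).1 - (B.Φ y').1| ≤ K * dist y y' := by
    have := B.norm_Φ_sub_le y y'
    have h5 : ‖(B.Φ y - B.Φ y').1‖ ≤ ‖B.Φ y - B.Φ y'‖ := norm_fst_le _
    rw [Prod.fst_sub, Real.norm_eq_abs] at h5
    exact h5.trans this
  have hK : 0 ≤ K := zero_le_one.trans B.one_le
  calc _ ≤ K * Real.exp (-c * k) * |(B.Φ y).1 - (B.Φ y').1| := h
    _ ≤ K * Real.exp (-c * k) * (K * dist y y') := by gcongr
    _ = K * K * dist y y' * Real.exp (-c * k) := by ring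

omit [CompactSpace X] [BorelSpace X] in
/-- A point of the global unstable manifold is pulled back to a local leaf. -/
theorem pull_tau1 {F : Dif A} {Λ : Set X} {x0 : X} {ρ K c ε0 : ℝ}
    (B : Box F Λ x0 ρ K c ε0) {x y : X} (hx : ∃ᶠ n : ℕ in atTop, In Λ x0 ρ K (F.g^[n] x))
    {c1 : ℝ} (hc1 : c ≤ c1)
    (hy : ∀ᶠ n : ℕ in atTop,
      edist (F.g^[n] x) (F.g^[n] y) ≤ ENNReal.ofReal (Real.exp (-c1 * n))) :
    ∃ n : ℕ, In Λ x0 ρ K (F.g^[n] x) ∧ F.g^[n] y ∈ leaf_tau1 B (F.g^[n] x) := by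
  have hc := B.c_pos
  have hρ := B.ρ_pos
  have hK := B.one_le
  have hε := B.ε0_pos
  have hA := A.ρ_pos
  have hAK := A.one_le_K
  have hc1' : 0 < c1 := hc.trans_le hc1
  set m : ℝ := min ε0 (min (ρ / (2 * K)) (A.ρ / 2)) with hm
  have hm0 : 0 < m := by positivity
  have ht : Tendsto (fun n : ℕ => Real.exp (-c1 * n)) atTop (𝓝 0) := by
    refine Real.tendsto_exp_atBot.comp ?_
    exact tendsto_natCast_atTop_atTop.const_mul_atTop_of_neg (by linarith)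
  have h1 : ∀ᶠ n : ℕ in atTop, Real.exp (-c1 * n) ≤ m := ht.eventually (ge_mem_nhds hm0)
  obtain ⟨N0, hN0⟩ := eventually_atTop.1 hy
  obtain ⟨n, hn, hn1, hn2⟩ := (hx.and_eventually (h1.and (eventually_ge_atTop N0))).exists
  have hd : ∀ k : ℕ, dist (F.g^[k] (F.g^[n] y)) (F.g^[k] (F.g^[n] x)) ≤
      m * Real.exp (-c * k) := by
    intro k
    have h2 := hN0 (k + n) (by omega)
    rw [edist_dist, ENNReal.ofReal_le_ofReal_iff (Real.exp_pos _).le,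
      Function.iterate_add_apply, Function.iterate_add_apply, dist_comm] at h2
    refine h2.trans ?_
    have h3 : Real.exp (-c1 * ((k + n : ℕ) : ℝ)) = Real.exp (-c1 * n) * Real.exp (-c1 * k) := by
      rw [← Real.exp_add]; push_cast; ring_nf
    rw [h3]
    have h4 : Real.exp (-c1 * k) ≤ Real.exp (-c * k) := by
      refine Real.exp_le_exp.2 ?_
      have : (0 : ℝ) ≤ k := Nat.cast_nonneg k
      nlinarith
    exact mul_le_mul hn1 h4 (Real.exp_pos _).le hm0.le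
  have hd0 : dist (F.g^[n] y) (F.g^[n] x) ≤ m := by
    simpa using hd 0
  have hm1 : m ≤ ε0 := min_le_left _ _
  have hm2 : m ≤ ρ / (2 * K) := (min_le_right _ _).trans (min_le_left _ _)
  have hm3 : m ≤ A.ρ / 2 := (min_le_right _ _).trans (min_le_right _ _)
  have hu : |(B.Φ (F.g^[n] y)).1| ≤ ρ := by
    have h5 := B.norm_Φ_sub_le (F.g^[n] y) (F.g^[n] x)
    have h6 := (B.in_norm hn).1
    have h7 : K * dist (F.g^[n] y) (F.g^[n] x) ≤ ρ / 2 := by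
      calc _ ≤ K * (ρ / (2 * K)) := by gcongr; exact hd0.trans hm2
        _ = ρ / 2 := by field_simp
    have h8 : ‖(B.Φ (F.g^[n] y)).1‖ ≤ ‖B.Φ (F.g^[n] y)‖ := norm_fst_le _
    have h9 := norm_le_norm_add_norm_sub' (B.Φ (F.g^[n] y)) (B.Φ (F.g^[n] x))
    rw [Real.norm_eq_abs] at h8
    linarith
  refine ⟨n, hn, ?_, hu, ?_⟩
  · have h5 : ρ / (10 * K) ≤ ρ / 10 := by
      apply div_le_div_of_nonneg_left hρ.le (by norm_num); linarith
    have h6 := B.ρ_le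
    have h7 : ρ ≤ A.K * ρ := le_mul_of_one_le_left hρ.le hAK
    have h8 := dist_triangle (F.g^[n] y) (F.g^[n] x) x0
    have h9 := hn.2
    linarith
  · refine B.wu_char _ hn _ (fun k => (hd k).trans ?_) hu
    gcongr

/-- A piece of positive length of a local leaf, inside a Pesin block of small rate, gives the
segment. -/
theorem segment_of_leaf_tau1 {F : Dif A} {μ : Measure X} {b b' : ℝ} {Λ : Set X} {x0 : X}
    {ρ K c ε0 : ℝ} (B : Box F Λ x0 ρ K c ε0) {z : X} (hz : In Λ x0 ρ K z) {Λ' G : Set X} {c0 : ℝ}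
    (hΛ' : HasBoxes F Λ' c0) (hc0 : c0 ≤ c) (hc0' : c0 < b' - b)
    (hG : ∀ y ∈ G, Gen F.f μ y ∧ b' ≤ l1 (A.coc F.f) y)
    (h0 : Measure.hausdorffMeasure 1 (G ∩ leaf_tau1 B z ∩ Λ') ≠ 0) :
    ∃ (Λ : Set X) (x0 : X) (ρ K c ε0 : ℝ) (B : Box F Λ x0 ρ K c ε0),
      volume {u : ℝ | |u| ≤ ρ ∧ Gen F.f μ (B.Ψ (u, 0)) ∧ ∀ᶠ n : ℕ in atTop, Real.exp (b * n) ≤
        ‖deriv (A.e ∘ F.f^[n] ∘ fun t : ℝ => B.Ψ (t, 0)) u‖} ≠ 0 := by
  obtain ⟨ρ', K', c', ε', hρ', hK', hc', hcc, hε', hB⟩ := hΛ'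
  have hK := B.one_le
  set γ : ℝ := min (ρ' / (10 * K')) (ε' / (K * K)) with hγ
  have hγ0 : 0 < γ := by positivity
  obtain ⟨y0, hy0, hY⟩ := exists_ball_pos h0 hγ0
  obtain ⟨B'⟩ := hB y0 hy0.2
  refine ⟨Λ', y0, ρ', K', c', ε', B', fun hS => hY ?_⟩
  have hin : ∀ y ∈ G ∩ leaf_tau1 B z ∩ Λ' ∩ closedBall y0 γ, In Λ' y0 ρ' K' y := fun y hy =>
    ⟨hy.1.2, (mem_closedBall.1 hy.2).trans (min_le_left _ _)⟩
  have hin0 : In Λ' y0 ρ' K' y0 := hin y0 ⟨hy0, mem_closedBall_self hγ0.le⟩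
  have habs : ∀ y ∈ G ∩ leaf_tau1 B z ∩ Λ' ∩ closedBall y0 γ, |(B'.Φ y).1| ≤ ρ' := by
    intro y hy
    have h6 := (B'.in_norm (hin y hy)).1
    have h8 : ‖(B'.Φ y).1‖ ≤ ‖B'.Φ y‖ := norm_fst_le _
    rw [Real.norm_eq_abs] at h8
    linarith
  have hleaf : ∀ y ∈ G ∩ leaf_tau1 B z ∩ Λ' ∩ closedBall y0 γ,
      (B'.Φ y).2 = B'.wu y0 (B'.Φ y).1 := by
    intro y hy
    refine B'.wu_char y0 hin0 y (fun k => ?_) (habs y hy)
    refine (leaf_con_tau1 B hz hy.1.1.2 hy0.1.2 k).trans ?_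
    have h1 : K * K * dist y y0 ≤ ε' := by
      have h2 : dist y y0 ≤ ε' / (K * K) := (mem_closedBall.1 hy.2).trans (min_le_right _ _)
      calc _ ≤ K * K * (ε' / (K * K)) := by gcongr
        _ = ε' := by field_simp
    have h4 : Real.exp (-c * k) ≤ Real.exp (-c' * k) := by
      refine Real.exp_le_exp.2 ?_
      have : (0 : ℝ) ≤ k := Nat.cast_nonneg k
      nlinarith
    exact mul_le_mul h1 h4 (Real.exp_pos _).le hε'.le
  refine B'.transfer (Z := (fun u : ℝ => B'.Ψ (u, 0)) '' _) hin ?_ ?_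
    (hausdorff_image_null (D := Icc (-ρ') ρ') (K := A.K) ?_ ?_ hS)
  · intro y hy y' hy'
    rw [hleaf y hy, hleaf y' hy']
    exact B'.wu_lip y0 hin0 _ (abs_le.1 (habs y hy)) _ (abs_le.1 (habs y' hy'))
  · intro y hy
    have h00 : (0 : ℝ) ∈ Icc (-ρ') ρ' := ⟨by linarith, hρ'.le⟩
    refine ⟨0, h00, B'.ws y 0, ⟨?_, ?_, ?_⟩, rfl⟩
    · have := B'.abs_ws_le (hin y hy) h00
      linarith
    · exact (hG y hy.1.1.1).1.congr (B'.tendsto_ws (hin y hy) h00)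
    · refine B'.growth y (hin y hy) b ?_
      have := (hG y hy.1.1.1).2
      linarith
  · intro u hu
    exact abs_le.1 hu.1
  · intro s hs t ht
    have h1 : ∀ u ∈ Icc (-ρ') ρ', ‖((u, 0) : V)‖ ≤ 2 * ρ' := by
      intro u hu
      have := abs_le.2 hu
      rw [Prod.norm_mk, norm_zero, Real.norm_eq_abs]
      refine max_le ?_ ?_ <;> linarith
    refine (B'.dist_Ψ_le (h1 s hs) (h1 t ht)).trans (le_of_eq ?_)
    rw [Prod.mk_sub_mk, sub_zero, Prod.norm_mk, norm_zero, Real.norm_eq_abs,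
      max_eq_left (abs_nonneg _)]

/-- A horizontal segment of a box with a positive measure set of generic expanded points. -/
theorem exists_segment {F : Dif A} {μ : Measure X} (h : SRB F μ) {b b' : ℝ} (hb : 0 < b)
    (hbb : b < b') (hl : ∀ᵐ x ∂μ, b' ≤ l1 (A.coc F.f) x ∧ l2 (A.coc F.f) x < 0) :
    ∃ (Λ : Set X) (x0 : X) (ρ K c ε0 : ℝ) (B : Box F Λ x0 ρ K c ε0),
      volume {u : ℝ | |u| ≤ ρ ∧ Gen F.f μ (B.Ψ (u, 0)) ∧ ∀ᶠ n : ℕ in atTop, Real.exp (b * n) ≤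
        ‖deriv (A.e ∘ F.f^[n] ∘ fun t : ℝ => B.Ψ (t, 0)) u‖} ≠ 0 := by
  obtain ⟨hp, he, hac⟩ := h
  have hmg : Measurable F.g := F.smg.1.measurable
  have hpes : ∀ j : ℕ, ∃ Λ : ℕ → Set X,
      (∀ l, MeasurableSet (Λ l) ∧ HasBoxes F (Λ l) (1 / ((j : ℝ) + 1))) ∧
      ∀ᵐ x ∂μ, ∃ l, x ∈ Λ l := by
    intro j
    obtain ⟨Λ, h1, h2⟩ := pesin F μ he.toMeasurePreserving (c0 := 1 / ((j : ℝ) + 1))
      (by positivity)
    refine ⟨Λ, h1, ?_⟩
    filter_upwards [h2, hl] with x hx hx'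
    exact hx (by linarith [hx'.1]) hx'.2
  choose Λ hΛ hΛae using hpes
  have hbox : ∀ j : ℕ, ∃ (L : Set X) (x0 : X) (ρ K c ε0 : ℝ) (_ : Box F L x0 ρ K c ε0),
      c ≤ 1 / ((j : ℝ) + 1) ∧ ∀ᵐ x ∂μ, ∃ᶠ n : ℕ in atTop, In L x0 ρ K (F.g^[n] x) := by
    intro j
    have h1 : ∃ l, μ (Λ j l) ≠ 0 := by
      by_contra hc
      push Not at hc
      have h2 : μ (⋃ l, Λ j l) = 0 := measure_iUnion_null hc
      have h3 : ∀ᵐ x ∂μ, False := by
        filter_upwards [hΛae j, measure_eq_zero_iff_ae_notMem.1 h2] with x hx hx'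
        exact hx' (mem_iUnion.2 hx)
      exact h3.exists.choose_spec
    obtain ⟨l, hl0⟩ := h1
    obtain ⟨hm, ρ, K, c, ε0, hρ, hK, hc, hcc, hε, hB⟩ := hΛ j l
    obtain ⟨x0, hx0, hpos⟩ := exists_ball_pos hl0 (γ := ρ / (10 * K)) (by positivity)
    obtain ⟨B⟩ := hB x0 hx0
    refine ⟨Λ j l, x0, ρ, K, c, ε0, B, hcc, ?_⟩
    exact ergodic_freq (ergodic_inv he hmg F.gf F.fg) (hm.inter measurableSet_closedBall) hpos
  choose L x0 ρ K c ε0 B hc hfreq using hbox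
  have hae : ∀ᵐ x ∂μ, (Gen F.f μ x ∧ b' ≤ l1 (A.coc F.f) x) ∧ ∀ j, ∃ l, x ∈ Λ j l := by
    filter_upwards [ae_gen he, hl, ae_all_iff.2 hΛae] with x h1 h2 h3
    exact ⟨⟨h1, h2.1⟩, h3⟩
  obtain ⟨G, hGm, hGi, hGae, hG⟩ := exists_inv_full he.toMeasurePreserving hmg F.gf F.fg hae
  have hGg : ∀ n : ℕ, ∀ y ∈ G, F.g^[n] y ∈ G := by
    intro n
    induction n with
    | zero => intro y hy; exact hy
    | succ n ih =>
      intro y hy
      rw [Function.iterate_succ_apply']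
      refine (hGi _).1 ?_
      rw [F.fg]
      exact ih y hy
  have hG0 : μ G ≠ 0 := by
    intro h0
    have h3 : ∀ᵐ x ∂μ, False := by
      filter_upwards [hGae, measure_eq_zero_iff_ae_notMem.1 h0] with x hx hx'
      exact hx' hx
    exact h3.exists.choose_spec
  have hx : ∃ x, Measure.hausdorffMeasure 1 (G ∩ Wu F.g x) ≠ 0 ∧
      ∀ j, ∃ᶠ n : ℕ in atTop, In (L j) (x0 j) (ρ j) (K j) (F.g^[n] x) := by
    by_contra hcon
    refine hG0 (hac G hGm ?_)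
    filter_upwards [ae_all_iff.2 hfreq] with x hx
    by_contra h1
    exact hcon ⟨x, h1, hx⟩
  obtain ⟨x, hx0, hxf⟩ := hx
  have hjn : ∃ (j n : ℕ), In (L j) (x0 j) (ρ j) (K j) (F.g^[n] x) ∧
      Measure.hausdorffMeasure 1 (G ∩ leaf_tau1 (B j) (F.g^[n] x)) ≠ 0 := by
    by_contra hcon
    push Not at hcon
    refine hx0 (measure_mono_null (t := ⋃ j : ℕ, ⋃ n : ℕ,
      ⋃ _ : In (L j) (x0 j) (ρ j) (K j) (F.g^[n] x),
        F.f^[n] '' (G ∩ leaf_tau1 (B j) (F.g^[n] x))) ?_ ?_)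
    · rintro y ⟨hyG, c1, hc1, hy⟩
      obtain ⟨j, hj⟩ := exists_nat_one_div_lt hc1
      obtain ⟨n, hn, hn'⟩ := pull_tau1 (B j) (hxf j) ((hc j).trans hj.le) hy
      simp only [mem_iUnion]
      exact ⟨j, n, hn, F.g^[n] y, ⟨hGg n y hyG, hn'⟩, F.fg_iter n y⟩
    · refine measure_iUnion_null fun j => measure_iUnion_null fun n =>
        measure_iUnion_null fun hn => ?_
      obtain ⟨K1, -, hK1⟩ := (F.smf.iter n).lip
      exact hausdorff_lip_null hK1 (hcon j n hn)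
  obtain ⟨j, n, hin, hpos⟩ := hjn
  obtain ⟨j', hj'⟩ := exists_nat_one_div_lt (lt_min (B j).c_pos (sub_pos.2 hbb))
  have hl' : ∃ l, Measure.hausdorffMeasure 1
      (G ∩ leaf_tau1 (B j) (F.g^[n] x) ∩ Λ j' l) ≠ 0 := by
    by_contra hcon
    push Not at hcon
    refine hpos (measure_mono_null ?_ (measure_iUnion_null hcon))
    intro y hy
    obtain ⟨l, hl⟩ := (hG y hy.1).2 j'
    exact mem_iUnion.2 ⟨l, hy, hl⟩
  obtain ⟨l, hl0⟩ := hl'
  exact segment_of_leaf_tau1 (B j) hin (hΛ j' l).2 (hj'.le.trans (min_le_left _ _))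
    (hj'.trans_le (min_le_right _ _)) (fun y hy => (hG y hy).1) hl0

end Pool.Agent.Lib.MP_e7c912_an
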