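import Pool.Agent.Lib.MP_e7c912_an.H60Calc

/-! Curves with bounded geometry. Definitions only. -/

namespace Pool.Agent.Lib.MP_e7c912_an

open MeasureTheory Filter Metric Set Topology

namespace Atlas

variable {X : Type} [MetricSpace X] [MeasurableSpace X] (A : Atlas X)

/-- The curve is `C^r` near `[a, a + h]`. -/
def SmC (r : ℕ) (c : ℝ → X) (a h : ℝ) : Prop := ∀ t ∈ Icc a (a + h), ContDiffAt ℝ r (A.e ∘ c) t

/-- After rescaling the interval, higher derivatives are dominated by the first one. -/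
def Bdd (r : ℕ) (c : ℝ → X) (a h : ℝ) : Prop :=
  ∀ s : ℕ, 2 ≤ s → s ≤ r → ∀ t ∈ Icc a (a + h),
    ‖iteratedDeriv s (A.e ∘ c) t‖ * h ^ (s - 1) ≤ ‖deriv (A.e ∘ c) t‖ / 4

/-- The rescaled speed is at most `ε`. -/
def Sml (ε : ℝ) (c : ℝ → X) (a h : ℝ) : Prop :=
  ∀ t ∈ Icc a (a + h), ‖deriv (A.e ∘ c) t‖ * h ≤ ε

/-- The rescaled speed is at least `ε / 4`. -/
def BigC (ε : ℝ) (c : ℝ → X) (a h : ℝ) : Prop :=
  ∀ t ∈ Icc a (a + h), ε / 4 ≤ ‖deriv (A.e ∘ c) t‖ * h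

def Good (r : ℕ) (ε : ℝ) (c : ℝ → X) (a h : ℝ) : Prop :=
  A.SmC r c a h ∧ A.Bdd r c a h ∧ A.Sml ε c a h

end Atlas

/-- Left end of the dyadic interval of generation `m` containing `t`. -/
noncomputable def dy (m : ℕ) (t : ℝ) : ℝ := ⌊2 ^ m * t⌋ / 2 ^ m

/-- Length of the dyadic intervals of generation `m`. -/
noncomputable def dl (m : ℕ) : ℝ := 1 / 2 ^ m

/-- One step of the reparametrisation for the map `G`. -/
structure YFit {X : Type} [MetricSpace X] [MeasurableSpace X] (A : Atlas X) (G : X → X) (r : ℕ)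
    (ε Λ n1 n2 : ℝ) (js : ℕ) : Prop where
  sm : A.Sm G
  two_le : 2 ≤ r
  ε_pos : 0 < ε
  Λ_pos : 0 < Λ
  up : ∀ (c : ℝ → X) (t : ℝ) (v : Fin A.N → ℝ), HasDerivAt (A.e ∘ c) v t →
    ‖deriv (A.e ∘ G ∘ c) t‖ ≤ Real.exp Λ * ‖v‖
  low : ∀ (c : ℝ → X) (t : ℝ) (v : Fin A.N → ℝ), HasDerivAt (A.e ∘ c) v t →
    ‖v‖ ≤ Real.exp Λ * ‖deriv (A.e ∘ G ∘ c) t‖
  cover : ∀ (c : ℝ → X) (a L : ℝ) (y : X), 0 < L → A.Good r ε c a L →
    ∃ S : Finset (ℝ × ℝ), (S.card : ℝ) ≤ n1 ∧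
      (∀ p ∈ S, 0 < p.2 ∧ a ≤ p.1 ∧ p.1 + p.2 ≤ a + L ∧ A.Good r ε (G ∘ c) p.1 p.2) ∧
      ∀ t ∈ Icc a (a + L), dist (G (c t)) y < ε → ∃ p ∈ S, t ∈ Icc p.1 (p.1 + p.2)
  moment : ∀ (c : ℝ → X) (m : ℕ) (t0 : ℝ) (j : ℕ), A.Good r ε c (dy m t0) (dl m) →
    volume {t | dy m t = dy m t0 ∧ ¬ A.Bdd r (G ∘ c) (dy (m + j) t) (dl (m + j))} ≤
      ENNReal.ofReal (n2 * dl (m + j))
  tiny : ∀ (c : ℝ → X) (a L s h : ℝ), 0 < h → A.Good r ε c a L → a ≤ s → s + h ≤ a + L →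
    h * 2 ^ js ≤ L → A.Good r ε (G ∘ c) s h

/-- Parameters: iterate `p`, scale `ε`, bound `Λ` on the expansion, loss `α`. -/
structure Prm where
  p : ℕ
  ε : ℝ
  Λ : ℝ
  α : ℝ

/-- Numerical relations between the constants. -/
structure Num (q : Prm) (x0 js : ℕ) (n1 n2 : ℝ) : Prop where
  p_pos : 1 ≤ q.p
  α_pos : 0 < q.α
  n1_le : n1 ≤ Real.exp (q.α * q.p)
  one_le_n2 : 1 ≤ n2
  n2_le : Real.log n2 + 3 ≤ q.α * q.p
  x0_ge : 2 * (q.α * q.p) ≤ x0 * Real.log 2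
  x0_le : x0 * Real.log 2 ≤ 3 * (q.α * q.p)
  x0_js : x0 ≤ js

/-- The parameters are adapted to the map `g`. -/
def Fit {X : Type} [MetricSpace X] [MeasurableSpace X] (A : Atlas X) (q : Prm) (g : X → X) : Prop :=
  ∃ (r x0 js : ℕ) (n1 n2 : ℝ), Num q x0 js n1 n2 ∧ YFit A g^[q.p] r q.ε q.Λ n1 n2 js

end Pool.Agent.Lib.MP_e7c912_an
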