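import Mathlib

/-! Away from the roots of the derivatives of a Taylor polynomial, higher derivatives are dominated
by the first one. -/

namespace Pool.Agent.Lib.MP_e7c912_an

open Set Polynomial

lemma anti_y2 (Q : ℝ[X]) (t0 c : ℝ) :
    ∃ P : ℝ[X], derivative P = Q ∧ P.eval t0 = c ∧ P.natDegree ≤ Q.natDegree + 1 := by
  set P := ∑ i ∈ Finset.range (Q.natDegree + 1), monomial (i + 1) (Q.coeff i / (i + 1)) with hP
  have h1 : derivative P = Q := by
    rw [hP, derivative_sum]
    conv_rhs => rw [Q.as_sum_range]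
    refine Finset.sum_congr rfl fun i _ => ?_
    rw [derivative_monomial_succ]
    congr 1
    field_simp
  refine ⟨P + C (c - P.eval t0), by simp [h1], by simp, ?_⟩
  rw [natDegree_add_C]
  refine natDegree_sum_le_of_forall_le _ _ fun i hi => (natDegree_monomial_le _).trans ?_
  have := Finset.mem_range.1 hi
  omega

lemma taylor_y2 {r : ℕ} {f : ℝ → ℝ} {t0 l R : ℝ} (hl : 0 ≤ l)
    (hf : ∀ t ∈ Icc t0 (t0 + l), ContDiffAt ℝ r f t)
    (hR : ∀ t ∈ Icc t0 (t0 + l), |iteratedDeriv r f t| ≤ R) (k : ℕ) :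
    ∀ m, m + k = r → ∃ Q : ℝ[X], Q.natDegree ≤ k ∧ ∀ j ≤ k, ∀ t ∈ Icc t0 (t0 + l),
      |iteratedDeriv (m + j) f t - (derivative^[j] Q).eval t| ≤ R * l ^ (k - j) := by
  induction k with
  | zero =>
    intro m hm
    refine ⟨0, by simp, fun j hj t ht => ?_⟩
    obtain rfl : j = 0 := by omega
    obtain rfl : m = r := by omega
    simpa using hR t ht
  | succ k ih =>
    intro m hm
    obtain ⟨Q, hQ, h⟩ := ih (m + 1) (by omega)
    obtain ⟨P, h1, h2, h3⟩ := anti_y2 Q t0 (iteratedDeriv m f t0)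
    refine ⟨P, by omega, fun j hj t ht => ?_⟩
    rcases j with _ | j
    · have hd : ∀ x ∈ Icc t0 (t0 + l), HasDerivWithinAt (fun x => iteratedDeriv m f x - P.eval x)
          (iteratedDeriv (m + 1) f x - Q.eval x) (Icc t0 (t0 + l)) x := by
        intro x hx
        have : DifferentiableAt ℝ (iteratedDeriv m f) x := by
          rw [iteratedDeriv_eq_equiv_comp]
          exact (ContinuousMultilinearMap.piFieldEquiv ℝ (Fin m) ℝ).symm.differentiableAt.comp x
            ((hf x hx).differentiableAt_iteratedFDeriv (by exact_mod_cast (by omega : m < r)))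
        rw [iteratedDeriv_succ, ← h1]
        exact (this.hasDerivAt.sub (P.hasDerivAt x)).hasDerivWithinAt
      have hb := (convex_Icc _ _).norm_image_sub_le_of_norm_hasDerivWithin_le (C := R * l ^ k) hd
        (fun x hx => by simpa using h 0 (by omega) x hx) (left_mem_Icc.2 (by linarith)) ht
      have h0 : 0 ≤ R * l ^ k := (abs_nonneg _).trans (by simpa using h 0 (by omega) t ht)
      have ht' : ‖t - t0‖ ≤ l := by
        rw [Real.norm_eq_abs, abs_le]
        constructor <;> linarith [ht.1, ht.2]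
      simp only [h2, sub_self, sub_zero, Real.norm_eq_abs] at hb
      calc _ ≤ R * l ^ k * ‖t - t0‖ := by simpa using hb
        _ ≤ R * l ^ k * l := by gcongr
        _ = _ := by simp [pow_succ, mul_assoc]
    · have := h j (by omega) t ht
      rw [Function.iterate_succ_apply, h1, show m + (j + 1) = m + 1 + j by ring,
        show k + 1 - (j + 1) = k - j by omega]
      exact this

lemma gauss_y2 {Q : ℝ[X]} {r : ℕ} (hQ : Q.natDegree ≤ r) {t d : ℝ} (hd : 0 < d)
    (h : ∀ z ∈ (Q.map (algebraMap ℝ ℂ)).roots, d ≤ |t - z.re|) :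
    |(derivative Q).eval t| ≤ r / d * |Q.eval t| := by
  rcases eq_or_ne Q 0 with rfl | h0
  · simp
  set P := Q.map (algebraMap ℝ ℂ) with hP
  have hP0 : P ≠ 0 := map_ne_zero h0
  have e1 : P.eval (t : ℂ) = (Q.eval t : ℝ) := by
    rw [hP, eval_map, ← Complex.coe_algebraMap, eval₂_at_apply]
  have e2 : (derivative P).eval (t : ℂ) = ((derivative Q).eval t : ℝ) := by
    rw [hP, derivative_map, eval_map, ← Complex.coe_algebraMap, eval₂_at_apply]
  have hne : P.eval (t : ℂ) ≠ 0 := fun hz => by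
    have := h t ((mem_roots hP0).2 hz)
    simp at this
    linarith
  have key := (IsAlgClosed.splits P).eval_derivative_div_eval_of_ne_zero hne
  have hb : ‖(P.roots.map fun z => 1 / ((t : ℂ) - z)).sum‖ ≤ r / d := by
    refine (norm_multiset_sum_le _).trans ?_
    rw [Multiset.map_map]
    refine (Multiset.sum_le_card_nsmul _ (1 / d) ?_).trans ?_
    · intro x hx
      obtain ⟨z, hz, rfl⟩ := Multiset.mem_map.1 hx
      have h1 : d ≤ ‖(t : ℂ) - z‖ := (h z hz).trans (by simpa using Complex.abs_re_le_norm (t - z))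
      simp only [Function.comp, norm_div, norm_one]
      gcongr
    · have h2 : (P.roots.card : ℝ) ≤ r := by
        exact_mod_cast (card_roots' P).trans (natDegree_map_le.trans hQ)
      rw [Multiset.card_map, nsmul_eq_mul, mul_one_div]
      gcongr
  rw [← key, norm_div, e1, e2, Complex.norm_real, Complex.norm_real] at hb
  have hpos : 0 < ‖Q.eval t‖ := by
    rw [e1] at hne
    exact norm_pos_iff.2 (by exact_mod_cast hne)
  exact (div_le_iff₀ hpos).1 hb

theorem poly_lemma {r : ℕ} (hr : 2 ≤ r) {f : ℝ → ℝ} {t0 l R : ℝ} (hl : 0 ≤ l)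
    (hf : ∀ t ∈ Icc t0 (t0 + l), ContDiffAt ℝ r f t)
    (hR : ∀ t ∈ Icc t0 (t0 + l), |iteratedDeriv r f t| ≤ R) :
    ∃ Z : Finset ℝ, Z.card ≤ r ^ 2 ∧ ∀ t ∈ Icc t0 (t0 + l), ∀ d : ℝ, 0 < d →
      (∀ z ∈ Z, d ≤ |t - z|) → ∀ s : ℕ, 2 ≤ s → s ≤ r → |iteratedDeriv s f t| ≤
        (r / d) ^ (s - 1) * (|deriv f t| + R * l ^ (r - 1)) + R * l ^ (r - s) := by
  classical
  obtain ⟨Q, hQ, h⟩ := taylor_y2 hl hf hR r 0 (by simp)
  have hdeg : ∀ j, (derivative^[j] Q).natDegree ≤ r := fun j =>
    (natDegree_iterate_derivative Q j).trans ((Nat.sub_le _ _).trans hQ)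
  refine ⟨(Finset.range r).biUnion fun j =>
    (((derivative^[j] Q).map (algebraMap ℝ ℂ)).roots.map Complex.re).toFinset, ?_, ?_⟩
  · rw [sq]
    refine (Finset.card_biUnion_le_card_mul _ _ r fun j _ => ?_).trans (by simp)
    refine (Multiset.toFinset_card_le _).trans ?_
    rw [Multiset.card_map]
    exact (card_roots' _).trans (natDegree_map_le.trans (hdeg j))
  intro t ht d hd hZ s hs hsr
  have step : ∀ j, j + 1 ≤ r →
      |(derivative^[j + 1] Q).eval t| ≤ (r / d) ^ j * |(derivative^[1] Q).eval t| := by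
    intro j
    induction j with
    | zero => simp
    | succ j ih =>
      intro hj
      rw [Function.iterate_succ_apply']
      refine (gauss_y2 (hdeg (j + 1)) hd fun z hz => hZ _ ?_).trans ?_
      · exact Finset.mem_biUnion.2 ⟨j + 1, Finset.mem_range.2 (by omega),
          Multiset.mem_toFinset.2 (Multiset.mem_map_of_mem _ hz)⟩
      · rw [pow_succ', mul_assoc]
        gcongr
        exact ih (by omega)
  obtain ⟨j, rfl⟩ : ∃ j, s = j + 1 := ⟨s - 1, by omega⟩
  have h1 := h 1 (by omega) t ht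
  have h2 := h (j + 1) hsr t ht
  rw [zero_add] at h1 h2
  rw [iteratedDeriv_one] at h1
  have h3 : |(derivative^[1] Q).eval t| ≤ |deriv f t| + R * l ^ (r - 1) := by
    have := abs_sub_abs_le_abs_sub ((derivative^[1] Q).eval t) (deriv f t)
    rw [abs_sub_comm] at this
    linarith
  have h4 := abs_sub_abs_le_abs_sub (iteratedDeriv (j + 1) f t) ((derivative^[j + 1] Q).eval t)
  have h5 : (r / d) ^ j * |(derivative^[1] Q).eval t| ≤
      (r / d) ^ j * (|deriv f t| + R * l ^ (r - 1)) := by gcongr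
  have h6 := step j hsr
  rw [Nat.add_sub_cancel]
  linarith

end Pool.Agent.Lib.MP_e7c912_an
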