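import Pool.Agent.Lib.MP_e7c912_an.H60Yom1
import Pool.Agent.Lib.MP_e7c912_an.H60Yom2

/-! The reparametrisation lemma: away from the roots of a Taylor polynomial the image of a good
curve is bounded. -/

namespace Pool.Agent.Lib.MP_e7c912_an

open MeasureTheory Filter Metric Set Topology

theorem coord_yom {N r s : ℕ} {g : ℝ → Fin N → ℝ} {t : ℝ} (hg : ContDiffAt ℝ r g t) (hs : s ≤ r)
    (k : Fin N) : iteratedDeriv s (fun u => g u k) t = iteratedDeriv s g t k := by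
  have := (ContinuousLinearMap.proj k : (Fin N → ℝ) →L[ℝ] ℝ).iteratedFDeriv_comp_left hg
    (i := s) (by exact_mod_cast hs)
  rw [iteratedDeriv_eq_iteratedFDeriv, iteratedDeriv_eq_iteratedFDeriv]
  exact congrArg (fun M => M fun _ => (1 : ℝ)) this

theorem piece_yom {a l t : ℝ} (n : ℕ) (ht : t ∈ Icc a (a + (n + 1 : ℕ) * l)) :
    ∃ j < n + 1, t ∈ Icc (a + j * l) (a + j * l + l) := by
  induction n with
  | zero => exact ⟨0, one_pos, by simpa using ht⟩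
  | succ n ih =>
    rcases le_total t (a + (n + 1 : ℕ) * l) with h | h
    · obtain ⟨j, hj, h⟩ := ih ⟨ht.1, h⟩
      exact ⟨j, by omega, h⟩
    · refine ⟨n + 1, by omega, h, ht.2.trans_eq ?_⟩
      push_cast
      ring

theorem arith_yom {r s : ℕ} {C h l W D D' u R : ℝ} (hs : 2 ≤ s) (hr : s ≤ r) (hC : 16 * r ≤ C)
    (hh : 0 < h) (hl : h ≤ l) (hR : 0 ≤ R) (hD : 0 ≤ D') (hD' : D' ≤ D)
    (hW : W = R * l ^ (r - 1)) (hW' : W ≤ D / 9)
    (hu : u ≤ (r / (C * h)) ^ (s - 1) * (D' + R * l ^ (r - 1)) + R * l ^ (r - s)) :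
    u * h ^ (s - 1) ≤ D / 4 := by
  have hr0 : (2 : ℝ) ≤ r := by exact_mod_cast hs.trans hr
  have hC0 : 0 < C := by linarith
  have hW0 : 0 ≤ W := by rw [hW]; exact mul_nonneg hR (pow_nonneg (by linarith) _)
  have e1 : (r / (C * h)) ^ (s - 1) * h ^ (s - 1) ≤ 1 / 16 := by
    have e : r / C ≤ 1 / 16 := by rw [div_le_iff₀ hC0]; linarith
    rw [← mul_pow, show r / (C * h) * h = r / C by field_simp]
    exact (pow_le_of_le_one (by positivity) (by linarith) (by omega)).trans e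
  have e2 : R * l ^ (r - s) * h ^ (s - 1) ≤ W := by
    rw [hW, show r - 1 = r - s + (s - 1) by omega, pow_add, mul_assoc]
    have : 0 ≤ l := by linarith
    gcongr
  have e3 := mul_le_mul_of_nonneg_right e1 (add_nonneg hD hW0)
  have e4 := mul_le_mul_of_nonneg_right hu (pow_pos hh (s - 1)).le
  rw [← hW] at e4
  nlinarith

variable {X : Type} [MetricSpace X] [MeasurableSpace X]

theorem lemmaY (A : Atlas X) {r : ℕ} (hr : 2 ≤ r) : ∃ C : ℝ, 1 ≤ C ∧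
    ∀ (G : X → X) (Kf Kr ε : ℝ) (x : ℕ), A.Sm G → A.Reg r Kr G → A.Up Kf G → A.Low Kf G →
      1 ≤ Kf → 0 < ε → ε ≤ 1 → ε < A.ρ → ε * Kr ≤ Kf → C * Kf ^ 2 ≤ 2 ^ (x * (r - 1)) →
      ∀ (c : ℝ → X) (a L : ℝ), 0 < L → A.Good r ε c a L →
      ∃ Z : Finset ℝ, (Z.card : ℝ) ≤ C * 2 ^ x ∧ ∀ s h : ℝ, 0 < h → a ≤ s → s + h ≤ a + L →
        ((∀ z ∈ Z, ∀ t ∈ Icc s (s + h), C * h ≤ |t - z|) ∨ h * (C * Kf ^ 2) ≤ L) →
        A.Bdd r (G ∘ c) s h := by
  classical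
  obtain ⟨B, hB, hF⟩ := faa_bound r
  have hK := A.one_le_K
  have hBK : 1 ≤ B * A.K := one_le_mul_of_one_le_of_one_le hB hK
  have hr0 : (0 : ℝ) ≤ r := Nat.cast_nonneg r
  have hN0 : (0 : ℝ) ≤ A.N * r ^ 2 := by positivity
  obtain ⟨C, hC⟩ : ∃ C : ℝ, C = 16 * (B * A.K + r) + A.N * r ^ 2 + 2 := ⟨_, rfl⟩
  have hC1 : 1 ≤ C := by linarith
  refine ⟨C, hC1, fun G Kf Kr ε x hG hR hU hL hKf _ hε1 _ hεK hx c a L hL0 hc => ?_⟩
  have hF' := hF X A G Kf Kr ε hG hR hU hε1 hεK c a L hL0 hc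
  have hlow : ∀ t ∈ Icc a (a + L), ‖deriv (A.e ∘ c) t‖ ≤ A.K * Kf * ‖deriv (A.e ∘ G ∘ c) t‖ :=
    fun t ht => le_deriv_comp hG hL (hc.1.hasDerivAt (by omega) ht)
  have hsm : ∀ t ∈ Icc a (a + L), ContDiffAt ℝ r (A.e ∘ G ∘ c) t := hc.1.comp hG
  obtain ⟨l, hl⟩ : ∃ l : ℝ, l = L / 2 ^ x := ⟨_, rfl⟩
  have hl0 : 0 < l := by rw [hl]; positivity
  have hlL : (2 : ℝ) ^ x * l = L := by rw [hl]; field_simp
  obtain ⟨R, hRd⟩ : ∃ R : ℝ, R = B * Kf * (4 / 3 * ‖deriv (A.e ∘ c) a‖) / L ^ (r - 1) := ⟨_, rfl⟩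
  have hR0 : 0 ≤ R := by rw [hRd]; positivity
  have ha : a ∈ Icc a (a + L) := ⟨le_rfl, by linarith⟩
  have hsub : ∀ j : ℕ, j < 2 ^ x → Icc (a + j * l) (a + j * l + l) ⊆ Icc a (a + L) := by
    intro j hj
    have h1 : (j : ℝ) + 1 ≤ 2 ^ x := by exact_mod_cast hj
    refine Icc_subset_Icc (le_add_of_nonneg_right (by positivity)) ?_
    nlinarith
  have hP : ∀ (j : ℕ) (k : Fin A.N), ∃ Z : Finset ℝ, Z.card ≤ r ^ 2 ∧ (j < 2 ^ x →
      ∀ t ∈ Icc (a + j * l) (a + j * l + l), ∀ d : ℝ, 0 < d → (∀ z ∈ Z, d ≤ |t - z|) →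
        ∀ s : ℕ, 2 ≤ s → s ≤ r → |iteratedDeriv s (fun u => (A.e ∘ G ∘ c) u k) t| ≤
          (r / d) ^ (s - 1) * (|deriv (fun u => (A.e ∘ G ∘ c) u k) t| + R * l ^ (r - 1)) +
            R * l ^ (r - s)) := by
    intro j k
    by_cases hj : j < 2 ^ x
    · obtain ⟨Z, h1, h2⟩ := poly_lemma hr (f := fun u => (A.e ∘ G ∘ c) u k) (t0 := a + j * l)
        (R := R) hl0.le (fun t ht => contDiffAt_pi.1 (hsm t (hsub j hj ht)) k) fun t ht => by
          have ht' := hsub j hj ht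
          rw [coord_yom (hsm t ht') le_rfl, hRd, le_div_iff₀ (by positivity)]
          refine (mul_le_mul_of_nonneg_right (norm_le_pi_norm _ k) (by positivity)).trans
            ((hF' r (by omega) le_rfl t ht').trans ?_)
          have := hc.2.1.distortion hc.1 hr hL0 ht' ha
          gcongr
          linarith
      exact ⟨Z, h1, fun _ => h2⟩
    · exact ⟨∅, by simp, fun h => absurd h hj⟩
  choose Zf hZ1 hZ2 using hP
  refine ⟨(Finset.range (2 ^ x)).biUnion fun j => insert (a + j * l) (Finset.univ.biUnion (Zf j)),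
    ?_, fun s h hh hs hsh hd s' h2 h3 t ht => ?_⟩
  · have h1 : ((Finset.range (2 ^ x)).biUnion fun j =>
        insert (a + j * l) (Finset.univ.biUnion (Zf j))).card ≤ 2 ^ x * (A.N * r ^ 2 + 1) := by
      refine (Finset.card_biUnion_le_card_mul _ _ _ fun j _ =>
        (Finset.card_insert_le _ _).trans (Nat.succ_le_succ ?_)).trans_eq (by rw [Finset.card_range])
      simpa using Finset.card_biUnion_le_card_mul Finset.univ (Zf j) _ fun k _ => hZ1 j k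
    have h2 : (A.N * r ^ 2 + 1 : ℝ) ≤ C := by linarith
    refine (Nat.cast_le.2 h1).trans ?_
    push_cast
    rw [mul_comm]
    gcongr
  have ht' : t ∈ Icc a (a + L) := ⟨hs.trans ht.1, ht.2.trans hsh⟩
  have hCK : 0 < C * Kf ^ 2 := by positivity
  have hD := norm_nonneg (deriv (A.e ∘ G ∘ c) t)
  rcases hd with hd | hd
  · obtain ⟨n, hn⟩ : ∃ n, 2 ^ x = n + 1 := ⟨2 ^ x - 1, (Nat.sub_add_cancel Nat.one_le_two_pow).symm⟩
    obtain ⟨j, hj, htj⟩ := piece_yom (a := a) (l := l) n (by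
      rw [← hn, Nat.cast_pow, Nat.cast_ofNat, hlL]; exact ht')
    rw [← hn] at hj
    have hmem : ∀ z ∈ insert (a + j * l) (Finset.univ.biUnion (Zf j)), C * h ≤ |t - z| :=
      fun z hz => hd z (Finset.mem_biUnion.2 ⟨j, Finset.mem_range.2 hj, hz⟩) t ht
    have hhl : h ≤ l := by
      have h4 := hmem _ (Finset.mem_insert_self _ _)
      rw [abs_of_nonneg (sub_nonneg.2 htj.1)] at h4
      nlinarith [htj.2]
    have hW : R * l ^ (r - 1) ≤ ‖deriv (A.e ∘ G ∘ c) t‖ / 9 := by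
      have h4 := hc.2.1.distortion hc.1 hr hL0 ha ht'
      have h5 := hlow t ht'
      have h6 : R * l ^ (r - 1) * 2 ^ (x * (r - 1)) = B * Kf * (4 / 3 * ‖deriv (A.e ∘ c) a‖) := by
        rw [hRd, ← hlL, mul_pow, pow_mul]
        field_simp
      have h7 : R * l ^ (r - 1) * (C * Kf ^ 2) ≤ B * Kf * (4 / 3 * ‖deriv (A.e ∘ c) a‖) := by
        rw [← h6]
        gcongr
      have h8 : B * Kf * (4 / 3 * ‖deriv (A.e ∘ c) a‖) ≤
          B * Kf * (16 / 9 * (A.K * Kf * ‖deriv (A.e ∘ G ∘ c) t‖)) := by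
        gcongr B * Kf * ?_
        linarith
      have h9 : 16 * (B * A.K) * (Kf ^ 2 * ‖deriv (A.e ∘ G ∘ c) t‖) ≤
          C * (Kf ^ 2 * ‖deriv (A.e ∘ G ∘ c) t‖) := by
        gcongr
        linarith
      refine le_of_mul_le_mul_right ?_ hCK
      nlinarith
    rw [← le_div_iff₀ (pow_pos hh _), pi_norm_le_iff_of_nonneg (by positivity)]
    intro k
    rw [le_div_iff₀ (pow_pos hh _), ← coord_yom (hsm t ht') h3]
    refine arith_yom h2 h3 (C := C) (by nlinarith) hh hhl hR0 (abs_nonneg _) ?_ rfl hW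
      (hZ2 j k hj t htj _ (by positivity) (fun z hz => hmem z (Finset.mem_insert_of_mem
        (Finset.mem_biUnion.2 ⟨k, Finset.mem_univ _, hz⟩))) s' h2 h3)
    have h4 := coord_yom (hsm t ht') (s := 1) (by omega) k
    rw [iteratedDeriv_one, iteratedDeriv_one] at h4
    rw [h4]
    exact norm_le_pi_norm (deriv (A.e ∘ G ∘ c) t) k
  · obtain ⟨m, rfl⟩ : ∃ m, s' = m + 2 := ⟨s' - 2, by omega⟩
    have h4 := hF' (m + 2) (by omega) h3 t ht'
    have h5 := hlow t ht'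
    have hhL : h ≤ L := by linarith
    rw [show m + 2 - 1 = m + 1 by omega, pow_succ] at h4 ⊢
    have h6 : ‖iteratedDeriv (m + 2) (A.e ∘ G ∘ c) t‖ * (h ^ m * (h * (C * Kf ^ 2))) ≤
        ‖iteratedDeriv (m + 2) (A.e ∘ G ∘ c) t‖ * (L ^ m * L) := by gcongr
    have h7 : B * Kf * ‖deriv (A.e ∘ c) t‖ ≤ B * Kf * (A.K * Kf * ‖deriv (A.e ∘ G ∘ c) t‖) := by
      gcongr
    have h9 : 4 * (B * A.K) * (Kf ^ 2 * ‖deriv (A.e ∘ G ∘ c) t‖) ≤
        C * (Kf ^ 2 * ‖deriv (A.e ∘ G ∘ c) t‖) := by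
      gcongr
      linarith
    refine le_of_mul_le_mul_right ?_ hCK
    nlinarith

end Pool.Agent.Lib.MP_e7c912_an
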