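import Pool.Agent.Lib.MP_e7c912_an.H60Curve

/-! Bounds for the derivatives of the image of a good curve. -/

namespace Pool.Agent.Lib.MP_e7c912_an

open MeasureTheory Filter Metric Set Topology

variable {X : Type} [MetricSpace X] [MeasurableSpace X] {A : Atlas X}

theorem deriv_comp_le {G : X → X} {Kf : ℝ} (hG : A.Sm G) (hu : A.Up Kf G) {c : ℝ → X} {t : ℝ}
    {v : Fin A.N → ℝ} (hc : HasDerivAt (A.e ∘ c) v t) : ‖deriv (A.e ∘ G ∘ c) t‖ ≤ Kf * ‖v‖ := by
  have hd : dist (c t) (c t) < A.ρ := by rw [dist_self]; exact A.ρ_pos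
  have h1 := hu _ _ (Atlas.φ_mem (A.mem_D (c t)) hd)
  rw [(hG.hasDerivAt_comp (A.mem_D (c t)) hd hc).deriv]
  exact (ContinuousLinearMap.le_opNorm _ _).trans (mul_le_mul h1
    ((ContinuousLinearMap.le_of_opNorm_le _ (A.pr_le _) v).trans_eq (one_mul _)) (norm_nonneg _)
    ((norm_nonneg _).trans h1))

theorem le_deriv_comp {G : X → X} {Kf : ℝ} (hG : A.Sm G) (hl : A.Low Kf G) {c : ℝ → X} {t : ℝ}
    {v : Fin A.N → ℝ} (hc : HasDerivAt (A.e ∘ c) v t) :
    ‖v‖ ≤ A.K * Kf * ‖deriv (A.e ∘ G ∘ c) t‖ := by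
  have hd : dist (c t) (c t) < A.ρ := by rw [dist_self]; exact A.ρ_pos
  rw [(hG.hasDerivAt_comp (A.mem_D (c t)) hd hc).deriv, mul_assoc]
  exact (Atlas.norm_le_pr (A.mem_D (c t)) hd hc).trans (mul_le_mul_of_nonneg_left
    (hl _ _ (Atlas.φ_mem (A.mem_D (c t)) hd) _) (zero_le_one.trans A.one_le_K))

theorem faa_yom1 {E F : Type} [NormedAddCommGroup E] [NormedSpace ℝ E] [NormedAddCommGroup F]
    [NormedSpace ℝ F] {g : E → F} {β : ℝ → E} {t v L ε Kf Kr : ℝ} {r s : ℕ} (hs1 : 1 ≤ s)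
    (hs : s ≤ r) (hg : ContDiffAt ℝ r g (β t)) (hβ : ContDiffAt ℝ r β t) (hL : 0 < L) (hv : 0 ≤ v)
    (h1 : ∀ m, 1 ≤ m → m ≤ r → ‖iteratedDeriv m β t‖ * L ^ (m - 1) ≤ v) (hε : v * L ≤ ε)
    (hε1 : ε ≤ 1) (hf : ‖fderiv ℝ g (β t)‖ ≤ Kf)
    (hr : ∀ k ≤ r, ‖iteratedFDeriv ℝ k g (β t)‖ ≤ Kr) (hK : ε * Kr ≤ Kf) :
    ‖iteratedDeriv s (g ∘ β) t‖ * L ^ (s - 1) ≤
      Fintype.card (OrderedFinpartition s) * (Kf * v) := by
  rw [iteratedDeriv_vcomp_eq_sum_orderedFinpartition hg hβ (by exact_mod_cast hs)]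
  refine (mul_le_mul_of_nonneg_right (norm_sum_le _ _) (by positivity)).trans ?_
  rw [Finset.sum_mul, ← nsmul_eq_mul, ← Finset.card_univ]
  refine Finset.sum_le_card_nsmul _ _ _ fun c _ => ?_
  have hsum : ∑ j, c.partSize j = s := by simpa using c.sum_sigma_eq_sum fun _ => (1 : ℕ)
  have hk := c.length_pos hs1
  have he : s - 1 = ∑ j, (c.partSize j - 1) + (c.length - 1) := by
    have : ∑ j, c.partSize j = ∑ j, (c.partSize j - 1 + 1) :=
      Finset.sum_congr rfl fun j _ => (Nat.sub_add_cancel (c.partSize_pos j)).symm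
    rw [Finset.sum_add_distrib, hsum] at this
    simp only [Finset.sum_const, Finset.card_univ, Fintype.card_fin, smul_eq_mul, mul_one] at this
    omega
  have h2 : ∏ j, (‖iteratedDeriv (c.partSize j) β t‖ * L ^ (c.partSize j - 1)) ≤ v ^ c.length := by
    refine (Finset.prod_le_prod (fun j _ => by positivity) fun j _ =>
      h1 _ (c.partSize_pos j) ((c.partSize_le j).trans hs)).trans_eq ?_
    simp
  have h3 : ‖iteratedFDeriv ℝ c.length g (β t)‖ * (v * L) ^ (c.length - 1) ≤ Kf := by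
    have hle := c.length_le.trans hs
    generalize c.length = k at hk hle
    obtain _ | _ | k := k
    · omega
    · rw [zero_add, Nat.sub_self, pow_zero, mul_one, norm_iteratedFDeriv_one]
      exact hf
    · have h0 : 0 ≤ v * L := by positivity
      have h4 : (v * L) ^ (k + 1 + 1 - 1) ≤ ε :=
        (pow_le_of_le_one h0 (hε.trans hε1) (by omega)).trans hε
      exact (mul_le_mul (hr _ hle) h4 (by positivity)
        ((norm_nonneg _).trans (hr _ hle))).trans ((mul_comm _ _).trans_le hK)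
  calc _ ≤ ‖iteratedFDeriv ℝ c.length g (β t)‖ * (∏ j, ‖iteratedDeriv (c.partSize j) β t‖) *
        L ^ (s - 1) :=
        mul_le_mul_of_nonneg_right (ContinuousMultilinearMap.le_opNorm _ _) (by positivity)
    _ = ‖iteratedFDeriv ℝ c.length g (β t)‖ * L ^ (c.length - 1) *
        ∏ j, (‖iteratedDeriv (c.partSize j) β t‖ * L ^ (c.partSize j - 1)) := by
        rw [he, pow_add, Finset.prod_mul_distrib, Finset.prod_pow_eq_pow_sum]; ring
    _ ≤ ‖iteratedFDeriv ℝ c.length g (β t)‖ * L ^ (c.length - 1) * v ^ c.length :=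
        mul_le_mul_of_nonneg_left h2 (by positivity)
    _ = ‖iteratedFDeriv ℝ c.length g (β t)‖ * (v * L) ^ (c.length - 1) * v := by
        conv_lhs => rw [← Nat.sub_add_cancel hk, pow_succ v, Nat.sub_add_cancel hk]
        rw [mul_pow]; ring
    _ ≤ Kf * v := mul_le_mul_of_nonneg_right h3 hv

theorem faa_bound (r : ℕ) : ∃ B : ℝ, 1 ≤ B ∧ ∀ (X : Type) [MetricSpace X] [MeasurableSpace X]
    (A : Atlas X) (G : X → X) (Kf Kr ε : ℝ), A.Sm G → A.Reg r Kr G → A.Up Kf G → ε ≤ 1 →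
      ε * Kr ≤ Kf → ∀ (c : ℝ → X) (a L : ℝ), 0 < L → A.Good r ε c a L → ∀ s : ℕ, 1 ≤ s → s ≤ r →
      ∀ t ∈ Icc a (a + L),
        ‖iteratedDeriv s (A.e ∘ G ∘ c) t‖ * L ^ (s - 1) ≤ B * Kf * ‖deriv (A.e ∘ c) t‖ := by
  refine ⟨1 + ∑ s ∈ Finset.range (r + 1), (Fintype.card (OrderedFinpartition s) : ℝ),
    le_add_of_nonneg_right (by positivity), ?_⟩
  intro X _ _ A G Kf Kr ε _ hR hU hε hK c a L hL hc s hs1 hs t ht
  have hd : dist (c t) (c t) < A.ρ := by rw [dist_self]; exact A.ρ_pos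
  have hm := Atlas.φ_mem (A.mem_D (c t)) hd
  have hs0 := hc.1 t ht
  have hf := hU _ _ hm
  rw [(Atlas.eventually_rep G (A.mem_D (c t)) hd hs0.continuousAt).iteratedDeriv_eq s,
    Function.comp_assoc, mul_assoc]
  refine (faa_yom1 (β := A.pr (A.idx (c t)) ∘ A.e ∘ c) hs1 hs
    ((hR _).1.contDiffAt ((A.U_open _).mem_nhds hm)) ((A.pr _).contDiff.contDiffAt.comp t hs0) hL
    (norm_nonneg _) (fun m h1 h2 => ?_) (hc.2.2 t ht) hε hf (fun k hk => (hR _).2 k hk _ hm)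
    hK).trans (mul_le_mul_of_nonneg_right ?_ (mul_nonneg ((norm_nonneg _).trans hf) (norm_nonneg _)))
  · have h3 : ‖iteratedDeriv m (A.pr (A.idx (c t)) ∘ A.e ∘ c) t‖ ≤ ‖iteratedDeriv m (A.e ∘ c) t‖ := by
      rw [← norm_iteratedFDeriv_eq_norm_iteratedDeriv, ← norm_iteratedFDeriv_eq_norm_iteratedDeriv]
      exact ((A.pr _).norm_iteratedFDeriv_comp_left hs0 (by exact_mod_cast h2)).trans
        (mul_le_of_le_one_left (norm_nonneg _) (A.pr_le _))
    refine (mul_le_mul_of_nonneg_right h3 (by positivity)).trans ?_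
    rcases h1.lt_or_eq with h | rfl
    · exact (hc.2.1 m h h2 t ht).trans (div_le_self (norm_nonneg _) (by norm_num))
    · simp
  · exact (Finset.single_le_sum (f := fun s => (Fintype.card (OrderedFinpartition s) : ℝ))
      (fun _ _ => Nat.cast_nonneg _) (Finset.mem_range.2 (Nat.lt_succ_of_le hs))).trans
      (le_add_of_nonneg_left zero_le_one)

end Pool.Agent.Lib.MP_e7c912_an
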