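import Pool.Agent.Lib.MP_e7c912_an.H60Bar

/-! The barrier lemma for ergodic components of an iterate. -/

namespace Pool.Agent.Lib.MP_e7c912_an

open MeasureTheory Filter Metric Set Topology
open scoped ENNReal

variable {X : Type} [MetricSpace X] [CompactSpace X] [MeasurableSpace X] [BorelSpace X]
  {A : Atlas X}

omit [CompactSpace X] in
theorem Gen.map_h71 {T h : X → X} {μ : Measure X} {x : X} (hx : Gen T μ x) (hh : Continuous h)
    (hc : ∀ y, h (T y) = T (h y)) : Gen T (μ.map h) (h x) := by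
  intro φ
  have h1 := hx (φ.comp ⟨h, hh⟩)
  rw [integral_map hh.measurable.aemeasurable φ.continuous.aestronglyMeasurable]
  refine h1.congr fun n => ?_
  have e : ∀ k, T^[k] (h x) = h (T^[k] x) := fun k =>
    ((show Function.Semiconj h T T from hc).iterate_right k x).symm
  simp only [birkhoffAverage, birkhoffSum, e, ContinuousMap.comp_apply, ContinuousMap.coe_mk]

theorem tendsto_mul_h71 {m : ℕ} (hm : 1 ≤ m) : Tendsto (fun k : ℕ => m * k) atTop atTop :=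
  tendsto_atTop_mono (fun k => Nat.le_mul_of_pos_left k hm) tendsto_id

theorem Gen.ae_fix_h71 {T : X → X} {μ : Measure X} [IsProbabilityMeasure μ] {z : X} {m : ℕ}
    (hm : 1 ≤ m) (h : Gen T^[m] μ z) (hT : Continuous T) {N : ℕ}
    (hd : Tendsto (fun k : ℕ => dist (T^[k] z) (T^[k + N] z)) atTop (𝓝 0)) :
    ∀ᵐ x ∂μ, T^[N] x = x := by
  let φ : C(X, ℝ) := ⟨fun x => dist x (T^[N] x), continuous_id.dist (hT.iterate N)⟩
  have h1 : Tendsto (fun n : ℕ => birkhoffAverage ℝ T^[m] φ n z) atTop (𝓝 0) := by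
    refine (hd.comp (tendsto_mul_h71 hm)).cesaro.congr fun n => ?_
    simp only [birkhoffAverage, birkhoffSum, smul_eq_mul, φ, ContinuousMap.coe_mk,
      ← Function.iterate_mul, ← Function.iterate_add_apply, add_comm N, Function.comp_apply]
  have h2 := (integral_eq_zero_iff_of_nonneg (fun x => dist_nonneg) (int_gen1 μ φ)).1
    (tendsto_nhds_unique (h φ) h1)
  filter_upwards [h2] with x hx
  exact (dist_eq_zero.1 hx).symm

theorem pull_h71 {μ μ' : Measure X} {ε : ℝ} {κ : Measure (Cv A ε)} [IsFiniteMeasure κ]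
    (hac : eta κ ≪ μ) {T : X → X} (hT : MeasurePreserving T μ μ') {p : X → Prop}
    (h : ∀ᵐ y ∂μ', p y) : ∀ᵐ w ∂κ, ∀ᵐ t ∂(volume : Measure ℝ), t ∈ Icc (0 : ℝ) 1 →
      p (T (w.pt t)) := by
  have h1 : ∀ᵐ y ∂etaOn κ (Icc 0 1), p (T y) := hac.ae_le (hT.quasiMeasurePreserving.ae h)
  filter_upwards [ae_of_etaOn h1] with w hw
  exact (ae_restrict_iff' measurableSet_Icc).1 hw

omit [CompactSpace X] [BorelSpace X] in
theorem Dif.comm_h71 (F : Dif A) (i k : ℕ) (x : X) : F.f^[i] (F.g^[k] x) = F.g^[k] (F.f^[i] x) :=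
  (show Function.Commute F.f F.g from fun y => by rw [F.fg, F.gf]).iterate_iterate i k x

theorem barrier_col (F : Dif A) {μ ν : Measure X} [IsProbabilityMeasure μ]
    [IsProbabilityMeasure ν] (hf : MeasurePreserving F.f μ μ)
    (hy : ∀ᵐ x ∂μ, 0 < l1 (A.coc F.f) x ∧ l2 (A.coc F.f) x < 0) {mm : ℕ} (hmm : 1 ≤ mm)
    (hν : Ergodic F.f^[mm] ν) (hνμ : ν ≪ μ)
    {ε K c : ℝ} (hc : 0 < c) {κ : Measure (Cv A ε)} [IsFiniteMeasure κ] (h0 : κ ≠ 0)
    (hac : eta κ ≪ ν) {j : ℕ} {T1 T2 : Set ℝ} (hT1 : T1 ⊆ Icc 0 1) (hT2 : T2 ⊆ Icc 0 1)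
    (v1 : volume T1 ≠ 0) (v2 : volume T2 ≠ 0) {K1 K2 Q O Z : Set X} (c1 : IsClosed K1)
    (c2 : IsClosed K2) (oQ : IsOpen Q) (oO : IsOpen O) (s1 : K1 ⊆ Q) (s2 : K2 ⊆ O)
    (hd : Disjoint Q O)
    (hκ : ∀ᵐ w ∂κ, UCur F.g K c w.pt ∧ (∀ t ∈ T1, F.f^[j] (w.pt t) ∈ K1) ∧
      ∀ t ∈ T2, F.f^[j] (w.pt t) ∈ K2)
    (hfr : ∀ z ∈ frontier Q, z ∈ Z ∨ ∃ N : ℕ, 1 ≤ N ∧
      Tendsto (fun k : ℕ => dist (F.f^[k] z) (F.f^[k + N] z)) atTop (𝓝 0))
    {Y : Set X} (hZ : Measure.hausdorffMeasure 1 (Z \ Y) = 0) :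
    ∃ z ∈ Y, Gen F.f^[mm] (ν.map F.f^[j]) z := by
  by_contra hne
  have hgE : Ergodic F.g^[mm] ν :=
    ergodic_inv hν (F.smg.1.iterate mm).measurable (F.gf_iter mm) (F.fg_iter mm)
  have hfj : MeasurePreserving F.f^[j] ν (ν.map F.f^[j]) := ⟨(F.smf.1.iterate j).measurable, rfl⟩
  have hpj : IsProbabilityMeasure (ν.map F.f^[j]) :=
    Measure.isProbabilityMeasure_map hfj.measurable.aemeasurable
  have hg : MeasurePreserving F.g^[mm] (ν.map F.f^[j]) (ν.map F.f^[j]) := by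
    refine ⟨hgE.measurable, ?_⟩
    rw [Measure.map_map hgE.measurable hfj.measurable,
      show F.g^[mm] ∘ F.f^[j] = F.f^[j] ∘ F.g^[mm] from funext fun x => (F.comm_h71 j mm x).symm,
      ← Measure.map_map hfj.measurable hgE.measurable, hgE.map_eq]
  have hμ0 : ν univ ≠ 0 := by simp
  have hκ0 : κ univ ≠ 0 := fun h => h0 (Measure.measure_univ_eq_zero.1 h)
  -- the box
  obtain ⟨Λ, hΛ, hae⟩ := pesin F μ hf hc
  obtain ⟨l, hl⟩ := exists_nat_bar (p := fun l x => x ∈ Λ l ∧ Gen F.f^[mm] ν x) hμ0 (by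
    filter_upwards [hνμ.ae_le hae, hνμ.ae_le hy, ae_gen hν] with x a b e _
    obtain ⟨l, hl⟩ := a b.1 b.2
    exact ⟨l, hl, e⟩)
  obtain ⟨hm, ρ, K0, c0, ε0, hρ, hK0, hc0, hc0c, hε0, hB⟩ := hΛ l
  obtain ⟨x0, hx0, hpos⟩ := exists_ball_pos hl (γ := ρ / (10 * K0)) (by positivity)
  obtain ⟨B⟩ := hB x0 hx0.2.1
  set L1 : Set X := {y | y ∈ univ ∧ y ∈ Λ l ∧ Gen F.f^[mm] ν y} ∩ closedBall x0 (ρ / (10 * K0))
    with hL1
  have mL : MeasurableSet L1 :=
    (MeasurableSet.univ.inter (hm.inter (measurableSet_gen hν.measurable))).inter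
      measurableSet_closedBall
  have inL : ∀ y ∈ L1, In (Λ l) x0 ρ K0 y := fun y h => ⟨h.1.2.1, h.2⟩
  have genL : ∀ y ∈ L1, Gen F.f^[mm] ν y := fun y h => h.1.2.2
  clear_value L1
  -- the time `k`
  obtain ⟨J, hJ⟩ := eventually_atTop.1 (small_bar K hc hε0)
  obtain ⟨k', hk⟩ := exists_nat_bar (p := fun k (w : Cv A ε) => (UCur F.g K c w.pt ∧
      (∀ t ∈ T1, F.f^[j] (w.pt t) ∈ K1) ∧ ∀ t ∈ T2, F.f^[j] (w.pt t) ∈ K2) ∧
      volume {t | t ∈ T1 ∧ J ≤ mm * k ∧ F.g^[mm * k] (w.pt t) ∈ L1} ≠ 0) hκ0 (by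
    filter_upwards [hκ, pull_h71 hac (MeasurePreserving.id ν) (ergodic_freq hgE mL hpos)]
      with w a b _
    obtain ⟨k, hk⟩ := exists_nat_bar
      (p := fun k t => J ≤ mm * k ∧ F.g^[mm * k] (w.pt t) ∈ L1) v1 (by
      filter_upwards [b] with t ht h1
      obtain ⟨k, hk1, hk2⟩ := frequently_atTop.1 (ht (hT1 h1)) J
      exact ⟨k, hk1.trans (Nat.le_mul_of_pos_left k hmm), by
        rw [Function.iterate_mul]; exact hk2⟩)
    exact ⟨k, a, hk⟩)
  obtain ⟨k, hkk⟩ : ∃ k, k = mm * k' := ⟨_, rfl⟩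
  rw [← hkk] at hk
  -- recurrence
  have hrec := Measure.ae_ae_of_ae_prod ((hg.prod hg).conservative.ae_mem_imp_frequently_image_mem
    (c1.measurableSet.prod c2.measurableSet).nullMeasurableSet)
  obtain ⟨w, ⟨-, ⟨wu, w1, -⟩, wv⟩, hw⟩ := exists_of_ae_bar hk (pull_h71 hac hfj hrec)
  obtain ⟨t, ⟨t1, kJ, tL⟩, ht⟩ := exists_of_ae_bar wv hw
  obtain ⟨w', ⟨-, ⟨wu', -, w2⟩, wv'⟩, hw'⟩ :=
    exists_of_ae_bar hk (pull_h71 hac hfj (ht (hT1 t1)))
  obtain ⟨t', t2, ht'⟩ := exists_of_ae_bar v2 hw'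
  obtain ⟨t'', t1', -, tL'⟩ := nonempty_of_measure_ne_zero wv'
  have hfreq := ht' (hT2 t2) ⟨w1 t t1, w2 t' t2⟩
  have hK : 0 ≤ K := wu.nonneg_bar
  -- the return time
  obtain ⟨δ1, hδ1, th1⟩ := c1.isCompact.exists_thickening_subset_open oQ s1
  obtain ⟨δ2, hδ2, th2⟩ := c2.isCompact.exists_thickening_subset_open oO s2
  have ev : ∀ᶠ N : ℕ in atTop, K * Real.exp (-c * (N + k : ℕ)) < δ1 ∧
      K * Real.exp (-c * (N + k : ℕ)) < δ2 / 2 ∧ K0 * ρ * Real.exp (-c0 * N) < δ2 / 2 :=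
    ((tendsto_add_atTop_nat k).eventually (small_bar K hc hδ1)).and
      (((tendsto_add_atTop_nat k).eventually (small_bar K hc (half_pos hδ2))).and
        (small_bar (K0 * ρ) hc0 (half_pos hδ2)))
  obtain ⟨N0, hN0⟩ := eventually_atTop.1 ev
  obtain ⟨n, hn0, hN⟩ := frequently_atTop.1 hfreq (N0 + (k + j) + k')
  have hn1 : n ≤ mm * n := Nat.le_mul_of_pos_left n hmm
  obtain ⟨N, hNe⟩ : ∃ N, mm * n = N + (k + j) := ⟨mm * n - (k + j), by omega⟩
  obtain ⟨e1, e2, e3⟩ := hN0 N (by omega)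
  have hNj : mm * (n - k') = j + N := by
    rw [Nat.mul_sub, ← hkk]
    omega
  have back : ∀ z, (F.g^[mm])^[n] (F.f^[j] z) = F.g^[N + k] z := fun z => by
    rw [← Function.iterate_mul, hNe, ← add_assoc, Function.iterate_add_apply, F.gf_iter]
  rw [Prod.map_iterate, Prod.map_apply, back, back] at hN
  obtain ⟨n1, n2⟩ := hN
  -- the horizontal set
  obtain ⟨Lk, -, hLk⟩ := (F.smf.iter k).lip
  obtain ⟨LN, -, hLN⟩ := (F.smf.iter N).lip
  refine wv (null_of_hausdorff_image (σ := fun s => F.g^[k] (w.pt s)) (D := Icc 0 1)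
    (K := K * Lk) (fun s hs => hT1 hs.1) (fun s hs s' hs' => ?_) ?_)
  · have h1 := hLk.dist_le_mul (F.g^[k] (w.pt s)) (F.g^[k] (w.pt s'))
    rw [F.fg_iter, F.fg_iter] at h1
    rw [mul_assoc]
    exact (wu s hs s' hs').1.trans (mul_le_mul_of_nonneg_left h1 hK)
  have hx := inL _ tL
  have hx' := inL _ tL'
  have fst_mem : ∀ y, In (Λ l) x0 ρ K0 y → |(B.Φ y).1| ≤ ρ / 10 := fun y h =>
    (norm_fst_le (B.Φ y)).trans (B.in_norm h).1
  have leaf : ∀ s ∈ T1, F.g^[k] (w.pt s) ∈ L1 → (B.Φ (F.g^[k] (w.pt s))).2 =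
      B.wu (F.g^[k] (w.pt t)) (B.Φ (F.g^[k] (w.pt s))).1 := fun s hs sL => by
    refine B.wu_char _ hx _ (fun m => ?_) ((fst_mem _ (inL _ sL)).trans (by linarith))
    rw [← Function.iterate_add_apply, ← Function.iterate_add_apply]
    refine (wu.le_bar (hT1 hs) (hT1 t1) hK _).trans ?_
    have a1 : Real.exp (-c * (m + k : ℕ)) = Real.exp (-c * k) * Real.exp (-c * m) := by
      rw [← Real.exp_add]
      congr 1
      push_cast
      ring
    have a2 : Real.exp (-c * m) ≤ Real.exp (-c0 * m) :=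
      Real.exp_le_exp.2 (mul_le_mul_of_nonneg_right (neg_le_neg hc0c) (Nat.cast_nonneg m))
    rw [a1, ← mul_assoc]
    exact mul_le_mul (hJ k kJ).le a2 (Real.exp_pos _).le hε0.le
  refine B.transfer (Z := F.f^[N] '' (Z \ Y)) ?_ ?_ ?_ (hausdorff_lip_null hLN hZ)
  · rintro _ ⟨s, hs, rfl⟩
    exact inL _ hs.2.2
  · rintro _ ⟨s, hs, rfl⟩ _ ⟨s', hs', rfl⟩
    rw [leaf s hs.1 hs.2.2, leaf s' hs'.1 hs'.2.2]
    have a1 := abs_le.1 (fst_mem _ (inL _ hs.2.2))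
    have a2 := abs_le.1 (fst_mem _ (inL _ hs'.2.2))
    exact B.wu_lip _ hx _ ⟨by linarith [a1.1], by linarith [a1.2]⟩ _
      ⟨by linarith [a2.1], by linarith [a2.2]⟩
  · rintro _ ⟨s, ⟨s1', -, sL⟩, rfl⟩
    have hy0 := inL _ sL
    have inQ : F.g^[N] (F.g^[k] (w.pt s)) ∈ Q := by
      refine th1 (mem_thickening_iff.2 ⟨_, n1, ?_⟩)
      rw [← Function.iterate_add_apply]
      exact (wu.le_bar (hT1 s1') (hT1 t1) hK _).trans_lt e1
    obtain ⟨u, r, hu, hr, eu, er⟩ := B.inter hx' hy0 le_rfl (B.in_norm hx').1 (B.in_norm hy0).1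
    have hu' := abs_le.1 hu
    have hr' := abs_le.1 hr
    have inO : F.g^[N] (B.Ψ (B.ws (F.g^[k] (w.pt s)) r, r)) ∈ O := by
      refine th2 (mem_thickening_iff.2 ⟨_, n2, ?_⟩)
      have d1 := B.dist_wu_le hx' (u := u) ⟨by linarith [hu'.1], by linarith [hu'.2]⟩ N
      have d2 := wu'.le_bar (hT1 t1') (hT2 t2) hK (N + k)
      rw [← er, ← Function.iterate_add_apply] at d1
      have d3 : |u - (B.Φ (F.g^[k] (w'.pt t''))).1| ≤ ρ := by
        have a1 := abs_le.1 (fst_mem _ hx')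
        rw [abs_le]
        constructor <;> linarith [a1.1, a1.2, hu'.1, hu'.2]
      have d4 : K0 * Real.exp (-c0 * N) * |u - (B.Φ (F.g^[k] (w'.pt t''))).1| ≤
          K0 * ρ * Real.exp (-c0 * N) := by
        rw [mul_right_comm K0 ρ]
        exact mul_le_mul_of_nonneg_left d3 (by positivity)
      rw [← eu]
      refine (dist_triangle _ (F.g^[N + k] (w'.pt t'')) _).trans_lt ?_
      linarith
    obtain ⟨r', hr'', hfrn⟩ := cross_bar B hy0 (F.smg.1.iterate N) oQ inQ (s := r)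
      ⟨by linarith [hr'.1], by linarith [hr'.2]⟩ fun h => disjoint_left.1 hd h inO
    have g1 : Gen F.f^[mm] (ν.map F.f^[j])
        (F.g^[N] (B.Ψ (B.ws (F.g^[k] (w.pt s)) r', r'))) := by
      rw [← gen_iterate (n - k'), ← Function.iterate_mul, hNj, Function.iterate_add_apply,
        F.fg_iter]
      refine Gen.map_h71 ((genL _ sL).congr ?_) (F.smf.1.iterate j) fun y => by
        rw [← Function.iterate_add_apply, add_comm, Function.iterate_add_apply]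
      simp only [← Function.iterate_mul]
      exact (B.tendsto_ws hy0 hr'').comp (tendsto_mul_h71 hmm)
    refine ⟨r', hr'', _, ⟨?_, fun g2 => hne ⟨_, g2, g1⟩⟩, F.fg_iter N _⟩
    rcases hfr _ hfrn with h | ⟨M, hM, h⟩
    · exact h
    · refine absurd ?_ (not_ae_fix hc h0 (hκ.mono fun _ h => h.1) hac hM)
      filter_upwards [hfj.quasiMeasurePreserving.ae (g1.ae_fix_h71 hmm F.smf.1 h)] with x hx
      rw [← Function.iterate_add_apply, add_comm, Function.iterate_add_apply] at hx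
      exact (Function.LeftInverse.injective (F.gf_iter j)) hx

end Pool.Agent.Lib.MP_e7c912_an
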