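import Pool.Agent.Lib.MP_e7c912_an.H60Cfg

/-! Configurations with a prescribed gap between the two times. -/

namespace Pool.Agent.Lib.MP_e7c912_an

open MeasureTheory Filter Metric Set Topology

variable {X : Type} [MetricSpace X] [CompactSpace X] [MeasurableSpace X] [BorelSpace X]
  {A : Atlas X}

/-- Sets met by the family at some time are met again after a delay with property `R`. -/
def Ret (F : Dif A) {ε : ℝ} (κ : Measure (Cv A ε)) (R : ℕ → Prop) : Prop :=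
  ∀ (j : ℕ) (B : Set X), MeasurableSet B →
    etaOn κ (Icc (1 / 3 : ℝ) (1 - 1 / 3)) (F.f^[j] ⁻¹' B) ≠ 0 →
    ∃ d, R d ∧ etaOn κ (Icc (1 / 3 : ℝ) (1 - 1 / 3)) (F.f^[j + d] ⁻¹' B) ≠ 0

omit [CompactSpace X] [BorelSpace X] [MetricSpace X] in
theorem exists_time_h71 {η : Measure X} (h0 : η univ ≠ 0) {T : ℕ → X → X} {B : Set X}
    {R : ℕ → Prop} (h : ∀ᵐ x ∂η, ∃ d, R d ∧ T d x ∈ B) : ∃ d, R d ∧ η (T d ⁻¹' B) ≠ 0 := by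
  by_contra hn
  push Not at hn
  refine h0 (measure_mono_null (fun x _ => ?_)
    (measure_union_null (measure_iUnion_null fun d => measure_iUnion_null (hn d))
      (mem_ae_iff.1 h)))
  by_cases hx : ∃ d, R d ∧ T d x ∈ B
  · obtain ⟨d, h1, h2⟩ := hx
    exact Or.inl (mem_iUnion₂.2 ⟨d, h1, h2⟩)
  · exact Or.inr hx

theorem exists_set_h71 {R : ℕ → Prop} (F : Dif A) {ξ : Measure X} [IsProbabilityMeasure ξ]
    (hξ : Ergodic F.f ξ) {ε : ℝ} {E : Set (Cv A ε)} (cE : IsClosed E)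
    {κ : Measure (Cv A ε)} [IsFiniteMeasure κ] (h0 : κ ≠ 0)
    (hE : ∀ᵐ w ∂κ, w ∈ E) (ac : eta κ ≪ ξ) (hR : Ret F κ R)
    {Λ : Set X} (hΛ : MeasurableSet Λ) (hΛ0 : ξ Λ ≠ 0) : ∃ (j j' : ℕ) (S : Set X),
      (∃ d, R d ∧ j = j' + d) ∧ MeasurableSet S ∧
      (etaOn κ (Icc (1 / 3 : ℝ) (1 - 1 / 3))).map F.f^[j] S ≠ 0 ∧
      ∀ x ∈ S, x ∈ Λ ∧ Rec F.f Λ x ∧ x ∈ F.f^[j] '' MidCfg E ∧ x ∈ F.f^[j'] '' MidCfg E := by
  have hm := hξ.toMeasurePreserving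
  have hf : ∀ j : ℕ, Continuous F.f^[j] := fun j => F.smf.1.iterate j
  have hr := ae_rec hm hΛ
  rw [ae_iff] at hr
  set N := toMeasurable ξ {x | ¬ (x ∈ Λ → Rec F.f Λ x)} with hN
  have hN0 : ξ N = 0 := by rw [hN, measure_toMeasurable, hr]
  have hL : MeasurableSet (Λ \ N) := hΛ.diff (measurableSet_toMeasurable _ _)
  have hL0 : ξ (Λ \ N) ≠ 0 := by rwa [measure_sdiff_null hN0]
  have cut : ∀ (j : ℕ) (B : Set X), etaOn κ (Icc (1 / 3 : ℝ) (1 - 1 / 3)) (F.f^[j] ⁻¹' B) ≠ 0 →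
      etaOn κ (Icc (1 / 3 : ℝ) (1 - 1 / 3)) (F.f^[j] ⁻¹' (B ∩ F.f^[j] '' MidCfg E)) ≠ 0 := by
    intro j B hj h
    refine hj (measure_mono_null (fun x hx => ?_) (measure_union_null h (eta_mid_cfg cE hE)))
    by_cases hx' : x ∈ MidCfg E
    · exact Or.inl ⟨hx, x, hx', rfl⟩
    · exact Or.inr hx'
  obtain ⟨j', -, hj'⟩ := exists_time_h71 (eta_ne_cfg h0) (T := fun d => F.f^[d]) (B := Λ \ N)
    (R := fun _ => True) (by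
      filter_upwards [(eta_ac_cfg ac).ae_le (ergodic_freq hξ hL hL0)] with x hx
      obtain ⟨d, hd⟩ := hx.exists
      exact ⟨d, trivial, hd⟩)
  have hB' : MeasurableSet ((Λ \ N) ∩ F.f^[j'] '' MidCfg E) :=
    hL.inter ((isCompact_mid_cfg cE).image (hf j')).measurableSet
  obtain ⟨d, hd, hj⟩ := hR j' _ hB' (cut j' _ hj')
  have hS : MeasurableSet (((Λ \ N) ∩ F.f^[j'] '' MidCfg E) ∩ F.f^[j' + d] '' MidCfg E) :=
    hB'.inter ((isCompact_mid_cfg cE).image (hf _)).measurableSet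
  refine ⟨j' + d, j', _, ⟨d, hd, rfl⟩, hS, ?_, fun x hx => ⟨hx.1.1.1, ?_, hx.2, hx.1.2⟩⟩
  · rw [Measure.map_apply (hf _).measurable hS]
    exact cut _ _ hj
  · by_contra h
    exact hx.1.1.2 (subset_toMeasurable _ _ fun h' => h (h' hx.1.1.1))

theorem exists_cfg_h71 {R : ℕ → Prop} (F : Dif A) {ξ : Measure X} [IsProbabilityMeasure ξ]
    (hξ : Ergodic F.f ξ)
    (hy : ∀ᵐ x ∂ξ, 0 < l1 (A.coc F.f) x ∧ l2 (A.coc F.f) x < 0) {ε K' c' : ℝ} (hc : 0 < c')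
    {E : Set (Cv A ε)} (cE : IsClosed E) (uE : ∀ w ∈ E, UCur F.g K' c' w.pt)
    {κ : Measure (Cv A ε)} [IsFiniteMeasure κ] (h0 : κ ≠ 0)
    (hE : ∀ᵐ w ∂κ, w ∈ E) (ac : eta κ ≪ ξ) (hR : Ret F κ R) :
    ∃ (Λ : Set X) (x0 : X) (ρ K c ε0 : ℝ) (B : Box F Λ x0 ρ K c ε0) (τ : ℝ) (j j' : ℕ)
      (w1 w2 w3 : Cv A ε) (h1 h3 : ℝ → ℝ) (p p' y : X), (∃ d, R d ∧ j = j' + d) ∧
      w1 ∈ E ∧ w2 ∈ E ∧ w3 ∈ E ∧
      Cfg B τ (F.f^[j'] ∘ w1.pt) (F.f^[j] ∘ w2.pt) (F.f^[j'] ∘ w3.pt) h1 h3 p p' y := by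
  have hm := hξ.toMeasurePreserving
  have ha : ∀ x, ξ {x} = 0 := fun x => by
    by_contra h
    obtain ⟨N, hN, hfix⟩ := ae_fix_of_atom hξ h
    exact not_ae_fix hc h0 (hE.mono uE) ac hN hfix
  obtain ⟨Λs, hΛs, hae⟩ := pesin F ξ hm hc
  obtain ⟨l, hl⟩ : ∃ l, ξ (Λs l) ≠ 0 := by
    by_contra h
    push Not at h
    have h1 : ∀ᵐ x ∂ξ, x ∉ ⋃ l, Λs l := measure_eq_zero_iff_ae_notMem.1 (measure_iUnion_null h)
    obtain ⟨x, hx1, hx2, hx3⟩ := (h1.and (hae.and hy)).exists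
    exact hx1 (mem_iUnion.2 (hx2 hx3.1 hx3.2))
  obtain ⟨hΛ, ρ, K, c, ε0, hρ, hK, -, hcc, hε0, hbox⟩ := hΛs l
  generalize Λs l = Λ at hl hΛ hbox
  obtain ⟨j, j', S, hjj, hS, hS0, hSp⟩ := exists_set_h71 F hξ cE h0 hE ac hR hΛ hl
  obtain ⟨K1, hK1, hU1⟩ := UCur.iter (F := F) K' c' j hc.le
  obtain ⟨K2, -, hU2⟩ := UCur.iter (F := F) K' c' j' hc.le
  obtain ⟨β1, c1, hβ1, hβ1', hc1, harc⟩ := ucur_box A (c := c) hρ hK hε0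
    (lt_max_of_lt_left hK1 : 0 < max K1 K2) (by norm_num : (0 : ℝ) < 1 / 3)
  have hK0 : 0 < K := by linarith
  obtain ⟨τ, hτ0, hτ1, hτ2, hτ3⟩ : ∃ τ : ℝ, 0 < τ ∧ τ ≤ ρ ∧ 3 * τ ≤ c1 * (β1 / 2) ∧
      4 * K * τ ≤ ε0 := by
    refine ⟨min ρ (min (c1 * (β1 / 2) / 3) (ε0 / (4 * K))), by positivity, min_le_left _ _, ?_, ?_⟩
    · linarith [min_le_right ρ (min (c1 * (β1 / 2) / 3) (ε0 / (4 * K))),
        min_le_left (c1 * (β1 / 2) / 3) (ε0 / (4 * K))]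
    · rw [← le_div_iff₀' (by positivity)]
      exact (min_le_right _ _).trans (min_le_right _ _)
  obtain ⟨x0, hx0, hB0⟩ := exists_ball_pos hS0 (γ := τ / (100 * K)) (by positivity)
  obtain ⟨B⟩ := hbox x0 (hSp x0 hx0).1
  have hscale : ∀ (y y' : X) (d : ℝ), dist y y' ≤ d / (100 * K) → ‖B.Φ y - B.Φ y'‖ ≤ d / 100 := by
    intro y y' d h
    refine (B.norm_Φ_sub_le y y').trans ((mul_le_mul_of_nonneg_left h hK0.le).trans_eq ?_)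
    field_simp
  have hin : ∀ x ∈ S ∩ closedBall x0 (τ / (100 * K)),
      In Λ x0 ρ K x ∧ Rec F.f Λ x ∧ ‖B.Φ x‖ ≤ τ / 100 := by
    intro x hx
    refine ⟨⟨(hSp x hx.1).1, (mem_closedBall.1 hx.2).trans ?_⟩, (hSp x hx.1).2.1, ?_⟩
    · rw [div_le_div_iff₀ (by positivity) (by positivity)]
      nlinarith
    · have := hscale x x0 τ hx.2
      rwa [B.Φ_self, sub_zero] at this
  have arc : ∀ w ∈ E, ∀ t ∈ Icc (1 / 3 : ℝ) (1 - 1 / 3), In Λ x0 ρ K ((F.f^[j] ∘ w.pt) t) →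
      ArcCfg B (β1 / 2) c1 (F.f^[j] ∘ w.pt) t := fun w hw t ht hx =>
    harc F Λ x0 B c' _ t _ hcc ((hU1 _ (uE w hw)).mono_cfg (le_max_left _ _)) ht hx
      (by linarith) (by linarith)
  have arc' : ∀ w ∈ E, ∀ t ∈ Icc (1 / 3 : ℝ) (1 - 1 / 3), In Λ x0 ρ K ((F.f^[j'] ∘ w.pt) t) →
      ArcCfg B (β1 / 2) c1 (F.f^[j'] ∘ w.pt) t := fun w hw t ht hx =>
    harc F Λ x0 B c' _ t _ hcc ((hU2 _ (uE w hw)).mono_cfg (le_max_right _ _)) ht hx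
      (by linarith) (by linarith)
  have hfj : Measurable F.f^[j] := (F.smf.1.iterate j).measurable
  have hacj : (etaOn κ (Icc (1 / 3 : ℝ) (1 - 1 / 3))).map F.f^[j] ≪ ξ := by
    have := (eta_ac_cfg ac).map hfj
    rwa [(hm.iterate j).map_eq] at this
  obtain ⟨S', hS', hsub, hnull, hsupp⟩ := exists_supp ξ
    (hS.inter (measurableSet_closedBall (x := x0) (ε := τ / (100 * K))))
  have hS0' : etaOn κ (Icc (1 / 3 : ℝ) (1 - 1 / 3)) (F.f^[j] ⁻¹' S') ≠ 0 := by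
    rw [← Measure.map_apply hfj hS']
    exact fun h => hB0 (measure_mono_null (subset_sdiff_union _ S')
      (measure_union_null (hacj hnull) h))
  obtain ⟨w, hw, hw0⟩ : ∃ w ∈ E,
      volume (w.pt ⁻¹' (F.f^[j] ⁻¹' S') ∩ Icc (1 / 3 : ℝ) (1 - 1 / 3)) ≠ 0 := by
    by_contra h
    push Not at h
    exact hS0' ((etaOn_eq_zero_iff (hfj hS')).2 (hE.mono h))
  obtain ⟨t0, ht0, ht0'⟩ := exists_real_pos hw0 (γ := β1 / 2) (by linarith)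
  obtain ⟨t1, ht1, hne⟩ : ∃ t1 ∈ (w.pt ⁻¹' (F.f^[j] ⁻¹' S') ∩ Icc (1 / 3 : ℝ) (1 - 1 / 3)) ∩
      Icc (t0 - β1 / 2) (t0 + β1 / 2), t1 ≠ t0 := by
    by_contra h
    push Not at h
    exact ht0' (measure_mono_null (fun t ht => h t ht) (Real.volume_singleton (a := t0)))
  have hx : In Λ x0 ρ K ((F.f^[j] ∘ w.pt) t0) := (hin _ (hsub ht0.1)).1
  obtain ⟨p, hp, p', hp', hlt, hs⟩ := pair_cfg (arc w hw t0 ht0.2 hx) (by linarith) hc1 hx ht1.2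
    hne (S := S') ht0.1 ht1.1.1
  have hpi := hin p (hsub hp)
  have hpi' := hin p' (hsub hp')
  have hu : |((B.Φ p).1 + (B.Φ p').1) / 2| ≤ τ := by
    have a1 : |(B.Φ p).1| ≤ τ / 100 := (norm_fst_le (B.Φ p)).trans hpi.2.2
    have a2 : |(B.Φ p').1| ≤ τ / 100 := (norm_fst_le (B.Φ p')).trans hpi'.2.2
    rw [abs_le] at a1 a2 ⊢
    constructor <;> linarith [a1.1, a1.2, a2.1, a2.2]
  obtain ⟨x1, hx1, x2, hx2, x3, hx3, h12, h23⟩ := three_cfg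
    (hsupp p hp (((B.Φ p').1 - (B.Φ p).1) / (100 * K)) (div_pos (by linarith) (by positivity)))
    (fun x => B.wu x (((B.Φ p).1 + (B.Φ p').1) / 2)) (by
      intro x hx
      refine measure_mono_null (fun z hz => ?_) (B.leaf_null hm ha (hin x hx.1).1)
      obtain ⟨iz, -, nz⟩ := hin z hz.1.1
      obtain ⟨ix, -, nx⟩ := hin x hx.1
      have a1 : |(B.Φ z).1| ≤ τ / 100 := (norm_fst_le (B.Φ z)).trans nz
      have a2 : |(B.Φ x).1| ≤ τ / 100 := (norm_fst_le (B.Φ x)).trans nx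
      refine ⟨(B.in_norm iz).2, by linarith, ?_⟩
      rw [← B.wu_eq iz ix hτ1 hτ3 (by linarith) (by linarith) hu hz.2 _ (by linarith)]
      exact (B.wu_self z iz).symm)
  obtain ⟨_, ⟨⟨w1, t1⟩, ⟨hw1, ht1⟩, rfl⟩, rfl⟩ := (hSp x1 hx1.1.1).2.2.2
  obtain ⟨_, ⟨⟨w2, t2⟩, ⟨hw2, ht2⟩, rfl⟩, rfl⟩ := (hSp x2 hx2.1.1).2.2.1
  obtain ⟨_, ⟨⟨w3, t3⟩, ⟨hw3, ht3⟩, rfl⟩, rfl⟩ := (hSp x3 hx3.1.1).2.2.2
  obtain ⟨i1, -, n1⟩ := hin _ hx1.1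
  obtain ⟨i2, -, n2⟩ := hin _ hx2.1
  obtain ⟨i3, -, n3⟩ := hin _ hx3.1
  obtain ⟨y, hy⟩ := geo_cfg (arc' w1 hw1 t1 ht1 i1) (arc w2 hw2 t2 ht2 i2) (arc' w3 hw3 t3 ht3 i3)
    (by linarith) ht1 ht2 ht3 hc1 hτ0 hτ1 hτ2 i1 i2 i3 n1 n2 n3 hpi hpi' hlt hs
    (hscale _ p _ hx2.2) h12 h23
  exact ⟨Λ, x0, ρ, K, c, ε0, B, τ, j, j', w1, w2, w3, _, _, p, p', y, hjj, hw1, hw2, hw3, hy⟩

end Pool.Agent.Lib.MP_e7c912_an
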