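import Pool.Agent.Lib.MP_e7c912_an.H71Ev

/-! Ergodic components of an iterate and colours of curves. -/

namespace Pool.Agent.Lib.MP_e7c912_an

open MeasureTheory Filter Metric Set Topology
open scoped ENNReal

section Meas

variable {X : Type} [MeasurableSpace X] {T : X → X} {μ ν : Measure X} {m : ℕ}

/-- `ν` is an ergodic component of `μ` for the `m`-th iterate. -/
structure Comp (T : X → X) (μ : Measure X) (m : ℕ) (ν : Measure X) : Prop where
  pμ : IsProbabilityMeasure μ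
  eμ : Ergodic T μ
  one_le : 1 ≤ m
  pν : IsProbabilityMeasure ν
  eν : Ergodic T^[m] ν
  ac : ν ≪ μ

theorem exists_comp [IsProbabilityMeasure μ] (hT : Ergodic T μ) (hm : 1 ≤ m) :
    ∃ ν, Comp T μ m ν := by
  have low : ∀ Y, MeasurableSet Y → T^[m] ⁻¹' Y = Y → μ Y ≠ 0 → 1 ≤ m * μ Y := by
    intro Y hY hi h0
    have h1 : μ (⋃ i ∈ Finset.range m, T^[i] ⁻¹' Y)ᶜ = 0 := by
      rw [measure_eq_zero_iff_ae_notMem]
      filter_upwards [ergodic_freq hT hY h0] with x hx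
      obtain ⟨n, hn⟩ := hx.exists
      have h2 : ∀ k y, (T^[m])^[k] y ∈ Y ↔ y ∈ Y := fun k y => by
        have := Function.IsFixedPt.preimage_iterate (f := T^[m]) (s := Y) hi k
        rw [← mem_preimage, this.eq]
      rw [← Nat.div_add_mod n m, Function.iterate_add_apply, Function.iterate_mul, h2] at hn
      exact fun h => h (mem_biUnion (Finset.mem_range.2 (Nat.mod_lt n hm)) hn)
    calc (1 : ℝ≥0∞) = μ univ := measure_univ.symm
      _ ≤ μ (⋃ i ∈ Finset.range m, T^[i] ⁻¹' Y) + μ (⋃ i ∈ Finset.range m, T^[i] ⁻¹' Y)ᶜ := by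
          rw [← union_compl_self (⋃ i ∈ Finset.range m, T^[i] ⁻¹' Y)]
          simpa using measure_union_le _ _
      _ ≤ ∑ i ∈ Finset.range m, μ (T^[i] ⁻¹' Y) := by
          rw [h1, add_zero]
          exact measure_biUnion_finset_le _ _
      _ = m * μ Y := by
          simp [(hT.toMeasurePreserving.iterate _).measure_preimage hY.nullMeasurableSet]
  set a := ⨅ (Y : Set X) (_ : MeasurableSet Y ∧ T^[m] ⁻¹' Y = Y ∧ μ Y ≠ 0), μ Y with ha
  have hle : ∀ Y, MeasurableSet Y → T^[m] ⁻¹' Y = Y → μ Y ≠ 0 → a ≤ μ Y := fun Y h1 h2 h3 =>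
    iInf₂_le Y ⟨h1, h2, h3⟩
  have ha0 : a ≠ 0 := by
    have : (m : ℝ≥0∞)⁻¹ ≤ a := le_iInf₂ fun Y hY => by
      rw [ENNReal.inv_le_iff_le_mul (fun _ => by exact_mod_cast (by omega : m ≠ 0))
        (fun h => absurd h (ENNReal.natCast_ne_top m))]
      exact low Y hY.1 hY.2.1 hY.2.2
    exact fun h => by simp [h] at this
  have hat : a ≠ ⊤ := ne_top_of_le_ne_top (measure_ne_top μ univ)
    (hle univ MeasurableSet.univ preimage_univ (by simp))
  obtain ⟨Y, hY⟩ := iInf_lt_iff.1 (ENNReal.lt_add_right hat ha0)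
  obtain ⟨⟨h1, h2, h3⟩, h4⟩ := iInf_lt_iff.1 hY
  refine ⟨(μ Y)⁻¹ • μ.restrict Y, inferInstance, hT, hm,
    ⟨by simp [ENNReal.inv_mul_cancel h3 (measure_ne_top μ Y)]⟩, ?_,
    Measure.smul_absolutelyContinuous.trans Measure.absolutelyContinuous_restrict⟩
  refine Ergodic.smul_measure ⟨measurePreserving_restrict (hT.toMeasurePreserving.iterate m) h1 h2,
    ⟨fun B hB hBi => ?_⟩⟩ _
  rw [eventuallyConst_set]
  by_contra hc
  rw [not_or] at hc
  have e1 : μ (Bᶜ ∩ Y) ≠ 0 := fun h => hc.1 (by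
    rw [← Measure.restrict_apply hB.compl] at h
    exact h)
  have e2 : μ (B ∩ Y) ≠ 0 := fun h => hc.2 (by
    rw [← Measure.restrict_apply hB] at h
    exact measure_eq_zero_iff_ae_notMem.1 h)
  have f1 := hle _ (hB.compl.inter h1) (by rw [preimage_inter, preimage_compl, hBi, h2]) e1
  have f2 := hle _ (hB.inter h1) (by rw [preimage_inter, hBi, h2]) e2
  have f3 := measure_inter_add_sdiff (μ := μ) Y hB
  rw [inter_comm, sdiff_eq, inter_comm Y] at f3
  exact absurd h4 (not_lt.2 (f3 ▸ add_le_add f2 f1))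

theorem map_iter_add (hT : Measurable T) (ν : Measure X) (i j : ℕ) :
    (ν.map T^[i]).map T^[j] = ν.map T^[i + j] := by
  rw [Measure.map_map (hT.iterate j) (hT.iterate i), add_comm, Function.iterate_add]

theorem Comp.map (h : Comp T μ m ν) (i : ℕ) : Comp T μ m (ν.map T^[i]) := by
  have hm := h.eμ.measurable
  have := h.pν
  refine ⟨h.pμ, h.eμ, h.one_le, Measure.isProbabilityMeasure_map (hm.iterate i).aemeasurable,
    (⟨hm.iterate i, rfl⟩ : MeasurePreserving T^[i] ν (ν.map T^[i])).ergodic_of_ergodic_semiconj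
      h.eν (hm.iterate m) fun x => ?_, ?_⟩
  · rw [← Function.iterate_add_apply, add_comm, Function.iterate_add_apply]
  · have := h.ac.map (hm.iterate i)
    rwa [(h.eμ.toMeasurePreserving.iterate i).map_eq] at this

theorem Comp.ac_sum (h : Comp T μ m ν) : μ ≪ Measure.sum fun i : ℕ => ν.map T^[i] := by
  have := h.pν
  have := h.pμ
  refine Measure.AbsolutelyContinuous.mk fun N hN h0 => ?_
  rw [Measure.sum_apply_eq_zero] at h0
  by_contra hne
  have h1 : ∀ᵐ x ∂ν, ∀ i : ℕ, x ∉ T^[i] ⁻¹' N := ae_all_iff.2 fun i =>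
    measure_eq_zero_iff_ae_notMem.1 (by
      rw [← Measure.map_apply (h.eμ.measurable.iterate i) hN]; exact h0 i)
  obtain ⟨x, h2, h3⟩ := (h1.and (h.ac.ae_le (ergodic_freq h.eμ hN hne))).exists
  obtain ⟨i, hi⟩ := h3.exists
  exact h2 i hi

theorem Comp.ae_of (h : Comp T μ m ν) {p : X → Prop} (hp : ∀ i : ℕ, ∀ᵐ x ∂ν.map T^[i], p x) :
    ∀ᵐ x ∂μ, p x :=
  h.ac_sum.ae_le (Measure.ae_sum_iff.2 hp)

/-- The images of a component are indexed by residues. -/
theorem Comp.exists_mod (h : Comp T μ m ν) : ∃ p : ℕ, 0 < p ∧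
    ∀ i k : ℕ, ν.map T^[i] = ν.map T^[k] ↔ i ≡ k [MOD p] := by
  have hm := h.eμ.measurable
  have e : ∀ i : ℕ, (fun ρ : Measure X => ρ.map T)^[i] ν = ν.map T^[i] := by
    intro i
    induction i with
    | zero => simp
    | succ i ih =>
      rw [Function.iterate_succ_apply', ih]
      exact map_iter_add hm ν i 1
  have hp : Function.IsPeriodicPt (fun ρ : Measure X => ρ.map T) m ν := by
    rw [Function.IsPeriodicPt, Function.IsFixedPt, e]
    exact h.eν.map_eq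
  have h0 := hp.minimalPeriod_pos h.one_le
  refine ⟨_, h0, fun i k => ?_⟩
  rw [← e, ← e, ← Function.iterate_mod_minimalPeriod_eq (n := i),
    ← Function.iterate_mod_minimalPeriod_eq (n := k)]
  exact Function.iterate_eq_iterate_iff_of_lt_minimalPeriod (Nat.mod_lt _ h0) (Nat.mod_lt _ h0)

theorem Comp.inv_of_map (h : Comp T μ m ν) {D : ℕ} (hD : ν.map T^[D] = ν) {Y : Set X}
    (hY : MeasurableSet Y) (hi : T^[m] ⁻¹' Y = Y) : T^[D] ⁻¹' Y =ᵐ[μ] Y := by
  have hm := h.eμ.measurable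
  rw [eventuallyEq_set]
  refine h.ae_of fun i => ?_
  have h1 : MeasurePreserving T^[D] (ν.map T^[i]) (ν.map T^[i]) := by
    refine ⟨hm.iterate D, ?_⟩
    rw [map_iter_add hm, add_comm, ← map_iter_add hm, hD]
  rcases (h.map i).eν.toPreErgodic.ae_mem_or_ae_notMem hY hi with h2 | h2
  · filter_upwards [h2, h1.quasiMeasurePreserving.ae h2] with x a b
    exact iff_of_true b a
  · filter_upwards [h2, h1.quasiMeasurePreserving.ae h2] with x a b
    exact iff_of_false b a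

end Meas

variable {X : Type} [MetricSpace X] [CompactSpace X] [MeasurableSpace X] [BorelSpace X]
  {A : Atlas X}

theorem Comp.map_of_inv {T : X → X} {μ ν : Measure X} {m : ℕ} (h : Comp T μ m ν) {D : ℕ}
    (hD : ∀ Y, MeasurableSet Y → T^[m] ⁻¹' Y = Y → T^[D] ⁻¹' Y =ᵐ[μ] Y) : ν.map T^[D] = ν := by
  have := h.pν
  have := (h.map D).pν
  have hY : MeasurableSet {x | Gen T^[m] ν x} := measurableSet_gen h.eν.measurable
  have h1 := h.ac.ae_le (eventuallyEq_set.1 (hD _ hY (Set.ext fun x => gen_iterate 1 x)))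
  have h2 : ∀ᵐ x ∂ν.map T^[D], Gen T^[m] ν x := by
    refine (ae_map_iff (h.eμ.measurable.iterate D).aemeasurable hY).2 ?_
    filter_upwards [h1, ae_gen h.eν] with x a b
    exact a.2 b
  obtain ⟨x, a, b⟩ := (h2.and (ae_gen (h.map D).eν)).exists
  exact b.unique a

/-- Curves almost all of whose points are generic for `ρ`. -/
def ColS {ε : ℝ} (T : X → X) (ρ : Measure X) : Set (Cv A ε) :=
  {w | volume (w.pt ⁻¹' {x | Gen T ρ x}ᶜ ∩ Icc (0 : ℝ) 1) = 0}

theorem measurableSet_colS {ε : ℝ} {T : X → X} (hT : Measurable T) (ρ : Measure X)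
    [IsFiniteMeasure ρ] : MeasurableSet (ColS (A := A) (ε := ε) T ρ) := by
  have hm := (Cv.continuous_pt (A := A) (ε := ε)).measurable
    (measurableSet_gen (μ := ρ) hT).compl
  have h1 : Measurable fun w : Cv A ε => volume (w.pt ⁻¹' {x | Gen T ρ x}ᶜ ∩ Icc (0 : ℝ) 1) := by
    convert measurable_measure_prodMk_left (ν := volume.restrict (Icc (0 : ℝ) 1)) hm using 2 with w
    exact (Measure.restrict_apply (measurable_prodMk_left hm)).symm
  exact h1 (measurableSet_singleton 0)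

variable {G : Dif A} {μ ν : Measure X} {m : ℕ} {ε : ℝ} {κ : Measure (Cv A ε)}

theorem Comp.col_ae (h : Comp G.f μ m ν) [IsFiniteMeasure κ] (hac : eta κ ≪ μ) {K c : ℝ}
    (hc : 0 < c) (hu : ∀ᵐ w ∂κ, UCur G.g K c w.pt) :
    ∀ᵐ w ∂κ, ∃ i : ℕ, w ∈ ColS G.f^[m] (ν.map G.f^[i]) := by
  have h1 : ∀ᵐ x ∂μ, ∃ i : ℕ, Gen G.f^[m] (ν.map G.f^[i]) x ∧ Gen G.g^[m] (ν.map G.f^[i]) x :=
    h.ae_of fun i => by
      have := (h.map i).pν
      filter_upwards [ae_gen (h.map i).eν, ae_gen (ergodic_inv (h.map i).eν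
        (G.smg.1.iterate m).measurable (G.gf_iter m) (G.fg_iter m))] with x a b
      exact ⟨i, a, b⟩
  filter_upwards [hu, ae_of_etaOn (hac.ae_le h1)] with w wu hw
  have : IsProbabilityMeasure (volume.restrict (Icc (0 : ℝ) 1)) := ⟨by simp⟩
  obtain ⟨t0, ⟨i, -, hi⟩, ht0⟩ := (hw.and (ae_restrict_mem measurableSet_Icc)).exists
  refine ⟨i, ?_⟩
  have h2 : ∀ᵐ t ∂volume.restrict (Icc (0 : ℝ) 1), Gen G.f^[m] (ν.map G.f^[i]) (w.pt t) := by
    filter_upwards [hw, ae_restrict_mem measurableSet_Icc] with t ⟨k, a, b⟩ ht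
    have := (h.map i).pν
    have := (h.map k).pν
    have h3 : Gen G.g^[m] (ν.map G.f^[i]) (w.pt t) := by
      refine hi.congr ?_
      simp only [← Function.iterate_mul]
      refine Tendsto.comp (g := fun n : ℕ => dist (G.g^[n] (w.pt t0)) (G.g^[n] (w.pt t)))
        (squeeze_zero (fun _ => dist_nonneg) (fun n => wu.le_bar ht0 ht wu.nonneg_bar n) ?_)
        (tendsto_mul_h71 h.one_le)
      have h4 : Tendsto (fun n : ℕ => -c * (n : ℝ)) atTop atBot :=
        tendsto_natCast_atTop_atTop.const_mul_atTop_of_neg (neg_lt_zero.2 hc)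
      simpa using (Real.tendsto_exp_atBot.comp h4).const_mul K
    rwa [h3.unique b]
  rw [ae_restrict_iff' measurableSet_Icc, ae_iff] at h2
  refine measure_mono_null (fun t ht => ?_) h2
  exact fun h5 => ht.1 (h5 ht.2)

theorem Comp.exists_col (h : Comp G.f μ m ν) [IsFiniteMeasure κ] (hac : eta κ ≪ μ) {K c : ℝ}
    (hc : 0 < c) (hu : ∀ᵐ w ∂κ, UCur G.g K c w.pt) {U : Set (Cv A ε)} (h0 : κ U ≠ 0) :
    ∃ i : ℕ, κ (ColS G.f^[m] (ν.map G.f^[i]) ∩ U) ≠ 0 := by
  obtain ⟨i, hi⟩ := exists_nat_bar (p := fun i w => w ∈ ColS G.f^[m] (ν.map G.f^[i])) h0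
    ((h.col_ae hac hc hu).mono fun w hw _ => hw)
  exact ⟨i, by rw [inter_comm]; exact hi⟩

theorem Comp.col_ac (h : Comp G.f μ m ν) [IsFiniteMeasure κ] (hac : eta κ ≪ μ)
    (hcol : ∀ᵐ w ∂κ, w ∈ ColS G.f^[m] ν) : eta κ ≪ ν := by
  have := h.pν
  have hY : MeasurableSet {x | Gen G.f^[m] ν x} := measurableSet_gen h.eν.measurable
  refine Measure.AbsolutelyContinuous.mk fun N hN h0 => ?_
  have h1 : μ (N ∩ {x | Gen G.f^[m] ν x}) = 0 := by
    rw [measure_eq_zero_iff_ae_notMem]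
    refine h.ae_of fun i => ?_
    have := (h.map i).pν
    by_cases he : ν.map G.f^[i] = ν
    · rw [he]
      filter_upwards [measure_eq_zero_iff_ae_notMem.1 h0] with x a b
      exact a b.1
    · filter_upwards [ae_gen (h.map i).eν] with x a b
      exact he (a.unique b.2)
  have h2 := (etaOn_eq_zero_iff (hN.inter hY)).1 (hac h1)
  refine (etaOn_eq_zero_iff hN).2 ?_
  filter_upwards [h2, hcol] with w a b
  refine measure_mono_null (fun t ht => ?_) (measure_union_null a b)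
  by_cases hg : Gen G.f^[m] ν (w.pt t)
  · exact Or.inl ⟨⟨ht.1, hg⟩, ht.2⟩
  · exact Or.inr ⟨hg, ht.2⟩

omit [CompactSpace X] in
theorem col_haus {w : Cv A ε} (hw : w ∈ ColS G.f^[m] ν) (j : ℕ) : Measure.hausdorffMeasure 1
    ((G.f^[j] ∘ w.pt) '' Icc 0 1 \ {z | Gen G.f^[m] (ν.map G.f^[j]) z}) = 0 := by
  obtain ⟨L, -, hL⟩ := (G.smf.iter j).lip
  have h4 := hausdorff_image_null (σ := G.f^[j] ∘ w.pt) (D := univ) (K := L * (2 * ε))
    (subset_univ _) (fun s _ t _ => by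
      calc dist (G.f^[j] (w.pt s)) (G.f^[j] (w.pt t)) ≤ L * dist (w.pt s) (w.pt t) :=
            hL.dist_le_mul _ _
        _ ≤ L * (2 * ε * |s - t|) := mul_le_mul_of_nonneg_left (w.pt_lip s t) L.2
        _ = L * (2 * ε) * |s - t| := by ring) hw
  refine measure_mono_null ?_ h4
  rintro z ⟨⟨t, ht, rfl⟩, hz⟩
  refine ⟨t, ⟨fun hg => hz (Gen.map_h71 hg (G.smf.1.iterate j) fun y => ?_), ht⟩, rfl⟩
  rw [← Function.iterate_add_apply, add_comm, Function.iterate_add_apply]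

/-- The colour of the middle curve is that of the lower or of the upper curve. -/
theorem Cfg.rel {Fs : ℕ → Dif A} {F : Dif A} (hc : A.Conv1 (fun n => (Fs n).f) F.f)
    {q : Prm} (hp : 1 ≤ q.p) (hε : 0 < q.ε) (hα : 0 < q.α)
    {Λ : Set X} {x0 : X} {ρ K c ε0 : ℝ} {B : Box F Λ x0 ρ K c ε0} {τ : ℝ} {j j' : ℕ}
    {w1 w2 w3 : Cv A q.ε} {h1 h3 : ℝ → ℝ} {p p' y : X}
    (H : Cfg B τ (F.f^[j'] ∘ w1.pt) (F.f^[j] ∘ w2.pt) (F.f^[j'] ∘ w3.pt) h1 h3 p p' y) :
    ∃ δ : ℝ, 0 < δ ∧ ∀ᶠ n in atTop, ∀ (μ ν : Measure X) (m : ℕ) (κ : Measure (Cv A q.ε)),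
      Comp (Fs n).f μ m ν → IsFiniteMeasure κ →
      (∀ᵐ x ∂μ, 0 < l1 (A.coc (Fs n).f) x ∧ l2 (A.coc (Fs n).f) x < 0) → eta κ ≪ μ →
      (∀ᵐ w ∂κ, UAll (Fs n) q w) → ∀ a b1 b3 : ℕ,
      κ (ColS (Fs n).f^[m] (ν.map (Fs n).f^[a]) ∩ ball w2 δ) ≠ 0 →
      κ (ColS (Fs n).f^[m] (ν.map (Fs n).f^[b1]) ∩ ball w1 δ) ≠ 0 →
      κ (ColS (Fs n).f^[m] (ν.map (Fs n).f^[b3]) ∩ ball w3 δ) ≠ 0 →
      ν.map (Fs n).f^[a + j] = ν.map (Fs n).f^[b1 + j'] ∨
        ν.map (Fs n).f^[a + j] = ν.map (Fs n).f^[b3 + j'] := by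
  obtain ⟨δ, hδ, hev⟩ := H.eventually_col hc hp hε hα
  refine ⟨δ, hδ, hev.mono fun n hn μ ν m κ h i1 hy hac hu a b1 b3 t2 t1 t3 => ?_⟩
  have hm := (Fs n).smf.1.measurable
  obtain ⟨w1', hw1⟩ := nonempty_of_measure_ne_zero t1
  obtain ⟨w3', hw3⟩ := nonempty_of_measure_ne_zero t3
  have := (h.map a).pν
  have hS : MeasurableSet (ColS (Fs n).f^[m] (ν.map (Fs n).f^[a]) ∩ ball w2 δ) :=
    (measurableSet_colS (hm.iterate m) _).inter measurableSet_ball
  have z1 := col_haus hw1.1 j'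
  have z3 := col_haus hw3.1 j'
  rw [map_iter_add hm] at z1 z3
  obtain ⟨z, hz, hg⟩ := hn μ (ν.map (Fs n).f^[a]) m
    (κ.restrict (ColS (Fs n).f^[m] (ν.map (Fs n).f^[a]) ∩ ball w2 δ)) w1' w3'
    ({z | Gen (Fs n).f^[m] (ν.map (Fs n).f^[b1 + j']) z} ∪
      {z | Gen (Fs n).f^[m] (ν.map (Fs n).f^[b3 + j']) z}) h.pμ this inferInstance
    h.eμ.toMeasurePreserving hy h.one_le (h.map a).eν (h.map a).ac
    (fun h0 => t2 (Measure.restrict_eq_zero.1 h0))
    ((h.map a).col_ac ((Measure.absolutelyContinuous_of_le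
      (etaOn_mono Measure.restrict_le_self subset_rfl)).trans hac)
      ((ae_restrict_mem hS).mono fun w hw => hw.1))
    (by
      filter_upwards [ae_restrict_of_ae hu, ae_restrict_mem hS] with w e1 e2
      exact ⟨e1, e2.2⟩) hw1.2 hw3.2
    (measure_mono_null (sdiff_subset_sdiff_right subset_union_left) z1)
    (measure_mono_null (sdiff_subset_sdiff_right subset_union_right) z3)
  rw [map_iter_add hm] at hg
  have := (h.map (a + j)).pν
  have := (h.map (b1 + j')).pν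
  have := (h.map (b3 + j')).pν
  exact hz.imp (fun e => hg.unique e) fun e => hg.unique e

end Pool.Agent.Lib.MP_e7c912_an
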