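import Mathlib

/-! The period of an invariant measure. -/

namespace Pool.Agent.Lib.MP_e7c912_an.LY

open MeasureTheory

/-- The period of `μ` under `T`: the least `D ≥ 1` such that every measurable set invariant under
some iterate `T^[m]`, `m ≥ 1`, is invariant under `T^[D]` up to a `μ`-null set, and `0` if there is
no such `D`. -/
noncomputable def period {X : Type*} [MeasurableSpace X] (T : X → X) (μ : Measure X) : ℕ :=
  sInf {D : ℕ | 1 ≤ D ∧ ∀ m : ℕ, 1 ≤ m → ∀ Y : Set X, MeasurableSet Y → T^[m] ⁻¹' Y = Y →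
    T^[D] ⁻¹' Y =ᵐ[μ] Y}

end Pool.Agent.Lib.MP_e7c912_an.LY
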