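import Pool.Agent.Lib.MP_e7c912_an.H60Inj
import Pool.Agent.Lib.MP_e7c912_an.H71Bar

/-! The conclusion from a configuration, for ergodic components of an iterate. -/

namespace Pool.Agent.Lib.MP_e7c912_an

open MeasureTheory Filter Metric Set Topology

variable {X : Type} [MetricSpace X] [CompactSpace X] [MeasurableSpace X] [BorelSpace X]
  {A : Atlas X}

/-- The conclusion from a configuration. -/
theorem Cfg.eventually_col {Fs : ℕ → Dif A} {F : Dif A} (hc : A.Conv1 (fun n => (Fs n).f) F.f)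
    {q : Prm} (hp : 1 ≤ q.p) (hε : 0 < q.ε) (hα : 0 < q.α)
    {Λ : Set X} {x0 : X} {ρ K c ε0 : ℝ} {B : Box F Λ x0 ρ K c ε0} {τ : ℝ} {j j' : ℕ}
    {w1 w2 w3 : Cv A q.ε} {h1 h3 : ℝ → ℝ} {p p' y : X}
    (H : Cfg B τ (F.f^[j'] ∘ w1.pt) (F.f^[j] ∘ w2.pt) (F.f^[j'] ∘ w3.pt) h1 h3 p p' y) :
    ∃ δ : ℝ, 0 < δ ∧ ∀ᶠ n in atTop, ∀ (μ ν : Measure X) (mm : ℕ) (κ : Measure (Cv A q.ε))
      (w1' w3' : Cv A q.ε) (Y : Set X), IsProbabilityMeasure μ → IsProbabilityMeasure ν →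
      IsFiniteMeasure κ → MeasurePreserving (Fs n).f μ μ →
      (∀ᵐ x ∂μ, 0 < l1 (A.coc (Fs n).f) x ∧ l2 (A.coc (Fs n).f) x < 0) → 1 ≤ mm →
      Ergodic (Fs n).f^[mm] ν → ν ≪ μ → κ ≠ 0 → eta κ ≪ ν →
      (∀ᵐ w ∂κ, UAll (Fs n) q w ∧ dist w w2 < δ) → dist w1' w1 < δ → dist w3' w3 < δ →
      Measure.hausdorffMeasure 1 (((Fs n).f^[j'] ∘ w1'.pt) '' Icc 0 1 \ Y) = 0 →
      Measure.hausdorffMeasure 1 (((Fs n).f^[j'] ∘ w3'.pt) '' Icc 0 1 \ Y) = 0 →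
      ∃ z ∈ Y, Gen (Fs n).f^[mm] (ν.map (Fs n).f^[j]) z := by
  have hτ := H.τ_pos
  have hτ' := H.τ_le
  have hK := B.one_le
  obtain ⟨a1, b1, c1, cr1⟩ := H.cr1
  obtain ⟨a3, b3, c3, cr3⟩ := H.cr3
  obtain ⟨m, m0, m1, m2, m3, m4, m5, m6⟩ := exists_margin_inj (a := τ / 20) (by positivity)
    (sub_pos.2 H.near.2) (sub_pos.2 H.above) (sub_pos.2 H.below) (sub_pos.2 H.right)
    (sub_pos.2 H.left)
  obtain ⟨dl, dl0, dl1, dl2⟩ : ∃ dl : ℝ, 0 < dl ∧ K * dl ≤ m ∧ dist y x0 + dl < A.ρ := by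
    have h0 := sub_pos.2 H.near.1
    refine ⟨min (m / K) ((A.ρ - dist y x0) / 2), by positivity, ?_, ?_⟩
    · calc K * min (m / K) ((A.ρ - dist y x0) / 2) ≤ K * (m / K) :=
            mul_le_mul_of_nonneg_left (min_le_left _ _) (by linarith)
        _ = m := by field_simp
    · have := min_le_right (m / K) ((A.ρ - dist y x0) / 2)
      linarith
  have hs : ∀ n, A.Sm (Fs n).f := fun n => (Fs n).smf
  obtain ⟨δ1, δ1p, G1⟩ := Cross.graph hτ (hc.iter hs F.smf j') (fun n => (hs n).iter j')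
    (F.smf.iter j') cr1 m0
  obtain ⟨δ3, δ3p, G3⟩ := Cross.graph hτ (hc.iter hs F.smf j') (fun n => (hs n).iter j')
    (F.smf.iter j') cr3 m0
  obtain ⟨δ2, δ2p, G2⟩ := Cv.close (hc.iter hs F.smf j) (fun n => (hs n).iter j)
    (F.smf.iter j) w2 (half_pos dl0)
  have cσ : Continuous (F.f^[j] ∘ w2.pt) :=
    (F.smf.iter j).1.comp (Cv.continuous_pt.comp (Continuous.prodMk_right w2))
  have hΦ := B.continuous_Φ
  have v1 : volume (Icc (0 : ℝ) 1 ∩ {t | dist ((F.f^[j] ∘ w2.pt) t) y < dl / 2}) ≠ 0 := by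
    obtain ⟨t, ht, e⟩ := H.on
    refine vol_ne_inj (isOpen_lt (by fun_prop) continuous_const) ht ?_
    simp only [mem_ofPred_eq, e, dist_self]
    exact half_pos dl0
  have v2 : volume (Icc (0 : ℝ) 1 ∩ {t | 0.7 * τ < (B.Φ ((F.f^[j] ∘ w2.pt) t)).1}) ≠ 0 := by
    obtain ⟨t, ht, e⟩ := H.far
    refine vol_ne_inj (isOpen_lt continuous_const (by fun_prop)) ht ?_
    simp only [mem_ofPred_eq]
    linarith
  have hup : |(B.Φ p).1| ≤ τ / 4 := (norm_fst_le (B.Φ p)).trans H.inp.2.2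
  have hsp : |(B.Φ p).2| ≤ τ / 4 := (norm_snd_le (B.Φ p)).trans H.inp.2.2
  have hup' : |(B.Φ p').1| ≤ τ / 4 := (norm_fst_le (B.Φ p')).trans H.inp'.2.2
  have hsp' : |(B.Φ p').2| ≤ τ / 4 := (norm_snd_le (B.Φ p')).trans H.inp'.2.2
  refine ⟨min δ1 (min δ2 δ3), by positivity, ?_⟩
  filter_upwards [G1, G2, G3,
    B.closing p H.inp.1 H.inp.2.1 _ hs hc m m0, B.closing p' H.inp'.1 H.inp'.2.1 _ hs hc m m0]
    with n g1 g2 g3 cl cl' μ ν mm κ w1' w3' Y i1 i2 i3 e1 y1 hmm e2 hνμ t2 ac hu hw1 hw3 z1 z3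
  replace hw1 := hw1.trans_le (min_le_left _ _)
  replace hw3 := hw3.trans_le ((min_le_right _ _).trans (min_le_right _ _))
  obtain ⟨aa, N, hN, la, ea, pa⟩ := cl
  obtain ⟨bb, N', hN', lb, eb, pb⟩ := cl'
  obtain ⟨a', ca, ha'⟩ := ext_lip_inj la
  obtain ⟨b', cb, hb'⟩ := ext_lip_inj lb
  have sa := side_inj hτ hτ' m1 hup hsp la ea ha'
  have sb := side_inj hτ hτ' m1 hup' hsp' lb eb hb'
  obtain ⟨bot, cbot, hbot⟩ := g1 w1' hw1
  obtain ⟨top, ctop, htop⟩ := g3 w3' hw3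
  have sbot : ∀ r ∈ Icc (-τ) τ, |bot r| ≤ 0.55 * τ := fun r hr => by
    have h5 : |bot r| ≤ |bot r - h1 r| + |h1 r| := by simpa using abs_add_le (bot r - h1 r) (h1 r)
    linarith [(hbot r hr).1, cr1.small r hr]
  have stop : ∀ r ∈ Icc (-τ) τ, |top r| ≤ 0.55 * τ := fun r hr => by
    have h5 : |top r| ≤ |top r - h3 r| + |h3 r| := by simpa using abs_add_le (top r - h3 r) (h3 r)
    linarith [(htop r hr).1, cr3.small r hr]
  obtain ⟨K', -, hK'⟩ := UAll.ucur (Fs n) hp hε hα.le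
  have hsubρ : ∀ r ∈ Icc (-τ) τ, r ∈ Icc (-ρ) ρ := fun r hr =>
    ⟨by linarith [hr.1], by linarith [hr.2]⟩
  refine barrier_col (Fs n) e1 y1 hmm e2 hνμ (K := K') (c := 2 * q.α) (by positivity)
    (κ := κ) t2 ac (j := j)
    inter_subset_left inter_subset_left v1 v2 (K1 := closedBall y dl)
    (K2 := {z | 0.65 * τ ≤ (B.Φ z).1}) (Q := rectInj B τ a' b' bot top)
    (O := {z | 0.6 * τ < (B.Φ z).1})
    (Z := ((Fs n).f^[j'] ∘ w1'.pt) '' Icc 0 1 ∪ ((Fs n).f^[j'] ∘ w3'.pt) '' Icc 0 1)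
    isClosed_closedBall (isClosed_le continuous_const (by fun_prop))
    (isOpen_rectInj B τ ca cb cbot ctop) (isOpen_lt continuous_const (by fun_prop)) ?_ ?_ ?_ ?_ ?_ ?_
  · intro z hz
    rw [mem_closedBall] at hz
    have n1 : ‖B.Φ z - B.Φ y‖ ≤ m :=
      (B.norm_Φ_sub_le z y).trans ((mul_le_mul_of_nonneg_left hz (by linarith)).trans dl1)
    have n2 : |(B.Φ z).1 - (B.Φ y).1| ≤ m := (norm_fst_le (B.Φ z - B.Φ y)).trans n1
    have n3 : |(B.Φ z).2 - (B.Φ y).2| ≤ m := (norm_snd_le (B.Φ z - B.Φ y)).trans n1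
    have n4 : ‖B.Φ z‖ < τ := by
      have : ‖B.Φ z‖ ≤ ‖B.Φ z - B.Φ y‖ + ‖B.Φ y‖ := by
        simpa using norm_add_le (B.Φ z - B.Φ y) (B.Φ y)
      linarith
    have mu : (B.Φ z).1 ∈ Icc (-τ) τ := abs_le.1 ((norm_fst_le (B.Φ z)).trans n4.le)
    have ms : (B.Φ z).2 ∈ Icc (-τ) τ := abs_le.1 ((norm_snd_le (B.Φ z)).trans n4.le)
    have my : (B.Φ y).1 ∈ Icc (-τ) τ := abs_le.1 ((norm_fst_le (B.Φ y)).trans H.near.2.le)
    have q1 := abs_le.1 (sa _ ms).1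
    have q2 := abs_le.1 (sb _ ms).1
    have q3 := abs_le.1 (hbot _ mu).1
    have q4 := abs_le.1 (htop _ mu).1
    have q5 := abs_le.1 ((cr1.lip _ (hsubρ _ mu) _ (hsubρ _ my)).trans
      (div_le_div_of_nonneg_right n2 (by norm_num)))
    have q6 := abs_le.1 ((cr3.lip _ (hsubρ _ mu) _ (hsubρ _ my)).trans
      (div_le_div_of_nonneg_right n2 (by norm_num)))
    have q7 := abs_sub_le (B.Φ z).2 (B.Φ y).2 (B.Φ p).2
    have q8 := abs_sub_le (B.Φ z).2 (B.Φ y).2 (B.Φ p').2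
    have n2' := abs_le.1 n2
    have n3' := abs_le.1 n3
    refine ⟨?_, n4, ?_, ?_, ?_, ?_⟩
    · linarith [dist_triangle z y x0]
    · linarith [q1.2, n2'.1]
    · linarith [q2.1, n2'.2]
    · linarith [q3.2, q5.2, n3'.1]
    · linarith [q4.1, q6.1, n3'.2]
  · intro z hz
    simp only [mem_ofPred_eq] at hz ⊢
    linarith
  · refine disjoint_left.2 fun z hz hz' => ?_
    obtain ⟨-, d2, -, d4, -, -⟩ := hz
    have ms : (B.Φ z).2 ∈ Icc (-τ) τ := abs_le.1 ((norm_snd_le (B.Φ z)).trans d2.le)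
    have := (abs_le.1 (sb _ ms).2).2
    simp only [mem_ofPred_eq] at hz'
    linarith
  · filter_upwards [hu] with w hw
    have hcl := (g2 w (hw.2.trans_le ((min_le_right _ _).trans (min_le_left _ _)))).1
    refine ⟨hK' w hw.1, fun t ht => ?_, fun t ht => ?_⟩
    · have h7 : dist (F.f^[j] (w2.pt t)) y < dl / 2 := ht.2
      rw [mem_closedBall]
      linarith [dist_triangle ((Fs n).f^[j] (w.pt t)) (F.f^[j] (w2.pt t)) y, hcl t]
    · have h7 : 0.7 * τ < (B.Φ (F.f^[j] (w2.pt t))).1 := ht.2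
      have h8 := (norm_fst_le _).trans ((B.norm_Φ_sub_le ((Fs n).f^[j] (w.pt t))
        (F.f^[j] (w2.pt t))).trans (mul_le_mul_of_nonneg_left (hcl t) (by linarith)))
      have h9 := (abs_le.1 h8).1
      simp only [Prod.fst_sub] at h9
      change 0.65 * τ ≤ (B.Φ ((Fs n).f^[j] (w.pt t))).1
      linarith
  · intro z hz
    obtain ⟨r, hr, h | h | h | h⟩ := frontier_rectInj B hτ hτ' ca cb cbot ctop
      (fun r hr => (sa r hr).2) (fun r hr => (sb r hr).2) sbot stop hz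
    · refine Or.inr ⟨N, hN, ?_⟩
      rw [h, ha' r (hsubρ r hr)]
      exact pa r (hsubρ r hr)
    · refine Or.inr ⟨N', hN', ?_⟩
      rw [h, hb' r (hsubρ r hr)]
      exact pb r (hsubρ r hr)
    · obtain ⟨t, ht, e⟩ := (hbot r hr).2
      exact Or.inl (Or.inl ⟨t, ht, e.trans h.symm⟩)
    · obtain ⟨t, ht, e⟩ := (htop r hr).2
      exact Or.inl (Or.inr ⟨t, ht, e.trans h.symm⟩)
  · rw [union_sdiff_distrib]
    exact measure_union_null z1 z3

end Pool.Agent.Lib.MP_e7c912_an
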