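import Pool.Agent.Lib.MP_e7c912_an.H71Per
import Pool.Agent.Lib.MP_e7c912_an.H71Defs
import Pool.Agent.Lib.MP_e7c912_an.H51Final

/-! Periods of SRB measures of nearby diffeomorphisms. -/

namespace Pool.Agent.Lib.MP_e7c912_an

open MeasureTheory Filter Metric Set Topology Bundle
open scoped ContDiff ENNReal

section Meas

variable {X : Type} [MeasurableSpace X] {T : X → X} {μ : Measure X}

/-- Sets invariant under some iterate are invariant under the `D`-th iterate up to null sets. -/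
def Per (T : X → X) (μ : Measure X) (D : ℕ) : Prop :=
  ∀ m : ℕ, 1 ≤ m → ∀ Y : Set X, MeasurableSet Y → T^[m] ⁻¹' Y = Y → T^[D] ⁻¹' Y =ᵐ[μ] Y

theorem Per.add_iff (hT : MeasurePreserving T μ μ) {a b : ℕ} (ha : Per T μ a) :
    Per T μ (a + b) ↔ Per T μ b := by
  have key : ∀ m : ℕ, 1 ≤ m → ∀ Y : Set X, MeasurableSet Y → T^[m] ⁻¹' Y = Y →
      T^[a + b] ⁻¹' Y =ᵐ[μ] T^[b] ⁻¹' Y := fun m hm Y hY hi => by
    rw [Function.iterate_add, preimage_comp]
    exact (hT.iterate b).quasiMeasurePreserving.preimage_ae_eq (ha m hm Y hY hi)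
  exact ⟨fun h m hm Y hY hi => (key m hm Y hY hi).symm.trans (h m hm Y hY hi),
    fun h m hm Y hY hi => (key m hm Y hY hi).trans (h m hm Y hY hi)⟩

theorem Per.mul (hT : MeasurePreserving T μ μ) {a : ℕ} (ha : Per T μ a) (k : ℕ) :
    Per T μ (a * k) := by
  induction k with
  | zero => exact fun m _ Y _ _ => EventuallyEq.rfl
  | succ k ih =>
    rw [Nat.mul_succ, add_comm]
    exact (ha.add_iff hT).2 ih

theorem Per.period {D : ℕ} (h1 : 1 ≤ D) (h : Per T μ D) :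
    1 ≤ LY.period T μ ∧ Per T μ (LY.period T μ) :=
  Nat.sInf_mem (s := {D : ℕ | 1 ≤ D ∧ Per T μ D}) ⟨D, h1, h⟩

theorem Per.period_dvd (hT : MeasurePreserving T μ μ) {D : ℕ} (h1 : 1 ≤ D) (h : Per T μ D) :
    LY.period T μ ∣ D := by
  obtain ⟨h2, h3⟩ := h.period h1
  by_contra hn
  have h4 : Per T μ (D % LY.period T μ) :=
    ((h3.mul hT (D / LY.period T μ)).add_iff hT).1 (by rwa [Nat.div_add_mod])
  have h5 : LY.period T μ ≤ D % LY.period T μ := Nat.sInf_le (s := {D : ℕ | 1 ≤ D ∧ Per T μ D})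
    ⟨Nat.pos_of_ne_zero fun h0 => hn (Nat.dvd_of_mod_eq_zero h0), h4⟩
  exact absurd (Nat.mod_lt D h2) (not_lt.2 h5)

theorem exists_comp_of_not [IsProbabilityMeasure μ] (hT : Ergodic T μ) {D : ℕ} (h : ¬ Per T μ D) :
    ∃ m ν, Comp T μ m ν ∧ ν.map T^[D] ≠ ν := by
  simp only [Per, not_forall] at h
  obtain ⟨m, hm, Y, hY, hi, h⟩ := h
  obtain ⟨ν, hν⟩ := exists_comp hT hm
  exact ⟨m, ν, hν, fun he => h (hν.inv_of_map he hY hi)⟩

end Meas

section Abs

variable {X : Type} [MetricSpace X] [CompactSpace X] [MeasurableSpace X] [BorelSpace X]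
  {A : Atlas X}

theorem per_fin {F : Dif A} {ξ : Measure X} (h : SRB F ξ) {b : ℝ} (hb : 0 < b)
    (hk : ENNReal.ofReal b ≤ ksEntropy ξ F.f) : ∃ D, 1 ≤ D ∧ Per F.f ξ D := by
  by_contra hn
  have := h.1
  choose m ν hν hne using fun n : ℕ => exists_comp_of_not h.2.1 (D := n.factorial) fun h1 =>
    hn ⟨_, Nat.factorial_pos n, h1⟩
  obtain ⟨s, q, κs, κ, ξ', hs, -, -, L⟩ := exists_lim (Fs := fun _ => F) (A.conv_const F.f)
    (α := b / 20) (b := b / 2) (by linarith) (by linarith) (μs := fun _ => ξ)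
    fun _ => ⟨h, b, by linarith, hk⟩
  obtain ⟨D, hD, h1⟩ := L.bounded (ms := fun n => m (s n)) (νs := fun n => ν (s n))
    fun n => hν (s n)
  obtain ⟨n, h2, h3⟩ := (h1.and (hs.tendsto_atTop.eventually_ge_atTop D)).exists
  obtain ⟨p, -, hp⟩ := (hν (s n)).exists_mod
  have h4 : p ∣ D := Nat.modEq_zero_iff_dvd.1 ((hp D 0).1 (by simpa using h2))
  exact hne (s n) (by
    simpa using (hp _ 0).2 (Nat.modEq_zero_iff_dvd.2 (h4.trans (Nat.dvd_factorial hD h3))))

theorem per_main {Fs : ℕ → Dif A} {F : Dif A} (hc : A.Conv (fun n => (Fs n).f) F.f) {b : ℝ}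
    (hb : 0 < b) : ∀ᶠ n in atTop, ∀ μ : Measure X, SRB (Fs n) μ →
      ENNReal.ofReal b < ksEntropy μ (Fs n).f → ∃ ξ : Measure X, SRB F ξ ∧
        ENNReal.ofReal b ≤ ksEntropy ξ F.f ∧ Per (Fs n).f μ (LY.period F.f ξ) := by
  by_contra hne
  obtain ⟨α, hα, hαb, hgap⟩ := exists_gap F hb
  obtain ⟨s0, hs0, h0⟩ := extraction_of_frequently_atTop (not_eventually.1 hne)
  simp only [not_forall, not_exists, not_and] at h0
  choose μs h1 h2 h3 using h0
  obtain ⟨s, q, κs, κ, ξ, hs, hξ, hk, L⟩ := exists_lim (Fs := fun n => Fs (s0 n))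
    (hc.subseq hs0.tendsto_atTop) hα hαb (μs := μs) fun n => ⟨h1 n, by
      obtain ⟨r, -, e2, e3⟩ := ENNReal.lt_iff_exists_real_btwn.1 (h2 n)
      exact ⟨r, (ENNReal.ofReal_lt_ofReal_iff_of_nonneg hb.le).1 e2, e3.le⟩⟩
  have hk' := hgap ξ hξ hk
  obtain ⟨D, hD, hP⟩ := per_fin hξ hb hk'
  obtain ⟨h4, h5⟩ := hP.period hD
  choose m ν hν hne' using fun n : ℕ => by
    have := (h1 (s n)).1
    exact exists_comp_of_not (h1 (s n)).2.1 (h3 (s n) ξ hξ hk')
  obtain ⟨n, hn⟩ := L.divides hν h4 h5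
  exact hne' n hn

end Abs

theorem per_conj {M X : Type} [TopologicalSpace M] [MeasurableSpace M] [BorelSpace M]
    [TopologicalSpace X] [MeasurableSpace X] [BorelSpace X] (j : M ≃ₜ X) {g : M → M}
    {μ : Measure M} {D : ℕ} : Per (conj j g) (μ.map j) D ↔ Per g μ D := by
  have hj : MeasurePreserving j μ (μ.map j) := ⟨j.measurable, rfl⟩
  have hj' : MeasurePreserving j.symm (μ.map j) μ :=
    MeasurePreserving.symm j.toMeasurableEquiv hj
  have e1 : ∀ (n : ℕ) (Y : Set M), (conj j g)^[n] ⁻¹' (j.symm ⁻¹' Y) = j.symm ⁻¹' (g^[n] ⁻¹' Y) :=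
    fun n Y => by
      rw [conj_iter_br3]
      ext x
      simp [conj]
  have e2 : ∀ (n : ℕ) (Y : Set X), g^[n] ⁻¹' (j ⁻¹' Y) = j ⁻¹' ((conj j g)^[n] ⁻¹' Y) :=
    fun n Y => by
      ext x
      simp [conj_iter_br4]
  constructor
  · intro h m hm Y hY hi
    have h1 := hj.quasiMeasurePreserving.preimage_ae_eq
      (h m hm _ (j.symm.measurable hY) (by rw [e1, hi]))
    rwa [e1, j.preimage_symm, j.preimage_image, j.preimage_image] at h1
  · intro h m hm Y hY hi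
    have h1 := hj'.quasiMeasurePreserving.preimage_ae_eq
      (h m hm _ (j.measurable hY) (by rw [e2, hi]))
    rwa [e2, j.preimage_symm, j.image_preimage, j.image_preimage] at h1

variable {E : Type} [NormedAddCommGroup E] [NormedSpace ℝ E]

theorem final_per (hE : Module.finrank ℝ E = 2) {M : Type} [EMetricSpace M] [ChartedSpace E M]
    [IsManifold (II E) ∞ M] [CompactSpace M]
    [RiemannianBundle fun x : M => TangentSpace (II E) x]
    [IsContMDiffRiemannianBundle (II E) ∞ E fun x : M => TangentSpace (II E) x]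
    [IsRiemannianManifold (II E) M] [MeasurableSpace M] [BorelSpace M] (f : Diffeo E M) (b : ℝ)
    (hb : 0 < b) : ∃ U : Set (Diffeo E M), LY.IsSmoothNhd f U ∧ ∀ g ∈ U, ∀ μ : Measure M,
      LY.IsSRB g μ → ENNReal.ofReal b < LY.ksEntropy μ g → ∃ ξ : Measure M, LY.IsSRB f ξ ∧
        ENNReal.ofReal b ≤ LY.ksEntropy ξ f ∧ LY.period f ξ ≠ 0 ∧
        LY.period g μ ∣ LY.period f ξ := by
  obtain ⟨X, _, _, _, _, A, j, ⟨H⟩⟩ := exists_atlas hE M
  obtain ⟨C, hC⟩ := H.lip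
  obtain ⟨C', hC'⟩ := H.lip_symm
  have hks : ∀ (g : Diffeo E M) (μ : Measure M), ksEntropy (μ.map j) (H.dif g).f = ksEntropy μ g :=
    fun g μ => ks_map j.toMeasurableEquiv fun x => by simp [Compat.dif, conj]
  refine ⟨_, H.nhd f (p := fun g => ∀ μ : Measure M,
      LY.IsSRB g μ → ENNReal.ofReal b < LY.ksEntropy μ g → ∃ ξ : Measure M, LY.IsSRB f ξ ∧
        ENNReal.ofReal b ≤ LY.ksEntropy ξ f ∧ LY.period f ξ ≠ 0 ∧
        LY.period g μ ∣ LY.period f ξ) fun gs hc => ?_, fun g hg => hg⟩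
  filter_upwards [per_main (Fs := fun n => H.dif (gs n)) (F := H.dif f) hc hb] with n hn μ
    ⟨hp, he, _, hl⟩ hk
  obtain ⟨ν, hν, hk', hP⟩ := hn (μ.map j)
    ⟨Measure.isProbabilityMeasure_map j.measurable.aemeasurable, (ergodic_conj j).2 he,
      (leafAC_map A.ρ_pos hC hC' _ μ).2 ((condAC_iff hE (gs n) he hb hk.le).1 hl)⟩
    ((hks (gs n) μ).symm ▸ hk)
  obtain ⟨ξ, rfl⟩ : ∃ ξ : Measure M, ξ.map j = ν :=
    ⟨ν.map j.symm, j.toMeasurableEquiv.map_map_symm⟩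
  have hp' : IsProbabilityMeasure ξ := by
    have := hν.1
    exact Measure.isProbabilityMeasure_of_map (μ := ξ) j
  have he' : Ergodic f ξ := (ergodic_conj j).1 hν.2.1
  have hk2 : ENNReal.ofReal b ≤ ksEntropy ξ f := hks f ξ ▸ hk'
  have hper : LY.period (H.dif f).f (ξ.map j) = LY.period f ξ :=
    congrArg sInf (Set.ext fun D => and_congr_right fun _ => per_conj j)
  obtain ⟨D, hD, hD'⟩ := per_fin hν hb hk'
  have h1 := (hD'.period hD).1
  rw [hper] at h1 hP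
  refine ⟨ξ, ⟨hp', he', ?_, (condAC_iff hE f he' hb hk2).2
    ((leafAC_map A.ρ_pos hC hC' _ ξ).1 hν.2.2)⟩, hk2, by omega,
    ((per_conj j).1 hP).period_dvd he.toMeasurePreserving h1⟩
  obtain ⟨K, hK⟩ := (H.dif f).cocycle
  filter_upwards [ae_of_ae_map j.measurable.aemeasurable (hν.hyp hb hk')] with x hx
  exact H.exponent f (exists_freq hK hx.1)

end Pool.Agent.Lib.MP_e7c912_an
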