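import Pool.Agent.Lib.MP_e7c912_an.H71Col
import Pool.Agent.Lib.MP_e7c912_an.H71Cfg
import Pool.Agent.Lib.MP_e7c912_an.H60Main

/-! Periods of SRB measures in the abstract setting. -/

namespace Pool.Agent.Lib.MP_e7c912_an

open MeasureTheory Filter Metric Set Topology
open scoped ENNReal

variable {X : Type} [MetricSpace X] [CompactSpace X] [MeasurableSpace X] [BorelSpace X]
  {A : Atlas X}

/-- A sequence of measures with families of curves that accumulate on a family dominated by `ξ`. -/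
structure Lim (Fs : ℕ → Dif A) (F : Dif A) (q : Prm) (μs : ℕ → Measure X)
    (κs : ℕ → Measure (Cv A q.ε)) (κ : Measure (Cv A q.ε)) (ξ : Measure X) : Prop where
  conv : A.Conv1 (fun n => (Fs n).f) F.f
  p_pos : 1 ≤ q.p
  ε_pos : 0 < q.ε
  α_pos : 0 < q.α
  fins : ∀ n, IsFiniteMeasure (κs n)
  hyps : ∀ n, ∀ᵐ x ∂μs n, 0 < l1 (A.coc (Fs n).f) x ∧ l2 (A.coc (Fs n).f) x < 0
  acs : ∀ n, eta (κs n) ≪ μs n
  us : ∀ n, ∀ᵐ w ∂κs n, UAll (Fs n) q w
  fin : IsFiniteMeasure κ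
  ne : κ ≠ 0
  lim : ∀ w ∈ κ.support, ∀ δ : ℝ, 0 < δ → ∀ᶠ n in atTop, κs n (ball w δ) ≠ 0
  u : ∀ᵐ w ∂κ, UAll F q w
  prob : IsProbabilityMeasure ξ
  erg : Ergodic F.f ξ
  hyp : ∀ᵐ x ∂ξ, 0 < l1 (A.coc F.f) x ∧ l2 (A.coc F.f) x < 0
  ac : eta κ ≪ ξ

theorem exists_lim {Fs : ℕ → Dif A} {F : Dif A} (hc : A.Conv (fun n => (Fs n).f) F.f) {α b : ℝ}
    (hα : 0 < α) (hb : 5 * α < b) {μs : ℕ → Measure X}
    (hμ : ∀ n, SRB (Fs n) (μs n) ∧
      ∃ b', b < b' ∧ ENNReal.ofReal b' ≤ ksEntropy (μs n) (Fs n).f) :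
    ∃ (s : ℕ → ℕ) (q : Prm) (κs : ℕ → Measure (Cv A q.ε)) (κ : Measure (Cv A q.ε)) (ξ : Measure X),
      StrictMono s ∧ SRB F ξ ∧ ENNReal.ofReal (b - 5 * α) ≤ ksEntropy ξ F.f ∧
      Lim (fun n => Fs (s n)) F q (fun n => μs (s n)) κs κ ξ := by
  have hb0 : 0 < b := by linarith
  obtain ⟨q, rfl, hp, hε, -, hq⟩ := exists_fit_seq hc hα
  obtain ⟨n0, hn0⟩ := eventually_atTop.1 hq
  have key : ∀ n, ∃ P : ProbabilityMeasure (Om A q.ε), UState (Fs (n + n0)) q b P ∧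
      eta (kap (P : Measure (Om A q.ε))) ≪ μs (n + n0) := by
    intro n
    obtain ⟨h1, b', h2, h3⟩ := hμ (n + n0)
    have := h1.1
    refine state_of_srb (hn0 _ (Nat.le_add_left _ _)) h1 hb0 h2 ?_
    filter_upwards [hyp_of_entropy _ h1.2.1 (hb0.trans h2) h3] with x hx
    exact ⟨hx.1, by linarith [hx.2]⟩
  choose Ps hU hac using key
  obtain ⟨s, P, hs, hP⟩ := exists_subseq (ι := Unit) fun n _ => Ps n
  have hs' : StrictMono fun n => s n + n0 := fun a b hab => Nat.add_lt_add_right (hs hab) _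
  have hc1 : A.Conv1 (fun n => (Fs (s n + n0)).f) F.f := hc.conv1.subseq hs'.tendsto_atTop
  have hUP : UState F q b (P ()) :=
    (astate_of_ustate (Fs := fun n => Fs (s n + n0)) (bs := fun _ => b) (fun n => hU (s n))
      tendsto_const_nhds).limit hc1 (hP ())
  obtain ⟨ξ, S, hξ, hk, hS, hSac⟩ := srb_of_state hp hε hα (by linarith) hUP
  have := isFiniteMeasure_kap (P () : Measure (Om A q.ε))
  refine ⟨fun n => s n + n0, q, fun n => kap (Ps (s n) : Measure (Om A q.ε)),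
    (kap (P () : Measure (Om A q.ε))).restrict S, ξ, hs', hξ, hk, hc1, hp, hε, hα,
    fun n => isFiniteMeasure_kap _, fun n => ?_, fun n => hac _,
    fun n => (hU _).ae_uall.mono fun w hw => hw.1, inferInstance,
    fun h => hS (Measure.restrict_eq_zero.1 h), fun w hw δ hδ => ?_,
    ae_restrict_of_ae (hUP.ae_uall.mono fun w hw => hw.1), hξ.1, hξ.2.1,
    hξ.hyp (by linarith) hk, hSac⟩
  · obtain ⟨h1, b', h2, h3⟩ := hμ (s n + n0)
    exact h1.hyp (hb0.trans h2) h3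
  · refine kap_open (hP ()) isOpen_ball fun h0 => ?_
    exact ((Measure.mem_support_iff_forall _).1 hw _ (ball_mem_nhds _ hδ)).ne'
      (nonpos_iff_eq_zero.1 ((Measure.restrict_le_self _).trans h0.le))

theorem ret_ge (F : Dif A) {ξ : Measure X} [IsProbabilityMeasure ξ] (hξ : Ergodic F.f ξ) {ε : ℝ}
    {κ : Measure (Cv A ε)} [IsFiniteMeasure κ] (ac : eta κ ≪ ξ) (J : ℕ) :
    Ret F κ fun d => J ≤ d := by
  intro j B hB h0
  have h1 : ξ B ≠ 0 := fun h => h0 (eta_ac_cfg ac (by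
    rwa [(hξ.toMeasurePreserving.iterate j).measure_preimage hB.nullMeasurableSet]))
  refine exists_time_h71 (fun h => h0 (measure_mono_null (subset_univ _) h))
    (T := fun d => F.f^[j + d]) ?_
  filter_upwards [(eta_ac_cfg ac).ae_le (ergodic_freq hξ hB h1)] with x hx
  obtain ⟨n, h2, h3⟩ := frequently_atTop.1 hx (j + J)
  exact ⟨n - j, by omega, by rwa [Nat.add_sub_cancel' (by omega)]⟩

theorem ret_mod (F : Dif A) {ξ : Measure X} [IsProbabilityMeasure ξ] {M D : ℕ}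
    (hξ : Ergodic F.f^[M] ξ) (hD : ξ.map F.f^[D] = ξ) {ε : ℝ}
    {κ : Measure (Cv A ε)} [IsFiniteMeasure κ] (ac : eta κ ≪ ξ) :
    Ret F κ fun d => ∃ k, d = M * k + D := by
  intro j B hB h0
  have hm := F.smf.1.measurable
  refine exists_time_h71 (fun h => h0 (measure_mono_null (subset_univ _) h))
    (T := fun d => F.f^[j + d]) ?_
  have h1 := (⟨hm.iterate D, hD⟩ : MeasurePreserving F.f^[D] ξ ξ).quasiMeasurePreserving.ae
    (ergodic_freq hξ (hm.iterate j hB) fun h => h0 (eta_ac_cfg ac h))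
  filter_upwards [(eta_ac_cfg ac).ae_le h1] with x hx
  obtain ⟨k, hk⟩ := hx.exists
  refine ⟨_, ⟨k, rfl⟩, ?_⟩
  rw [Function.iterate_add_apply, Function.iterate_add_apply, Function.iterate_mul]
  exact hk

variable {Fs : ℕ → Dif A} {F : Dif A} {q : Prm} {μs νs : ℕ → Measure X} {ms : ℕ → ℕ}
  {κs : ℕ → Measure (Cv A q.ε)} {κ : Measure (Cv A q.ε)} {ξ : Measure X}

/-- The colour `i` is seen in `U` at stage `n`. -/
def Seen (Fs : ℕ → Dif A) (ms : ℕ → ℕ) (νs : ℕ → Measure X) {ε : ℝ} (κs : ℕ → Measure (Cv A ε))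
    (n i : ℕ) (U : Set (Cv A ε)) : Prop :=
  κs n (ColS (Fs n).f^[ms n] ((νs n).map (Fs n).f^[i]) ∩ U) ≠ 0

omit [CompactSpace X] [BorelSpace X] in
theorem Seen.mono {n i : ℕ} {U U' : Set (Cv A q.ε)} (h : Seen Fs ms νs κs n i U) (hU : U ⊆ U') :
    Seen Fs ms νs κs n i U' :=
  fun h0 => h (measure_mono_null (inter_subset_inter_right _ hU) h0)

theorem Lim.seen (L : Lim Fs F q μs κs κ ξ) (hν : ∀ n, Comp (Fs n).f (μs n) (ms n) (νs n))
    {w : Cv A q.ε} (hw : w ∈ κ.support) {δ : ℝ} (hδ : 0 < δ) :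
    ∀ᶠ n in atTop, ∃ i, Seen Fs ms νs κs n i (ball w δ) := by
  filter_upwards [L.lim w hw δ hδ] with n hn
  have := L.fins n
  obtain ⟨K, -, hK⟩ := UAll.ucur (Fs n) L.p_pos L.ε_pos L.α_pos.le
  exact (hν n).exists_col (L.acs n) (c := 2 * q.α) (by linarith [L.α_pos])
    ((L.us n).mono hK) hn

theorem Lim.step (L : Lim Fs F q μs κs κ ξ) (hν : ∀ n, Comp (Fs n).f (μs n) (ms n) (νs n))
    {E S : Set (Cv A q.ε)} (cE : IsClosed E) (hS : MeasurableSet S) (hSE : S ⊆ E) (h0 : κ S ≠ 0)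
    {R : ℕ → Prop} (hR : Ret F (κ.restrict S) R) :
    ∃ (d j : ℕ) (w1 w2 w3 : Cv A q.ε) (δ : ℝ), R d ∧ w1 ∈ κ.support ∩ E ∧ w2 ∈ κ.support ∩ E ∧
      w3 ∈ κ.support ∩ E ∧ 0 < δ ∧ ∀ᶠ n in atTop, ∀ a b1 b3 : ℕ,
        Seen Fs ms νs κs n a (ball w2 δ) → Seen Fs ms νs κs n b1 (ball w1 δ) →
        Seen Fs ms νs κs n b3 (ball w3 δ) →
        (νs n).map (Fs n).f^[a + (j + d)] = (νs n).map (Fs n).f^[b1 + j] ∨
          (νs n).map (Fs n).f^[a + (j + d)] = (νs n).map (Fs n).f^[b3 + j] := by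
  have := L.fin
  have := L.prob
  obtain ⟨K', -, hK'⟩ := UAll.ucur F L.p_pos L.ε_pos L.α_pos.le
  obtain ⟨Λ, x0, ρ, K, c, ε0, B, τ, j, j', w1, w2, w3, h1, h3, p, p', y, ⟨d, hd, rfl⟩, m1, m2, m3,
    H⟩ := exists_cfg_h71 F L.erg L.hyp (K' := K') (c' := 2 * q.α) (by linarith [L.α_pos])
      ((Measure.isClosed_support.inter cE).inter (isClosed_uall F q))
      (fun w hw => hK' w hw.2) (κ := κ.restrict S) (fun h => h0 (Measure.restrict_eq_zero.1 h))
      (by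
        filter_upwards [ae_restrict_of_ae (Measure.support_mem_ae (μ := κ)),
          ae_restrict_mem hS, ae_restrict_of_ae L.u] with w a b e
        exact ⟨⟨a, hSE b⟩, e⟩)
      ((Measure.absolutelyContinuous_of_le
        (etaOn_mono Measure.restrict_le_self subset_rfl)).trans L.ac) hR
  obtain ⟨δ, hδ, hev⟩ := H.rel L.conv L.p_pos L.ε_pos L.α_pos
  exact ⟨d, j', w1, w2, w3, δ, hd, m1.1, m2.1, m3.1, hδ, hev.mono fun n hn =>
    hn _ _ _ _ (hν n) (L.fins n) (L.hyps n) (L.acs n) (L.us n)⟩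

theorem Lim.ret (L : Lim Fs F q μs κs κ ξ) (S : Set (Cv A q.ε)) (J : ℕ) :
    Ret F (κ.restrict S) fun d => J ≤ d := by
  have := L.fin
  have := L.prob
  exact ret_ge F L.erg ((Measure.absolutelyContinuous_of_le
    (etaOn_mono Measure.restrict_le_self subset_rfl)).trans L.ac) J

/-- The periods are bounded along the sequence. -/
theorem Lim.bounded (L : Lim Fs F q μs κs κ ξ) (hν : ∀ n, Comp (Fs n).f (μs n) (ms n) (νs n)) :
    ∃ D, 1 ≤ D ∧ ∀ᶠ n in atTop, (νs n).map (Fs n).f^[D] = νs n := by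
  classical
  obtain ⟨d0, j0, v1, v2, v3, δ0, -, m1, m2, m3, hδ0, h0⟩ := L.step hν isClosed_univ
    MeasurableSet.univ subset_rfl (fun h => L.ne (Measure.measure_univ_eq_zero.1 h))
    (L.ret univ 0)
  have hb : κ (closedBall v2 (δ0 / 2)) ≠ 0 :=
    ((Measure.mem_support_iff_forall _).1 m2.1 _ (closedBall_mem_nhds _ (half_pos hδ0))).ne'
  have key : ∃ᶠ d in atTop, ∀ᶠ n in atTop, ∃ a b j, Seen Fs ms νs κs n a (ball v2 δ0) ∧
      Seen Fs ms νs κs n b (ball v2 δ0) ∧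
      (νs n).map (Fs n).f^[a + (j + d)] = (νs n).map (Fs n).f^[b + j] := by
    refine frequently_atTop.2 fun J => ?_
    obtain ⟨d, j, w1, w2, w3, δ, hd, n1, n2, n3, hδ, h⟩ := L.step hν isClosed_closedBall
      measurableSet_closedBall subset_rfl hb (L.ret _ J)
    refine ⟨d, hd, ?_⟩
    have hδ' : 0 < min δ (δ0 / 2) := lt_min hδ (half_pos hδ0)
    have s1 : ∀ w : Cv A q.ε, ball w (min δ (δ0 / 2)) ⊆ ball w δ := fun w =>
      ball_subset_ball (min_le_left _ _)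
    have s2 : ∀ w ∈ closedBall v2 (δ0 / 2), ball w (min δ (δ0 / 2)) ⊆ ball v2 δ0 := fun w hw =>
      ball_subset (by linarith [mem_closedBall.1 hw, min_le_right δ (δ0 / 2)])
    filter_upwards [h, L.seen hν n1.1 hδ', L.seen hν n2.1 hδ', L.seen hν n3.1 hδ'] with n e
      ⟨b1, e1⟩ ⟨a, e2⟩ ⟨b3, e3⟩
    rcases e a b1 b3 (e2.mono (s1 _)) (e1.mono (s1 _)) (e3.mono (s1 _)) with e4 | e4
    · exact ⟨a, b1, j, e2.mono (s2 _ n2.2), e1.mono (s2 _ n1.2), e4⟩
    · exact ⟨a, b3, j, e2.mono (s2 _ n2.2), e3.mono (s2 _ n3.2), e4⟩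
  obtain ⟨φ, hφ, hk⟩ := extraction_of_frequently_atTop key
  refine ⟨(φ 4).factorial, Nat.factorial_pos _, ?_⟩
  filter_upwards [h0, L.seen hν m1.1 hδ0, L.seen hν m3.1 hδ0,
    eventually_all.2 fun r : Fin 5 => hk r] with n e ⟨b1, e1⟩ ⟨b3, e3⟩ e5
  choose a b j ha hb hab using e5
  obtain ⟨p, -, hp⟩ := (hν n).exists_mod
  simp only [hp] at e hab
  have two : ∀ x y, Seen Fs ms νs κs n x (ball v2 δ0) → Seen Fs ms νs κs n y (ball v2 δ0) →
      (x + (j0 + d0) ≡ b1 + j0 [MOD p] ↔ y + (j0 + d0) ≡ b1 + j0 [MOD p]) → x ≡ y [MOD p] := by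
    intro x y hx hy h
    refine Nat.ModEq.add_right_cancel' (j0 + d0) ?_
    by_cases h1 : x + (j0 + d0) ≡ b1 + j0 [MOD p]
    · exact h1.trans (h.1 h1).symm
    · exact ((e x b1 b3 hx e1 e3).resolve_left h1).trans
        ((e y b1 b3 hy e1 e3).resolve_left fun h2 => h1 (h.2 h2)).symm
  have dif : ∀ r r' : Fin 5, r < r' → a r ≡ a r' [MOD p] → b r ≡ b r' [MOD p] →
      p ∣ (φ 4).factorial := by
    intro r r' hr h1 h2
    have f : ∀ r : Fin 5, a r + φ r ≡ b r [MOD p] := fun r =>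
      Nat.ModEq.add_right_cancel' (j r) (by
        rw [add_assoc, add_comm (φ r)]
        exact hab r)
    have h3 : φ r ≡ φ r' [MOD p] := Nat.ModEq.add_left_cancel h1
      ((f r).trans (h2.trans (f r').symm))
    have h4 : φ r < φ r' := hφ hr
    have h5 : φ r' ≤ φ 4 := hφ.monotone (Nat.lt_succ_iff.1 r'.2)
    exact ((Nat.modEq_iff_dvd' h4.le).1 h3).trans (Nat.dvd_factorial (by omega) (by omega))
  obtain ⟨r, r', hrr, he⟩ := Fintype.exists_ne_map_eq_of_card_lt (fun r : Fin 5 =>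
    (decide (a r + (j0 + d0) ≡ b1 + j0 [MOD p]), decide (b r + (j0 + d0) ≡ b1 + j0 [MOD p])))
    (by simp)
  rw [Prod.mk.injEq, decide_eq_decide, decide_eq_decide] at he
  have h1 := two _ _ (ha r) (ha r') he.1
  have h2 := two _ _ (hb r) (hb r') he.2
  have h3 : p ∣ (φ 4).factorial := by
    rcases lt_or_gt_of_ne hrr with h | h
    · exact dif r r' h h1 h2
    · exact dif r' r h h1.symm h2.symm
  simpa using (hp _ 0).2 (Nat.modEq_zero_iff_dvd.2 h3)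

/-- A period of the limit measure is a period somewhere along the sequence. -/
theorem Lim.divides (L : Lim Fs F q μs κs κ ξ) (hν : ∀ n, Comp (Fs n).f (μs n) (ms n) (νs n))
    {D : ℕ} (hD1 : 1 ≤ D) (hD : ∀ m, 1 ≤ m → ∀ Y, MeasurableSet Y → F.f^[m] ⁻¹' Y = Y →
      F.f^[D] ⁻¹' Y =ᵐ[ξ] Y) : ∃ n, (νs n).map (Fs n).f^[D] = νs n := by
  obtain ⟨D1, hD0, h1⟩ := L.bounded hν
  have := L.fin
  have := L.prob
  have hU : (hyperfilter ℕ : Filter ℕ) ≤ atTop := Nat.hyperfilter_le_atTop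
  let Kc : ℕ → Set (Cv A q.ε) := fun c =>
    {w | ∀ δ : ℝ, 0 < δ → ∀ᶠ n in (hyperfilter ℕ : Filter ℕ), Seen Fs ms νs κs n c (ball w δ)}
  have cK : ∀ c, IsClosed (Kc c) := fun c => isClosed_of_closure_subset fun w hw δ hδ => by
    obtain ⟨w', h2, h3⟩ := Metric.mem_closure_iff.1 hw (δ / 2) (half_pos hδ)
    exact (h2 _ (half_pos hδ)).mono fun n hn => hn.mono (ball_subset (by
      rw [dist_comm] at h3
      linarith))
  have cov : ∀ w ∈ κ.support, ∃ c, w ∈ Kc c := by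
    intro w hw
    by_contra hn
    push Not at hn
    have h2 : ∀ c ∈ Iio D1, ∀ᶠ δ in 𝓝[>] (0 : ℝ), ∀ᶠ n in (hyperfilter ℕ : Filter ℕ),
        ¬ Seen Fs ms νs κs n c (ball w δ) := by
      intro c _
      have h3 := hn c
      simp only [Kc, mem_ofPred_eq, not_forall] at h3
      obtain ⟨δ, hδ, h3⟩ := h3
      filter_upwards [Ioo_mem_nhdsGT hδ] with δ' hδ'
      exact (Ultrafilter.eventually_not.2 h3).mono fun n h4 h5 =>
        h4 (h5.mono (ball_subset_ball hδ'.2.le))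
    obtain ⟨δ, h3, hδ⟩ := (((eventually_all_finite (finite_Iio D1)).2 h2).and
      self_mem_nhdsWithin).exists
    obtain ⟨n, h4, ⟨i, h5⟩, h6⟩ := (((eventually_all_finite (finite_Iio D1)).2 h3).and
      (((L.seen hν hw hδ).and h1).filter_mono hU)).exists
    obtain ⟨p, -, hp⟩ := (hν n).exists_mod
    have h7 : p ∣ D1 := Nat.modEq_zero_iff_dvd.1 ((hp D1 0).1 (by simpa using h6))
    refine h4 (i % D1) (Nat.mod_lt _ hD0) ?_
    rwa [Seen, (hp _ _).2 ((Nat.mod_modEq i D1).of_dvd h7)]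
  obtain ⟨c, hc⟩ := exists_nat_bar (p := fun c w => w ∈ Kc c)
    (fun h => L.ne (Measure.measure_univ_eq_zero.1 h))
    ((show ∀ᵐ w ∂κ, w ∈ κ.support from Measure.support_mem_ae).mono fun w hw _ => cov w hw)
  replace hc : κ (Kc c) ≠ 0 := by simpa using hc
  obtain ⟨ν', hν'⟩ := exists_comp L.erg (m := D1 * D) (Nat.mul_pos hD0 hD1)
  obtain ⟨K', -, hK'⟩ := UAll.ucur F L.p_pos L.ε_pos L.α_pos.le
  obtain ⟨i, hi⟩ := hν'.exists_col L.ac (c := 2 * q.α) (by linarith [L.α_pos]) (L.u.mono hK') hc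
  have := (hν'.map i).pν
  have hS : MeasurableSet (ColS F.f^[D1 * D] (ν'.map F.f^[i]) ∩ Kc c) :=
    (measurableSet_colS (F.smf.1.measurable.iterate _) _).inter (cK c).measurableSet
  obtain ⟨d, j, w1, w2, w3, δ, ⟨k, rfl⟩, n1, n2, n3, hδ, h⟩ := L.step hν (cK c) hS
    inter_subset_right hi (ret_mod F (hν'.map i).eν ((hν'.map i).map_of_inv (hD _ hν'.one_le))
      ((hν'.map i).col_ac ((Measure.absolutelyContinuous_of_le
        (etaOn_mono Measure.restrict_le_self subset_rfl)).trans L.ac)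
        ((ae_restrict_mem hS).mono fun w hw => hw.1)))
  obtain ⟨n, ⟨e, h6⟩, e1, e2, e3⟩ := (((h.and h1).filter_mono hU).and
    ((n1.2 δ hδ).and ((n2.2 δ hδ).and (n3.2 δ hδ)))).exists
  obtain ⟨p, -, hp⟩ := (hν n).exists_mod
  have h7 : p ∣ D1 := Nat.modEq_zero_iff_dvd.1 ((hp D1 0).1 (by simpa using h6))
  have h8 := (hp _ _).1 (or_self_iff.1 (e c c c e2 e1 e3))
  have h9 : p ∣ D1 * D * k + D := by
    rw [← add_assoc] at h8
    exact Nat.modEq_zero_iff_dvd.1 (Nat.ModEq.add_left_cancel' (c + j) h8)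
  have h10 : p ∣ D := (Nat.dvd_add_right ((h7.mul_right D).mul_right k)).1 h9
  exact ⟨n, by simpa using (hp _ 0).2 (Nat.modEq_zero_iff_dvd.2 h10)⟩

end Pool.Agent.Lib.MP_e7c912_an
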